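import Pool.Agent.Lib.TU.StHO

/-!
# Module AppD: the monomial closure of a subring (paper 9.3)

`Dcl M c A = {z ∈ HL | ∀ N, ∃ a ∈ A, h ∈ HO, z = a + x^N h}`, `A ⊆ HL` a subring such that inverses of the
elements of `A` monomial for `c` are in `A`.
Products: let `z, z' ∈ x^(-K) HO` (`K ≥ 0` large).  For `‖x^N‖` small the approximations `a, a'` are in
`x^(-K) HO` too, `z z' - a a' = z (z' - a') + a' (z - a) ∈ x^(N - K) HO`.
Inverses: `z = x^b u` monomial, `a = z - x^N h = x^b (u - x^(N-b) h)` is monomial for `‖x^N‖ < ‖x^b‖`, so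
`a⁻¹ ∈ A`, `z⁻¹ - a⁻¹ = (a - z) / (z a) ∈ x^(N - 2b) HO`.
Closedness: `z - d ∈ x^N HO`, `d ∈ Dcl`, `d - a ∈ x^N HO`.
Refinement: `x^N ∈ x'^N' HO c'` if `‖x^N‖ ≤ ‖x'^N'‖` (`x^N` is monomial for `c'`).
Newton: `b_0 = b`, `b_(n+1) = b_n - P(b_n) / P'(b_n)`, all in `Dcl ∩ HO` and congruent to `b`,
`z - b_n ∈ x^(2^n a) HO` if `z - b ∈ x^a HO`, `‖x^a‖ < 1` (Taylor: `0 = P(z) = P(b_n) + P'(b_n)(z - b_n) + (z - b_n)^2 (..)`).
Then closedness.
-/

namespace Pool.Agent.Lib.TU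

open Pool.Agent.Lib.MP_3029eb_ag Pool.Agent.Lib.MP_3029eb_ag.Abh Pool.Agent.Lib.TDO

variable {k W : Type} [Field k] [NormedField W] [IsUltrametricDist W] [Algebra k W] {r m : ℕ}
  {M : IntermediateField k W} {c : Tri k W r} {A : Subring W}

/-- comparison of monomial neighbourhoods -/
private theorem appd_mono (hok : Ok m M c) {a b : Fin r → ℤ} (h : ‖mon c.x b‖ ≤ ‖mon c.x a‖)
    {u : W} (hu : u ∈ HO M c) : ∃ v ∈ HO M c, mon c.x b * u = mon c.x a * v := by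
  have ha : mon c.x a ≠ 0 := mon_ne c.x hok.par.ind.ne a
  have hpos : 0 < ‖mon c.x a‖ := norm_pos_iff.2 ha
  refine ⟨mon c.x (b - a) * u, mul_mem (mon_mem_HO hok ?_) hu, ?_⟩
  · rw [sub_eq_add_neg, mon_add c.x hok.par.ind.ne, mon_neg, norm_mul, norm_inv,
      ← div_eq_mul_inv, div_le_one hpos]
    exact h
  · rw [← mul_assoc, ← mon_add c.x hok.par.ind.ne, add_sub_cancel]

private theorem appd_pow_small (hr : 0 < r) (hok : Ok m M c) {a : Fin r → ℤ}
    (ha : ‖mon c.x a‖ < 1) (N : Fin r → ℤ) : ∃ n : ℕ, ‖mon c.x ((n + 1) • a)‖ ≤ ‖mon c.x N‖ := by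
  have hpos : 0 < ‖mon c.x N‖ := norm_pos_iff.2 (mon_ne c.x hok.par.ind.ne N)
  obtain ⟨n, hn⟩ := exists_pow_lt_of_lt_one hpos ha
  refine ⟨n, ?_⟩
  rw [mon_nsmul, norm_pow]
  exact (pow_le_pow_of_le_one (norm_nonneg _) ha.le (Nat.le_succ n)).trans hn.le

private theorem appd_eval_mem {R : Subring W} {P : Polynomial W} (hP : ∀ j, P.coeff j ∈ R) {b : W}
    (hb : b ∈ R) : P.eval b ∈ R := by
  rw [Polynomial.eval_eq_sum_range]
  exact sum_mem fun j _ => mul_mem (hP j) (pow_mem hb _)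

private theorem appd_der {R : Subring W} {P : Polynomial W} (hP : ∀ j, P.coeff j ∈ R) :
    ∀ j, (Polynomial.derivative P).coeff j ∈ R := by
  intro j
  rw [Polynomial.coeff_derivative]
  exact mul_mem (hP _) (add_mem (natCast_mem R j) (one_mem _))

private theorem appd_lift {R : Subring W} {P : Polynomial W} (hP : ∀ j, P.coeff j ∈ R) :
    ∃ Q : Polynomial R, Q.map R.subtype = P := by
  rw [← Polynomial.mem_lifts, Polynomial.lifts_iff_coeff_lifts]
  intro n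
  exact ⟨⟨P.coeff n, hP n⟩, rfl⟩

private theorem appd_eval_coe {R : Subring W} (Q : Polynomial R) (x : R) :
    ((Q.eval x : R) : W) = (Q.map R.subtype).eval (x : W) := by
  rw [Polynomial.eval_map]
  exact (Polynomial.eval₂_at_apply R.subtype x).symm

private theorem appd_tay {R : Subring W} {P : Polynomial W} (hP : ∀ j, P.coeff j ∈ R) {x y : W}
    (hx : x ∈ R) (hy : y ∈ R) : ∃ q ∈ R, P.eval (x + y) =
      P.eval x + (Polynomial.derivative P).eval x * y + q * y ^ 2 := by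
  obtain ⟨Q, rfl⟩ := appd_lift hP
  obtain ⟨q, hq⟩ := Polynomial.binomExpansion Q (⟨x, hx⟩ : R) ⟨y, hy⟩
  refine ⟨q, q.2, ?_⟩
  have h := congrArg (fun w : R => (w : W)) hq
  have e1 : ((Q.eval ((⟨x, hx⟩ : R) + ⟨y, hy⟩) : R) : W) = (Q.map R.subtype).eval (x + y) :=
    appd_eval_coe Q _
  have e2 : ((Q.eval (⟨x, hx⟩ : R) : R) : W) = (Q.map R.subtype).eval x := appd_eval_coe Q _
  have e3 : (((Polynomial.derivative Q).eval (⟨x, hx⟩ : R) : R) : W) =
      (Polynomial.derivative (Q.map R.subtype)).eval x := by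
    rw [Polynomial.derivative_map]
    exact appd_eval_coe _ _
  rw [← e1, ← e2, ← e3]
  exact h

private theorem appd_sub {R : Subring W} {P : Polynomial W} (hP : ∀ j, P.coeff j ∈ R) {x y : W}
    (hx : x ∈ R) (hy : y ∈ R) : ∃ q ∈ R, P.eval x - P.eval y = q * (x - y) := by
  obtain ⟨Q, rfl⟩ := appd_lift hP
  obtain ⟨q, hq⟩ := Polynomial.evalSubFactor Q (⟨x, hx⟩ : R) ⟨y, hy⟩
  refine ⟨q, q.2, ?_⟩
  have h := congrArg (fun w : R => (w : W)) hq
  have e1 : ((Q.eval (⟨x, hx⟩ : R) : R) : W) = (Q.map R.subtype).eval x := appd_eval_coe Q _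
  have e2 : ((Q.eval (⟨y, hy⟩ : R) : R) : W) = (Q.map R.subtype).eval y := appd_eval_coe Q _
  rw [← e1, ← e2]
  exact h

theorem Dcl_of_mem (hr : 0 < r) (hok : Ok m M c) (hA : ∀ a ∈ A, a ∈ HL M c) {z : W}
    (hz : z ∈ A) : z ∈ Dcl M c A :=
  ⟨hA z hz, fun N => ⟨z, hz, 0, zero_mem _, by rw [mul_zero, add_zero]⟩⟩

/-- `Dcl` is a subring. -/
theorem exists_DclS (hr : 0 < r) (hok : Ok m M c) (hA : ∀ a ∈ A, a ∈ HL M c) :
    ∃ D : Subring W, ∀ z, z ∈ D ↔ z ∈ Dcl M c A := by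
  have hx := hok.par.ind.ne
  refine ⟨{ carrier := Dcl M c A
            mul_mem' := ?_
            one_mem' := Dcl_of_mem hr hok hA (one_mem _)
            add_mem' := ?_
            zero_mem' := Dcl_of_mem hr hok hA (zero_mem _)
            neg_mem' := ?_ }, fun z => Iff.rfl⟩
  · rintro z z' ⟨hz, h⟩ ⟨hz', h'⟩
    refine ⟨mul_mem hz hz', fun N => ?_⟩
    obtain ⟨b, u, hu, hzu⟩ := (mem_HL_iff hok z).1 hz
    obtain ⟨b', u', hu', hzu'⟩ := (mem_HL_iff hok z').1 hz'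
    obtain ⟨a', ha', g', hg', e'⟩ := h' (N - b)
    obtain ⟨N2, h1, h2⟩ : ∃ N2 : Fin r → ℤ, ‖mon c.x (b' + N2)‖ ≤ ‖mon c.x N‖ ∧
        ‖mon c.x (N - b + N2)‖ ≤ ‖mon c.x N‖ := by
      rcases le_total ‖mon c.x b'‖ ‖mon c.x (N - b)‖ with hle | hle
      · refine ⟨N - (N - b), ?_, ?_⟩
        · have e1 : N = (N - b) + (N - (N - b)) := by abel
          conv_rhs => rw [e1]
          rw [mon_add c.x hx, mon_add c.x hx, norm_mul, norm_mul]
          exact mul_le_mul_of_nonneg_right hle (norm_nonneg _)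
        · rw [add_sub_cancel]
      · refine ⟨N - b', ?_, ?_⟩
        · rw [add_sub_cancel]
        · have e1 : N = b' + (N - b') := by abel
          conv_rhs => rw [e1]
          rw [mon_add c.x hx, mon_add c.x hx, norm_mul, norm_mul]
          exact mul_le_mul_of_nonneg_right hle (norm_nonneg _)
    obtain ⟨a, ha, g, hg, e⟩ := h N2
    obtain ⟨v1, hv1, f1⟩ := appd_mono hok h1 (mul_mem hu' hg)
    obtain ⟨v2, hv2, f2⟩ := appd_mono hok h2 (mul_mem hg' hg)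
    refine ⟨a * a', mul_mem ha ha', u * g' + v1 - v2,
      sub_mem (add_mem (mul_mem hu hg') hv1) hv2, ?_⟩
    have f3 : mon c.x b * mon c.x (N - b) = mon c.x N := by
      rw [← mon_add c.x hx, add_sub_cancel]
    have f4 : mon c.x N * (u * g' + v1 - v2) = mon c.x b * mon c.x (N - b) * (u * g') +
        mon c.x (b' + N2) * (u' * g) - mon c.x (N - b + N2) * (g' * g) := by
      rw [f1, f2, f3]; ring
    have f5 : a' = z' - mon c.x (N - b) * g' := by rw [e']; ring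
    have f6 : z * z' = a * a' + (z * (z' - a') + a' * (z - a)) := by ring
    rw [f6]
    congr 1
    rw [f4, mon_add c.x hx, mon_add c.x hx]
    have f7 : z' - a' = mon c.x (N - b) * g' := by rw [f5]; ring
    have f8 : z - a = mon c.x N2 * g := by rw [e]; ring
    rw [f7, f8, f5, hzu']
    conv_lhs => rw [hzu]
    ring
  · rintro z z' ⟨hz, h⟩ ⟨hz', h'⟩
    refine ⟨add_mem hz hz', fun N => ?_⟩
    obtain ⟨a, ha, g, hg, e⟩ := h N
    obtain ⟨a', ha', g', hg', e'⟩ := h' N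
    refine ⟨a + a', add_mem ha ha', g + g', add_mem hg hg', ?_⟩
    rw [e, e']; ring
  · rintro z ⟨hz, h⟩
    refine ⟨neg_mem hz, fun N => ?_⟩
    obtain ⟨a, ha, g, hg, e⟩ := h N
    refine ⟨-a, neg_mem ha, -g, neg_mem hg, ?_⟩
    rw [e]; ring

theorem Dcl_inv (hr : 0 < r) (hok : Ok m M c) (hA : ∀ a ∈ A, a ∈ HL M c)
    (hinv : ∀ a ∈ A, MoH M c a → a⁻¹ ∈ A) {z : W} (hz : z ∈ Dcl M c A) (h : MoH M c z) :
    z⁻¹ ∈ Dcl M c A := by
  have hx := hok.par.ind.ne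
  refine ⟨(h.inv hok).mem_HL hok, fun N => ?_⟩
  obtain ⟨b, u, hu, hu1, hzu⟩ := h
  obtain ⟨-, h⟩ := hz
  have hpb : 0 < ‖mon c.x b‖ := norm_pos_iff.2 (mon_ne c.x hx b)
  have hpN : 0 < ‖mon c.x (N + (b + b))‖ := norm_pos_iff.2 (mon_ne c.x hx _)
  obtain ⟨N1, -, hN1⟩ := exists_mon_lt hr hok.par.ind (min ‖mon c.x b‖ ‖mon c.x (N + (b + b))‖)
    (lt_min hpb hpN)
  obtain ⟨a, ha, g, hg, e⟩ := h N1
  have hN1b : ‖mon c.x (N1 - b)‖ < 1 := by
    rw [sub_eq_add_neg, mon_add c.x hx, mon_neg, norm_mul, norm_inv, ← div_eq_mul_inv,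
      div_lt_one hpb]
    exact hN1.trans_le (min_le_left _ _)
  have hu0 : u ≠ 0 := norm_pos_iff.1 (by rw [hu1]; exact one_pos)
  obtain ⟨u', hu'⟩ : ∃ u' : W, u' = u - mon c.x (N1 - b) * g := ⟨_, rfl⟩
  have hsm : ‖mon c.x (N1 - b) * g‖ < 1 := by
    rw [norm_mul]
    exact lt_of_le_of_lt (mul_le_of_le_one_right (norm_nonneg _) (HO_norm_le hok hg)) hN1b
  have hu'O : u' ∈ HO M c := by
    rw [hu']
    exact sub_mem hu (mul_mem (mon_mem_HO hok hN1b.le) hg)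
  have hu'1 : ‖u'‖ = 1 := by
    rw [hu', sub_eq_add_neg, IsUltrametricDist.norm_add_eq_max_of_norm_ne_norm, norm_neg, hu1,
      max_eq_left hsm.le]
    rw [norm_neg, hu1]
    exact hsm.ne'
  have hu'0 : u' ≠ 0 := norm_pos_iff.1 (by rw [hu'1]; exact one_pos)
  have hau : a = mon c.x b * u' := by
    have e1 : a = z - mon c.x N1 * g := by rw [e]; ring
    have e2 : mon c.x N1 = mon c.x b * mon c.x (N1 - b) := by
      rw [← mon_add c.x hx, add_sub_cancel]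
    rw [e1, hu', e2, hzu]; ring
  have haM : MoH M c a := ⟨b, u', hu'O, hu'1, hau⟩
  have hmb : mon c.x b ≠ 0 := mon_ne c.x hx b
  have hle : ‖mon c.x (N1 - (b + b))‖ ≤ ‖mon c.x N‖ := by
    have hpos : 0 < ‖mon c.x (b + b)‖ := norm_pos_iff.2 (mon_ne c.x hx _)
    rw [sub_eq_add_neg, mon_add c.x hx, mon_neg, norm_mul, norm_inv, ← div_eq_mul_inv,
      div_le_iff₀ hpos, ← norm_mul, ← mon_add c.x hx]
    exact hN1.le.trans (min_le_right _ _)
  obtain ⟨v, hv, f1⟩ := appd_mono hok hle (neg_mem (mul_mem (mul_mem hg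
    (inv_mem_HO hok hu hu1)) (inv_mem_HO hok hu'O hu'1)))
  refine ⟨a⁻¹, hinv a ha haM, v, hv, ?_⟩
  rw [← f1]
  have e3 : mon c.x N1 = mon c.x b * mon c.x b * mon c.x (N1 - (b + b)) := by
    rw [← mon_add c.x hx, ← mon_add c.x hx, add_sub_cancel]
  have e4 : mon c.x (N1 - (b + b)) * g = (u - u') * (mon c.x b)⁻¹ := by
    have e5 : mon c.x (N1 - b) = mon c.x b * mon c.x (N1 - (b + b)) := by
      rw [← mon_add c.x hx]
      congr 1
      abel
    rw [hu', e5]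
    field_simp
    ring
  have e6 : mon c.x (N1 - (b + b)) * -(g * u⁻¹ * u'⁻¹) =
      -((mon c.x (N1 - (b + b)) * g) * u⁻¹ * u'⁻¹) := by ring
  rw [e6, e4, hau, hzu]
  field_simp
  ring

theorem Dcl_closed (hr : 0 < r) (hok : Ok m M c) {z : W} (hz : z ∈ HL M c)
    (h : ∀ N : Fin r → ℤ, ∃ d ∈ Dcl M c A, ∃ h ∈ HO M c, z = d + mon c.x N * h) :
    z ∈ Dcl M c A := by
  refine ⟨hz, fun N => ?_⟩
  obtain ⟨d, hd, g, hg, e⟩ := h N
  obtain ⟨a, ha, g', hg', e'⟩ := hd.2 N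
  refine ⟨a, ha, g' + g, add_mem hg' hg, ?_⟩
  rw [e, e']; ring

/-- Newton approximation. -/
theorem Dcl_newton (hr : 0 < r) (hok : Ok m M c) (hA : ∀ a ∈ A, a ∈ HL M c)
    (hinv : ∀ a ∈ A, MoH M c a → a⁻¹ ∈ A) (P : Polynomial W)
    (hP : ∀ j, P.coeff j ∈ Dcl M c A ∧ P.coeff j ∈ HO M c) {b z : W}
    (hb : b ∈ Dcl M c A ∧ b ∈ HO M c) (hz : z ∈ HO M c) (h0 : P.eval z = 0)
    (hbz : z - b ∈ QH M c) (h1 : ‖P.derivative.eval b‖ = 1) : z ∈ Dcl M c A := by
  have hx := hok.par.ind.ne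
  obtain ⟨D, hD⟩ := exists_DclS hr hok hA
  have hPO : ∀ j, P.coeff j ∈ HO M c := fun j => (hP j).2
  have hPD : ∀ j, P.coeff j ∈ D := fun j => (hD _).2 (hP j).1
  obtain ⟨a0, ha0, g0, hg0, hzb⟩ := hbz
  -- the derivative is a unit at all points congruent to `z`
  have hunit0 : ‖P.derivative.eval z‖ = 1 := by
    obtain ⟨q, hq, e⟩ := appd_sub (appd_der hPO) hz hb.2
    have h2 : ‖P.derivative.eval z - P.derivative.eval b‖ < 1 := by
      rw [e, hzb, norm_mul, norm_mul]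
      calc ‖q‖ * (‖mon c.x a0‖ * ‖g0‖) ≤ 1 * (‖mon c.x a0‖ * 1) := by
            apply mul_le_mul (HO_norm_le hok hq) _ (by positivity) zero_le_one
            exact mul_le_mul_of_nonneg_left (HO_norm_le hok hg0) (norm_nonneg _)
        _ < 1 := by rw [one_mul, mul_one]; exact ha0
    have e2 : P.derivative.eval z =
        P.derivative.eval b + (P.derivative.eval z - P.derivative.eval b) := by ring
    rw [e2, IsUltrametricDist.norm_add_eq_max_of_norm_ne_norm (by rw [h1]; exact h2.ne'), h1]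
    exact max_eq_left h2.le
  have hunit : ∀ b' ∈ HO M c, ‖z - b'‖ < 1 → ‖P.derivative.eval b'‖ = 1 := by
    intro b' hb' hlt
    obtain ⟨q, hq, e⟩ := appd_sub (appd_der hPO) hb' hz
    have h2 : ‖P.derivative.eval b' - P.derivative.eval z‖ < 1 := by
      rw [e, norm_mul, norm_sub_rev b' z]
      exact lt_of_le_of_lt (mul_le_of_le_one_left (norm_nonneg _) (HO_norm_le hok hq)) hlt
    have e2 : P.derivative.eval b' =
        P.derivative.eval z + (P.derivative.eval b' - P.derivative.eval z) := by ring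
    rw [e2, IsUltrametricDist.norm_add_eq_max_of_norm_ne_norm (by rw [hunit0]; exact h2.ne'),
      hunit0]
    exact max_eq_left h2.le
  have hseq : ∀ n : ℕ, ∃ b', b' ∈ D ∧ b' ∈ HO M c ∧ ∃ g ∈ HO M c,
      z - b' = mon c.x ((n + 1) • a0) * g := by
    intro n
    induction n with
    | zero =>
      exact ⟨b, (hD b).2 hb.1, hb.2, g0, hg0, by rw [zero_add, one_smul]; exact hzb⟩
    | succ n ih =>
      obtain ⟨b', hb'D, hb'O, g, hg, e⟩ := ih
      have hsm : ‖mon c.x ((n + 1) • a0)‖ < 1 := by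
        rw [mon_nsmul, norm_pow]
        exact pow_lt_one₀ (norm_nonneg _) ha0 (by omega)
      have hlt : ‖z - b'‖ < 1 := by
        rw [e, norm_mul]
        exact lt_of_le_of_lt (mul_le_of_le_one_right (norm_nonneg _) (HO_norm_le hok hg)) hsm
      have hu1 := hunit b' hb'O hlt
      obtain ⟨u, hu⟩ : ∃ u : W, u = P.derivative.eval b' := ⟨_, rfl⟩
      rw [← hu] at hu1
      have hu0 : u ≠ 0 := norm_pos_iff.1 (by rw [hu1]; exact one_pos)
      have huO : u ∈ HO M c := by rw [hu]; exact appd_eval_mem (appd_der hPO) hb'O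
      have huD : u ∈ D := by rw [hu]; exact appd_eval_mem (appd_der hPD) hb'D
      have huiO : u⁻¹ ∈ HO M c := inv_mem_HO hok huO hu1
      have huiD : u⁻¹ ∈ D := (hD _).2 (Dcl_inv hr hok hA hinv ((hD _).1 huD)
        (MoH.of_unit huO hu1))
      have hPb : P.eval b' ∈ D ∧ P.eval b' ∈ HO M c :=
        ⟨appd_eval_mem hPD hb'D, appd_eval_mem hPO hb'O⟩
      obtain ⟨q, hq, ht⟩ := appd_tay hPO hb'O (sub_mem hz hb'O)
      rw [add_sub_cancel, h0, ← hu] at ht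
      have hle : ‖mon c.x ((n + 1) • a0 + (n + 1) • a0)‖ ≤ ‖mon c.x ((n + 1 + 1) • a0)‖ := by
        rw [← add_smul, mon_nsmul, mon_nsmul, norm_pow, norm_pow]
        exact pow_le_pow_of_le_one (norm_nonneg _) ha0.le (by omega)
      obtain ⟨v, hv, f1⟩ := appd_mono hok hle (neg_mem (mul_mem (mul_mem hq
        (pow_mem hg 2)) huiO))
      refine ⟨b' - P.eval b' * u⁻¹, sub_mem hb'D (mul_mem hPb.1 huiD),
        sub_mem hb'O (mul_mem hPb.2 huiO), v, hv, ?_⟩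
      rw [← f1, mon_add c.x hx]
      have e3 : P.eval b' = -(u * (z - b')) - q * (z - b') ^ 2 := by linear_combination -ht
      rw [e3]
      have e4 : z - (b' - (-(u * (z - b')) - q * (z - b') ^ 2) * u⁻¹) =
          -(q * (z - b') ^ 2 * u⁻¹) := by
        field_simp
        ring
      rw [e4, e]
      ring
  refine Dcl_closed hr hok (HO_le_HL hz) fun N => ?_
  obtain ⟨n, hn⟩ := appd_pow_small hr hok ha0 N
  obtain ⟨b', hb'D, -, g, hg, e⟩ := hseq n
  obtain ⟨v, hv, f1⟩ := appd_mono hok hn hg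
  refine ⟨b', (hD b').1 hb'D, v, hv, ?_⟩
  rw [← f1, ← e]
  ring

theorem Dcl_refine (hr : 0 < r) {S L : IntermediateField k W} {c' : Tri k W r}
    (hc : Ch m S L c) (h : RfS m S L c c') {A' : Subring W} (hAA' : A ≤ A') {z : W}
    (hz : z ∈ Dcl (S ⊓ L) c A) : z ∈ Dcl (S ⊓ L) c' A' := by
  have hok := hc.ok
  have hok' := (RfS.ch hc h).ok
  refine ⟨RfS.HL_le hr hc h hz.1, fun N => ?_⟩
  have hpos : 0 < ‖mon c'.x N‖ := norm_pos_iff.2 (mon_ne c'.x hok'.par.ind.ne N)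
  obtain ⟨N1, -, hN1⟩ := exists_mon_lt hr hok.par.ind _ hpos
  obtain ⟨a, ha, g, hg, e⟩ := hz.2 N1
  obtain ⟨b, u, hu, hu1, hbu⟩ := RfS.moH hr hc h (MoH.of_mon hok N1)
  have hle : ‖mon c'.x b‖ ≤ ‖mon c'.x N‖ := by
    have h2 : ‖mon c.x N1‖ = ‖mon c'.x b‖ := by rw [hbu, norm_mul, hu1, mul_one]
    rw [← h2]
    exact hN1.le
  obtain ⟨v, hv, f1⟩ := appd_mono hok' hle (mul_mem hu (RfS.HO_le hr hc h hg))
  refine ⟨a, hAA' ha, v, hv, ?_⟩
  rw [← f1, ← mul_assoc, ← hbu]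
  exact e

theorem mem_Afr_iff (hok : Ok m M c) (z : W) :
    z ∈ Afr M c A ↔ ∃ n ∈ A, ∃ d ∈ A, MoH M c d ∧ z * d = n := by
  constructor
  · intro hz
    unfold Afr at hz
    induction hz using Subring.closure_induction with
    | mem x hx => exact hx
    | zero =>
      exact ⟨0, zero_mem _, 1, one_mem _, MoH.of_unit (one_mem _) norm_one, by rw [zero_mul]⟩
    | one =>
      exact ⟨1, one_mem _, 1, one_mem _, MoH.of_unit (one_mem _) norm_one, by rw [one_mul]⟩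
    | add x y _ _ hx hy =>
      obtain ⟨n, hn, d, hd, hdM, e⟩ := hx
      obtain ⟨n', hn', d', hd', hdM', e'⟩ := hy
      refine ⟨n * d' + n' * d, add_mem (mul_mem hn hd') (mul_mem hn' hd), d * d',
        mul_mem hd hd', hdM.mul hok hdM', ?_⟩
      rw [← e, ← e']; ring
    | neg x _ hx =>
      obtain ⟨n, hn, d, hd, hdM, e⟩ := hx
      exact ⟨-n, neg_mem hn, d, hd, hdM, by rw [← e]; ring⟩
    | mul x y _ _ hx hy =>
      obtain ⟨n, hn, d, hd, hdM, e⟩ := hx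
      obtain ⟨n', hn', d', hd', hdM', e'⟩ := hy
      refine ⟨n * n', mul_mem hn hn', d * d', mul_mem hd hd', hdM.mul hok hdM', ?_⟩
      rw [← e, ← e']; ring
  · intro hz
    exact Subring.subset_closure hz

/-- Fractions with monomial denominators: the conditions on the subring. -/
theorem Afr_HL (hok : Ok m M c) (hA : ∀ a ∈ A, a ∈ HL M c) : ∀ a ∈ Afr M c A, a ∈ HL M c := by
  intro a ha
  obtain ⟨n, hn, d, hd, hdM, e⟩ := (mem_Afr_iff hok a).1 ha
  have h1 : a = n * d⁻¹ := by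
    rw [← e, mul_assoc, mul_inv_cancel₀ (hdM.ne hok), mul_one]
  rw [h1]
  exact mul_mem (hA n hn) ((hdM.inv hok).mem_HL hok)

theorem Afr_inv (hok : Ok m M c) : ∀ a ∈ Afr M c A, MoH M c a → a⁻¹ ∈ Afr M c A := by
  intro a ha haM
  obtain ⟨n, hn, d, hd, hdM, e⟩ := (mem_Afr_iff hok a).1 ha
  refine (mem_Afr_iff hok _).2 ⟨d, hd, n, hn, ?_, ?_⟩
  · rw [← e]
    exact haM.mul hok hdM
  · rw [← e, ← mul_assoc, inv_mul_cancel₀ (haM.ne hok), one_mul]

theorem Afr_le (hok : Ok m M c) : A ≤ Afr M c A := fun a ha =>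
  (mem_Afr_iff hok a).2 ⟨a, ha, 1, one_mem _, MoH.of_unit (one_mem _) norm_one, by rw [mul_one]⟩

end Pool.Agent.Lib.TU
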