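import Pool.Agent.Lib.TU.HOb
import Pool.Agent.Lib.MP_3029eb_ag.AbhBase

/-!
# Module HOcr: the criterion for elements of `HO M c`; henselian property

`HO_crit`: finitely many elements of `HO M c` occur in the given decompositions (and in the numerators
and denominators of their coefficients); take a model `(x1, G1)` containing them such that the
finitely many monomials `mon c.x a` are monomials in `x1` with all exponents `≥ 1` (`exists_model`).  Then
`(x1, G1 ∪ G)` is a model: the coefficients are in `Bu c x1 (G1 ∪ G)`, and `mon c.x a` is in the ideal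
generated by the `x1 i` (`r > 0`, as `‖mon c.x a‖ < 1`).  So `G ⊆ Bu c x1 (G1 ∪ G) ⊆ HO M c`.
`hen`: `0 = P(t) = p_0 + t (p_1 + p_2 t + ..)`, the bracket `u` is in `closure (HO ∪ {t})` of norm one;
`p_0 = q + b y` (`HO_gen`, `‖p_0‖ < 1`) with `q = mon c.x a * h`: `t = - (q + b y) / u` is a decomposition
as in `HO_crit` with `e = 0`.
-/

namespace Pool.Agent.Lib.TU

open Pool.Agent.Lib.MP_3029eb_ag Pool.Agent.Lib.MP_3029eb_ag.Abh Pool.Agent.Lib.TDO

variable {k W : Type} [Field k] [NormedField W] [IsUltrametricDist W] [Algebra k W] {r m : ℕ}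
  {M : IntermediateField k W} {c : Tri k W r}

/-- an element of a ring generated by `S ∪ T` involves finitely many elements of `S` -/
private theorem hocr_fin {W : Type} [Field W] {S T : Set W} {z : W}
    (hz : z ∈ Subring.closure (S ∪ T)) :
    ∃ Z : Finset W, (Z : Set W) ⊆ S ∧ z ∈ Subring.closure ((Z : Set W) ∪ T) := by
  classical
  have hmono1 : ∀ (Z1 Z2 : Finset W) (w : W), w ∈ Subring.closure ((Z1 : Set W) ∪ T) →
      w ∈ Subring.closure (((Z1 ∪ Z2 : Finset W) : Set W) ∪ T) := by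
    intro Z1 Z2 w hw
    refine Subring.closure_mono ?_ hw
    rw [Finset.coe_union]
    exact Set.union_subset_union_left T Set.subset_union_left
  have hmono2 : ∀ (Z1 Z2 : Finset W) (w : W), w ∈ Subring.closure ((Z2 : Set W) ∪ T) →
      w ∈ Subring.closure (((Z1 ∪ Z2 : Finset W) : Set W) ∪ T) := by
    intro Z1 Z2 w hw
    refine Subring.closure_mono ?_ hw
    rw [Finset.coe_union]
    exact Set.union_subset_union_left T Set.subset_union_right
  induction hz using Subring.closure_induction with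
  | mem x hx =>
    rcases hx with hx | hx
    · exact ⟨{x}, by simpa using hx, Subring.subset_closure (Or.inl (by simp))⟩
    · exact ⟨∅, by simp, Subring.subset_closure (Or.inr hx)⟩
  | zero => exact ⟨∅, by simp, zero_mem _⟩
  | one => exact ⟨∅, by simp, one_mem _⟩
  | add x y _ _ hx hy =>
    obtain ⟨Z1, h1, h1'⟩ := hx
    obtain ⟨Z2, h2, h2'⟩ := hy
    exact ⟨Z1 ∪ Z2, by rw [Finset.coe_union]; exact Set.union_subset h1 h2,
      add_mem (hmono1 _ _ _ h1') (hmono2 _ _ _ h2')⟩
  | neg x _ hx =>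
    obtain ⟨Z1, h1, h1'⟩ := hx
    exact ⟨Z1, h1, neg_mem h1'⟩
  | mul x y _ _ hx hy =>
    obtain ⟨Z1, h1, h1'⟩ := hx
    obtain ⟨Z2, h2, h2'⟩ := hy
    exact ⟨Z1 ∪ Z2, by rw [Finset.coe_union]; exact Set.union_subset h1 h2,
      mul_mem (hmono1 _ _ _ h1') (hmono2 _ _ _ h2')⟩

/-- the same for the localization -/
private theorem hocr_loc {S T : Set W} {z : W}
    (hz : z ∈ locV (ball W) (Subring.closure (S ∪ T))) :
    ∃ Z : Finset W, (Z : Set W) ⊆ S ∧ ∃ n d : W, n ∈ Subring.closure ((Z : Set W) ∪ T) ∧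
      d ∈ Subring.closure ((Z : Set W) ∪ T) ∧ ‖d‖ = 1 ∧ z * d = n := by
  classical
  obtain ⟨n, hn, d, hd, hd1, h⟩ := hz
  obtain ⟨Z1, h1, h1'⟩ := hocr_fin hn
  obtain ⟨Z2, h2, h2'⟩ := hocr_fin hd
  refine ⟨Z1 ∪ Z2, by rw [Finset.coe_union]; exact Set.union_subset h1 h2, n, d, ?_, ?_,
    (ball_val_eq_one d).1 hd1, h⟩
  · refine Subring.closure_mono ?_ h1'
    rw [Finset.coe_union]
    exact Set.union_subset_union_left T Set.subset_union_left
  · refine Subring.closure_mono ?_ h2'
    rw [Finset.coe_union]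
    exact Set.union_subset_union_left T Set.subset_union_right

/-- factor out one variable of a monomial -/
private theorem hocr_monN {W : Type} [Field W] {r : ℕ} (x : Fin r → W) (β : Fin r → ℕ) (i0 : Fin r)
    (h : 1 ≤ β i0) :
    monN x β = monN x (fun i => if i = i0 then β i - 1 else β i) * x i0 := by
  have h1 : x i0 = ∏ i, if i = i0 then x i else 1 := by
    rw [Finset.prod_ite_eq' Finset.univ i0 x, if_pos (Finset.mem_univ _)]
  unfold monN
  conv_rhs => rw [h1]
  rw [← Finset.prod_mul_distrib]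
  refine Finset.prod_congr rfl fun i _ => ?_
  show x i ^ β i = x i ^ (if i = i0 then β i - 1 else β i) * (if i = i0 then x i else 1)
  by_cases hi : i = i0
  · rw [if_pos hi, if_pos hi, ← pow_succ, Nat.sub_add_cancel (by rw [hi]; exact h)]
  · rw [if_neg hi, if_neg hi, mul_one]

/-- See the header. -/
theorem HO_crit (hok : Ok m M c) (G : Finset W) (hG : ∀ g ∈ G, g ∈ M ∧ ‖g‖ ≤ 1)
    (hdec : ∀ g ∈ G, ∃ e ∈ c.C, ∃ a : Fin r → ℤ, ‖mon c.x a‖ < 1 ∧
      ∃ b1 ∈ locV (ball W) (Subring.closure ((HO M c : Set W) ∪ (G : Set W))),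
      ∃ b0 ∈ locV (ball W) (Subring.closure ((HO M c : Set W) ∪ (G : Set W))),
        g = e + mon c.x a * b1 + b0 * c.y) : ∀ g ∈ G, g ∈ HO M c := by
  classical
  have h1 : ∀ g : W, ∃ (e : W) (a : Fin r → ℤ) (b1 b0 : W) (Z : Finset W), g ∈ G →
      e ∈ c.C ∧ ‖mon c.x a‖ < 1 ∧ g = e + mon c.x a * b1 + b0 * c.y ∧
      (Z : Set W) ⊆ (HO M c : Set W) ∧
      (∃ n d : W, n ∈ Subring.closure ((Z : Set W) ∪ (G : Set W)) ∧
        d ∈ Subring.closure ((Z : Set W) ∪ (G : Set W)) ∧ ‖d‖ = 1 ∧ b1 * d = n) ∧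
      (∃ n d : W, n ∈ Subring.closure ((Z : Set W) ∪ (G : Set W)) ∧
        d ∈ Subring.closure ((Z : Set W) ∪ (G : Set W)) ∧ ‖d‖ = 1 ∧ b0 * d = n) := by
    intro g
    by_cases hg : g ∈ G
    · obtain ⟨e, he, a, ha, b1, hb1, b0, hb0, hgdec⟩ := hdec g hg
      obtain ⟨Z1, hZ1, n1, d1, hn1, hd1, hd1', h1'⟩ := hocr_loc hb1
      obtain ⟨Z0, hZ0, n0, d0, hn0, hd0, hd0', h0'⟩ := hocr_loc hb0
      have hm1 : ∀ w, w ∈ Subring.closure ((Z1 : Set W) ∪ (G : Set W)) →
          w ∈ Subring.closure (((Z1 ∪ Z0 : Finset W) : Set W) ∪ (G : Set W)) := by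
        intro w hw
        refine Subring.closure_mono ?_ hw
        rw [Finset.coe_union]
        exact Set.union_subset_union_left _ Set.subset_union_left
      have hm0 : ∀ w, w ∈ Subring.closure ((Z0 : Set W) ∪ (G : Set W)) →
          w ∈ Subring.closure (((Z1 ∪ Z0 : Finset W) : Set W) ∪ (G : Set W)) := by
        intro w hw
        refine Subring.closure_mono ?_ hw
        rw [Finset.coe_union]
        exact Set.union_subset_union_left _ Set.subset_union_right
      exact ⟨e, a, b1, b0, Z1 ∪ Z0, fun _ => ⟨he, ha, hgdec,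
        by rw [Finset.coe_union]; exact Set.union_subset hZ1 hZ0,
        ⟨n1, d1, hm1 _ hn1, hm1 _ hd1, hd1', h1'⟩, ⟨n0, d0, hm0 _ hn0, hm0 _ hd0, hd0', h0'⟩⟩⟩
    · exact ⟨0, 0, 0, 0, ∅, fun h => absurd h hg⟩
  choose e a b1 b0 Z hdata using h1
  obtain ⟨x1, G1, hmdl, hZB, hmon⟩ := exists_model hok (G.biUnion Z)
    (fun z hz => by
      obtain ⟨g, hg, hzg⟩ := Finset.mem_biUnion.1 hz
      exact (hdata g hg).2.2.2.1 hzg) (G.image a)
    (fun b hb => by
      obtain ⟨g, hg, rfl⟩ := Finset.mem_image.1 hb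
      exact (hdata g hg).2.1.le)
  have hind : Indep x1 := hmdl.mt.ind
  have hnorm : ∀ g ∈ G1 ∪ G, ‖g‖ ≤ 1 := by
    intro g hg
    rcases Finset.mem_union.1 hg with h | h
    · exact (hmdl.gM g h).2
    · exact (hG g h).2
  have hle : ∀ z ∈ Bu c x1 G1, z ∈ Bu c x1 (G1 ∪ G) := fun z hz =>
    Bu_le (Bu c x1 (G1 ∪ G)) (fun w hw => C_mem_Bu hok hind hnorm hw)
      (fun i => x_mem_Bu hok hind hnorm i) (y_mem_Bu hok hind hnorm)
      (fun g hg => G_mem_Bu hok hind hnorm (Finset.mem_union_left _ hg))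
      (fun w hw h1 => inv_mem_Bu hw h1) hz
  have hGB : ∀ g ∈ G, g ∈ Bu c x1 (G1 ∪ G) := fun g hg =>
    G_mem_Bu hok hind hnorm (Finset.mem_union_right _ hg)
  -- quotients
  have hquot : ∀ g ∈ G, ∀ b : W, (∃ n d : W, n ∈ Subring.closure ((Z g : Set W) ∪ (G : Set W)) ∧
        d ∈ Subring.closure ((Z g : Set W) ∪ (G : Set W)) ∧ ‖d‖ = 1 ∧ b * d = n) →
        b ∈ Bu c x1 (G1 ∪ G) := by
    rintro g hg b ⟨n, d, hn, hd, hd1, hbd⟩
    have hcl : ∀ w, w ∈ Subring.closure ((Z g : Set W) ∪ (G : Set W)) →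
        w ∈ Bu c x1 (G1 ∪ G) := by
      intro w hw
      refine (Subring.closure_le.2 ?_ : Subring.closure ((Z g : Set W) ∪ (G : Set W)) ≤
        Bu c x1 (G1 ∪ G)) hw
      rintro v (hv | hv)
      · exact hle v (hZB v (Finset.mem_biUnion.2 ⟨g, hg, hv⟩))
      · exact hGB v hv
    have hd0 : d ≠ 0 := by
      rintro rfl
      rw [norm_zero] at hd1
      exact zero_ne_one hd1
    have hb : b = n * d⁻¹ := by rw [← hbd, mul_assoc, mul_inv_cancel₀ hd0, mul_one]
    rw [hb]
    exact mul_mem (hcl n hn) (inv_mem_Bu (hcl d hd) hd1)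
  -- the model
  have hmdl' : Mdl M c x1 (G1 ∪ G) := by
    refine ⟨hmdl.mt, ?_, ?_⟩
    · intro g hg
      rcases Finset.mem_union.1 hg with h | h
      · exact hmdl.gM g h
      · exact hG g h
    · intro g hg
      rcases Finset.mem_union.1 hg with h | h
      · obtain ⟨e', he', b, b0', hb, hb0, heq⟩ := hmdl.dec g h
        exact ⟨e', he', b, b0', fun i => hle _ (hb i), hle _ hb0, heq⟩
      · obtain ⟨he, ha, hgdec, hZ, hq1, hq0⟩ := hdata g h
        obtain ⟨β, hβ, hβ1⟩ := hmon (a g) (Finset.mem_image.2 ⟨g, h, rfl⟩)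
        have hr : 0 < r := by
          rcases Nat.eq_zero_or_pos r with h0 | h0
          · exfalso
            subst h0
            have : mon c.x (a g) = 1 := by
              unfold mon
              exact Finset.prod_of_isEmpty _
            rw [this, norm_one] at ha
            exact lt_irrefl _ ha
          · exact h0
        set i0 : Fin r := ⟨0, hr⟩ with hi0
        have hβi : 1 ≤ β i0 := hβ1 ha i0
        refine ⟨e g, he, Pi.single i0 (monN x1 (fun i => if i = i0 then β i - 1 else β i) * b1 g),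
          b0 g, ?_, hquot g h _ hq0, ?_⟩
        · intro i
          by_cases hi : i = i0
          · rw [hi, Pi.single_eq_same]
            exact mul_mem (monN_mem_Bu hok hind hnorm _) (hquot g h _ hq1)
          · rw [Pi.single_eq_of_ne hi]
            exact zero_mem _
        · have hsum : ∑ i, (Pi.single i0
              (monN x1 (fun i => if i = i0 then β i - 1 else β i) * b1 g) : Fin r → W) i * x1 i =
              mon c.x (a g) * b1 g := by
            rw [Finset.sum_eq_single i0]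
            · rw [Pi.single_eq_same, hβ, hocr_monN x1 β i0 hβi]
              ring
            · intro i _ hi
              rw [Pi.single_eq_of_ne hi, zero_mul]
            · intro hcon
              exact absurd (Finset.mem_univ _) hcon
          rw [hsum]
          exact hgdec
  intro g hg
  exact (mem_HO_iff hok g).2 ⟨x1, G1 ∪ G, hmdl', hGB g hg⟩

/-- See the header. -/
theorem hen (hr : 0 < r) (hok : Ok m M c) (P : Polynomial W) (hP : ∀ j, P.coeff j ∈ HO M c)
    (h1 : ‖P.coeff 1‖ = 1) {t : W} (ht : t ∈ M) (ht1 : ‖t‖ < 1) (h0 : P.eval t = 0) :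
    t ∈ HO M c := by
  classical
  have htc : t ∈ Subring.closure ((HO M c : Set W) ∪ (({t} : Finset W) : Set W)) :=
    Subring.subset_closure (Or.inr (Finset.mem_coe.2 (Finset.mem_singleton_self t)))
  have hHc : ∀ w ∈ HO M c,
      w ∈ Subring.closure ((HO M c : Set W) ∪ (({t} : Finset W) : Set W)) := fun w hw =>
    Subring.subset_closure (Or.inl hw)
  -- values of polynomials with coefficients in `HO`
  have hev : ∀ Q : Polynomial W, (∀ j, Q.coeff j ∈ HO M c) →
      Q.eval t ∈ Subring.closure ((HO M c : Set W) ∪ (({t} : Finset W) : Set W)) ∧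
      ‖Q.eval t‖ ≤ 1 := by
    intro Q hQ
    rw [Polynomial.eval_eq_sum_range]
    refine ⟨sum_mem fun i _ => mul_mem (hHc _ (hQ i)) (pow_mem htc i), ?_⟩
    refine IsUltrametricDist.norm_sum_le_of_forall_le_of_nonneg zero_le_one fun i _ => ?_
    rw [norm_mul, norm_pow]
    exact mul_le_one₀ (HO_norm_le hok (hQ i)) (pow_nonneg (norm_nonneg _) _)
      (pow_le_one₀ (norm_nonneg _) ht1.le)
  set u : W := P.divX.eval t with hu
  have hP1 : P.eval t = u * t + P.coeff 0 := by
    conv_lhs => rw [← Polynomial.divX_mul_X_add P]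
    rw [Polynomial.eval_add, Polynomial.eval_mul, Polynomial.eval_X, Polynomial.eval_C]
  have hdiv : ∀ j, P.divX.coeff j ∈ HO M c := fun j => by
    rw [Polynomial.coeff_divX]
    exact hP _
  have hdiv2 : ∀ j, P.divX.divX.coeff j ∈ HO M c := fun j => by
    rw [Polynomial.coeff_divX]
    exact hdiv _
  have hu1 : u = P.divX.divX.eval t * t + P.coeff 1 := by
    rw [hu]
    conv_lhs => rw [← Polynomial.divX_mul_X_add P.divX]
    rw [Polynomial.eval_add, Polynomial.eval_mul, Polynomial.eval_X, Polynomial.eval_C,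
      Polynomial.coeff_divX]
  have hun : ‖u‖ = 1 := by
    have hlt : ‖P.divX.divX.eval t * t‖ < 1 := by
      rw [norm_mul]
      calc ‖P.divX.divX.eval t‖ * ‖t‖ ≤ 1 * ‖t‖ :=
            mul_le_mul_of_nonneg_right (hev _ hdiv2).2 (norm_nonneg _)
        _ < 1 := by rw [one_mul]; exact ht1
    rw [hu1, IsUltrametricDist.norm_add_eq_max_of_norm_ne_norm (by rw [h1]; exact hlt.ne), h1]
    exact max_eq_right hlt.le
  have hu0 : u ≠ 0 := by
    intro h
    rw [h, norm_zero] at hun
    exact zero_ne_one hun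
  have hp0 : P.coeff 0 = -(u * t) := by
    rw [h0] at hP1
    linear_combination -hP1
  have hp0n : ‖P.coeff 0‖ < 1 := by
    rw [hp0, norm_neg, norm_mul, hun, one_mul]
    exact ht1
  obtain ⟨q, ⟨a, ha, h, hh, hq⟩, b, hb, hpq⟩ := HO_gen hr hok (hP 0) hp0n
  have hmemu := (hev _ hdiv).1
  have hgen : ∀ w ∈ HO M c, -w / u ∈
      locV (ball W) (Subring.closure ((HO M c : Set W) ∪ (({t} : Finset W) : Set W))) := by
    intro w hw
    exact ⟨-w, neg_mem (hHc w hw), u, hmemu,
      (ball_val_eq_one u).2 hun, div_mul_cancel₀ _ hu0⟩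
  refine HO_crit hok {t} ?_ ?_ t (Finset.mem_singleton_self t)
  · intro g hg
    rw [Finset.mem_singleton.1 hg]
    exact ⟨ht, ht1.le⟩
  · intro g hg
    rw [Finset.mem_singleton.1 hg]
    refine ⟨0, zero_mem _, a, ha, -h / u, hgen h hh, -b / u, hgen b hb, ?_⟩
    have e1 : u * t = -(mon c.x a * h + b * c.y) := by
      rw [← hq, ← hpq, hp0, neg_neg]
    have e2 : t = (u * t) / u := by
      rw [mul_comm u t, mul_div_assoc, div_self hu0, mul_one]
    rw [e2, e1]
    ring

/-- Second form: `z` is a root in `M` of a polynomial `P` over `HO M c`, congruent to an element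
`b ∈ HO M c` with `‖P'(b)‖ = 1`.  (`hen` for `P(b + T)`, `t = z - b`.) -/
theorem hen' (hr : 0 < r) (hok : Ok m M c) (P : Polynomial W) (hP : ∀ j, P.coeff j ∈ HO M c)
    {b z : W} (hb : b ∈ HO M c) (hz : z ∈ M) (hbz : ‖z - b‖ < 1) (h0 : P.eval z = 0)
    (h1 : ‖P.derivative.eval b‖ = 1) : z ∈ HO M c := by
  have h2 : z - b ∈ HO M c := by
    refine hen hr hok (Polynomial.taylor b P) ?_ ?_ (sub_mem hz (HO_mem_M hok hb)) hbz ?_
    · intro j
      rw [Polynomial.taylor_coeff, Polynomial.eval_eq_sum_range]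
      refine sum_mem fun i _ => mul_mem ?_ (pow_mem hb i)
      rw [Polynomial.hasseDeriv_coeff]
      exact mul_mem (natCast_mem _ _) (hP _)
    · rw [Polynomial.taylor_coeff_one]
      exact h1
    · rw [Polynomial.taylor_eval, sub_add_cancel]
      exact h0
  have h3 : z = (z - b) + b := by ring
  rw [h3]
  exact add_mem h2 hb

end Pool.Agent.Lib.TU
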