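import Pool.Agent.Lib.TU.Defs
import Pool.Agent.Lib.MP_1a953e_ag.GP2

/-!
# Module HenU: Hensel's lemma in complete intermediate fields; small facts
-/

namespace Pool.Agent.Lib.TU

open Pool.Agent.Lib.MP_3029eb_ag Pool.Agent.Lib.MP_3029eb_ag.Abh Pool.Agent.Lib.TDO

/-- From `hensel` in `Pool/Agent/Lib/MP_1a953e_ag/GP2.lean` (with `Q = L.toSubfield`). -/
theorem henselU {k W : Type} [Field k] [NormedField W] [IsUltrametricDist W] [Algebra k W]
    (L : IntermediateField k W) (hL : IsComplete (L : Set W)) (f : Polynomial W)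
    (hf : ∀ j, f.coeff j ∈ L ∧ ‖f.coeff j‖ ≤ 1) {x : W} (hx : x ∈ L) (hx1 : ‖x‖ ≤ 1)
    (hfx : ‖f.eval x‖ < 1) (hf' : ‖f.derivative.eval x‖ = 1) :
    ∃ c ∈ L, f.eval c = 0 ∧ ‖x - c‖ < 1 := by
  obtain ⟨c, hc, h1, h2⟩ := MP1a953e.hensel (Q := L.toSubfield) hL (f := f)
    (fun j => (hf j).1) (fun j => (hf j).2) (x := x) hx hx1 hfx hf'
  exact ⟨c, hc, h1, h2⟩

/-- the unit ball as a subring -/
private def OB (W : Type) [NormedField W] [IsUltrametricDist W] : Subring W where
  carrier := {z | ‖z‖ ≤ 1}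
  mul_mem' := by
    intro a b ha hb
    simp only [Set.mem_ofPred_eq] at *
    rw [norm_mul]
    exact mul_le_one₀ ha (norm_nonneg _) hb
  one_mem' := by simp
  add_mem' := by
    intro a b ha hb
    exact (IsUltrametricDist.norm_add_le_max a b).trans (max_le ha hb)
  zero_mem' := by simp
  neg_mem' := by
    intro a ha
    simpa using ha

private theorem lift_OB {W : Type} [NormedField W] [IsUltrametricDist W] {f : Polynomial W}
    (hf1 : ∀ i, ‖f.coeff i‖ ≤ 1) : ∃ F : Polynomial (OB W), F.map (OB W).subtype = f := by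
  have h : (↑f.coeffs : Set W) ⊆ (OB W : Set W) := by
    intro z hz
    have hz' : z ∈ f.coeffs := hz
    rw [Polynomial.mem_coeffs_iff] at hz'
    obtain ⟨n, _, rfl⟩ := hz'
    exact hf1 n
  exact ⟨f.toSubring (OB W) h, Polynomial.map_toSubring f (OB W) h⟩

private theorem eval_OB {W : Type} [NormedField W] [IsUltrametricDist W] (F : Polynomial (OB W))
    (z : OB W) : (F.map (OB W).subtype).eval (z : W) = ((F.eval z : OB W) : W) := by
  rw [Polynomial.eval_map]
  exact Polynomial.eval₂_at_apply (OB W).subtype z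

private theorem taylorB {W : Type} [NormedField W] [IsUltrametricDist W] {f : Polynomial W}
    (hf1 : ∀ i, ‖f.coeff i‖ ≤ 1) {y h : W} (hy : ‖y‖ ≤ 1) (hh : ‖h‖ ≤ 1) :
    ∃ k : W, ‖k‖ ≤ 1 ∧ f.eval (y + h) = f.eval y + f.derivative.eval y * h + k * h ^ 2 := by
  obtain ⟨F, hF⟩ := lift_OB hf1
  let y' : OB W := ⟨y, hy⟩
  let h' : OB W := ⟨h, hh⟩
  obtain ⟨k, hk⟩ := Polynomial.binomExpansion F y' h'
  refine ⟨k, k.2, ?_⟩
  have h1 := eval_OB F (y' + h')
  have h2 := eval_OB F y'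
  have h3 := eval_OB (Polynomial.derivative F) y'
  rw [← Polynomial.derivative_map] at h3
  rw [hF] at h1 h2 h3
  have e1 : ((y' + h' : OB W) : W) = y + h := rfl
  have e2 : ((y' : OB W) : W) = y := rfl
  rw [e1] at h1
  rw [e2] at h2 h3
  rw [h1, h2, h3, hk]
  rfl

/-- Two roots with difference of norm `< 1`, one of them simple modulo the maximal ideal, are
equal: `0 = f b - f a = (b - a) (f'(a) + (b - a) (..))`. -/
theorem hensel_unique {W : Type} [NormedField W] [IsUltrametricDist W] (f : Polynomial W)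
    (hf : ∀ j, ‖f.coeff j‖ ≤ 1) {a b : W} (ha : ‖a‖ ≤ 1) (hfa : f.eval a = 0)
    (hfb : f.eval b = 0) (hab : ‖a - b‖ < 1) (hf' : ‖f.derivative.eval a‖ = 1) : a = b := by
  have hh : ‖b - a‖ < 1 := by rwa [norm_sub_rev]
  obtain ⟨k, hk1, hk⟩ := taylorB hf ha hh.le
  rw [add_sub_cancel, hfa, hfb, zero_add] at hk
  have e : (b - a) * (f.derivative.eval a + k * (b - a)) = 0 := by
    linear_combination -hk
  rcases mul_eq_zero.1 e with h | h
  · exact (sub_eq_zero.1 h).symm
  · exfalso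
    have h1 : f.derivative.eval a = -(k * (b - a)) := eq_neg_of_add_eq_zero_left h
    have h2 : ‖f.derivative.eval a‖ < 1 := by
      rw [h1, norm_neg, norm_mul]
      calc ‖k‖ * ‖b - a‖ ≤ 1 * ‖b - a‖ := mul_le_mul_of_nonneg_right hk1 (norm_nonneg _)
        _ = ‖b - a‖ := one_mul _
        _ < 1 := hh
    exact absurd hf' h2.ne

/-- A simple root of a polynomial over `K` is separable over `K`. -/
theorem sep_of_simple {K W : Type} [Field K] [Field W] [Algebra K W] (f : Polynomial K) {a : W}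
    (h0 : Polynomial.aeval a f = 0) (h1 : Polynomial.aeval a f.derivative ≠ 0) :
    IsSeparable K a := by
  have hf : f ≠ 0 := by
    rintro rfl
    apply h1
    rw [Polynomial.derivative_zero, map_zero]
  have halg : IsAlgebraic K a := ⟨f, hf, h0⟩
  have hint : IsIntegral K a := halg.isIntegral
  have hirr := minpoly.irreducible hint
  show (minpoly K a).Separable
  rw [Polynomial.separable_iff_derivative_ne_zero hirr]
  intro hd
  obtain ⟨g, hg⟩ := minpoly.dvd K a h0
  apply h1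
  rw [hg, Polynomial.derivative_mul, hd, zero_mul, zero_add, map_mul, minpoly.aeval, zero_mul]

/-- Polynomials with coefficients of norm `≤ 1` have values of norm `≤ 1`, and are congruent at
congruent points. -/
theorem norm_eval_le {W : Type} [NormedField W] [IsUltrametricDist W] (f : Polynomial W)
    (hf : ∀ j, ‖f.coeff j‖ ≤ 1) {a : W} (ha : ‖a‖ ≤ 1) : ‖f.eval a‖ ≤ 1 := by
  obtain ⟨F, hF⟩ := lift_OB hf
  have h := eval_OB F ⟨a, ha⟩
  rw [hF] at h
  have e : ((⟨a, ha⟩ : OB W) : W) = a := rfl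
  rw [e] at h
  rw [h]
  exact (F.eval ⟨a, ha⟩ : OB W).2

theorem norm_eval_sub_le {W : Type} [NormedField W] [IsUltrametricDist W] (f : Polynomial W)
    (hf : ∀ j, ‖f.coeff j‖ ≤ 1) {a b : W} (ha : ‖a‖ ≤ 1) (hb : ‖b‖ ≤ 1) :
    ‖f.eval a - f.eval b‖ ≤ ‖a - b‖ := by
  obtain ⟨F, hF⟩ := lift_OB hf
  obtain ⟨k, hk⟩ := Polynomial.evalSubFactor F (⟨a, ha⟩ : OB W) ⟨b, hb⟩
  have h1 := eval_OB F ⟨a, ha⟩
  have h2 := eval_OB F ⟨b, hb⟩
  rw [hF] at h1 h2
  have e1 : ((⟨a, ha⟩ : OB W) : W) = a := rfl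
  have e2 : ((⟨b, hb⟩ : OB W) : W) = b := rfl
  rw [e1] at h1
  rw [e2] at h2
  have h4 : f.eval a - f.eval b = k * (a - b) := by
    rw [h1, h2]
    exact congrArg (fun z : OB W => (z : W)) hk
  rw [h4, norm_mul]
  calc ‖(k : W)‖ * ‖a - b‖ ≤ 1 * ‖a - b‖ := mul_le_mul_of_nonneg_right k.2 (norm_nonneg _)
    _ = ‖a - b‖ := one_mul _

/-- an element algebraic over a trivially normed field has norm at most one -/
private theorem le_one_of_algebraic {k W : Type} [Field k] [NormedField W] [IsUltrametricDist W]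
    [Algebra k W] (C : IntermediateField k W) (hC : ∀ e ∈ C, e ≠ 0 → ‖e‖ = 1) {z : W}
    (hz : IsIntegral C z) : ‖z‖ ≤ 1 := by
  by_contra hcon
  have hcon' : 1 < ‖z‖ := not_le.1 hcon
  obtain ⟨f, hm, h0⟩ := hz
  rw [Polynomial.eval₂_eq_sum_range, Finset.sum_range_succ, hm.coeff_natDegree, map_one, one_mul] at h0
  have h1 : ‖z ^ f.natDegree‖ = ‖∑ i ∈ Finset.range f.natDegree, algebraMap C W (f.coeff i) * z ^ i‖ := by
    rw [eq_neg_of_add_eq_zero_right h0, norm_neg]
  have h2 : ∀ i ∈ Finset.range f.natDegree, ‖algebraMap C W (f.coeff i) * z ^ i‖ ≤ ‖z‖ ^ (f.natDegree - 1) := by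
    intro i hi
    have hi' := Finset.mem_range.1 hi
    have hc : ‖algebraMap C W (f.coeff i)‖ ≤ 1 := by
      by_cases h : (f.coeff i) = 0
      · rw [h, map_zero, norm_zero]
        exact zero_le_one
      · apply le_of_eq
        apply hC _ (f.coeff i).2
        intro h'
        exact h (Subtype.ext h')
    rw [norm_mul, norm_pow]
    calc ‖algebraMap C W (f.coeff i)‖ * ‖z‖ ^ i ≤ 1 * ‖z‖ ^ i :=
          mul_le_mul_of_nonneg_right hc (by positivity)
      _ = ‖z‖ ^ i := one_mul _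
      _ ≤ ‖z‖ ^ (f.natDegree - 1) := pow_le_pow_right₀ hcon'.le (by omega)
  by_cases hn : f.natDegree = 0
  · rw [hn] at h0
    simp at h0
  · have hne : (Finset.range f.natDegree).Nonempty := ⟨0, Finset.mem_range.2 (Nat.pos_of_ne_zero hn)⟩
    have h3 : ‖∑ i ∈ Finset.range f.natDegree, algebraMap C W (f.coeff i) * z ^ i‖ ≤ ‖z‖ ^ (f.natDegree - 1) :=
      IsUltrametricDist.norm_sum_le_of_forall_le_of_nonneg (by positivity) h2
    rw [← h1, norm_pow] at h3
    have h4 : ‖z‖ ^ (f.natDegree - 1) < ‖z‖ ^ f.natDegree := pow_lt_pow_right₀ hcon' (by omega)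
    exact absurd h3 (not_le.2 h4)

/-- Elements algebraic over a trivially normed field are trivially normed: if
`∑ c_j z^j = 0` is the minimal equation then `‖z‖ > 1` or `0 < ‖z‖ < 1` is impossible, the leading
(resp. the constant) term would dominate. -/
theorem unit_of_algebraic {k W : Type} [Field k] [NormedField W] [IsUltrametricDist W]
    [Algebra k W] (C : IntermediateField k W) (hC : ∀ e ∈ C, e ≠ 0 → ‖e‖ = 1) {z : W}
    (hz : IsAlgebraic C z) (h0 : z ≠ 0) : ‖z‖ = 1 := by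
  apply le_antisymm (le_one_of_algebraic C hC hz.isIntegral)
  have h1 := le_one_of_algebraic C hC (hz.inv).isIntegral
  rw [norm_inv] at h1
  have h2 : 0 < ‖z‖ := norm_pos_iff.2 h0
  exact (inv_le_one₀ h2).1 h1

end Pool.Agent.Lib.TU
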