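import Pool.Agent.Lib.TU.Defs
import Pool.Agent.Lib.TDO.Tr

/-!
# Module TrU: algebraic independence after a change of the field of constants

All fields contain `k`.  `C, C'` have the same finite transcendence degree `m` over `k`.
-/

namespace Pool.Agent.Lib.TU

open Pool.Agent.Lib.MP_3029eb_ag Pool.Agent.Lib.MP_3029eb_ag.Abh Pool.Agent.Lib.TDO

private lemma tru_exch {k W ι : Type} [Field k] [Field W] [Algebra k W] [Fintype ι]
    (v v' : ι → W) (h : AlgebraicIndependent k v)
    (hcl : Set.range v ⊆ (AlgebraicIndependent.matroid k W).closure (Set.range v')) :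
    AlgebraicIndependent k v' := by
  classical
  have hind : (AlgebraicIndependent.matroid k W).Indep (Set.range v) := by
    rw [AlgebraicIndependent.matroid_indep_iff]
    exact h.to_subtype_range
  have hfin : (Set.range v').Finite := Set.finite_range v'
  have hcard : (Set.range v).encard = (Fintype.card ι : ℕ∞) := by
    rw [← Set.image_univ, h.injective.encard_image, Set.encard_univ, ENat.card_eq_coe_fintype_card]
  have hcard' : (Set.range v').encard ≤ (Fintype.card ι : ℕ∞) := by
    rw [← Set.image_univ]
    refine (Set.encard_image_le _ _).trans ?_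
    rw [Set.encard_univ, ENat.card_eq_coe_fintype_card]
  have hrk : (Fintype.card ι : ℕ∞) ≤
      (AlgebraicIndependent.matroid k W).eRk (Set.range v') := by
    rw [← Matroid.eRk_closure_eq, ← hcard]
    exact hind.encard_le_eRk_of_subset hcl
  have hle := (AlgebraicIndependent.matroid k W).eRk_le_encard (Set.range v')
  have hrk' : (AlgebraicIndependent.matroid k W).eRk (Set.range v') = (Set.range v').encard :=
    le_antisymm hle (hcard'.trans hrk)
  have hind' : (AlgebraicIndependent.matroid k W).Indep (Set.range v') :=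
    (Matroid.indep_iff_eRk_eq_encard_of_finite hfin).2 hrk'
  have hinj' : Function.Injective v' := by
    have h3 : (Set.range v').encard = (Fintype.card ι : ℕ∞) :=
      le_antisymm hcard' (hrk.trans hle)
    have h4 : (v' '' Set.univ).encard = (Set.univ : Set ι).encard := by
      rw [Set.image_univ, h3, Set.encard_univ, ENat.card_eq_coe_fintype_card]
    have h5 := Set.finite_univ.injOn_of_encard_image_eq h4
    exact Set.injOn_univ.1 h5
  rw [AlgebraicIndependent.matroid_indep_iff] at hind'
  exact AlgebraicIndependent.of_subtype_range hinj' hind'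

private lemma tru_basis {k W : Type} [Field k] [Field W] [Algebra k W] {m : ℕ}
    (C : IntermediateField k W) (hC : Algebra.trdeg k C = (m : Cardinal)) :
    ∃ b : Fin m → C, IsTranscendenceBasis k b := by
  obtain ⟨ι, b, hb⟩ := exists_isTranscendenceBasis' k C
  have h1 := hb.cardinalMk_eq_trdeg
  rw [hC] at h1
  have h2 : Cardinal.mk ι = Cardinal.mk (Fin m) := by rw [h1, Cardinal.mk_fin]
  obtain ⟨e⟩ := Cardinal.eq.1 h2
  exact ⟨b ∘ e.symm, hb.comp_equiv e.symm⟩

private lemma tru_cl {k W : Type} [Field k] [Field W] [Algebra k W] (C' : IntermediateField k W)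
    (s t : Set W) (hC : ∀ e ∈ C', IsAlgebraic (Algebra.adjoin k t) e) (hs : s ⊆ t) {z : W}
    (hz : IsAlgebraic (IntermediateField.adjoin C' s) z) : IsAlgebraic (Algebra.adjoin k t) z := by
  have h1 : IsAlgebraic (Algebra.adjoin C' s) z := IntermediateField.isAlgebraic_adjoin_iff.1 hz
  have h2 : IsAlgebraic (Algebra.adjoin k ((C' : Set W) ∪ s)) z := by
    have h3 : (Algebra.adjoin C' s).restrictScalars k = Algebra.adjoin k ((C' : Set W) ∪ s) :=
      Algebra.restrictScalars_adjoin k C'.toSubalgebra s
    rw [← h3]
    exact h1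
  refine h2.adjoin_of_forall_isAlgebraic ?_
  rintro x ⟨hx | hx, hxt⟩
  · exact hC x hx
  · exact absurd (hs hx) hxt

private lemma tru_ext {k W ι : Type} [Field k] [Field W] [Algebra k W] (A : Subalgebra k W)
    (C' : IntermediateField k W) (hA : A ≤ C'.toSubalgebra) (halg : ∀ e ∈ C', IsAlgebraic A e)
    (v : ι → W) (hv : AlgebraicIndependent A v) : AlgebraicIndependent C' v := by
  let _ : Algebra A C' := (Subalgebra.inclusion hA).toRingHom.toAlgebra
  have : IsScalarTower A C' W := .of_algebraMap_eq fun _ => rfl
  have : Algebra.IsAlgebraic A C' := ⟨fun e => by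
    have h1 := halg e e.2
    exact (isAlgebraic_algebraMap_iff (algebraMap C' W).injective).1 h1⟩
  exact hv.extendScalars C'

private lemma tru_cons {W : Type} {r : ℕ} (x : Fin r → W) (y : W) :
    (fun o : Option (Fin r) => o.elim y x) ∘ (finSuccEquiv r) = (Fin.cons y x : Fin (r + 1) → W) := by
  funext i
  refine Fin.cases ?_ (fun j => ?_) i
  · simp
  · simp

/-- The parameters form an algebraically independent family indexed by `Fin (r + 1)`
(`TDO.tr_iff` and reindexing). -/
theorem par_indep {C W : Type} [Field C] [Field W] [Algebra C W] {r : ℕ} (x : Fin r → W) (y : W)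
    (hx : ∀ i, x i ≠ 0) (h : ∀ P : LP C r, ev x y P = 0 → P = 0) :
    AlgebraicIndependent C (Fin.cons y x : Fin (r + 1) → W) := by
  have h1 := ((tr_iff x y hx).1 h).comp (finSuccEquiv r) (finSuccEquiv r).injective
  rwa [tru_cons] at h1

/-- Let `z` (`r + 1` elements) be algebraically independent over `C`, and let `C` and the `z i` be
algebraic over `C'(x', y')`; then `(x', y')` is algebraically independent over `C'`.
Proof: the algebraic closure `E` of `C'(x', y')` in `W` contains `C(z)`, of transcendence degree
`m + (r + 1)` over `k` (`trdeg_add_eq` for `k, C, C(z)`); if `(x', y')` was dependent over `C'`, then the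
transcendence degree of `C'(x', y')` over `C'` would be `≤ r` (a proper subset of `{x'_i, y'}` contains a
transcendence basis), so that of `E` over `k` would be `≤ m + r`.  Translate with `TDO.tr_iff`. -/
theorem tr_changeU {k W : Type} [Field k] [Field W] [Algebra k W] {r m : ℕ}
    (C C' : IntermediateField k W) (hC : Algebra.trdeg k C = (m : Cardinal))
    (hC' : Algebra.trdeg k C' = (m : Cardinal)) (z : Fin (r + 1) → W)
    (hz : AlgebraicIndependent C z) (x' : Fin r → W) (y' : W) (hx' : ∀ i, x' i ≠ 0)
    (h0 : ∀ e ∈ C, IsAlgebraic (Kxy C' x' y') e)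
    (h1 : ∀ i, IsAlgebraic (Kxy C' x' y') (z i)) :
    ∀ P : LP C' r, ev x' y' P = 0 → P = 0 := by
  obtain ⟨b, hb⟩ := tru_basis C hC
  obtain ⟨b', hb'⟩ := tru_basis C' hC'
  set v : Fin (r + 1) ⊕ Fin m → W := Sum.elim z (algebraMap C W ∘ b) with hvdef
  set v' : Fin (r + 1) ⊕ Fin m → W :=
    Sum.elim (Fin.cons y' x' : Fin (r + 1) → W) (algebraMap C' W ∘ b') with hvdef'
  have hv : AlgebraicIndependent k v := hb.1.sumElim_comp hz
  have hbalg : ∀ e ∈ C', IsAlgebraic (Algebra.adjoin k (Set.range (algebraMap C' W ∘ b'))) e := by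
    intro e he
    have h2 : IsAlgebraic (Algebra.adjoin k (Set.range b')) (⟨e, he⟩ : C') :=
      hb'.isAlgebraic.isAlgebraic _
    have hmap : (Algebra.adjoin k (Set.range b')).map (IsScalarTower.toAlgHom k C' W) =
        Algebra.adjoin k (Set.range (algebraMap C' W ∘ b')) := by
      rw [AlgHom.map_adjoin, Set.range_comp]
      rfl
    have hm : ∀ a : Algebra.adjoin k (Set.range b'), algebraMap C' W a ∈
        Algebra.adjoin k (Set.range (algebraMap C' W ∘ b')) := by
      intro a
      rw [← hmap]
      exact ⟨a, a.2, rfl⟩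
    let f : Algebra.adjoin k (Set.range b') →+*
        Algebra.adjoin k (Set.range (algebraMap C' W ∘ b')) :=
      ((algebraMap C' W).comp (Algebra.adjoin k (Set.range b')).subtype).codRestrict _ hm
    exact h2.ringHom_of_comp_eq f (algebraMap C' W)
      (fun a a' haa => by
        have h3 : algebraMap C' W (a : C') = algebraMap C' W (a' : C') :=
          congrArg (fun q : Algebra.adjoin k (Set.range (algebraMap C' W ∘ b')) => (q : W)) haa
        exact Subtype.ext ((algebraMap C' W).injective h3)) rfl
  have hbalg' : ∀ e ∈ C', IsAlgebraic (Algebra.adjoin k (Set.range v')) e := by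
    intro e he
    refine (hbalg e he).tower_top_of_subalgebra_le (Algebra.adjoin_mono ?_)
    rintro _ ⟨j, rfl⟩
    exact ⟨Sum.inr j, rfl⟩
  have hsub : (Set.range x' ∪ {y'} : Set W) ⊆ Set.range v' := by
    rintro w (⟨i, rfl⟩ | rfl)
    · exact ⟨Sum.inl i.succ, by simp [hvdef']⟩
    · exact ⟨Sum.inl 0, by simp [hvdef']⟩
  have hcl : Set.range v ⊆ (AlgebraicIndependent.matroid k W).closure (Set.range v') := by
    rw [AlgebraicIndependent.matroid_closure_eq]
    rintro _ ⟨o, rfl⟩
    rcases o with i | j
    · exact tru_cl C' _ _ hbalg' hsub (h1 i)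
    · exact tru_cl C' _ _ hbalg' hsub (h0 _ (b j).2)
  have hv' := tru_exch v v' hv hcl
  have h4 := (AlgebraicIndependent.sumElim_iff.1 hv').2
  have h5 : AlgebraicIndependent C' (Fin.cons y' x' : Fin (r + 1) → W) := by
    refine tru_ext _ C' ?_ hbalg _ h4
    refine Algebra.adjoin_le ?_
    rintro _ ⟨j, rfl⟩
    exact (b' j).2
  rw [tr_iff x' y' hx']
  rw [← tru_cons] at h5
  exact (algebraicIndependent_equiv (finSuccEquiv r)).1 h5

/-- Algebraic extension of the constants: algebraic independence over `C` implies algebraic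
independence over every `C'` which is algebraic over `C`. -/
theorem tr_algU {k W : Type} [Field k] [Field W] [Algebra k W] {r : ℕ}
    (C C' : IntermediateField k W) (hCC' : C ≤ C') (halg : ∀ e ∈ C', IsAlgebraic C e)
    (x : Fin r → W) (y : W) (hx : ∀ i, x i ≠ 0) (h : ∀ P : LP C r, ev x y P = 0 → P = 0) :
    ∀ P : LP C' r, ev x y P = 0 → P = 0 := by
  rw [tr_iff x y hx] at h ⊢
  exact tru_ext C.toSubalgebra C' hCC' halg _ h

end Pool.Agent.Lib.TU
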