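import Pool.Agent.Lib.TU.Defs
import Pool.Agent.Lib.TU.TrU
import Pool.Agent.Lib.TU.HenU
import Pool.Agent.Lib.TDO.Ev
import Pool.Agent.Lib.TDO.Cl

/-!
# Module ChB: elementary facts on triples and charts
-/

namespace Pool.Agent.Lib.TU

open Pool.Agent.Lib.MP_3029eb_ag Pool.Agent.Lib.MP_3029eb_ag.Abh Pool.Agent.Lib.TDO

variable {k W : Type} [Field k] [NormedField W] [IsUltrametricDist W] [Algebra k W] {r m : ℕ}
  {S L M M' : IntermediateField k W} {c : Tri k W r}

theorem Ok.mono (h : Ok m M c) (hM : M ≤ M') : Ok m M' c :=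
  ⟨h.cst, h.par, h.CM.trans hM, fun i => hM (h.xM i), hM h.yM⟩

/-- `y ≠ 0` (algebraic independence). -/
theorem Ok.y_ne (h : Ok m M c) : c.y ≠ 0 := by
  intro hy
  have h1 : ev c.x c.y (AddMonoidAlgebra.single ((0 : Fin r → ℤ), 1) (1 : c.C) : LP c.C r) = 0 := by
    rw [ev_single]
    show algebraMap c.C W 1 * (mon c.x 0 * c.y ^ 1) = 0
    rw [hy, pow_one, mul_zero, mul_zero]
  have h2 := h.par.tr _ h1
  have h3 : (AddMonoidAlgebra.single ((0 : Fin r → ℤ), 1) (1 : c.C) : LP c.C r).coeff
      ((0 : Fin r → ℤ), 1) = 0 := by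
    rw [h2, AddMonoidAlgebra.coeff_zero]
    rfl
  rw [AddMonoidAlgebra.coeff_single, Finsupp.single_eq_same] at h3
  exact one_ne_zero h3

/-- The base field `↥c.C` is trivially normed. -/
theorem Ok.hu (h : Ok m M c) : ∀ e : c.C, e ≠ 0 → ‖algebraMap c.C W e‖ = 1 := by
  intro e he
  exact h.cst.unit (e : W) e.2 (fun h0 => he (Subtype.ext h0))

theorem Ok.Kxy_mem (h : Ok m M c) {z : W} (hz : z ∈ Kxy c.C c.x c.y) : z ∈ M := by
  have h1 : Kxy c.C c.x c.y ≤ IntermediateField.extendScalars h.CM := by
    refine Kxy_le c.x c.y (fun i => ?_) ?_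
    · exact (IntermediateField.mem_extendScalars h.CM).2 (h.xM i)
    · exact (IntermediateField.mem_extendScalars h.CM).2 h.yM
  exact (IntermediateField.mem_extendScalars h.CM).1 (h1 hz)

/-- Under the rank hypothesis: the values of `y` and of the `x i` are dependent. -/
theorem Ok.ambU (hA : AmbG r m k W) (h : Ok m M c) : AmbU r c.C W :=
  ⟨h.hu, hA.rank⟩

/-- `M = S ⊓ L` is dense in `L` if `L` has a chart. -/
theorem Ch.dense_M (h : Ch m S L c) {f : W} (hf : f ∈ L) (ε : ℝ) (hε : 0 < ε) :
    ∃ f' ∈ S ⊓ L, ‖f - f'‖ < ε := by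
  obtain ⟨w, hw, h1⟩ := (mem_cl_iff _ f).1 (h.dense f hf) ε hε
  exact ⟨w, h.ok.Kxy_mem hw, h1⟩

private theorem alg_sup {C : IntermediateField k W} {z : W} (hz : IsAlgebraic C z) :
    ∀ e ∈ C ⊔ IntermediateField.adjoin k {z}, IsAlgebraic C e := by
  intro e he
  have h1 : C ⊔ IntermediateField.adjoin k {z} ≤
      (IntermediateField.adjoin C {z}).restrictScalars k := by
    refine sup_le (fun a ha => ?_) ?_
    · exact (IntermediateField.adjoin C {z}).algebraMap_mem ⟨a, ha⟩
    · rw [IntermediateField.adjoin_le_iff]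
      intro a ha
      rw [Set.mem_singleton_iff] at ha
      subst ha
      exact IntermediateField.mem_adjoin_simple_self C a
  have h2 : e ∈ IntermediateField.adjoin C {z} := h1 he
  have h3 : Algebra.IsAlgebraic C (IntermediateField.adjoin C {z}) :=
    IntermediateField.isAlgebraic_adjoin_simple hz.isIntegral
  have h4 := h3.isAlgebraic ⟨e, h2⟩
  exact (isAlgebraic_algebraMap_iff
    (algebraMap (IntermediateField.adjoin C {z}) W).injective).2 h4

private theorem trdeg_sup {C : IntermediateField k W} {z : W} (hz : IsAlgebraic C z) :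
    Algebra.trdeg k (C ⊔ IntermediateField.adjoin k {z} : IntermediateField k W) =
      Algebra.trdeg k C := by
  have hle : C ≤ C ⊔ IntermediateField.adjoin k {z} := le_sup_left
  letI : Algebra C (C ⊔ IntermediateField.adjoin k {z} : IntermediateField k W) :=
    (IntermediateField.inclusion hle).toRingHom.toAlgebra
  haveI : IsScalarTower k C (C ⊔ IntermediateField.adjoin k {z} : IntermediateField k W) :=
    IsScalarTower.of_algebraMap_eq (fun a => rfl)
  haveI : IsScalarTower C (C ⊔ IntermediateField.adjoin k {z} : IntermediateField k W) W :=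
    IsScalarTower.of_algebraMap_eq (fun a => rfl)
  haveI : FaithfulSMul C (C ⊔ IntermediateField.adjoin k {z} : IntermediateField k W) :=
    (faithfulSMul_iff_algebraMap_injective _ _).2
      (IntermediateField.inclusion hle).toRingHom.injective
  haveI : Algebra.IsAlgebraic C (C ⊔ IntermediateField.adjoin k {z} : IntermediateField k W) := by
    refine ⟨fun e => ?_⟩
    exact (isAlgebraic_algebraMap_iff (algebraMap
      (C ⊔ IntermediateField.adjoin k {z} : IntermediateField k W) W).injective).1
      (alg_sup hz e e.2)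
  have h1 := _root_.trdeg_add_eq k C
    (A := (C ⊔ IntermediateField.adjoin k {z} : IntermediateField k W))
  have h2 : Algebra.trdeg C (C ⊔ IntermediateField.adjoin k {z} : IntermediateField k W) = 0 :=
    _root_.trdeg_eq_zero
  rw [h2, add_zero] at h1
  exact h1.symm

/-- Elements algebraic over a field of constants: the extended field is a field of constants
(`unit_of_algebraic`). -/
theorem Cst.adjoin {C : IntermediateField k W} (hC : Cst m C) {z : W} (hz : IsAlgebraic C z) :
    Cst m (C ⊔ IntermediateField.adjoin k {z}) ∧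
      ∀ e ∈ C ⊔ IntermediateField.adjoin k {z}, IsAlgebraic C e := by
  refine ⟨⟨fun e he h0 => ?_, ?_, ?_⟩, alg_sup hz⟩
  · exact unit_of_algebraic C hC.unit (alg_sup hz e he) h0
  · exact IntermediateField.fg_sup hC.fg
      (IntermediateField.fg_adjoin_of_finite (Set.finite_singleton z))
  · rw [trdeg_sup hz]
    exact hC.trd

private theorem one_le_norm {C : IntermediateField k W} (hC : ∀ e ∈ C, e ≠ 0 → ‖e‖ = 1) {w : W}
    (hg : ∀ g : Polynomial C, g.Monic → Irreducible g → 1 ≤ ‖Polynomial.aeval w g‖)
    (f : Polynomial C) : f ≠ 0 → 1 ≤ ‖Polynomial.aeval w f‖ := by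
  have hc : ∀ e : C, e ≠ 0 → ‖algebraMap C W e‖ = 1 := fun e he =>
    hC (e : W) e.2 (fun h0 => he (Subtype.ext h0))
  induction f using WfDvdMonoid.induction_on_irreducible with
  | zero => intro h; exact absurd rfl h
  | unit u hu =>
    intro h
    obtain ⟨a, ha, rfl⟩ := Polynomial.isUnit_iff.1 hu
    rw [Polynomial.aeval_C, hc a ha.ne_zero]
  | mul a i ha hi ih =>
    intro h
    rw [map_mul, norm_mul]
    have h1 := ih ha
    have hi0 : i ≠ 0 := hi.ne_zero
    have hl : i.leadingCoeff ≠ 0 := Polynomial.leadingCoeff_ne_zero.2 hi0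
    have h2 := hg (i * Polynomial.C i.leadingCoeff⁻¹) (Polynomial.monic_mul_leadingCoeff_inv hi0)
      (irreducible_mul_isUnit (Polynomial.isUnit_C.2 (isUnit_iff_ne_zero.2 (inv_ne_zero hl))) |>.2
        hi)
    rw [map_mul, norm_mul, Polynomial.aeval_C, hc _ (inv_ne_zero hl), mul_one] at h2
    exact one_le_mul_of_one_le_of_one_le h2 h1

/-- Every element of norm `≤ 1` is residually algebraic over the field of constants `C`: there is a
monic irreducible polynomial `g` over `C` with `‖g(w)‖ < 1`.
Proof: `C` contains `m` elements `v i` algebraically independent over `k`; by `AmbG.res` there is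
`P ≠ 0` over `k` in `m + 1` variables with `‖P(v, w)‖ < 1`; regard `P` as a polynomial in the last
variable over `k[v] ⊆ C`: nonzero; one of its irreducible factors is small at `w`. -/
theorem exists_irr (hA : AmbG r m k W) {C : IntermediateField k W} (hC : Cst m C) {w : W}
    (hw : ‖w‖ ≤ 1) :
    ∃ g : Polynomial C, g.Monic ∧ Irreducible g ∧ ‖Polynomial.aeval w g‖ < 1 := by
  by_contra hcon
  push Not at hcon
  have hbig := one_le_norm hC.unit (w := w) (fun g h1 h2 => hcon g h1 h2)
  -- a transcendence basis of `C`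
  obtain ⟨s, hs⟩ := exists_isTranscendenceBasis k C
  have hcard : Cardinal.mk s = (m : Cardinal) := by
    rw [hs.cardinalMk_eq_trdeg, hC.trd]
  obtain ⟨e⟩ : Nonempty (Fin m ≃ s) := by
    rw [← Cardinal.eq, hcard, Cardinal.mk_fin]
  have hv : AlgebraicIndependent k (fun i : Fin m => ((e i : s) : C)) :=
    hs.1.comp e e.injective
  let v : Fin m → C := fun i => ((e i : s) : C)
  obtain ⟨P, hP, hP1⟩ := hA.res (Fin.cons w (fun i => (v i : W)) : Fin (m + 1) → W) (by
    intro i
    refine Fin.cases ?_ (fun j => ?_) i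
    · exact hw
    · rw [Fin.cons_succ]
      by_cases h0 : (v j : W) = 0
      · rw [h0, norm_zero]; exact zero_le_one
      · exact (hC.unit _ (v j).2 h0).le)
  let f : Polynomial C := (MvPolynomial.finSuccEquiv k m P).map
    (MvPolynomial.aeval v : MvPolynomial (Fin m) k →ₐ[k] C).toRingHom
  have hf : f ≠ 0 := by
    intro h0
    have h1 : MvPolynomial.finSuccEquiv k m P = 0 := by
      have hinj : Function.Injective
          (MvPolynomial.aeval v : MvPolynomial (Fin m) k →ₐ[k] C).toRingHom := hv
      exact (Polynomial.map_eq_zero_iff hinj).1 h0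
    exact hP ((map_eq_zero_iff _ (MvPolynomial.finSuccEquiv k m).injective).1 h1)
  have heq : Polynomial.aeval w f =
      MvPolynomial.aeval (Fin.cons w (fun i => (v i : W)) : Fin (m + 1) → W) P := by
    have key : ∀ Q : MvPolynomial (Fin (m + 1)) k,
        Polynomial.aeval w ((MvPolynomial.finSuccEquiv k m Q).map
          (MvPolynomial.aeval v : MvPolynomial (Fin m) k →ₐ[k] C).toRingHom) =
        MvPolynomial.aeval (Fin.cons w (fun i => (v i : W)) : Fin (m + 1) → W) Q := by
      intro Q
      induction Q using MvPolynomial.induction_on with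
      | C a =>
        rw [MvPolynomial.finSuccEquiv_apply, MvPolynomial.eval₂Hom_C, RingHom.comp_apply,
          Polynomial.map_C, Polynomial.aeval_C, MvPolynomial.aeval_C]
        show algebraMap C W (MvPolynomial.aeval v (MvPolynomial.C a)) = _
        rw [MvPolynomial.aeval_C]
        rfl
      | add p q hp hq => rw [map_add, Polynomial.map_add, map_add, map_add, hp, hq]
      | mul_X p i hp =>
        rw [map_mul, Polynomial.map_mul, map_mul, map_mul, hp]
        congr 1
        rw [MvPolynomial.aeval_X]
        refine Fin.cases ?_ (fun j => ?_) i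
        · rw [MvPolynomial.finSuccEquiv_X_zero, Polynomial.map_X, Polynomial.aeval_X, Fin.cons_zero]
        · rw [MvPolynomial.finSuccEquiv_X_succ, Polynomial.map_C, Polynomial.aeval_C,
            Fin.cons_succ]
          show algebraMap C W (MvPolynomial.aeval v (MvPolynomial.X j)) = _
          rw [MvPolynomial.aeval_X]
          rfl
    exact key P
  have h1 := hbig f hf
  rw [heq] at h1
  exact absurd hP1 (not_lt.2 h1)

end Pool.Agent.Lib.TU
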