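import Pool.Agent.Lib.TU.GW
import Pool.Agent.Lib.TU.ChB

/-!
# Module StDig: digits of elements of the closure of `C(w)` (paper 3.2)

`y' = g(w) ≠ 0`.  Values of `cl C(w)`: `‖y'‖^ℤ` (`gw_val`).  Residues: `u ∈ cl C(w)`, `‖u‖ ≤ 1`, is congruent
to an element of `Rw C w` (`gw_mem_Rw`), so to some `e' ∈ C'` (`St.res`); `C' ⊆ cl C(w)` (`St.Cle`), so
`u - e' ∈ cl C(w)` has norm `< 1`, so `≤ ‖y'‖`, `u = e' + y' u1` with `u1 ∈ cl C(w)`, `‖u1‖ ≤ 1`.  Iterate.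
-/

namespace Pool.Agent.Lib.TU

open Pool.Agent.Lib.MP_3029eb_ag Pool.Agent.Lib.MP_3029eb_ag.Abh Pool.Agent.Lib.TDO

variable {k W : Type} [Field k] [NormedField W] [IsUltrametricDist W] [Algebra k W] {r m : ℕ}
  {S L : IntermediateField k W} {c c' : Tri k W r} {e : ℕ} {B : Fin r → ℤ} {w : W}
  {g : Polynomial c.C} {T : ((Fin r → ℤ) × ℤ) ≃+ ((Fin r → ℤ) × ℤ)}

/-- `g(w) = y'` has norm `< 1` and is nonzero; `g ∤ X`. -/
theorem St.g_facts (h : St m S L c c' e B w g T) :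
    ‖Polynomial.aeval w g‖ < 1 ∧ Polynomial.aeval w g ≠ 0 ∧ ¬ g ∣ Polynomial.X ∧
      1 ≤ g.natDegree := by
  have h1 : ‖Polynomial.aeval w g‖ < 1 := by
    rw [← h.hy]
    exact h.ch'.ok.par.y1
  have h2 : Polynomial.aeval w g ≠ 0 := by
    rw [← h.hy]
    exact h.ch'.ok.y_ne
  refine ⟨h1, h2, ?_, ?_⟩
  · intro hd
    have h3 := (gw_lt_iff h.ch.ok.cst.unit h.w1.le h.gi h1 Polynomial.X).2 hd
    rw [Polynomial.aeval_X, h.w1] at h3
    exact lt_irrefl _ h3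
  · exact h.gi.natDegree_pos

theorem st_val (h : St m S L c c' e B w g T) {u : W} (hu : u ∈ cl (Cw c.C w)) (h0 : u ≠ 0) :
    ∃ n : ℤ, ‖u‖ = ‖c'.y‖ ^ n := by
  obtain ⟨h1, h2, -, -⟩ := h.g_facts
  rw [h.hy]
  exact gw_val h.ch.ok.cst.unit h.w1.le h.gi h1 h2 hu h0

theorem st_lt (h : St m S L c c' e B w g T) {u : W} (hu : u ∈ cl (Cw c.C w)) (hu1 : ‖u‖ < 1) :
    ‖u‖ ≤ ‖c'.y‖ := by
  by_cases h0 : u = 0
  · rw [h0, norm_zero]
    exact norm_nonneg _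
  · obtain ⟨n, hn⟩ := st_val h hu h0
    have hy0 : 0 < ‖c'.y‖ := norm_pos_iff.2 h.ch'.ok.y_ne
    have hy1 : ‖c'.y‖ < 1 := h.ch'.ok.par.y1
    rw [hn] at hu1 ⊢
    have hn1 : 0 < n := by
      by_contra hcon
      have h3 := one_le_zpow_of_nonpos₀ hy0 hy1.le (not_lt.1 hcon)
      linarith
    have h4 : ‖c'.y‖ ^ n ≤ ‖c'.y‖ ^ (1 : ℤ) := zpow_le_zpow_right_of_le_one₀ hy0 hy1.le hn1
    rwa [zpow_one] at h4

/-- See the header. -/
theorem st_dig (h : St m S L c c' e B w g T) {u : W} (hu : u ∈ cl (Cw c.C w)) (hu1 : ‖u‖ ≤ 1)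
    (J : ℕ) : ∃ Q : Polynomial c'.C, ‖u - Polynomial.aeval c'.y Q‖ ≤ ‖c'.y‖ ^ J := by
  obtain ⟨h1, h2, -, -⟩ := h.g_facts
  have hy0 : 0 < ‖c'.y‖ := norm_pos_iff.2 h.ch'.ok.y_ne
  have hyW : c'.y ≠ 0 := h.ch'.ok.y_ne
  have hycl : c'.y ∈ cl (Cw c.C w) := by
    apply le_cl
    rw [h.hy]
    unfold Cw
    have h3 : w ∈ IntermediateField.adjoin c.C {w} := IntermediateField.mem_adjoin_simple_self _ _
    have h4 : Polynomial.aeval w g =
        ((Polynomial.aeval (⟨w, h3⟩ : IntermediateField.adjoin c.C {w}) g :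
          IntermediateField.adjoin c.C {w}) : W) := by
      rw [← IntermediateField.coe_val, ← Polynomial.aeval_algHom_apply]
      rfl
    rw [h4]
    exact SetLike.coe_mem _
  induction J generalizing u with
  | zero =>
    refine ⟨0, ?_⟩
    rw [map_zero, sub_zero, pow_zero]
    exact hu1
  | succ J ih =>
    obtain ⟨z, hz, hzu⟩ := (mem_cl_iff _ u).1 hu 1 one_pos
    have hz1 : ‖z‖ ≤ 1 := by
      have h3 : z = u + -(u - z) := by ring
      rw [h3]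
      refine (IsUltrametricDist.norm_add_le_max u (-(u - z))).trans ?_
      rw [norm_neg]
      exact max_le hu1 hzu.le
    have hzR : z ∈ Rw c.C w :=
      (gw_mem_Rw h.ch.ok.cst.unit h.w1.le h.gi h1 h2 z).2 ⟨hz, hz1⟩
    obtain ⟨e', he', hez⟩ := h.res z hzR
    have hue : ‖u - e'‖ < 1 := by
      have h3 : u - e' = (u - z) + (z - e') := by ring
      rw [h3]
      exact lt_of_le_of_lt (IsUltrametricDist.norm_add_le_max _ _) (max_lt hzu hez)
    have hucl : u - e' ∈ cl (Cw c.C w) := sub_mem hu (h.Cle e' he')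
    have hle := st_lt h hucl hue
    obtain ⟨Q1, hQ1⟩ := ih (u := (u - e') / c'.y) (div_mem hucl hycl) (by
      rw [norm_div]
      exact div_le_one_of_le₀ hle hy0.le)
    refine ⟨Polynomial.C ⟨e', he'⟩ + Polynomial.X * Q1, ?_⟩
    have h5 : u - Polynomial.aeval c'.y (Polynomial.C (⟨e', he'⟩ : c'.C) + Polynomial.X * Q1) =
        c'.y * ((u - e') / c'.y - Polynomial.aeval c'.y Q1) := by
      rw [map_add, map_mul, Polynomial.aeval_X, Polynomial.aeval_C, mul_sub,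
        mul_div_cancel₀ _ hyW]
      change u - (e' + _) = _
      ring
    rw [h5, norm_mul, pow_succ, mul_comm]
    exact mul_le_mul_of_nonneg_right hQ1 hy0.le

end Pool.Agent.Lib.TU
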