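import Pool.Agent.Lib.TU.AppD
import Pool.Agent.Lib.TU.StDig
import Pool.Agent.Lib.TU.HOcr

/-!
# Module AppSt: approximation of the parameters of a refinement (paper 9.3)

`c` a proper refinement of `c0`: `StR c0 c1`, `RfS c1 c`.  `M = S ⊓ L`, `D = Dcl M c A` (a subring, closed
under inverses of elements monomial for `c`, `AppD`).  Suppose `C0, x_0, y_0 ⊆ D`.
One stage `c0 → c1` (data `e, B, w, g, T`): `x_0 i`, `y_0`, `w` are monomial for `c` (`RfS.x_moH`, `RfS.y_moH`;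
`w = y_0^e x_0^(-B)`), so `w ∈ D`, the `x_1 i` are monomials in `x_0, y_0` (apply `St.hm` to `T.symm`; here also
negative exponents) so in `D`; `y_1 = g(w) ∈ D`; `Rw C0 w ⊆ D` (denominators of norm one are units of `HO c`).
Every `e' ∈ c1.C` is congruent to some `b ∈ Rw C0 w ⊆ D` (`St.lift`), `b ∈ HO c1 ⊆ HO c`; writing `b = a + x^N h`
with `‖x^N‖ < 1`, `a ∈ A`, `a ∈ HO c` is congruent to `e'`.  This proves the claim if `c = c1`.
If `RfS c1 c` is not trivial, i.e. `StR c1 c2`, `RfS c2 c`: we show `c1.C ⊆ D` and conclude by induction on the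
chain (`Relation.ReflTransGen.head_induction_on` or `cases_head`).  Let `e' ∈ c1.C`.
`K1 := IntermediateField.adjoin k {z | z ∈ c1.C ∧ z ∈ Rw C0 w} ⊆ Rw C0 w ⊆ D`: the set
`{z | z ∈ c1.C ∧ z ∈ Rw C0 w}` is closed under inverses (nonzero elements of `c1.C` have norm one, `Rw` is
closed under inverses of elements of norm one), so it is a field.  `P` = minimal polynomial of `e'` over
`K1`, separable (`St.sepZ`), `P'(e') ≠ 0` lies in `c1.C`, so `‖P'(e')‖ = 1`.  `b` as above, `e' - b ∈ HO c1` has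
norm `< 1`, so `e' - b ∈ QH c` (`RfS.lt_one`), `‖P'(b)‖ = 1`: `Dcl_newton` gives `e' ∈ D`.
-/

namespace Pool.Agent.Lib.TU

open Pool.Agent.Lib.MP_3029eb_ag Pool.Agent.Lib.MP_3029eb_ag.Abh Pool.Agent.Lib.TDO

variable {k W : Type} [Field k] [NormedField W] [IsUltrametricDist W] [Algebra k W] {r m : ℕ}
  {S L : IntermediateField k W} {c0 c1 c : Tri k W r}

omit [IsUltrametricDist W] in
private theorem appSt_zpow {D : Subring W} {z : W} (hz : z ∈ D) (hzi : z⁻¹ ∈ D) (n : ℤ) :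
    z ^ n ∈ D := by
  cases n with
  | ofNat n => rw [Int.ofNat_eq_natCast, zpow_natCast]; exact pow_mem hz n
  | negSucc n => rw [zpow_negSucc, ← inv_pow]; exact pow_mem hzi _

omit [IsUltrametricDist W] in
private theorem appSt_mon {D : Subring W} {x : Fin r → W} (hx : ∀ i, x i ∈ D)
    (hxi : ∀ i, (x i)⁻¹ ∈ D) (a : Fin r → ℤ) : mon x a ∈ D := by
  unfold mon
  exact Subring.prod_mem _ fun i _ => appSt_zpow (hx i) (hxi i) _

/-- `Rw C w` is contained in every subring containing `C`, `w` and the inverses of its elements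
of norm one. -/
private theorem appSt_Rw_le {C : IntermediateField k W} {w : W} (B : Subring W)
    (hC : ∀ z ∈ C, z ∈ B) (hw : w ∈ B) (hinv : ∀ z ∈ B, ‖z‖ = 1 → z⁻¹ ∈ B) {z : W}
    (hz : z ∈ Rw C w) : z ∈ B := by
  have h1 : Subring.closure ((C : Set W) ∪ {w}) ≤ B := by
    rw [Subring.closure_le]
    rintro v (hv | hv)
    · exact hC v hv
    · rw [Set.mem_singleton_iff] at hv
      rw [hv]
      exact hw
  obtain ⟨a, ha, b, hb, hb1, h⟩ := hz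
  rw [ball_val_eq_one] at hb1
  have hb0 : b ≠ 0 := by
    rintro rfl
    rw [norm_zero] at hb1
    exact zero_ne_one hb1
  have h2 : z = a * b⁻¹ := by
    rw [← h, mul_inv_cancel_right₀ hb0]
  rw [h2]
  exact B.mul_mem (h1 ha) (hinv b (h1 hb) hb1)

private theorem appSt_Rw_inv {C : IntermediateField k W} {w z : W} (hz : z ∈ Rw C w)
    (h1 : ‖z‖ = 1) : z⁻¹ ∈ Rw C w := by
  obtain ⟨a, ha, b, hb, hb1, h⟩ := hz
  have hz0 : z ≠ 0 := by
    rintro rfl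
    rw [norm_zero] at h1
    exact zero_ne_one h1
  refine ⟨b, hb, a, ha, ?_, ?_⟩
  · rw [ball_val_eq_one] at hb1 ⊢
    rw [← h, norm_mul, h1, hb1, mul_one]
  · rw [← h, inv_mul_cancel_left₀ hz0]

private theorem appSt_C_Rw {C : IntermediateField k W} {w z : W} (hz : z ∈ C) : z ∈ Rw C w :=
  ⟨z, Subring.subset_closure (Or.inl hz), 1, one_mem _, map_one _, mul_one _⟩

/-- One stage. -/
private theorem appSt_one (hr : 0 < r) {e : ℕ} {B : Fin r → ℤ} {w : W} {g : Polynomial c0.C}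
    {T : ((Fin r → ℤ) × ℤ) ≃+ ((Fin r → ℤ) × ℤ)} (h : St m S L c0 c1 e B w g T)
    (h1 : RfS m S L c1 c) {A : Subring W} (hA : ∀ a ∈ A, a ∈ HL (S ⊓ L) c)
    (hinv : ∀ a ∈ A, MoH (S ⊓ L) c a → a⁻¹ ∈ A) {D : Subring W}
    (hD : ∀ z, z ∈ D ↔ z ∈ Dcl (S ⊓ L) c A)
    (hC : ∀ e ∈ c0.C, e ∈ D) (hx : ∀ i, c0.x i ∈ D) (hy : c0.y ∈ D) :
    (∀ i, c1.x i ∈ D) ∧ c1.y ∈ D ∧
      ∀ z ∈ Rw c0.C w, z ∈ D ∧ z ∈ HO (S ⊓ L) c1 := by
  have h01 : StR m S L c0 c1 := ⟨e, B, w, g, T, h⟩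
  have h0c : RfS m S L c0 c := Relation.ReflTransGen.head h01 h1
  have hok := (RfS.ch h.ch h0c).ok
  have hDinv : ∀ z ∈ D, MoH (S ⊓ L) c z → z⁻¹ ∈ D := fun z hz hm =>
    (hD _).2 (Dcl_inv hr hok hA hinv ((hD z).1 hz) hm)
  have hxi : ∀ i, (c0.x i)⁻¹ ∈ D := fun i => hDinv _ (hx i) (RfS.x_moH hr h.ch h0c i)
  have hyi : (c0.y)⁻¹ ∈ D := hDinv _ hy (RfS.y_moH hr h01 h1)
  have hm : ∀ (a : Fin r → ℤ) (j : ℤ), mon c0.x a * c0.y ^ j ∈ D := fun a j =>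
    mul_mem (appSt_mon hx hxi a) (appSt_zpow hy hyi j)
  have hw : w ∈ D := by
    have e1 := h.hm (-B) e
    rw [h.hT, mon_zero, one_mul, zpow_one] at e1
    rw [← e1]
    exact hm _ _
  have hx1 : ∀ i, c1.x i ∈ D := by
    intro i
    have e1 := h.hm (T.symm (Pi.single i 1, 0)).1 (T.symm (Pi.single i 1, 0)).2
    rw [Prod.mk.eta, T.apply_symm_apply, mon_single, zpow_zero, mul_one] at e1
    rw [← e1]
    exact hm _ _
  have hRw : ∀ z ∈ Rw c0.C w, z ∈ D ∧ z ∈ HO (S ⊓ L) c1 := by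
    intro z hz
    refine appSt_Rw_le (D ⊓ HO (S ⊓ L) c1) (fun z hz => ⟨hC z hz, h.inH.1 z hz⟩)
      ⟨hw, h.inH.2⟩ (fun z hz hz1 => ⟨?_, inv_mem_HO h.ch'.ok hz.2 hz1⟩) hz
    exact hDinv z hz.1 (MoH.of_unit (RfS.HO_le hr h.ch' h1 hz.2) hz1)
  refine ⟨hx1, ?_, hRw⟩
  rw [h.hy, Polynomial.aeval_eq_sum_range]
  refine Subring.sum_mem _ fun i _ => ?_
  rw [Algebra.smul_def]
  exact mul_mem (hC _ (g.coeff i).2) (pow_mem hw _)

/-- Constants are approximated by elements of the given subring. -/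
private theorem appSt_approx (hr : 0 < r) (hok : Ok m (S ⊓ L) c) {A : Subring W} {e' b : W}
    (hb : b ∈ Dcl (S ⊓ L) c A) (hb' : b ∈ HO (S ⊓ L) c) (hbe : ‖b - e'‖ < 1) :
    ∃ a ∈ A, a ∈ HO (S ⊓ L) c ∧ ‖e' - a‖ < 1 := by
  obtain ⟨N, -, hN⟩ := exists_mon_lt hr hok.par.ind 1 one_pos
  obtain ⟨a, ha, u, hu, hau⟩ := hb.2 N
  have hq : mon c.x N * u ∈ QH (S ⊓ L) c := mon_mul_mem_QH hok hN hu
  refine ⟨a, ha, ?_, ?_⟩
  · have e1 : a = b - mon c.x N * u := by rw [hau, add_sub_cancel_right]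
    rw [e1]
    exact sub_mem hb' (QH_mem_HO hok hq)
  · have e1 : e' - a = (mon c.x N * u) - (b - e') := by rw [hau]; ring
    rw [e1, sub_eq_add_neg]
    refine (IsUltrametricDist.norm_add_le_max _ _).trans_lt (max_lt (QH_norm hok hq) ?_)
    rw [norm_neg]
    exact hbe

/-- The field of those constants of `c1` which are in `Rw C0 w`. -/
private theorem appSt_adjoin {C0 C1 : IntermediateField k W} {w : W}
    (hC1 : ∀ e ∈ C1, e ≠ 0 → ‖e‖ = 1) {z : W}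
    (hz : z ∈ IntermediateField.adjoin k {z : W | z ∈ C1 ∧ z ∈ Rw C0 w}) :
    z ∈ C1 ∧ z ∈ Rw C0 w := by
  let F : IntermediateField k W :=
    { (C1.toSubalgebra.toSubring ⊓ Rw C0 w : Subring W) with
      algebraMap_mem' := fun a => ⟨C1.algebraMap_mem a, appSt_C_Rw (C0.algebraMap_mem a)⟩
      inv_mem' := by
        rintro z ⟨h1, h2⟩
        refine ⟨C1.inv_mem h1, ?_⟩
        by_cases h0 : z = 0
        · rw [h0, inv_zero]; exact zero_mem _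
        · exact appSt_Rw_inv h2 (hC1 z h1 h0) }
  have h1 : IntermediateField.adjoin k {z : W | z ∈ C1 ∧ z ∈ Rw C0 w} ≤ F :=
    IntermediateField.adjoin_le_iff.2 fun z hz => ⟨hz.1, hz.2⟩
  exact ⟨(h1 hz).1, (h1 hz).2⟩

/-- If the refinement is not trivial then the constants of `c1` are in the closure. -/
private theorem appSt_C (hr : 0 < r) {e : ℕ} {B : Fin r → ℤ} {w : W} {g : Polynomial c0.C}
    {T : ((Fin r → ℤ) × ℤ) ≃+ ((Fin r → ℤ) × ℤ)} (h : St m S L c0 c1 e B w g T)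
    {c2 : Tri k W r} (h12 : StR m S L c1 c2) (h2 : RfS m S L c2 c) {A : Subring W}
    (hA : ∀ a ∈ A, a ∈ HL (S ⊓ L) c) (hinv : ∀ a ∈ A, MoH (S ⊓ L) c a → a⁻¹ ∈ A)
    (hRw : ∀ z ∈ Rw c0.C w, z ∈ Dcl (S ⊓ L) c A ∧ z ∈ HO (S ⊓ L) c1) :
    ∀ e' ∈ c1.C, e' ∈ Dcl (S ⊓ L) c A := by
  intro e' he'
  have h1 : RfS m S L c1 c := Relation.ReflTransGen.head h12 h2
  have hok := (RfS.ch h.ch' h1).ok
  obtain ⟨b, hb, hbe⟩ := h.lift e' he'
  have hsep := h.sepZ e' he'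
  set K1 := IntermediateField.adjoin k {z : W | z ∈ c1.C ∧ z ∈ Rw c0.C w} with hK1
  have hK : ∀ z ∈ K1, z ∈ c1.C ∧ z ∈ Rw c0.C w := fun z hz =>
    appSt_adjoin h.ch'.ok.cst.unit hz
  have heH : e' ∈ HO (S ⊓ L) c1 := C_mem_HO h.ch'.ok he'
  have hbH : b ∈ HO (S ⊓ L) c1 := (hRw b hb).2
  set Q : Polynomial W := (minpoly K1 e').map (algebraMap K1 W) with hQ
  have hQc : ∀ j, Q.coeff j ∈ c1.C ∧ Q.coeff j ∈ Rw c0.C w := by
    intro j
    rw [hQ, Polynomial.coeff_map]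
    exact hK _ ((minpoly K1 e').coeff j).2
  have hQ0 : Q.eval e' = 0 := by
    rw [hQ, Polynomial.eval_map_algebraMap]
    exact minpoly.aeval K1 e'
  have hQ1 : Q.derivative.eval e' ≠ 0 := by
    rw [hQ, Polynomial.derivative_map, Polynomial.eval_map_algebraMap]
    exact hsep.aeval_derivative_ne_zero (minpoly.aeval K1 e')
  have hQd : ∀ j, Q.derivative.coeff j ∈ c1.C := by
    intro j
    rw [Polynomial.coeff_derivative]
    exact mul_mem (hQc _).1 (add_mem (natCast_mem _ _) (one_mem _))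
  have hev : ∀ z ∈ c1.C, Q.derivative.eval z ∈ c1.C := by
    intro z hz
    rw [Polynomial.eval_eq_sum_range]
    exact sum_mem fun i _ => mul_mem (hQd i) (pow_mem hz _)
  have hn1 : ‖Q.derivative.eval e'‖ = 1 := h.ch'.ok.cst.unit _ (hev e' he') hQ1
  -- comparison of the values of the derivative at `b` and `e'`
  have hlift : Q.derivative ∈ Polynomial.lifts (HO (S ⊓ L) c1).subtype := by
    rw [Polynomial.lifts_iff_coeff_lifts]
    intro j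
    exact ⟨⟨_, C_mem_HO h.ch'.ok (hQd j)⟩, rfl⟩
  obtain ⟨Q', hQ'⟩ := (Polynomial.mem_lifts _).1 hlift
  have hdiv := Polynomial.sub_dvd_eval_sub (⟨b, hbH⟩ : HO (S ⊓ L) c1) ⟨e', heH⟩ Q'
  obtain ⟨t, ht⟩ := hdiv
  have hev' : ∀ z : HO (S ⊓ L) c1,
      ((Q'.eval z : HO (S ⊓ L) c1) : W) = Q.derivative.eval (z : W) := by
    intro z
    rw [← hQ', Polynomial.eval_map]
    exact (Polynomial.eval₂_at_apply (HO (S ⊓ L) c1).subtype z).symm
  have hdiff : Q.derivative.eval b - Q.derivative.eval e' = (b - e') * (t : W) := by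
    have e1 := congrArg (HO (S ⊓ L) c1).subtype ht
    have e2 : ((Q'.eval ⟨b, hbH⟩ : HO (S ⊓ L) c1) : W) = Q.derivative.eval b := hev' ⟨b, hbH⟩
    have e3 : ((Q'.eval ⟨e', heH⟩ : HO (S ⊓ L) c1) : W) = Q.derivative.eval e' :=
      hev' ⟨e', heH⟩
    rw [map_sub, map_mul, map_sub] at e1
    rw [← e2, ← e3]
    exact e1
  have hlt : ‖Q.derivative.eval b - Q.derivative.eval e'‖ < 1 := by
    rw [hdiff, norm_mul]
    exact (mul_le_of_le_one_right (norm_nonneg _) (HO_norm_le h.ch'.ok t.2)).trans_lt hbe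
  have hb1 : ‖Q.derivative.eval b‖ = 1 := by
    have e1 : Q.derivative.eval b =
        (Q.derivative.eval b - Q.derivative.eval e') + Q.derivative.eval e' := by ring
    rw [e1, IsUltrametricDist.norm_add_eq_max_of_norm_ne_norm (by rw [hn1]; exact hlt.ne), hn1]
    exact max_eq_right hlt.le
  refine Dcl_newton hr hok hA hinv Q (fun j => ⟨(hRw _ (hQc j).2).1, ?_⟩)
    ⟨(hRw b hb).1, RfS.HO_le hr h.ch' h1 hbH⟩ (RfS.HO_le hr h.ch' h1 heH) hQ0 ?_ hb1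
  · exact RfS.HO_le hr h.ch' h1 (hRw _ (hQc j).2).2
  · refine RfS.lt_one hr h12 h2 (sub_mem heH hbH) ?_
    rw [norm_sub_rev]
    exact hbe

/-- See the header. -/
theorem app_main {k W : Type} [Field k] [NormedField W] [IsUltrametricDist W] [Algebra k W]
    {r m : ℕ} (hr : 0 < r) {S L : IntermediateField k W} {c0 c1 c : Tri k W r}
    (h0 : Ch m S L c0) (h01 : StR m S L c0 c1) (h1 : RfS m S L c1 c) (A : Subring W)
    (hA : ∀ a ∈ A, a ∈ HL (S ⊓ L) c) (hinv : ∀ a ∈ A, MoH (S ⊓ L) c a → a⁻¹ ∈ A)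
    (hC : ∀ e ∈ c0.C, e ∈ Dcl (S ⊓ L) c A) (hx : ∀ i, c0.x i ∈ Dcl (S ⊓ L) c A)
    (hy : c0.y ∈ Dcl (S ⊓ L) c A) :
    (∀ i, c.x i ∈ Dcl (S ⊓ L) c A) ∧ c.y ∈ Dcl (S ⊓ L) c A ∧
      ∀ e ∈ c.C, ∃ a ∈ A, a ∈ HO (S ⊓ L) c ∧ ‖e - a‖ < 1 := by
  have hok : Ok m (S ⊓ L) c := (RfS.ch h0 (Relation.ReflTransGen.head h01 h1)).ok
  obtain ⟨D, hD⟩ := exists_DclS (m := m) hr hok hA
  revert c0
  refine Relation.ReflTransGen.head_induction_on (motive := fun c1 _ => ∀ {c0 : Tri k W r},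
    Ch m S L c0 → StR m S L c0 c1 → (∀ e ∈ c0.C, e ∈ Dcl (S ⊓ L) c A) →
    (∀ i, c0.x i ∈ Dcl (S ⊓ L) c A) → c0.y ∈ Dcl (S ⊓ L) c A →
    (∀ i, c.x i ∈ Dcl (S ⊓ L) c A) ∧ c.y ∈ Dcl (S ⊓ L) c A ∧
      ∀ e ∈ c.C, ∃ a ∈ A, a ∈ HO (S ⊓ L) c ∧ ‖e - a‖ < 1) h1 ?_ ?_
  · intro c0 h0 h01 hC hx hy
    obtain ⟨e, B, w, g, T, h⟩ := h01
    obtain ⟨hx1, hy1, hRw⟩ := appSt_one hr h Relation.ReflTransGen.refl hA hinv hD
      (fun e he => (hD e).2 (hC e he)) (fun i => (hD _).2 (hx i)) ((hD _).2 hy)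
    refine ⟨fun i => (hD _).1 (hx1 i), (hD _).1 hy1, fun e' he' => ?_⟩
    obtain ⟨b, hb, hbe⟩ := h.lift e' he'
    exact appSt_approx hr hok ((hD b).1 (hRw b hb).1) (hRw b hb).2 hbe
  · intro c1 c2 h12 h2c ih c0 h0 h01 hC hx hy
    obtain ⟨e, B, w, g, T, h⟩ := h01
    obtain ⟨hx1, hy1, hRw⟩ := appSt_one hr h (Relation.ReflTransGen.head h12 h2c) hA hinv hD
      (fun e he => (hD e).2 (hC e he)) (fun i => (hD _).2 (hx i)) ((hD _).2 hy)
    exact ih h.ch' h12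
      (appSt_C hr h h12 h2c hA hinv fun z hz => ⟨(hD z).1 (hRw z hz).1, (hRw z hz).2⟩)
      (fun i => (hD _).1 (hx1 i)) ((hD _).1 hy1)

end Pool.Agent.Lib.TU
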