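import Pool.Agent.Lib.TU.MAll
import Pool.Agent.Lib.TU.AppD
import Pool.Agent.Lib.TU.HenU
import Pool.Agent.Lib.TDO.EtPres

/-!
# Module DenF: elements of `S ⊓ L` are approximated by fractions of `A0` (paper 12.1)

`L = cl F0`, `S` = the separable closure of `F0` in `W`.  One `z ≠ 0` at a time (`Dcl_refine` for the
others).  `z` is separable over `F0` and in `cl F0`: `TDO.exists_et` (`E = F0`, `G = {z}`): `τ`, `P` over `F0`,
`z ∈ F0 ⊔ k(τ)`, so `z = ∑ f_j τ^j`, `f_j ∈ F0` (`τ` is algebraic over `F0`).  Write the `f_j` and the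
coefficients `p_j` of `P` as fractions of elements of `A0`; `m_all`: refinement `c'` such that all the
nonzero numerators and denominators (elements of `A0 ⊆ HO c ⊆ S ⊓ L`) are monomial for `c'`.  So
`f_j, p_j ∈ A := Afr c' A0 ⊆ HL c'`, and `p_j ∈ HO c'` (zero, or monomial of norm `≤ 1`), `p_0 ∈ QH c'`.
`τ ∈ S ⊓ L` (`L` complete), `‖τ‖ < 1`: `τ ∈ HO c'` by `hen`; `τ = - p_0 / (1 + p_2 τ + ..) ∈ QH c'`;
`Dcl_newton` with `b = 0`: `τ ∈ Dcl`.  `Dcl` is a ring containing `A` (`exists_DclS`): `z ∈ Dcl`.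
-/

namespace Pool.Agent.Lib.TU

open Pool.Agent.Lib.MP_3029eb_ag Pool.Agent.Lib.MP_3029eb_ag.Abh Pool.Agent.Lib.TDO

private theorem df_eq {W : Type} [NormedField W] [IsUltrametricDist W] {a b : W}
    (h : ‖a - b‖ < ‖a‖) : ‖b‖ = ‖a‖ := by
  have hs : ∀ {a b : W}, ‖a - b‖ ≤ max ‖a‖ ‖b‖ := by
    intro a b
    have := IsUltrametricDist.norm_add_le_max a (-b)
    rwa [norm_neg, ← sub_eq_add_neg] at this
  apply le_antisymm
  · have h1 : b = a - (a - b) := by ring
    rw [h1]
    exact hs.trans (max_le le_rfl h.le)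
  · by_contra h2
    have h3 : a = (a - b) + b := by ring
    have h4 := IsUltrametricDist.norm_add_le_max (a - b) b
    rw [← h3] at h4
    exact absurd h4 (not_le.2 (max_lt h (not_le.1 h2)))

private theorem df_poly {k W : Type} [Field k] [Field W] [Algebra k W]
    (F : IntermediateField k W) {τ : W} (hτ : IsIntegral F τ) {z : W}
    (hz : z ∈ F ⊔ IntermediateField.adjoin k {τ}) :
    ∃ Q : Polynomial F, Polynomial.aeval τ Q = z := by
  have h1 : F ⊔ IntermediateField.adjoin k {τ} ≤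
      (IntermediateField.adjoin F {τ}).restrictScalars k := by
    refine sup_le ?_ ?_
    · intro u hu
      exact (IntermediateField.adjoin F {τ}).algebraMap_mem ⟨u, hu⟩
    · rw [IntermediateField.adjoin_le_iff, Set.singleton_subset_iff]
      exact IntermediateField.mem_adjoin_simple_self F τ
  have h2 : z ∈ (IntermediateField.adjoin F {τ}).toSubalgebra := h1 hz
  rw [IntermediateField.adjoin_simple_toSubalgebra_of_isAlgebraic hτ.isAlgebraic,
    Algebra.adjoin_singleton_eq_range_aeval] at h2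
  exact h2

/-- See the header. -/
theorem den_F {k W : Type} [Field k] [PerfectField k] [NormedField W] [IsUltrametricDist W]
    [Algebra k W] {r m : ℕ} (hr : 0 < r) (hA : AmbG r m k W) (S F0 L : IntermediateField k W)
    (hSF : ∀ z : W, z ∈ S ↔ IsSeparable F0 z) (hS : ∀ z : W, IsSeparable S z → z ∈ S)
    (hLF : L = cl F0) (hL : IsComplete (L : Set W)) {c : Tri k W r} (hc : Ch m S L c)
    (A0 : Subring W) (hA0 : ∀ a ∈ A0, a ∈ HO (S ⊓ L) c)
    (hfrac : ∀ z ∈ F0, ∃ a ∈ A0, ∃ b ∈ A0, b ≠ 0 ∧ z * b = a) (Z : Finset W)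
    (hZ : ∀ z ∈ Z, z ∈ S ⊓ L) :
    ∃ c' : Tri k W r, RfS m S L c c' ∧
      ∀ z ∈ Z, z ∈ Dcl (S ⊓ L) c' (Afr (S ⊓ L) c' A0) := by
  classical
  set M := S ⊓ L with hM
  have hok := hc.ok
  have hFS : F0 ≤ S := by
    intro z hz
    rw [hSF]
    exact isSeparable_algebraMap (⟨z, hz⟩ : F0)
  have hFL : F0 ≤ L := by
    rw [hLF]
    exact le_cl F0
  -- a small element of F0
  have hnt : ∃ z ∈ F0, z ≠ 0 ∧ ‖z‖ < 1 := by
    have hxL : c.x ⟨0, hr⟩ ∈ L := (hok.xM ⟨0, hr⟩).2
    have hx0 := hok.par.ind.ne ⟨0, hr⟩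
    have hx1 := hok.par.ind.lt ⟨0, hr⟩
    rw [hLF, mem_cl_iff] at hxL
    obtain ⟨z, hz, hxz⟩ := hxL ‖c.x ⟨0, hr⟩‖ (norm_pos_iff.2 hx0)
    have h1 := df_eq hxz
    refine ⟨z, hz, ?_, ?_⟩
    · rw [← norm_pos_iff, h1]
      exact norm_pos_iff.2 hx0
    · rw [h1]
      exact hx1
  obtain ⟨τ, P, hEt, hfld⟩ := exists_et F0 hnt Z (fun g hg => ⟨(hSF g).1 (hZ g hg).1, by
    rw [← hLF]
    exact (hZ g hg).2⟩)
  have hτM : τ ∈ M := by
    have h1 : F0 ⊔ IntermediateField.adjoin k (Z : Set W) ≤ M := by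
      refine sup_le (le_inf hFS hFL) ?_
      rw [IntermediateField.adjoin_le_iff]
      exact fun g hg => hZ g hg
    rw [← hfld] at h1
    exact h1 ((le_sup_right : IntermediateField.adjoin k {τ} ≤ _)
      (IntermediateField.mem_adjoin_simple_self k τ))
  have hτint : IsIntegral F0 τ := ((hSF τ).1 hτM.1).isIntegral
  -- the elements of Z as polynomials in τ
  have hQ : ∀ z : W, ∃ Q : Polynomial F0, z ∈ Z → Polynomial.aeval τ Q = z := by
    intro z
    by_cases hz : z ∈ Z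
    · have h1 : z ∈ F0 ⊔ IntermediateField.adjoin k {τ} := by
        rw [hfld]
        exact (le_sup_right : IntermediateField.adjoin k (Z : Set W) ≤ _)
          (IntermediateField.subset_adjoin _ _ hz)
      obtain ⟨Q, hQ⟩ := df_poly F0 hτint h1
      exact ⟨Q, fun _ => hQ⟩
    · exact ⟨0, fun h => absurd h hz⟩
  choose Q hQ using hQ
  -- fractions
  have hfr : ∀ z : F0, ∃ ab : W × W, ab.1 ∈ A0 ∧ ab.2 ∈ A0 ∧ ab.2 ≠ 0 ∧ (z : W) * ab.2 = ab.1 := by
    intro z
    obtain ⟨a, ha, b, hb, hb0, h⟩ := hfrac z z.2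
    exact ⟨(a, b), ha, hb, hb0, h⟩
  choose ab hab1 hab2 hab0 habe using hfr
  -- the finite set of coefficients
  set K : Finset F0 := (Finset.range (P.natDegree + 1)).image (fun j => P.coeff j) ∪
    Z.biUnion (fun z => (Finset.range ((Q z).natDegree + 1)).image (fun j => (Q z).coeff j))
    with hK
  set E1 : Finset W := (K.image (fun f => (ab f).1) ∪ K.image (fun f => (ab f).2)).filter
    (fun z => z ≠ 0) with hE1
  have hA0M : ∀ a ∈ A0, a ∈ M := fun a ha => HO_mem_M hok (hA0 a ha)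
  have hE1M : ∀ z ∈ E1, z ∈ S ⊓ L ∧ z ≠ 0 := by
    intro z hz
    rw [hE1, Finset.mem_filter, Finset.mem_union, Finset.mem_image, Finset.mem_image] at hz
    refine ⟨?_, hz.2⟩
    rcases hz.1 with ⟨f, -, rfl⟩ | ⟨f, -, rfl⟩
    · exact hA0M _ (hab1 f)
    · exact hA0M _ (hab2 f)
  obtain ⟨c', hcc', hmo⟩ := m_all hr hA S L hS hL hc E1 hE1M
  refine ⟨c', hcc', ?_⟩
  have hch' : Ch m S L c' := RfS.ch hc hcc'
  have hok' := hch'.ok
  rw [← hM] at hok'
  have hA0H : ∀ a ∈ A0, a ∈ HO M c' := fun a ha => RfS.HO_le hr hc hcc' (hA0 a ha)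
  have hA0HL : ∀ a ∈ A0, a ∈ HL M c' := fun a ha => HO_le_HL (hA0H a ha)
  set A := Afr M c' A0 with hAdef
  have hAHL : ∀ a ∈ A, a ∈ HL M c' := Afr_HL hok' hA0HL
  have hAinv : ∀ a ∈ A, MoH M c' a → a⁻¹ ∈ A := Afr_inv hok'
  have hden : ∀ f ∈ K, MoH M c' (ab f).2 := by
    intro f hf
    refine hmo _ ?_
    rw [hE1, Finset.mem_filter, Finset.mem_union]
    exact ⟨Or.inr (Finset.mem_image_of_mem _ hf), hab0 f⟩
  have hKA : ∀ f ∈ K, (f : W) ∈ A := by
    intro f hf
    rw [hAdef, mem_Afr_iff hok']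
    exact ⟨_, hab1 f, _, hab2 f, hden f hf, habe f⟩
  have hKm : ∀ f ∈ K, (f : W) = 0 ∨ MoH M c' (f : W) := by
    intro f hf
    by_cases h0 : (f : W) = 0
    · exact Or.inl h0
    · right
      have hn0 : (ab f).1 ≠ 0 := by
        rw [← habe f]
        exact mul_ne_zero h0 (hab0 f)
      have hnum : MoH M c' (ab f).1 := by
        refine hmo _ ?_
        rw [hE1, Finset.mem_filter, Finset.mem_union]
        exact ⟨Or.inl (Finset.mem_image_of_mem _ hf), hn0⟩
      have h1 : (f : W) = (ab f).1 * ((ab f).2)⁻¹ := by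
        rw [← habe f]
        have := hab0 f
        field_simp
      rw [h1]
      exact MoH.mul hok' hnum (MoH.inv hok' (hden f hf))
  -- coefficients of P and Q
  have hPK : ∀ j, ((P.coeff j : F0) : W) ∈ A ∧ (((P.coeff j : F0) : W) = 0 ∨
      MoH M c' ((P.coeff j : F0) : W)) := by
    intro j
    by_cases hj : j ≤ P.natDegree
    · have : P.coeff j ∈ K := by
        rw [hK, Finset.mem_union]
        exact Or.inl (Finset.mem_image_of_mem _ (Finset.mem_range.2 (Nat.lt_succ_of_le hj)))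
      exact ⟨hKA _ this, hKm _ this⟩
    · rw [Polynomial.coeff_eq_zero_of_natDegree_lt (not_le.1 hj)]
      exact ⟨zero_mem A, Or.inl rfl⟩
  have hQK : ∀ z ∈ Z, ∀ j, (((Q z).coeff j : F0) : W) ∈ A := by
    intro z hz j
    by_cases hj : j ≤ (Q z).natDegree
    · have : (Q z).coeff j ∈ K := by
        rw [hK, Finset.mem_union, Finset.mem_biUnion]
        exact Or.inr ⟨z, hz, Finset.mem_image_of_mem _
          (Finset.mem_range.2 (Nat.lt_succ_of_le hj))⟩
      exact hKA _ this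
    · rw [Polynomial.coeff_eq_zero_of_natDegree_lt (not_le.1 hj)]
      exact zero_mem A
  have hPn : ∀ j, ‖((P.coeff j : F0) : W)‖ ≤ 1 := by
    intro j
    by_cases hj : j = 1
    · rw [hj, hEt.c1]
      exact norm_one.le
    · exact (hEt.cj j hj).le
  set Pw : Polynomial W := P.map (algebraMap F0 W) with hPw
  have hPwc : ∀ j, Pw.coeff j = ((P.coeff j : F0) : W) := by
    intro j
    rw [hPw, Polynomial.coeff_map]
    rfl
  have hPH : ∀ j, Pw.coeff j ∈ HO M c' := by
    intro j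
    rw [hPwc]
    rcases (hPK j).2 with h | h
    · rw [h]
      exact zero_mem _
    · exact MoH.mem_HO hok' h (hPn j)
  have hPD : ∀ j, Pw.coeff j ∈ Dcl M c' A := by
    intro j
    rw [hPwc]
    exact Dcl_of_mem hr hok' hAHL (hPK j).1
  have hP0Q : Pw.coeff 0 ∈ QH M c' := by
    rw [hPwc]
    rcases (hPK 0).2 with h | h
    · rw [h]
      exact QH_zero hok' hr
    · exact MoH.mem_QH hok' h (hEt.cj 0 (by norm_num))
  have hPw1 : Pw.coeff 1 = 1 := by
    rw [hPwc, hEt.c1]
    rfl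
  have hroot : Pw.eval τ = 0 := by
    rw [hPw, Polynomial.eval_map_algebraMap]
    exact hEt.root
  have hτH : τ ∈ HO M c' := hen hr hok' Pw hPH (by rw [hPw1, norm_one]) hτM hEt.lt hroot
  -- τ ∈ QH
  have hτQ : τ ∈ QH M c' := by
    have e1 : Pw.divX.eval τ * τ + Pw.coeff 0 = 0 := by
      have := congrArg (Polynomial.eval τ) (Polynomial.divX_mul_X_add Pw)
      rw [Polynomial.eval_add, Polynomial.eval_mul, Polynomial.eval_X, Polynomial.eval_C,
        hroot] at this
      exact this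
    set u := Pw.divX.eval τ with hu
    have huH : u ∈ HO M c' := by
      rw [hu, Polynomial.eval_eq_sum_range]
      refine sum_mem fun j _ => mul_mem ?_ (pow_mem hτH j)
      rw [Polynomial.coeff_divX]
      exact hPH _
    have hu1 : ‖u‖ = 1 := by
      have e2 : Pw.divX.divX.eval τ * τ + 1 = u := by
        have := congrArg (Polynomial.eval τ) (Polynomial.divX_mul_X_add Pw.divX)
        rw [Polynomial.eval_add, Polynomial.eval_mul, Polynomial.eval_X, Polynomial.eval_C,
          Polynomial.coeff_divX, zero_add, hPw1] at this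
        exact this
      have e3 : ‖Pw.divX.divX.eval τ‖ ≤ 1 := by
        refine norm_eval_le _ (fun j => ?_) hEt.lt.le
        rw [Polynomial.coeff_divX, Polynomial.coeff_divX, hPwc]
        exact hPn _
      have e4 : ‖Pw.divX.divX.eval τ * τ‖ < 1 := by
        rw [norm_mul]
        exact (mul_le_of_le_one_left (norm_nonneg _) e3).trans_lt hEt.lt
      have e5 : ‖(1 : W) - u‖ < ‖(1 : W)‖ := by
        have e6 : (1 : W) - u = -(Pw.divX.divX.eval τ * τ) := by rw [← e2]; ring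
        rw [e6, norm_neg, norm_one]
        exact e4
      rw [df_eq e5, norm_one]
    have hu0 : u ≠ 0 := by
      rintro h0
      rw [h0, norm_zero] at hu1
      exact zero_ne_one hu1
    have e7 : τ = (-(Pw.coeff 0)) * u⁻¹ := by
      field_simp
      linear_combination e1
    rw [e7]
    exact QH_mul hok' (QH_neg hok' hP0Q) (inv_mem_HO hok' huH hu1)
  have hder : ‖Pw.derivative.eval 0‖ = 1 := by
    rw [← Polynomial.coeff_zero_eq_eval_zero, Polynomial.coeff_derivative]
    simp [hPw1]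
  obtain ⟨D, hD⟩ := exists_DclS hr hok' hAHL
  have hτD : τ ∈ Dcl M c' A := by
    refine Dcl_newton hr hok' hAHL hAinv Pw (fun j => ⟨hPD j, hPH j⟩) (b := 0)
      ⟨(hD 0).1 (zero_mem D), zero_mem _⟩ hτH hroot ?_ hder
    rw [sub_zero]
    exact hτQ
  intro z hz
  rw [← hQ z hz, ← hD, Polynomial.aeval_eq_sum_range]
  refine sum_mem fun j _ => ?_
  rw [Algebra.smul_def]
  refine mul_mem ?_ (pow_mem ((hD τ).2 hτD) j)
  rw [hD]
  exact Dcl_of_mem hr hok' hAHL (hQK z hz j)

end Pool.Agent.Lib.TU
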