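import Pool.Agent.Lib.TU.IntF

/-!
# Module DenE: denominators of integral elements (paper 12.3, condition `den`)

`R0 = k[G0]`, `A0 = locV R0`, `f0 ∈ R0` such that `R0[1/f0]` is integrally closed in `F0` (`exists_normal`),
`E` a finite set of nonzero elements of `A0` with `f0 ∈ E`.  `𝔇 :=` the multiplicative monoid generated by
`E`.  Let `w ∈ F0` be integral over a ring `Q` all of whose elements have denominators in `𝔇`
(`D q ∈ A0`).  Then `D w ∈ A0` for some `D ∈ 𝔇`.
Proof: `w` is a root of a monic polynomial with coefficients `p_j ∈ Q`; common `D ∈ 𝔇`: `D p_j = a_j / b`,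
`D = a / b`, `a_j, a, b ∈ R0`, `‖b‖ = 1`.  `s := a * b ∈ R0`... precisely `p_j = a_j / (b D) = a_j / a`, so
`a p_j ∈ R0` for all `j`; `a w` is integral over `R0` (`(a w)^n + ∑ a^(n-j) p_j (a w)^j = 0`), so
`f0^N a w ∈ R0` for some `N`.  `a = b D`: `f0^N D w = (f0^N a w) / b ∈ A0`.  `f0^N D ∈ 𝔇`.
-/

namespace Pool.Agent.Lib.TU

open Pool.Agent.Lib.MP_3029eb_ag Pool.Agent.Lib.MP_3029eb_ag.Abh Pool.Agent.Lib.TDO

/-- See the header. -/
theorem den_E {W : Type} [NormedField W] [IsUltrametricDist W] (F0 : Subfield W)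
    (R0 : Subring W) (hR0F : ∀ a ∈ R0, a ∈ F0) (f0 : W) (hf0 : f0 ∈ R0) (hf00 : f0 ≠ 0)
    (hn : ∀ z ∈ F0, ∀ P : Polynomial W, P.Monic → (∀ j, ∃ N : ℕ, f0 ^ N * P.coeff j ∈ R0) →
      P.eval z = 0 → ∃ N : ℕ, f0 ^ N * z ∈ R0) (E : Set W)
    (hE : ∀ e ∈ E, e ∈ locV (ball W) R0 ∧ e ≠ 0) (hfE : f0 ∈ E) (Q : Subring W)
    (hQ : ∀ q ∈ Q, ∃ D ∈ Submonoid.closure E, D * q ∈ locV (ball W) R0) (w : W) (hw : w ∈ F0)
    (hwi : Intg Q w) : ∃ D ∈ Submonoid.closure E, D * w ∈ locV (ball W) R0 := by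
  classical
  obtain ⟨P, hPm, hPc, hPw⟩ := hwi
  set A0 : Subring W := locV (ball W) R0 with hA0
  have hclE : ∀ D ∈ Submonoid.closure E, D ∈ A0 := by
    intro D hD
    have h : Submonoid.closure E ≤ A0.toSubmonoid :=
      Submonoid.closure_le.2 fun e he => (hE e he).1
    exact h hD
  choose D hD hDA using fun j => hQ (P.coeff j) (hPc j)
  set n : ℕ := P.natDegree with hndef
  set DD : W := ∏ j ∈ Finset.range (n + 1), D j with hDD
  have hDDcl : DD ∈ Submonoid.closure E := (Submonoid.closure E).prod_mem fun j _ => hD j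
  have hDP : ∀ j ∈ Finset.range (n + 1), DD * P.coeff j ∈ A0 := by
    intro j hj
    rw [hDD, ← Finset.mul_prod_erase _ _ hj]
    have e : D j * (∏ i ∈ (Finset.range (n + 1)).erase j, D i) * P.coeff j =
        (∏ i ∈ (Finset.range (n + 1)).erase j, D i) * (D j * P.coeff j) := by ring
    rw [e]
    exact A0.mul_mem (A0.prod_mem fun i _ => hclE _ (hD i)) (hDA j)
  -- common denominators
  have hcomm : ∀ s : Finset W, (∀ z ∈ s, z ∈ A0) →
      ∃ b ∈ R0, (ball W).valuation b = 1 ∧ ∀ z ∈ s, z * b ∈ R0 := by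
    intro s
    induction s using Finset.induction_on with
    | empty => exact fun _ => ⟨1, R0.one_mem, map_one _, fun z hz => absurd hz (Finset.notMem_empty z)⟩
    | insert t s _ ih =>
      intro hs
      obtain ⟨b, hb, hb1, hbs⟩ := ih fun z hz => hs z (Finset.mem_insert_of_mem hz)
      obtain ⟨a, ha, b', hb', hb'1, hab⟩ := hs t (Finset.mem_insert_self t s)
      refine ⟨b * b', R0.mul_mem hb hb', by rw [map_mul, hb1, hb'1, one_mul], fun z hz => ?_⟩
      rcases Finset.mem_insert.1 hz with rfl | hz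
      · have e : z * (b * b') = b * (z * b') := by ring
        rw [e, hab]; exact R0.mul_mem hb ha
      · have e : z * (b * b') = (z * b) * b' := by ring
        rw [e]; exact R0.mul_mem (hbs z hz) hb'
  obtain ⟨b, hb, hb1, hbs⟩ := hcomm (insert DD ((Finset.range (n + 1)).image
    fun j => DD * P.coeff j)) (by
      intro z hz
      rcases Finset.mem_insert.1 hz with rfl | hz
      · exact hclE _ hDDcl
      · obtain ⟨j, hj, rfl⟩ := Finset.mem_image.1 hz
        exact hDP j hj)
  set a : W := DD * b with ha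
  have haR : a ∈ R0 := hbs DD (Finset.mem_insert_self _ _)
  have haP : ∀ j ∈ Finset.range (n + 1), a * P.coeff j ∈ R0 := by
    intro j hj
    have h := hbs (DD * P.coeff j) (Finset.mem_insert_of_mem (Finset.mem_image_of_mem _ hj))
    have e : a * P.coeff j = DD * P.coeff j * b := by rw [ha]; ring
    rw [e]; exact h
  have hcoef : ∀ j, (P.scaleRoots a).coeff j ∈ R0 := by
    intro j
    rw [Polynomial.coeff_scaleRoots]
    rcases lt_trichotomy j n with h | h | h
    · have e : P.coeff j * a ^ (P.natDegree - j) =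
          (a * P.coeff j) * a ^ (P.natDegree - j - 1) := by
        have h2 : P.natDegree - j = (P.natDegree - j - 1) + 1 := by omega
        rw [h2, pow_succ, Nat.add_sub_cancel]; ring
      rw [e]
      exact R0.mul_mem (haP j (Finset.mem_range.2 (by omega))) (R0.pow_mem haR _)
    · have h2 : P.coeff j = 1 := by rw [h]; exact hPm
      rw [h2, h, hndef, Nat.sub_self, pow_zero, mul_one]; exact R0.one_mem
    · rw [Polynomial.coeff_eq_zero_of_natDegree_lt h, zero_mul]; exact R0.zero_mem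
  obtain ⟨N, hN⟩ := hn (a * w) (F0.mul_mem (hR0F a haR) hw) (P.scaleRoots a)
    ((Polynomial.monic_scaleRoots_iff a).2 hPm)
    (fun j => ⟨0, by rw [pow_zero, one_mul]; exact hcoef j⟩)
    (by rw [Polynomial.scaleRoots_eval_mul, hPw, mul_zero])
  refine ⟨f0 ^ N * DD, (Submonoid.closure E).mul_mem
    ((Submonoid.closure E).pow_mem (Submonoid.subset_closure hfE) N) hDDcl,
    f0 ^ N * (a * w), hN, b, hb, hb1, ?_⟩
  rw [ha]; ring

end Pool.Agent.Lib.TU
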