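import Pool.Agent.Lib.TU.Defs
import Pool.Agent.Lib.TDO.DimFG

/-!
# Module DimU: dimension of the local ring at the centre, residue field algebraic over the base

Generalization of `TDO.dim_fg`, `TDO.reg_fg`: instead of assuming that the residue field is `k` we only assume
that the residues of the elements of the ring are algebraic over `k`.
Copy the proofs of `Pool/Agent/Lib/TDO/DimFG.lean`.  The hypothesis `hA.res` is used there only to see
that the centre `M` of `A0 = k[G]` is a maximal ideal.  New argument: let `z ∈ A0`, `‖z‖ = 1`, and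
`P ≠ 0` over `k`, `‖aeval z P‖ < 1`.  Dividing by a power of `X` (`‖z‖ = 1`) we may assume
`P.coeff 0 ≠ 0`; then `z * Q(z) = P(z) - P(0)`, `Q = divX P`, so `z * (-Q(z) / P(0)) - 1` has norm `< 1`
and `z` is invertible modulo the centre.
-/

namespace Pool.Agent.Lib.TU

open Pool.Agent.Lib.MP_3029eb_ag Pool.Agent.Lib.MP_3029eb_ag.Abh Pool.Agent.Lib.TDO

section aux

/-- maximal ideals of polynomial rings over a field -/
private theorem DimU_mv (k : Type) [Field k] (m : ℕ) :
    ∀ P : Ideal (MvPolynomial (Fin m) k), P.IsMaximal → (m : ℕ∞) ≤ P.height := by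
  induction m with
  | zero => intro P _; simp
  | succ m ih =>
    intro P hP
    let e := (MvPolynomial.finSuccEquiv k m).toRingEquiv
    have hP' : (P.map e).IsMaximal := Ideal.map_isMaximal_of_equiv e
    have h1 : ((P.map e).comap (Polynomial.C : MvPolynomial (Fin m) k →+* _)).IsMaximal :=
      Polynomial.isMaximal_comap_C_of_isJacobsonRing (P.map e)
    have h2 : (P.map e).LiesOver
        ((P.map e).comap (Polynomial.C : MvPolynomial (Fin m) k →+* _)) := ⟨rfl⟩
    have h3 := Polynomial.height_eq_height_add_one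
      ((P.map e).comap (Polynomial.C : MvPolynomial (Fin m) k →+* _)) (P.map e)
    have h4 : (P.map e).height = P.height := e.height_map P
    rw [← h4, h3]
    push_cast
    gcongr
    exact ih _ h1

open scoped IntermediateField.algebraAdjoinAdjoin in
private theorem DimU_alg {k C : Type} [Field k] [CommRing C] [IsDomain C] [Algebra k C]
    [Algebra.FiniteType k C] (M : Ideal C) (hM : M.IsMaximal) :
    ∃ s : ℕ, Algebra.trdeg k C = s ∧ (s : ℕ∞) ≤ M.height := by
  obtain ⟨s, g, hginj, hgint⟩ := exists_integral_inj_algHom_of_fg k C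
  let : Algebra (MvPolynomial (Fin s) k) C := g.toRingHom.toAlgebra
  have hst : IsScalarTower k (MvPolynomial (Fin s) k) C :=
    IsScalarTower.of_algebraMap_eq fun c => (g.commutes c).symm
  have hint : Algebra.IsIntegral (MvPolynomial (Fin s) k) C := ⟨hgint⟩
  have hinj : Function.Injective (algebraMap (MvPolynomial (Fin s) k) C) := hginj
  have hfs : FaithfulSMul (MvPolynomial (Fin s) k) C :=
    (faithfulSMul_iff_algebraMap_injective _ _).2 hinj
  have hno : IsNoetherianRing C := Algebra.FiniteType.isNoetherianRing k C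
  refine ⟨s, ?_, ?_⟩
  · have h1 := _root_.trdeg_add_eq k (MvPolynomial (Fin s) k) (A := C)
    rw [← h1, _root_.trdeg_eq_zero (R := MvPolynomial (Fin s) k) (A := C), add_zero,
      MvPolynomial.trdeg_of_isDomain]
    simp
  · have hp : (M.under (MvPolynomial (Fin s) k)).IsMaximal :=
      Ideal.isMaximal_comap_of_isIntegral_of_isMaximal M
    have h2 := Ideal.height_eq_height_add_of_liesOver_of_hasGoingDown
      (M.under (MvPolynomial (Fin s) k)) M
    rw [h2]
    exact (DimU_mv k s _ hp).trans (self_le_add_right _ _)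

variable {k W : Type} [Field k] [NormedField W] [IsUltrametricDist W] [Algebra k W]

private theorem DimU_le_ball (hu : ∀ c : k, ‖algebraMap k W c‖ ≤ 1) (G : Finset W)
    (hG : ∀ g ∈ G, ‖g‖ ≤ 1) :
    Subring.closure (Set.range (algebraMap k W) ∪ (G : Set W)) ≤ (ball W).toSubring := by
  rw [Subring.closure_le]
  rintro z (⟨c, rfl⟩ | hz)
  · exact hu c
  · exact hG z hz

end aux

open scoped IntermediateField.algebraAdjoinAdjoin in
/-- See the header. -/
theorem dim_fgU {k W : Type} [Field k] [NormedField W] [IsUltrametricDist W] [Algebra k W]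
    (hu : ∀ c : k, c ≠ 0 → ‖algebraMap k W c‖ = 1) (G : Finset W) (hG : ∀ g ∈ G, ‖g‖ ≤ 1)
    (hres : ∀ z ∈ locV (ball W) (Subring.closure (Set.range (algebraMap k W) ∪ (G : Set W))),
      ∃ P : Polynomial k, P ≠ 0 ∧ ‖Polynomial.aeval z P‖ < 1) (n : ℕ) (z : Fin n → W)
    (hz : ∀ i, z i ∈ IntermediateField.adjoin k (G : Set W)) (hi : AlgebraicIndependent k z) :
    (n : WithBot ℕ∞) ≤
      ringKrullDim (locV (ball W) (Subring.closure (Set.range (algebraMap k W) ∪ (G : Set W)))) := by
  have hu1 : ∀ c : k, ‖algebraMap k W c‖ ≤ 1 := by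
    intro c
    by_cases hc : c = 0
    · rw [hc, map_zero, norm_zero]; exact zero_le_one
    · exact (hu c hc).le
  have hball := DimU_le_ball hu1 G hG
  rw [C4_dim_locV (ball W) hball]
  -- the algebra
  set A0 := Subring.closure (Set.range (algebraMap k W) ∪ (G : Set W)) with hA0
  have hCA : (Algebra.adjoin k (G : Set W)).toSubring = A0 := Algebra.adjoin_eq_ring_closure _
  let C := Algebra.adjoin k (G : Set W)
  have hft : Algebra.FiniteType k C :=
    (Subalgebra.fg_iff_finiteType _).1 ⟨G, rfl⟩
  let e : C ≃+* A0 :=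
    { toFun := fun x => ⟨x.1, by rw [← hCA]; exact x.2⟩
      invFun := fun x => ⟨x.1, by
        have h0 : (x : W) ∈ (Algebra.adjoin k (G : Set W)).toSubring := hCA.symm ▸ x.2
        exact h0⟩
      left_inv := fun x => rfl
      right_inv := fun x => rfl
      map_mul' := fun x y => rfl
      map_add' := fun x y => rfl }
  -- the centre is maximal
  have hmax : (C3.cen (ball W) hball).IsMaximal := by
    rw [Ideal.isMaximal_iff]
    refine ⟨(Ideal.ne_top_iff_one _).1 Ideal.IsPrime.ne_top', ?_⟩
    intro J x hJ hx hxJ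
    have hxn : ‖(x : W)‖ ≤ 1 := hball x.2
    have hx1 : ¬ ‖(x : W)‖ < 1 := by
      intro h
      exact hx ((C3.mem_cen _ _ _).2 ((ball_val_lt_one _).2 h))
    have hxe : ‖(x : W)‖ = 1 := le_antisymm hxn (not_lt.1 hx1)
    have hx0 : (x : W) ≠ 0 := by
      intro h0
      rw [h0, norm_zero] at hxe
      exact zero_ne_one hxe
    obtain ⟨P, hP0, hP⟩ := hres (x : W) (le_locV (ball W) A0 x.2)
    obtain ⟨q, hPq, hq⟩ := P.exists_eq_pow_rootMultiplicity_mul_and_not_dvd hP0 0
    have hq0 : q.coeff 0 ≠ 0 := by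
      intro h0
      apply hq
      rw [Polynomial.C_0, sub_zero]
      exact Polynomial.X_dvd_iff.2 h0
    have hqx : ‖Polynomial.aeval (x : W) q‖ < 1 := by
      rw [hPq, map_mul, map_pow, norm_mul, norm_pow, Polynomial.C_0, sub_zero,
        Polynomial.aeval_X, hxe, one_pow, one_mul] at hP
      exact hP
    have hcm : ∀ c : k, algebraMap k W c ∈ A0 := fun c => Subring.subset_closure (Or.inl ⟨c, rfl⟩)
    have hpm : ∀ R : Polynomial k, Polynomial.aeval (x : W) R ∈ A0 := by
      intro R
      rw [Polynomial.aeval_eq_sum_range]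
      refine sum_mem fun i _ => ?_
      rw [Algebra.smul_def]
      exact mul_mem (hcm _) (pow_mem x.2 i)
    have hsplit : Polynomial.aeval (x : W) q =
        x * Polynomial.aeval (x : W) (Polynomial.divX q) + algebraMap k W (q.coeff 0) := by
      conv_lhs => rw [← Polynomial.divX_mul_X_add q]
      rw [map_add, map_mul, Polynomial.aeval_X, Polynomial.aeval_C, mul_comm]
    have h1 : x * ⟨Polynomial.aeval (x : W) (Polynomial.divX q), hpm _⟩ +
        (⟨algebraMap k W (q.coeff 0), hcm _⟩ : A0) ∈ J := by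
      refine hJ ((C3.mem_cen _ _ _).2 ((ball_val_lt_one _).2 ?_))
      change ‖(x : W) * Polynomial.aeval (x : W) (Polynomial.divX q) +
        algebraMap k W (q.coeff 0)‖ < 1
      rw [← hsplit]
      exact hqx
    have h2 : (⟨algebraMap k W (q.coeff 0), hcm _⟩ : A0) ∈ J := by
      have h3 := sub_mem h1 (J.mul_mem_right
        (⟨Polynomial.aeval (x : W) (Polynomial.divX q), hpm _⟩ : A0) hxJ)
      rwa [add_sub_cancel_left] at h3
    have h3 := J.mul_mem_left (⟨algebraMap k W (q.coeff 0)⁻¹, hcm _⟩ : A0) h2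
    have h4 : (⟨algebraMap k W (q.coeff 0)⁻¹, hcm _⟩ : A0) *
        ⟨algebraMap k W (q.coeff 0), hcm _⟩ = 1 := by
      apply Subtype.ext
      show algebraMap k W (q.coeff 0)⁻¹ * algebraMap k W (q.coeff 0) = 1
      rw [← map_mul, inv_mul_cancel₀ hq0, map_one]
    rwa [h4] at h3
  set M : Ideal C := (C3.cen (ball W) hball).comap e with hM
  have hMmax : M.IsMaximal := Ideal.comap_isMaximal_of_equiv e
  have hMh : M.height = (C3.cen (ball W) hball).height := e.height_comap _
  obtain ⟨s, hs, hsM⟩ := DimU_alg (k := k) M hMmax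
  -- transcendence degree
  have hns : n ≤ s := by
    have hi' : AlgebraicIndependent k
        (fun i => (⟨z i, hz i⟩ : IntermediateField.adjoin k (G : Set W))) := by
      refine AlgebraicIndependent.of_comp (IntermediateField.adjoin k (G : Set W)).val ?_
      exact hi
    have h1 := hi'.cardinalMk_le_trdeg
    have h2 := _root_.trdeg_add_eq k (Algebra.adjoin k (G : Set W))
      (A := IntermediateField.adjoin k (G : Set W))
    rw [_root_.trdeg_eq_zero (R := Algebra.adjoin k (G : Set W)), add_zero] at h2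
    rw [← h2, hs] at h1
    simpa using h1
  have h5 : ((n : ℕ∞) : WithBot ℕ∞) ≤ ((C3.cen (ball W) hball).height : WithBot ℕ∞) := by
    rw [← hMh]
    exact_mod_cast (le_trans (by exact_mod_cast hns) hsM)
  exact_mod_cast h5

/-- See the header; proof as for `TDO.reg_fg` (`dim_fgU`, `noeth_fg`,
`ringKrullDim_le_spanFinrank_maximalIdeal`). -/
theorem reg_fgU {k W : Type} [Field k] [NormedField W] [IsUltrametricDist W] [Algebra k W]
    (hu : ∀ c : k, c ≠ 0 → ‖algebraMap k W c‖ = 1) (G : Finset W) (hG : ∀ g ∈ G, ‖g‖ ≤ 1)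
    (hres : ∀ z ∈ locV (ball W) (Subring.closure (Set.range (algebraMap k W) ∪ (G : Set W))),
      ∃ P : Polynomial k, P ≠ 0 ∧ ‖Polynomial.aeval z P‖ < 1) (n : ℕ) (z : Fin n → W)
    (hz : ∀ i, z i ∈ IntermediateField.adjoin k (G : Set W)) (hi : AlgebraicIndependent k z)
    (β : Fin n → W)
    (hβ : ∀ i, β i ∈ locV (ball W) (Subring.closure (Set.range (algebraMap k W) ∪ (G : Set W))))
    (hβ1 : ∀ i, ‖β i‖ < 1)
    (hgen : ∀ z ∈ locV (ball W) (Subring.closure (Set.range (algebraMap k W) ∪ (G : Set W))),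
      ‖z‖ < 1 → ∃ b : Fin n → W,
        (∀ i, b i ∈ locV (ball W) (Subring.closure (Set.range (algebraMap k W) ∪ (G : Set W)))) ∧
        z = ∑ i, b i * β i) :
    IsRegularLocalRing
      (locV (ball W) (Subring.closure (Set.range (algebraMap k W) ∪ (G : Set W)))) ∧
    ringKrullDim
      (locV (ball W) (Subring.closure (Set.range (algebraMap k W) ∪ (G : Set W)))) = n := by
  have hu1 : ∀ c : k, ‖algebraMap k W c‖ ≤ 1 := by
    intro c
    by_cases hc : c = 0
    · rw [hc, map_zero, norm_zero]; exact zero_le_one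
    · exact (hu c hc).le
  have hdim := dim_fgU hu G hG hres n z hz hi
  obtain ⟨hno, hlo⟩ := noeth_fg hu1 G hG
  have hball := DimU_le_ball hu1 G hG
  have hdom := dom_locV _ hball
  set B := locV (ball W) (Subring.closure (Set.range (algebraMap k W) ∪ (G : Set W))) with hB
  let β' : Fin n → B := fun i => ⟨β i, hβ i⟩
  have hmax : IsLocalRing.maximalIdeal B = Ideal.span (Set.range β') := by
    refine le_antisymm ?_ ?_
    · intro w hw
      have h1 : ‖(w : W)‖ < 1 := ((hdom w).2).1 hw
      obtain ⟨b, hb, hwb⟩ := hgen (w : W) w.2 h1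
      have h2 : w = ∑ i, (⟨b i, hb i⟩ : B) * β' i := by
        apply Subtype.ext
        rw [hwb]
        push_cast
        rfl
      rw [h2]
      exact sum_mem fun i _ => Ideal.mul_mem_left _ _ (Ideal.subset_span ⟨i, rfl⟩)
    · rw [Ideal.span_le]
      rintro _ ⟨i, rfl⟩
      exact ((hdom (β' i)).2).2 (hβ1 i)
  have hfin : (IsLocalRing.maximalIdeal B).spanFinrank ≤ n := by
    rw [hmax]
    refine (Submodule.spanFinrank_span_le_ncard_of_finite (Set.finite_range β')).trans ?_
    have h1 : (Set.range β').ncard ≤ Nat.card (Fin n) := by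
      rw [← Set.image_univ]
      refine (Set.ncard_image_le (Set.toFinite _)).trans ?_
      rw [Set.ncard_univ]
    rwa [Nat.card_fin] at h1
  have hle : ((IsLocalRing.maximalIdeal B).spanFinrank : WithBot ℕ∞) ≤ ringKrullDim B :=
    le_trans (by exact_mod_cast hfin) hdim
  refine ⟨IsRegularLocalRing.of_spanFinrank_maximalIdeal_le _ hle, le_antisymm ?_ hdim⟩
  refine (ringKrullDim_le_spanFinrank_maximalIdeal B).trans ?_
  exact_mod_cast hfin

end Pool.Agent.Lib.TU
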