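import Pool.Agent.Lib.TU.PolyN

/-!
# Module IntF: finiteness of the integral closure

`Q = k[z]`, a polynomial ring, integrally closed noetherian with fraction field `k(z)`; `F0 / k(z)` is
separable algebraic and finitely generated, so finite.  The integral closure of `Q` in `F0` is a finite
`Q`-module (`IsIntegralClosure.finite` / `IsIntegralClosure.isNoetherian`): module generators
`g_1, .., g_N`; `g := {z_i} ∪ {g_j}`.
-/

namespace Pool.Agent.Lib.TU

open Pool.Agent.Lib.MP_3029eb_ag Pool.Agent.Lib.MP_3029eb_ag.Abh Pool.Agent.Lib.TDO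

/-- `w` is integral over the subring `Q`. -/
def Intg {W : Type} [Field W] (Q : Subring W) (w : W) : Prop :=
  ∃ P : Polynomial W, P.Monic ∧ (∀ j, P.coeff j ∈ Q) ∧ P.eval w = 0

/-- `Intg` over a subalgebra is integrality. -/
private theorem intF_iff {k W : Type} [Field k] [Field W] [Algebra k W] (A : Subalgebra k W)
    (w : W) : Intg A.toSubring w ↔ IsIntegral A w := by
  constructor
  · rintro ⟨f, hf, hfc, hfw⟩
    have hcof : (↑f.coeffs : Set W) ⊆ (A.toSubring : Set W) := by
      intro x hx
      obtain ⟨j, _, hj⟩ := Polynomial.mem_coeffs_iff.1 hx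
      rw [hj]; exact hfc j
    let g : Polynomial A := f.toSubring A.toSubring hcof
    have hg : g.Monic := (Polynomial.monic_toSubring f A.toSubring hcof).2 hf
    refine ⟨g, hg, ?_⟩
    have h2 : f = g.map (Subring.subtype A.toSubring) :=
      (Polynomial.map_toSubring f A.toSubring hcof).symm
    have h3 : Polynomial.eval₂ (algebraMap A W) w g = f.eval w := by
      conv_rhs => rw [h2, Polynomial.eval_map]
      rfl
    rw [h3, hfw]
  · rintro ⟨g, hg, hgw⟩
    refine ⟨g.map (algebraMap A W), hg.map _, ?_, ?_⟩
    · intro j
      rw [Polynomial.coeff_map]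
      exact (g.coeff j).2
    · rw [Polynomial.eval_map]; exact hgw

open scoped IntermediateField.algebraAdjoinAdjoin in
/-- See the header. -/
theorem int_fin {k W : Type} [Field k] [Field W] [Algebra k W] {n : ℕ} (z : Fin n → W)
    (hz : AlgebraicIndependent k z) (F0 : IntermediateField k W) (hF0 : F0.FG)
    (hzF : ∀ i, z i ∈ F0)
    (hsep : ∀ w ∈ F0, IsSeparable (IntermediateField.adjoin k (Set.range z)) w) :
    ∃ g : Finset W, (∀ i, z i ∈ g) ∧
      (∀ w ∈ g, w ∈ F0 ∧
        Intg (Subring.closure (Set.range (algebraMap k W) ∪ Set.range z)) w) ∧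
      ∀ w ∈ F0, Intg (Subring.closure (Set.range (algebraMap k W) ∪ Set.range z)) w →
        w ∈ Subring.closure (Set.range (algebraMap k W) ∪ (g : Set W)) := by
  classical
  have hCA : (Algebra.adjoin k (Set.range z)).toSubring =
      Subring.closure (Set.range (algebraMap k W) ∪ Set.range z) :=
    Algebra.adjoin_eq_ring_closure _
  have hU : UniqueFactorizationMonoid (Algebra.adjoin k (Set.range z)) :=
    MulEquiv.uniqueFactorizationMonoid hz.aevalEquiv.toMulEquiv inferInstance
  have hno : IsNoetherianRing (Algebra.adjoin k (Set.range z)) :=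
    isNoetherianRing_of_ringEquiv _ hz.aevalEquiv.toRingEquiv
  have hic : IsIntegrallyClosed (Algebra.adjoin k (Set.range z)) := inferInstance
  let K := IntermediateField.adjoin k (Set.range z)
  let A := Algebra.adjoin k (Set.range z)
  have hKF : K ≤ F0 := by
    apply IntermediateField.adjoin_le_iff.2
    rintro _ ⟨i, rfl⟩; exact hzF i
  -- the field F0 as an extension of K
  let L := IntermediateField.extendScalars hKF
  have hLmem : ∀ w : W, w ∈ L ↔ w ∈ F0 := fun w => Iff.rfl
  have hLsep : Algebra.IsSeparable K L := by
    refine ⟨fun x => ?_⟩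
    have h1 := hsep (x : W) x.2
    exact (IsSeparable.of_algHom (L.val) h1)
  have hLfin : FiniteDimensional K L := by
    obtain ⟨t, ht⟩ := hF0
    have h1 : L = IntermediateField.adjoin K (t : Set W) := by
      subst ht
      exact IntermediateField.extendScalars_adjoin hKF
    have h2 : FiniteDimensional K (IntermediateField.adjoin K (t : Set W)) := by
      apply IntermediateField.finiteDimensional_adjoin
      intro x hx
      have hx' : x ∈ F0 := by rw [← ht]; exact IntermediateField.subset_adjoin k _ hx
      exact (hsep x hx').isIntegral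
    rw [h1]; exact h2
  let : Algebra A L := ((algebraMap K L).comp (algebraMap A K)).toAlgebra
  have : IsScalarTower A K L := IsScalarTower.of_algebraMap_eq fun x => rfl
  have hfin : Module.Finite A (integralClosure A L) :=
    IsIntegralClosure.finite A K L (integralClosure A L)
  have hLW : ∀ x : A, algebraMap L W (algebraMap A L x) = (x : W) := fun x => rfl
  have : IsScalarTower A L W := IsScalarTower.of_algebraMap_eq fun x => (hLW x).symm
  have hinjLW : Function.Injective (algebraMap L W) := (algebraMap L W).injective
  obtain ⟨s, hs⟩ := hfin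
  refine ⟨Finset.univ.image z ∪ s.image (fun x : integralClosure A L => ((x : L) : W)), ?_, ?_, ?_⟩
  · intro i
    exact Finset.mem_union_left _ (Finset.mem_image_of_mem _ (Finset.mem_univ i))
  · intro w hw
    rw [← hCA]
    rcases Finset.mem_union.1 hw with hw | hw
    · obtain ⟨i, _, rfl⟩ := Finset.mem_image.1 hw
      refine ⟨hzF i, (intF_iff A _).2 ?_⟩
      exact isIntegral_algebraMap (R := A) (A := W)
        (x := (⟨z i, Algebra.subset_adjoin ⟨i, rfl⟩⟩ : A))
    · obtain ⟨x, _, rfl⟩ := Finset.mem_image.1 hw
      refine ⟨(x : L).2, (intF_iff A _).2 ?_⟩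
      have h1 : IsIntegral A (x : L) := x.2
      exact (isIntegral_algebraMap_iff (R := A) (A := L) (B := W) hinjLW).2 h1
  · intro w hw hint
    rw [← hCA] at hint
    have h1 : IsIntegral A w := (intF_iff A w).1 hint
    have h2 : IsIntegral A (⟨w, hw⟩ : L) :=
      (isIntegral_algebraMap_iff (R := A) (A := L) (B := W) hinjLW).1 h1
    set T := Subring.closure (Set.range (algebraMap k W) ∪
      (↑(Finset.univ.image z ∪ s.image (fun x : integralClosure A L => ((x : L) : W))) : Set W)) with hT
    have hAT : A.toSubring ≤ T := by
      rw [hCA, Subring.closure_le]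
      rintro _ (hy | ⟨i, rfl⟩)
      · exact Subring.subset_closure (Or.inl hy)
      · refine Subring.subset_closure (Or.inr ?_)
        rw [Finset.mem_coe]
        exact Finset.mem_union_left _ (Finset.mem_image_of_mem _ (Finset.mem_univ i))
    have h3 : ∀ y : integralClosure A L, ((y : L) : W) ∈ T := by
      intro y
      have hy : y ∈ Submodule.span A (s : Set (integralClosure A L)) := by rw [hs]; trivial
      induction hy using Submodule.span_induction with
      | mem x hx =>
        refine Subring.subset_closure (Or.inr ?_)
        rw [Finset.mem_coe]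
        exact Finset.mem_union_right _ (Finset.mem_image_of_mem _ hx)
      | zero => exact zero_mem _
      | add x y _ _ hx hy => exact add_mem hx hy
      | smul a x _ hx => exact mul_mem (hAT a.2) hx
    exact h3 ⟨⟨w, hw⟩, h2⟩

end Pool.Agent.Lib.TU
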