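import Pool.Agent.Lib.TU.BNorm
import Pool.Agent.Lib.TU.IntF
import Pool.Agent.Lib.TU.DimU

/-!
# Module FinB: the regular local ring over `F0` (paper 12.3)

`B := Bu c x' G` a model, `Q0 = k[V, x', y]`, `g` the finite set of `int_fin`: `k[g]` is the integral closure of
`Q0` in `F0`; `A := locV (k[g])`.
(0) `k[g] ⊆ B`: `Q0 ⊆ B`; an element of `F0` integral over `Q0 ⊆ B` is a fraction of elements of `B` (`hF0B`) and
`B` is integrally closed (`Bu_icl`; the field `F` there contains all fractions of elements of `B`).  So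
`A ⊆ B` (`inv_mem_Bu`), `k[g]` is in the unit ball.
(1) `ICl A F0`: `k[g]` is integrally closed in `F0` (an element integral over `k[g]` is integral over `Q0`:
transitivity) with fraction field `F0` (`F0` is algebraic over `Frac Q0`); `icl_locV`.  `A` is noetherian
(`TDO.noeth_fg`), `locV A = A`.
(2) `gamma_t` for `A ⊆ B`: `B = locV (A[G1])`, `G1 = G ∪ {generators of the field C over k}` (`x', y ∈ A`);
`m_B = (x', y)B` (`Mdl.gen`) and `x', y ∈ m_A`; residues: `b ∈ B` is congruent to `e ∈ C` (`Mdl.dec_all`), the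
minimal polynomial `h` of `e` over `k(V)` is separable, has coefficients in `k(V) ⊆ A` (nonzero elements of
`k[V] ⊆ C` have norm one), `‖h(b)‖ < 1`, `‖h'(b)‖ = ‖h'(e)‖ = 1`.
(3) `gamma_desc`: `B ∩ F0 ⊆ A`; for `z ∈ A`, `‖z‖ < 1`: `z ∈ (x', y) B ∩ A = (x', y) A` (`β = (y, x')`, `Fin (r+1)`).
(4) `reg_fgU` with base field `K1 := k(V)` (`IntermediateField.adjoin k (Set.range V)`, trivially normed):
`A = locV (K1[g])`, the residues of the elements of `A ⊆ B` are in `C`, algebraic over `K1`; the `r + 1`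
elements `(y, x)` are in `K1(g) = F0` and algebraically independent over `C ≥ K1`.
-/

namespace Pool.Agent.Lib.TU

open Pool.Agent.Lib.MP_3029eb_ag Pool.Agent.Lib.MP_3029eb_ag.Abh Pool.Agent.Lib.TDO

/-- integrality in the two languages -/
private lemma FinB_int_iff {R W : Type} [CommRing R] [Field W] [Algebra R W] (Q : Subring W)
    (hQ : ∀ z, z ∈ Q ↔ z ∈ Set.range (algebraMap R W)) (w : W) : Intg Q w ↔ IsIntegral R w := by
  constructor
  · rintro ⟨P, hPm, hPc, hPw⟩
    have hl : P ∈ Polynomial.lifts (algebraMap R W) := by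
      rw [Polynomial.lifts_iff_coeff_lifts]
      intro n
      exact (hQ _).1 (hPc n)
    obtain ⟨q, hq, -, hqm⟩ := Polynomial.lifts_and_natDegree_eq_and_monic hl hPm
    refine ⟨q, hqm, ?_⟩
    rw [Polynomial.eval₂_eq_eval_map, hq, hPw]
  · rintro ⟨q, hqm, hq⟩
    refine ⟨q.map (algebraMap R W), hqm.map _, ?_, ?_⟩
    · intro j
      rw [Polynomial.coeff_map]
      exact (hQ _).2 ⟨_, rfl⟩
    · rw [Polynomial.eval_map]
      exact hq

private lemma FinB_int_sub {W : Type} [Field W] (Q : Subring W) (w : W) :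
    Intg Q w ↔ IsIntegral Q w :=
  FinB_int_iff Q (fun z => by
    constructor
    · intro hz
      exact ⟨⟨z, hz⟩, rfl⟩
    · rintro ⟨a, rfl⟩
      exact a.2) w

/-- transitivity of integrality -/
private lemma FinB_int_trans {W : Type} [Field W] (Q R : Subring W) (hR : ∀ z ∈ R, Intg Q z)
    (w : W) (hw : Intg R w) : Intg Q w := by
  rw [FinB_int_sub]
  obtain ⟨P, hPm, hPc, hPw⟩ := hw
  have h1 : IsIntegral (integralClosure Q W) w := by
    have hl : P ∈ Polynomial.lifts (algebraMap (integralClosure Q W) W) := by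
      rw [Polynomial.lifts_iff_coeff_lifts]
      intro n
      exact ⟨⟨P.coeff n, (FinB_int_sub Q _).1 (hR _ (hPc n))⟩, rfl⟩
    obtain ⟨q, hq, -, hqm⟩ := Polynomial.lifts_and_natDegree_eq_and_monic hl hPm
    refine ⟨q, hqm, ?_⟩
    rw [Polynomial.eval₂_eq_eval_map, hq, hPw]
  exact isIntegral_trans w h1

/-- the closure of a set of integral elements consists of integral elements -/
private lemma FinB_int_cl {W : Type} [Field W] (Q : Subring W) (s : Set W)
    (hs : ∀ z ∈ s, Intg Q z) (w : W) (hw : w ∈ Subring.closure s) : Intg Q w := by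
  rw [FinB_int_sub]
  have h1 : Subring.closure s ≤ (integralClosure Q W).toSubring := by
    rw [Subring.closure_le]
    intro z hz
    exact (FinB_int_sub Q z).1 (hs z hz)
  exact h1 hw

private lemma FinB_int_self {W : Type} [Field W] (Q : Subring W) (w : W) (hw : w ∈ Q) :
    Intg Q w := by
  rw [FinB_int_sub]
  exact isIntegral_algebraMap (R := Q) (A := W) (x := ⟨w, hw⟩)

/-- an element algebraic over `k(t)` has a multiple integral over `k[t]` -/
private lemma FinB_mult {k W : Type} [Field k] [Field W] [Algebra k W] (t : Set W) (z : W)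
    (hz : IsAlgebraic (IntermediateField.adjoin k t) z) :
    ∃ q ∈ Subring.closure (Set.range (algebraMap k W) ∪ t), q ≠ 0 ∧
      Intg (Subring.closure (Set.range (algebraMap k W) ∪ t)) (q * z) := by
  have h1 : IsAlgebraic (Algebra.adjoin k t) z := IntermediateField.isAlgebraic_adjoin_iff.1 hz
  obtain ⟨y, hy0, hy⟩ := h1.exists_integral_multiple
  have h2 : (Algebra.adjoin k t).toSubring = Subring.closure (Set.range (algebraMap k W) ∪ t) :=
    Algebra.adjoin_eq_ring_closure _
  refine ⟨(y : W), ?_, ?_, ?_⟩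
  · rw [← h2]
    exact y.2
  · intro h
    exact hy0 (Subtype.ext h)
  · refine (FinB_int_iff _ ?_ _).2 hy
    intro w
    rw [← h2]
    constructor
    · intro hw
      exact ⟨⟨w, hw⟩, rfl⟩
    · rintro ⟨a, rfl⟩
      exact a.2

section normed

variable {k W : Type} [Field k] [NormedField W] [IsUltrametricDist W] [Algebra k W]

private lemma FinB_diff (f : Polynomial W) (hf : ∀ j, ‖f.coeff j‖ ≤ 1) {z e : W} (hz : ‖z‖ ≤ 1)
    (he : ‖e‖ ≤ 1) : ‖f.eval z - f.eval e‖ ≤ ‖z - e‖ := by
  have hp : ∀ n : ℕ, ‖z ^ n - e ^ n‖ ≤ ‖z - e‖ := by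
    intro n
    induction n with
    | zero => simp
    | succ n ih =>
      have h1 : z ^ (n + 1) - e ^ (n + 1) = z ^ n * (z - e) + (z ^ n - e ^ n) * e := by ring
      rw [h1]
      refine (IsUltrametricDist.norm_add_le_max _ _).trans (max_le ?_ ?_)
      · rw [norm_mul, norm_pow]
        exact mul_le_of_le_one_left (norm_nonneg _) (pow_le_one₀ (norm_nonneg _) hz)
      · rw [norm_mul]
        exact (mul_le_of_le_one_right (norm_nonneg _) he).trans ih
  rw [Polynomial.eval_eq_sum_range, Polynomial.eval_eq_sum_range, ← Finset.sum_sub_distrib]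
  refine IsUltrametricDist.norm_sum_le_of_forall_le_of_nonneg (norm_nonneg _) ?_
  intro i _
  rw [← mul_sub, norm_mul]
  exact (mul_le_of_le_one_left (norm_nonneg _) (hf i)).trans (hp i)

/-- fields of norm one elements generated by elements of a ring -/
private lemma FinB_adj (t : Set W) (D : Subring W) (hk : ∀ c : k, algebraMap k W c ∈ D)
    (ht : ∀ z ∈ t, z ∈ D) (hu : ∀ z ∈ IntermediateField.adjoin k t, z ≠ 0 → ‖z‖ = 1) {e : W}
    (he : e ∈ IntermediateField.adjoin k t) : e ∈ locV (ball W) D := by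
  have h1 : ∀ z ∈ Algebra.adjoin k t, z ∈ D := by
    intro z hz
    have h2 : z ∈ (Algebra.adjoin k t).toSubring := hz
    rw [Algebra.adjoin_eq_ring_closure] at h2
    refine (Subring.closure_le.2 ?_) h2
    rintro w (⟨a, rfl⟩ | hw)
    · exact hk a
    · exact ht w hw
  obtain ⟨a, ha, b, hb, hab⟩ := IntermediateField.mem_adjoin_iff_div.1 he
  by_cases hb0 : b = 0
  · rw [hab, hb0, div_zero]
    exact zero_mem _
  · refine ⟨a, h1 a ha, b, h1 b hb, ?_, ?_⟩
    · rw [ball_val_eq_one]
      exact hu b (IntermediateField.algebra_adjoin_le_adjoin k t hb) hb0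
    · rw [hab, div_mul_cancel₀ _ hb0]

/-- the residue polynomial of an element close to a separable element -/
private lemma FinB_res (K1 C : IntermediateField k W) (hu : ∀ e ∈ C, e ≠ 0 → ‖e‖ = 1)
    (hKC : K1 ≤ C) {e : W} (heC : e ∈ C) (hes : IsSeparable K1 e) {z : W} (hz : ‖z‖ ≤ 1)
    (hze : ‖z - e‖ < 1) :
    ∃ P : Polynomial K1, P.Monic ∧ ‖Polynomial.aeval z P‖ < 1 ∧
      ‖(P.map (algebraMap K1 W)).derivative.eval z‖ = 1 := by
  have hle : ∀ w ∈ C, ‖w‖ ≤ 1 := by
    intro w hw
    by_cases hw0 : w = 0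
    · rw [hw0, norm_zero]; exact zero_le_one
    · exact (hu w hw hw0).le
  have hint : IsIntegral K1 e := hes.isIntegral
  set P := minpoly K1 e with hP
  set h := P.map (algebraMap K1 W) with hh
  have hcC : ∀ j, h.coeff j ∈ C := by
    intro j
    rw [hh, Polynomial.coeff_map]
    exact hKC (P.coeff j).2
  have hc : ∀ j, ‖h.coeff j‖ ≤ 1 := fun j => hle _ (hcC j)
  have hdC : ∀ j, h.derivative.coeff j ∈ C := by
    intro j
    rw [Polynomial.coeff_derivative]
    refine mul_mem (hcC _) ?_
    exact_mod_cast natCast_mem C (j + 1)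
  have hd : ∀ j, ‖h.derivative.coeff j‖ ≤ 1 := fun j => hle _ (hdC j)
  have he1 : ‖e‖ ≤ 1 := hle e heC
  have h0 : h.eval e = 0 := by
    rw [hh, Polynomial.eval_map]
    exact minpoly.aeval K1 e
  have h1 : h.derivative.eval e ≠ 0 := by
    rw [hh, Polynomial.derivative_map, Polynomial.eval_map]
    exact Polynomial.Separable.aeval_derivative_ne_zero hes (minpoly.aeval K1 e)
  have h2 : h.derivative.eval e ∈ C := by
    rw [Polynomial.eval_eq_sum_range]
    exact sum_mem fun i _ => mul_mem (hdC i) (pow_mem heC i)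
  have h3 : ‖h.derivative.eval e‖ = 1 := hu _ h2 h1
  refine ⟨P, minpoly.monic hint, ?_, ?_⟩
  · have h4 := FinB_diff h hc hz he1
    rw [h0, sub_zero] at h4
    have h5 : Polynomial.aeval z P = h.eval z := by
      rw [hh, Polynomial.eval_map]
      rfl
    rw [h5]
    exact h4.trans_lt hze
  · have h4 := FinB_diff h.derivative hd hz he1
    have h5 : ‖h.derivative.eval z - h.derivative.eval e‖ < ‖h.derivative.eval e‖ := by
      rw [h3]
      exact h4.trans_lt hze
    have h6 : h.derivative.eval z =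
        (h.derivative.eval z - h.derivative.eval e) + h.derivative.eval e := by ring
    rw [h6, IsUltrametricDist.norm_add_eq_max_of_norm_ne_norm (ne_of_lt h5), h3, max_eq_right]
    rw [h3] at h5
    exact h5.le

end normed

/-- See the header. -/
theorem fin_b {k W : Type} [Field k] [NormedField W] [IsUltrametricDist W] [Algebra k W]
    {r m : ℕ} {M : IntermediateField k W} {c : Tri k W r} (hok : Ok m M c) (V : Fin m → W)
    (hV : ∀ j, V j ∈ c.C)
    (hVs : ∀ e ∈ c.C, IsSeparable (IntermediateField.adjoin k (Set.range V)) e)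
    (F0 : IntermediateField k W) (hFM : F0 ≤ M) (hVF : ∀ j, V j ∈ F0) (hxF : ∀ i, c.x i ∈ F0)
    (hyF : c.y ∈ F0) {x' : Fin r → W} {G : Finset W} (h : Mdl M c x' G)
    (hF0B : ∀ z ∈ F0, ∃ a ∈ Bu c x' G, ∃ b ∈ Bu c x' G, b ≠ 0 ∧ z * b = a) (g : Finset W)
    (hgF : ∀ w ∈ g, w ∈ F0 ∧ Intg (Subring.closure (Set.range (algebraMap k W) ∪
      ((Set.range V ∪ Set.range x') ∪ {c.y}))) w)
    (hgi : ∀ w ∈ F0, Intg (Subring.closure (Set.range (algebraMap k W) ∪
      ((Set.range V ∪ Set.range x') ∪ {c.y}))) w →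
        w ∈ Subring.closure (Set.range (algebraMap k W) ∪ (g : Set W)))
    (halg : ∀ w ∈ F0, IsAlgebraic (IntermediateField.adjoin k
      ((Set.range V ∪ Set.range x') ∪ {c.y})) w) (A : Subring W)
    (hA : A = locV (ball W) (Subring.closure (Set.range (algebraMap k W) ∪ (g : Set W)))) :
    (∀ w ∈ g, ‖w‖ ≤ 1) ∧ (∀ z ∈ A, z ∈ Bu c x' G) ∧ (∀ z ∈ Bu c x' G, z ∈ F0 → z ∈ A) ∧
      (∀ z ∈ A, ‖z‖ < 1 → ∃ (b : Fin r → W) (b0 : W), (∀ i, b i ∈ A) ∧ b0 ∈ A ∧
        z = ∑ i, b i * x' i + b0 * c.y) ∧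
      IsRegularLocalRing A ∧ ringKrullDim A = (((1 + r : ℕ) : ℕ∞) : WithBot ℕ∞) := by
  classical
  set Q0 := Subring.closure (Set.range (algebraMap k W) ∪
      ((Set.range V ∪ Set.range x') ∪ {c.y})) with hQ0
  set kg := Subring.closure (Set.range (algebraMap k W) ∪ (g : Set W)) with hkg
  set B := Bu c x' G with hB
  have hG : ∀ w ∈ G, ‖w‖ ≤ 1 := fun w hw => (h.gM w hw).2
  have hind := h.mt.ind
  have hBn : ∀ z ∈ B, ‖z‖ ≤ 1 := fun z hz => norm_le_of_mem_Bu hok hind hG hz
  have hBinv : ∀ z ∈ B, ‖z‖ = 1 → z⁻¹ ∈ B := fun z hz h1 => inv_mem_Bu hz h1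
  have hCB : ∀ z ∈ c.C, z ∈ B := fun z hz => C_mem_Bu hok hind hG hz
  have hkC : ∀ a : k, algebraMap k W a ∈ c.C := fun a => c.C.algebraMap_mem a
  have hx'F : ∀ i, x' i ∈ F0 := by
    intro i
    obtain ⟨_, Bm, -, hBm, -⟩ := h.mt.mat
    rw [hBm i]
    unfold mon
    exact prod_mem fun l _ => zpow_mem (hxF l) _
  -- `Q0` is contained in `F0` and in `B`
  have hQF : ∀ z ∈ Q0, z ∈ F0 := by
    intro z hz
    have h1 : Q0 ≤ F0.toSubfield.toSubring := by
      rw [hQ0, Subring.closure_le]
      rintro w (⟨a, rfl⟩ | (⟨j, rfl⟩ | ⟨i, rfl⟩) | rfl)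
      · exact F0.algebraMap_mem a
      · exact hVF j
      · exact hx'F i
      · exact hyF
    exact h1 hz
  have hQB : Q0 ≤ B := by
    rw [hQ0, Subring.closure_le]
    rintro w (⟨a, rfl⟩ | (⟨j, rfl⟩ | ⟨i, rfl⟩) | rfl)
    · exact hCB _ (hkC a)
    · exact hCB _ (hV j)
    · exact x_mem_Bu hok hind hG i
    · exact y_mem_Bu hok hind hG
  have hQg : ∀ z ∈ Q0, z ∈ kg := fun z hz => hgi z (hQF z hz) (FinB_int_self Q0 z hz)
  have hintB : ∀ w ∈ F0, Intg Q0 w → w ∈ B := by
    intro w hw hwi
    obtain ⟨F, hF⟩ := Bu_icl hok h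
    obtain ⟨a, ha, b, hb, hb0, hab⟩ := hF0B w hw
    have h1 : w ∈ F := by
      have h2 : w = a / b := by rw [← hab, mul_div_cancel_right₀ _ hb0]
      rw [h2]
      exact div_mem (hF.le a ha) (hF.le b hb)
    obtain ⟨P, hPm, hPc, hPw⟩ := hwi
    exact hF.int w h1 P hPm (fun j => hQB (hPc j)) hPw
  have hgB : ∀ w ∈ g, w ∈ B := fun w hw => hintB w (hgF w hw).1 (hgF w hw).2
  have hg1 : ∀ w ∈ g, ‖w‖ ≤ 1 := fun w hw => hBn w (hgB w hw)
  have hkgB : kg ≤ B := by
    rw [hkg, Subring.closure_le]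
    rintro w (⟨a, rfl⟩ | hw)
    · exact hCB _ (hkC a)
    · exact hgB w hw
  have hkgF : ∀ z ∈ kg, z ∈ F0 := by
    intro z hz
    have h1 : kg ≤ F0.toSubfield.toSubring := by
      rw [hkg, Subring.closure_le]
      rintro w (⟨a, rfl⟩ | hw)
      · exact F0.algebraMap_mem a
      · exact (hgF w hw).1
    exact h1 hz
  have hlocle : ∀ D : Subring W, D ≤ B → locV (ball W) D ≤ B := by
    rintro D hD z ⟨a, ha, b, hb, hb1, hab⟩
    rw [ball_val_eq_one] at hb1
    have hb0 : b ≠ 0 := by
      intro h0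
      rw [h0, norm_zero] at hb1
      exact zero_ne_one hb1
    have h2 : z = a * b⁻¹ := by rw [← hab, mul_inv_cancel_right₀ hb0]
    rw [h2]
    exact mul_mem (hD ha) (hBinv b (hD hb) hb1)
  have hAB : A ≤ B := by
    rw [hA]
    exact hlocle kg hkgB
  have hkgA : kg ≤ A := by
    rw [hA]
    exact le_locV _ _
  have hBb : B ≤ (ball W).toSubring := fun z hz => hBn z hz
  have hAb : A ≤ (ball W).toSubring := hAB.trans hBb
  have hAl : locV (ball W) A = A := by
    rw [hA]
    exact locV_locV _ _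
  have hkn : ∀ a : k, a ≠ 0 → ‖algebraMap k W a‖ = 1 := by
    intro a ha
    refine hok.cst.unit _ (hkC a) ?_
    intro h0
    exact ha ((map_eq_zero _).1 h0)
  have hkn1 : ∀ a : k, ‖algebraMap k W a‖ ≤ 1 := by
    intro a
    by_cases ha : a = 0
    · rw [ha, map_zero, norm_zero]; exact zero_le_one
    · exact (hkn a ha).le
  have hAn : IsNoetherianRing A := by
    rw [hA]
    exact (noeth_fg hkn1 g hg1).1
  -- `A` is integrally closed
  have hI0 : ICl kg F0.toSubfield := by
    refine ⟨fun a ha => hkgF a ha, ?_, ?_⟩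
    · intro z hz
      obtain ⟨q, hq, hq0, hqz⟩ := FinB_mult _ z (halg z hz)
      refine ⟨q * z, hgi _ (mul_mem (hQF q hq) hz) hqz, q, hQg q hq, hq0, mul_comm _ _⟩
    · intro z hz f hfm hfc hfz
      refine hgi z hz ?_
      refine FinB_int_trans Q0 kg ?_ z ⟨f, hfm, hfc, hfz⟩
      intro w hw
      refine FinB_int_cl Q0 _ ?_ w hw
      rintro w (⟨a, rfl⟩ | hw)
      · exact FinB_int_self Q0 _ (Subring.subset_closure (Or.inl ⟨a, rfl⟩))
      · exact (hgF w hw).2
  have hI : ICl A F0.toSubfield := by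
    rw [hA]
    exact icl_locV kg _ hI0
  -- the field `k(V)`
  set K1 := IntermediateField.adjoin k (Set.range V) with hK1
  have hKC : K1 ≤ c.C := by
    rw [hK1, IntermediateField.adjoin_le_iff]
    rintro w ⟨j, rfl⟩
    exact hV j
  have hKA : ∀ e ∈ K1, e ∈ A := by
    intro e he
    rw [hA]
    refine FinB_adj (Set.range V) kg (fun a => Subring.subset_closure (Or.inl ⟨a, rfl⟩)) ?_ ?_ he
    · rintro w ⟨j, rfl⟩
      exact hQg _ (Subring.subset_closure (Or.inr (Or.inl (Or.inl ⟨j, rfl⟩))))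
    · intro w hw hw0
      exact hok.cst.unit w (hKC hw) hw0
  have hx'A : ∀ i, x' i ∈ A := fun i =>
    hkgA (hQg _ (Subring.subset_closure (Or.inr (Or.inl (Or.inr ⟨i, rfl⟩)))))
  have hyA : c.y ∈ A := hkgA (hQg _ (Subring.subset_closure (Or.inr (Or.inr rfl))))
  have hsmall : ∀ (b : Fin r → W) (b0 : W), (∀ i, b i ∈ B) → b0 ∈ B →
      ‖∑ i, b i * x' i + b0 * c.y‖ < 1 := by
    intro b b0 hb hb0
    refine lt_of_le_of_lt (IsUltrametricDist.norm_add_le_max _ _) (max_lt ?_ ?_)
    · refine Finset.sum_induction (fun i => b i * x' i) (fun z => ‖z‖ < 1)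
        (fun a b ha hb => lt_of_le_of_lt (IsUltrametricDist.norm_add_le_max _ _) (max_lt ha hb))
        (by rw [norm_zero]; exact one_pos) ?_
      intro i _
      rw [norm_mul]
      have h3 := hBn _ (hb i)
      have h4 := h.mt.ind.lt i
      have h5 := norm_nonneg (b i)
      have h6 := norm_nonneg (x' i)
      nlinarith
    · rw [norm_mul]
      have h3 := hBn _ hb0
      have h4 := hok.par.y1
      have h5 := norm_nonneg b0
      have h6 := norm_nonneg c.y
      nlinarith
  have hresP : ∀ z ∈ B, ∃ P : Polynomial K1, P.Monic ∧ ‖Polynomial.aeval z P‖ < 1 ∧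
      ‖(P.map (algebraMap K1 W)).derivative.eval z‖ = 1 := by
    intro z hz
    obtain ⟨e, he, b, b0, hb, hb0, hz'⟩ := h.dec_all hok hz
    refine FinB_res K1 c.C (fun e he => hok.cst.unit e he) hKC he (hVs e he) (hBn z hz) ?_
    have h1 : z - e = ∑ i, b i * x' i + b0 * c.y := by rw [hz']; ring
    rw [h1]
    exact hsmall b b0 hb hb0
  -- the generator
  obtain ⟨SC, hSC⟩ := hok.cst.fg
  have hSCC : ∀ w ∈ SC, w ∈ c.C := by
    intro w hw
    rw [← hSC]
    exact IntermediateField.subset_adjoin _ _ hw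
  have hgt := gamma_t A B hAb hAl hAn (G ∪ SC) (by
      intro w hw
      rcases Finset.mem_union.1 hw with hw | hw
      · exact hG w hw
      · exact hBn w (hCB w (hSCC w hw))) (by
      set D := Subring.closure ((A : Set W) ∪ ((G ∪ SC : Finset W) : Set W)) with hD
      have hAD : A ≤ D := fun z hz => Subring.subset_closure (Or.inl hz)
      have hGD : ∀ w ∈ G, w ∈ D := fun w hw => Subring.subset_closure (Or.inr (by
        rw [Finset.coe_union]; exact Or.inl hw))
      have hSD : ∀ w ∈ SC, w ∈ D := fun w hw => Subring.subset_closure (Or.inr (by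
        rw [Finset.coe_union]; exact Or.inr hw))
      have hDl : D ≤ locV (ball W) D := le_locV _ _
      have hDB : D ≤ B := by
        rw [hD, Subring.closure_le]
        rintro w (hw | hw)
        · exact hAB hw
        · rw [Finset.coe_union] at hw
          rcases hw with hw | hw
          · exact G_mem_Bu hok hind hG hw
          · exact hCB w (hSCC w hw)
      refine le_antisymm ?_ (hlocle D hDB)
      intro z hz
      refine Bu_le (locV (ball W) D) ?_ (fun i => hDl (hAD (hx'A i))) (hDl (hAD hyA))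
        (fun w hw => hDl (hGD w hw)) ?_ hz
      · intro e he
        refine FinB_adj (k := k) (SC : Set W) D
          (fun a => hAD (hkgA (Subring.subset_closure (Or.inl ⟨a, rfl⟩)))) (fun w hw => hSD w hw) ?_
          (by rw [hSC]; exact he)
        intro w hw hw0
        rw [hSC] at hw
        exact hok.cst.unit w hw hw0
      · intro w hw hw1
        exact C3.inv_mem_loc _ _ hw ((ball_val_eq_one _).2 hw1)) (by
      intro z hz hz1
      obtain ⟨b, b0, hb, hb0, hz'⟩ := h.gen hok hz hz1
      rw [hz']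
      refine add_mem (sum_mem fun i _ => ?_) ?_
      · exact Submodule.smul_mem _ (⟨b i, hb i⟩ : B)
          (Submodule.subset_span ⟨hx'A i, h.mt.ind.lt i⟩)
      · exact Submodule.smul_mem _ (⟨b0, hb0⟩ : B)
          (Submodule.subset_span ⟨hyA, hok.par.y1⟩)) (by
      intro z hz
      obtain ⟨P, hPm, hP1, hP2⟩ := hresP z hz
      refine ⟨P.map (algebraMap K1 W), ?_, hPm.map _, ?_, hP2⟩
      · intro j
        rw [Polynomial.coeff_map]
        exact hKA _ (P.coeff j).2
      · rw [Polynomial.eval_map]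
        exact hP1)
  obtain ⟨t, htB, f, hfc, hfm, hft, hf', hBt⟩ := hgt
  obtain ⟨hdesc, hdesc2⟩ := gamma_desc A B F0.toSubfield hAb hAl hI t (hBn t htB) f hfc hfm hft
    hf' hBt
  have hgenA : ∀ z ∈ A, ‖z‖ < 1 → ∃ b : Fin (r + 1) → W, (∀ i, b i ∈ A) ∧
      z = ∑ i, b i * (Fin.cons c.y x' : Fin (r + 1) → W) i := by
    intro z hz hz1
    obtain ⟨b, b0, hb, hb0, hz'⟩ := h.gen hok (hAB hz) hz1
    refine hdesc2 (r + 1) (Fin.cons c.y x') ?_ z hz ⟨Fin.cons b0 b, ?_, ?_⟩
    · intro i
      refine Fin.cases ?_ (fun j => ?_) i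
      · rw [Fin.cons_zero]; exact hyA
      · rw [Fin.cons_succ]; exact hx'A j
    · intro i
      refine Fin.cases ?_ (fun j => ?_) i
      · rw [Fin.cons_zero]; exact hb0
      · rw [Fin.cons_succ]; exact hb j
    · rw [Fin.sum_univ_succ]
      simp only [Fin.cons_zero, Fin.cons_succ]
      rw [hz']
      ring
  refine ⟨hg1, fun z hz => hAB hz, hdesc, ?_, ?_⟩
  · intro z hz hz1
    obtain ⟨b, hb, hz'⟩ := hgenA z hz hz1
    refine ⟨fun i => b i.succ, b 0, fun i => hb _, hb 0, ?_⟩
    rw [hz', Fin.sum_univ_succ]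
    simp only [Fin.cons_zero, Fin.cons_succ]
    ring
  · -- regularity
    have hAK : A = locV (ball W) (Subring.closure (Set.range (algebraMap K1 W) ∪ (g : Set W))) := by
      refine le_antisymm ?_ ?_
      · rw [hA]
        refine locV_mono _ ?_
        rw [hkg, Subring.closure_le]
        rintro w (⟨a, rfl⟩ | hw)
        · exact Subring.subset_closure (Or.inl ⟨algebraMap k K1 a, rfl⟩)
        · exact Subring.subset_closure (Or.inr hw)
      · have h1 : Subring.closure (Set.range (algebraMap K1 W) ∪ (g : Set W)) ≤ A := by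
          rw [Subring.closure_le]
          rintro w (⟨a, rfl⟩ | hw)
          · exact hKA _ a.2
          · exact hkgA (Subring.subset_closure (Or.inr hw))
        calc locV (ball W) (Subring.closure (Set.range (algebraMap K1 W) ∪ (g : Set W)))
            ≤ locV (ball W) A := locV_mono _ h1
          _ = A := hAl
    let _ : Algebra K1 c.C := (IntermediateField.inclusion hKC).toRingHom.toAlgebra
    have htow : IsScalarTower K1 c.C W := .of_algebraMap_eq fun _ => rfl
    have hia : AlgebraicIndependent K1 (Fin.cons c.y c.x : Fin (r + 1) → W) :=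
      (par_indep c.x c.y hok.par.ind.ne hok.par.tr).restrictScalars
        (algebraMap K1 c.C).injective
    have hgK : ∀ z ∈ kg, z ∈ IntermediateField.adjoin K1 (g : Set W) := by
      intro z hz
      have h1 : kg ≤ (IntermediateField.adjoin K1 (g : Set W)).toSubfield.toSubring := by
        rw [hkg, Subring.closure_le]
        rintro w (⟨a, rfl⟩ | hw)
        · exact (IntermediateField.adjoin K1 (g : Set W)).algebraMap_mem (algebraMap k K1 a)
        · exact IntermediateField.subset_adjoin _ _ hw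
      exact h1 hz
    have hx'K : ∀ i, x' i ∈ IntermediateField.adjoin K1 (g : Set W) := fun i =>
      hgK _ (hQg _ (Subring.subset_closure (Or.inr (Or.inl (Or.inr ⟨i, rfl⟩)))))
    have hreg := reg_fgU (k := K1) (W := W) (fun e he => hok.cst.unit e (hKC e.2)
        (fun h0 => he (Subtype.ext h0))) g hg1 (by
          intro z hz
          rw [← hAK] at hz
          obtain ⟨P, hPm, hP1, -⟩ := hresP z (hAB hz)
          exact ⟨P, hPm.ne_zero, hP1⟩) (r + 1) (Fin.cons c.y c.x) (by
          intro i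
          refine Fin.cases ?_ (fun j => ?_) i
          · rw [Fin.cons_zero]
            exact hgK _ (hQg _ (Subring.subset_closure (Or.inr (Or.inr rfl))))
          · rw [Fin.cons_succ]
            obtain ⟨Am, Bm, hAm, -, -⟩ := h.mt.mat
            rw [hAm j]
            unfold monN
            exact prod_mem fun l _ => pow_mem (hx'K l) _) hia (Fin.cons c.y x') (by
          intro i
          rw [← hAK]
          refine Fin.cases ?_ (fun j => ?_) i
          · rw [Fin.cons_zero]; exact hyA
          · rw [Fin.cons_succ]; exact hx'A j) (by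
          intro i
          refine Fin.cases ?_ (fun j => ?_) i
          · rw [Fin.cons_zero]; exact hok.par.y1
          · rw [Fin.cons_succ]; exact h.mt.ind.lt j) (by
          intro z hz hz1
          rw [← hAK] at hz
          obtain ⟨b, hb, hz'⟩ := hgenA z hz hz1
          refine ⟨b, fun i => ?_, hz'⟩
          rw [← hAK]
          exact hb i)
    rw [← hAK] at hreg
    refine ⟨hreg.1, ?_⟩
    rw [hreg.2]
    norm_cast
    rw [add_comm]

end Pool.Agent.Lib.TU
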