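import Pool.Agent.Lib.TU.GamB

/-!
# Module NormF: generic normality

`R0 = k[G0]`, `k` perfect, `F0 = k(G0)`.  There is `f0 ≠ 0` in `R0` such that `R0[1/f0]` is integrally
closed in `F0`.
Proof.  `F0` is finitely generated over `k`: choose a separating transcendence basis `t_1, .., t_n`
(`exists_isTranscendenceBasis_and_isSeparable_of_perfectField`), `t_i = a_i / b`, `a_i, b ∈ R0`.
`P := k[t_1, .., t_n]`, a polynomial ring, integrally closed noetherian; `F0` is finite separable over
`Frac P`.  Every `g ∈ G0` and `1/b` (as `1/b ∈ F0`) is algebraic over `Frac P`, so there is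
`0 ≠ h ∈ P` such that all `g ∈ G0` are integral over `P[1/h]`.  The integral closure `I` of `P[1/h]` in
`F0` is a finite `P[1/h]`-module (`IsIntegralClosure.finite`/`isNoetherian`: `F0` finite separable over
`Frac P`, `P[1/h]` integrally closed noetherian), `R0 ⊆ I`, generators `g_1, .., g_N`, `g_j = n_j / d_j`,
`n_j, d_j ∈ R0`, `h = n / d` with `n, d ∈ R0` (`h` is a polynomial in the `t_i`).  Put
`f0 = b * n * d * ∏ d_j`.  Then `R0[1/f0] ⊇ P[1/h], g_j`, so `I ⊆ R0[1/f0]` and
`R0[1/f0] = I[1/f0]` is a localization of an integrally closed ring.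
-/

namespace Pool.Agent.Lib.TU

open Pool.Agent.Lib.MP_3029eb_ag Pool.Agent.Lib.MP_3029eb_ag.Abh Pool.Agent.Lib.TDO

open scoped IntermediateField.algebraAdjoinAdjoin

private theorem nf_common {F : Type} [CommRing F] (R : Subring F) (f : F) (hf : f ∈ R)
    (x : ℕ → F) (T : Finset ℕ) (h : ∀ j ∈ T, ∃ N : ℕ, f ^ N * x j ∈ R) :
    ∃ N : ℕ, ∀ j ∈ T, f ^ N * x j ∈ R := by
  classical
  induction T using Finset.induction_on with
  | empty => exact ⟨0, fun j hj => absurd hj (Finset.notMem_empty j)⟩
  | insert a T _ ih =>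
    obtain ⟨N1, h1⟩ := ih fun j hj => h j (Finset.mem_insert_of_mem hj)
    obtain ⟨N2, h2⟩ := h a (Finset.mem_insert_self a T)
    refine ⟨N1 + N2, fun j hj => ?_⟩
    rcases Finset.mem_insert.1 hj with rfl | hj
    · rw [pow_add, mul_assoc]
      exact R.mul_mem (R.pow_mem hf _) h2
    · rw [add_comm, pow_add, mul_assoc]
      exact R.mul_mem (R.pow_mem hf _) (h1 j hj)

/-- elements which become members of `R` after multiplication by a power of `u` -/
private theorem nf_add {F : Type} [CommRing F] (R : Subring F) (u : F) (hu : u ∈ R) {x y : F}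
    (hx : ∃ N : ℕ, u ^ N * x ∈ R) (hy : ∃ N : ℕ, u ^ N * y ∈ R) :
    ∃ N : ℕ, u ^ N * (x + y) ∈ R := by
  obtain ⟨a, ha⟩ := hx
  obtain ⟨b, hb⟩ := hy
  refine ⟨a + b, ?_⟩
  have : u ^ (a + b) * (x + y) = u ^ b * (u ^ a * x) + u ^ a * (u ^ b * y) := by ring
  rw [this]
  exact R.add_mem (R.mul_mem (R.pow_mem hu _) ha) (R.mul_mem (R.pow_mem hu _) hb)

private theorem nf_mul {F : Type} [CommRing F] (R : Subring F) (u : F) {x y : F}
    (hx : ∃ N : ℕ, u ^ N * x ∈ R) (hy : ∃ N : ℕ, u ^ N * y ∈ R) :
    ∃ N : ℕ, u ^ N * (x * y) ∈ R := by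
  obtain ⟨a, ha⟩ := hx
  obtain ⟨b, hb⟩ := hy
  refine ⟨a + b, ?_⟩
  have : u ^ (a + b) * (x * y) = (u ^ a * x) * (u ^ b * y) := by ring
  rw [this]
  exact R.mul_mem ha hb

private theorem nf_den {k F : Type} [Field k] [Field F] [Algebra k F] (G : Finset F)
    (hG : IntermediateField.adjoin k (G : Set F) = ⊤) (T : Finset F) :
    ∃ u ∈ Algebra.adjoin k (G : Set F), u ≠ 0 ∧ ∀ t ∈ T, u * t ∈ Algebra.adjoin k (G : Set F) := by
  classical
  induction T using Finset.induction_on with
  | empty => exact ⟨1, one_mem _, one_ne_zero, fun t ht => absurd ht (Finset.notMem_empty t)⟩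
  | insert a T _ ih =>
    obtain ⟨u, hu, hu0, h1⟩ := ih
    have ha : a ∈ IntermediateField.adjoin k (G : Set F) := by rw [hG]; trivial
    obtain ⟨r, hr, s, hs, rfl⟩ := IntermediateField.mem_adjoin_iff_div.1 ha
    rcases eq_or_ne s 0 with rfl | hs0
    · refine ⟨u, hu, hu0, fun t ht => ?_⟩
      rcases Finset.mem_insert.1 ht with rfl | ht
      · rw [div_zero, mul_zero]; exact zero_mem _
      · exact h1 t ht
    · refine ⟨u * s, mul_mem hu hs, mul_ne_zero hu0 hs0, fun t ht => ?_⟩
      rcases Finset.mem_insert.1 ht with rfl | ht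
      · have : u * s * (r / s) = u * r := by field_simp
        rw [this]
        exact mul_mem hu hr
      · have : u * s * t = s * (u * t) := by ring
        rw [this]
        exact mul_mem hs (h1 t ht)

private theorem nf_aux {k F : Type} [Field k] [PerfectField k] [Field F] [Algebra k F]
    (G : Finset F) (hG : IntermediateField.adjoin k (G : Set F) = ⊤) :
    ∃ f0 ∈ Algebra.adjoin k (G : Set F), f0 ≠ 0 ∧
      ∀ z : F, ∀ P : Polynomial F, P.Monic →
        (∀ j, ∃ N : ℕ, f0 ^ N * P.coeff j ∈ Algebra.adjoin k (G : Set F)) → P.eval z = 0 →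
        ∃ N : ℕ, f0 ^ N * z ∈ Algebra.adjoin k (G : Set F) := by
  classical
  have hess : Algebra.EssFiniteType k F := IntermediateField.fg_top_iff.1 ⟨G, hG⟩
  obtain ⟨s, hs, hsep⟩ := exists_isTranscendenceBasis_and_isSeparable_of_perfectField k F
  set K0 := IntermediateField.adjoin k (s : Set F) with hK0
  have hfin : FiniteDimensional K0 F := by
    have h1 : IntermediateField.adjoin K0 (G : Set F) = ⊤ := by
      rw [eq_top_iff]
      intro x _
      have hx : x ∈ IntermediateField.adjoin k (G : Set F) := by rw [hG]; trivial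
      have h2 : IntermediateField.adjoin k (G : Set F) ≤
          (IntermediateField.adjoin K0 (G : Set F)).restrictScalars k := by
        rw [IntermediateField.adjoin_le_iff]
        exact IntermediateField.subset_adjoin K0 (G : Set F)
      exact h2 hx
    have h3 : FiniteDimensional K0 (IntermediateField.adjoin K0 (G : Set F)) :=
      IntermediateField.finiteDimensional_adjoin fun x _ => Algebra.IsIntegral.isIntegral x
    rw [h1] at h3
    exact Module.Finite.equiv (IntermediateField.topEquiv (F := K0) (E := F)).toLinearEquiv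
  set A := Algebra.adjoin k (s : Set F) with hA
  have hrange : Algebra.adjoin k (Set.range ((↑) : s → F)) = A := by
    rw [hA]
    congr 1
    exact Subtype.range_coe
  have e : MvPolynomial s k ≃+* A :=
    (hs.1.aevalEquiv.trans (Subalgebra.equivOfEq _ _ hrange)).toRingEquiv
  have hAic : IsIntegrallyClosed A := IsIntegrallyClosed.of_equiv e
  have hAn : IsNoetherianRing A := isNoetherianRing_of_ringEquiv _ e
  have hCfin : Module.Finite A (integralClosure A F) :=
    IsIntegralClosure.finite A K0 F (integralClosure A F)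
  obtain ⟨c, hc⟩ := hCfin.fg_top
  set R := Algebra.adjoin k (G : Set F) with hR
  -- denominators for the generators
  obtain ⟨u, huR, hu0, hu⟩ := nf_den G hG (s ∪ c.image (fun x : integralClosure A F => (x : F)))
  have hkR : ∀ a : k, algebraMap k F a ∈ R := fun a => R.algebraMap_mem a
  have hAu : ∀ a ∈ A, ∃ N : ℕ, u ^ N * a ∈ R.toSubring := by
    intro a ha
    induction ha using Algebra.adjoin_induction with
    | mem x hx => exact ⟨1, by rw [pow_one]; exact hu x (Finset.mem_union_left _ hx)⟩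
    | algebraMap r => exact ⟨0, by rw [pow_zero, one_mul]; exact hkR r⟩
    | add x y _ _ h1 h2 => exact nf_add R.toSubring u huR h1 h2
    | mul x y _ _ h1 h2 => exact nf_mul R.toSubring u h1 h2
  have hCu : ∀ x : F, IsIntegral A x → ∃ N : ℕ, u ^ N * x ∈ R.toSubring := by
    intro x hx
    have hx' : (⟨x, hx⟩ : integralClosure A F) ∈ Submodule.span A (c : Set (integralClosure A F)) := by
      rw [hc]; trivial
    have key : ∀ y : integralClosure A F, y ∈ Submodule.span A (c : Set (integralClosure A F)) →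
        ∃ N : ℕ, u ^ N * (y : F) ∈ R.toSubring := by
      intro y hy
      induction hy using Submodule.span_induction with
      | mem y hy =>
        exact ⟨1, by
          rw [pow_one]
          exact hu _ (Finset.mem_union_right _ (Finset.mem_image_of_mem _ hy))⟩
      | zero => exact ⟨0, by simp⟩
      | add y z _ _ h1 h2 => exact nf_add R.toSubring u huR h1 h2
      | smul a y _ h1 =>
        have h2 := nf_mul R.toSubring u (hAu a a.2) h1
        exact h2
    exact key _ hx'
  -- a common multiple which makes the generators integral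
  obtain ⟨v, hv0, hv⟩ := exists_integral_multiples A K0 G
  have hv0' : (v : F) ≠ 0 := by
    intro h0
    exact hv0 (Subtype.ext h0)
  set C := (integralClosure A F).toSubring with hC
  have hvC : (v : F) ∈ C := (integralClosure A F).algebraMap_mem v
  have hRv : ∀ r ∈ R, ∃ M : ℕ, (v : F) ^ M * r ∈ C := by
    intro r hr
    induction hr using Algebra.adjoin_induction with
    | mem x hx =>
      refine ⟨1, ?_⟩
      rw [pow_one]
      have := hv x hx
      exact this
    | algebraMap r =>
      refine ⟨0, ?_⟩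
      rw [pow_zero, one_mul]
      have h1 : algebraMap k F r = ((algebraMap k A r : A) : F) := rfl
      rw [h1]
      exact (integralClosure A F).algebraMap_mem (algebraMap k A r)
    | add x y _ _ h1 h2 => exact nf_add C _ hvC h1 h2
    | mul x y _ _ h1 h2 => exact nf_mul C _ h1 h2
  obtain ⟨t, ht⟩ := hAu v v.2
  set a : F := u ^ t * v with ha
  have ha0 : a ≠ 0 := mul_ne_zero (pow_ne_zero _ hu0) hv0'
  refine ⟨u * a, R.mul_mem huR ht, mul_ne_zero hu0 ha0, ?_⟩
  set f0 : F := u * a with hf0
  have hf0R : f0 ∈ R := R.mul_mem huR ht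
  intro z P hP hcoef hz
  obtain ⟨N, hN⟩ := nf_common R.toSubring f0 hf0R P.coeff (Finset.range (P.natDegree + 1))
    fun j _ => hcoef j
  obtain ⟨M0, hM0⟩ := hRv f0 hf0R
  obtain ⟨M, hM⟩ := nf_common C (v : F) hvC (fun j => f0 ^ N * P.coeff j)
    (Finset.range (P.natDegree + 1)) fun j hj => hRv _ (hN j hj)
  set h : F := (v : F) ^ (M0 * N + M) * f0 ^ N with hh
  have hhC : h ∈ C := by
    have : h = ((v : F) ^ M0 * f0) ^ N * (v : F) ^ M := by rw [hh]; ring
    rw [this]
    exact C.mul_mem (C.pow_mem hM0 _) (C.pow_mem hvC _)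
  have hcC : ∀ j ≤ P.natDegree, h * P.coeff j ∈ C := by
    intro j hj
    have : h * P.coeff j = (v : F) ^ (M0 * N) * ((v : F) ^ M * (f0 ^ N * P.coeff j)) := by
      rw [hh]; ring
    rw [this]
    exact C.mul_mem (C.pow_mem hvC _) (hM j (Finset.mem_range.2 (Nat.lt_succ_of_le hj)))
  -- h * z is integral
  have hlift : P.scaleRoots h ∈ Polynomial.lifts (algebraMap (integralClosure A F) F) := by
    rw [Polynomial.lifts_iff_coeff_lifts]
    intro j
    rw [Polynomial.coeff_scaleRoots]
    suffices hs : P.coeff j * h ^ (P.natDegree - j) ∈ C from ⟨⟨_, hs⟩, rfl⟩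
    rcases lt_trichotomy j P.natDegree with hj | hj | hj
    · obtain ⟨i, hi⟩ : ∃ i, P.natDegree - j = i + 1 := ⟨P.natDegree - j - 1, by omega⟩
      rw [hi]
      have : P.coeff j * h ^ (i + 1) = (h * P.coeff j) * h ^ i := by ring
      rw [this]
      exact C.mul_mem (hcC j hj.le) (C.pow_mem hhC _)
    · rw [hj, Polynomial.Monic.coeff_natDegree hP, Nat.sub_self, pow_zero, one_mul]
      exact C.one_mem
    · rw [Polynomial.coeff_eq_zero_of_natDegree_lt hj, zero_mul]
      exact C.zero_mem
  obtain ⟨q, hq1, -, hq3⟩ := Polynomial.lifts_and_natDegree_eq_and_monic hlift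
    ((Polynomial.monic_scaleRoots_iff h).2 hP)
  have hint : IsIntegral (integralClosure A F) (h * z) := by
    refine ⟨q, hq3, ?_⟩
    rw [← Polynomial.eval_map, hq1]
    have := Polynomial.scaleRoots_eval₂_eq_zero (RingHom.id F) (s := h) (r := z) (p := P) hz
    exact this
  have hintA : IsIntegral A (h * z) := isIntegral_trans (R := A) _ hint
  obtain ⟨N', hN'⟩ := hCu _ hintA
  refine ⟨N' + (M0 * N + M) + N, ?_⟩
  have hfin : f0 ^ (N' + (M0 * N + M) + N) * z =
      (u ^ N' * (h * z)) * a ^ N' * u ^ ((t + 1) * (M0 * N + M)) := by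
    rw [hh, hf0, ha]
    ring
  rw [hfin]
  exact R.mul_mem (R.mul_mem hN' (R.pow_mem ht _)) (R.pow_mem huR _)

/-- See the header. -/
theorem exists_normal {k W : Type} [Field k] [PerfectField k] [Field W] [Algebra k W]
    (F0 : IntermediateField k W) (G0 : Finset W)
    (hF0 : F0 = IntermediateField.adjoin k (G0 : Set W)) :
    ∃ f0 ∈ Subring.closure (Set.range (algebraMap k W) ∪ (G0 : Set W)), f0 ≠ 0 ∧
      ∀ z ∈ F0, ∀ P : Polynomial W, P.Monic →
        (∀ j, ∃ N : ℕ, f0 ^ N * P.coeff j ∈
          Subring.closure (Set.range (algebraMap k W) ∪ (G0 : Set W))) → P.eval z = 0 →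
        ∃ N : ℕ, f0 ^ N * z ∈ Subring.closure (Set.range (algebraMap k W) ∪ (G0 : Set W)) := by
  classical
  have hGF : ∀ g ∈ G0, g ∈ F0 := by
    intro g hg
    rw [hF0]
    exact IntermediateField.subset_adjoin k _ hg
  let G : Finset F0 := G0.attach.image fun g => ⟨g.1, hGF g.1 g.2⟩
  have hGimg : (F0.val : F0 → W) '' (G : Set F0) = (G0 : Set W) := by
    ext x
    constructor
    · rintro ⟨y, hy, rfl⟩
      obtain ⟨g, -, rfl⟩ := Finset.mem_image.1 hy
      exact g.2
    · intro hx
      exact ⟨⟨x, hGF x hx⟩, Finset.mem_coe.2 (Finset.mem_image.2 ⟨⟨x, hx⟩, Finset.mem_attach _ _, rfl⟩),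
        rfl⟩
  have hGtop : IntermediateField.adjoin k (G : Set F0) = ⊤ := by
    have h1 : (IntermediateField.adjoin k (G : Set F0)).map F0.val = F0 := by
      rw [IntermediateField.adjoin_map, hGimg, ← hF0]
    rw [eq_top_iff]
    intro x _
    have hx : (x : W) ∈ (IntermediateField.adjoin k (G : Set F0)).map F0.val := by
      rw [h1]; exact x.2
    obtain ⟨y, hy, hyx⟩ := hx
    have : y = x := Subtype.ext hyx
    rw [← this]
    exact hy
  have hmem : ∀ x : F0, (x : W) ∈ Subring.closure (Set.range (algebraMap k W) ∪ (G0 : Set W)) ↔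
      x ∈ Algebra.adjoin k (G : Set F0) := by
    intro x
    rw [← Algebra.mem_adjoin_iff, ← hGimg, ← AlgHom.map_adjoin]
    constructor
    · rintro ⟨y, hy, hyx⟩
      have : y = x := Subtype.ext hyx
      rw [← this]; exact hy
    · intro hx
      exact ⟨x, hx, rfl⟩
  obtain ⟨f0, hf0, hf00, hall⟩ := nf_aux G hGtop
  refine ⟨(f0 : W), (hmem f0).2 hf0, fun h => hf00 (Subtype.ext h), ?_⟩
  intro z hz P hP hcoef hPz
  have hsubF : ∀ x ∈ Subring.closure (Set.range (algebraMap k W) ∪ (G0 : Set W)), x ∈ F0 := by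
    intro x hx
    have : Subring.closure (Set.range (algebraMap k W) ∪ (G0 : Set W)) ≤
        F0.toSubfield.toSubring := by
      rw [Subring.closure_le]
      rintro y (⟨c, rfl⟩ | hy)
      · exact F0.algebraMap_mem c
      · exact hGF y hy
    exact this hx
  have hf0W : (f0 : W) ≠ 0 := fun h => hf00 (Subtype.ext h)
  have hcF : ∀ j, P.coeff j ∈ F0 := by
    intro j
    obtain ⟨N, hN⟩ := hcoef j
    have h1 := hsubF _ hN
    have h2 : P.coeff j = ((f0 : W) ^ N)⁻¹ * ((f0 : W) ^ N * P.coeff j) := by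
      rw [← mul_assoc, inv_mul_cancel₀ (pow_ne_zero _ hf0W), one_mul]
    rw [h2]
    exact F0.mul_mem (F0.inv_mem (pow_mem f0.2 N)) h1
  have hlift : P ∈ Polynomial.lifts (algebraMap F0 W) := by
    rw [Polynomial.lifts_iff_coeff_lifts]
    intro j
    exact ⟨⟨_, hcF j⟩, rfl⟩
  obtain ⟨q, hq1, -, hq3⟩ := Polynomial.lifts_and_natDegree_eq_and_monic hlift hP
  have hqc : ∀ j, ((q.coeff j : F0) : W) = P.coeff j := by
    intro j
    rw [← hq1, Polynomial.coeff_map]
    rfl
  obtain ⟨N, hN⟩ := hall ⟨z, hz⟩ q hq3 (fun j => by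
    obtain ⟨N, hN⟩ := hcoef j
    refine ⟨N, (hmem _).1 ?_⟩
    have : ((f0 ^ N * q.coeff j : F0) : W) = (f0 : W) ^ N * P.coeff j := by
      rw [← hqc j]; push_cast; rfl
    rw [this]
    exact hN) (by
    apply Subtype.ext
    have h1 : algebraMap F0 W (q.eval ⟨z, hz⟩) = 0 := by
      rw [← Polynomial.eval_map_apply, hq1]
      exact hPz
    exact h1)
  refine ⟨N, ?_⟩
  have h1 := (hmem _).2 hN
  have h2 : ((f0 ^ N * ⟨z, hz⟩ : F0) : W) = (f0 : W) ^ N * z := by push_cast; rfl
  rwa [h2] at h1

end Pool.Agent.Lib.TU
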