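import Pool.Agent.Lib.TU.FinA
import Pool.Agent.Lib.TU.FinB
import Pool.Agent.Lib.TU.DenE
import Pool.Agent.Lib.TU.NormF
import Pool.Agent.Lib.MP_3029eb_ag.ImpDefs
import Pool.Agent.Lib.MP_3029eb_ag.AbhBase

/-!
# Module FinC: embedded local uniformization inside `W` (paper section 12)

Compare `TDO/FinalW.lean` (`final_W`, same conclusion).  `L := cl F0`, `M := S ⊓ L`, `F0 ≤ M`.
`exists_normal` (`F0 = k(G0)` by `hfrac`): `f0 ∈ k[G0]`.  `fin_a` for `Z ∪ {f0}`: chart `c`, `V`.
`E := {f0} ∪ {n_i, d_i} ∪ {d} ∪ {d'_j}` where `c.x i * d_i = n_i`, `c.y * d = n`, `V j * d'_j = n'_j`, all in `A0`,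
the `d`'s monomial (`mem_Afr_iff`); the `n_i` are monomial as well (`c.x i` is).  All elements of `E` are
monomial, of norm `≤ 1`, nonzero.  For `D ∈ E ∪ Z`: `D = x^(a_D) u_D`, `u_D ∈ HO c`, `‖u_D‖ = 1`, `‖x^(a_D)‖ ≤ 1`.
`exists_model`: a model `(x', G)` of `c` with `G0`, all `u_D` in `B := Bu c x' G`, and all `x^(a_D)` monomials with
exponents `≥ 0` in `x'`.
`int_fin` for the `m + r + 1` elements `(V, x', y)` (a reindexing of the family `Fin n`), algebraically
independent over `k` (`V` over `k`: `m` elements, `c.C` algebraic over `k(V)`, `trdeg = m`; `(x, y)` over `c.C`), `F0`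
separable over `k(V, x', y)`: `F0 ⊆ S` is separable over `c.C(x, y)`, and `c.C` over `k(V)`: `g`.
`A := locV (k[g])`, `fin_b`.  `hF0B`: `F0 = Frac A0`, `A0 ⊆ B`.
`A0 ⊆ B ∩ F0 ⊆ A`, so `locV (closure (A0 ∪ g)) = A` (`k ⊆ A0`).
`GoodPar2`: `u := x'`, `gs := {y}`.  `ind` from `Indep x'`; `gen`, `reg`, `dim` from `fin_b`.
`MonV` for `D ∈ E ∪ Z`: `u_D = D / x^(a_D) ∈ B ∩ F0 ⊆ A`, `x^(a_D) = monN x' β`.  `MonV` is closed under products.
`den`: every element of `Q0 = k[V, x', y]` has a denominator in the monoid `𝔇` generated by `E`: true for the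
generators (`x' i` is a Laurent monomial in the `c.x j = n_j / d_j`; see `fw_LL` in `TDO/FinalW.lean`), and for
sums and products.  `den_E`: every `w ∈ k[g]` (integral over `Q0`, in `F0`) has one.  `z ∈ A`: `z = a / b`,
`a, b ∈ k[g]`, `‖b‖ = 1`, `D1 a, D2 b ∈ A0`: `D := D1 (D2 b) ∈ A0`, `D z = D2 (D1 a) ∈ A0`, and `D = (D1 D2) b` is
`MonV` because `b` is a unit of `A`.
`k ⊆ A`, `V j ∈ A` etc. are in `g`/`k[g]` by `int_fin`.
-/

namespace Pool.Agent.Lib.TU

open Pool.Agent.Lib.MP_3029eb_ag Pool.Agent.Lib.MP_3029eb_ag.Abh Pool.Agent.Lib.TDO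

/-- the subring of the elements which have a denominator in the monoid `D` -/
private def finC_den {W : Type} [Field W] (A0 : Subring W) (D : Submonoid W)
    (hD : ∀ d ∈ D, d ∈ A0) : Subring W where
  carrier := {z | ∃ d ∈ D, d * z ∈ A0}
  mul_mem' := by
    rintro z w ⟨d, hd, hz⟩ ⟨e, he, hw⟩
    refine ⟨d * e, mul_mem hd he, ?_⟩
    have h1 : d * e * (z * w) = (d * z) * (e * w) := by ring
    rw [h1]
    exact mul_mem hz hw
  one_mem' := ⟨1, one_mem _, by rw [one_mul]; exact one_mem _⟩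
  add_mem' := by
    rintro z w ⟨d, hd, hz⟩ ⟨e, he, hw⟩
    refine ⟨d * e, mul_mem hd he, ?_⟩
    have h1 : d * e * (z + w) = e * (d * z) + d * (e * w) := by ring
    rw [h1]
    exact add_mem (mul_mem (hD e he) hz) (mul_mem (hD d hd) hw)
  zero_mem' := ⟨1, one_mem _, by rw [mul_zero]; exact zero_mem _⟩
  neg_mem' := by
    rintro z ⟨d, hd, hz⟩
    exact ⟨d, hd, by rw [mul_neg]; exact neg_mem hz⟩

private lemma finC_mon {W : Type} [Field W] {r : ℕ} (R : Subring W) (x : Fin r → W)
    (h1 : ∀ i, x i ∈ R) (h2 : ∀ i, (x i)⁻¹ ∈ R) (a : Fin r → ℤ) : mon x a ∈ R := by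
  unfold MP_3029eb_ag.Abh.mon
  refine Subring.prod_mem _ fun i _ => ?_
  rcases Int.eq_nat_or_neg (a i) with ⟨n, hn | hn⟩
  · rw [hn, zpow_natCast]
    exact pow_mem (h1 i) n
  · rw [hn, zpow_neg, zpow_natCast, ← inv_pow]
    exact pow_mem (h2 i) n

private lemma finC_exch {k W ι : Type} [Field k] [Field W] [Algebra k W] [Fintype ι]
    (v v' : ι → W) (h : AlgebraicIndependent k v)
    (hcl : Set.range v ⊆ (AlgebraicIndependent.matroid k W).closure (Set.range v')) :
    AlgebraicIndependent k v' := by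
  classical
  have hind : (AlgebraicIndependent.matroid k W).Indep (Set.range v) := by
    rw [AlgebraicIndependent.matroid_indep_iff]
    exact h.to_subtype_range
  have hfin : (Set.range v').Finite := Set.finite_range v'
  have hcard : (Set.range v).encard = (Fintype.card ι : ℕ∞) := by
    rw [← Set.image_univ, h.injective.encard_image, Set.encard_univ, ENat.card_eq_coe_fintype_card]
  have hcard' : (Set.range v').encard ≤ (Fintype.card ι : ℕ∞) := by
    rw [← Set.image_univ]
    refine (Set.encard_image_le _ _).trans ?_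
    rw [Set.encard_univ, ENat.card_eq_coe_fintype_card]
  have hrk : (Fintype.card ι : ℕ∞) ≤
      (AlgebraicIndependent.matroid k W).eRk (Set.range v') := by
    rw [← Matroid.eRk_closure_eq, ← hcard]
    exact hind.encard_le_eRk_of_subset hcl
  have hle := (AlgebraicIndependent.matroid k W).eRk_le_encard (Set.range v')
  have hrk' : (AlgebraicIndependent.matroid k W).eRk (Set.range v') = (Set.range v').encard :=
    le_antisymm hle (hcard'.trans hrk)
  have hind' : (AlgebraicIndependent.matroid k W).Indep (Set.range v') :=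
    (Matroid.indep_iff_eRk_eq_encard_of_finite hfin).2 hrk'
  have hinj' : Function.Injective v' := by
    have h3 : (Set.range v').encard = (Fintype.card ι : ℕ∞) :=
      le_antisymm hcard' (hrk.trans hle)
    have h4 : (v' '' Set.univ).encard = (Set.univ : Set ι).encard := by
      rw [Set.image_univ, h3, Set.encard_univ, ENat.card_eq_coe_fintype_card]
    have h5 := Set.finite_univ.injOn_of_encard_image_eq h4
    exact Set.injOn_univ.1 h5
  rw [AlgebraicIndependent.matroid_indep_iff] at hind'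
  exact AlgebraicIndependent.of_subtype_range hinj' hind'

private lemma finC_basis {k W : Type} [Field k] [Field W] [Algebra k W] {m : ℕ}
    (C : IntermediateField k W) (hC : Algebra.trdeg k C = (m : Cardinal)) :
    ∃ b : Fin m → C, IsTranscendenceBasis k b := by
  obtain ⟨ι, b, hb⟩ := exists_isTranscendenceBasis' k C
  have h1 := hb.cardinalMk_eq_trdeg
  rw [hC] at h1
  have h2 : Cardinal.mk ι = Cardinal.mk (Fin m) := by rw [h1, Cardinal.mk_fin]
  obtain ⟨e⟩ := Cardinal.eq.1 h2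
  exact ⟨b ∘ e.symm, hb.comp_equiv e.symm⟩

/-- `V` and the parameters are algebraically independent over `k` -/
private lemma finC_indep {k W : Type} [Field k] [Field W] [Algebra k W] {r m : ℕ}
    (C : IntermediateField k W) (hC : Algebra.trdeg k C = (m : Cardinal)) (V : Fin m → W)
    (hV : ∀ e ∈ C, IsAlgebraic (IntermediateField.adjoin k (Set.range V)) e)
    (x x' : Fin r → W) (y : W)
    (hz : AlgebraicIndependent C (Fin.cons y x : Fin (r + 1) → W))
    (hx : ∀ i, x i ∈ IntermediateField.adjoin k (Set.range x')) :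
    AlgebraicIndependent k (Sum.elim (Fin.cons y x' : Fin (r + 1) → W) V) := by
  obtain ⟨b, hb⟩ := finC_basis C hC
  have hv : AlgebraicIndependent k
      (Sum.elim (Fin.cons y x : Fin (r + 1) → W) (algebraMap C W ∘ b)) := hb.1.sumElim_comp hz
  refine finC_exch _ _ hv ?_
  rw [AlgebraicIndependent.matroid_closure_eq]
  have key : ∀ (s : Set W) (w : W),
      s ⊆ Set.range (Sum.elim (Fin.cons y x' : Fin (r + 1) → W) V) →
      IsAlgebraic (IntermediateField.adjoin k s) w →
      IsAlgebraic (Algebra.adjoin k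
        (Set.range (Sum.elim (Fin.cons y x' : Fin (r + 1) → W) V))) w := by
    intro s w hs hw
    exact (IntermediateField.isAlgebraic_adjoin_iff.1 hw).tower_top_of_subalgebra_le
      (Algebra.adjoin_mono hs)
  have hmem : ∀ (s : Set W) (w : W), w ∈ IntermediateField.adjoin k s →
      IsAlgebraic (IntermediateField.adjoin k s) w := by
    intro s w hw
    exact isAlgebraic_algebraMap (⟨w, hw⟩ : IntermediateField.adjoin k s)
  rintro _ ⟨o, rfl⟩
  rcases o with i | j
  · refine Fin.cases ?_ (fun i => ?_) i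
    · refine key {y} _ ?_ (hmem _ _ ?_)
      · rintro _ rfl
        exact ⟨Sum.inl 0, by simp⟩
      · exact IntermediateField.subset_adjoin k _ (by simp)
    · refine key (Set.range x') _ ?_ (hmem _ _ ?_)
      · rintro _ ⟨l, rfl⟩
        exact ⟨Sum.inl l.succ, by simp⟩
      · have h1 := hx i
        simpa using h1
  · refine key (Set.range V) _ ?_ (hV _ (b j).2)
    rintro _ ⟨l, rfl⟩
    exact ⟨Sum.inr l, by simp⟩

private lemma finC_sep_top {K1 K2 W : Type} [Field K1] [Field K2] [Field W] [Algebra K1 W]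
    [Algebra K2 W] (E1 : IntermediateField K1 W) (E2 : IntermediateField K2 W)
    (h : ∀ z ∈ E1, z ∈ E2) {z : W} (hz : IsSeparable E1 z) : IsSeparable E2 z := by
  let i : E1 →+* E2 := (algebraMap E1 W).codRestrict E2.toSubring (fun z => h z z.2)
  let _ : Algebra E1 E2 := i.toAlgebra
  have : IsScalarTower E1 E2 W := IsScalarTower.of_algebraMap_eq fun x => rfl
  exact IsSeparable.tower_top E2 hz

/-- separability over `k(V, x', y)` -/
private lemma finC_sep {k W : Type} [Field k] [Field W] [Algebra k W] {r m : ℕ}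
    (C : IntermediateField k W) (V : Fin m → W)
    (hV : ∀ e ∈ C, IsSeparable (IntermediateField.adjoin k (Set.range V)) e)
    (x : Fin r → W) (y : W) (E0 : IntermediateField k W) (hVE : ∀ j, V j ∈ E0)
    (hxE : ∀ i, x i ∈ E0) (hyE : y ∈ E0) {w : W} (hw : IsSeparable (Kxy C x y) w) :
    IsSeparable E0 w := by
  have h1 : ∀ e ∈ Kxy C x y, e ∈ separableClosure E0 W := by
    intro e he
    unfold Kxy at he
    induction he using IntermediateField.adjoin_induction with
    | mem z hz =>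
      rcases hz with ⟨i, rfl⟩ | hz
      · exact (separableClosure E0 W).algebraMap_mem (⟨x i, hxE i⟩ : E0)
      · rw [Set.mem_singleton_iff.1 hz]
        exact (separableClosure E0 W).algebraMap_mem (⟨y, hyE⟩ : E0)
    | algebraMap c =>
      rw [mem_separableClosure_iff]
      refine finC_sep_top (IntermediateField.adjoin k (Set.range V)) E0 (fun z hz => ?_)
        (hV (c : W) c.2)
      refine IntermediateField.adjoin_le_iff.2 ?_ hz
      rintro _ ⟨j, rfl⟩
      exact hVE j
    | add a b _ _ ha hb => exact add_mem ha hb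
    | inv a _ ha => exact inv_mem ha
    | mul a b _ _ ha hb => exact mul_mem ha hb
  have h2 : IsSeparable (separableClosure E0 W) w :=
    finC_sep_top (Kxy C x y) (separableClosure E0 W) h1 hw
  exact IsSeparable.of_algebra_isSeparable_of_isSeparable E0 h2

private lemma finC_A0 {k W : Type} [Field k] [NormedField W]
    [IsUltrametricDist W] [Algebra k W] (F : IntermediateField k W) (G0 : Finset W)
    (hG0 : ∀ g ∈ G0, g ∈ F) (A0 : Subring W)
    (hA0 : A0 = locV (ball W) (Subring.closure (Set.range (algebraMap k W) ∪ (G0 : Set W)))) :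
    ∀ a ∈ A0, a ∈ F := by
  intro z hz
  have h2 : Subring.closure (Set.range (algebraMap k W) ∪ (G0 : Set W)) ≤
      F.toSubfield.toSubring := by
    rw [Subring.closure_le]
    rintro z (⟨c, rfl⟩ | hz)
    · exact F.algebraMap_mem c
    · exact hG0 z hz
  rw [hA0] at hz
  obtain ⟨a, ha, b, hb, hb1, hab⟩ := hz
  have hb0 : b ≠ 0 := by
    rintro rfl
    rw [map_zero] at hb1
    exact zero_ne_one hb1
  have h3 : z = a / b := by
    rw [eq_div_iff hb0]
    exact hab
  rw [h3]
  exact F.div_mem (h2 ha) (h2 hb)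

/-- See the header. -/
theorem final_U {k W : Type} [Field k] [PerfectField k] [NormedField W]
    [IsUltrametricDist W] [Algebra k W] {r m : ℕ} (hr : 0 < r) (hA : AmbG r m k W)
    (S F0 : IntermediateField k W) (hSF : ∀ z : W, z ∈ S ↔ IsSeparable F0 z)
    (hS : ∀ z : W, IsSeparable S z → z ∈ S)
    (hL : IsComplete ((cl F0 : IntermediateField k W) : Set W)) (h : HasCh m S r (cl F0))
    (G0 : Finset W) (hG0 : ∀ g ∈ G0, g ∈ F0 ∧ ‖g‖ ≤ 1) (A0 : Subring W)
    (hA0 : A0 = locV (ball W) (Subring.closure (Set.range (algebraMap k W) ∪ (G0 : Set W))))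
    (hfrac : ∀ z ∈ F0, ∃ a ∈ A0, ∃ b ∈ A0, b ≠ 0 ∧ z * b = a) (Z : Finset W)
    (hZ : ∀ z ∈ Z, z ∈ F0 ∧ z ≠ 0 ∧ ‖z‖ ≤ 1) :
    ∃ (g : Finset W) (u : Fin r → W) (gs : Finset W), (∀ t ∈ g, ‖t‖ ≤ 1 ∧ t ∈ F0) ∧
      (∀ i, u i ∈ F0) ∧ (∀ t ∈ gs, t ∈ F0) ∧ gs.card = 1 ∧
      Imp.GoodPar2 (ball W) A0 (locV (ball W) (Subring.closure ((A0 : Set W) ∪ (g : Set W))))
        u gs ∧
      ∀ f ∈ Z, MonV (ball W) (locV (ball W) (Subring.closure ((A0 : Set W) ∪ (g : Set W))))
        u f := by
  classical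
  -- `F0` is in `S` and in `L`
  have hF0S : ∀ z ∈ F0, z ∈ S := fun z hz =>
    (hSF z).2 (isSeparable_algebraMap (⟨z, hz⟩ : F0))
  have hF0M : F0 ≤ S ⊓ cl F0 := fun z hz => ⟨hF0S z hz, le_cl F0 hz⟩
  -- `F0 = k(G0)`
  have hA0F : ∀ a ∈ A0, a ∈ F0 := finC_A0 F0 G0 (fun g hg => (hG0 g hg).1) A0 hA0
  have hA0G : ∀ a ∈ A0, a ∈ IntermediateField.adjoin k (G0 : Set W) :=
    finC_A0 _ G0 (fun g hg => IntermediateField.subset_adjoin k _ hg) A0 hA0
  have hF0eq : F0 = IntermediateField.adjoin k (G0 : Set W) := by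
    refine le_antisymm (fun z hz => ?_) ?_
    · obtain ⟨a, ha, b, hb, hb0, hab⟩ := hfrac z hz
      have h1 : z = a / b := by
        rw [eq_div_iff hb0]
        exact hab
      rw [h1]
      exact div_mem (hA0G a ha) (hA0G b hb)
    · rw [IntermediateField.adjoin_le_iff]
      intro g hg
      exact (hG0 g hg).1
  have hF0FG : F0.FG := by
    rw [hF0eq]
    exact IntermediateField.fg_adjoin_of_finite G0.finite_toSet
  have hR0A0 : ∀ a ∈ Subring.closure (Set.range (algebraMap k W) ∪ (G0 : Set W)), a ∈ A0 := by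
    intro a ha
    rw [hA0]
    exact C2_le_locV _ _ ha
  have hkA0 : ∀ e : k, algebraMap k W e ∈ A0 := fun e =>
    hR0A0 _ (Subring.subset_closure (Or.inl ⟨e, rfl⟩))
  obtain ⟨f0, hf0R, hf00, hf0n⟩ := exists_normal F0 G0 hF0eq
  have hf0A : f0 ∈ A0 := hR0A0 _ hf0R
  -- the chart
  obtain ⟨c, V, hc, hA0H, hZM, hxA, hyA, hVA, hVs⟩ := fin_a hr hA S F0 (cl F0) hSF hS rfl hL h G0
    hG0 A0 hA0 hfrac (insert f0 Z) (by
      intro z hz
      rcases Finset.mem_insert.1 hz with rfl | hz
      · exact ⟨hF0M (hA0F _ hf0A), hf00⟩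
      · exact ⟨hF0M (hZ z hz).1, (hZ z hz).2.1⟩)
  have hok := hc.ok
  have hA0n : ∀ a ∈ A0, ‖a‖ ≤ 1 := fun a ha => HO_norm_le hok (hA0H a ha)
  have hx1 : ∀ i, ∃ n ∈ A0, ∃ d ∈ A0, MoH (S ⊓ cl F0) c d ∧ c.x i * d = n := fun i =>
    (mem_Afr_iff hok _).1 (hxA i)
  choose nx hnx dx hdx hdxM hndx using hx1
  obtain ⟨ny, hny, dy, hdy, hdyM, hndy⟩ := (mem_Afr_iff hok _).1 hyA
  have hV1 : ∀ j, ∃ n ∈ A0, ∃ d ∈ A0, MoH (S ⊓ cl F0) c d ∧ V j * d = n := fun j =>
    (mem_Afr_iff hok _).1 (hVA j).1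
  choose nV hnV dV hdV hdVM hndV using hV1
  have hxM : ∀ i, MoH (S ⊓ cl F0) c (c.x i) := by
    intro i
    have h1 := MoH.of_mon (M := S ⊓ cl F0) hok (Pi.single i 1)
    rwa [mon_single] at h1
  have hnxM : ∀ i, MoH (S ⊓ cl F0) c (nx i) := by
    intro i
    rw [← hndx i]
    exact (hxM i).mul hok (hdxM i)
  -- the elements are in `F0`
  have hdiv : ∀ z a b : W, a ∈ A0 → b ∈ A0 → b ≠ 0 → z * b = a → z ∈ F0 := by
    intro z a b ha hb hb0 hab
    have h1 : z = a / b := by
      rw [eq_div_iff hb0]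
      exact hab
    rw [h1]
    exact div_mem (hA0F a ha) (hA0F b hb)
  have hxF : ∀ i, c.x i ∈ F0 := fun i =>
    hdiv _ _ _ (hnx i) (hdx i) ((hdxM i).ne hok) (hndx i)
  have hyF : c.y ∈ F0 := hdiv _ _ _ hny hdy (hdyM.ne hok) hndy
  have hVF : ∀ j, V j ∈ F0 := fun j => hdiv _ _ _ (hnV j) (hdV j) ((hdVM j).ne hok) (hndV j)
  -- the finite set of denominators
  obtain ⟨E, hE⟩ : ∃ E : Finset W, E = {f0} ∪ (Finset.univ.image nx ∪ Finset.univ.image dx) ∪
    ({dy} ∪ Finset.univ.image dV) := ⟨_, rfl⟩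
  have hEmem : ∀ e ∈ E, e ∈ A0 ∧ MoH (S ⊓ cl F0) c e := by
    intro e he
    rw [hE] at he
    simp only [Finset.mem_union, Finset.mem_image, Finset.mem_univ, true_and,
      Finset.mem_singleton] at he
    rcases he with (rfl | (⟨i, rfl⟩ | ⟨i, rfl⟩)) | (rfl | ⟨j, rfl⟩)
    · exact ⟨hf0A, hZM _ (Finset.mem_insert_self _ _)⟩
    · exact ⟨hnx i, hnxM i⟩
    · exact ⟨hdx i, hdxM i⟩
    · exact ⟨hdy, hdyM⟩
    · exact ⟨hdV j, hdVM j⟩
  have hf0E : f0 ∈ E := by
    rw [hE]
    simp only [Finset.mem_union, Finset.mem_singleton, true_or]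
  have hnxE : ∀ i, nx i ∈ E := by
    intro i
    rw [hE]
    simp only [Finset.mem_union, Finset.mem_image, Finset.mem_univ, true_and]
    exact Or.inl (Or.inr (Or.inl ⟨i, rfl⟩))
  have hdxE : ∀ i, dx i ∈ E := by
    intro i
    rw [hE]
    simp only [Finset.mem_union, Finset.mem_image, Finset.mem_univ, true_and]
    exact Or.inl (Or.inr (Or.inr ⟨i, rfl⟩))
  have hdyE : dy ∈ E := by
    rw [hE]
    simp only [Finset.mem_union, Finset.mem_singleton, true_or, or_true]
  have hdVE : ∀ j, dV j ∈ E := by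
    intro j
    rw [hE]
    simp only [Finset.mem_union, Finset.mem_image, Finset.mem_univ, true_and]
    exact Or.inr (Or.inr ⟨j, rfl⟩)
  -- the monomial forms
  have hT : ∀ D ∈ E ∪ Z, MoH (S ⊓ cl F0) c D ∧ ‖D‖ ≤ 1 ∧ D ∈ F0 := by
    intro D hD
    rcases Finset.mem_union.1 hD with hD | hD
    · exact ⟨(hEmem D hD).2, hA0n D (hEmem D hD).1, hA0F D (hEmem D hD).1⟩
    · exact ⟨hZM D (Finset.mem_insert_of_mem hD), (hZ D hD).2.2, (hZ D hD).1⟩
  have hex : ∀ D : W, ∃ (a : Fin r → ℤ) (u : W), D ∈ E ∪ Z →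
      u ∈ HO (S ⊓ cl F0) c ∧ ‖u‖ = 1 ∧ D = mon c.x a * u := by
    intro D
    by_cases hD : D ∈ E ∪ Z
    · obtain ⟨a, u, h1, h2, h3⟩ := (hT D hD).1
      exact ⟨a, u, fun _ => ⟨h1, h2, h3⟩⟩
    · exact ⟨0, 0, fun h => absurd h hD⟩
  choose a u hau using hex
  -- the model
  obtain ⟨x', G, hMdl, hZB, hYB⟩ := exists_model hok (G0 ∪ (E ∪ Z).image u) (by
      intro z hz
      rcases Finset.mem_union.1 hz with hz | hz
      · exact hA0H z (hR0A0 z (Subring.subset_closure (Or.inr hz)))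
      · obtain ⟨D, hD, rfl⟩ := Finset.mem_image.1 hz
        exact (hau D hD).1) ((E ∪ Z).image a) (by
      intro b hb
      obtain ⟨D, hD, rfl⟩ := Finset.mem_image.1 hb
      have h1 := (hT D hD).2.1
      have h2 := (hau D hD).2.2
      have h3 : ‖D‖ = ‖mon c.x (a D)‖ := by
        conv_lhs => rw [h2]
        rw [norm_mul, (hau D hD).2.1, mul_one]
      rw [← h3]
      exact h1)
  have hx' : Indep x' := hMdl.mt.ind
  have hG : ∀ g ∈ G, ‖g‖ ≤ 1 := fun g hg => (hMdl.gM g hg).2
  have hA0B : ∀ z ∈ A0, z ∈ Bu c x' G := by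
    intro z hz
    have h1 : Subring.closure (Set.range (algebraMap k W) ∪ (G0 : Set W)) ≤ Bu c x' G := by
      rw [Subring.closure_le]
      rintro w (⟨e, rfl⟩ | hw)
      · exact C_mem_Bu hok hx' hG (c.C.algebraMap_mem e)
      · exact hZB w (Finset.mem_union_left _ hw)
    rw [hA0] at hz
    obtain ⟨p, hp, q, hq, hq1, hpq⟩ := hz
    rw [ball_val_eq_one] at hq1
    have hq0 : q ≠ 0 := by
      rintro rfl
      rw [norm_zero] at hq1
      exact zero_ne_one hq1
    have h2 : z = p * q⁻¹ := by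
      rw [← hpq, mul_inv_cancel_right₀ hq0]
    rw [h2]
    exact mul_mem (h1 hp) (inv_mem_Bu (h1 hq) hq1)
  have hF0B : ∀ z ∈ F0, ∃ a ∈ Bu c x' G, ∃ b ∈ Bu c x' G, b ≠ 0 ∧ z * b = a := by
    intro z hz
    obtain ⟨p, hp, q, hq, hq0, hpq⟩ := hfrac z hz
    exact ⟨p, hA0B p hp, q, hA0B q hq, hq0, hpq⟩
  obtain ⟨MA, MB, hMA, hMB, -⟩ := hMdl.mt.mat
  have hx'F : ∀ i, x' i ∈ F0 := by
    intro i
    rw [hMB i]
    unfold MP_3029eb_ag.Abh.mon
    exact prod_mem fun j _ => zpow_mem (hxF j) _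
  -- the algebraically independent family
  have hind0 : AlgebraicIndependent k (Sum.elim (Fin.cons c.y x' : Fin (r + 1) → W) V) := by
    refine finC_indep c.C hok.cst.trd V (fun e he => (hVs e he).isIntegral.isAlgebraic) c.x x' c.y
      (par_indep c.x c.y hok.par.ind.ne hok.par.tr) fun i => ?_
    rw [hMA i]
    unfold MP_3029eb_ag.Abh.monN
    have h1 : ∀ j, x' j ∈ IntermediateField.adjoin k (Set.range x') := fun j =>
      IntermediateField.subset_adjoin k _ ⟨j, rfl⟩
    exact prod_mem fun j _ => pow_mem (h1 j) _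
  obtain ⟨z, hzdef⟩ : ∃ z : Fin ((r + 1) + m) → W,
    z = Sum.elim (Fin.cons c.y x' : Fin (r + 1) → W) V ∘ finSumFinEquiv.symm := ⟨_, rfl⟩
  have hzind : AlgebraicIndependent k z := by
    rw [hzdef]
    exact hind0.comp _ finSumFinEquiv.symm.injective
  have hzrange : Set.range z = (Set.range V ∪ Set.range x') ∪ {c.y} := by
    rw [hzdef, EquivLike.range_comp]
    ext w
    constructor
    · rintro ⟨o, rfl⟩
      rcases o with i | j
      · refine Fin.cases ?_ (fun i => ?_) i
        · right; simp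
        · left; right; exact ⟨i, by simp⟩
      · left; left; exact ⟨j, by simp⟩
    · rintro ((⟨j, rfl⟩ | ⟨i, rfl⟩) | hw)
      · exact ⟨Sum.inr j, by simp⟩
      · exact ⟨Sum.inl i.succ, by simp⟩
      · rw [Set.mem_singleton_iff] at hw
        exact ⟨Sum.inl 0, by simp [hw]⟩
  have hsep : ∀ w ∈ F0, IsSeparable (IntermediateField.adjoin k (Set.range z)) w := by
    intro w hw
    have hVz : ∀ j, V j ∈ IntermediateField.adjoin k (Set.range z) := fun j =>
      IntermediateField.subset_adjoin k _ (by rw [hzrange]; exact Or.inl (Or.inl ⟨j, rfl⟩))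
    have hx'z : ∀ i, x' i ∈ IntermediateField.adjoin k (Set.range z) := fun i =>
      IntermediateField.subset_adjoin k _ (by rw [hzrange]; exact Or.inl (Or.inr ⟨i, rfl⟩))
    have hyz : c.y ∈ IntermediateField.adjoin k (Set.range z) :=
      IntermediateField.subset_adjoin k _ (by rw [hzrange]; exact Or.inr rfl)
    refine finC_sep c.C V hVs c.x c.y _ hVz (fun i => ?_) hyz (hc.sep w (hF0S w hw))
    rw [hMA i]
    unfold MP_3029eb_ag.Abh.monN
    exact prod_mem fun j _ => pow_mem (hx'z j) _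
  obtain ⟨g, hzg, hgF, hgi⟩ := int_fin z hzind F0 hF0FG (by
      intro i
      have h1 : z i ∈ Set.range z := ⟨i, rfl⟩
      rw [hzrange] at h1
      rcases h1 with (⟨j, h1⟩ | ⟨j, h1⟩) | h1
      · rw [← h1]; exact hVF j
      · rw [← h1]; exact hx'F j
      · rw [Set.mem_singleton_iff.1 h1]; exact hyF) hsep
  rw [hzrange] at hgF hgi hsep
  obtain ⟨A, hAdef⟩ : ∃ A : Subring W,
    A = locV (ball W) (Subring.closure (Set.range (algebraMap k W) ∪ (g : Set W))) := ⟨_, rfl⟩
  obtain ⟨hg1, hAB, hBA, hAgen, hreg, hdim⟩ := fin_b hok V (fun j => (hVA j).2) hVs F0 hF0M hVF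
    hxF hyF hMdl hF0B g hgF hgi (fun w hw => (hsep w hw).isIntegral.isAlgebraic) A hAdef
  have hgA : ∀ w ∈ g, w ∈ A := by
    intro w hw
    rw [hAdef]
    exact C2_le_locV _ _ (Subring.subset_closure (Or.inr hw))
  have hA0A : ∀ w ∈ A0, w ∈ A := fun w hw => hBA w (hA0B w hw) (hA0F w hw)
  have heq : locV (ball W) (Subring.closure ((A0 : Set W) ∪ (g : Set W))) = A := by
    refine le_antisymm ?_ ?_
    · have h1 : locV (ball W) A = A := by
        rw [hAdef]
        exact C2_locV_locV _ _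
      rw [← h1]
      refine C2_locV_mono _ ?_
      rw [Subring.closure_le]
      rintro w (hw | hw)
      · exact hA0A w hw
      · exact hgA w hw
    · rw [hAdef]
      refine C2_locV_mono _ (Subring.closure_mono ?_)
      rintro w (⟨e, rfl⟩ | hw)
      · exact Or.inl (hkA0 e)
      · exact Or.inr hw
  have hx'A : ∀ i, x' i ∈ A := fun i => hBA _ (x_mem_Bu hok hx' hG i) (hx'F i)
  have hyA' : c.y ∈ A := hBA _ (y_mem_Bu hok hx' hG) hyF
  -- monomial elements
  have hmonN : ∀ β : Fin r → ℕ, monN x' β ∈ F0 := by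
    intro β
    unfold MP_3029eb_ag.Abh.monN
    exact prod_mem fun j _ => pow_mem (hx'F j) _
  have hMV : ∀ D ∈ E ∪ Z, MonV (ball W) A x' D := by
    intro D hD
    obtain ⟨β, hβ, -⟩ := hYB (a D) (Finset.mem_image_of_mem _ hD)
    have huB : u D ∈ Bu c x' G := hZB _ (Finset.mem_union_right _ (Finset.mem_image_of_mem _ hD))
    have hDu := (hau D hD).2.2
    have huF : u D ∈ F0 := by
      have h1 : u D = D / mon c.x (a D) := by
        rw [eq_div_iff (mon_ne c.x hok.par.ind.ne _), mul_comm]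
        exact hDu.symm
      rw [h1, hβ]
      exact div_mem (hT D hD).2.2 (hmonN β)
    refine ⟨u D, hBA _ huB huF, (ball_val_eq_one _).2 (hau D hD).2.1, β, ?_⟩
    rw [← hβ, mul_comm]
    exact hDu
  -- denominators
  have hDA0 : ∀ d ∈ Submonoid.closure (E : Set W), d ∈ A0 := by
    intro d hd
    have h1 : Submonoid.closure (E : Set W) ≤ A0.toSubmonoid := by
      rw [Submonoid.closure_le]
      intro e he
      exact (hEmem e he).1
    exact h1 hd
  have hDMV : ∀ d ∈ Submonoid.closure (E : Set W), MonV (ball W) A x' d := by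
    intro d hd
    induction hd using Submonoid.closure_induction with
    | mem e he => exact hMV e (Finset.mem_union_left _ he)
    | one => exact MonV.one
    | mul p q _ _ hp hq => exact hp.mul hq
  have hQ : ∀ q ∈ Subring.closure (Set.range (algebraMap k W) ∪
      ((Set.range V ∪ Set.range x') ∪ {c.y})), q ∈ finC_den A0 (Submonoid.closure (E : Set W))
        hDA0 := by
    intro q hq
    have h1 : Subring.closure (Set.range (algebraMap k W) ∪
        ((Set.range V ∪ Set.range x') ∪ {c.y})) ≤ finC_den A0 (Submonoid.closure (E : Set W))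
          hDA0 := by
      rw [Subring.closure_le]
      rintro w (⟨e, rfl⟩ | ((⟨j, rfl⟩ | ⟨i, rfl⟩) | hw))
      · exact ⟨1, one_mem _, by rw [one_mul]; exact hkA0 e⟩
      · exact ⟨dV j, Submonoid.subset_closure (hdVE j), by
          rw [mul_comm, hndV j]; exact hnV j⟩
      · rw [hMB i]
        refine finC_mon _ c.x (fun j => ?_) (fun j => ?_) _
        · exact ⟨dx j, Submonoid.subset_closure (hdxE j), by
            rw [mul_comm, hndx j]; exact hnx j⟩
        · refine ⟨nx j, Submonoid.subset_closure (hnxE j), ?_⟩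
          have h2 : nx j * (c.x j)⁻¹ = dx j := by
            rw [← hndx j, mul_comm (c.x j), mul_inv_cancel_right₀ (hok.par.ind.ne j)]
          rw [h2]
          exact hdx j
      · rw [Set.mem_singleton_iff.1 hw]
        exact ⟨dy, Submonoid.subset_closure hdyE, by rw [mul_comm, hndy]; exact hny⟩
    exact h1 hq
  have hR0F : ∀ w ∈ Subring.closure (Set.range (algebraMap k W) ∪ (G0 : Set W)),
      w ∈ F0.toSubfield := fun w hw => hA0F w (hR0A0 w hw)
  have hgden : ∀ w ∈ g, Den (ball W) A0 A x' w := by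
    intro w hw
    obtain ⟨D, hD, hDw⟩ := den_E F0.toSubfield
      (Subring.closure (Set.range (algebraMap k W) ∪ (G0 : Set W))) hR0F f0 hf0R hf00
      hf0n (E : Set W) (by
        intro e he
        have h1 := hEmem e he
        refine ⟨?_, h1.2.ne hok⟩
        rw [← hA0]
        exact h1.1) hf0E _ (by
        intro q hq
        rw [← hA0]
        exact hQ q hq) w (hgF w hw).1 (hgF w hw).2
    rw [← hA0] at hDw
    exact ⟨D, hDA0 D hD, hDMV D hD, hDw⟩
  have hAden : A ≤ denRing (ball W) A0 A x' := by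
    have h1 : Subring.closure (Set.range (algebraMap k W) ∪ (g : Set W)) ≤
        denRing (ball W) A0 A x' := by
      rw [Subring.closure_le]
      rintro w (⟨e, rfl⟩ | hw)
      · exact Den.of_mem (hkA0 e)
      · exact hgden w hw
    have h2 : Subring.closure (Set.range (algebraMap k W) ∪ (g : Set W)) ≤ A := by
      rw [hAdef]
      exact C2_le_locV _ _
    have h3 := locV_le_denRing h1 h2
    rwa [← hAdef] at h3
  refine ⟨g, x', {c.y}, fun t ht => ⟨hg1 t ht, (hgF t ht).1⟩, hx'F, ?_,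
    Finset.card_singleton _, ?_, ?_⟩
  · intro t ht
    rw [Finset.mem_singleton.1 ht]
    exact hyF
  · rw [heq]
    refine ⟨⟨hx'.ne, fun δ hδ => hx'.indep δ ((ball_val_eq_one _).1 hδ)⟩, hx'A,
      fun i => (ball_val_lt_one _).2 (hx'.lt i), ?_, ?_, ?_, hreg, ?_, fun z hz => hAden hz⟩
    · intro t ht
      rw [Finset.mem_singleton.1 ht]
      exact hyA'
    · intro t ht
      rw [Finset.mem_singleton.1 ht]
      exact (ball_val_lt_one _).2 hok.par.y1
    · intro z hz h1
      obtain ⟨b, b0, hb, hb0, hzb⟩ := hAgen z hz ((ball_val_lt_one _).1 h1)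
      exact ⟨b, fun _ => b0, hb, fun _ => hb0, by rw [Finset.sum_singleton]; exact hzb⟩
    · rw [hdim, Finset.card_singleton]
  · intro f hf
    rw [heq]
    exact hMV f (Finset.mem_union_right _ hf)

end Pool.Agent.Lib.TU
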