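import Pool.Agent.Lib.TU.ChartU
import Pool.Agent.Lib.TU.FinC
import Pool.Agent.Lib.TDO.Transp
import Pool.Agent.Lib.MP_3029eb_ag.AbhC1
import Pool.Agent.Lib.MP_3029eb_ag.ImpSub

/-!
# Module MainU: assembly

`main_ballU`, `main_embU`: embedded local uniformization of a domain essentially of finite type
over a perfect field of characteristic `p`, along a rank one valuation of transcendence defect one
(arbitrary value group and residue field).
-/

open Pool.Agent.Lib.MP_3029eb_ag Pool.Agent.Lib.MP_3029eb_ag.Abh Pool.Agent.Lib.TDO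

namespace Pool.Agent.Lib.TU

/-- Embedded local uniformization of the localization gives that of the ring. -/
theorem emb2_of_loc {K : Type} [Field K] (V : ValuationSubring K) (A0 : Subring K) {r h : ℕ}
    (H : Imp.EMB2 V (locV V A0) r h) : Imp.EMB2 V A0 r h := by
  intro s hs
  obtain ⟨g, u, gs, hg, hcard, hG, hM⟩ := H s fun f hf => by
    obtain ⟨hf0, hfV, a, ha, b, hb, hb0, hab⟩ := hs f hf
    exact ⟨hf0, hfV, a, le_locV V A0 ha, b, le_locV V A0 hb, hb0, hab⟩
  rw [locV_closure_locV (le_refl V) A0 (g : Set K)] at hG hM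
  refine ⟨g, u, gs, hg, hcard, ?_, hM⟩
  refine ⟨hG.ind, hG.mem, hG.lt, hG.gmem, hG.glt, hG.gen, hG.reg, hG.dim, fun z hz => ?_⟩
  obtain ⟨D, ⟨a1, ha1, b1, hb1, hb1v, h1⟩, hDm, ⟨a2, ha2, b2, hb2, hb2v, h2⟩⟩ := hG.den z hz
  have hA : A0 ≤ locV V (Subring.closure ((A0 : Set K) ∪ (g : Set K))) := fun w hw =>
    le_locV V _ (Subring.subset_closure (Or.inl hw))
  refine ⟨a1 * b2, mul_mem ha1 hb2, ?_, ?_⟩
  · rw [← h1]
    exact (hDm.mul (MonV.of_unit (hA hb1) hb1v)).mul (MonV.of_unit (hA hb2) hb2v)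
  · have h3 : a1 * b2 * z = a2 * b1 := by
      rw [← h1, ← h2]; ring
    rw [h3]
    exact mul_mem ha2 hb1

open Classical in
theorem main_ballU (p : ℕ) [Fact p.Prime] (k : Type) [Field k] [PerfectField k] [CharP k p]
    (R K : Type) [CommRing R] [IsDomain R] [Algebra k R]
    [Algebra.EssFiniteType k R] [NontriviallyNormedField K] [IsUltrametricDist K] [Algebra R K]
    [IsFractionRing R K] [Algebra k K] [IsScalarTower k R K]
    (hRV : ∀ a : R, algebraMap R K a ∈ ball K)
    (r m : ℕ) (hr : 0 < r) (htr : Algebra.trdeg k K = (r + m + 1 : ℕ)) (x : Fin r → K)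
    (hx0 : ∀ i, x i ≠ 0)
    (hx : ∀ m : Fin r → ℤ, (ball K).valuation (∏ i, x i ^ m i) = 1 → m = 0)
    (hrank : ∀ z : Fin (r + 1) → K, (∀ i, z i ≠ 0) →
      ∃ m : Fin (r + 1) → ℤ, m ≠ 0 ∧ (ball K).valuation (∏ i, z i ^ m i) = 1)
    (y : Fin m → K) (hyV : ∀ j, y j ∈ ball K)
    (hy : ∀ P : MvPolynomial (Fin m) k, P ≠ 0 →
      (ball K).valuation (MvPolynomial.aeval y P) = 1)
    (hres : ∀ z : Fin (m + 1) → K, (∀ i, z i ∈ ball K) →
      ∃ P : MvPolynomial (Fin (m + 1)) k, P ≠ 0 ∧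
        (ball K).valuation (MvPolynomial.aeval z P) < 1) :
    Imp.EMB2 (ball K) (algebraMap R K).range r 1 := by
  have hinj : Function.Injective (algebraMap R K) := IsFractionRing.injective R K
  have hRn : ∀ a : R, ‖algebraMap R K a‖ ≤ 1 := fun a => (mem_ball _).1 (hRV a)
  have hunit : ∀ a : R, IsUnit a → ‖algebraMap R K a‖ = 1 := by
    rintro a ⟨u, rfl⟩
    refine le_antisymm (hRn _) ?_
    have h1 : ‖algebraMap R K (u : R)‖ * ‖algebraMap R K ((u⁻¹ : Rˣ) : R)‖ = 1 := by
      rw [← norm_mul, ← map_mul, Units.mul_inv, map_one, norm_one]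
    have h2 := hRn ((u⁻¹ : Rˣ) : R)
    have h3 := norm_nonneg (algebraMap R K (u : R))
    nlinarith
  have hkR : ∀ c : k, algebraMap k K c = algebraMap R K (algebraMap k R c) := fun c =>
    IsScalarTower.algebraMap_apply k R K c
  have hefK : Algebra.EssFiniteType k K := by
    have h1 : Algebra.EssFiniteType R K :=
      Algebra.EssFiniteType.of_isLocalization K (nonZeroDivisors R)
    exact Algebra.EssFiniteType.comp k R K
  have hF : AmbG r m k K := by
    refine ⟨fun c hc => ?_, fun z hz => ?_, fun z hz => ?_⟩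
    · rw [hkR]
      exact hunit _ ((IsUnit.mk0 c hc).map (algebraMap k R))
    · obtain ⟨m, hm, h1⟩ := hrank z hz
      exact ⟨m, hm, (ball_val_eq_one _).1 h1⟩
    · obtain ⟨P, hP, h1⟩ := hres z fun i => (mem_ball _).2 (hz i)
      exact ⟨P, hP, (ball_val_lt_one _).1 h1⟩
  -- elements of value less than one
  have hxne : ∀ i, ‖x i‖ ≠ 1 := by
    intro i h1
    have h2 := hx (Pi.single i 1) (by
      rw [ball_val_eq_one, Finset.prod_eq_single i]
      · rw [Pi.single_eq_same, zpow_one]; exact h1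
      · intro j _ hj
        rw [Pi.single_eq_of_ne hj, zpow_zero]
      · intro h; exact absurd (Finset.mem_univ i) h)
    have h3 := congrFun h2 i
    rw [Pi.single_eq_same] at h3
    exact one_ne_zero h3
  let σ : Fin r → ℤ := fun i => if ‖x i‖ < 1 then 1 else -1
  have hσ : ∀ i, σ i ≠ 0 := by
    intro i
    show (if ‖x i‖ < 1 then (1 : ℤ) else -1) ≠ 0
    split_ifs <;> norm_num
  have hind : Indep (fun i => x i ^ σ i) := by
    refine ⟨fun i => zpow_ne_zero _ (hx0 i), fun i => ?_, fun δ hδ => ?_⟩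
    · show ‖x i ^ (if ‖x i‖ < 1 then (1 : ℤ) else -1)‖ < 1
      split_ifs with h
      · rw [zpow_one]; exact h
      · rw [zpow_neg_one, norm_inv]
        exact inv_lt_one_of_one_lt₀ (lt_of_le_of_ne (not_lt.1 h) (hxne i).symm)
    · have h1 : mon (fun i => x i ^ σ i) δ = ∏ i, x i ^ (σ i * δ i) := by
        unfold mon
        exact Finset.prod_congr rfl fun i _ => (zpow_mul _ _ _).symm
      have h2 := hx (fun i => σ i * δ i) (by rw [ball_val_eq_one, ← h1]; exact hδ)
      funext i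
      have h3 := congrFun h2 i
      exact (mul_eq_zero.1 h3).resolve_left (hσ i)
  obtain ⟨W, i1, i2, i3, ι, S, hι, hA, hSF, hS, hcomp, hch⟩ :=
    main_chartU hF hr p htr _ hind y (fun j => (mem_ball _).1 (hyV j))
      (fun P hP => (ball_val_eq_one _).1 (hy P hP))
  have hιinj : Function.Injective ι := ι.toRingHom.injective
  set A0 : Subring K := locV (ball K) (algebraMap R K).range with hA0def
  let ι' : K →+* W := (ι : K →+* W)
  have hιb : ∀ z : K, (ball W).valuation (ι' z) = 1 ↔ (ball K).valuation z = 1 := by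
    intro z
    rw [ball_val_eq_one, ball_val_eq_one]
    show ‖ι z‖ = 1 ↔ ‖z‖ = 1
    rw [hι]
  -- the generators
  obtain ⟨G, hG⟩ := (Algebra.essFiniteType_iff k R).1 (inferInstance : Algebra.EssFiniteType k R)
  let φ : R →+* W := ι'.comp (algebraMap R K)
  have hφk : ∀ c : k, φ (algebraMap k R c) = algebraMap k W c := by
    intro c
    show ι (algebraMap R K (algebraMap k R c)) = _
    rw [← hkR, AlgHom.commutes]
  let G0 : Finset W := G.image φ
  have hφmem : ∀ a : R, φ a ∈ ι.fieldRange := fun a => ⟨algebraMap R K a, rfl⟩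
  have hφn : ∀ a : R, ‖φ a‖ = ‖algebraMap R K a‖ := fun a => hι _
  have hG0 : ∀ z ∈ G0, z ∈ ι.fieldRange ∧ ‖z‖ ≤ 1 := by
    intro z hz
    obtain ⟨a, _, rfl⟩ := Finset.mem_image.1 hz
    exact ⟨hφmem a, (hφn a).le.trans (hRn a)⟩
  have hadj : ∀ t ∈ Algebra.adjoin k (G : Set R),
      φ t ∈ Subring.closure (Set.range (algebraMap k W) ∪ (G0 : Set W)) := by
    intro t ht
    induction ht using Algebra.adjoin_induction with
    | mem a ha =>
      exact Subring.subset_closure (Or.inr (Finset.mem_coe.2 (Finset.mem_image_of_mem φ ha)))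
    | algebraMap c =>
      rw [hφk]
      exact Subring.subset_closure (Or.inl ⟨c, rfl⟩)
    | add a b _ _ ha hb => rw [map_add]; exact add_mem ha hb
    | mul a b _ _ ha hb => rw [map_mul]; exact mul_mem ha hb
  have hA0 : A0.map ι' =
      locV (ball W) (Subring.closure (Set.range (algebraMap k W) ∪ (G0 : Set W))) := by
    apply le_antisymm
    · rintro _ ⟨z, ⟨_, ⟨a, rfl⟩, _, ⟨b, rfl⟩, hb1, hz⟩, rfl⟩
      obtain ⟨t1, ht1, htu1, hat1⟩ := hG a
      obtain ⟨t2, ht2, htu2, hbt2⟩ := hG b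
      rw [ball_val_eq_one] at hb1
      refine ⟨φ (a * t1) * φ t2, mul_mem (hadj _ hat1) (hadj _ ht2), φ (b * t2) * φ t1,
        mul_mem (hadj _ hbt2) (hadj _ ht1), ?_, ?_⟩
      · rw [ball_val_eq_one, norm_mul, hφn, hφn, map_mul, norm_mul, hb1, hunit _ htu1,
          hunit _ htu2, mul_one, mul_one]
      · have h1 : ι' z * φ b = φ a := by
          show ι' z * ι' (algebraMap R K b) = ι' (algebraMap R K a)
          rw [← map_mul, hz]
        rw [map_mul, map_mul, ← h1]
        ring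
    · have hcl : Subring.closure (Set.range (algebraMap k W) ∪ (G0 : Set W)) ≤
          (algebraMap R K).range.map ι' := by
        rw [Subring.closure_le]
        rintro z (⟨c, rfl⟩ | hz)
        · exact ⟨algebraMap R K (algebraMap k R c), ⟨_, rfl⟩, hφk c⟩
        · obtain ⟨a, _, rfl⟩ := Finset.mem_image.1 (Finset.mem_coe.1 hz)
          exact ⟨algebraMap R K a, ⟨_, rfl⟩, rfl⟩
      rintro z ⟨a, ha, b, hb, hb1, hz⟩
      obtain ⟨a', ha', rfl⟩ := hcl ha
      obtain ⟨b', hb', rfl⟩ := hcl hb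
      rw [hιb] at hb1
      have hb0 : b' ≠ 0 := by
        rintro rfl
        rw [map_zero] at hb1
        exact zero_ne_one hb1
      refine ⟨a' / b', ⟨a', ha', b', hb', hb1, div_mul_cancel₀ _ hb0⟩, ?_⟩
      rw [map_div₀, ← hz, mul_div_assoc, div_self ((map_ne_zero ι').2 hb0), mul_one]
  have hfrac : ∀ z ∈ ι.fieldRange, ∃ a ∈ A0.map ι', ∃ b ∈ A0.map ι', b ≠ 0 ∧ z * b = a := by
    rintro _ ⟨z, rfl⟩
    obtain ⟨⟨a, b⟩, hab⟩ := IsLocalization.surj (nonZeroDivisors R) z
    refine ⟨φ a, ⟨_, le_locV _ _ ⟨a, rfl⟩, rfl⟩, φ b, ⟨_, le_locV _ _ ⟨b, rfl⟩, rfl⟩, ?_, ?_⟩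
    · intro h0
      have h1 : (b : R) = 0 := by
        apply hinj
        apply hιinj
        rw [map_zero, map_zero]
        exact h0
      exact nonZeroDivisors.ne_zero b.2 h1
    · show ι z * ι (algebraMap R K b) = ι (algebraMap R K a)
      rw [← map_mul, hab]
  refine emb2_of_loc (ball K) (algebraMap R K).range ?_
  rw [← hA0def]
  intro s hs
  obtain ⟨g, u, gs, hg, hu, hgs, hcard, hgood, hmono⟩ :=
    final_U hr hA S ι.fieldRange hSF hS hcomp hch G0 hG0 (A0.map ι') hA0 hfrac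
      (s.image ι) (by
        intro z hz
        obtain ⟨f, hf, rfl⟩ := Finset.mem_image.1 hz
        obtain ⟨hf0, hfV, _⟩ := hs f hf
        exact ⟨⟨f, rfl⟩, (map_ne_zero ι).2 hf0, by rw [hι]; exact (mem_ball _).1 hfV⟩)
  choose u' hu' using hu
  let g' : Finset K := g.preimage ι hιinj.injOn
  let gs' : Finset K := gs.preimage ι hιinj.injOn
  have hg' : g'.image ι' = g := by
    ext t
    rw [Finset.mem_image]
    constructor
    · rintro ⟨a, ha, rfl⟩
      exact Finset.mem_preimage.1 ha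
    · intro ht
      obtain ⟨a, ha⟩ := (hg t ht).2
      exact ⟨a, Finset.mem_preimage.2 (by rw [show ι a = t from ha]; exact ht), ha⟩
  have hgs' : gs'.image ι' = gs := by
    ext t
    rw [Finset.mem_image]
    constructor
    · rintro ⟨a, ha, rfl⟩
      exact Finset.mem_preimage.1 ha
    · intro ht
      obtain ⟨a, ha⟩ := hgs t ht
      exact ⟨a, Finset.mem_preimage.2 (by rw [show ι a = t from ha]; exact ht), ha⟩
  have hu'' : (fun i => ι' (u' i)) = u := funext fun i => hu' i
  have hV : ∀ z, z ∈ ball K ↔ ‖ι' z‖ ≤ 1 := by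
    intro z
    rw [mem_ball, ← hι z]
    exact Iff.rfl
  obtain ⟨hG1, hM1⟩ := transp ι' (ball K) hV A0 g' u' gs' (by
    rw [hg', hgs', hu'']
    exact hgood)
  refine ⟨g', u', gs', ?_, ?_, hG1, ?_⟩
  · intro t ht
    rw [hV]
    exact (hg _ (Finset.mem_preimage.1 ht)).1
  · rw [← hcard, ← hgs']
    exact (Finset.card_image_of_injective gs' (f := ι') hιinj).symm
  · intro f hf
    apply hM1
    rw [hg', hu'']
    exact hmono _ (Finset.mem_image_of_mem ι hf)

/-- Embedded local uniformization along rank one valuations of transcendence defect one. -/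
theorem main_embU (p : ℕ) [Fact p.Prime] (k : Type) [Field k] [PerfectField k] [CharP k p]
    (R K : Type) [CommRing R] [IsDomain R] [Algebra k R]
    [Algebra.EssFiniteType k R] [Field K] [Algebra R K] [IsFractionRing R K] [Algebra k K]
    [IsScalarTower k R K] (V : ValuationSubring K)
    (harch : ∀ a b : K, a ≠ 0 → V.valuation b < 1 →
      ∃ n : ℕ, V.valuation (b ^ n) ≤ V.valuation a)
    (hRV : ∀ a : R, algebraMap R K a ∈ V)
    (r m : ℕ) (hr : 0 < r) (htr : Algebra.trdeg k K = ((r + m + 1 : ℕ) : Cardinal))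
    (x : Fin r → K) (hx0 : ∀ i, x i ≠ 0)
    (hx : ∀ m : Fin r → ℤ, V.valuation (∏ i, x i ^ m i) = 1 → m = 0)
    (hrank : ∀ z : Fin (r + 1) → K, (∀ i, z i ≠ 0) →
      ∃ m : Fin (r + 1) → ℤ, m ≠ 0 ∧ V.valuation (∏ i, z i ^ m i) = 1)
    (y : Fin m → K) (hyV : ∀ j, y j ∈ V)
    (hy : ∀ P : MvPolynomial (Fin m) k, P ≠ 0 → V.valuation (MvPolynomial.aeval y P) = 1)
    (hres : ∀ z : Fin (m + 1) → K, (∀ i, z i ∈ V) →
      ∃ P : MvPolynomial (Fin (m + 1)) k, P ≠ 0 ∧ V.valuation (MvPolynomial.aeval z P) < 1) :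
    Imp.EMB2 V (algebraMap R K).range r 1 := by
  have hV : V ≠ ⊤ := by
    rintro rfl
    have h1 : ∀ z : K, z ≠ 0 → (⊤ : ValuationSubring K).valuation z = 1 := by
      intro z hz
      rw [C1_val_one_iff]
      exact ⟨ValuationSubring.mem_top _, ValuationSubring.mem_top _, hz⟩
    have h2 := hx (fun _ => 1) (h1 _ (Finset.prod_ne_zero_iff.2 fun i _ =>
      zpow_ne_zero _ (hx0 i)))
    have h3 := congrFun h2 ⟨0, hr⟩
    exact one_ne_zero h3
  obtain ⟨v, hna, hnt, hVv⟩ := exists_absval V hV harch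
  let iN : NormedField K := v.toNormedField
  have hnorm : ∀ z : K, ‖z‖ = v z := fun z => rfl
  let iNN : NontriviallyNormedField K :=
    { v.toNormedField with
      non_trivial := by
        obtain ⟨y, hy0, hy⟩ := hnt
        refine ⟨y⁻¹, ?_⟩
        have h1 : v y⁻¹ = (v y)⁻¹ := map_inv₀ v y
        show 1 < v y⁻¹
        rw [h1]
        exact (one_lt_inv₀ (v.pos hy0)).2 hy }
  have iU : IsUltrametricDist K :=
    IsUltrametricDist.isUltrametricDist_of_forall_norm_add_le_max_norm hna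
  have hVb : V = ball K := by
    ext z
    rw [hVv, mem_ball]
    exact Iff.rfl
  subst hVb
  exact main_ballU p k R K hRV r m hr htr x hx0 hx hrank y hyV hy hres

end Pool.Agent.Lib.TU
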