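import Pool.Agent.Lib.TU.Defs
import Pool.Agent.Lib.TDO.Um

/-!
# Module MtB: monomial basis changes

`Mt x x'`: `x i = monN x' (A i)`, `x' i = mon x (B i)`, `A * B = 1`.
Basic lemma: `mon x a = mon x' (∑ i, a i * A i)` and `mon x' a = mon x (∑ i, a i * B i)` (all `x i`,
`x' i` nonzero).  Perron: `Abh.refine` (see its use in `Pool/Agent/Lib/TDO/PerB.lean`, `perron_BB`, and
in `TDO/Um.lean`).
-/

namespace Pool.Agent.Lib.TU

open Pool.Agent.Lib.MP_3029eb_ag Pool.Agent.Lib.MP_3029eb_ag.Abh Pool.Agent.Lib.TDO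

variable {W : Type} [NormedField W] {r : ℕ}

/-- `Mt` in terms of matrices. -/
theorem Mt.ref {x x' : Fin r → W} (h : Mt x x') :
    ∃ (A : Matrix (Fin r) (Fin r) ℕ) (B : Matrix (Fin r) (Fin r) ℤ), T1_Ref x x' A B := by
  obtain ⟨A, B, hA, hB, hAB⟩ := h.mat
  refine ⟨Matrix.of A, Matrix.of B, h.ind, hA, hB, ?_⟩
  ext i j
  rw [Matrix.mul_apply, Matrix.one_apply, ← hAB i j]
  rfl

/-- `Mt` from matrices. -/
theorem Mt.ofRef {x x' : Fin r → W} {A : Matrix (Fin r) (Fin r) ℕ}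
    {B : Matrix (Fin r) (Fin r) ℤ} (h : T1_Ref x x' A B) : Mt x x' := by
  refine ⟨h.ind, A, B, h.h1, h.h2, fun i j => ?_⟩
  have := congrFun (congrFun h.h3 i) j
  rw [Matrix.mul_apply] at this
  rw [← Matrix.one_apply, ← this]
  rfl

theorem Mt.refl {x : Fin r → W} (hx : Indep x) : Mt x x :=
  Mt.ofRef (T1_Ref.refl hx)

theorem Mt.trans {x x' x'' : Fin r → W} (hx : Indep x) (h : Mt x x') (h' : Mt x' x'') :
    Mt x x'' := by
  obtain ⟨A, B, hR⟩ := h.ref
  obtain ⟨A', B', hR'⟩ := h'.ref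
  exact Mt.ofRef (hR.trans hx.ne hR')

/-- Old monomials are new monomials. -/
theorem Mt.mon_eq {x x' : Fin r → W} (h : Mt x x') (a : Fin r → ℤ) :
    ∃ a' : Fin r → ℤ, mon x a = mon x' a' := by
  obtain ⟨A, B, hR⟩ := h.ref
  exact ⟨_, hR.mon_eq a⟩

/-- New monomials are old monomials (`A` and `B` are square matrices, `A * B = 1` implies
`B * A = 1`). -/
theorem Mt.mon_eq' {x x' : Fin r → W} (hx : Indep x) (h : Mt x x') (a : Fin r → ℤ) :
    ∃ a' : Fin r → ℤ, mon x' a = mon x a' := by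
  obtain ⟨A, B, hR⟩ := h.ref
  exact ⟨_, T1_mon_mon x x' hx.ne B hR.h2 a⟩

/-- `x i` is a product of the `x' j`; as `‖x i‖ < 1` some exponent is positive. -/
theorem Mt.x_eq {x x' : Fin r → W} (hx : Indep x) (h : Mt x x') (i : Fin r) :
    ∃ β : Fin r → ℕ, β ≠ 0 ∧ x i = monN x' β := by
  obtain ⟨A, B, hA, hB, hAB⟩ := h.mat
  refine ⟨A i, fun h0 => ?_, hA i⟩
  have h1 := hAB i i
  rw [if_pos rfl, h0] at h1
  simp at h1

/-- A criterion: `x'` independent, the `x i` are monomials with exponents `≥ 0` in `x'` and the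
`x' i` are monomials in `x`. -/
theorem Mt.of {x x' : Fin r → W} (hx : Indep x) (hx' : Indep x')
    (h1 : ∀ i, ∃ β : Fin r → ℕ, x i = monN x' β) (h2 : ∀ i, ∃ a : Fin r → ℤ, x' i = mon x a) :
    Mt x x' := by
  choose A hA using h1
  choose B hB using h2
  refine ⟨hx', A, B, hA, hB, fun i j => ?_⟩
  have e1 : mon x (Pi.single i 1) = mon x (Matrix.vecMul (fun l => (A i l : ℤ)) B) := by
    rw [mon_single, hA i, ← T1_mon_natCast, T1_mon_mon x x' hx.ne B hB]
  have e2 := norm_mon_inj hx (congrArg norm e1)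
  have e3 := congrFun e2 j
  have e4 : Matrix.vecMul (fun l => (A i l : ℤ)) B j = ∑ l, (A i l : ℤ) * B l j := rfl
  rw [← e4, ← e3, Pi.single_apply]
  by_cases hij : i = j
  · rw [if_pos hij, if_pos hij.symm]
  · rw [if_neg hij, if_neg (Ne.symm hij)]

/-- Perron's algorithm: finitely many monomials of norm at most one become monomials with
exponents `≥ 0`, those of norm `< 1` with all exponents `≥ 1`. -/
theorem exists_Mt {x : Fin r → W} (hx : Indep x) (Y : Finset (Fin r → ℤ))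
    (hY : ∀ a ∈ Y, ‖mon x a‖ ≤ 1) :
    ∃ x' : Fin r → W, Mt x x' ∧ ∀ a ∈ Y, ∃ β : Fin r → ℕ, mon x a = monN x' β ∧
      (‖mon x a‖ < 1 → ∀ i, 1 ≤ β i) := by
  classical
  have hpow : ∀ a : Fin r → ℤ, ∃ n : ℕ, ‖mon x a‖ < 1 → ‖mon x (n • a + -1)‖ < 1 := by
    intro a
    by_cases ha : ‖mon x a‖ < 1
    · have hpos : 0 < ‖mon x 1‖ := norm_pos_iff.2 (mon_ne x hx.ne 1)
      obtain ⟨n, hn⟩ := exists_pow_lt_of_lt_one hpos ha
      refine ⟨n, fun _ => ?_⟩
      rw [mon_add x hx.ne, mon_nsmul, mon_neg, norm_mul, norm_inv, norm_pow, ← div_eq_mul_inv,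
        div_lt_one hpos]
      exact hn
    · exact ⟨0, fun h => absurd h ha⟩
  choose n hn using hpow
  set Y1 : Finset (Fin r → ℤ) := Y.filter (fun a => ‖mon x a‖ < 1) with hY1
  have hΔ : ∀ δ ∈ Y1 ∪ Y1.image (fun a => n a • a + -1), ‖mon x δ‖ < 1 := by
    intro δ hδ
    rcases Finset.mem_union.1 hδ with hδ | hδ
    · exact (Finset.mem_filter.1 hδ).2
    · obtain ⟨a, ha, rfl⟩ := Finset.mem_image.1 hδ
      exact hn a (Finset.mem_filter.1 ha).2
  obtain ⟨x', A, B, hR, hβ⟩ := T1_all x hx _ hΔ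
  refine ⟨x', Mt.ofRef hR, fun a ha => ?_⟩
  by_cases ha1 : ‖mon x a‖ < 1
  · have haY : a ∈ Y1 := Finset.mem_filter.2 ⟨ha, ha1⟩
    obtain ⟨β, hβ1⟩ := hβ a (Finset.mem_union_left _ haY)
    obtain ⟨γ, hγ⟩ := hβ (n a • a + -1) (Finset.mem_union_right _ (Finset.mem_image_of_mem _ haY))
    refine ⟨β, hβ1, fun _ l => ?_⟩
    -- the exponents of the product of all `x i`
    have h1 : mon x 1 = mon x' (Matrix.vecMul 1 (A.map (fun n : ℕ => (n : ℤ)))) := hR.mon_eq 1
    have h2 : mon x' (n a • (fun i => (β i : ℤ))) =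
        mon x' ((fun i => (γ i : ℤ)) + Matrix.vecMul 1 (A.map (fun n : ℕ => (n : ℤ)))) := by
      rw [mon_nsmul, mon_add x' hR.ind.ne, T1_mon_natCast, T1_mon_natCast, ← h1, ← hγ, ← hβ1,
        mon_add x hx.ne, mon_nsmul, mon_neg, inv_mul_cancel_right₀ (mon_ne x hx.ne 1)]
    have h3 := congrFun (norm_mon_inj hR.ind (congrArg norm h2)) l
    have h4 : (n a • (fun i => (β i : ℤ))) l = (n a : ℤ) * (β l : ℤ) := by
      simp
    have h5 : ((fun i => (γ i : ℤ)) + Matrix.vecMul 1 (A.map (fun n : ℕ => (n : ℤ)))) l =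
        (γ l : ℤ) + ∑ i, (A i l : ℤ) := by
      have : Matrix.vecMul (1 : Fin r → ℤ) (A.map (fun n : ℕ => (n : ℤ))) l =
          ∑ i, (1 : Fin r → ℤ) i * (A i l : ℤ) := rfl
      rw [Pi.add_apply, this]
      simp
    rw [h4, h5] at h3
    -- no column of `A` vanishes
    have h6 : B * (A.map (fun n : ℕ => (n : ℤ))) = 1 := mul_eq_one_comm.1 hR.h3
    have h7 : ∑ i, B l i * (A i l : ℤ) = 1 := by
      have := congrFun (congrFun h6 l) l
      rw [Matrix.mul_apply, Matrix.one_apply_eq] at this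
      exact this
    have h8 : (0 : ℤ) < ∑ i, (A i l : ℤ) := by
      by_contra hcon
      have h9 : ∑ i, (A i l : ℤ) = 0 :=
        le_antisymm (not_lt.1 hcon) (Finset.sum_nonneg fun i _ => Int.natCast_nonneg _)
      have h10 := (Finset.sum_eq_zero_iff_of_nonneg (fun i _ => Int.natCast_nonneg _)).1 h9
      rw [Finset.sum_eq_zero (fun i hi => by rw [h10 i hi, mul_zero])] at h7
      exact absurd h7 (by norm_num)
    by_contra hcon
    have h11 : β l = 0 := by omega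
    rw [h11] at h3
    have h12 : (0 : ℤ) ≤ (γ l : ℤ) := Int.natCast_nonneg _
    rw [Nat.cast_zero, mul_zero] at h3
    omega
  · have ha2 : a = 0 := by
      refine norm_mon_inj hx ?_
      rw [mon_zero, norm_one]
      exact le_antisymm (hY a ha) (not_lt.1 ha1)
    refine ⟨0, ?_, fun h => absurd h ha1⟩
    rw [ha2, mon_zero]
    simp [monN]

end Pool.Agent.Lib.TU
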