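import Pool.Agent.Lib.TU.Defs

/-!
# Module LatU: monomials of the sublattice

`Λ = {a ∈ ℤ^r | l ∣ ∑ a_j n_j}` contains `l ℤ^r`, so it is a free abelian group of rank `r`
(`Submodule.basisOfPid..`, finrank): basis `b_1, .., b_r`.  `x''_i := mon x (± b_i)` with the sign such that
the norm is `< 1` (norm one is impossible, `b_i ≠ 0`).  `mon x'' a = mon x (∑ ± a_i b_i)`: independence.
-/

namespace Pool.Agent.Lib.TU

open Pool.Agent.Lib.MP_3029eb_ag Pool.Agent.Lib.MP_3029eb_ag.Abh Pool.Agent.Lib.TDO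

private theorem latu_mon_sum {W : Type} [Field W] {r : ℕ} (x : Fin r → W) (hx : ∀ i, x i ≠ 0)
    {ι : Type} (S : Finset ι) (f : ι → Fin r → ℤ) :
    mon x (∑ i ∈ S, f i) = ∏ i ∈ S, mon x (f i) := by
  classical
  induction S using Finset.induction_on with
  | empty => rw [Finset.sum_empty, Finset.prod_empty, mon_zero]
  | insert a S ha ih => rw [Finset.sum_insert ha, Finset.prod_insert ha, mon_add x hx, ih]

private theorem latu_mon_mon {W : Type} [Field W] {r : ℕ} (x : Fin r → W) (hx : ∀ i, x i ≠ 0)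
    (v : Fin r → Fin r → ℤ) (a : Fin r → ℤ) :
    mon (fun i => mon x (v i)) a = mon x (∑ i, a i • v i) := by
  rw [latu_mon_sum x hx]
  simp only [mon_zsmul]
  rfl

/-- the sublattice -/
private def latuL {r : ℕ} (l : ℕ) (n : Fin r → ℤ) : Submodule ℤ (Fin r → ℤ) where
  carrier := {a | (l : ℤ) ∣ ∑ j, a j * n j}
  add_mem' := by
    intro a b ha hb
    have h1 : ∑ j, (a + b) j * n j = ∑ j, a j * n j + ∑ j, b j * n j := by
      simp only [Pi.add_apply, add_mul, Finset.sum_add_distrib]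
    have ha' : (l : ℤ) ∣ ∑ j, a j * n j := ha
    have hb' : (l : ℤ) ∣ ∑ j, b j * n j := hb
    show (l : ℤ) ∣ ∑ j, (a + b) j * n j
    rw [h1]
    exact dvd_add ha' hb'
  zero_mem' := by
    show (l : ℤ) ∣ ∑ j, (0 : Fin r → ℤ) j * n j
    simp
  smul_mem' := by
    intro t a ha
    have ha' : (l : ℤ) ∣ ∑ j, a j * n j := ha
    have h1 : ∑ j, (t • a) j * n j = t * ∑ j, a j * n j := by
      rw [Finset.mul_sum]
      refine Finset.sum_congr rfl fun j _ => ?_
      rw [Pi.smul_apply, smul_eq_mul, mul_assoc]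
    show (l : ℤ) ∣ ∑ j, (t • a) j * n j
    rw [h1]
    exact Dvd.dvd.mul_left ha' _

private theorem latu_mem {r : ℕ} {l : ℕ} {n : Fin r → ℤ} {a : Fin r → ℤ} :
    a ∈ latuL l n ↔ (l : ℤ) ∣ ∑ j, a j * n j := Iff.rfl

private theorem latu_finrank {r : ℕ} {l : ℕ} (hl : 0 < l) (n : Fin r → ℤ) :
    Module.finrank ℤ (latuL l n) = r := by
  apply le_antisymm
  · have h1 := Submodule.finrank_le (latuL l n)
    rwa [Module.finrank_fin_fun] at h1
  · have hmem : ∀ a : Fin r → ℤ, ((l : ℤ) • (LinearMap.id : (Fin r → ℤ) →ₗ[ℤ] (Fin r → ℤ))) a ∈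
        latuL l n := by
      intro a
      rw [latu_mem]
      refine Finset.dvd_sum fun j _ => ?_
      refine Dvd.dvd.mul_right ?_ _
      exact ⟨a j, by simp⟩
    have hinj : Function.Injective
        (LinearMap.codRestrict (latuL l n) ((l : ℤ) • LinearMap.id) hmem) := by
      intro a b h
      have h1 := congrArg (fun y : latuL l n => (y : Fin r → ℤ)) h
      have h2 : (l : ℤ) • a = (l : ℤ) • b := h1
      have hl0 : (l : ℤ) ≠ 0 := by exact_mod_cast hl.ne'
      exact smul_right_injective _ hl0 h2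
    have h1 := LinearMap.finrank_le_finrank_of_injective hinj
    rwa [Module.finrank_fin_fun] at h1

/-- See the header. -/
theorem lattice_basis {W : Type} [NormedField W] {r : ℕ} (x : Fin r → W) (hx : Indep x) (l : ℕ)
    (hl : 0 < l) (n : Fin r → ℤ) :
    ∃ x'' : Fin r → W, Indep x'' ∧
      (∀ i, ∃ a : Fin r → ℤ, x'' i = mon x a ∧ (l : ℤ) ∣ ∑ j, a j * n j) ∧
      ∀ a : Fin r → ℤ, (l : ℤ) ∣ ∑ j, a j * n j → ∃ a' : Fin r → ℤ, mon x a = mon x'' a' := by
  classical
  let b : Module.Basis (Fin r) ℤ (latuL l n) := Module.finBasisOfFinrankEq ℤ _ (latu_finrank hl n)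
  have hb0 : ∀ i, (b i : Fin r → ℤ) ≠ 0 := by
    intro i h
    exact b.ne_zero i (Subtype.ext h)
  have hε : ∀ i, ∃ ε : ℤ, ε * ε = 1 ∧ ‖mon x (ε • (b i : Fin r → ℤ))‖ < 1 := by
    intro i
    have hne : ‖mon x (b i : Fin r → ℤ)‖ ≠ 1 := fun h => hb0 i (hx.indep _ h)
    rcases lt_or_gt_of_ne hne with h | h
    · exact ⟨1, by norm_num, by rwa [one_smul]⟩
    · refine ⟨-1, by norm_num, ?_⟩
      rw [neg_smul, one_smul, mon_neg, norm_inv]
      exact inv_lt_one_of_one_lt₀ h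
  choose ε hε1 hεlt using hε
  have hcomb : ∀ a : Fin r → ℤ, mon (fun i => mon x (ε i • (b i : Fin r → ℤ))) a =
      mon x (∑ i, (a i * ε i) • (b i : Fin r → ℤ)) := by
    intro a
    rw [latu_mon_mon x hx.ne]
    simp only [smul_smul]
  refine ⟨fun i => mon x (ε i • (b i : Fin r → ℤ)), ⟨fun i => mon_ne x hx.ne _, hεlt, ?_⟩,
    fun i => ⟨_, rfl, ?_⟩, fun a ha => ?_⟩
  · intro δ hδ
    rw [hcomb] at hδ
    have h1 := hx.indep _ hδ
    have h2 : ∑ i, (δ i * ε i) • b i = 0 := by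
      apply Subtype.ext
      rw [Submodule.coe_sum]
      exact h1
    have h3 := Fintype.linearIndependent_iff.1 b.linearIndependent _ h2
    funext i
    have h4 := h3 i
    have h5 : δ i = δ i * ε i * ε i := by rw [mul_assoc, hε1, mul_one]
    rw [h5, h4, zero_mul]
    rfl
  · exact (latuL l n).smul_mem _ (b i).2
  · refine ⟨fun i => b.repr ⟨a, ha⟩ i * ε i, ?_⟩
    rw [hcomb]
    have h1 : (∑ i, (b.repr ⟨a, ha⟩ i * ε i * ε i) • (b i : Fin r → ℤ)) = a := by
      simp only [mul_assoc, hε1, mul_one]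
      have h2 := b.sum_repr ⟨a, ha⟩
      have h3 := congrArg (fun y : latuL l n => (y : Fin r → ℤ)) h2
      simp only [Submodule.coe_sum, Submodule.coe_smul] at h3
      exact h3
    rw [h1]

end Pool.Agent.Lib.TU
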