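import Pool.Agent.Lib.TU.DerEx

/-!
# Module StarP: approximation of a non `p`-type polynomial by `p`-th powers modulo powers of `g`
-/

namespace Pool.Agent.Lib.TU

open Polynomial in
private theorem der_pow_p {C : Type} [Field C] (p : ℕ) [Fact p.Prime] [CharP C p]
    (𝔇 : Derivation ℤ (Polynomial C) (Polynomial C)) (h : Polynomial C) : 𝔇 (h ^ p) = 0 := by
  rw [Derivation.leibniz_pow]
  have : (p : Polynomial C) = 0 := CharP.cast_eq_zero _ p
  rw [nsmul_eq_mul, this, zero_mul]

private theorem star_key1 {C : Type} [Field C] (p : ℕ) [Fact p.Prime] [CharP C p]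
    (g φ : Polynomial C) (hg : Irreducible g) (d : ℕ) (_hd : 1 ≤ d) (H1 H2 : Polynomial C)
    (hH2 : ¬ g ∣ H2) (h : g ^ d ∣ φ * H2 ^ p - H1 ^ p)
    (𝔇 : Derivation ℤ (Polynomial C) (Polynomial C)) :
    g ^ (d - 1) ∣ 𝔇 φ ∧ (p ∣ d → g ^ d ∣ 𝔇 φ) := by
  have hN : 𝔇 (φ * H2 ^ p - H1 ^ p) = H2 ^ p * 𝔇 φ := by
    rw [map_sub, Derivation.leibniz, der_pow_p p, der_pow_p p]
    simp
  obtain ⟨Q, hQ⟩ := h
  have hcop : ∀ n : ℕ, IsCoprime (g ^ n) (H2 ^ p) := fun n =>
    ((hg.coprime_iff_not_dvd).2 hH2).pow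
  have hcalc : H2 ^ p * 𝔇 φ = g ^ d * 𝔇 Q + Q * ((d : Polynomial C) * g ^ (d - 1) * 𝔇 g) := by
    rw [← hN, hQ, Derivation.leibniz, Derivation.leibniz_pow]
    simp only [smul_eq_mul, nsmul_eq_mul]
    ring
  constructor
  · apply (hcop (d - 1)).dvd_of_dvd_mul_left
    rw [hcalc]
    apply dvd_add
    · exact Dvd.dvd.mul_right (pow_dvd_pow g (Nat.sub_le d 1)) _
    · exact ⟨Q * ((d : Polynomial C) * 𝔇 g), by ring⟩
  · intro hpd
    apply (hcop d).dvd_of_dvd_mul_left
    rw [hcalc]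
    have h0 : (d : Polynomial C) = 0 := (CharP.cast_eq_zero_iff _ p d).2 hpd
    rw [h0]
    simp

private theorem star_key2 {C : Type} [Field C] (g F : Polynomial C) (hg : Irreducible g)
    (hgX : ¬ g ∣ Polynomial.X) (n m1 D : ℕ) (hF : F ≠ 0) (hm1 : ∀ i < m1, F.coeff i = 0)
    (hD : F.natDegree ≤ m1 + D) (h : g ^ n ∣ F) : n * g.natDegree ≤ D := by
  obtain ⟨χ, hχ⟩ := Polynomial.X_pow_dvd_iff.2 hm1
  have hχ0 : χ ≠ 0 := by
    rintro rfl
    apply hF
    rw [hχ, mul_zero]
  have hcop : IsCoprime (g ^ n) (Polynomial.X ^ m1) :=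
    ((hg.coprime_iff_not_dvd).2 hgX).pow
  have h1 : g ^ n ∣ χ := by
    apply hcop.dvd_of_dvd_mul_left
    rw [← hχ]
    exact h
  have h2 := Polynomial.natDegree_le_of_dvd h1 hχ0
  rw [Polynomial.natDegree_pow] at h2
  have h3 : F.natDegree = m1 + χ.natDegree := by
    rw [hχ, Polynomial.natDegree_mul (pow_ne_zero _ Polynomial.X_ne_zero) hχ0,
      Polynomial.natDegree_X_pow]
  omega

/-- derivation of the coefficients -/
private theorem exists_coeff_der {C : Type} [Field C] (D : Derivation ℤ C C) :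
    ∃ 𝔇 : Derivation ℤ (Polynomial C) (Polynomial C), ∀ (f : Polynomial C) (i : ℕ),
      (𝔇 f).coeff i = D (f.coeff i) := by
  let _ : Differential C := ⟨D⟩
  exact ⟨Differential.mapCoeffs, fun f i => Differential.coeff_mapCoeffs f i⟩

/-- Proof.  Suppose `g ^ d ∣ N := φ * H2 ^ p - H1 ^ p`.  For every derivation `𝔇 : C[T] → C[T]` over `ℤ`
(either `d/dT`, or the coefficientwise extension `D` of a derivation of `C`:
`Derivation.mapCoeff`) we have `𝔇 N = H2 ^ p * 𝔇 φ` (`p`-th powers have derivative zero), and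
`g ^ (d - 1) ∣ 𝔇 N` (`g ^ d ∣ 𝔇 N` if `p ∣ d`), so, `g` being prime to `H2`,
`g ^ (d - 1) ∣ 𝔇 φ`, and `g ^ d ∣ 𝔇 φ` if `p ∣ d`.
Since `φ` is not in `C^p[T^p]`, one of the following holds:
(A) `φ' = d φ / dT ≠ 0`.  Put `𝔇 = T d/dT`;
(B) `φ' = 0` and some coefficient of `φ` is not a `p`-th power; by `exists_der` there is a
derivation `D` of `C` with `D φ ≠ 0`.  Put `𝔇 = D`.
In both cases `𝔇 φ = T ^ m1 * χ` with `χ ≠ 0`, `natDegree χ ≤ D` (all exponents of `φ` are in
`[m1, m1 + D]`), and `g ∤ T`, so `(d - 1) f ≤ D` with `f = natDegree g`, and `d f ≤ D` if `p ∣ d`.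
With `D e ≤ d - j1` we get `(d - 1) e f ≤ d - j1 ≤ d`; as `e f ≥ 2`: `2 (d - 1) ≤ d`, so `d = 2`,
`e f = 2`, `j1 = 0`, `D = f` (`f ≤ D ≤ 2 / e = f`).  If `p = 2` then `p ∣ d`: `d f e ≤ d`, contradiction to
`e f = 2`.  So `p` is odd.
 * `e = 1`, `f = 2`: `m1 = j1 = 0` by `he1`, `natDegree φ ≤ 2`.  (A): `g ∣ T φ'`, `g ∣ φ'` (`g` prime to
   `T`), `natDegree φ' ≤ 1 < 2`, so `φ' = 0`, contradiction.  (B): `φ' = 0` and `natDegree φ ≤ 2 < p`
   imply that `φ` is constant, `D φ` is a nonzero constant divisible by `g`: contradiction.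
 * `e = 2`, `f = 1`: `j1 = 0` and `hmod` give `p ∣ m1 * 2`, so `p ∣ m1`.  `φ = T ^ m1 (ψ0 + ψ1 T)`,
   `φ' = ψ1 T ^ m1` (as `p ∣ m1`).  (A): `g ∣ T φ' = ψ1 T ^ (m1 + 1)` so `ψ1 = 0`, contradiction.
   (B): `φ' = 0` gives `ψ1 = 0`, `D φ = D(ψ0) T ^ m1 ≠ 0` is not divisible by `g`.  Contradiction. -/
theorem star {C : Type} [Field C] (p : ℕ) [Fact p.Prime] [CharP C p] (g φ : Polynomial C)
    (hg : Irreducible g) (hgX : ¬ g ∣ Polynomial.X) (d e m1 j1 D : ℕ) (hd : 2 ≤ d) (he : 1 ≤ e)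
    (hef : 2 ≤ e * g.natDegree) (hde : j1 + D * e ≤ d) (hmod : (p : ℤ) ∣ (j1 : ℤ) - m1 * e)
    (he1 : e = 1 → m1 = j1)
    (hφ : ¬ ∀ i, φ.coeff i ≠ 0 → p ∣ i ∧ ∃ b : C, φ.coeff i = b ^ p)
    (hm1 : ∀ i < m1, φ.coeff i = 0) (hD : φ.natDegree ≤ m1 + D) (H1 H2 : Polynomial C)
    (hH2 : ¬ g ∣ H2) : ¬ g ^ d ∣ φ * H2 ^ p - H1 ^ p := by
  intro hdvd
  have hp : p.Prime := Fact.out
  have hXp : ∀ (𝔇 : Derivation ℤ (Polynomial C) (Polynomial C)),
      g ^ (d - 1) ∣ 𝔇 φ ∧ (p ∣ d → g ^ d ∣ 𝔇 φ) := fun 𝔇 =>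
    star_key1 p g φ hg d (by omega) H1 H2 hH2 hdvd 𝔇
  have hfpos : 1 ≤ g.natDegree := by
    by_contra hlt
    have : g.natDegree = 0 := by omega
    rw [this] at hef
    omega
  -- the derivation d/dT as a derivation over the integers
  have hder : g ^ (d - 1) ∣ Polynomial.derivative φ ∧
      (p ∣ d → g ^ d ∣ Polynomial.derivative φ) := by
    have h1 := hXp ((Polynomial.derivative' (R := C)).restrictScalars ℤ)
    simpa using h1
  -- coefficients of the derivative
  have hdc : ∀ i, (Polynomial.derivative φ).coeff i = φ.coeff (i + 1) * ((i : C) + 1) := by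
    intro i
    rw [Polynomial.coeff_derivative]
  -- a polynomial F ≠ 0 supported on [m1, m1 + D], divisible by g^(d-1)
  have hmain : (d - 1) * g.natDegree ≤ D ∧ (p ∣ d → d * g.natDegree ≤ D) := by
    by_cases hφ' : Polynomial.derivative φ = 0
    · obtain ⟨i, hi⟩ := not_forall.1 hφ
      rw [Classical.not_imp] at hi
      obtain ⟨hi0, hi1⟩ := hi
      have hpi : p ∣ i := by
        rcases Nat.eq_zero_or_pos i with h0 | h0
        · rw [h0]; exact dvd_zero p
        · obtain ⟨n, rfl⟩ : ∃ n, i = n + 1 := ⟨i - 1, by omega⟩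
          have h1 := hdc n
          rw [hφ'] at h1
          rw [Polynomial.coeff_zero] at h1
          rcases mul_eq_zero.1 h1.symm with h2 | h2
          · exact absurd h2 hi0
          · have h3 : ((n + 1 : ℕ) : C) = 0 := by push_cast; exact h2
            exact (CharP.cast_eq_zero_iff C p (n + 1)).1 h3
      have hnb : ¬ ∃ b : C, φ.coeff i = b ^ p := fun hb => hi1 ⟨hpi, hb⟩
      obtain ⟨D0, hD0⟩ := exists_der p (φ.coeff i) hnb
      obtain ⟨𝔇, h𝔇⟩ := exists_coeff_der D0
      have hF : 𝔇 φ ≠ 0 := by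
        intro h0
        have h1 := h𝔇 φ i
        rw [h0, hD0, Polynomial.coeff_zero] at h1
        exact zero_ne_one h1
      have hF1 : ∀ i < m1, (𝔇 φ).coeff i = 0 := by
        intro i hi
        rw [h𝔇, hm1 i hi, map_zero]
      have hF2 : (𝔇 φ).natDegree ≤ m1 + D := by
        rw [Polynomial.natDegree_le_iff_coeff_eq_zero]
        intro N hN
        rw [h𝔇, Polynomial.coeff_eq_zero_of_natDegree_lt (lt_of_le_of_lt hD hN), map_zero]
      exact ⟨star_key2 g _ hg hgX _ m1 D hF hF1 hF2 (hXp 𝔇).1,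
        fun hpd => star_key2 g _ hg hgX _ m1 D hF hF1 hF2 ((hXp 𝔇).2 hpd)⟩
    · have hF : Polynomial.X * Polynomial.derivative φ ≠ 0 :=
        mul_ne_zero Polynomial.X_ne_zero hφ'
      have hF1 : ∀ i < m1, (Polynomial.X * Polynomial.derivative φ).coeff i = 0 := by
        intro i hi
        rcases i with _ | i
        · simp
        · rw [Polynomial.coeff_X_mul, hdc, hm1 (i + 1) hi, zero_mul]
      have hF2 : (Polynomial.X * Polynomial.derivative φ).natDegree ≤ m1 + D := by
        rw [Polynomial.natDegree_le_iff_coeff_eq_zero]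
        intro N hN
        rcases N with _ | N
        · simp
        · rw [Polynomial.coeff_X_mul, hdc,
            Polynomial.coeff_eq_zero_of_natDegree_lt (lt_of_le_of_lt hD hN), zero_mul]
      exact ⟨star_key2 g _ hg hgX _ m1 D hF hF1 hF2 (hder.1.mul_left _),
        fun hpd => star_key2 g _ hg hgX _ m1 D hF hF1 hF2 ((hder.2 hpd).mul_left _)⟩
  obtain ⟨hA1, hA2⟩ := hmain
  -- numerical consequences
  have hn1 : (d - 1) * (e * g.natDegree) ≤ d - j1 := by
    calc (d - 1) * (e * g.natDegree) = ((d - 1) * g.natDegree) * e := by ring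
      _ ≤ D * e := Nat.mul_le_mul_right _ hA1
      _ ≤ d - j1 := by omega
  have hd2 : d = 2 := by
    have h1 : (d - 1) * 2 ≤ (d - 1) * (e * g.natDegree) := Nat.mul_le_mul_left _ hef
    omega
  subst hd2
  have hef2 : e * g.natDegree = 2 := by
    have h1 : (2 - 1) * (e * g.natDegree) = e * g.natDegree := by ring
    rw [h1] at hn1
    omega
  have hj1 : j1 = 0 := by
    have h1 : (2 - 1) * (e * g.natDegree) = e * g.natDegree := by ring
    rw [h1, hef2] at hn1
    omega
  subst hj1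
  have hDf : D = g.natDegree := by
    have h1 : g.natDegree ≤ D := by
      have : (2 - 1) * g.natDegree = g.natDegree := by ring
      omega
    have h2 : D * e ≤ g.natDegree * e := by
      rw [Nat.mul_comm g.natDegree e, hef2]
      omega
    have h3 : D ≤ g.natDegree := Nat.le_of_mul_le_mul_right h2 (by omega)
    omega
  have hp2 : p ≠ 2 := by
    intro h2
    have := hA2 (by rw [h2])
    omega
  have hp3 : 3 ≤ p := by
    have := hp.two_le
    omega
  have hder1 : g ∣ Polynomial.derivative φ := by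
    have h1 := hder.1
    simpa using h1
  -- a coefficient which is not a p-th power, if the derivative is zero
  have hB : Polynomial.derivative φ = 0 → ∃ (i : ℕ) (𝔇 : Derivation ℤ (Polynomial C)
      (Polynomial C)) (D0 : Derivation ℤ C C), φ.coeff i ≠ 0 ∧ p ∣ i ∧ D0 (φ.coeff i) = 1 ∧
      (∀ (f : Polynomial C) (i : ℕ), (𝔇 f).coeff i = D0 (f.coeff i)) ∧ g ∣ 𝔇 φ := by
    intro hφ'
    obtain ⟨i, hi⟩ := not_forall.1 hφ
    rw [Classical.not_imp] at hi
    obtain ⟨hi0, hi1⟩ := hi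
    have hpi : p ∣ i := by
      rcases Nat.eq_zero_or_pos i with h0 | h0
      · rw [h0]; exact dvd_zero p
      · obtain ⟨n, rfl⟩ : ∃ n, i = n + 1 := ⟨i - 1, by omega⟩
        have h1 := hdc n
        rw [hφ'] at h1
        rw [Polynomial.coeff_zero] at h1
        rcases mul_eq_zero.1 h1.symm with h2 | h2
        · exact absurd h2 hi0
        · have h3 : ((n + 1 : ℕ) : C) = 0 := by push_cast; exact h2
          exact (CharP.cast_eq_zero_iff C p (n + 1)).1 h3
    have hnb : ¬ ∃ b : C, φ.coeff i = b ^ p := fun hb => hi1 ⟨hpi, hb⟩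
    obtain ⟨D0, hD0⟩ := exists_der p (φ.coeff i) hnb
    obtain ⟨𝔇, h𝔇⟩ := exists_coeff_der D0
    refine ⟨i, 𝔇, D0, hi0, hpi, hD0, h𝔇, ?_⟩
    have h1 := (hXp 𝔇).1
    simpa using h1
  have hcase : (e = 1 ∧ g.natDegree = 2) ∨ (e = 2 ∧ g.natDegree = 1) := by
    have h1 : e ≤ 2 := by
      rw [← hef2]
      exact Nat.le_mul_of_pos_right _ (by omega)
    have h2 : e = 1 ∨ e = 2 := by omega
    rcases h2 with h2 | h2
    · left
      rw [h2] at hef2
      omega
    · right
      rw [h2] at hef2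
      omega
  rcases hcase with ⟨he', hf'⟩ | ⟨he', hf'⟩
  · -- e = 1, f = 2
    have hm0 : m1 = 0 := he1 he'
    have hdeg : φ.natDegree ≤ 2 := by omega
    have hφ' : Polynomial.derivative φ = 0 := by
      by_contra hne
      have h1 := Polynomial.natDegree_le_of_dvd hder1 hne
      have h2 := Polynomial.natDegree_derivative_lt (p := φ) (by
        intro h0
        apply hne
        rw [Polynomial.natDegree_eq_zero] at h0
        obtain ⟨x, hx⟩ := h0
        rw [← hx, Polynomial.derivative_C])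
      omega
    obtain ⟨i, 𝔇, D0, hi0, hpi, hD0, h𝔇, hdvd𝔇⟩ := hB hφ'
    have hi2 : i ≤ 2 := by
      by_contra hlt
      exact hi0 (Polynomial.coeff_eq_zero_of_natDegree_lt (by omega))
    have hi00 : i = 0 := by
      rcases Nat.eq_zero_or_pos i with h0 | h0
      · exact h0
      · have := Nat.le_of_dvd h0 hpi
        omega
    have hF : 𝔇 φ ≠ 0 := by
      intro h0
      have h1 := h𝔇 φ i
      rw [h0, hD0, Polynomial.coeff_zero] at h1
      exact zero_ne_one h1
    have h1 := Polynomial.natDegree_le_of_dvd hdvd𝔇 hF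
    have h2 : (𝔇 φ).natDegree ≤ 0 := by
      rw [Polynomial.natDegree_le_iff_coeff_eq_zero]
      intro N hN
      rw [h𝔇]
      have h3 : φ.coeff N = 0 := by
        by_contra hne
        have hN2 : N ≤ 2 := by
          by_contra hlt
          exact hne (Polynomial.coeff_eq_zero_of_natDegree_lt (by omega))
        obtain ⟨n, rfl⟩ : ∃ n, N = n + 1 := ⟨N - 1, by omega⟩
        have h4 := hdc n
        rw [hφ', Polynomial.coeff_zero] at h4
        rcases mul_eq_zero.1 h4.symm with h5 | h5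
        · exact hne h5
        · have h6 : ((n + 1 : ℕ) : C) = 0 := by push_cast; exact h5
          have h7 := (CharP.cast_eq_zero_iff C p (n + 1)).1 h6
          have := Nat.le_of_dvd (by omega) h7
          omega
      rw [h3, map_zero]
    omega
  · -- e = 2, f = 1
    have hpm : p ∣ m1 := by
      have h1 : (p : ℤ) ∣ (m1 : ℤ) * 2 := by
        have h2 := hmod
        rw [he'] at h2
        have h3 : ((0 : ℕ) : ℤ) - (m1 : ℤ) * ((2 : ℕ) : ℤ) = -((m1 : ℤ) * 2) := by
          push_cast; ring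
        rw [h3] at h2
        exact (dvd_neg).1 h2
      have h2 : p ∣ m1 * 2 := by exact_mod_cast h1
      rcases (Nat.Prime.dvd_mul hp).1 h2 with h3 | h3
      · exact h3
      · exact absurd ((Nat.prime_dvd_prime_iff_eq hp Nat.prime_two).1 h3) hp2
    have hD1 : D = 1 := by omega
    have hm1C : (m1 : C) = 0 := (CharP.cast_eq_zero_iff C p m1).2 hpm
    have hgp : Prime g := hg.prime
    have hgXn : ∀ (c : C) (n : ℕ), c ≠ 0 → ¬ g ∣ Polynomial.C c * Polynomial.X ^ n := by
      intro c n hc h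
      rcases hgp.dvd_or_dvd h with h1 | h1
      · have h2 := Polynomial.natDegree_le_of_dvd h1 (by simpa using hc)
        rw [Polynomial.natDegree_C] at h2
        omega
      · exact hgX (hgp.dvd_of_dvd_pow h1)
    have hdφ : Polynomial.derivative φ = Polynomial.C (φ.coeff (m1 + 1)) * Polynomial.X ^ m1 := by
      ext i
      rw [hdc, Polynomial.coeff_C_mul_X_pow]
      split_ifs with h1
      · rw [h1, hm1C]
        ring
      · by_cases h2 : i + 1 < m1
        · rw [hm1 (i + 1) h2, zero_mul]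
        · by_cases h3 : i + 1 = m1
          · have h4 : ((i : C) + 1) = 0 := by
              have : ((i + 1 : ℕ) : C) = 0 := by rw [h3]; exact hm1C
              push_cast at this
              exact this
            rw [h4, mul_zero]
          · rw [Polynomial.coeff_eq_zero_of_natDegree_lt (by omega), zero_mul]
    have hc0 : φ.coeff (m1 + 1) = 0 := by
      by_contra hne
      rw [hdφ] at hder1
      exact hgXn _ _ hne hder1
    have hφ' : Polynomial.derivative φ = 0 := by
      rw [hdφ, hc0]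
      simp
    obtain ⟨i, 𝔇, D0, hi0, hpi, hD0, h𝔇, hdvd𝔇⟩ := hB hφ'
    have him : i = m1 := by
      by_contra hne
      apply hi0
      by_cases h1 : i < m1
      · exact hm1 i h1
      · by_cases h2 : i = m1 + 1
        · rw [h2]; exact hc0
        · exact Polynomial.coeff_eq_zero_of_natDegree_lt (by omega)
    have hF : 𝔇 φ = Polynomial.C (D0 (φ.coeff m1)) * Polynomial.X ^ m1 := by
      ext l
      rw [h𝔇, Polynomial.coeff_C_mul_X_pow]
      split_ifs with h1
      · rw [h1]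
      · have h2 : φ.coeff l = 0 := by
          by_cases h3 : l < m1
          · exact hm1 l h3
          · by_cases h4 : l = m1 + 1
            · rw [h4]; exact hc0
            · exact Polynomial.coeff_eq_zero_of_natDegree_lt (by omega)
        rw [h2, map_zero]
    rw [hF, ← him, hD0] at hdvd𝔇
    exact hgXn 1 i one_ne_zero hdvd𝔇

end Pool.Agent.Lib.TU
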