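import Mathlib

/-!
# Module PolyU: Taylor coefficients of `p`-type
-/

namespace Pool.Agent.Lib.TU

open Polynomial

/-- a polynomial with `p`-type coefficients is a `p`-th power -/
private theorem polyU_pow {C : Type} [Field C] (p : ℕ) [hp : Fact p.Prime] [CharP C p]
    (q : Polynomial C) (h : ∀ i, q.coeff i ≠ 0 → p ∣ i ∧ ∃ b : C, q.coeff i = b ^ p) :
    ∃ g : Polynomial C, q = g ^ p := by
  classical
  have h1 : ∀ i : ℕ, ∃ b : C, q.coeff i = b ^ p := by
    intro i
    by_cases hi : q.coeff i = 0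
    · exact ⟨0, by rw [hi, zero_pow hp.out.ne_zero]⟩
    · exact (h i hi).2
  choose b hb using h1
  refine ⟨∑ i ∈ q.support, Polynomial.C (b i) * X ^ (i / p), ?_⟩
  rw [sum_pow_char]
  conv_lhs => rw [q.as_sum_support_C_mul_X_pow]
  refine Finset.sum_congr rfl fun i hi => ?_
  have h2 := (h i (mem_support_iff.1 hi)).1
  rw [mul_pow, ← Polynomial.C_pow, ← hb, ← pow_mul, Nat.div_mul_cancel h2]

/-- the coefficients of a `p`-th power are of `p`-type -/
private theorem polyU_coeff {C : Type} [Field C] (p : ℕ) [hp : Fact p.Prime] [CharP C p]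
    (g : Polynomial C) (i : ℕ) (hi : (g ^ p).coeff i ≠ 0) :
    p ∣ i ∧ ∃ b : C, (g ^ p).coeff i = b ^ p := by
  rw [← map_frobenius_expand (R := C) p g, coeff_map] at hi ⊢
  rw [coeff_expand hp.out.pos] at hi ⊢
  by_cases hpi : p ∣ i
  · refine ⟨hpi, g.coeff (i / p), ?_⟩
    rw [if_pos hpi, frobenius_def]
  · rw [if_neg hpi] at hi
    exact absurd (map_zero _) hi

/-- Let `φ` be not in `C^p[T^p]`, `natDegree φ ≤ d`, `d ≥ 1`, `c ≠ 0`, `φ = ∑ t_i (T - c)^i`
(`t_i = (taylor c φ).coeff i`), all terms with `i < d` being of `p`-type (`p ∣ i`, `t_i ∈ C^p`).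
Then the term with `i = d` is not of `p`-type, `φ.coeff d = t_d ≠ 0`, and `φ.coeff 0 ≠ 0` or
`φ.coeff 1 ≠ 0`.
Proof: the sum of the terms with `i < d` is `h ^ p`, `h ∈ C[T]`, so `φ = h ^ p + t_d (T - c)^d`.  If the
last term was of `p`-type (or zero) then `φ` would be a `p`-th power `h1 ^ p`, which is in `C^p[T^p]`
(`Polynomial.expand`, `frobenius`).  `natDegree (h ^ p) < d`, so `φ.coeff d = t_d`.
If `p ∤ d`: `(h ^ p).coeff 1 = 0`, `φ.coeff 1 = d t_d (-c)^(d-1) ≠ 0`.
If `p ∣ d`: `t_d ∉ C^p` and `φ.coeff 0 = h(0)^p + t_d (-c)^d`; if it was zero then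
`t_d = -h(0)^p / (-c)^d` would be a `p`-th power. -/
theorem polyU {C : Type} [Field C] (p : ℕ) [Fact p.Prime] [CharP C p] (c : C) (hc : c ≠ 0)
    (φ : Polynomial C) (hφ : ¬ ∀ i, φ.coeff i ≠ 0 → p ∣ i ∧ ∃ b : C, φ.coeff i = b ^ p) (d : ℕ)
    (hd : 1 ≤ d) (hD : φ.natDegree ≤ d)
    (h : ∀ i < d, (Polynomial.taylor c φ).coeff i ≠ 0 →
      p ∣ i ∧ ∃ b : C, (Polynomial.taylor c φ).coeff i = b ^ p) :
    φ.coeff d ≠ 0 ∧ (Polynomial.taylor c φ).coeff d ≠ 0 ∧
      ¬ (p ∣ d ∧ ∃ b : C, (Polynomial.taylor c φ).coeff d = b ^ p) ∧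
      (φ.coeff 0 ≠ 0 ∨ φ.coeff 1 ≠ 0) := by
  have hp : p.Prime := Fact.out
  -- the whole Taylor polynomial is never of p-type
  have key : ¬ ∀ i, (taylor c φ).coeff i ≠ 0 → p ∣ i ∧ ∃ b : C, (taylor c φ).coeff i = b ^ p := by
    intro hall
    obtain ⟨g, hg⟩ := polyU_pow p (taylor c φ) hall
    apply hφ
    have h1 : φ = (taylor (-c) g) ^ p := by
      have h2 : taylor (-c) (taylor c φ) = φ := by
        rw [taylor_taylor]; simp
      rw [← h2, hg]
      exact map_pow (taylorAlgHom (-c)) g p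
    rw [h1]
    exact fun i hi => polyU_coeff p _ i hi
  have hdeg : (taylor c φ).natDegree ≤ d := by rw [natDegree_taylor]; exact hD
  have htd : (taylor c φ).coeff d ≠ 0 := by
    intro h0
    apply key
    intro i hi
    rcases lt_trichotomy i d with hid | hid | hid
    · exact h i hid hi
    · rw [hid] at hi; exact absurd h0 hi
    · exact absurd (coeff_eq_zero_of_natDegree_lt (lt_of_le_of_lt hdeg hid)) hi
  have hnt : ¬ (p ∣ d ∧ ∃ b : C, (taylor c φ).coeff d = b ^ p) := by
    intro hpt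
    apply key
    intro i hi
    rcases lt_trichotomy i d with hid | hid | hid
    · exact h i hid hi
    · rw [hid]; exact hpt
    · exact absurd (coeff_eq_zero_of_natDegree_lt (lt_of_le_of_lt hdeg hid)) hi
  -- decomposition
  set t := (taylor c φ).coeff d with ht
  obtain ⟨g, hg⟩ := polyU_pow p (taylor c φ - Polynomial.C t * X ^ d) (by
    intro i hi
    rw [coeff_sub, coeff_C_mul_X_pow] at hi ⊢
    rcases lt_trichotomy i d with hid | hid | hid
    · rw [if_neg hid.ne, sub_zero] at hi ⊢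
      exact h i hid hi
    · rw [if_pos hid, hid, ← ht, sub_self] at hi
      exact absurd rfl hi
    · rw [if_neg hid.ne', sub_zero] at hi
      exact absurd (coeff_eq_zero_of_natDegree_lt (lt_of_le_of_lt hdeg hid)) hi)
  have hdec : φ = (taylor (-c) g) ^ p + Polynomial.C t * (X - Polynomial.C c) ^ d := by
    have h2 : taylor (-c) (taylor c φ) = φ := by
      rw [taylor_taylor]; simp
    have h3 : taylor c φ = g ^ p + Polynomial.C t * X ^ d := by rw [← hg]; ring
    rw [← h2, h3]
    change taylorAlgHom (-c) (g ^ p + Polynomial.C t * X ^ d) = _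
    rw [map_add, map_mul, map_pow, map_pow]
    simp only [taylorAlgHom_apply, taylor_C, taylor_X]
    rw [map_neg, ← sub_eq_add_neg]
  have hcd : φ.coeff d = t := by
    have h4 : (taylor c φ).coeff d = φ.coeff d := by
      rcases eq_or_lt_of_le hD with h5 | h5
      · have := leadingCoeff_taylor (r := c) (f := φ)
        rw [leadingCoeff, leadingCoeff, natDegree_taylor, h5] at this
        exact this
      · rw [coeff_eq_zero_of_natDegree_lt h5, coeff_eq_zero_of_natDegree_lt (by rw [natDegree_taylor]; exact h5)]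
    rw [← h4]
  refine ⟨by rw [hcd]; exact htd, htd, hnt, ?_⟩
  by_contra hcon
  push Not at hcon
  obtain ⟨hc0, hc1⟩ := hcon
  by_cases hpd : p ∣ d
  · apply hnt
    refine ⟨hpd, ?_⟩
    obtain ⟨e, he⟩ := hpd
    have h6 : φ.coeff 0 = ((taylor (-c) g).coeff 0) ^ p + t * (-c) ^ d := by
      conv_lhs => rw [hdec]
      rw [coeff_zero_eq_eval_zero, coeff_zero_eq_eval_zero]
      simp
    have h7 : t * (-c) ^ d = - ((taylor (-c) g).coeff 0) ^ p := by
      rw [hc0] at h6
      linear_combination -h6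
    have h8 : t = (- ((taylor (-c) g).coeff 0) / (-c) ^ e) ^ p := by
      have hcd0 : (-c) ^ d ≠ 0 := pow_ne_zero _ (neg_ne_zero.2 hc)
      rw [div_pow, ← pow_mul, mul_comm e p, ← he, eq_div_iff hcd0, h7]
      rcases hp.eq_two_or_odd' with h9 | h9
      · subst h9
        have h10 : (2 : C) = 0 := by exact_mod_cast CharP.cast_eq_zero C 2
        linear_combination -((taylor (-c) g).coeff 0) ^ 2 * h10
      · rw [h9.neg_pow]
    exact ⟨_, h8⟩
  · have h6 : φ.coeff 1 = (derivative φ).coeff 0 := by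
      rw [coeff_derivative]; simp
    have h7 : derivative φ = Polynomial.C t * (Polynomial.C (d : C) * (X - Polynomial.C c) ^ (d - 1)) := by
      conv_lhs => rw [hdec]
      rw [derivative_add, derivative_pow, CharP.cast_eq_zero, map_zero, zero_mul, zero_mul, zero_add,
        derivative_C_mul, derivative_X_sub_C_pow]
    rw [hc1, h7, coeff_zero_eq_eval_zero] at h6
    simp only [eval_mul, eval_C, eval_pow, eval_sub, eval_X, zero_sub] at h6
    have hdC : (d : C) ≠ 0 := by
      rw [Ne, CharP.cast_eq_zero_iff C p]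
      exact hpd
    exact (mul_ne_zero htd (mul_ne_zero hdC (pow_ne_zero _ (neg_ne_zero.2 hc)))) h6.symm

end Pool.Agent.Lib.TU
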