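import Pool.Agent.Lib.TU.Defs
import Pool.Agent.Lib.TDO.Cl
import Pool.Agent.Lib.TDO.Ambient

/-!
# Module AmbW: the ambient field

Follow `Pool/Agent/Lib/TDO/Ambient.lean`: `W` is the algebraic closure of the completion `F̂` of `F`
with the spectral norm.  `unit`: clear.  `rank`: a nonzero element `w` of `W` is algebraic over `F̂`, so
`‖w‖^n ∈ ‖F̂^*‖ = ‖F^*‖` for some `n ≥ 1` (two terms of its minimal equation have the same norm); apply
`hF.rank` to elements of `F` with norms `‖z i‖^n` (common `n`).
`res`: let `z : Fin (m + 1) → W` of norm `≤ 1`.  The residue of `z i` is algebraic over the residue field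
of `F̂`, which is that of `F` (`F` dense): there is a monic polynomial `h_i` over `F` with
coefficients of norm `≤ 1` and `‖h_i(z i)‖ < 1` (the minimal polynomial over `F̂` has
coefficients of norm `≤ 1`, approximate them by elements of `F`).  Suppose that `‖P(z)‖ = 1` (not `< 1`)
for all nonzero `P` over `k`: the residues of the `z i` (in the residue field `κ_W` of `W`, an
extension of `k`) are algebraically independent over `k`, and algebraic over the residue field
`κ_F` of `F`, so the transcendence degree of `κ_F` over `k` is `≥ m + 1`; lift `m + 1` algebraically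
independent residues of `κ_F` to `F`: contradiction to `hF.res`.
`W` is algebraic over `F̂ = ` the closure of `ι F`.
-/

namespace Pool.Agent.Lib.TU

open Pool.Agent.Lib.MP_3029eb_ag Pool.Agent.Lib.MP_3029eb_ag.Abh Pool.Agent.Lib.TDO
open Polynomial

private theorem ambW_norm_mon {L : Type} [NormedField L] {r : ℕ} (u : Fin r → L)
    (a : Fin r → ℤ) : ‖mon u a‖ = ∏ i, ‖u i‖ ^ a i := by
  unfold mon
  rw [norm_prod]
  exact Finset.prod_congr rfl fun i _ => norm_zpow _ _

private theorem ambW_le_one {k W : Type} [Field k] [NormedField W] [IsUltrametricDist W]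
    [Algebra k W] (hu : ∀ c : k, c ≠ 0 → ‖algebraMap k W c‖ = 1) (c : k) :
    ‖algebraMap k W c‖ ≤ 1 := by
  by_cases hc : c = 0
  · rw [hc, map_zero, norm_zero]; exact zero_le_one
  · exact (hu c hc).le

private theorem ambW_sub_lt {k W : Type} [Field k] [NormedField W] [IsUltrametricDist W]
    [Algebra k W] (hu : ∀ c : k, c ≠ 0 → ‖algebraMap k W c‖ = 1) {n : ℕ} (z f : Fin n → W)
    (hz : ∀ i, ‖z i‖ ≤ 1) (hf : ∀ i, ‖f i‖ ≤ 1) (hd : ∀ i, ‖z i - f i‖ < 1)
    (P : MvPolynomial (Fin n) k) : ‖MvPolynomial.aeval f P‖ ≤ 1 ∧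
      ‖MvPolynomial.aeval z P - MvPolynomial.aeval f P‖ < 1 := by
  induction P using MvPolynomial.induction_on with
  | C c =>
    rw [MvPolynomial.aeval_C, MvPolynomial.aeval_C, sub_self, norm_zero]
    exact ⟨ambW_le_one hu c, one_pos⟩
  | add p q hp hq =>
    rw [map_add, map_add]
    refine ⟨(IsUltrametricDist.norm_add_le_max _ _).trans (max_le hp.1 hq.1), ?_⟩
    rw [add_sub_add_comm]
    exact (IsUltrametricDist.norm_add_le_max _ _).trans_lt (max_lt hp.2 hq.2)
  | mul_X p i hp =>
    rw [map_mul, map_mul, MvPolynomial.aeval_X, MvPolynomial.aeval_X]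
    refine ⟨?_, ?_⟩
    · rw [norm_mul]
      exact mul_le_one₀ hp.1 (norm_nonneg _) (hf i)
    · have h1 : MvPolynomial.aeval z p * z i - MvPolynomial.aeval f p * f i =
          (MvPolynomial.aeval z p - MvPolynomial.aeval f p) * z i +
            MvPolynomial.aeval f p * (z i - f i) := by ring
      rw [h1]
      refine (IsUltrametricDist.norm_add_le_max _ _).trans_lt (max_lt ?_ ?_)
      · rw [norm_mul]
        exact (mul_le_of_le_one_right (norm_nonneg _) (hz i)).trans_lt hp.2
      · rw [norm_mul]
        exact (mul_le_of_le_one_left (norm_nonneg _) hp.1).trans_lt (hd i)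

/-- A dense extension has the same residue field and value group. -/
private theorem ambW_dense {k F K : Type} [Field k] [NormedField F] [NormedField K]
    [IsUltrametricDist K] [Algebra k F] [Algebra k K] (j : F →+* K)
    (hj : ∀ z, ‖j z‖ = ‖z‖) (hjk : ∀ c : k, j (algebraMap k F c) = algebraMap k K c)
    (hd : ∀ z : K, ∀ ε : ℝ, 0 < ε → ∃ f : F, ‖z - j f‖ < ε) {r m : ℕ} (hF : AmbG r m k F) :
    AmbG r m k K := by
  have hunit : ∀ c : k, c ≠ 0 → ‖algebraMap k K c‖ = 1 := by
    intro c hc
    rw [← hjk, hj]
    exact hF.unit c hc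
  refine ⟨hunit, fun z hz => ?_, fun z hz => ?_⟩
  · have h1 : ∀ i, ∃ f : F, ‖z i - j f‖ < ‖z i‖ := fun i => hd (z i) _ (norm_pos_iff.mpr (hz i))
    choose f hf using h1
    have h2 : ∀ i, ‖f i‖ = ‖z i‖ := by
      intro i
      rw [← hj]
      have h3 : j (f i) = z i + -(z i - j (f i)) := by ring
      rw [h3]
      have h4 : ‖-(z i - j (f i))‖ < ‖z i‖ := by rw [norm_neg]; exact hf i
      rw [IsUltrametricDist.norm_add_eq_max_of_norm_ne_norm h4.ne']
      exact max_eq_left h4.le
    obtain ⟨a, ha, ha1⟩ := hF.rank f fun i => norm_pos_iff.mp (by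
      rw [h2]; exact norm_pos_iff.mpr (hz i))
    refine ⟨a, ha, ?_⟩
    rw [ambW_norm_mon] at ha1 ⊢
    rw [← ha1]
    exact Finset.prod_congr rfl fun i _ => by rw [h2]
  · have h1 : ∀ i, ∃ f : F, ‖z i - j f‖ < 1 := fun i => hd (z i) 1 one_pos
    choose f hf using h1
    have h2 : ∀ i, ‖f i‖ ≤ 1 := by
      intro i
      rw [← hj]
      have h3 : j (f i) = z i + -(z i - j (f i)) := by ring
      rw [h3]
      exact (IsUltrametricDist.norm_add_le_max _ _).trans
        (max_le (hz i) (by rw [norm_neg]; exact (hf i).le))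
    obtain ⟨P, hP, hP1⟩ := hF.res f h2
    refine ⟨P, hP, ?_⟩
    have h3 := (ambW_sub_lt hunit z (fun i => j (f i)) hz (fun i => by rw [hj]; exact h2 i)
      hf P).2
    have h4 : MvPolynomial.aeval (fun i => j (f i)) P = j (MvPolynomial.aeval f P) := by
      rw [MvPolynomial.aeval_def, MvPolynomial.aeval_def, MvPolynomial.eval₂_comp_left]
      congr 1
      ext c
      exact (hjk c).symm
    have h5 : MvPolynomial.aeval z P = (MvPolynomial.aeval z P -
        MvPolynomial.aeval (fun i => j (f i)) P) + j (MvPolynomial.aeval f P) := by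
      rw [← h4]; ring
    rw [h5]
    exact (IsUltrametricDist.norm_add_le_max _ _).trans_lt (max_lt h3 (by rw [hj]; exact hP1))

/-- Transcendence degrees of algebraic extensions. -/
private theorem ambW_trd {k κ κ' : Type} [Field k] [Field κ] [Field κ'] [Algebra k κ]
    [Algebra κ κ'] [Algebra k κ'] [IsScalarTower k κ κ'] [Algebra.IsAlgebraic κ κ'] {m : ℕ}
    (h : ∀ z : Fin (m + 1) → κ, ¬ AlgebraicIndependent k z) (z : Fin (m + 1) → κ') :
    ¬ AlgebraicIndependent k z := by
  intro hz
  have h1 := hz.cardinalMk_le_trdeg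
  have h2 : Algebra.trdeg k κ' = Algebra.trdeg k κ := by
    rw [← trdeg_add_eq k κ (A := κ'), trdeg_eq_zero (R := κ) (A := κ'), add_zero]
  rw [h2] at h1
  obtain ⟨ι, x, hx⟩ := exists_isTranscendenceBasis' k κ
  rw [← hx.cardinalMk_eq_trdeg, Cardinal.le_def] at h1
  obtain ⟨e⟩ := h1
  exact h (x ∘ e) (hx.1.comp e e.injective)

/-- the residue of an element of the ball vanishes iff its norm is less than one -/
private theorem ambW_res_zero {K : Type} [NormedField K] [IsUltrametricDist K] (a : ball K) :
    IsLocalRing.residue (ball K) a = 0 ↔ ‖(a : K)‖ < 1 := by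
  rw [IsLocalRing.residue_eq_zero_iff, ← ball_val_lt_one, (ball K).valuation_lt_one_iff]

/-- the constants -/
private noncomputable def ambW_f {k K : Type} [Field k] [NormedField K] [IsUltrametricDist K]
    [Algebra k K] (hu : ∀ c : k, c ≠ 0 → ‖algebraMap k K c‖ = 1) : k →+* ball K :=
  (algebraMap k K).codRestrict (ball K).toSubring fun c => ambW_le_one hu c

private theorem ambW_ev {k K : Type} [Field k] [NormedField K] [IsUltrametricDist K]
    [Algebra k K] (hu : ∀ c : k, c ≠ 0 → ‖algebraMap k K c‖ = 1) {n : ℕ} (z : Fin n → ball K)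
    (P : MvPolynomial (Fin n) k) :
    ((MvPolynomial.eval₂ (ambW_f hu) z P : ball K) : K) =
      MvPolynomial.aeval (fun i => (z i : K)) P := by
  have h := MvPolynomial.eval₂_comp_left (ball K).subtype (ambW_f hu) z P
  exact h

/-- An algebraic extension with the spectral norm. -/
private theorem ambW_alg {k K W : Type} [Field k] [NormedField K] [IsUltrametricDist K]
    [NormedField W] [IsUltrametricDist W] [Algebra k K] [Algebra K W] [Algebra k W]
    [IsScalarTower k K W] (hext : ∀ z : K, ‖algebraMap K W z‖ = ‖z‖)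
    (halg : ∀ z : W, IsIntegral K z)
    (hcoef : ∀ z : W, ‖z‖ ≤ 1 → ∀ j, ‖(minpoly K z).coeff j‖ ≤ 1)
    (hpow : ∀ z : W, z ≠ 0 → ∃ n : ℕ, 0 < n ∧ ∃ a : K, a ≠ 0 ∧ ‖z‖ ^ n = ‖a‖)
    {r m : ℕ} (hK : AmbG r m k K) : AmbG r m k W := by
  have hunit : ∀ c : k, c ≠ 0 → ‖algebraMap k W c‖ = 1 := by
    intro c hc
    rw [IsScalarTower.algebraMap_apply k K W, hext]
    exact hK.unit c hc
  refine ⟨hunit, fun z hz => ?_, fun z hz => ?_⟩
  · have h1 : ∀ i, ∃ n : ℕ, 0 < n ∧ ∃ a : K, a ≠ 0 ∧ ‖z i‖ ^ n = ‖a‖ := fun i => hpow (z i) (hz i)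
    choose n hn a ha hna using h1
    obtain ⟨b, hb, hb1⟩ := hK.rank a ha
    refine ⟨fun i => (n i : ℤ) * b i, fun h0 => hb ?_, ?_⟩
    · funext i
      have h2 := congrFun h0 i
      rw [Pi.zero_apply] at h2 ⊢
      rcases mul_eq_zero.mp h2 with h3 | h3
      · exact absurd h3 (by exact_mod_cast (hn i).ne')
      · exact h3
    · rw [ambW_norm_mon] at hb1 ⊢
      rw [← hb1]
      exact Finset.prod_congr rfl fun i _ => by rw [← hna, zpow_mul, zpow_natCast]
  · -- the residue fields
    let g : ball K →+* ball W := ((algebraMap K W).comp (ball K).subtype).codRestrict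
      (ball W).toSubring fun c => by
        change ‖algebraMap K W (c : K)‖ ≤ 1
        rw [hext]
        exact c.2
    have hg : ∀ a : ball K, ((g a : ball W) : W) = algebraMap K W (a : K) := fun a => rfl
    have hloc : IsLocalHom g := by
      refine ⟨fun a ha => ?_⟩
      by_contra hna
      have h1 : a ∈ IsLocalRing.maximalIdeal (ball K) := hna
      have h2 : ‖(a : K)‖ < 1 := by
        rw [← ambW_res_zero, IsLocalRing.residue_eq_zero_iff]
        exact h1
      have h3 : g a ∈ IsLocalRing.maximalIdeal (ball W) := by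
        rw [← IsLocalRing.residue_eq_zero_iff, ambW_res_zero, hg, hext]
        exact h2
      exact h3 ha
    let κ := IsLocalRing.ResidueField (ball K)
    let κ' := IsLocalRing.ResidueField (ball W)
    let φ : k →+* κ := (IsLocalRing.residue (ball K)).comp (ambW_f hK.unit)
    let ψ : κ →+* κ' := IsLocalRing.ResidueField.map g
    have hψ : ∀ a : ball K, ψ (IsLocalRing.residue (ball K) a) =
        IsLocalRing.residue (ball W) (g a) := fun a => rfl
    let _ : Algebra k κ := φ.toAlgebra
    let _ : Algebra κ κ' := ψ.toAlgebra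
    let _ : Algebra k κ' := (ψ.comp φ).toAlgebra
    have : IsScalarTower k κ κ' := IsScalarTower.of_algebraMap_eq fun _ => rfl
    have hkW : (ψ.comp φ) = (IsLocalRing.residue (ball W)).comp (ambW_f hunit) := by
      ext c
      change ψ (IsLocalRing.residue (ball K) (ambW_f hK.unit c)) =
        IsLocalRing.residue (ball W) (ambW_f hunit c)
      rw [hψ]
      congr 1
      apply Subtype.ext
      rw [hg]
      exact (IsScalarTower.algebraMap_apply k K W c).symm
    have : Algebra.IsAlgebraic κ κ' := by
      refine ⟨fun w => ?_⟩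
      obtain ⟨w, rfl⟩ := IsLocalRing.residue_surjective w
      have hw1 : ‖(w : W)‖ ≤ 1 := w.2
      set q := minpoly K (w : W) with hq
      set n := q.natDegree with hn
      have hgm : q.Monic := minpoly.monic (halg _)
      let c : ℕ → ball K := fun j => ⟨q.coeff j, hcoef _ hw1 j⟩
      let q0 : κ[X] := X ^ n + ∑ i : Fin n, C (IsLocalRing.residue (ball K) (c i)) * X ^ (i : ℕ)
      have hq0 : q0.Monic := monic_X_pow_add (degree_sum_fin_lt _)
      refine ⟨q0, hq0.ne_zero, ?_⟩
      have h3 : (0 : ball W) = w ^ n + ∑ i : Fin n, g (c i) * w ^ (i : ℕ) := by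
        apply Subtype.ext
        have h4 : aeval (w : W) q = 0 := minpoly.aeval K (w : W)
        rw [aeval_eq_sum_range, Finset.sum_range_succ, ← hn] at h4
        have h5 : q.coeff n = 1 := hgm.coeff_natDegree
        rw [h5, one_smul, Finset.sum_range] at h4
        have h6 : ((w ^ n + ∑ i : Fin n, g (c i) * w ^ (i : ℕ) : ball W) : W) =
            (w : W) ^ n + ∑ i : Fin n, algebraMap K W (q.coeff i) * (w : W) ^ (i : ℕ) := by
          push_cast
          rfl
        rw [h6]
        change (0 : W) = _
        rw [← h4, add_comm]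
        congr 1
        exact Finset.sum_congr rfl fun i _ => by rw [Algebra.smul_def]
      have h7 : aeval (IsLocalRing.residue (ball W) w) q0 = IsLocalRing.residue (ball W)
          (w ^ n + ∑ i : Fin n, g (c i) * w ^ (i : ℕ)) := by
        change aeval _ (X ^ n + ∑ i : Fin n, C (IsLocalRing.residue (ball K) (c i)) *
          X ^ (i : ℕ)) = _
        rw [map_add, map_pow, aeval_X, map_sum, map_add, map_pow, map_sum]
        congr 1
        refine Finset.sum_congr rfl fun i _ => ?_
        rw [map_mul, map_pow, aeval_X, aeval_C, map_mul, map_pow]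
        rfl
      rw [h7, ← h3, map_zero]
    have hh : ∀ y : Fin (m + 1) → κ, ¬ AlgebraicIndependent k y := by
      intro y hy
      have h1 : ∀ i, ∃ a : ball K, IsLocalRing.residue (ball K) a = y i := fun i =>
        IsLocalRing.residue_surjective (y i)
      choose a ha using h1
      obtain ⟨P, hP, hP1⟩ := hK.res (fun i => (a i : K)) fun i => (a i).2
      apply hP
      rw [algebraicIndependent_iff] at hy
      refine hy P ?_
      have h2 : MvPolynomial.aeval y P = IsLocalRing.residue (ball K)
          (MvPolynomial.eval₂ (ambW_f hK.unit) a P) := by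
        rw [MvPolynomial.eval₂_comp_left, MvPolynomial.aeval_def]
        have h3 : y = IsLocalRing.residue (ball K) ∘ a := by
          funext i; exact (ha i).symm
        rw [h3]
        rfl
      rw [h2, ambW_res_zero, ambW_ev]
      exact hP1
    let z' : Fin (m + 1) → ball W := fun i => ⟨z i, hz i⟩
    have h1 := ambW_trd hh fun i => IsLocalRing.residue (ball W) (z' i)
    rw [algebraicIndependent_iff] at h1
    push Not at h1
    obtain ⟨P, hP, hP0⟩ := h1
    refine ⟨P, hP0, ?_⟩
    have h2 : MvPolynomial.aeval (fun i => IsLocalRing.residue (ball W) (z' i)) P =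
        IsLocalRing.residue (ball W) (MvPolynomial.eval₂ (ambW_f hunit) z' P) := by
      rw [MvPolynomial.eval₂_comp_left, MvPolynomial.aeval_def, ← hkW]
      rfl
    rw [h2, ambW_res_zero, ambW_ev] at hP
    exact hP

private theorem ambW_ultra {F : Type} [NormedField F] [IsUltrametricDist F] :
    IsUltrametricDist (UniformSpace.Completion F) := by
  refine IsUltrametricDist.isUltrametricDist_of_forall_norm_add_le_max_norm fun x y => ?_
  refine UniformSpace.Completion.induction_on₂ x y ?_ fun a b => ?_
  · exact isClosed_le ((continuous_fst.add continuous_snd).norm)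
      (continuous_fst.norm.max continuous_snd.norm)
  · rw [← UniformSpace.Completion.coe_add, UniformSpace.Completion.norm_coe,
      UniformSpace.Completion.norm_coe, UniformSpace.Completion.norm_coe]
    exact IsUltrametricDist.norm_add_le_max a b

/-- The algebraic closure of a complete field. -/
private theorem ambW_complete {k K : Type} [Field k] [NontriviallyNormedField K]
    [IsUltrametricDist K] [CompleteSpace K] [Algebra k K] {r m : ℕ} (hK : AmbG r m k K) :
    ∃ (W : Type) (_ : NontriviallyNormedField W) (_ : IsUltrametricDist W) (_ : Algebra k W)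
      (_ : IsAlgClosed W) (ι : K →ₐ[k] W), (∀ z, ‖ι z‖ = ‖z‖) ∧ AmbG r m k W ∧
      ∀ z : W, ∃ q : K[X], q ≠ 0 ∧ q.eval₂ (ι : K →+* W) z = 0 := by
  let W := AlgebraicClosure K
  let nf : NontriviallyNormedField W := spectralNorm.nontriviallyNormedField K W
  have hnorm : ∀ z : W, ‖z‖ = spectralNorm K W z := fun z => rfl
  have hu : IsUltrametricDist W := by
    refine IsUltrametricDist.isUltrametricDist_of_forall_norm_add_le_max_norm fun x y => ?_
    rw [hnorm, hnorm, hnorm]
    exact isNonarchimedean_spectralNorm x y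
  have hamb : AmbG r m k W := by
    refine ambW_alg (K := K) (fun z => ?_) (fun z => ?_) (fun z hz j => ?_) (fun z hz => ?_) hK
    · exact spectralNorm_extends z
    · exact (Algebra.IsAlgebraic.isAlgebraic (R := K) z).isIntegral
    · have h1 : spectralValue (minpoly K z) ≤ 1 := hz
      exact (spectralValue_le_one_iff
        (minpoly.monic (Algebra.IsAlgebraic.isAlgebraic (R := K) z).isIntegral)).mp h1 j
    · have hint : IsIntegral K z := (Algebra.IsAlgebraic.isAlgebraic (R := K) z).isIntegral
      have hn : 0 < (minpoly K z).natDegree := minpoly.natDegree_pos hint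
      refine ⟨(minpoly K z).natDegree, hn, (minpoly K z).coeff 0,
        minpoly.coeff_zero_ne_zero hint hz, ?_⟩
      have h1 := spectralNorm.spectralNorm_eq_norm_coeff_zero_rpow K W z
      rw [hnorm, h1, ← Real.rpow_natCast, ← Real.rpow_mul (norm_nonneg _), one_div,
        inv_mul_cancel₀ (by exact_mod_cast hn.ne'), Real.rpow_one]
  refine ⟨W, nf, hu, inferInstance, inferInstance, IsScalarTower.toAlgHom k K W,
    fun z => spectralNorm_extends z, hamb, fun z => ?_⟩
  obtain ⟨q, hq, hq0⟩ := Algebra.IsAlgebraic.isAlgebraic (R := K) z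
  exact ⟨q, hq, hq0⟩

/-- See the header. -/
theorem exists_ambW {k F : Type} [Field k] [NontriviallyNormedField F]
    [IsUltrametricDist F] [Algebra k F] {r m : ℕ} (hF : AmbG r m k F) :
    ∃ (W : Type) (_ : NontriviallyNormedField W) (_ : IsUltrametricDist W) (_ : Algebra k W)
      (_ : IsAlgClosed W) (ι : F →ₐ[k] W), (∀ z, ‖ι z‖ = ‖z‖) ∧ AmbG r m k W ∧
      IsComplete ((cl ι.fieldRange : IntermediateField k W) : Set W) ∧
      ∀ z : W, IsAlgebraic (cl ι.fieldRange : IntermediateField k W) z := by
  let Fc := UniformSpace.Completion F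
  let j : F →+* Fc := UniformSpace.Completion.coeRingHom
  have hj : ∀ z, ‖j z‖ = ‖z‖ := fun z => UniformSpace.Completion.norm_coe z
  let nf : NontriviallyNormedField Fc :=
    { (inferInstance : NormedField Fc) with
      non_trivial := by
        obtain ⟨x, hx⟩ := NontriviallyNormedField.non_trivial (α := F)
        exact ⟨j x, by rw [hj]; exact hx⟩ }
  have hu : IsUltrametricDist Fc := ambW_ultra
  let alg : Algebra k Fc := (j.comp (algebraMap k F)).toAlgebra
  have hd : ∀ z : Fc, ∀ ε : ℝ, 0 < ε → ∃ f : F, ‖z - j f‖ < ε := by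
    intro z ε hε
    obtain ⟨f, hf⟩ := (Metric.denseRange_iff.mp
      (UniformSpace.Completion.denseRange_coe (α := F))) z ε hε
    exact ⟨f, by rw [← dist_eq_norm]; exact hf⟩
  have hK : AmbG r m k Fc := ambW_dense (k := k) (F := F) (K := Fc) j hj (fun c => rfl) hd hF
  obtain ⟨W, nfW, huW, algW, hac, ι, hι, hamb, halg⟩ := ambW_complete hK
  let j' : F →ₐ[k] Fc := { j with commutes' := fun c => rfl }
  -- the closure of the image of `F` is the image of the completion
  have hmem : ∀ z : Fc, ι z ∈ (cl (ι.comp j').fieldRange : IntermediateField k W) := by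
    intro z
    rw [mem_cl_iff]
    intro ε hε
    obtain ⟨f, hf⟩ := hd z ε hε
    refine ⟨ι (j f), ⟨f, rfl⟩, ?_⟩
    rw [← map_sub, hι]
    exact hf
  have hiso : Isometry ι := AddMonoidHomClass.isometry_of_norm ι hι
  have h1 : IsComplete (Set.range ι) := by
    rw [← Set.image_univ]
    exact (isComplete_image_iff hiso.isUniformInducing).mpr
      (completeSpace_iff_isComplete_univ.mp inferInstance)
  have h2 : ((cl (ι.comp j').fieldRange : IntermediateField k W) : Set W) = Set.range ι := by
    apply Set.Subset.antisymm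
    · change closure (((ι.comp j').fieldRange : IntermediateField k W) : Set W) ⊆ Set.range ι
      refine closure_minimal ?_ h1.isClosed
      rintro _ ⟨z, rfl⟩
      exact ⟨j' z, rfl⟩
    · rintro _ ⟨z, rfl⟩
      exact hmem z
  refine ⟨W, nfW, huW, algW, hac, ι.comp j', fun z => ?_, hamb, ?_, fun z => ?_⟩
  · rw [AlgHom.comp_apply, hι]
    exact hj z
  · rw [h2]
    exact h1
  · obtain ⟨q, hq, hq0⟩ := halg z
    let ι' : Fc →+* (cl (ι.comp j').fieldRange : IntermediateField k W) :=
      (ι : Fc →+* W).codRestrict (cl (ι.comp j').fieldRange : IntermediateField k W).toSubring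
        hmem
    refine ⟨q.map ι', ?_, ?_⟩
    · exact (Polynomial.map_ne_zero_iff ι'.injective).2 hq
    · rw [aeval_def, eval₂_map]
      exact hq0

end Pool.Agent.Lib.TU
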