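import Pool.Agent.Lib.TU.HOb
import Pool.Agent.Lib.TDO.Ev

/-!
# Module HOApp: approximation of elements of `HO M c` by Laurent polynomials

For all `N`, `J`: `z = P(x, y) + x^N h1 + y^J h2`.
Proof.  Let `B` be a model containing `z`.  `B = C + (x', y) B` (`Mdl.dec_all`), so by induction on `n`:
`z = P_n(x', y) + i_n`, `P_n` a polynomial over `C` in `x', y`, `i_n ∈ ((x', y) B)^n`.  An element of
`((x', y)B)^n` is `∑_(|b| + j = n) x'^b y^j t`; if `j ≥ J` the term is in `y^J HO`, otherwise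
`|b| ≥ n - J` is large, so `‖x'^b‖ ≤ (max ‖x'_i‖)^(n-J) ≤ ‖x^N‖` and the term is in `x^N HO`.
The monomials in `x'` are monomials in `x`.
The exponents of `P` have norm `≤ 1`.
-/

namespace Pool.Agent.Lib.TU

open Pool.Agent.Lib.MP_3029eb_ag Pool.Agent.Lib.MP_3029eb_ag.Abh Pool.Agent.Lib.TDO

section
variable {k W : Type} [Field k] [NormedField W] [IsUltrametricDist W] [Algebra k W] {r m : ℕ}
  {M : IntermediateField k W} {c : Tri k W r} {N : Fin r → ℤ} {J : ℕ}

/-- the approximated elements -/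
private def happS (M : IntermediateField k W) (c : Tri k W r) (N : Fin r → ℤ) (J : ℕ) (z : W) :
    Prop :=
  ∃ P : LP c.C r, (∀ a j, P.coeff (a, j) ≠ 0 → ‖mon c.x a‖ ≤ 1) ∧
    ∃ h1 ∈ HO M c, ∃ h2 ∈ HO M c, z = ev c.x c.y P + mon c.x N * h1 + c.y ^ J * h2

private theorem happ_add {z z' : W} (h : happS M c N J z) (h' : happS M c N J z') :
    happS M c N J (z + z') := by
  obtain ⟨P, hP, h1, hh1, h2, hh2, rfl⟩ := h
  obtain ⟨P', hP', h1', hh1', h2', hh2', rfl⟩ := h'
  refine ⟨P + P', ?_, h1 + h1', add_mem hh1 hh1', h2 + h2', add_mem hh2 hh2', ?_⟩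
  · intro a j h0
    by_cases h : P.coeff (a, j) = 0
    · refine hP' a j fun h' => h0 ?_
      rw [AddMonoidAlgebra.coeff_add, Finsupp.add_apply, h, h', add_zero]
    · exact hP a j h
  · rw [ev_add]
    ring

private theorem happ_HO1 {z : W} (hz : z ∈ HO M c) : happS M c N J (mon c.x N * z) := by
  refine ⟨0, fun a j h => absurd ?_ h, z, hz, 0, zero_mem _, ?_⟩
  · rw [AddMonoidAlgebra.coeff_zero]
    rfl
  · rw [ev_zero, zero_add, mul_zero, add_zero]

private theorem happ_HO2 {z : W} (hz : z ∈ HO M c) : happS M c N J (c.y ^ J * z) := by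
  refine ⟨0, fun a j h => absurd ?_ h, 0, zero_mem _, z, hz, ?_⟩
  · rw [AddMonoidAlgebra.coeff_zero]
    rfl
  · rw [ev_zero, zero_add, mul_zero, zero_add]

private theorem happ_zero : happS M c N J 0 := by
  have h := happ_HO1 (M := M) (c := c) (N := N) (J := J) (zero_mem _)
  rwa [mul_zero] at h

private theorem happ_sum {ι : Type} (S : Finset ι) (f : ι → W)
    (h : ∀ i ∈ S, happS M c N J (f i)) : happS M c N J (∑ i ∈ S, f i) := by
  classical
  induction S using Finset.induction_on with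
  | empty => exact happ_zero
  | insert a S ha ih =>
    rw [Finset.sum_insert ha]
    exact happ_add (h a (Finset.mem_insert_self _ _))
      (ih fun i hi => h i (Finset.mem_insert_of_mem hi))

private theorem happ_mon {e : W} (he : e ∈ c.C) {a : Fin r → ℤ} (ha : ‖mon c.x a‖ ≤ 1) (j : ℕ) :
    happS M c N J (e * (mon c.x a * c.y ^ j)) := by
  refine ⟨AddMonoidAlgebra.single (a, j) ⟨e, he⟩, fun a' j' h => ?_, 0, zero_mem _, 0,
    zero_mem _, ?_⟩
  · rw [AddMonoidAlgebra.coeff_single, Finsupp.single_apply] at h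
    split_ifs at h with h1
    · rw [Prod.mk.injEq] at h1
      rw [← h1.1]
      exact ha
    · exact absurd rfl h
  · rw [ev_single, mul_zero, mul_zero, add_zero, add_zero]
    rfl

private theorem happ_monN {W : Type} [Field W] {r : ℕ} (x : Fin r → W) (b : Fin r → ℕ) :
    monN x b = mon x fun i => (b i : ℤ) := by
  unfold monN mon
  exact Finset.prod_congr rfl fun i _ => (zpow_natCast _ _).symm

private theorem happ_monN_single {W : Type} [Field W] {r : ℕ} (x : Fin r → W) (b : Fin r → ℕ)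
    (i : Fin r) : monN x (b + Pi.single i 1) = monN x b * x i := by
  unfold monN
  simp only [Pi.add_apply, pow_add]
  rw [Finset.prod_mul_distrib]
  congr 1
  rw [Finset.prod_eq_single i]
  · rw [Pi.single_eq_same, pow_one]
  · intro j _ hj
    rw [Pi.single_eq_of_ne hj, pow_zero]
  · intro h
    exact absurd (Finset.mem_univ i) h

private theorem happ_norm {W : Type} [NormedField W] {r : ℕ} (x : Fin r → W) (b : Fin r → ℕ)
    {ρ : ℝ} (h : ∀ i, ‖x i‖ ≤ ρ) : ‖monN x b‖ ≤ ρ ^ (∑ i, b i) := by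
  unfold monN
  rw [norm_prod, ← Finset.prod_pow_eq_pow_sum]
  refine Finset.prod_le_prod (fun i _ => norm_nonneg _) fun i _ => ?_
  rw [norm_pow]
  exact pow_le_pow_left₀ (norm_nonneg _) (h i) _

private theorem happ_sum_single {r : ℕ} (b : Fin r → ℕ) (i : Fin r) :
    ∑ j, (b + Pi.single i 1 : Fin r → ℕ) j = ∑ j, b j + 1 := by
  simp only [Pi.add_apply]
  rw [Finset.sum_add_distrib]
  congr 1
  rw [Finset.sum_eq_single i]
  · rw [Pi.single_eq_same]
  · intro j _ hj
    rw [Pi.single_eq_of_ne hj]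
  · intro h
    exact absurd (Finset.mem_univ i) h

end

/-- See the header. -/
theorem HO_approx {k W : Type} [Field k] [NormedField W] [IsUltrametricDist W] [Algebra k W]
    {r m : ℕ} {M : IntermediateField k W} {c : Tri k W r} (hr : 0 < r) (hok : Ok m M c) {z : W}
    (hz : z ∈ HO M c) (N : Fin r → ℤ) (J : ℕ) :
    ∃ P : LP c.C r, (∀ a j, P.coeff (a, j) ≠ 0 → ‖mon c.x a‖ ≤ 1) ∧
      ∃ h1 ∈ HO M c, ∃ h2 ∈ HO M c, z = ev c.x c.y P + mon c.x N * h1 + c.y ^ J * h2 := by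
  classical
  obtain ⟨x', G, hM, hzB⟩ := (mem_HO_iff hok z).1 hz
  have hx := hok.par.ind
  have hx' : Indep x' := hM.mt.ind
  have hBHO : ∀ t ∈ Bu c x' G, t ∈ HO M c := fun t ht => (mem_HO_iff hok t).2 ⟨x', G, hM, ht⟩
  have hyHO : ∀ j : ℕ, c.y ^ j ∈ HO M c := fun j => pow_mem (y_mem_HO hok) j
  obtain ⟨ρ, hρ0, hρ1, hρ⟩ : ∃ ρ : ℝ, 0 ≤ ρ ∧ ρ < 1 ∧ ∀ i, ‖x' i‖ ≤ ρ := by
    have : Nonempty (Fin r) := ⟨⟨0, hr⟩⟩
    obtain ⟨i₀, hi₀⟩ := Finite.exists_max (fun i => ‖x' i‖)
    exact ⟨‖x' i₀‖, norm_nonneg _, hx'.lt i₀, hi₀⟩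
  obtain ⟨n₁, hn₁⟩ : ∃ n₁ : ℕ, ρ ^ n₁ ≤ ‖mon c.x N‖ := by
    obtain ⟨n, hn⟩ := exists_pow_lt_of_lt_one (norm_pos_iff.2 (mon_ne c.x hx.ne N)) hρ1
    exact ⟨n, hn.le⟩
  have hmn : ∀ b : Fin r → ℕ, ∃ a : Fin r → ℤ, monN x' b = mon c.x a ∧
      ‖mon c.x a‖ ≤ ρ ^ (∑ i, b i) := by
    intro b
    obtain ⟨a, ha⟩ := Mt.mon_eq' hx hM.mt fun i => (b i : ℤ)
    rw [← happ_monN] at ha
    exact ⟨a, ha, by rw [← ha]; exact happ_norm x' b hρ⟩
  have hle1 : ∀ n : ℕ, ρ ^ n ≤ 1 := fun n => pow_le_one₀ hρ0 hρ1.le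
  have hbase : ∀ (b : Fin r → ℕ) (j : ℕ), (J ≤ j ∨ n₁ ≤ ∑ i, b i) → ∀ t ∈ Bu c x' G,
      happS M c N J (monN x' b * c.y ^ j * t) := by
    intro b j hbj t ht
    obtain ⟨a, ha, han⟩ := hmn b
    rcases hbj with hj | hb
    · have h1 : monN x' b * c.y ^ j * t = c.y ^ J * (mon c.x a * (c.y ^ (j - J) * t)) := by
        rw [ha]
        conv_lhs => rw [← Nat.add_sub_cancel' hj, pow_add]
        ring
      rw [h1]
      exact happ_HO2 (mul_mem (mon_mem_HO hok (han.trans (hle1 _)))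
        (mul_mem (hyHO _) (hBHO t ht)))
    · have h1 : mon c.x a = mon c.x N * mon c.x (a - N) := by
        rw [← mon_add c.x hx.ne, add_sub_cancel]
      have h2 : ‖mon c.x (a - N)‖ ≤ 1 := by
        have h3 : ‖mon c.x a‖ ≤ ‖mon c.x N‖ :=
          han.trans ((pow_le_pow_of_le_one hρ0 hρ1.le hb).trans hn₁)
        rw [h1, norm_mul] at h3
        have h4 : 0 < ‖mon c.x N‖ := norm_pos_iff.2 (mon_ne c.x hx.ne N)
        exact le_of_mul_le_mul_left (by rwa [mul_one]) h4
      have h3 : monN x' b * c.y ^ j * t = mon c.x N * (mon c.x (a - N) * (c.y ^ j * t)) := by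
        rw [ha, h1]
        ring
      rw [h3]
      exact happ_HO1 (mul_mem (mon_mem_HO hok h2) (mul_mem (hyHO _) (hBHO t ht)))
  have key : ∀ (l : ℕ) (b : Fin r → ℕ) (j : ℕ), n₁ + J ≤ (∑ i, b i) + j + l →
      ∀ t ∈ Bu c x' G, happS M c N J (monN x' b * c.y ^ j * t) := by
    intro l
    induction l with
    | zero =>
      intro b j h t ht
      refine hbase b j ?_ t ht
      by_cases hj : J ≤ j
      · exact Or.inl hj
      · right
        omega
    | succ l ih =>
      intro b j h t ht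
      obtain ⟨e, he, u, u0, hu, hu0, rfl⟩ := hM.dec_all hok ht
      obtain ⟨a, ha, han⟩ := hmn b
      have h1 : monN x' b * c.y ^ j * (e + ∑ i, u i * x' i + u0 * c.y) =
          e * (mon c.x a * c.y ^ j) + (∑ i, monN x' (b + Pi.single i 1) * c.y ^ j * u i) +
            monN x' b * c.y ^ (j + 1) * u0 := by
        have h2 : ∑ i, monN x' (b + Pi.single i 1) * c.y ^ j * u i =
            monN x' b * c.y ^ j * ∑ i, u i * x' i := by
          rw [Finset.mul_sum]
          refine Finset.sum_congr rfl fun i _ => ?_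
          rw [happ_monN_single]
          ring
        rw [h2, ← ha]
        ring
      rw [h1]
      refine happ_add (happ_add (happ_mon he (han.trans (hle1 _)) j) (happ_sum _ _ fun i _ => ?_))
        ?_
      · refine ih _ j ?_ _ (hu i)
        rw [happ_sum_single]
        omega
      · refine ih b (j + 1) ?_ _ hu0
        omega
  have h0 := key (n₁ + J) 0 0 (by omega) z hzB
  have h1 : monN x' (0 : Fin r → ℕ) * c.y ^ 0 * z = z := by
    unfold monN
    simp
  rw [h1] at h0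
  exact h0

end Pool.Agent.Lib.TU
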