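import Pool.Agent.Lib.TU.EvU
import Pool.Agent.Lib.TDO.Red

/-!
# Module RedU: reduction of Laurent polynomials modulo `s^p - s`

`exists_redU`.  Drop all terms `(a, j) ≠ (0, 0)` with `‖x^a‖ ≤ 1` (they have norm `< 1`: `‖x^a‖ < 1`, or
`a = 0` and `j ≥ 1`).  Then treat the remaining exponents of `p`-type one by one: if the
coefficient `e` at `p m1 ≠ 0` is a `p`-th power `e = e1^p`, replace the term `e X^(p m1)` by
`e1 X^m1`, i.e. add `e1` to the coefficient at `m1`
(`e X^(p m1) - e1 X^m1 = s^p - s`, `s = e1 x^(m1.1) y^(m1.2)`).  The sum of the sizes of the exponents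
decreases.  At the end all coefficients at exponents
divisible by `p` are not `p`-th powers (or zero).  Exponents of the result: `(a, j)` with
`(p^n a, p^n j)` in the support of `P`.
At `α` with `‖x^α‖ > 1` maximal: nothing is added to the coefficient at `(α, j)` (it could only come
from `(p α, p j)`, and `‖x^(pα)‖ > ‖x^α‖`), and it is removed if and only if it is of `p`-type.
`exists_dropU`: `Finsupp.filter`; the dropped part has norm `< 1` (`norm_ev_ltU`).
-/

namespace Pool.Agent.Lib.TU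

open Pool.Agent.Lib.MP_3029eb_ag Pool.Agent.Lib.MP_3029eb_ag.Abh Pool.Agent.Lib.TDO

/-- The restriction of a Laurent polynomial to a set of exponents. -/
private theorem red_restrict {k : Type} [Field k] {r : ℕ} (P : LP k r)
    (S : (Fin r → ℤ) × ℕ → Prop) : ∃ P' : LP k r,
      (∀ a j, S (a, j) → P'.coeff (a, j) = P.coeff (a, j)) ∧
      (∀ a j, ¬ S (a, j) → P'.coeff (a, j) = 0) := by
  classical
  refine ⟨AddMonoidAlgebra.ofCoeff (P.coeff.filter S), fun a j h => ?_, fun a j h => ?_⟩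
  · rw [AddMonoidAlgebra.coeff_ofCoeff, Finsupp.filter_apply, if_pos h]
  · rw [AddMonoidAlgebra.coeff_ofCoeff, Finsupp.filter_apply, if_neg h]

/-- the size of an exponent -/
private def sz {r : ℕ} (m : (Fin r → ℤ) × ℕ) : ℕ := ∑ i, (m.1 i).natAbs

/-- one step: the size of the support decreases -/
private theorem sum_lt {ι : Type} [DecidableEq ι] {S S' : Finset ι} (f : ι → ℕ) {m m' : ι}
    (hm : m ∈ S) (hlt : f m' < f m) (hsub : ∀ x ∈ S', x ≠ m ∧ (x ∈ S ∨ x = m')) :
    ∑ x ∈ S', f x < ∑ x ∈ S, f x := by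
  have h1 : S' ⊆ insert m' (S.erase m) := by
    intro x hx
    obtain ⟨h1, h2⟩ := hsub x hx
    rcases h2 with h2 | h2
    · exact Finset.mem_insert_of_mem (Finset.mem_erase.2 ⟨h1, h2⟩)
    · rw [h2]
      exact Finset.mem_insert_self _ _
  have h2 : ∑ x ∈ S', f x ≤ ∑ x ∈ insert m' (S.erase m), f x :=
    Finset.sum_le_sum_of_subset h1
  have h3 : ∑ x ∈ insert m' (S.erase m), f x ≤ f m' + ∑ x ∈ S.erase m, f x := by
    by_cases h : m' ∈ S.erase m
    · rw [Finset.insert_eq_of_mem h]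
      exact Nat.le_add_left _ _
    · rw [Finset.sum_insert h]
  have h4 := Finset.add_sum_erase S f hm
  omega

open Classical in
private theorem red_main {k W : Type} [Field k] [NormedField W] [IsUltrametricDist W]
    [Algebra k W] {r : ℕ} (p : ℕ) [Fact p.Prime]
    [CharP k p] {x : Fin r → W} {y : W} (N : ℕ) : ∀ P : LP k r,
    (∑ m ∈ P.coeff.support, sz m ≤ N) →
    (∀ a j, P.coeff (a, j) ≠ 0 → (a = 0 ∧ j = 0) ∨ 1 < ‖mon x a‖) →
    ∃ P' : LP k r, RedC p x P' ∧
      (∃ s ∈ LL k x y, ev x y P - ev x y P' = s ^ p - s) ∧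
      (∀ a j, P'.coeff (a, j) ≠ 0 → ∃ n : ℕ, P.coeff (p ^ n • a, p ^ n * j) ≠ 0) ∧
      ∀ α : Fin r → ℤ, 1 < ‖mon x α‖ → (∀ a j, P.coeff (a, j) ≠ 0 → ‖mon x a‖ ≤ ‖mon x α‖) →
        ∀ j, P'.coeff (α, j) = if PT p α j (P.coeff (α, j)) then 0 else P.coeff (α, j) := by
  have hp : p.Prime := Fact.out
  have hp2 : 2 ≤ p := hp.two_le
  have : CharP W p := charP_of_injective_algebraMap (algebraMap k W).injective p
  induction N using Nat.strong_induction_on with
  | _ N ih =>
  intro P hN hP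
  by_cases hbad : ∃ (a : Fin r → ℤ) (j : ℕ), P.coeff (a, j) ≠ 0 ∧ 1 < ‖mon x a‖ ∧
      PT p a j (P.coeff (a, j))
  · obtain ⟨a, j, hne, h1a, ⟨a', ha'⟩, ⟨j', hj'⟩, b, hb⟩ := hbad
    -- the new polynomial
    set P2 : LP k r := P - AddMonoidAlgebra.single (a, j) (b ^ p) +
      AddMonoidAlgebra.single (a', j') b with hP2
    have hcoef : ∀ m : (Fin r → ℤ) × ℕ, P2.coeff m = P.coeff m -
        (if m = (a, j) then b ^ p else 0) + (if m = (a', j') then b else 0) := by
      intro m
      rw [hP2, AddMonoidAlgebra.coeff_add, AddMonoidAlgebra.coeff_sub, Finsupp.add_apply,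
        Finsupp.sub_apply, AddMonoidAlgebra.coeff_single, AddMonoidAlgebra.coeff_single,
        Finsupp.single_apply, Finsupp.single_apply]
      have q1 : (if (a, j) = m then b ^ p else 0) = if m = (a, j) then b ^ p else 0 := by
        by_cases h : m = (a, j)
        · rw [if_pos h, if_pos h.symm]
        · rw [if_neg h, if_neg (fun hh => h hh.symm)]
      have q2 : (if (a', j') = m then b else 0) = if m = (a', j') then b else 0 := by
        by_cases h : m = (a', j')
        · rw [if_pos h, if_pos h.symm]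
        · rw [if_neg h, if_neg (fun hh => h hh.symm)]
      rw [q1, q2]
    have hnorm : ‖mon x a‖ = ‖mon x a'‖ ^ p := by
      rw [ha', mon_nsmul, norm_pow]
    have h1a' : 1 < ‖mon x a'‖ := by
      by_contra hcon
      push Not at hcon
      have := pow_le_one₀ (n := p) (norm_nonneg (mon x a')) hcon
      rw [← hnorm] at this
      linarith
    have hlt' : ‖mon x a'‖ < ‖mon x a‖ := by
      rw [hnorm]
      exact lt_self_pow₀ h1a' (by omega)
    have haa' : a' ≠ a := fun h => by
      rw [h] at hlt'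
      exact lt_irrefl _ hlt'
    have hmm' : (a, j) ≠ (a', j') := fun h => haa' (congrArg Prod.fst h).symm
    have h2m : P2.coeff (a, j) = 0 := by
      rw [hcoef, if_pos rfl, if_neg hmm', add_zero, hb, sub_self]
    have hsupp : ∀ m ∈ P2.coeff.support, m ≠ (a, j) ∧ (m ∈ P.coeff.support ∨ m = (a', j')) := by
      intro m hm
      have hm0 : P2.coeff m ≠ 0 := Finsupp.mem_support_iff.1 hm
      have hm1 : m ≠ (a, j) := fun h => hm0 (h ▸ h2m)
      refine ⟨hm1, ?_⟩
      by_cases hm2 : m = (a', j')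
      · exact Or.inr hm2
      · left
        rw [hcoef, if_neg hm1, if_neg hm2, sub_zero, add_zero] at hm0
        exact Finsupp.mem_support_iff.2 hm0
    have hsz : sz (a', j') < sz (a, j) := by
      unfold sz
      simp only
      refine Finset.sum_lt_sum (fun i _ => ?_) ?_
      · rw [ha', Pi.smul_apply, nsmul_eq_mul, Int.natAbs_mul, Int.natAbs_natCast]
        exact Nat.le_mul_of_pos_left _ (by omega)
      · have h2 : ∃ i, a' i ≠ 0 := by
          by_contra hcon
          push Not at hcon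
          have h0 : a' = 0 := funext hcon
          rw [h0, mon_zero, norm_one] at h1a'
          exact lt_irrefl _ h1a'
        obtain ⟨i, hi⟩ := h2
        refine ⟨i, Finset.mem_univ i, ?_⟩
        rw [ha', Pi.smul_apply, nsmul_eq_mul, Int.natAbs_mul, Int.natAbs_natCast]
        have h3 : 0 < (a' i).natAbs := Int.natAbs_pos.2 hi
        have h4 : 2 * (a' i).natAbs ≤ p * (a' i).natAbs := Nat.mul_le_mul_right _ hp2
        omega
    have hdec : ∑ m ∈ P2.coeff.support, sz m < ∑ m ∈ P.coeff.support, sz m :=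
      sum_lt sz (Finsupp.mem_support_iff.2 hne) hsz hsupp
    obtain ⟨P', hred, ⟨s, hs, hse⟩, hex, hmax⟩ := ih (∑ m ∈ P2.coeff.support, sz m)
      (lt_of_lt_of_le hdec hN) P2 le_rfl (by
        intro a1 j1 h1
        obtain ⟨-, h2⟩ := hsupp (a1, j1) (Finsupp.mem_support_iff.2 h1)
        rcases h2 with h2 | h2
        · exact hP a1 j1 (Finsupp.mem_support_iff.1 h2)
        · right
          have h3 : a1 = a' := (Prod.ext_iff.1 h2).1
          rw [h3]
          exact h1a')
    refine ⟨P', hred, ⟨algebraMap k W b * (mon x a' * y ^ j') + s, ?_, ?_⟩, ?_, ?_⟩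
    · have hmonLL : ∀ a : Fin r → ℤ, mon x a ∈ LL k x y := fun a =>
        Subring.subset_closure (Or.inl (Or.inr ⟨a, rfl⟩))
      have hcLL : ∀ c : k, algebraMap k W c ∈ LL k x y := fun c =>
        Subring.subset_closure (Or.inl (Or.inl ⟨c, rfl⟩))
      have hyLL : y ∈ LL k x y := Subring.subset_closure (Or.inr rfl)
      exact Subring.add_mem _ (Subring.mul_mem _ (hcLL b)
        (Subring.mul_mem _ (hmonLL _) (Subring.pow_mem _ hyLL _))) hs
    · have e1 : ev x y P2 = ev x y P - algebraMap k W (b ^ p) * (mon x a * y ^ j) +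
          algebraMap k W b * (mon x a' * y ^ j') := by
        rw [hP2, ev_add, ev_sub, ev_single, ev_single]
      have e2 : algebraMap k W (b ^ p) * (mon x a * y ^ j) =
          (algebraMap k W b * (mon x a' * y ^ j')) ^ p := by
        rw [mul_pow, mul_pow, ← map_pow, ← mon_nsmul, ← ha', ← pow_mul, mul_comm j', ← hj']
      rw [e2] at e1
      rw [add_pow_char]
      linear_combination hse - e1
    · intro a1 j1 h1
      obtain ⟨n, hn⟩ := hex a1 j1 h1
      obtain ⟨-, h2⟩ := hsupp _ (Finsupp.mem_support_iff.2 hn)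
      rcases h2 with h2 | h2
      · exact ⟨n, Finsupp.mem_support_iff.1 h2⟩
      · refine ⟨n + 1, ?_⟩
        have e1 := (Prod.ext_iff.1 h2).1
        have e2 := (Prod.ext_iff.1 h2).2
        simp only at e1 e2
        have e3 : p ^ (n + 1) • a1 = a := by
          rw [ha', ← e1, smul_smul, pow_succ']
        have e4 : p ^ (n + 1) * j1 = j := by
          rw [hj', ← e2, pow_succ']
          ring
        rw [e3, e4]
        exact hne
    · intro α hα hαm j1
      have hmax2 : ∀ a1 j1, P2.coeff (a1, j1) ≠ 0 → ‖mon x a1‖ ≤ ‖mon x α‖ := by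
        intro a1 j1 h1
        obtain ⟨-, h2⟩ := hsupp (a1, j1) (Finsupp.mem_support_iff.2 h1)
        rcases h2 with h2 | h2
        · exact hαm a1 j1 (Finsupp.mem_support_iff.1 h2)
        · have h3 : a1 = a' := (Prod.ext_iff.1 h2).1
          rw [h3]
          exact hlt'.le.trans (hαm a j hne)
      rw [hmax α hα hmax2 j1]
      have hαa' : α ≠ a' := fun h => by
        have := hαm a j hne
        rw [h] at this
        linarith
      by_cases hm : (α, j1) = (a, j)
      · have e1 := (Prod.ext_iff.1 hm).1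
        have e2 := (Prod.ext_iff.1 hm).2
        simp only at e1 e2
        subst e1 e2
        rw [h2m, ite_self, if_pos ⟨⟨a', ha'⟩, ⟨j', hj'⟩, b, hb⟩]
      · have e3 : P2.coeff (α, j1) = P.coeff (α, j1) := by
          rw [hcoef, if_neg hm, if_neg (fun h => hαa' (congrArg Prod.fst h)), sub_zero, add_zero]
        rw [e3]
  · push Not at hbad
    refine ⟨P, ?_, ⟨0, Subring.zero_mem _, ?_⟩, ?_, ?_⟩
    · intro a j h
      rcases hP a j h with h1 | h1
      · exact Or.inl h1
      · exact Or.inr ⟨h1, hbad a j h h1⟩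
    · rw [sub_self, zero_pow (by omega), sub_zero]
    · intro a j h
      exact ⟨0, by rwa [pow_zero, one_smul, one_mul]⟩
    · intro α hα _ j
      by_cases h : PT p α j (P.coeff (α, j))
      · rw [if_pos h]
        by_contra hne
        exact hbad α j hne hα h
      · rw [if_neg h]

open Classical in
/-- See the header. -/
theorem exists_redU {k W : Type} [Field k] [NormedField W] [IsUltrametricDist W]
    [Algebra k W] {r : ℕ} (hu : ∀ c : k, c ≠ 0 → ‖algebraMap k W c‖ = 1) (p : ℕ) [Fact p.Prime]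
    [CharP k p] {x : Fin r → W} {y : W} (hx : Indep x) (hy : ‖y‖ < 1) (P : LP k r) :
    ∃ P' : LP k r, RedC p x P' ∧
      (∃ s ∈ LL k x y, ‖ev x y P - ev x y P' - (s ^ p - s)‖ < 1) ∧
      (∀ a j, P'.coeff (a, j) ≠ 0 → ∃ n : ℕ, P.coeff (p ^ n • a, p ^ n * j) ≠ 0) ∧
      ∀ α : Fin r → ℤ, 1 < ‖mon x α‖ → (∀ a j, P.coeff (a, j) ≠ 0 → ‖mon x a‖ ≤ ‖mon x α‖) →
        ∀ j, P'.coeff (α, j) = if PT p α j (P.coeff (α, j)) then 0 else P.coeff (α, j) := by
  obtain ⟨P1, hP1, hP1'⟩ := red_restrict P (fun m => (m.1 = 0 ∧ m.2 = 0) ∨ 1 < ‖mon x m.1‖)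
  have hs1 : ∀ a j, P1.coeff (a, j) ≠ 0 → ((a = 0 ∧ j = 0) ∨ 1 < ‖mon x a‖) ∧
      P.coeff (a, j) ≠ 0 := by
    intro a j h
    by_cases h1 : (a = 0 ∧ j = 0) ∨ 1 < ‖mon x a‖
    · exact ⟨h1, by rwa [hP1 a j h1] at h⟩
    · exact absurd (hP1' a j h1) h
  obtain ⟨P', hred, ⟨s, hs, hse⟩, hex, hmax⟩ := red_main (x := x) (y := y) p _ P1 le_rfl
    (fun a j h => (hs1 a j h).1)
  refine ⟨P', hred, ⟨s, hs, ?_⟩, ?_, ?_⟩
  · have e : ev x y P - ev x y P' - (s ^ p - s) = ev x y (P - P1) := by
      rw [ev_sub, ← hse]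
      ring
    rw [e]
    refine norm_ev_ltU hu _ 1 one_pos fun a j h => ?_
    rw [AddMonoidAlgebra.coeff_sub, Finsupp.sub_apply] at h
    have h1 : ¬ ((a = 0 ∧ j = 0) ∨ 1 < ‖mon x a‖) := fun h1 => h (by rw [hP1 a j h1, sub_self])
    push Not at h1
    obtain ⟨h2, h3⟩ := h1
    rw [norm_mul, norm_pow]
    rcases h3.lt_or_eq with h4 | h4
    · exact lt_of_le_of_lt (mul_le_of_le_one_right (norm_nonneg _)
        (pow_le_one₀ (norm_nonneg _) hy.le)) h4
    · have ha : a = 0 := norm_mon_inj hx (by rw [h4, mon_zero, norm_one])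
      rw [h4, one_mul]
      exact pow_lt_one₀ (norm_nonneg _) hy (h2 ha)
  · intro a j h
    obtain ⟨n, hn⟩ := hex a j h
    exact ⟨n, (hs1 _ _ hn).2⟩
  · intro α hα hαm j
    rw [hmax α hα (fun a j h => hαm a j (hs1 a j h).2) j, hP1 α j (Or.inr hα)]

open Classical in
/-- Dropping the terms of norm `< 1`. -/
theorem exists_dropU {k W : Type} [Field k] [NormedField W] [IsUltrametricDist W]
    [Algebra k W] {r : ℕ} (hu : ∀ c : k, c ≠ 0 → ‖algebraMap k W c‖ = 1) {x : Fin r → W} {y : W}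
    (P : LP k r) : ∃ P' : LP k r, ‖ev x y P - ev x y P'‖ < 1 ∧
      ∀ a j, P'.coeff (a, j) = if 1 ≤ ‖mon x a * y ^ j‖ then P.coeff (a, j) else 0 := by
  obtain ⟨P', h1, h2⟩ := red_restrict P (fun m => 1 ≤ ‖mon x m.1 * y ^ m.2‖)
  refine ⟨P', ?_, ?_⟩
  · rw [← ev_sub]
    refine norm_ev_ltU hu _ 1 one_pos fun a j h => ?_
    rw [AddMonoidAlgebra.coeff_sub, Finsupp.sub_apply] at h
    by_contra h3
    push Not at h3
    exact h (by rw [h1 a j h3, sub_self])
  · intro a j
    by_cases h3 : 1 ≤ ‖mon x a * y ^ j‖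
    · rw [if_pos h3]
      exact h1 a j h3
    · rw [if_neg h3]
      exact h2 a j h3

end Pool.Agent.Lib.TU
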