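import Pool.Agent.Lib.TU.Defs
import Pool.Agent.Lib.TDO.Cl

/-!
# Module DensU: density

Generalization of `TDO.dens` (copy its proof from `Pool/Agent/Lib/TDO/Dens.lean`): the residue
hypothesis is only needed for the elements of the ring `B`.
-/

namespace Pool.Agent.Lib.TU

open Pool.Agent.Lib.MP_3029eb_ag Pool.Agent.Lib.MP_3029eb_ag.Abh Pool.Agent.Lib.TDO

/-- See the header. -/
theorem densU {k W : Type} [Field k] [NormedField W] [IsUltrametricDist W] [Algebra k W]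
    (B : Subring W) (hB : B ≤ (ball W).toSubring)
    (hk : ∀ c : k, algebraMap k W c ∈ B) (hres : ∀ z ∈ B, ∃ c : k, ‖z - algebraMap k W c‖ < 1)
    {ι : Type} [Fintype ι] (β : ι → W)
    (hβ : ∀ i, β i ∈ B) (hβ1 : ∀ i, ‖β i‖ < 1)
    (hgen : ∀ z ∈ B, ‖z‖ < 1 → ∃ b : ι → W, (∀ i, b i ∈ B) ∧ z = ∑ i, b i * β i)
    (z : W) (hz : z ∈ B) : z ∈ cl (IntermediateField.adjoin k (Set.range β)) := by
  classical
  obtain ⟨κ, hκ0, hκ1, hκ⟩ : ∃ κ : ℝ, 0 ≤ κ ∧ κ < 1 ∧ ∀ i, ‖β i‖ ≤ κ := by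
    by_cases hne : (Finset.univ : Finset ι).Nonempty
    · refine ⟨Finset.univ.sup' hne fun i => ‖β i‖, ?_, ?_, fun i => ?_⟩
      · obtain ⟨i, hi⟩ := hne
        exact (norm_nonneg (β i)).trans (Finset.le_sup' (fun i => ‖β i‖) hi)
      · rw [Finset.sup'_lt_iff]
        exact fun i _ => hβ1 i
      · exact Finset.le_sup' (fun i => ‖β i‖) (Finset.mem_univ i)
    · exact ⟨0, le_rfl, one_pos, fun i => absurd ⟨i, Finset.mem_univ i⟩ hne⟩
  have key : ∀ n : ℕ, ∀ z ∈ B, ∃ w ∈ IntermediateField.adjoin k (Set.range β),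
      ‖z - w‖ ≤ κ ^ n := by
    intro n
    induction n with
    | zero =>
      intro z hz
      refine ⟨0, zero_mem _, ?_⟩
      rw [sub_zero, pow_zero]
      exact (mem_ball z).1 (hB hz)
    | succ n ih =>
      intro z hz
      obtain ⟨c, hc⟩ := hres z hz
      obtain ⟨b, hb, hzb⟩ := hgen (z - algebraMap k W c) (B.sub_mem hz (hk c)) hc
      choose w hw hw1 using fun i => ih (b i) (hb i)
      refine ⟨algebraMap k W c + ∑ i, w i * β i, add_mem (algebraMap_mem _ c)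
        (sum_mem fun i _ => mul_mem (hw i) (IntermediateField.subset_adjoin k _ ⟨i, rfl⟩)), ?_⟩
      have e : z - (algebraMap k W c + ∑ i, w i * β i) = ∑ i, (b i - w i) * β i := by
        rw [← sub_sub, hzb, ← Finset.sum_sub_distrib]
        exact Finset.sum_congr rfl fun i _ => by ring
      rw [e]
      refine IsUltrametricDist.norm_sum_le_of_forall_le_of_nonneg (by positivity) fun i _ => ?_
      rw [norm_mul, pow_succ]
      exact mul_le_mul (hw1 i) (hκ i) (norm_nonneg _) (by positivity)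
  rw [mem_cl_iff]
  intro ε hε
  obtain ⟨n, hn⟩ := exists_pow_lt_of_lt_one hε hκ1
  obtain ⟨w, hw, hw1⟩ := key n z hz
  exact ⟨w, hw, hw1.trans_lt hn⟩

end Pool.Agent.Lib.TU
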