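import Pool.Agent.Lib.TU.Defs
import Pool.Agent.Lib.TDO.BDefs
import Pool.Agent.Lib.MP_3029eb_ag.AbhBase

/-!
# Module UnramU: separability of the fraction field over the field generated by the parameters

Generalization of `TDO.unram`: the residue hypothesis is only needed for the generators.
-/

namespace Pool.Agent.Lib.TU

open Pool.Agent.Lib.MP_3029eb_ag Pool.Agent.Lib.MP_3029eb_ag.Abh Pool.Agent.Lib.TDO

/-- Nakayama for derivations -/
private lemma unr_core {F K ι : Type} [Field F] [Field K] [Algebra F K] [Fintype ι]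
    (B : Subring K) (I : Ideal B) (hI : I ≤ Ideal.jacobson ⊥) (S : Set K) (hfin : S.Finite)
    (β : ι → B) (hβF : ∀ i, ∃ c : F, algebraMap F K c = (β i : K)) (hβI : ∀ i, β i ∈ I)
    (D : Derivation F K K)
    (hBN : ∀ N : AddSubgroup K, (∀ b ∈ B, ∀ x ∈ N, b * x ∈ N) → (∀ g ∈ S, D g ∈ N) →
      ∀ b : B, D (b : K) ∈ N)
    (hS : ∀ g ∈ S, ∃ (c : F) (b : ι → B), g = algebraMap F K c + ∑ i, (b i : K) * (β i : K)) :
    ∀ g ∈ S, D g = 0 := by
  have hβ0 : ∀ i, D (β i : K) = 0 := by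
    intro i
    obtain ⟨c, hc⟩ := hβF i
    rw [← hc, D.map_algebraMap]
  have hN : Submodule.span B (D '' S) = ⊥ := by
    refine Submodule.eq_bot_of_le_smul_of_le_jacobson_bot I _
      (Submodule.fg_span (hfin.image _)) ?_ hI
    rw [Submodule.span_le]
    rintro _ ⟨g, hg, rfl⟩
    obtain ⟨c, b, hb⟩ := hS g hg
    have h1 : D g = ∑ i, β i • D (b i : K) := by
      rw [hb, map_add, D.map_algebraMap, zero_add, map_sum]
      refine Finset.sum_congr rfl fun i _ => ?_
      rw [D.leibniz, hβ0, smul_zero, zero_add]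
      rfl
    have hBN' : ∀ b : B, D (b : K) ∈ Submodule.span B (D '' S) := by
      refine hBN (Submodule.span B (D '' S)).toAddSubgroup ?_ ?_
      · intro b hb x hx
        exact (Submodule.span B (D '' S)).smul_mem (⟨b, hb⟩ : B) hx
      · intro g hg
        exact Submodule.subset_span ⟨g, hg, rfl⟩
    rw [SetLike.mem_coe, h1]
    exact Submodule.sum_mem _ fun i _ => Submodule.smul_mem_smul (hβI i) (hBN' (b i))
  intro g hg
  have h2 : D g ∈ Submodule.span B (D '' S) := Submodule.subset_span ⟨g, hg, rfl⟩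
  rw [hN, Submodule.mem_bot] at h2
  exact h2

/-- no derivations implies separable -/
private lemma unr_sep {F W : Type} [Field F] [Field W] [Algebra F W] (G : Finset W)
    (h : ∀ D : Derivation F (IntermediateField.adjoin F (G : Set W))
      (IntermediateField.adjoin F (G : Set W)),
      ∀ g : IntermediateField.adjoin F (G : Set W), (g : W) ∈ G → D g = 0)
    (z : W) (hz : z ∈ IntermediateField.adjoin F (G : Set W)) : IsSeparable F z := by
  set K := IntermediateField.adjoin F (G : Set W) with hK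
  have hD0 : ∀ D : Derivation F K K, ∀ x : K, D x = 0 := by
    intro D
    have key : ∀ (x : W) (hx : x ∈ K), D ⟨x, hx⟩ = 0 := by
      intro x hx
      refine IntermediateField.adjoin_induction F (p := fun x hx => D ⟨x, hx⟩ = 0)
        ?_ ?_ ?_ ?_ ?_ hx
      · intro x hx
        exact h D ⟨x, _⟩ hx
      · intro x
        exact D.map_algebraMap x
      · intro x y hx hy h1 h2
        have : (⟨x + y, add_mem hx hy⟩ : K) = ⟨x, hx⟩ + ⟨y, hy⟩ := rfl
        rw [this, map_add, h1, h2, add_zero]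
      · intro x hx h1
        have : (⟨x⁻¹, inv_mem hx⟩ : K) = (⟨x, hx⟩ : K)⁻¹ := rfl
        rw [this, D.leibniz_inv, h1, smul_zero]
      · intro x y hx hy h1 h2
        have : (⟨x * y, mul_mem hx hy⟩ : K) = ⟨x, hx⟩ * ⟨y, hy⟩ := rfl
        rw [this, D.leibniz, h1, h2, smul_zero, smul_zero, add_zero]
    intro x
    exact key x x.2
  have hess : Algebra.EssFiniteType F K := IntermediateField.essFiniteType_iff.2 ⟨G, rfl⟩
  have hunr : Algebra.FormallyUnramified F K := by
    refine ⟨⟨fun a b => ?_⟩⟩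
    have h1 : ∀ v : Ω[K⁄F], v = 0 := by
      intro v
      rw [← Module.forall_dual_apply_eq_zero_iff K v]
      intro φ
      have h2 : φ = 0 := by
        refine LinearMap.ext_on (KaehlerDifferential.span_range_derivation F K) ?_
        rintro _ ⟨x, rfl⟩
        exact hD0 (φ.compDer (KaehlerDifferential.D F K)) x
      rw [h2, LinearMap.zero_apply]
    rw [h1 a, h1 b]
  have hsep : Algebra.IsSeparable F K := (Algebra.FormallyUnramified.iff_isSeparable F K).1 hunr
  have h3 : IsSeparable F (⟨z, hz⟩ : K) := Algebra.IsSeparable.isSeparable F _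
  have h4 := minpoly.algebraMap_eq (A := F) (B := K) (B' := W) (algebraMap K W).injective ⟨z, hz⟩
  unfold IsSeparable at h3 ⊢
  rw [← h4] at h3
  exact h3

theorem unramU {k W : Type} [Field k] [NormedField W] [IsUltrametricDist W] [Algebra k W]
    (hu : ∀ c : k, c ≠ 0 → ‖algebraMap k W c‖ = 1) (G : Finset W) (hG : ∀ g ∈ G, ‖g‖ ≤ 1)
    (hres : ∀ g ∈ G, ∃ c : k, ‖g - algebraMap k W c‖ < 1) {ι : Type} [Fintype ι]
    (β : ι → W)
    (hβ : ∀ i, β i ∈ locV (ball W) (Subring.closure (Set.range (algebraMap k W) ∪ (G : Set W))))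
    (hβ1 : ∀ i, ‖β i‖ < 1)
    (hgen : ∀ z ∈ locV (ball W) (Subring.closure (Set.range (algebraMap k W) ∪ (G : Set W))),
      ‖z‖ < 1 → ∃ b : ι → W,
        (∀ i, b i ∈ locV (ball W) (Subring.closure (Set.range (algebraMap k W) ∪ (G : Set W)))) ∧
        z = ∑ i, b i * β i)
    (z : W) (hz : z ∈ IntermediateField.adjoin k (G : Set W)) :
    IsSeparable (IntermediateField.adjoin k (Set.range β)) z := by
  set A : Subring W := Subring.closure (Set.range (algebraMap k W) ∪ (G : Set W)) with hAdef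
  set B : Subring W := locV (ball W) A with hBdef
  set F : IntermediateField k W := IntermediateField.adjoin k (Set.range β) with hF
  set K : IntermediateField F W := IntermediateField.adjoin F (G : Set W) with hK
  have hkA : ∀ c : k, algebraMap k W c ∈ A := fun c => Subring.subset_closure (Or.inl ⟨c, rfl⟩)
  have hGA : ∀ g ∈ G, g ∈ A := fun g hg => Subring.subset_closure (Or.inr hg)
  have hAB : A ≤ B := by
    intro x hx
    exact ⟨x, hx, 1, A.one_mem, map_one _, by rw [mul_one]⟩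
  have hA1 : ∀ x ∈ A, ‖x‖ ≤ 1 := by
    have : A ≤ (ball W).toSubring := by
      rw [hAdef, Subring.closure_le]
      rintro w (⟨c, rfl⟩ | hw)
      · show ‖algebraMap k W c‖ ≤ 1
        rcases eq_or_ne c 0 with h | h
        · rw [h, map_zero, norm_zero]; exact zero_le_one
        · exact (hu c h).le
      · exact hG w hw
    exact fun x hx => this hx
  have hB1 : ∀ x ∈ B, ‖x‖ ≤ 1 := by
    rintro x ⟨a, ha, b, hb, hb1, h⟩
    rw [ball_val_eq_one] at hb1
    have h1 : ‖x‖ = ‖a‖ := by rw [← h, norm_mul, hb1, mul_one]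
    rw [h1]; exact hA1 a ha
  -- inverses of elements of norm one of B are in B
  have hBinv : ∀ x ∈ B, ‖x‖ = 1 → x⁻¹ ∈ B := by
    rintro x ⟨a, ha, b, hb, hb1, h⟩ hx
    have hb2 := (ball_val_eq_one _).1 hb1
    have hx0 : x ≠ 0 := by rintro rfl; rw [norm_zero] at hx; exact zero_ne_one hx
    have hb0 : b ≠ 0 := by rintro rfl; rw [norm_zero] at hb2; exact zero_ne_one hb2
    have ha1 : ‖a‖ = 1 := by rw [← h, norm_mul, hx, hb2, mul_one]
    refine ⟨b, hb, a, ha, (ball_val_eq_one _).2 ha1, ?_⟩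
    rw [← h]; field_simp
  have hkF : ∀ c : k, algebraMap k W c ∈ F := fun c => F.algebraMap_mem c
  have hFK : ∀ x : F, (x : W) ∈ K := fun x => K.algebraMap_mem x
  have hAK : ∀ x ∈ A, x ∈ K := by
    have h0 : A ≤ K.toSubalgebra.toSubring := by
      rw [hAdef, Subring.closure_le]
      rintro w (⟨c, rfl⟩ | hw)
      · exact hFK ⟨_, hkF c⟩
      · exact IntermediateField.subset_adjoin F _ hw
    exact fun x hx => h0 hx
  have hBK : ∀ x ∈ B, x ∈ K := by
    rintro x ⟨a, ha, b, hb, hb1, h⟩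
    have hb2 := (ball_val_eq_one _).1 hb1
    have hb0 : b ≠ 0 := by rintro rfl; rw [norm_zero] at hb2; exact zero_ne_one hb2
    have : x = a / b := by rw [← h]; field_simp
    rw [this]
    exact div_mem (hAK a ha) (hAK b hb)
  -- the ring B inside K
  let B' : Subring K := B.comap (algebraMap K W)
  have hB' : ∀ x : K, x ∈ B' ↔ (x : W) ∈ B := fun x => Iff.rfl
  let I : Ideal B' :=
    { carrier := {x | ‖((x : K) : W)‖ < 1}
      add_mem' := fun {a b} ha hb =>
        (IsUltrametricDist.norm_add_le_max ((a : K) : W) ((b : K) : W)).trans_lt (max_lt ha hb)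
      zero_mem' := by
        show ‖((0 : K) : W)‖ < 1
        have : ((0 : K) : W) = 0 := rfl
        rw [this, norm_zero]; exact one_pos
      smul_mem' := fun c x hx => by
        show ‖((c : K) : W) * ((x : K) : W)‖ < 1
        rw [norm_mul]
        calc ‖((c : K) : W)‖ * ‖((x : K) : W)‖ ≤ 1 * ‖((x : K) : W)‖ :=
              mul_le_mul_of_nonneg_right (hB1 _ ((hB' _).1 c.2)) (norm_nonneg _)
          _ < 1 := by rw [one_mul]; exact hx }
  have hImem : ∀ x : B', x ∈ I ↔ ‖((x : K) : W)‖ < 1 := fun x => Iff.rfl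
  have hIjac : I ≤ Ideal.jacobson ⊥ := by
    intro x hx
    rw [Ideal.mem_jacobson_bot]
    intro y
    have hxy : ‖((x : K) : W) * ((y : K) : W)‖ < 1 := by
      rw [norm_mul]
      calc ‖((x : K) : W)‖ * ‖((y : K) : W)‖ ≤ ‖((x : K) : W)‖ * 1 :=
            mul_le_mul_of_nonneg_left (hB1 _ ((hB' _).1 y.2)) (norm_nonneg _)
        _ < 1 := by rw [mul_one]; exact (hImem x).1 hx
    have h1 : ‖((x : K) : W) * ((y : K) : W) + 1‖ = 1 := by
      rw [IsUltrametricDist.norm_add_eq_max_of_norm_ne_norm (by rw [norm_one]; exact hxy.ne),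
        norm_one]
      exact max_eq_right hxy.le
    have hmem : ((x : K) : W) * ((y : K) : W) + 1 ∈ B :=
      B.add_mem (B.mul_mem ((hB' _).1 x.2) ((hB' _).1 y.2)) B.one_mem
    have hne : ((x : K) : W) * ((y : K) : W) + 1 ≠ 0 := by
      intro h; rw [h, norm_zero] at h1; exact zero_ne_one h1
    have hinv := hBinv _ hmem h1
    refine IsUnit.of_mul_eq_one (⟨⟨_, hBK _ hinv⟩, hinv⟩ : B') ?_
    refine Subtype.ext (Subtype.ext ?_)
    show (((x : K) : W) * ((y : K) : W) + 1) * (((x : K) : W) * ((y : K) : W) + 1)⁻¹ = 1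
    exact mul_inv_cancel₀ hne
  -- the elements β
  let βB : ι → B' := fun i => ⟨⟨β i, hBK _ (hβ i)⟩, hβ i⟩
  have hβBF : ∀ i, ∃ c : F, algebraMap F K c = (βB i : K) := fun i =>
    ⟨⟨β i, IntermediateField.subset_adjoin k _ ⟨i, rfl⟩⟩, rfl⟩
  have hzK : z ∈ K := by
    have : IntermediateField.adjoin k (G : Set W) ≤ K.restrictScalars k :=
      IntermediateField.adjoin_le_iff.2 fun g hg => IntermediateField.subset_adjoin F _ hg
    exact this hz
  refine unr_sep (F := F) G ?_ z hzK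
  intro D
  -- D maps B into the span
  set S : Set K := {g : K | (g : W) ∈ G} with hS
  have hSfin : S.Finite := by
    have : S = (Subtype.val : K → W) ⁻¹' (G : Set W) := rfl
    rw [this]
    exact G.finite_toSet.preimage Subtype.val_injective.injOn
  refine unr_core B' I hIjac S hSfin βB hβBF hβ1 D ?_ ?_
  swap
  · rintro ⟨g, hgK⟩ hg
    have hgG : g ∈ G := hg
    obtain ⟨c, hc⟩ := hres g hgG
    obtain ⟨b, hbB, hb⟩ := hgen (g - algebraMap k W c)
      (B.sub_mem (hAB (hGA g hgG)) (hAB (hkA c))) hc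
    refine ⟨⟨_, hkF c⟩, fun i => ⟨⟨b i, hBK _ (hbB i)⟩, hbB i⟩, ?_⟩
    refine Subtype.ext ?_
    have h1 : g = algebraMap k W c + ∑ i, b i * β i := by rw [← hb]; ring
    rw [IntermediateField.coe_add, IntermediateField.coe_sum]
    exact h1
  intro N hNs hNg
  have hDA : ∀ (x : W) (hx : x ∈ A), D ⟨x, hAK x hx⟩ ∈ N := by
    intro x hx
    refine Subring.closure_induction
      (p := fun x hx => D (⟨x, hAK x hx⟩ : K) ∈ N) ?_ ?_ ?_ ?_ ?_ ?_ hx
    · rintro x (⟨c, rfl⟩ | hx)
      · have h1 : D (algebraMap F K ⟨_, hkF c⟩) = 0 := D.map_algebraMap _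
        have h2 : D (⟨algebraMap k W c, hAK _ (hkA c)⟩ : K) = 0 := h1
        rw [h2]
        exact N.zero_mem
      · exact hNg _ hx
    · have : (⟨0, hAK 0 A.zero_mem⟩ : K) = 0 := rfl
      rw [this, map_zero]; exact N.zero_mem
    · have : (⟨1, hAK 1 A.one_mem⟩ : K) = 1 := rfl
      rw [this, D.map_one_eq_zero]; exact N.zero_mem
    · intro x y hx hy h1 h2
      have : (⟨x + y, hAK _ (add_mem hx hy)⟩ : K) = ⟨x, hAK x hx⟩ + ⟨y, hAK y hy⟩ := rfl
      rw [this, map_add]
      exact N.add_mem h1 h2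
    · intro x hx h1
      have : (⟨-x, hAK _ (neg_mem hx)⟩ : K) = -⟨x, hAK x hx⟩ := rfl
      rw [this, map_neg]
      exact N.neg_mem h1
    · intro x y hx hy h1 h2
      have : (⟨x * y, hAK _ (mul_mem hx hy)⟩ : K) = ⟨x, hAK x hx⟩ * ⟨y, hAK y hy⟩ := rfl
      rw [this, D.leibniz]
      refine N.add_mem ?_ ?_
      · exact hNs ⟨x, hAK x hx⟩ (hAB hx) _ h2
      · exact hNs ⟨y, hAK y hy⟩ (hAB hy) _ h1
  · rintro ⟨⟨x, hxK⟩, hx⟩
    obtain ⟨a, ha, b, hb, hb1, h⟩ := (hB' _).1 hx
    have hb2 := (ball_val_eq_one _).1 hb1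
    have hb0 : b ≠ 0 := by rintro rfl; rw [norm_zero] at hb2; exact zero_ne_one hb2
    have h1 : (⟨x, hxK⟩ : K) * ⟨b, hAK b hb⟩ = ⟨a, hAK a ha⟩ := Subtype.ext h
    have h2 := congrArg D h1
    rw [D.leibniz] at h2
    have hbK : (⟨b, hAK b hb⟩ : K) ≠ 0 := fun hh => hb0 (congrArg Subtype.val hh)
    have h3 : D (⟨x, hxK⟩ : K) = (⟨b, hAK b hb⟩ : K)⁻¹ *
        (D ⟨a, hAK a ha⟩ - (⟨x, hxK⟩ : K) * D ⟨b, hAK b hb⟩) := by
      rw [← h2, smul_eq_mul, smul_eq_mul]
      field_simp
      ring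
    show D (⟨x, hxK⟩ : K) ∈ N
    rw [h3]
    have hbinv : b⁻¹ ∈ B := hBinv b (hAB hb) hb2
    refine hNs (⟨b, hAK b hb⟩ : K)⁻¹ hbinv _ ?_
    refine N.sub_mem (hDA a ha) ?_
    exact hNs ⟨x, hxK⟩ hx _ (hDA b hb)

end Pool.Agent.Lib.TU
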