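import Pool.Agent.Lib.TU.HOb
import Pool.Agent.Lib.TU.DensU
import Pool.Agent.Lib.TU.UnramU

/-!
# Module HODs: density and separability

`HO_dens`: `densU` with base field `↥c.C`, `B = Bu c x' G` a model containing `z`, `β = (y, x')`
(`Mdl.dec_all`, `Mdl.gen`); the `x' i` are monomials in `c.x`.
`HO_sep`: `unramU` with base field `↥c.C`, the finite set `G ∪ {x' i} ∪ {y}`, `β = (y, x')`.
-/

namespace Pool.Agent.Lib.TU

open Pool.Agent.Lib.MP_3029eb_ag Pool.Agent.Lib.MP_3029eb_ag.Abh Pool.Agent.Lib.TDO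

variable {k W : Type} [Field k] [NormedField W] [IsUltrametricDist W] [Algebra k W] {r m : ℕ}
  {M : IntermediateField k W} {c : Tri k W r}

/-- the parameters -/
private def hods_beta {W : Type} {r : ℕ} (x' : Fin r → W) (y : W) : Option (Fin r) → W :=
  fun o => o.elim y x'

private theorem hods_range {W : Type} {r : ℕ} (x' : Fin r → W) (y : W) :
    Set.range (hods_beta x' y) = Set.range x' ∪ {y} := by
  ext z
  constructor
  · rintro ⟨o, rfl⟩
    cases o with
    | none => exact Or.inr rfl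
    | some i => exact Or.inl ⟨i, rfl⟩
  · rintro (⟨i, rfl⟩ | hz)
    · exact ⟨some i, rfl⟩
    · exact ⟨none, hz.symm⟩

/-- the field generated by the parameters of a model -/
private theorem hods_field {x' : Fin r → W} {G : Finset W} (h : Mdl M c x' G) :
    IntermediateField.adjoin c.C (Set.range (hods_beta x' c.y)) = Kxy c.C c.x c.y := by
  rw [hods_range]
  obtain ⟨A, B, hA, hB, -⟩ := h.mt.mat
  unfold Kxy
  refine le_antisymm (IntermediateField.adjoin_le_iff.2 ?_) (IntermediateField.adjoin_le_iff.2 ?_)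
  · rintro z (⟨i, rfl⟩ | hz)
    · rw [hB i]
      unfold mon
      refine prod_mem fun j _ => ?_
      have hj : c.x j ∈ IntermediateField.adjoin c.C (Set.range c.x ∪ {c.y}) :=
        IntermediateField.subset_adjoin c.C _ (Or.inl ⟨j, rfl⟩)
      exact zpow_mem hj _
    · exact IntermediateField.subset_adjoin c.C _ (Or.inr hz)
  · rintro z (⟨i, rfl⟩ | hz)
    · rw [hA i]
      unfold monN
      refine prod_mem fun j _ => ?_
      have hj : x' j ∈ IntermediateField.adjoin c.C (Set.range x' ∪ {c.y}) :=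
        IntermediateField.subset_adjoin c.C _ (Or.inl ⟨j, rfl⟩)
      exact pow_mem hj _
    · exact IntermediateField.subset_adjoin c.C _ (Or.inr hz)

/-- residues of the elements of a model -/
private theorem hods_res (hok : Ok m M c) {x' : Fin r → W} {G : Finset W} (h : Mdl M c x' G)
    {z : W} (hz : z ∈ Bu c x' G) : ∃ e : c.C, ‖z - algebraMap c.C W e‖ < 1 := by
  obtain ⟨e, he, b, b0, hb, hb0, heq⟩ := h.dec_all hok hz
  have hG : ∀ g ∈ G, ‖g‖ ≤ 1 := fun g hg => (h.gM g hg).2
  refine ⟨⟨e, he⟩, ?_⟩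
  have h1 : z - algebraMap c.C W ⟨e, he⟩ = ∑ i, b i * x' i + b0 * c.y := by
    have h2 : algebraMap c.C W ⟨e, he⟩ = e := rfl
    rw [h2, heq]
    ring
  rw [h1]
  have hlt : ∀ u v : W, ‖u‖ ≤ 1 → ‖v‖ < 1 → ‖u * v‖ < 1 := by
    intro u v hu hv
    rw [norm_mul]
    calc ‖u‖ * ‖v‖ ≤ 1 * ‖v‖ := mul_le_mul_of_nonneg_right hu (norm_nonneg _)
      _ < 1 := by rw [one_mul]; exact hv
  refine lt_of_le_of_lt (IsUltrametricDist.norm_add_le_max _ _) (max_lt ?_ ?_)
  · by_cases hne : (Finset.univ : Finset (Fin r)).Nonempty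
    · obtain ⟨i, -, hi⟩ := IsUltrametricDist.exists_norm_finset_sum_le_of_nonempty hne
        (fun i => b i * x' i)
      exact lt_of_le_of_lt hi (hlt _ _ (norm_le_of_mem_Bu hok h.mt.ind hG (hb i)) (h.mt.ind.lt i))
    · rw [Finset.not_nonempty_iff_eq_empty.1 hne, Finset.sum_empty, norm_zero]
      exact one_pos
  · exact hlt _ _ (norm_le_of_mem_Bu hok h.mt.ind hG hb0) hok.par.y1

/-- generators of the maximal ideal of a model -/
private theorem hods_gen (hok : Ok m M c) {x' : Fin r → W} {G : Finset W} (h : Mdl M c x' G)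
    {z : W} (hz : z ∈ Bu c x' G) (h1 : ‖z‖ < 1) :
    ∃ b : Option (Fin r) → W, (∀ i, b i ∈ Bu c x' G) ∧ z = ∑ i, b i * hods_beta x' c.y i := by
  obtain ⟨b, b0, hb, hb0, heq⟩ := h.gen hok hz h1
  refine ⟨fun o => o.elim b0 b, ?_, ?_⟩
  · intro o
    cases o with
    | none => exact hb0
    | some i => exact hb i
  · rw [Fintype.sum_option, heq, add_comm]
    rfl

private theorem hods_beta_mem (hok : Ok m M c) {x' : Fin r → W} {G : Finset W}
    (h : Mdl M c x' G) (o : Option (Fin r)) :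
    hods_beta x' c.y o ∈ Bu c x' G ∧ ‖hods_beta x' c.y o‖ < 1 := by
  have hG : ∀ g ∈ G, ‖g‖ ≤ 1 := fun g hg => (h.gM g hg).2
  cases o with
  | none => exact ⟨y_mem_Bu hok h.mt.ind hG, hok.par.y1⟩
  | some i => exact ⟨x_mem_Bu hok h.mt.ind hG i, h.mt.ind.lt i⟩

theorem HO_dens (hok : Ok m M c) {z : W} (hz : z ∈ HO M c) : z ∈ cl (Kxy c.C c.x c.y) := by
  obtain ⟨x', G, h, hzB⟩ := (mem_HO_iff hok z).1 hz
  have hG : ∀ g ∈ G, ‖g‖ ≤ 1 := fun g hg => (h.gM g hg).2
  have h1 := densU (k := c.C) (Bu c x' G)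
    (fun w hw => (mem_ball w).2 (norm_le_of_mem_Bu hok h.mt.ind hG hw))
    (fun e => C_mem_Bu hok h.mt.ind hG e.2) (fun w hw => hods_res hok h hw)
    (hods_beta x' c.y) (fun o => (hods_beta_mem hok h o).1) (fun o => (hods_beta_mem hok h o).2)
    (fun w hw hw1 => hods_gen hok h hw hw1) z hzB
  rw [hods_field h] at h1
  exact h1

theorem HO_sep (hok : Ok m M c) {z : W} (hz : z ∈ HO M c) : IsSeparable (Kxy c.C c.x c.y) z := by
  classical
  obtain ⟨x', G, h, hzB⟩ := (mem_HO_iff hok z).1 hz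
  have hG : ∀ g ∈ G, ‖g‖ ≤ 1 := fun g hg => (h.gM g hg).2
  set G' : Finset W := Finset.image x' Finset.univ ∪ ({c.y} ∪ G) with hG'
  have hset : Set.range (algebraMap c.C W) ∪ (G' : Set W) =
      ((c.C : Set W) ∪ Set.range x') ∪ ({c.y} ∪ (G : Set W)) := by
    have h1 : Set.range (algebraMap c.C W) = (c.C : Set W) := by
      ext w
      constructor
      · rintro ⟨e, rfl⟩
        exact e.2
      · intro hw
        exact ⟨⟨w, hw⟩, rfl⟩
    rw [h1, hG', Finset.coe_union, Finset.coe_union, Finset.coe_image, Finset.coe_univ,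
      Set.image_univ, Finset.coe_singleton, Set.union_assoc]
  have hloc : locV (ball W) (Subring.closure (Set.range (algebraMap c.C W) ∪ (G' : Set W))) =
      Bu c x' G := by
    rw [hset]
    rfl
  have hmemG' : ∀ g ∈ G', g ∈ Bu c x' G := by
    intro g hg
    rw [hG', Finset.mem_union, Finset.mem_union, Finset.mem_image, Finset.mem_singleton] at hg
    rcases hg with ⟨i, -, rfl⟩ | hg | hg
    · exact x_mem_Bu hok h.mt.ind hG i
    · rw [hg]
      exact y_mem_Bu hok h.mt.ind hG
    · exact G_mem_Bu hok h.mt.ind hG hg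
  have hzadj : z ∈ IntermediateField.adjoin c.C (G' : Set W) := by
    refine Bu_le (IntermediateField.adjoin c.C (G' : Set W)).toSubalgebra.toSubring ?_ ?_ ?_ ?_ ?_
      hzB
    · intro w hw
      exact (IntermediateField.adjoin c.C (G' : Set W)).algebraMap_mem (⟨w, hw⟩ : c.C)
    · intro i
      refine IntermediateField.subset_adjoin c.C _ ?_
      rw [hG']
      exact Finset.mem_coe.2 (Finset.mem_union_left _ (Finset.mem_image_of_mem _
        (Finset.mem_univ i)))
    · refine IntermediateField.subset_adjoin c.C _ ?_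
      rw [hG']
      exact Finset.mem_coe.2 (Finset.mem_union_right _ (Finset.mem_union_left _
        (Finset.mem_singleton_self _)))
    · intro g hg
      refine IntermediateField.subset_adjoin c.C _ ?_
      rw [hG']
      exact Finset.mem_coe.2 (Finset.mem_union_right _ (Finset.mem_union_right _ hg))
    · intro w hw _
      exact inv_mem (S := IntermediateField c.C W) hw
  have h1 := unramU (k := c.C) (W := W)
    (fun e he => hok.cst.unit e.1 e.2 (fun h0 => he (Subtype.ext h0))) G'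
    (fun g hg => norm_le_of_mem_Bu hok h.mt.ind hG (hmemG' g hg))
    (fun g hg => hods_res hok h (hmemG' g hg))
    (hods_beta x' c.y) (fun o => by rw [hloc]; exact (hods_beta_mem hok h o).1)
    (fun o => (hods_beta_mem hok h o).2)
    (fun w hw hw1 => by
      rw [hloc] at hw
      obtain ⟨b, hb, heq⟩ := hods_gen hok h hw hw1
      exact ⟨b, fun i => by rw [hloc]; exact hb i, heq⟩) z hzadj
  rw [hods_field h] at h1
  exact h1

private theorem hods_mon (a : Fin r → ℤ) : mon c.x a ∈ Kxy c.C c.x c.y := by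
  unfold mon Kxy
  refine prod_mem fun j _ => ?_
  have hj : c.x j ∈ IntermediateField.adjoin c.C (Set.range c.x ∪ {c.y}) :=
    IntermediateField.subset_adjoin c.C _ (Or.inl ⟨j, rfl⟩)
  exact zpow_mem hj _

/-- The same for `HL` and for quotients of elements of `HL`. -/
theorem HL_dens_sep (hok : Ok m M c) {n d : W} (hn : n ∈ HL M c) (hd : d ∈ HL M c) :
    n / d ∈ cl (Kxy c.C c.x c.y) ∧ IsSeparable (Kxy c.C c.x c.y) (n / d) := by
  have key : ∀ z ∈ HL M c, z ∈ cl (Kxy c.C c.x c.y) ∧
      z ∈ separableClosure (Kxy c.C c.x c.y) W := by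
    intro z hz
    obtain ⟨a, h, hh, rfl⟩ := (mem_HL_iff hok z).1 hz
    refine ⟨mul_mem (le_cl _ (hods_mon a)) (HO_dens hok hh), mul_mem ?_ ?_⟩
    · exact (separableClosure (Kxy c.C c.x c.y) W).algebraMap_mem (⟨mon c.x a, hods_mon a⟩ :
        Kxy c.C c.x c.y)
    · exact mem_separableClosure_iff.2 (HO_sep hok hh)
  refine ⟨div_mem (key n hn).1 (key d hd).1, mem_separableClosure_iff.1 (div_mem (key n hn).2
    (key d hd).2)⟩

end Pool.Agent.Lib.TU
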