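import Pool.Agent.Lib.TU.HOMap
import Pool.Agent.Lib.TU.HODs
import Pool.Agent.Lib.TU.TrU

/-!
# Module HOPar: change of parameters and of the coefficient field

`Ĉ ⊆ HO M c` is a finitely generated field such that every element of `C` is congruent to an element
of `Ĉ`; `x̂_i = x_i u_i`, `ŷ = y v + q`.
`Cst m Ĉ`: nonzero elements of the field `Ĉ` have norm one (`‖z‖, ‖z⁻¹‖ ≤ 1`).  Every `ê ∈ Ĉ` is congruent
to a unique element of `C` (`HO_dec`): this defines an isomorphism of fields `Ĉ ≃ C` over `k`, so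
`trdeg Ĉ = m`.  `Indep x̂`: same norms.
`HO M c ≤ HO M ĉ`: let `z ∈ HO M c`; take a model `(x1, G1)` of `c` containing `z`, the `u_i^±1`, `v^±1`, the
element `n` with `q = x^b n`, generators of the field `Ĉ`, and such that `x^b` is a monomial in `x1` with
exponents `≥ 1` (`exists_model`); put `B = Bu c x1 G1`, `x̂1_i :=` the same monomial in `x̂` as `x1_i` in `x`
(`x̂1_i = x1_i U_i`, `U_i` a monomial in the `u_j`), `Ĝ := G1 ∪ {generators of the field C}`.  Then
`Bu ĉ x̂1 Ĝ = B`: `⊆` clear (`Ĉ ⊆ B` since its nonzero elements have norm one); `⊇`: `C ⊆` (generators),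
`x1_i = x̂1_i U_i⁻¹`, but `U_i ∈ G1`?  (put the `u_i` among the generators: replace `G1` by
`G1 ∪ {u_i^±1, v^±1, n, ..}`, this is again a model by `Mdl.dec_all`), `y = v⁻¹ (ŷ - x^b n)`.
Decompositions for `ĉ`: `g ∈ B`: `g = e + (x1, y)B`, `e ∈ C` congruent to `ê ∈ Ĉ`, `e - ê ∈ B` has norm `< 1`, so
is in `(x1, y) B = (x̂1, ŷ) B`.  So `(x̂1, Ĝ)` is a model of `ĉ` in `M`.
`HO M ĉ ≤ HO M c`: `HO_mono`.
`Par Ĉ x̂ ŷ`: algebraic independence by `tr_changeU` (`C = k(gens)`, `x`, `y` are in `HO M ĉ`-like rings: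
elements of `B` are separable algebraic over `Ĉ(x̂1, ŷ)` by `unramU` with base `Ĉ`; so do this before
knowing `Ok`: apply `unramU` to `B`, which is `locV Ĉ[x̂1, ŷ, Ĝ]`).
Chart: density: `HO M ĉ ⊆ cl Ĉ(x̂, ŷ)` (`HO_dens`) contains `C, x, y`, and `C(x, y)` is dense in `L`.
Separability: `S` is separable over `C(x, y)`, whose elements are separable over `Ĉ(x̂, ŷ)`
(`HO_sep`), transitivity.
-/

namespace Pool.Agent.Lib.TU

open Pool.Agent.Lib.MP_3029eb_ag Pool.Agent.Lib.MP_3029eb_ag.Abh Pool.Agent.Lib.TDO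

variable {k W : Type} [Field k] [NormedField W] [IsUltrametricDist W] [Algebra k W] {r m : ℕ}

/-! ### auxiliary lemmas -/

private theorem hopar_le_locV {A : Subring W} {z : W} (hz : z ∈ A) : z ∈ locV (ball W) A :=
  ⟨z, hz, 1, A.one_mem, map_one _, by rw [mul_one]⟩

omit [IsUltrametricDist W] in
private theorem hopar_mon_mul {x u : Fin r → W} (a : Fin r → ℤ) :
    mon (fun i => x i * u i) a = mon x a * mon u a := by
  unfold mon
  rw [← Finset.prod_mul_distrib]
  exact Finset.prod_congr rfl fun i _ => mul_zpow _ _ _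

omit [IsUltrametricDist W] in
private theorem hopar_norm_mon {x x' : Fin r → W} (h : ∀ i, ‖x' i‖ = ‖x i‖) (a : Fin r → ℤ) :
    ‖mon x' a‖ = ‖mon x a‖ := by
  unfold mon
  rw [norm_prod, norm_prod]
  exact Finset.prod_congr rfl fun i _ => by rw [norm_zpow, norm_zpow, h i]

omit [IsUltrametricDist W] in
private theorem hopar_ind {x x' : Fin r → W} (hx : Indep x) (h : ∀ i, ‖x' i‖ = ‖x i‖) :
    Indep x' where
  ne := fun i => norm_ne_zero_iff.1 (by rw [h i]; exact norm_ne_zero_iff.2 (hx.ne i))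
  lt := fun i => by rw [h i]; exact hx.lt i
  indep := fun δ hδ => hx.indep δ (by rw [← hopar_norm_mon h]; exact hδ)

omit [IsUltrametricDist W] in
private theorem hopar_monN_mon {x : Fin r → W} (hx : ∀ i, x i ≠ 0) (B : Fin r → Fin r → ℤ)
    (β : Fin r → ℕ) :
    monN (fun i => mon x (B i)) β = mon x (fun l => ∑ j, (β j : ℤ) * B j l) := by
  unfold monN
  have h : ∀ s : Finset (Fin r), ∏ j ∈ s, mon x (B j) ^ β j =
      mon x (fun l => ∑ j ∈ s, (β j : ℤ) * B j l) := by
    intro s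
    induction s using Finset.induction_on with
    | empty => simp [mon]
    | insert a s ha ih =>
      rw [Finset.prod_insert ha, ih]
      have e : (fun l => ∑ j ∈ insert a s, (β j : ℤ) * B j l) =
          (β a) • B a + fun l => ∑ j ∈ s, (β j : ℤ) * B j l := by
        funext l
        rw [Finset.sum_insert ha, Pi.add_apply, Pi.smul_apply, nsmul_eq_mul]
      rw [e, mon_add x hx, mon_nsmul]
  exact h Finset.univ

private theorem hopar_norm_sum_lt {ι : Type} (s : Finset ι) (f : ι → W)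
    (h : ∀ i ∈ s, ‖f i‖ < 1) : ‖∑ i ∈ s, f i‖ < 1 := by
  refine Finset.sum_induction f (fun z => ‖z‖ < 1)
    (fun a b ha hb => (IsUltrametricDist.norm_add_le_max a b).trans_lt (max_lt ha hb))
    (by rw [norm_zero]; exact one_pos) h

omit [IsUltrametricDist W] in
/-- elements of a trivially normed field generated by elements of a subring closed under inverses
of elements of norm one -/
private theorem hopar_field_mem (C : IntermediateField k W) (hC : ∀ e ∈ C, e ≠ 0 → ‖e‖ = 1)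
    (B : Subring W) (hinv : ∀ z ∈ B, ‖z‖ = 1 → z⁻¹ ∈ B) (hk : ∀ c : k, algebraMap k W c ∈ B)
    (gs : Set W) (hgs : IntermediateField.adjoin k gs = C) (hB : ∀ g ∈ gs, g ∈ B) {z : W}
    (hz : z ∈ C) : z ∈ B := by
  subst hgs
  refine IntermediateField.adjoin_induction k (p := fun z _ => z ∈ B) (fun x hx => hB x hx)
    hk (fun x y _ _ h1 h2 => B.add_mem h1 h2) (fun x hx h1 => ?_)
    (fun x y _ _ h1 h2 => B.mul_mem h1 h2) hz
  by_cases h0 : x = 0
  · rw [h0, inv_zero]; exact B.zero_mem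
  · exact hinv x h1 (hC x hx h0)

/-- The main construction: see the header. -/
private theorem hopar_core {M : IntermediateField k W} {c : Tri k W r} (hr : 0 < r)
    (hok : Ok m M c) (C' : IntermediateField k W) (x' : Fin r → W) (y' : W) (hfg : C'.FG)
    (hC : ∀ z ∈ C', z ∈ HO M c) (hcong : ∀ e ∈ c.C, ∃ e' ∈ C', ‖e - e'‖ < 1)
    (u : Fin r → W) (hu : ∀ i, u i ∈ HO M c) (hu1 : ∀ i, ‖u i‖ = 1)
    (hx : ∀ i, x' i = c.x i * u i) (v q : W) (hv : v ∈ HO M c) (hv1 : ‖v‖ = 1)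
    (hq : q ∈ QH M c) (hy : y' = c.y * v + q) (Z : Finset W) (hZ : ∀ z ∈ Z, z ∈ HO M c) :
    ∃ (x1 x1' : Fin r → W) (G G' : Finset W), Mdl M c x1 G ∧
      Mdl M (⟨C', x', y'⟩ : Tri k W r) x1' G' ∧
      (∀ z, z ∈ Bu c x1 G ↔ z ∈ Bu (⟨C', x', y'⟩ : Tri k W r) x1' G') ∧
      (∀ z ∈ Z, z ∈ Bu c x1 G) ∧
      (∀ z ∈ Bu c x1 G, IsSeparable (Kxy C' x' y') z) := by
  classical
  have unit' : ∀ e ∈ C', e ≠ 0 → ‖e‖ = 1 := by
    intro e he h0
    have h1 := HO_norm_le hok (hC e he)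
    have h2 := HO_norm_le hok (hC e⁻¹ (inv_mem he))
    rw [norm_inv] at h2
    exact le_antisymm h1 ((inv_le_one₀ (norm_pos_iff.2 h0)).1 h2)
  obtain ⟨gs', hgs'⟩ := hfg
  obtain ⟨gs, hgs⟩ := hok.cst.fg
  obtain ⟨b, hb, n, hn, hqn⟩ := hq
  have hgs'H : ∀ g ∈ gs', g ∈ HO M c := fun g hg =>
    hC g (hgs' ▸ IntermediateField.subset_adjoin k _ hg)
  have hgsH : ∀ g ∈ gs, g ∈ HO M c := fun g hg =>
    C_mem_HO hok (hgs ▸ IntermediateField.subset_adjoin k _ hg)
  set Z0 : Finset W := Z ∪ gs' ∪ gs ∪ Finset.univ.image u ∪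
    Finset.univ.image (fun i => (u i)⁻¹) ∪ {v, v⁻¹, n} with hZ0def
  have hZ0 : ∀ z ∈ Z0, z ∈ HO M c := by
    intro z hz
    simp only [hZ0def, Finset.mem_union, Finset.mem_image, Finset.mem_univ, true_and,
      Finset.mem_insert, Finset.mem_singleton] at hz
    rcases hz with ((((h | h) | h) | ⟨i, rfl⟩) | ⟨i, rfl⟩) | (rfl | rfl | rfl)
    · exact hZ z h
    · exact hgs'H z h
    · exact hgsH z h
    · exact hu i
    · exact inv_mem_HO hok (hu i) (hu1 i)
    · exact hv
    · exact inv_mem_HO hok hv hv1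
    · exact hn
  obtain ⟨x1, G1, hM1, hZ1, hY1⟩ := exists_model hok Z0 hZ0 {b} (by
    intro a ha
    rw [Finset.mem_singleton.1 ha]
    exact hb.le)
  obtain ⟨β, hβ, hβ1⟩ := hY1 b (Finset.mem_singleton_self b)
  have hβ2 := hβ1 hb
  obtain ⟨A, Bm, hA, hB, hAB⟩ := hM1.mt.mat
  have hind1 := hM1.mt.ind
  have hG1 : ∀ g ∈ G1, ‖g‖ ≤ 1 := fun g hg => (hM1.gM g hg).2
  set B : Subring W := Bu c x1 G1 with hBdef
  have hBinv : ∀ z ∈ B, ‖z‖ = 1 → z⁻¹ ∈ B := fun z hz h1 => inv_mem_Bu hz h1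
  have hCB : ∀ z ∈ c.C, z ∈ B := fun z hz => C_mem_Bu hok hind1 hG1 hz
  have hkB : ∀ a : k, algebraMap k W a ∈ B := fun a => hCB _ (c.C.algebraMap_mem a)
  have hxB : ∀ i, x1 i ∈ B := fun i => x_mem_Bu hok hind1 hG1 i
  have hyB : c.y ∈ B := y_mem_Bu hok hind1 hG1
  have hGB : ∀ g ∈ G1, g ∈ B := fun g hg => G_mem_Bu hok hind1 hG1 hg
  have hBn : ∀ z ∈ B, ‖z‖ ≤ 1 := fun z hz => norm_le_of_mem_Bu hok hind1 hG1 hz
  have hmZ : Z ⊆ Z0 := by intro z hz; simp [hZ0def, hz]
  have hmgs' : gs' ⊆ Z0 := by intro z hz; simp [hZ0def, hz]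
  have hmgs : gs ⊆ Z0 := by intro z hz; simp [hZ0def, hz]
  have hmu : ∀ i, u i ∈ Z0 := by intro i; simp [hZ0def]
  have hmui : ∀ i, (u i)⁻¹ ∈ Z0 := by intro i; simp [hZ0def]
  have hmv : v ∈ Z0 := by simp [hZ0def]
  have hmvi : v⁻¹ ∈ Z0 := by simp [hZ0def]
  have hmn : n ∈ Z0 := by simp [hZ0def]
  have hC'B : ∀ z ∈ C', z ∈ B := fun z hz =>
    hopar_field_mem C' unit' B hBinv hkB (gs' : Set W) hgs' (fun g hg => hZ1 g (hmgs' hg)) hz
  -- the new monomial parameters
  set U : Fin r → W := fun i => mon u (Bm i) with hUdef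
  have hune : ∀ i, u i ≠ 0 := fun i h => by
    have := hu1 i; rw [h, norm_zero] at this; exact zero_ne_one this
  have hvne : v ≠ 0 := fun h => by rw [h, norm_zero] at hv1; exact zero_ne_one hv1
  have hUne : ∀ i, U i ≠ 0 := fun i => mon_ne u hune _
  have hU1 : ∀ i, ‖U i‖ = 1 := by
    intro i
    change ‖∏ j, u j ^ Bm i j‖ = 1
    rw [norm_prod]
    exact Finset.prod_eq_one fun j _ => by rw [norm_zpow, hu1 j, one_zpow]
  have hmonS : ∀ (R : Subring W), (∀ z ∈ Z0, z ∈ R) → ∀ a : Fin r → ℤ, mon u a ∈ R := by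
    intro R hR a
    refine R.prod_mem fun j _ => ?_
    rcases Int.eq_nat_or_neg (a j) with ⟨t, ht | ht⟩
    · rw [ht, zpow_natCast]; exact R.pow_mem (hR _ (hmu j)) t
    · rw [ht, zpow_neg, zpow_natCast, ← inv_pow]; exact R.pow_mem (hR _ (hmui j)) t
  have hUB : ∀ i, U i ∈ B := fun i => hmonS B hZ1 _
  have hUiS : ∀ (R : Subring W), (∀ z ∈ Z0, z ∈ R) → ∀ i, (U i)⁻¹ ∈ R := by
    intro R hR i
    rw [hUdef]
    change (mon u (Bm i))⁻¹ ∈ R
    rw [← mon_neg]
    exact hmonS R hR _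
  set x1' : Fin r → W := fun i => mon x' (Bm i) with hx1'def
  have hx'e : x' = fun i => c.x i * u i := funext hx
  have hx1'e : ∀ i, x1' i = x1 i * U i := by
    intro i
    change mon x' (Bm i) = _
    rw [hx'e, hopar_mon_mul, hB i]
  have hx'n : ∀ i, ‖x' i‖ = ‖c.x i‖ := fun i => by rw [hx i, norm_mul, hu1 i, mul_one]
  have hindx' : Indep x' := hopar_ind hok.par.ind hx'n
  have hx1'n : ∀ i, ‖x1' i‖ = ‖x1 i‖ := fun i => by rw [hx1'e i, norm_mul, hU1 i, mul_one]
  have hind1' : Indep x1' := hopar_ind hind1 hx1'n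
  have hx'A : ∀ i, x' i = monN x1' (A i) := by
    intro i
    rw [hx1'def, hopar_monN_mon hindx'.ne]
    have e : (fun l => ∑ j, (A i j : ℤ) * Bm j l) = Pi.single i 1 := by
      funext l
      rw [hAB i l]
      by_cases h : i = l
      · subst h; rw [if_pos rfl, Pi.single_eq_same]
      · rw [if_neg h, Pi.single_eq_of_ne (Ne.symm h)]
    rw [e, mon_single]
  set G' : Finset W := Z0 ∪ G1 with hG'def
  have hG'B : ∀ g ∈ G', g ∈ B := by
    intro g hg
    rcases Finset.mem_union.1 hg with h | h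
    · exact hZ1 g h
    · exact hGB g h
  have hy'B : y' ∈ B := by
    rw [hy, hqn, hβ]
    exact B.add_mem (B.mul_mem hyB (hZ1 _ hmv))
      (B.mul_mem (monN_mem_Bu hok hind1 hG1 β) (hZ1 _ hmn))
  have hx1'B : ∀ i, x1' i ∈ B := fun i => by
    rw [hx1'e i]; exact B.mul_mem (hxB i) (hUB i)
  set c' : Tri k W r := ⟨C', x', y'⟩ with hc'def
  set A' : Subring W := Subring.closure (((c'.C : Set W) ∪ Set.range x1') ∪
    ({c'.y} ∪ (G' : Set W))) with hA'def
  have hBu' : Bu c' x1' G' = locV (ball W) A' := rfl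
  set B' : Subring W := Bu c' x1' G' with hB'def
  have hB'inv : ∀ z ∈ B', ‖z‖ = 1 → z⁻¹ ∈ B' := fun z hz h1 => inv_mem_Bu hz h1
  have hC'B' : ∀ z ∈ C', z ∈ B' := fun z hz =>
    hopar_le_locV (Subring.subset_closure (Or.inl (Or.inl hz)))
  have hxB' : ∀ i, x1' i ∈ B' := fun i =>
    hopar_le_locV (Subring.subset_closure (Or.inl (Or.inr ⟨i, rfl⟩)))
  have hyB' : y' ∈ B' := hopar_le_locV (Subring.subset_closure (Or.inr (Or.inl rfl)))
  have hGB' : ∀ g ∈ G', g ∈ B' := fun g hg =>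
    hopar_le_locV (Subring.subset_closure (Or.inr (Or.inr hg)))
  have hZ0B' : ∀ z ∈ Z0, z ∈ B' := fun z hz => hGB' z (Finset.mem_union_left _ hz)
  have hkB' : ∀ a : k, algebraMap k W a ∈ B' := fun a => hC'B' _ (C'.algebraMap_mem a)
  have hCB' : ∀ z ∈ c.C, z ∈ B' := fun z hz =>
    hopar_field_mem c.C hok.cst.unit B' hB'inv hkB' (gs : Set W) hgs
      (fun g hg => hZ0B' g (hmgs hg)) hz
  have hx1x : ∀ i, x1 i = x1' i * (U i)⁻¹ := fun i => by
    rw [hx1'e i, mul_assoc, mul_inv_cancel₀ (hUne i), mul_one]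
  have hx1B' : ∀ i, x1 i ∈ B' := fun i => by
    rw [hx1x i]; exact B'.mul_mem (hxB' i) (hUiS B' hZ0B' i)
  have hmonNB' : ∀ γ : Fin r → ℕ, monN x1 γ ∈ B' := fun γ =>
    B'.prod_mem fun j _ => B'.pow_mem (hx1B' j) _
  have hyy : c.y = v⁻¹ * (y' - monN x1 β * n) := by
    rw [hy, hqn, hβ]; field_simp; ring
  have hcyB' : c.y ∈ B' := by
    rw [hyy]
    exact B'.mul_mem (hZ0B' _ hmvi) (B'.sub_mem hyB' (B'.mul_mem (hmonNB' β) (hZ0B' _ hmn)))
  have hBB' : ∀ z, z ∈ B ↔ z ∈ B' := by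
    intro z
    constructor
    · exact fun hz => Bu_le B' hCB' hx1B' hcyB'
        (fun g hg => hGB' g (Finset.mem_union_right _ hg)) hB'inv hz
    · exact fun hz => Bu_le (c := c') B hC'B hx1'B hy'B hG'B hBinv hz
  -- decompositions with respect to the new parameters
  set i0 : Fin r := ⟨0, hr⟩ with hi0
  obtain ⟨w, hwB, hw⟩ : ∃ w ∈ B, monN x1 β = x1 i0 * w := by
    refine ⟨monN x1 (β - Pi.single i0 1), monN_mem_Bu hok hind1 hG1 _, ?_⟩
    have e1 : monN x1 β = x1 i0 ^ β i0 * ∏ i ∈ Finset.univ.erase i0, x1 i ^ β i :=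
      (Finset.mul_prod_erase Finset.univ (fun i => x1 i ^ β i) (Finset.mem_univ i0)).symm
    have e2 : monN x1 (β - Pi.single i0 1) = x1 i0 ^ (β i0 - 1) *
        ∏ i ∈ Finset.univ.erase i0, x1 i ^ β i := by
      have e3 : monN x1 (β - Pi.single i0 1) = x1 i0 ^ (β - Pi.single i0 1 : Fin r → ℕ) i0 *
          ∏ i ∈ Finset.univ.erase i0, x1 i ^ (β - Pi.single i0 1 : Fin r → ℕ) i :=
        (Finset.mul_prod_erase Finset.univ
          (fun i => x1 i ^ (β - Pi.single i0 1 : Fin r → ℕ) i) (Finset.mem_univ i0)).symm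
      rw [e3, Pi.sub_apply, Pi.single_eq_same]
      congr 1
      refine Finset.prod_congr rfl fun i hi => ?_
      rw [Pi.sub_apply, Pi.single_eq_of_ne (Finset.ne_of_mem_erase hi), Nat.sub_zero]
    rw [e1, e2, ← mul_assoc]
    congr 1
    rw [← pow_succ']
    congr 1
    have := hβ2 i0
    omega
  have hgen' : ∀ z ∈ B, ‖z‖ < 1 → ∃ (b : Fin r → W) (b0 : W), (∀ i, b i ∈ B') ∧ b0 ∈ B' ∧
      z = ∑ i, b i * x1' i + b0 * y' := by
    intro z hz h1
    obtain ⟨a, a0, ha, ha0, hza⟩ := hM1.gen hok hz h1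
    refine ⟨fun i => a i * (U i)⁻¹ - if i = i0 then a0 * v⁻¹ * n * w * (U i0)⁻¹ else 0,
      a0 * v⁻¹, ?_, ?_, ?_⟩
    · intro i
      refine B'.sub_mem (B'.mul_mem ((hBB' _).1 (ha i)) (hUiS B' hZ0B' i)) ?_
      split_ifs
      · exact B'.mul_mem (B'.mul_mem (B'.mul_mem (B'.mul_mem ((hBB' _).1 ha0) (hZ0B' _ hmvi))
          (hZ0B' _ hmn)) ((hBB' _).1 hwB)) (hUiS B' hZ0B' i0)
      · exact B'.zero_mem
    · exact B'.mul_mem ((hBB' _).1 ha0) (hZ0B' _ hmvi)
    · have e1 : ∀ i, (a i * (U i)⁻¹ - if i = i0 then a0 * v⁻¹ * n * w * (U i0)⁻¹ else 0) *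
          x1' i = a i * x1 i - if i = i0 then a0 * v⁻¹ * n * w * (U i0)⁻¹ * x1' i0 else 0 := by
        intro i
        rw [sub_mul, hx1x i]
        congr 1
        · ring
        · split_ifs with h
          · rw [h]
          · rw [zero_mul]
      rw [Finset.sum_congr rfl fun i _ => e1 i, Finset.sum_sub_distrib,
        Finset.sum_ite_eq' Finset.univ i0, if_pos (Finset.mem_univ i0), hza, hyy, hw, hx1x i0]
      ring
  have hlt1 : ∀ (a : Fin r → W) (a0 : W), (∀ i, a i ∈ B) → a0 ∈ B →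
      ‖∑ i, a i * x1 i + a0 * c.y‖ < 1 := by
    intro a a0 ha ha0
    have hmul : ∀ s t : W, s ∈ B → ‖t‖ < 1 → ‖s * t‖ < 1 := by
      intro s t hs ht
      rw [norm_mul]
      calc ‖s‖ * ‖t‖ ≤ 1 * ‖t‖ := mul_le_mul_of_nonneg_right (hBn s hs) (norm_nonneg _)
        _ < 1 := by rw [one_mul]; exact ht
    refine (IsUltrametricDist.norm_add_le_max _ _).trans_lt (max_lt ?_ ?_)
    · exact hopar_norm_sum_lt _ _ fun i _ => hmul _ _ (ha i) (hind1.lt i)
    · exact hmul _ _ ha0 hok.par.y1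
  have hres' : ∀ z ∈ B, ∃ e' ∈ C', ‖z - e'‖ < 1 := by
    intro z hz
    obtain ⟨e, he, a, a0, ha, ha0, hze⟩ := hM1.dec_all hok hz
    obtain ⟨e', he', hee⟩ := hcong e he
    refine ⟨e', he', ?_⟩
    have h1 : z - e' = (e - e') + (∑ i, a i * x1 i + a0 * c.y) := by rw [hze]; ring
    rw [h1]
    exact (IsUltrametricDist.norm_add_le_max _ _).trans_lt (max_lt hee (hlt1 a a0 ha ha0))
  have hmdl' : Mdl M c' x1' G' := by
    refine ⟨⟨hind1', A, Bm, hx'A, fun i => rfl, hAB⟩, fun g hg =>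
      ⟨hM1.mem_M hok (hG'B g hg), hBn g (hG'B g hg)⟩, fun g hg => ?_⟩
    obtain ⟨e', he', h1⟩ := hres' g (hG'B g hg)
    obtain ⟨a, a0, ha, ha0, h2⟩ := hgen' (g - e') (B.sub_mem (hG'B g hg) (hC'B e' he')) h1
    refine ⟨e', he', a, a0, ha, ha0, ?_⟩
    change g = e' + ∑ i, a i * x1' i + a0 * y'
    rw [add_assoc, ← h2]; ring
  refine ⟨x1, x1', G1, G', hM1, hmdl', hBB', fun z hz => hZ1 z (hmZ hz), ?_⟩
  -- separability
  intro z hz
  set H : Finset W := G' ∪ Finset.univ.image x1' ∪ {y'} with hHdef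
  have hHset : (Set.range (algebraMap C' W) ∪ (H : Set W)) =
      (((c'.C : Set W) ∪ Set.range x1') ∪ ({c'.y} ∪ (G' : Set W))) := by
    have h1 : Set.range (algebraMap C' W) = (C' : Set W) := Subtype.range_coe
    rw [h1, hHdef]
    ext t
    simp only [Finset.coe_union, Finset.coe_image, Finset.coe_univ, Set.image_univ,
      Finset.coe_singleton, Set.mem_union]
    tauto
  have hlocH : locV (ball W) (Subring.closure (Set.range (algebraMap C' W) ∪ (H : Set W))) =
      B' := by rw [hHset]; rfl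
  have hHB : ∀ g ∈ H, g ∈ B := by
    intro g hg
    rcases Finset.mem_union.1 hg with h | h
    · rcases Finset.mem_union.1 h with h | h
      · exact hG'B g h
      · obtain ⟨i, -, rfl⟩ := Finset.mem_image.1 h
        exact hx1'B i
    · rw [Finset.mem_singleton.1 h]; exact hy'B
  have hy'1 : ‖y'‖ < 1 := by
    rw [hy]
    refine (IsUltrametricDist.norm_add_le_max _ _).trans_lt (max_lt ?_ ?_)
    · rw [norm_mul, hv1, mul_one]; exact hok.par.y1
    · rw [hqn, norm_mul]
      calc ‖mon c.x b‖ * ‖n‖ ≤ ‖mon c.x b‖ * 1 :=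
            mul_le_mul_of_nonneg_left (HO_norm_le hok hn) (norm_nonneg _)
        _ < 1 := by rw [mul_one]; exact hb
  have hsepH : ∀ z ∈ IntermediateField.adjoin C' (H : Set W),
      IsSeparable (IntermediateField.adjoin C'
        (Set.range (fun o : Option (Fin r) => o.elim y' x1'))) z := by
    intro z hz
    refine unramU (k := C') (W := W) (fun e he => unit' e e.2 fun h => he (Subtype.ext h)) H
      (fun g hg => hBn g (hHB g hg)) (fun g hg => ?_)
      (fun o : Option (Fin r) => o.elim y' x1') ?_ ?_ ?_ z hz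
    · obtain ⟨e', he', h⟩ := hres' g (hHB g hg)
      exact ⟨⟨e', he'⟩, h⟩
    · intro o
      rw [hlocH]
      rcases o with _ | i
      · exact hyB'
      · exact hxB' i
    · intro o
      rcases o with _ | i
      · exact hy'1
      · exact hind1'.lt i
    · intro z hz h1
      rw [hlocH] at hz ⊢
      obtain ⟨a, a0, ha, ha0, h2⟩ := hgen' z ((hBB' z).2 hz) h1
      refine ⟨fun o => o.elim a0 a, fun o => ?_, ?_⟩
      · rcases o with _ | i
        · exact ha0
        · exact ha i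
      · rw [Fintype.sum_option, h2, add_comm]
        rfl
  have hadj : IntermediateField.adjoin C'
      (Set.range (fun o : Option (Fin r) => o.elim y' x1')) = Kxy C' x' y' := by
    unfold Kxy
    have ha : ∀ j, x' j ∈ IntermediateField.adjoin C' (Set.range x' ∪ {y'}) := fun j =>
      IntermediateField.subset_adjoin C' _ (Or.inl ⟨j, rfl⟩)
    have hb : ∀ j, x1' j ∈ IntermediateField.adjoin C'
        (Set.range (fun o : Option (Fin r) => o.elim y' x1')) := fun j =>
      IntermediateField.subset_adjoin C' _ ⟨some j, rfl⟩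
    apply le_antisymm
    · rw [IntermediateField.adjoin_le_iff]
      rintro _ ⟨o, rfl⟩
      rcases o with _ | i
      · exact IntermediateField.subset_adjoin C' _ (Or.inr rfl)
      · change mon x' (Bm i) ∈ IntermediateField.adjoin C' (Set.range x' ∪ {y'})
        exact (IntermediateField.adjoin C' (Set.range x' ∪ {y'})).prod_mem fun j _ =>
          zpow_mem (ha j) _
    · rw [IntermediateField.adjoin_le_iff]
      rintro t (⟨i, rfl⟩ | ht)
      · rw [hx'A i]
        exact (IntermediateField.adjoin C' (Set.range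
          (fun o : Option (Fin r) => o.elim y' x1'))).prod_mem fun j _ => pow_mem (hb j) _
      · rw [Set.mem_singleton_iff.1 ht]
        exact IntermediateField.subset_adjoin C' _ ⟨none, rfl⟩
  rw [← hadj]
  apply hsepH
  -- B' is contained in the field generated by H
  set K : IntermediateField C' W := IntermediateField.adjoin C' (H : Set W) with hKdef
  have hz' := (hBB' z).1 hz
  have hmain := Bu_le (c := c') (x' := x1') (G := G') K.toSubfield.toSubring
    (fun e he => K.algebraMap_mem (⟨e, he⟩ : C'))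
    (fun i => IntermediateField.subset_adjoin _ _ (by
      rw [hHdef]; simp))
    (IntermediateField.subset_adjoin _ _ (by rw [hHdef]; simp [hc'def]))
    (fun g hg => IntermediateField.subset_adjoin _ _ (by
      rw [hHdef]
      simp only [Finset.coe_union, Set.mem_union, Finset.mem_coe]
      exact Or.inl (Or.inl hg)))
    (fun z hz _ => K.inv_mem hz) hz'
  exact hmain

/-- the transcendence degree of the new field of constants -/
private theorem hopar_trd {M : IntermediateField k W} {c : Tri k W r} (hr : 0 < r)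
    (hok : Ok m M c) (C' : IntermediateField k W)
    (hC : ∀ z ∈ C', z ∈ HO M c) (hcong : ∀ e ∈ c.C, ∃ e' ∈ C', ‖e - e'‖ < 1)
    (unit' : ∀ e ∈ C', e ≠ 0 → ‖e‖ = 1) : Algebra.trdeg k C' = (m : Cardinal) := by
  choose f hf hf1 using hcong
  have huniq : ∀ a ∈ C', ∀ b ∈ C', ‖a - b‖ < 1 → a = b := by
    intro a ha b hb hab
    by_contra hne
    have := unit' (a - b) (sub_mem ha hb) (sub_ne_zero.2 hne)
    rw [this] at hab
    exact lt_irrefl _ hab
  have hF : ∀ (e : c.C) (z : W), z ∈ C' → ‖(e : W) - z‖ < 1 → f e e.2 = z := by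
    intro e z hz h
    refine huniq _ (hf e e.2) _ hz ?_
    have h1 : f e e.2 - z = ((e : W) - z) + -((e : W) - f e e.2) := by ring
    rw [h1]
    refine (IsUltrametricDist.norm_add_le_max _ _).trans_lt (max_lt h ?_)
    rw [norm_neg]; exact hf1 e e.2
  have hCn : ∀ e ∈ c.C, ‖e‖ ≤ 1 := by
    intro e he
    by_cases h0 : e = 0
    · rw [h0, norm_zero]; exact zero_le_one
    · exact (hok.cst.unit e he h0).le
  have hC'n : ∀ e ∈ C', ‖e‖ ≤ 1 := fun e he => HO_norm_le hok (hC e he)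
  let φ : c.C →ₐ[k] C' :=
    { toFun := fun e => ⟨f e e.2, hf e e.2⟩
      map_one' := Subtype.ext (hF 1 1 (one_mem _) (by
        change ‖(1 : W) - 1‖ < 1
        rw [sub_self, norm_zero]; exact one_pos))
      map_zero' := Subtype.ext (hF 0 0 (zero_mem _) (by
        change ‖(0 : W) - 0‖ < 1
        rw [sub_self, norm_zero]; exact one_pos))
      map_mul' := fun a b => Subtype.ext (hF (a * b) (f a a.2 * f b b.2)
        (mul_mem (hf _ _) (hf _ _)) (by
          change ‖(a : W) * (b : W) - f a a.2 * f b b.2‖ < 1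
          have h1 : (a : W) * (b : W) - f a a.2 * f b b.2 =
              (a : W) * ((b : W) - f b b.2) + ((a : W) - f a a.2) * f b b.2 := by ring
          rw [h1]
          refine (IsUltrametricDist.norm_add_le_max _ _).trans_lt (max_lt ?_ ?_)
          · rw [norm_mul]
            calc ‖(a : W)‖ * ‖(b : W) - f b b.2‖ ≤ 1 * ‖(b : W) - f b b.2‖ :=
                  mul_le_mul_of_nonneg_right (hCn a a.2) (norm_nonneg _)
              _ < 1 := by rw [one_mul]; exact hf1 b b.2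
          · rw [norm_mul]
            calc ‖(a : W) - f a a.2‖ * ‖f b b.2‖ ≤ ‖(a : W) - f a a.2‖ * 1 :=
                  mul_le_mul_of_nonneg_left (hC'n _ (hf b b.2)) (norm_nonneg _)
              _ < 1 := by rw [mul_one]; exact hf1 a a.2))
      map_add' := fun a b => Subtype.ext (hF (a + b) (f a a.2 + f b b.2)
        (add_mem (hf _ _) (hf _ _)) (by
          change ‖((a : W) + (b : W)) - (f a a.2 + f b b.2)‖ < 1
          have h1 : ((a : W) + (b : W)) - (f a a.2 + f b b.2) =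
              ((a : W) - f a a.2) + ((b : W) - f b b.2) := by ring
          rw [h1]
          exact (IsUltrametricDist.norm_add_le_max _ _).trans_lt
            (max_lt (hf1 a a.2) (hf1 b b.2))))
      commutes' := fun a => Subtype.ext (hF (algebraMap k c.C a) (algebraMap k W a)
        (C'.algebraMap_mem a) (by
          change ‖(algebraMap k W a) - (algebraMap k W a)‖ < 1
          rw [sub_self, norm_zero]; exact one_pos)) }
  have hbij : Function.Bijective φ := by
    refine ⟨φ.toRingHom.injective, fun z => ?_⟩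
    obtain ⟨e, he, q, hq, b, hb, hz⟩ := HO_dec hr hok (hC z z.2)
    refine ⟨⟨e, he⟩, Subtype.ext (hF ⟨e, he⟩ z z.2 ?_)⟩
    have h1 : e - (z : W) = -(q + b * c.y) := by rw [hz]; ring
    change ‖e - (z : W)‖ < 1
    rw [h1, norm_neg]
    refine (IsUltrametricDist.norm_add_le_max _ _).trans_lt (max_lt (QH_norm hok hq) ?_)
    rw [norm_mul]
    calc ‖b‖ * ‖c.y‖ ≤ 1 * ‖c.y‖ :=
          mul_le_mul_of_nonneg_right (HO_norm_le hok hb) (norm_nonneg _)
      _ < 1 := by rw [one_mul]; exact hok.par.y1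
  rw [← (AlgEquiv.ofBijective φ hbij).trdeg_eq]
  exact hok.cst.trd

/-- See the header. -/
theorem par_change {M : IntermediateField k W} {c : Tri k W r} (hr : 0 < r) (hok : Ok m M c)
    (C' : IntermediateField k W) (x' : Fin r → W) (y' : W) (hfg : C'.FG)
    (hC : ∀ z ∈ C', z ∈ HO M c) (hcong : ∀ e ∈ c.C, ∃ e' ∈ C', ‖e - e'‖ < 1)
    (hx : ∀ i, ∃ u ∈ HO M c, ‖u‖ = 1 ∧ x' i = c.x i * u)
    (hy : ∃ v ∈ HO M c, ‖v‖ = 1 ∧ ∃ q ∈ QH M c, y' = c.y * v + q) :
    Ok m M (⟨C', x', y'⟩ : Tri k W r) ∧ HO M (⟨C', x', y'⟩ : Tri k W r) = HO M c := by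
  choose u hu hu1 hxu using hx
  obtain ⟨v, hv, hv1, q, hq, hyv⟩ := hy
  have unit' : ∀ e ∈ C', e ≠ 0 → ‖e‖ = 1 := by
    intro e he h0
    have h1 := HO_norm_le hok (hC e he)
    have h2 := HO_norm_le hok (hC e⁻¹ (inv_mem he))
    rw [norm_inv] at h2
    exact le_antisymm h1 ((inv_le_one₀ (norm_pos_iff.2 h0)).1 h2)
  have hcore := hopar_core hr hok C' x' y' hfg hC hcong u hu hu1 hxu v q hv hv1 hq hyv
  have hx'n : ∀ i, ‖x' i‖ = ‖c.x i‖ := fun i => by rw [hxu i, norm_mul, hu1 i, mul_one]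
  have hindx' : Indep x' := hopar_ind hok.par.ind hx'n
  have htrd := hopar_trd hr hok C' hC hcong unit'
  have hxH : ∀ i, c.x i ∈ HO M c := fun i => by
    have := mon_mem_HO hok (a := Pi.single i 1) (by
      rw [mon_single]; exact (hok.par.ind.lt i).le)
    rwa [mon_single] at this
  have hx'H : ∀ i, x' i ∈ HO M c := fun i => by
    rw [hxu i]; exact (HO M c).mul_mem (hxH i) (hu i)
  have hy'H : y' ∈ HO M c := by
    rw [hyv]
    exact (HO M c).add_mem ((HO M c).mul_mem (y_mem_HO hok) hv) (QH_mem_HO hok hq)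
  have hsep : ∀ z ∈ HO M c, IsSeparable (Kxy C' x' y') z := by
    intro z hz
    obtain ⟨x1, x1', G, G', -, -, -, h1, h2⟩ := hcore {z} (fun w hw => by
      rw [Finset.mem_singleton.1 hw]; exact hz)
    exact h2 z (h1 z (Finset.mem_singleton_self z))
  have hok' : Ok m M (⟨C', x', y'⟩ : Tri k W r) := by
    refine ⟨⟨unit', hfg, htrd⟩, ⟨hindx', ?_, ?_⟩, fun z hz => HO_mem_M hok (hC z hz),
      fun i => HO_mem_M hok (hx'H i), HO_mem_M hok hy'H⟩
    · change ‖y'‖ < 1
      rw [hyv]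
      refine (IsUltrametricDist.norm_add_le_max _ _).trans_lt (max_lt ?_ (QH_norm hok hq))
      rw [norm_mul, hv1, mul_one]; exact hok.par.y1
    · refine tr_changeU c.C C' hok.cst.trd htrd (Fin.cons c.y c.x)
        (par_indep c.x c.y hok.par.ind.ne hok.par.tr) x' y' hindx'.ne ?_ ?_
      · intro e he
        exact (hsep e (C_mem_HO hok he)).isIntegral.isAlgebraic
      · intro i
        refine Fin.cases ?_ (fun j => ?_) i
        · rw [Fin.cons_zero]; exact (hsep _ (y_mem_HO hok)).isIntegral.isAlgebraic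
        · rw [Fin.cons_succ]; exact (hsep _ (hxH j)).isIntegral.isAlgebraic
  refine ⟨hok', le_antisymm ?_ ?_⟩
  · intro z hz
    refine HO_mono hr hok' hok le_rfl hC (fun i => ?_) hy'H z hz
    refine ⟨Pi.single i 1, u i, hu i, hu1 i, ?_⟩
    rw [mon_single]; exact hxu i
  · intro z hz
    obtain ⟨x1, x1', G, G', hM1, hM2, h0, h1, -⟩ := hcore {z} (fun w hw => by
      rw [Finset.mem_singleton.1 hw]; exact hz)
    rw [mem_HO_iff hok']
    exact ⟨x1', G', hM2, (h0 z).1 (h1 z (Finset.mem_singleton_self z))⟩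

/-- See the header. -/
theorem par_change_chart {S L : IntermediateField k W} {c : Tri k W r} (hr : 0 < r)
    (hch : Ch m S L c) (C' : IntermediateField k W) (x' : Fin r → W) (y' : W) (hfg : C'.FG)
    (hC : ∀ z ∈ C', z ∈ HO (S ⊓ L) c) (hcong : ∀ e ∈ c.C, ∃ e' ∈ C', ‖e - e'‖ < 1)
    (hx : ∀ i, ∃ u ∈ HO (S ⊓ L) c, ‖u‖ = 1 ∧ x' i = c.x i * u)
    (hy : ∃ v ∈ HO (S ⊓ L) c, ‖v‖ = 1 ∧ ∃ q ∈ QH (S ⊓ L) c, y' = c.y * v + q) :
    Ch m S L (⟨C', x', y'⟩ : Tri k W r) := by
  obtain ⟨hok', hHO⟩ := par_change hr hch.ok C' x' y' hfg hC hcong hx hy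
  have hok := hch.ok
  have hxH : ∀ i, c.x i ∈ HO (S ⊓ L) c := fun i => by
    have := mon_mem_HO hok (a := Pi.single i 1) (by
      rw [mon_single]; exact (hok.par.ind.lt i).le)
    rwa [mon_single] at this
  have hmem : ∀ z ∈ HO (S ⊓ L) c, z ∈ HO (S ⊓ L) (⟨C', x', y'⟩ : Tri k W r) := by
    intro z hz; rw [hHO]; exact hz
  have hdens : ∀ z ∈ HO (S ⊓ L) c, z ∈ cl (Kxy C' x' y') := fun z hz =>
    HO_dens hok' (hmem z hz)
  have hsep : ∀ z ∈ HO (S ⊓ L) c, IsSeparable (Kxy C' x' y') z := fun z hz =>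
    HO_sep hok' (hmem z hz)
  -- elements of the old field
  have hold : ∀ (K : IntermediateField C' W), (∀ e ∈ c.C, e ∈ K) → (∀ i, c.x i ∈ K) →
      c.y ∈ K → ∀ z ∈ Kxy c.C c.x c.y, z ∈ K := by
    intro K h1 h2 h3 z hz
    refine IntermediateField.adjoin_induction c.C (p := fun z _ => z ∈ K) ?_ ?_ ?_ ?_ ?_ hz
    · rintro t (⟨i, rfl⟩ | ht)
      · exact h2 i
      · rw [Set.mem_singleton_iff.1 ht]; exact h3
    · exact fun e => h1 e e.2
    · exact fun a b _ _ ha hb => add_mem ha hb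
    · exact fun a _ ha => inv_mem ha
    · exact fun a b _ _ ha hb => mul_mem ha hb
  refine ⟨hok', ?_, ?_⟩
  · intro z hz
    have h1 := hch.dense z hz
    rw [mem_cl_iff] at h1
    have h2 : cl (cl (Kxy C' x' y')) = cl (Kxy C' x' y') := cl_cl _
    change z ∈ cl (Kxy C' x' y')
    rw [← h2, mem_cl_iff]
    intro ε hε
    obtain ⟨w, hw, hzw⟩ := h1 ε hε
    exact ⟨w, hold (cl (Kxy C' x' y')) (fun e he => hdens e (C_mem_HO hok he))
      (fun i => hdens _ (hxH i)) (hdens _ (y_mem_HO hok)) w hw, hzw⟩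
  · intro z hz
    change IsSeparable (Kxy C' x' y') z
    have h1 := hch.sep z hz
    set S0 : Set W := (c.C : Set W) ∪ (Set.range c.x ∪ {c.y}) with hS0
    have hS0H : ∀ w ∈ S0, w ∈ HO (S ⊓ L) c := by
      rintro w (h | ⟨i, rfl⟩ | h)
      · exact C_mem_HO hok h
      · exact hxH i
      · rw [Set.mem_singleton_iff.1 h]; exact y_mem_HO hok
    have hsepE : Algebra.IsSeparable (Kxy C' x' y')
        (IntermediateField.adjoin (Kxy C' x' y') S0) := by
      rw [IntermediateField.isSeparable_adjoin_iff_isSeparable]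
      exact fun w hw => hsep w (hS0H w hw)
    have hS0E : ∀ w ∈ S0, w ∈ IntermediateField.adjoin (Kxy C' x' y') S0 := fun w hw =>
      IntermediateField.subset_adjoin _ _ hw
    clear_value S0
    generalize IntermediateField.adjoin (Kxy C' x' y') S0 = E at hsepE hS0E
    have hleE : ∀ w ∈ Kxy c.C c.x c.y, w ∈ E := by
      intro w hw
      have h4 := hold (E.restrictScalars C')
        (fun e he => hS0E e (by rw [hS0]; exact Or.inl he))
        (fun i => hS0E _ (by rw [hS0]; exact Or.inr (Or.inl ⟨i, rfl⟩)))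
        (hS0E _ (by rw [hS0]; exact Or.inr (Or.inr rfl))) w hw
      exact h4
    letI : Algebra (Kxy c.C c.x c.y) E :=
      RingHom.toAlgebra
        { toFun := fun w => (⟨w, hleE w w.2⟩ : E)
          map_one' := rfl
          map_zero' := rfl
          map_mul' := fun _ _ => rfl
          map_add' := fun _ _ => rfl }
    haveI : IsScalarTower (Kxy c.C c.x c.y) E W := IsScalarTower.of_algebraMap_eq (fun _ => rfl)
    have h3 : IsSeparable E z := h1.tower_top E
    exact IsSeparable.of_algebra_isSeparable_of_isSeparable _ h3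

end Pool.Agent.Lib.TU
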