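import Pool.Agent.Lib.TDO.SepDiff
import Pool.Agent.Lib.TDO.DiffRank

/-!
# Module InvB: invariant separating transcendence basis

`C0` := the field of the elements fixed by all `ρ σ`; `C / C0` is finite Galois (Artin), so separable.
`Ω[C/k]` has dimension `m` over `C` (`TDO.diff_rank`) and is spanned by `{dz | z ∈ C0}`: for `w ∈ C` with
minimal polynomial `f` over `C0`, `0 = d(f(w)) = f'(w) dw + ∑ w^i d(f_i)` and `f'(w) ≠ 0`.  Choose
`z_1, .., z_m ∈ C0` such that the `dz_i` form a basis; `TDO.sep_of_diff`: `C` is separable over `k(z)`;
as the transcendence degree is `m` the `z_i` are algebraically independent.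
-/

namespace Pool.Agent.Lib.TU

/-- The differentials of a subfield over which `C` is separable span the differentials. -/
private theorem invb_span {k C : Type} [Field k] [Field C] [Algebra k C] (K0 : Subfield C)
    [Algebra.IsSeparable K0 C] :
    Submodule.span C (KaehlerDifferential.D k C '' (K0 : Set C)) = ⊤ := by
  set N := Submodule.span C (KaehlerDifferential.D k C '' (K0 : Set C)) with hN
  have hK : ∀ a : K0, KaehlerDifferential.D k C (a : C) ∈ N := fun a =>
    Submodule.subset_span ⟨(a : C), a.2, rfl⟩
  have key : ∀ (w : C) (P : Polynomial K0),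
      KaehlerDifferential.D k C (Polynomial.aeval w P) -
        Polynomial.aeval w (Polynomial.derivative P) • KaehlerDifferential.D k C w ∈ N := by
    intro w P
    induction P using Polynomial.induction_on' with
    | add p q hp hq =>
      have : KaehlerDifferential.D k C (Polynomial.aeval w (p + q)) -
          Polynomial.aeval w (Polynomial.derivative (p + q)) • KaehlerDifferential.D k C w =
          (KaehlerDifferential.D k C (Polynomial.aeval w p) -
            Polynomial.aeval w (Polynomial.derivative p) • KaehlerDifferential.D k C w) +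
          (KaehlerDifferential.D k C (Polynomial.aeval w q) -
            Polynomial.aeval w (Polynomial.derivative q) • KaehlerDifferential.D k C w) := by
        simp only [map_add, add_smul]
        abel
      rw [this]
      exact N.add_mem hp hq
    | monomial n a =>
      have h1 : Polynomial.aeval w (Polynomial.monomial n a) = (a : C) * w ^ n := by
        rw [Polynomial.aeval_monomial]
        rfl
      have h2 : Polynomial.aeval w (Polynomial.derivative (Polynomial.monomial n a)) =
          (a : C) * ((n : C) * w ^ (n - 1)) := by
        rw [Polynomial.derivative_monomial, Polynomial.aeval_monomial, map_mul, map_natCast]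
        rw [mul_assoc]
        rfl
      have h3 : KaehlerDifferential.D k C ((a : C) * w ^ n) =
          ((a : C) * ((n : C) * w ^ (n - 1))) • KaehlerDifferential.D k C w +
            (w ^ n) • KaehlerDifferential.D k C (a : C) := by
        rw [Derivation.leibniz, Derivation.leibniz_pow]
        congr 1
        rw [mul_smul, mul_smul, Nat.cast_smul_eq_nsmul]
      rw [h1, h2, h3, add_sub_cancel_left]
      exact N.smul_mem _ (hK a)
  rw [eq_top_iff, ← KaehlerDifferential.span_range_derivation k C, Submodule.span_le]
  rintro _ ⟨w, rfl⟩
  have hsep : IsSeparable K0 w := Algebra.IsSeparable.isSeparable K0 w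
  have h1 := key w (minpoly K0 w)
  rw [minpoly.aeval, map_zero, zero_sub] at h1
  have h2 : Polynomial.aeval w (Polynomial.derivative (minpoly K0 w)) ≠ 0 :=
    hsep.aeval_derivative_ne_zero (minpoly.aeval K0 w)
  have h3 := N.neg_mem h1
  rw [neg_neg] at h3
  exact (N.smul_mem_iff h2).1 h3

/-- See the header. -/
theorem inv_basis {k C : Type} [Field k] [PerfectField k] [Field C] [Algebra k C]
    [Algebra.EssFiniteType k C] {m : ℕ} (htr : Algebra.trdeg k C = (m : Cardinal)) {Γ : Type}
    [Group Γ] [Finite Γ] (ρ : Γ →* (C ≃ₐ[k] C)) :
    ∃ z : Fin m → C, (∀ i σ, ρ σ (z i) = z i) ∧ AlgebraicIndependent k z ∧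
      ∀ w : C, IsSeparable (IntermediateField.adjoin k (Set.range z)) w := by
  have : Finite ρ.range := Finite.of_surjective _ ρ.rangeRestrict_surjective
  set K0 : Subfield C := FixedPoints.subfield ρ.range C with hK0
  have hsp := invb_span (k := k) K0
  have hrank := TDO.diff_rank (k := k) (F := C) m htr
  obtain ⟨f, hf, hspan, hli⟩ := Submodule.exists_fun_fin_finrank_span_eq C
    (KaehlerDifferential.D k C '' (K0 : Set C))
  replace hspan := hspan.trans hsp
  have hm : Module.finrank C (Submodule.span C (KaehlerDifferential.D k C '' (K0 : Set C))) = m := by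
    rw [hsp, finrank_top, hrank]
  choose z' hz' hz'' using hf
  let z : Fin m → C := fun i => z' (Fin.cast hm.symm i)
  have hrange : Set.range f = KaehlerDifferential.D k C '' (Set.range z) := by
    ext t
    constructor
    · rintro ⟨i, rfl⟩
      exact ⟨z' i, ⟨Fin.cast hm i, rfl⟩, hz'' i⟩
    · rintro ⟨_, ⟨i, rfl⟩, rfl⟩
      exact ⟨Fin.cast hm.symm i, (hz'' _).symm⟩
  have hsep : ∀ w : C, IsSeparable (IntermediateField.adjoin k (Set.range z)) w := by
    intro w
    exact TDO.sep_of_diff (Set.range z) (by rw [← hrange, hspan]) w
  refine ⟨z, ?_, ?_, hsep⟩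
  · intro i σ
    have h1 : z i ∈ K0 := hz' _
    exact h1 ⟨ρ σ, ⟨σ, rfl⟩⟩
  · have halg : Algebra.IsAlgebraic (IntermediateField.adjoin k (Set.range z)) C :=
      ⟨fun w => (hsep w).isIntegral.isAlgebraic⟩
    have halg' : Algebra.IsAlgebraic (Algebra.adjoin k (Set.range z)) C :=
      IntermediateField.isAlgebraic_adjoin_iff_top.1 halg
    exact (Algebra.IsAlgebraic.isTranscendenceBasis_of_le_trdeg_of_finite k z (by rw [htr]; simp)).1

end Pool.Agent.Lib.TU
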