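import Pool.Agent.Lib.TU.StabD
import Pool.Agent.Lib.TU.HOcr
import Pool.Agent.Lib.TU.HenU

/-!
# Module InvCf: invariant coefficient fields

`K := k(Z)`, trivially normed, `K ⊆ HO` (nonzero elements of `k[Z]` are units of `HO`).
`C' := {e ∈ HO M c | e separable algebraic over K}` (`M = S ⊓ L'`): its nonzero elements have norm one
(`unit_of_algebraic`), so they are units of `HO`: `C'` is a field.
`Γ`-stable: `σ` fixes the `Z i ∈ L` (`act.fix`), `σ (HO) ⊆ HO`, `σ e` is a root of the same polynomial.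
Congruence: `e ∈ c.C`, `h` as in `hsep`; `henselU` in `L'`: `ê ∈ L'`, `h(ê) = 0`, `‖e - ê‖ < 1`; `ê` is separable
over `K ⊆ S` so in `S`; `ê ∈ HO` by `hen'` (`b = e`).  So `ê ∈ C'`.
`C'.FG`: every `e' ∈ C'` is congruent to a unique `e ∈ c.C` (`HO_dec`): this defines an isomorphism of
`k`-algebras `C' ≃ c.C` (surjective by the congruence statement), and `c.C` is finitely generated.
-/

namespace Pool.Agent.Lib.TU

open Pool.Agent.Lib.MP_3029eb_ag Pool.Agent.Lib.MP_3029eb_ag.Abh Pool.Agent.Lib.TDO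

section
variable {k W : Type} [Field k] [NormedField W] [IsUltrametricDist W] [Algebra k W]

omit [IsUltrametricDist W] in
private theorem InvCf_uniq (B : IntermediateField k W) (hB : ∀ b ∈ B, b ≠ 0 → ‖b‖ = 1)
    {b b' : W} (hb : b ∈ B) (hb' : b' ∈ B) (h : ‖b - b'‖ < 1) : b = b' := by
  by_contra hne
  have h1 := hB (b - b') (sub_mem hb hb') (sub_ne_zero.2 hne)
  exact h.ne h1

omit [IsUltrametricDist W] in
private theorem InvCf_le (B : IntermediateField k W) (hB : ∀ b ∈ B, b ≠ 0 → ‖b‖ = 1)
    {b : W} (hb : b ∈ B) : ‖b‖ ≤ 1 := by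
  by_cases h : b = 0
  · rw [h, norm_zero]; exact zero_le_one
  · exact (hB b hb h).le

/-- Two trivially normed fields with the same residues: one is finitely generated if the other is. -/
private theorem InvCf_fg (A B : IntermediateField k W) (hA : ∀ a ∈ A, a ≠ 0 → ‖a‖ = 1)
    (hB : ∀ b ∈ B, b ≠ 0 → ‖b‖ = 1) (hAB : ∀ a ∈ A, ∃ b ∈ B, ‖a - b‖ < 1)
    (hBA : ∀ b ∈ B, ∃ a ∈ A, ‖a - b‖ < 1) (hfg : A.FG) : B.FG := by
  classical
  have hAB' : ∀ a : A, ∃ b : B, ‖(a : W) - b‖ < 1 := fun a => by
    obtain ⟨b, hb, h⟩ := hAB a a.2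
    exact ⟨⟨b, hb⟩, h⟩
  choose f hf using hAB'
  have key : ∀ (a : A) (b : B), ‖(a : W) - b‖ < 1 → f a = b := by
    intro a b h
    apply Subtype.ext
    refine InvCf_uniq B hB (f a).2 b.2 ?_
    have e : ((f a : W) - b) = ((a : W) - b) + -((a : W) - f a) := by ring
    rw [e]
    refine (IsUltrametricDist.norm_add_le_max _ _).trans_lt (max_lt h ?_)
    rw [norm_neg]
    exact hf a
  let F : A →ₐ[k] B :=
    { toFun := f
      map_one' := key 1 1 (by
        show ‖(1 : W) - 1‖ < 1
        rw [sub_self, norm_zero]; exact one_pos)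
      map_zero' := key 0 0 (by
        show ‖(0 : W) - 0‖ < 1
        rw [sub_self, norm_zero]; exact one_pos)
      map_add' := fun a a' => key _ _ (by
        show ‖((a : W) + a') - ((f a : W) + f a')‖ < 1
        have e : ((a : W) + a') - ((f a : W) + f a') = ((a : W) - f a) + ((a' : W) - f a') := by
          ring
        rw [e]
        exact (IsUltrametricDist.norm_add_le_max _ _).trans_lt (max_lt (hf a) (hf a')))
      map_mul' := fun a a' => key _ _ (by
        show ‖((a : W) * a') - ((f a : W) * f a')‖ < 1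
        have e : ((a : W) * a') - ((f a : W) * f a') =
            (a : W) * ((a' : W) - f a') + ((a : W) - f a) * (f a' : W) := by ring
        rw [e]
        refine (IsUltrametricDist.norm_add_le_max _ _).trans_lt (max_lt ?_ ?_)
        · rw [norm_mul]
          calc ‖(a : W)‖ * ‖(a' : W) - f a'‖ ≤ 1 * ‖(a' : W) - f a'‖ :=
                mul_le_mul_of_nonneg_right (InvCf_le A hA a.2) (norm_nonneg _)
            _ < 1 := by rw [one_mul]; exact hf a'
        · rw [norm_mul]
          calc ‖(a : W) - f a‖ * ‖(f a' : W)‖ ≤ ‖(a : W) - f a‖ * 1 :=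
                mul_le_mul_of_nonneg_left (InvCf_le B hB (f a').2) (norm_nonneg _)
            _ < 1 := by rw [mul_one]; exact hf a)
      commutes' := fun t => key _ _ (by
        show ‖algebraMap k W t - algebraMap k W t‖ < 1
        rw [sub_self, norm_zero]; exact one_pos) }
  have hsurj : Function.Surjective F := by
    intro b
    obtain ⟨a, ha, h⟩ := hBA b b.2
    exact ⟨⟨a, ha⟩, key _ _ h⟩
  have : Algebra.EssFiniteType k A := IntermediateField.essFiniteType_iff.2 hfg
  exact IntermediateField.essFiniteType_iff.1 (Algebra.EssFiniteType.of_surjective F hsurj)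

end

/-- See the header. -/
theorem inv_coef {k W : Type} [Field k] [NormedField W] [IsUltrametricDist W] [Algebra k W]
    {r m : ℕ} (hr : 0 < r) {Γ : Type} [Group Γ] {S L L' : IntermediateField k W}
    (hS : ∀ z : W, IsSeparable S z → z ∈ S) (hL' : IsComplete (L' : Set W)) (hLL' : L ≤ L')
    {act : Act Γ S L L'} {c : Tri k W r} (h : Stb m act c) (Z : Fin m → W)
    (hZ : ∀ i, Z i ∈ HO (S ⊓ L') c ∧ Z i ∈ L)
    (hZi : ∀ P : MvPolynomial (Fin m) k, P ≠ 0 → ‖MvPolynomial.aeval Z P‖ = 1)
    (hsep : ∀ e ∈ c.C, ∃ h : Polynomial (IntermediateField.adjoin k (Set.range Z)), h.Monic ∧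
        ‖Polynomial.aeval e h‖ < 1 ∧ ‖Polynomial.aeval e h.derivative‖ = 1) :
    ∃ C' : IntermediateField k W, C'.FG ∧ (∀ e ∈ C', e ∈ HO (S ⊓ L') c) ∧
      (∀ e ∈ c.C, ∃ e' ∈ C', ‖e - e'‖ < 1) ∧ (∀ i, Z i ∈ C') ∧
      (∀ e ∈ C', IsSeparable (IntermediateField.adjoin k (Set.range Z)) e) ∧
      ∀ σ, ∀ e ∈ C', act.f σ e ∈ C' := by
  have hok := h.ch.ok
  set K : IntermediateField k W := IntermediateField.adjoin k (Set.range Z) with hK
  -- K is trivially normed
  have hKu : ∀ e ∈ K, e ≠ 0 → ‖e‖ = 1 := by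
    intro e he h0
    rw [hK, IntermediateField.mem_adjoin_range_iff] at he
    obtain ⟨P, Q, rfl⟩ := he
    have hP : P ≠ 0 := by
      rintro rfl
      rw [map_zero, zero_div] at h0
      exact h0 rfl
    have hQ : Q ≠ 0 := by
      rintro rfl
      rw [map_zero, div_zero] at h0
      exact h0 rfl
    rw [norm_div, hZi P hP, hZi Q hQ, div_one]
  -- K is contained in HO
  have hpoly : ∀ P : MvPolynomial (Fin m) k, MvPolynomial.aeval Z P ∈ HO (S ⊓ L') c := by
    intro P
    induction P using MvPolynomial.induction_on with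
    | C a =>
      rw [MvPolynomial.aeval_C]
      exact C_mem_HO hok (c.C.algebraMap_mem a)
    | add p q hp hq => rw [map_add]; exact add_mem hp hq
    | mul_X p i hp =>
      rw [map_mul, MvPolynomial.aeval_X]
      exact mul_mem hp (hZ i).1
  have hKHO : ∀ e ∈ K, e ∈ HO (S ⊓ L') c := by
    intro e he
    rw [hK, IntermediateField.mem_adjoin_range_iff] at he
    obtain ⟨P, Q, rfl⟩ := he
    rw [div_eq_mul_inv]
    refine mul_mem (hpoly P) ?_
    by_cases hQ : Q = 0
    · rw [hQ, map_zero, inv_zero]; exact zero_mem _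
    · exact inv_mem_HO hok (hpoly Q) (hZi Q hQ)
  have hKM : K ≤ S ⊓ L' := fun e he => HO_mem_M hok (hKHO e he)
  have hKS : K ≤ S := hKM.trans inf_le_left
  have hKL' : K ≤ L' := hKM.trans inf_le_right
  have hKL : K ≤ L := by
    rw [hK, IntermediateField.adjoin_le_iff]
    rintro _ ⟨i, rfl⟩
    exact (hZ i).2
  have halg : ∀ e : W, IsSeparable K e → e ≠ 0 → ‖e‖ = 1 := fun e he h0 =>
    unit_of_algebraic K hKu he.isIntegral.isAlgebraic h0
  -- the field C'
  let C' : IntermediateField k W :=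
    { carrier := {e | e ∈ HO (S ⊓ L') c ∧ e ∈ separableClosure K W}
      mul_mem' := fun ha hb => ⟨mul_mem ha.1 hb.1, mul_mem ha.2 hb.2⟩
      add_mem' := fun ha hb => ⟨add_mem ha.1 hb.1, add_mem ha.2 hb.2⟩
      algebraMap_mem' := fun t => ⟨C_mem_HO hok (c.C.algebraMap_mem t), by
        have h1 : algebraMap k W t = algebraMap K W (algebraMap k K t) := rfl
        rw [h1]
        exact (separableClosure K W).algebraMap_mem _⟩
      inv_mem' := fun e he => by
        refine ⟨?_, inv_mem he.2⟩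
        by_cases h0 : e = 0
        · rw [h0, inv_zero]; exact zero_mem _
        · exact inv_mem_HO hok he.1 (halg e (mem_separableClosure_iff.1 he.2) h0) }
  have hC' : ∀ e, e ∈ C' ↔ e ∈ HO (S ⊓ L') c ∧ IsSeparable K e := by
    intro e
    rw [← mem_separableClosure_iff (F := K) (E := W)]
    exact Iff.rfl
  have hcu := hok.cst.unit
  have hC'u : ∀ e ∈ C', e ≠ 0 → ‖e‖ = 1 := fun e he h0 => halg e ((hC' e).1 he).2 h0
  -- the congruence statement
  have hcong : ∀ e ∈ c.C, ∃ e' ∈ C', ‖e - e'‖ < 1 := by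
    intro e he
    obtain ⟨g, hg, hg1, hg2⟩ := hsep e he
    set f : Polynomial W := g.map (algebraMap K W) with hf
    have hfc : ∀ j, f.coeff j ∈ L' ∧ ‖f.coeff j‖ ≤ 1 := by
      intro j
      rw [hf, Polynomial.coeff_map]
      exact ⟨hKL' (g.coeff j).2, InvCf_le K hKu (g.coeff j).2⟩
    have heL' : e ∈ L' := (hok.CM he).2
    have he1 : ‖e‖ ≤ 1 := InvCf_le c.C hcu he
    have hfe : f.eval e = Polynomial.aeval e g := by
      rw [hf, Polynomial.eval_map_algebraMap]
    have hfe' : f.derivative.eval e = Polynomial.aeval e g.derivative := by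
      rw [hf, Polynomial.derivative_map, Polynomial.eval_map_algebraMap]
    obtain ⟨e', he', hroot, hee⟩ := henselU L' hL' f hfc heL' he1 (by rw [hfe]; exact hg1)
      (by rw [hfe']; exact hg2)
    have he'1 : ‖e'‖ ≤ 1 := by
      have e2 : e' = e + -(e - e') := by ring
      rw [e2]
      refine (IsUltrametricDist.norm_add_le_max _ _).trans (max_le he1 ?_)
      rw [norm_neg]; exact hee.le
    have hder : f.derivative.eval e' ≠ 0 := by
      intro h0
      have h1 := norm_eval_sub_le f.derivative (fun j => by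
        rw [Polynomial.coeff_derivative, norm_mul]
        have h2 : ‖((j : W) + 1)‖ ≤ 1 := by
          have h3 : ((j : W) + 1) ∈ (ball W) := add_mem (natCast_mem _ j) (one_mem _)
          exact h3
        exact mul_le_one₀ (hfc _).2 (norm_nonneg _) h2) he1 he'1
      rw [h0, sub_zero, hfe', hg2] at h1
      exact absurd hee (not_lt.2 h1)
    have ha0 : Polynomial.aeval e' g = 0 := by
      rw [← Polynomial.eval_map_algebraMap]; exact hroot
    have ha1 : Polynomial.aeval e' g.derivative ≠ 0 := by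
      rw [← Polynomial.eval_map_algebraMap, ← Polynomial.derivative_map]; exact hder
    have hsepe : IsSeparable K e' := sep_of_simple g ha0 ha1
    have hSe : e' ∈ S := by
      apply hS
      have hi : ∀ q : Polynomial K, Polynomial.aeval e' (q.map (IntermediateField.inclusion hKS).toRingHom) =
          Polynomial.aeval e' q := by
        intro q
        rw [← Polynomial.eval_map_algebraMap, ← Polynomial.eval_map_algebraMap, Polynomial.map_map]
        rfl
      refine sep_of_simple (g.map (IntermediateField.inclusion hKS).toRingHom) ?_ ?_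
      · rw [hi]; exact ha0
      · rw [Polynomial.derivative_map, hi]; exact ha1
    refine ⟨e', (hC' e').2 ⟨?_, hsepe⟩, hee⟩
    refine hen' hr hok f (fun j => ?_) (C_mem_HO hok he) ⟨hSe, he'⟩ ?_ hroot ?_
    · rw [hf, Polynomial.coeff_map]
      exact hKHO _ (g.coeff j).2
    · rw [norm_sub_rev]; exact hee
    · rw [hfe']; exact hg2
  refine ⟨C', ?_, fun e he => ((hC' e).1 he).1, hcong, ?_, fun e he => ((hC' e).1 he).2, ?_⟩
  · refine InvCf_fg c.C C' hcu hC'u hcong ?_ hok.cst.fg
    intro b hb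
    obtain ⟨e, he, q, hq, b', hb', hbe⟩ := HO_dec hr hok ((hC' b).1 hb).1
    refine ⟨e, he, ?_⟩
    have e1 : e - b = -(q + b' * c.y) := by rw [hbe]; ring
    rw [e1, norm_neg]
    refine (IsUltrametricDist.norm_add_le_max _ _).trans_lt (max_lt (QH_norm hok hq) ?_)
    rw [norm_mul]
    calc ‖b'‖ * ‖c.y‖ ≤ 1 * ‖c.y‖ :=
          mul_le_mul_of_nonneg_right (HO_norm_le hok hb') (norm_nonneg _)
      _ < 1 := by rw [one_mul]; exact hok.par.y1
  · intro i
    rw [hC']
    refine ⟨(hZ i).1, ?_⟩
    have hZK : Z i ∈ K := IntermediateField.subset_adjoin k _ ⟨i, rfl⟩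
    exact isSeparable_algebraMap (F := K) (K := W) (⟨Z i, hZK⟩ : K)
  · intro σ e he
    rw [hC'] at he ⊢
    refine ⟨h.ho σ e he.1, ?_⟩
    have hfix : ∀ z : K, act.f σ (z : W) = z := fun z =>
      ((act.fix (z : W) (hLL' (hKL z.2))).2 (hKL z.2)) σ
    let g : W →ₐ[K] W :=
      { (act.f σ : W →+* W) with
        commutes' := fun z => hfix z }
    have h1 : Polynomial.aeval (act.f σ e) (minpoly K e) = 0 := by
      have h2 : act.f σ e = g e := rfl
      rw [h2, Polynomial.aeval_algHom_apply, minpoly.aeval, map_zero]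
    exact Polynomial.Separable.of_dvd he.2 (minpoly.dvd K _ h1)

end Pool.Agent.Lib.TU
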