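import Pool.Agent.Lib.TU.ResAct
import Pool.Agent.Lib.TU.InvB
import Pool.Agent.Lib.TU.InvCf
import Pool.Agent.Lib.TU.HOPar

/-!
# Module EigU: eigenvectors in the residually trivial Kummer case (paper section 11)

`Γ = ⟨s⟩`, `s^l = 1`, `l ≠ p` prime, `ξ ∈ L` a primitive `l`-th root of unity, `s` acts trivially on residues;
`c` stable.  `‖l‖ = 1`; the powers of `ξ` have pairwise distance one.
(0) Let `u ∈ HO`, `‖u^l - 1‖ < 1`; then there is `n` with `‖u - ξ^n‖ < 1` (`∏_n (u - ξ^n) = u^l - 1`), and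
`ξ^n ∈ HO` by `hen'` (`X^l - 1`, `b = u`, `ξ^n ∈ S ⊓ L'`).
(1) `s(x_i) = x_i u`.  `s^j(x_i) = x_i u_j`, `u_j = ∏_(i'<j) s^(i')(u)`, congruent to `u^j`; `u_l = 1` (`act.mul`,
`act.one`), so `‖u^l - 1‖ < 1`, `n` as in (0), `ζ := ξ^n ∈ HO ∩ L`.  `X_i := ∑_(j<l) ζ^(-j) s^j(x_i)
= x_i ∑ ζ^(-j) u_j`, the sum is congruent to `l`, a unit; `s(X_i) = ζ X_i`.
(2) `s(y) = y v + q` (`Stb.y`); `s^j(y) = y v_j + q_j`, `v_j` congruent to `v^j`; `y = y v_l + q_l`, so
`y (v_l - 1) ∈ QH` and `‖v_l - 1‖ < 1` (otherwise `y ∈ QH`, `y_pow_not_QH`).  `Y := ∑ ζ'^(-j) s^j(y)`.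
(3) `inv_basis` for `c.C` with the trivial group (or any): `z_j`; `Z_j := (1/l) ∑_(i<l) s^i(z_j)`, invariant,
congruent to `z_j`.  `hsep` as in `UnrInv`/`Hat`.  `inv_coef`: `C'`; for `e ∈ C'`: `s(e) ∈ C'` and
`‖s(e) - e‖ < 1`, so `s(e) = e` (`C'` trivially normed): `C' ≤ L` (`act.fix`, `hgen`).
(4) `par_change_chart`: `⟨C', X, Y⟩`.
-/

namespace Pool.Agent.Lib.TU

open Pool.Agent.Lib.MP_3029eb_ag Pool.Agent.Lib.MP_3029eb_ag.Abh Pool.Agent.Lib.TDO

section aux
variable {k W : Type} [Field k] [NormedField W] [IsUltrametricDist W] [Algebra k W]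

omit [IsUltrametricDist W] in
private theorem eig_mul_lt {a b : W} (ha : ‖a‖ ≤ 1) (hb : ‖b‖ < 1) : ‖a * b‖ < 1 := by
  rw [norm_mul]
  calc ‖a‖ * ‖b‖ ≤ 1 * ‖b‖ := mul_le_mul_of_nonneg_right ha (norm_nonneg _)
    _ < 1 := by rw [one_mul]; exact hb

omit [IsUltrametricDist W] in
private theorem eig_mul_le {a b : W} (ha : ‖a‖ ≤ 1) (hb : ‖b‖ ≤ 1) : ‖a * b‖ ≤ 1 := by
  rw [norm_mul]
  exact mul_le_one₀ ha (norm_nonneg _) hb

omit [IsUltrametricDist W] in
private theorem eig_sub_comm {a b : W} (hab : ‖a - b‖ < 1) : ‖b - a‖ < 1 := by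
  rwa [← norm_neg, neg_sub]

private theorem eig_add_lt {a b : W} (ha : ‖a‖ < 1) (hb : ‖b‖ < 1) : ‖a + b‖ < 1 :=
  (IsUltrametricDist.norm_add_le_max a b).trans_lt (max_lt ha hb)

private theorem eig_add_le {a b : W} (ha : ‖a‖ ≤ 1) (hb : ‖b‖ ≤ 1) : ‖a + b‖ ≤ 1 :=
  (IsUltrametricDist.norm_add_le_max a b).trans (max_le ha hb)

private theorem eig_sum_lt {ι : Type} (s : Finset ι) (f : ι → W)
    (h : ∀ i ∈ s, ‖f i‖ < 1) : ‖∑ i ∈ s, f i‖ < 1 := by
  refine Finset.sum_induction f (fun z => ‖z‖ < 1)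
    (fun a b ha hb => eig_add_lt ha hb) (by rw [norm_zero]; exact one_pos) h

private theorem eig_norm_eq {a b : W} (ha : ‖a‖ = 1) (hab : ‖a - b‖ < 1) : ‖b‖ = 1 := by
  have h1 : b = a + -(a - b) := by ring
  rw [h1, IsUltrametricDist.norm_add_eq_max_of_norm_ne_norm
    (by rw [norm_neg, ha]; exact hab.ne'), norm_neg, ha]
  exact max_eq_left hab.le

private theorem eig_norm_le {a b : W} (ha : ‖a‖ ≤ 1) (hab : ‖a - b‖ < 1) : ‖b‖ ≤ 1 := by
  have h1 : b = a + -(a - b) := by ring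
  rw [h1]
  exact eig_add_le ha (by rw [norm_neg]; exact hab.le)

private theorem eig_mul_sub {x y x' y' : W} (hx : ‖x‖ ≤ 1) (hy : ‖y‖ ≤ 1)
    (h1 : ‖x - x'‖ < 1) (h2 : ‖y - y'‖ < 1) : ‖x * y - x' * y'‖ < 1 := by
  have e : x * y - x' * y' = x * (y - y') + y' * (x - x') := by ring
  rw [e]
  exact eig_add_lt (eig_mul_lt hx h2) (eig_mul_lt (eig_norm_le hy h2) h1)

private theorem eig_pow_sub {x y : W} (hx : ‖x‖ ≤ 1) (h1 : ‖x - y‖ < 1) (n : ℕ) :
    ‖x ^ n - y ^ n‖ < 1 := by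
  induction n with
  | zero => rw [pow_zero, pow_zero, sub_self, norm_zero]; exact one_pos
  | succ n ih =>
    rw [pow_succ, pow_succ]
    exact eig_mul_sub (by rw [norm_pow]; exact pow_le_one₀ (norm_nonneg _) hx) hx ih h1

private theorem eig_sub_norm {a b : W} (h : ‖a - b‖ < 1) (hb : ‖b‖ ≤ 1) : ‖a‖ ≤ 1 := by
  have h1 : a = b + (a - b) := by ring
  rw [h1]
  exact eig_add_le hb h.le

omit [IsUltrametricDist W] in
/-- An `l`-th root of unity modulo the maximal ideal is congruent to a power of `ξ`. -/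
private theorem eig_root {l : ℕ} (hl : 0 < l) {ξ : W} (hξ : IsPrimitiveRoot ξ l) {u : W}
    (hu : ‖u ^ l - 1‖ < 1) : ∃ n : ℕ, ‖u - ξ ^ n‖ < 1 := by
  by_contra hcon
  push Not at hcon
  have h1 := congrArg (Polynomial.eval u) (Polynomial.X_pow_sub_one_eq_prod hl hξ)
  rw [Polynomial.eval_sub, Polynomial.eval_pow, Polynomial.eval_X, Polynomial.eval_one,
    Polynomial.eval_prod] at h1
  rw [h1, norm_prod] at hu
  have h2 : ∀ i ∈ Polynomial.nthRootsFinset l (1 : W),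
      1 ≤ ‖Polynomial.eval u (Polynomial.X - Polynomial.C i)‖ := by
    intro i hi
    rw [Polynomial.mem_nthRootsFinset hl] at hi
    have : NeZero l := ⟨hl.ne'⟩
    obtain ⟨n, -, rfl⟩ := hξ.eq_pow_of_pow_eq_one hi
    rw [Polynomial.eval_sub, Polynomial.eval_X, Polynomial.eval_C]
    exact hcon n
  exact absurd (Finset.one_le_prod h2) (not_le.2 hu)

/-- values of a polynomial with small coefficients -/
private theorem eig_eval_lt (D : Polynomial W) (hD : ∀ j, ‖D.coeff j‖ < 1) {a : W}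
    (ha : ‖a‖ ≤ 1) : ‖D.eval a‖ < 1 := by
  rw [Polynomial.eval_eq_sum_range]
  refine eig_sum_lt _ _ fun j _ => ?_
  rw [mul_comm]
  refine eig_mul_lt ?_ (hD j)
  rw [norm_pow]
  exact pow_le_one₀ (norm_nonneg _) ha

private theorem eig_der_coeff (D : Polynomial W) (hD : ∀ j, ‖D.coeff j‖ < 1) (j : ℕ) :
    ‖D.derivative.coeff j‖ < 1 := by
  rw [Polynomial.coeff_derivative, mul_comm]
  refine eig_mul_lt ?_ (hD _)
  have h := IsUltrametricDist.norm_natCast_le_one W (j + 1)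
  rwa [Nat.cast_add, Nat.cast_one] at h

/-- congruences extend to the field generated -/
private theorem eig_cong (C : IntermediateField k W) (hC : ∀ e ∈ C, e ≠ 0 → ‖e‖ = 1)
    (gs : Set W) (hgs : IntermediateField.adjoin k gs ≤ C) (C' : IntermediateField k W)
    (h : ∀ g ∈ gs, ∃ e' ∈ C', ‖g - e'‖ < 1) {e : W}
    (he : e ∈ IntermediateField.adjoin k gs) : ∃ e' ∈ C', ‖e - e'‖ < 1 := by
  have hCn : ∀ e ∈ IntermediateField.adjoin k gs, ‖e‖ ≤ 1 := by
    intro e he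
    by_cases h0 : e = 0
    · rw [h0, norm_zero]; exact zero_le_one
    · exact (hC e (hgs he) h0).le
  refine IntermediateField.adjoin_induction k (p := fun z _ => ∃ e' ∈ C', ‖z - e'‖ < 1)
    h (fun a => ⟨algebraMap k W a, C'.algebraMap_mem a, by rw [sub_self, norm_zero]; exact one_pos⟩)
    ?_ ?_ ?_ he
  · rintro x y _ _ ⟨x', hx', h1⟩ ⟨y', hy', h2⟩
    refine ⟨x' + y', add_mem hx' hy', ?_⟩
    have e : x + y - (x' + y') = (x - x') + (y - y') := by ring
    rw [e]; exact eig_add_lt h1 h2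
  · rintro x hx ⟨x', hx', h1⟩
    by_cases h0 : x = 0
    · exact ⟨0, zero_mem _, by rw [h0, inv_zero, sub_zero, norm_zero]; exact one_pos⟩
    · have hx1 := hC x (hgs hx) h0
      have hx'1 := eig_norm_eq hx1 h1
      have hx'0 : x' ≠ 0 := by
        rintro rfl; rw [norm_zero] at hx'1; exact zero_ne_one hx'1
      refine ⟨x'⁻¹, inv_mem hx', ?_⟩
      have e : x⁻¹ - x'⁻¹ = (x' - x) / (x * x') := by field_simp
      rw [e, norm_div, norm_mul, hx1, hx'1, mul_one, div_one]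
      exact eig_sub_comm h1
  · rintro x y hx hy ⟨x', hx', h1⟩ ⟨y', hy', h2⟩
    exact ⟨x' * y', mul_mem hx' hy', eig_mul_sub (hCn x hx) (hCn y hy) h1 h2⟩

/-- values of polynomials at congruent points -/
private theorem eig_mv {m : ℕ} (hk : ∀ a : k, ‖algebraMap k W a‖ ≤ 1) (z Z : Fin m → W)
    (hz : ∀ j, ‖z j‖ ≤ 1) (hZ : ∀ j, ‖z j - Z j‖ < 1) (P : MvPolynomial (Fin m) k) :
    ‖MvPolynomial.aeval z P‖ ≤ 1 ∧ ‖MvPolynomial.aeval z P - MvPolynomial.aeval Z P‖ < 1 := by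
  induction P using MvPolynomial.induction_on with
  | C a =>
    rw [MvPolynomial.aeval_C, MvPolynomial.aeval_C, sub_self, norm_zero]
    exact ⟨hk a, one_pos⟩
  | add p q hp hq =>
    rw [map_add, map_add]
    refine ⟨eig_add_le hp.1 hq.1, ?_⟩
    have e : MvPolynomial.aeval z p + MvPolynomial.aeval z q -
        (MvPolynomial.aeval Z p + MvPolynomial.aeval Z q) =
        (MvPolynomial.aeval z p - MvPolynomial.aeval Z p) +
        (MvPolynomial.aeval z q - MvPolynomial.aeval Z q) := by ring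
    rw [e]; exact eig_add_lt hp.2 hq.2
  | mul_X p i hp =>
    rw [map_mul, map_mul, MvPolynomial.aeval_X, MvPolynomial.aeval_X]
    exact ⟨eig_mul_le hp.1 (hz i), eig_mul_sub hp.1 (hz i) hp.2 (hZ i)⟩

omit [IsUltrametricDist W] in
private theorem eig_mv_mem {m : ℕ} (R : Subring W) (hk : ∀ a : k, algebraMap k W a ∈ R)
    (Z : Fin m → W) (hZ : ∀ j, Z j ∈ R) (P : MvPolynomial (Fin m) k) :
    MvPolynomial.aeval Z P ∈ R := by
  induction P using MvPolynomial.induction_on with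
  | C a => rw [MvPolynomial.aeval_C]; exact hk a
  | add p q hp hq => rw [map_add]; exact R.add_mem hp hq
  | mul_X p i hp => rw [map_mul, MvPolynomial.aeval_X]; exact R.mul_mem hp (hZ i)

omit [IsUltrametricDist W] in
/-- A separating transcendence basis. -/
private theorem eig_basis [PerfectField k] {m : ℕ} (C : IntermediateField k W) (hfg : C.FG)
    (htr : Algebra.trdeg k C = (m : Cardinal)) :
    ∃ z : Fin m → W, (∀ j, z j ∈ C) ∧ AlgebraicIndependent k z ∧
      ∀ e ∈ C, ∃ P : Polynomial W, P.Monic ∧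
        (∀ j, P.coeff j ∈ IntermediateField.adjoin k (Set.range z)) ∧
        P.eval e = 0 ∧ P.derivative.eval e ≠ 0 := by
  have : Algebra.EssFiniteType k C := IntermediateField.essFiniteType_iff.2 hfg
  obtain ⟨z, -, hz, hsep⟩ := inv_basis htr (1 : Multiplicative (ZMod 1) →* (C ≃ₐ[k] C))
  have hFz : ∀ x : C, x ∈ IntermediateField.adjoin k (Set.range z) →
      (x : W) ∈ IntermediateField.adjoin k (Set.range fun j => ((z j : C) : W)) := by
    intro x hx
    have hmap : (IntermediateField.adjoin k (Set.range z)).map C.val =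
        IntermediateField.adjoin k (Set.range fun j => ((z j : C) : W)) := by
      rw [IntermediateField.adjoin_map]
      congr 1
      rw [← Set.range_comp]
      rfl
    rw [← hmap]
    exact ⟨x, hx, rfl⟩
  refine ⟨fun j => ((z j : C) : W), fun j => (z j).2, hz.map' (f := C.val) C.val.injective, ?_⟩
  intro e he
  set F : IntermediateField k C := IntermediateField.adjoin k (Set.range z) with hF
  have hes := hsep ⟨e, he⟩
  have heI : IsIntegral F (⟨e, he⟩ : C) := hes.isIntegral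
  refine ⟨(minpoly F (⟨e, he⟩ : C)).map ((algebraMap C W).comp (algebraMap F C)),
    (minpoly.monic heI).map _, ?_, ?_, ?_⟩
  · intro j
    rw [Polynomial.coeff_map]
    exact hFz _ ((minpoly F (⟨e, he⟩ : C)).coeff j).2
  · rw [← Polynomial.map_map]
    change Polynomial.eval (algebraMap C W ⟨e, he⟩) _ = 0
    rw [Polynomial.eval_map_apply, ← Polynomial.eval₂_eq_eval_map, ← Polynomial.aeval_def,
      minpoly.aeval, map_zero]
  · rw [← Polynomial.map_map, Polynomial.derivative_map, Polynomial.derivative_map]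
    change Polynomial.eval (algebraMap C W ⟨e, he⟩) _ ≠ 0
    rw [Polynomial.eval_map_apply, ← Polynomial.eval₂_eq_eval_map, ← Polynomial.aeval_def]
    intro h
    rw [map_eq_zero] at h
    exact hes.aeval_derivative_ne_zero (minpoly.aeval F _) h

/-- transport of a monic polynomial -/
private theorem eig_transp (K1 K2 : IntermediateField k W)
    (hcong : ∀ e ∈ K1, ∃ e' ∈ K2, ‖e - e'‖ < 1) {P : Polynomial W} (hP : P.Monic)
    (hPc : ∀ j, P.coeff j ∈ K1) {e : W} (he : ‖e‖ ≤ 1) (hP0 : P.eval e = 0)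
    (hP1 : ‖P.derivative.eval e‖ = 1) :
    ∃ Q : Polynomial K2, Q.Monic ∧ ‖Polynomial.aeval e Q‖ < 1 ∧
      ‖Polynomial.aeval e Q.derivative‖ = 1 := by
  choose q hqK hqn using fun j => hcong (P.coeff j) (hPc j)
  set R : Polynomial K2 := ∑ j ∈ Finset.range P.natDegree,
    Polynomial.monomial j (⟨q j, hqK j⟩ : K2) with hR
  have hRc : ∀ j, R.coeff j = if j < P.natDegree then (⟨q j, hqK j⟩ : K2) else 0 := by
    intro j
    rw [hR, Polynomial.finsetSum_coeff]
    simp only [Polynomial.coeff_monomial]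
    rw [Finset.sum_ite_eq' (Finset.range P.natDegree) j]
    simp only [Finset.mem_range]
  have hQm : (Polynomial.X ^ P.natDegree + R).Monic := by
    refine Polynomial.monic_X_pow_add ?_
    rw [Polynomial.degree_lt_iff_coeff_zero]
    intro j hj
    rw [hRc j, if_neg (by omega)]
  set Q : Polynomial K2 := Polynomial.X ^ P.natDegree + R with hQ
  set QW : Polynomial W := Q.map (algebraMap K2 W) with hQW
  have hDn : ∀ j, ‖(P - QW).coeff j‖ < 1 := by
    intro j
    rw [Polynomial.coeff_sub, hQW, Polynomial.coeff_map, hQ, Polynomial.coeff_add,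
      Polynomial.coeff_X_pow, hRc j]
    rcases lt_trichotomy j P.natDegree with h | h | h
    · rw [if_neg h.ne, if_pos h, zero_add]
      exact hqn j
    · rw [if_pos h, if_neg h.not_lt, add_zero, map_one, h, hP.coeff_natDegree, sub_self,
        norm_zero]
      exact one_pos
    · rw [if_neg h.ne', if_neg (by omega), add_zero, map_zero, sub_zero,
        Polynomial.coeff_eq_zero_of_natDegree_lt h, norm_zero]
      exact one_pos
  refine ⟨Q, hQm, ?_, ?_⟩
  · rw [Polynomial.aeval_def, Polynomial.eval₂_eq_eval_map, ← hQW]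
    have h1 := eig_eval_lt (P - QW) hDn he
    rw [Polynomial.eval_sub, hP0, zero_sub, norm_neg] at h1
    exact h1
  · rw [Polynomial.aeval_def, Polynomial.eval₂_eq_eval_map, ← Polynomial.derivative_map, ← hQW]
    have h1 := eig_eval_lt (P - QW).derivative (eig_der_coeff _ hDn) he
    rw [Polynomial.derivative_sub, Polynomial.eval_sub] at h1
    exact eig_norm_eq hP1 h1

/-- Eigenvectors. -/
private theorem eig_main {r m : ℕ} (hr : 0 < r) {Γ : Type} [Group Γ]
    {S L L' : IntermediateField k W} {act : Act Γ S L L'} {c : Tri k W r}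
    (h : Stb m act c) {l : ℕ} (hl : 0 < l) (hln : ‖(l : W)‖ = 1) {ξ : W} (hξS : ξ ∈ S)
    (hξL : ξ ∈ L) (hLL' : L ≤ L') (hξ : IsPrimitiveRoot ξ l) (s : Γ) (hs : s ^ l = 1)
    (hres : ∀ z ∈ L', ‖z‖ ≤ 1 → ‖act.f s z - z‖ < 1)
    (Q : Set W) (hQ0 : (0 : W) ∈ Q) (hQa : ∀ a ∈ Q, ∀ b ∈ Q, a + b ∈ Q)
    (hQm : ∀ a ∈ Q, ∀ b ∈ HO (S ⊓ L') c, a * b ∈ Q) (hQs : ∀ a ∈ Q, act.f s a ∈ Q)
    {x : W} (hx : x ∈ L') (hx0 : ∀ v ∈ HO (S ⊓ L') c, x * v ∈ Q → ‖v‖ < 1)
    (hxs : ∃ u ∈ HO (S ⊓ L') c, ‖u‖ = 1 ∧ ∃ q ∈ Q, act.f s x = x * u + q) :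
    ∃ v ∈ HO (S ⊓ L') c, ‖v‖ = 1 ∧ ∃ q ∈ Q, ∃ n : ℕ,
      act.f s (x * v + q) = ξ ^ n * (x * v + q) := by
  have hok := h.ch.ok
  obtain ⟨u, hu, hu1, q, hq, hsx⟩ := hxs
  have hit : ∀ j : ℕ, ∃ v ∈ HO (S ⊓ L') c, ‖v - u ^ j‖ < 1 ∧
      ∃ p ∈ Q, act.f (s ^ j) x = x * v + p := by
    intro j
    induction j with
    | zero =>
      refine ⟨1, one_mem _, ?_, 0, hQ0, ?_⟩
      · rw [pow_zero, sub_self, norm_zero]; exact one_pos
      · rw [pow_zero, act.one _ hx, mul_one, add_zero]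
    | succ j ih =>
      obtain ⟨v, hv, hvu, p, hp, hj⟩ := ih
      have hv1 := HO_norm_le hok hv
      have hvL : v ∈ L' := (IntermediateField.mem_inf.1 (HO_mem_M hok hv)).2
      refine ⟨u * act.f s v, mul_mem hu (h.ho s v hv), ?_, q * act.f s v + act.f s p,
        hQa _ (hQm _ hq _ (h.ho s v hv)) _ (hQs _ hp), ?_⟩
      · rw [pow_succ']
        refine eig_mul_sub hu1.le (by rw [act.iso]; exact hv1)
          (by rw [sub_self, norm_zero]; exact one_pos) ?_
        have e : act.f s v - u ^ j = (act.f s v - v) + (v - u ^ j) := by ring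
        rw [e]
        exact eig_add_lt (hres v hvL hv1) hvu
      · rw [pow_succ', act.mul _ _ _ hx, hj, map_add, map_mul, hsx]; ring
  choose v hv hvu p hp hj using hit
  have hul : ‖u ^ l - 1‖ < 1 := by
    have e1 := hj l
    rw [hs, act.one _ hx] at e1
    have e2 : x * (1 - v l) = p l := by linear_combination e1
    have e3 : ‖1 - v l‖ < 1 := hx0 _ (sub_mem (one_mem _) (hv l)) (by rw [e2]; exact hp l)
    have e4 : u ^ l - 1 = -(v l - u ^ l) + -(1 - v l) := by ring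
    rw [e4]
    exact eig_add_lt (by rw [norm_neg]; exact hvu l) (by rw [norm_neg]; exact e3)
  obtain ⟨n, hn⟩ := eig_root hl hξ hul
  have hζl : (ξ ^ n) ^ l = 1 := by rw [← pow_mul, mul_comm, pow_mul, hξ.pow_eq_one, one_pow]
  have hζ1 : ‖ξ ^ n‖ = 1 := eig_norm_eq hu1 hn
  have hζL : ξ ^ n ∈ L := pow_mem hξL n
  have hζS : ξ ^ n ∈ S := pow_mem hξS n
  refine ⟨∑ j ∈ Finset.range l, (ξ ^ n)⁻¹ ^ j * v j, ?_, ?_,
    ∑ j ∈ Finset.range l, p j * (ξ ^ n)⁻¹ ^ j, ?_, n, ?_⟩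
  all_goals generalize ξ ^ n = ζ at hζl hζ1 hζL hζS hn ⊢
  all_goals
    have hζ0 : ζ ≠ 0 := by rintro rfl; rw [norm_zero] at hζ1; exact zero_ne_one hζ1
    have hζH : ζ ∈ HO (S ⊓ L') c := by
      refine hen' hr hok (Polynomial.X ^ l - 1) ?_ hu ⟨hζS, hLL' hζL⟩ (eig_sub_comm hn) ?_ ?_
      · intro j
        rw [Polynomial.coeff_sub, Polynomial.coeff_X_pow, Polynomial.coeff_one]
        refine sub_mem ?_ ?_
        · split_ifs
          · exact one_mem _
          · exact zero_mem _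
        · split_ifs
          · exact one_mem _
          · exact zero_mem _
      · rw [Polynomial.eval_sub, Polynomial.eval_pow, Polynomial.eval_X, Polynomial.eval_one,
          hζl, sub_self]
      · rw [Polynomial.derivative_sub, Polynomial.derivative_X_pow, Polynomial.derivative_one,
          sub_zero, Polynomial.eval_mul, Polynomial.eval_pow, Polynomial.eval_X,
          Polynomial.eval_C, norm_mul, norm_pow, hu1, one_pow, mul_one]
        exact hln
    have hζi : ζ⁻¹ ∈ HO (S ⊓ L') c := inv_mem_HO hok hζH hζ1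
  · exact sum_mem fun j _ => mul_mem (pow_mem hζi j) (hv j)
  · refine eig_norm_eq hln ?_
    have e : (l : W) - ∑ j ∈ Finset.range l, ζ⁻¹ ^ j * v j =
        ∑ j ∈ Finset.range l, (1 - ζ⁻¹ ^ j * v j) := by
      rw [Finset.sum_sub_distrib, Finset.sum_const, Finset.card_range, nsmul_eq_mul, mul_one]
    rw [e]
    refine eig_sum_lt _ _ fun j _ => ?_
    have e1 : ζ⁻¹ ^ j * ζ ^ j = 1 := by rw [← mul_pow, inv_mul_cancel₀ hζ0, one_pow]
    have e2 : 1 - ζ⁻¹ ^ j * v j =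
        ζ⁻¹ ^ j * (-(v j - u ^ j)) + ζ⁻¹ ^ j * (-(u ^ j - ζ ^ j)) := by
      linear_combination -e1
    have e3 : ‖ζ⁻¹ ^ j‖ ≤ 1 := by rw [norm_pow, norm_inv, hζ1, inv_one, one_pow]
    rw [e2]
    exact eig_add_lt (eig_mul_lt e3 (by rw [norm_neg]; exact hvu j))
      (eig_mul_lt e3 (by rw [norm_neg]; exact eig_pow_sub hu1.le hn j))
  · exact Finset.sum_induction _ (fun z => z ∈ Q) (fun a b ha hb => hQa a ha b hb) hQ0
      fun j _ => hQm _ (hp j) _ (pow_mem hζi j)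
  · have hζs : act.f s ζ = ζ := (act.fix _ (hLL' hζL)).2 hζL s
    have hE : x * (∑ j ∈ Finset.range l, ζ⁻¹ ^ j * v j) +
        ∑ j ∈ Finset.range l, p j * ζ⁻¹ ^ j =
        ∑ j ∈ Finset.range l, ζ⁻¹ ^ j * act.f (s ^ j) x := by
      rw [Finset.mul_sum, ← Finset.sum_add_distrib]
      refine Finset.sum_congr rfl fun j _ => ?_
      rw [hj j]; ring
    rw [hE, map_sum, Finset.mul_sum]
    have h1 : ∀ j, act.f s (ζ⁻¹ ^ j * act.f (s ^ j) x) =
        ζ * (ζ⁻¹ ^ (j + 1) * act.f (s ^ (j + 1)) x) := by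
      intro j
      rw [map_mul, map_pow, map_inv₀, hζs, ← act.mul _ _ _ hx, ← pow_succ', pow_succ ζ⁻¹ j]
      field_simp
    rw [Finset.sum_congr rfl fun j _ => h1 j, ← Finset.mul_sum, ← Finset.mul_sum]
    congr 1
    have h2 := Finset.sum_range_succ (fun j => ζ⁻¹ ^ j * act.f (s ^ j) x) l
    have h3 := Finset.sum_range_succ' (fun j => ζ⁻¹ ^ j * act.f (s ^ j) x) l
    rw [h2] at h3
    have h4 : ζ⁻¹ ^ l * act.f (s ^ l) x = ζ⁻¹ ^ 0 * act.f (s ^ 0) x := by
      rw [hs, pow_zero, pow_zero, inv_pow, hζl, inv_one]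
    rw [h4] at h3
    exact (add_right_cancel h3).symm

end aux

/-- See the header. -/
theorem eig_inv {k W : Type} [Field k] [PerfectField k] [NormedField W] [IsUltrametricDist W]
    [Algebra k W] {r m : ℕ} (hr : 0 < r) {Γ : Type} [Group Γ] [Finite Γ]
    {S L L' : IntermediateField k W} (hu : ∀ c : k, c ≠ 0 → ‖algebraMap k W c‖ = 1)
    (hS : ∀ z : W, IsSeparable S z → z ∈ S)
    (hL' : IsComplete (L' : Set W)) (hLL' : L ≤ L') {act : Act Γ S L L'} {c : Tri k W r}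
    (h : Stb m act c) (l : ℕ) (hl : l.Prime) (hlk : (l : k) ≠ 0) (ξ : W) (hξL : ξ ∈ L)
    (hξ : IsPrimitiveRoot ξ l) (s : Γ) (hs : s ^ l = 1) (hgen : ∀ σ : Γ, ∃ n : ℕ, σ = s ^ n)
    (hres : ∀ z ∈ L', ‖z‖ ≤ 1 → ‖act.f s z - z‖ < 1) :
    ∃ c' : Tri k W r, Ch m S L' c' ∧ c'.C ≤ L ∧
      (∀ i, ∃ n : ℕ, act.f s (c'.x i) = ξ ^ n * c'.x i) ∧
      ∃ n : ℕ, act.f s c'.y = ξ ^ n * c'.y := by
  have hok := h.ch.ok
  have hl0 : 0 < l := hl.pos
  have hunit := hok.cst.unit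
  have hln : ‖(l : W)‖ = 1 := by
    have h1 := hu (l : k) hlk
    rwa [map_natCast] at h1
  have hkn : ∀ a : k, ‖algebraMap k W a‖ ≤ 1 := by
    intro a
    by_cases h0 : algebraMap k W a = 0
    · rw [h0, norm_zero]; exact zero_le_one
    · exact (hunit _ (c.C.algebraMap_mem a) h0).le
  have hkH : ∀ a : k, algebraMap k W a ∈ HO (S ⊓ L') c := fun a =>
    C_mem_HO hok (c.C.algebraMap_mem a)
  have hCn : ∀ e ∈ c.C, ‖e‖ ≤ 1 := fun e he => HO_norm_le hok (C_mem_HO hok he)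
  have hHL : ∀ z ∈ HO (S ⊓ L') c, z ∈ L' := fun z hz =>
    (IntermediateField.mem_inf.1 (HO_mem_M hok hz)).2
  have hξS : ξ ∈ S := by
    refine hS ξ ?_
    have h1 : (Polynomial.X ^ l - 1 : Polynomial S).Separable := by
      rw [Polynomial.X_pow_sub_one_separable_iff]
      intro h0
      apply hlk
      have h2 : algebraMap k S (l : k) = 0 := by rw [map_natCast]; exact h0
      exact (map_eq_zero _).1 h2
    refine h1.of_dvd (minpoly.dvd S ξ ?_)
    rw [map_sub, map_pow, Polynomial.aeval_X, map_one, hξ.pow_eq_one, sub_self]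
  -- the eigenvectors
  have hX : ∀ i, ∃ v ∈ HO (S ⊓ L') c, ‖v‖ = 1 ∧ ∃ n : ℕ,
      act.f s (c.x i * v) = ξ ^ n * (c.x i * v) := by
    intro i
    have hxL : c.x i ∈ L' := (IntermediateField.mem_inf.1 (hok.xM i)).2
    obtain ⟨v, hv, hv1, q, hq, n, hn⟩ := eig_main hr h hl0 hln hξS hξL hLL' hξ s hs hres
      {(0 : W)} rfl (fun a ha b hb => by
        rw [Set.mem_singleton_iff] at ha hb ⊢; rw [ha, hb, add_zero])
      (fun a ha b _ => by rw [Set.mem_singleton_iff] at ha ⊢; rw [ha, zero_mul])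
      (fun a ha => by rw [Set.mem_singleton_iff] at ha ⊢; rw [ha, map_zero]) hxL
      (fun v _ hxv => by
        rw [Set.mem_singleton_iff, mul_eq_zero] at hxv
        rcases hxv with h0 | h0
        · exact absurd h0 (hok.par.ind.ne i)
        · rw [h0, norm_zero]; exact one_pos)
      (by
        obtain ⟨u, hu, hu1, hxu⟩ := h.hx s i
        exact ⟨u, hu, hu1, 0, rfl, by rw [hxu, add_zero]⟩)
    rw [Set.mem_singleton_iff.1 hq, add_zero] at hn
    exact ⟨v, hv, hv1, n, hn⟩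
  obtain ⟨vy, hvy, hvy1, qy, hqy, ny, hny⟩ := eig_main hr h hl0 hln hξS hξL hLL' hξ s hs hres
    (QH (S ⊓ L') c) (QH_zero hok hr) (fun a ha b hb => QH_add hok ha hb)
    (fun a ha b hb => QH_mul hok ha hb) (fun a ha => h.QH hr s ha)
    (x := c.y) ((IntermediateField.mem_inf.1 hok.yM).2)
    (fun v hv hyv => by
      refine lt_of_le_of_ne (HO_norm_le hok hv) fun h1 => ?_
      refine y_pow_not_QH hr hok 1 ?_
      have hv0 : v ≠ 0 := by rintro rfl; rw [norm_zero] at h1; exact zero_ne_one h1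
      have e : c.y ^ 1 = c.y * v * v⁻¹ := by rw [mul_assoc, mul_inv_cancel₀ hv0]; ring
      rw [e]
      exact QH_mul hok hyv (inv_mem_HO hok hv h1))
    (by
      obtain ⟨v, hv, hv1, q, hq, hyv⟩ := h.y hr s
      exact ⟨v, hv, hv1, q, hq, hyv⟩)
  choose vx hvx hvx1 nx hnx using hX
  -- invariant elements
  have hfix : ∀ z ∈ L', act.f s z = z → z ∈ L := by
    intro z hz hsz
    refine (act.fix z hz).1 fun σ => ?_
    obtain ⟨n, rfl⟩ := hgen σ
    induction n with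
    | zero => rw [pow_zero, act.one _ hz]
    | succ n ih => rw [pow_succ', act.mul _ _ _ hz, ih, hsz]
  obtain ⟨z, hzC, hzind, hzsep⟩ := eig_basis c.C hok.cst.fg hok.cst.trd
  set Z : Fin m → W := fun j => (l : W)⁻¹ * ∑ i ∈ Finset.range l, act.f (s ^ i) (z j) with hZdef
  have hl1 : (l : W) ≠ 0 := by intro h0; rw [h0, norm_zero] at hln; exact zero_ne_one hln
  have hlH : (l : W)⁻¹ ∈ HO (S ⊓ L') c := inv_mem_HO hok (natCast_mem _ l) hln
  have hpow : ∀ (i : ℕ), ∀ w ∈ L', ‖w‖ ≤ 1 → ‖act.f (s ^ i) w - w‖ < 1 := by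
    intro i w hw hw1
    induction i with
    | zero => rw [pow_zero, act.one _ hw, sub_self, norm_zero]; exact one_pos
    | succ i ih =>
      rw [pow_succ', act.mul _ _ _ hw]
      have e : act.f s (act.f (s ^ i) w) - w =
          act.f s (act.f (s ^ i) w - w) + (act.f s w - w) := by rw [map_sub]; ring
      rw [e]
      exact eig_add_lt (by rw [act.iso]; exact ih) (hres w hw hw1)
  have hzL : ∀ j, z j ∈ L' := fun j => hHL _ (C_mem_HO hok (hzC j))
  have hZH : ∀ j, Z j ∈ HO (S ⊓ L') c := fun j =>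
    mul_mem hlH (sum_mem fun i _ => h.ho _ _ (C_mem_HO hok (hzC j)))
  have hZL : ∀ j, Z j ∈ L := by
    intro j
    refine hfix _ (hHL _ (hZH j)) ?_
    rw [hZdef]
    simp only
    rw [map_mul, map_inv₀, map_natCast, map_sum]
    congr 1
    have h1 : ∀ i, act.f s (act.f (s ^ i) (z j)) = act.f (s ^ (i + 1)) (z j) := by
      intro i
      rw [pow_succ', act.mul _ _ _ (hzL j)]
    rw [Finset.sum_congr rfl fun i _ => h1 i]
    have h2 := Finset.sum_range_succ (fun i => act.f (s ^ i) (z j)) l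
    have h3 := Finset.sum_range_succ' (fun i => act.f (s ^ i) (z j)) l
    rw [h2] at h3
    have h4 : act.f (s ^ l) (z j) = act.f (s ^ 0) (z j) := by rw [hs, pow_zero]
    rw [h4] at h3
    exact (add_right_cancel h3).symm
  have hZn : ∀ j, ‖z j - Z j‖ < 1 := by
    intro j
    have e : z j - Z j = -((l : W)⁻¹ * ∑ i ∈ Finset.range l, (act.f (s ^ i) (z j) - z j)) := by
      rw [Finset.sum_sub_distrib, Finset.sum_const, Finset.card_range, nsmul_eq_mul, hZdef]
      simp only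
      field_simp
      ring
    rw [e, norm_neg]
    refine eig_mul_lt (by rw [norm_inv, hln, inv_one]) (eig_sum_lt _ _ fun i _ => ?_)
    exact hpow i _ (hzL j) (hCn _ (hzC j))
  have hmv := eig_mv hkn z Z (fun j => hCn _ (hzC j)) hZn
  have hZi : ∀ P : MvPolynomial (Fin m) k, P ≠ 0 → ‖MvPolynomial.aeval Z P‖ = 1 := by
    intro P hP
    refine eig_norm_eq (a := MvPolynomial.aeval z P) (hunit _ ?_ ?_) (hmv P).2
    · exact eig_mv_mem c.C.toSubfield.toSubring c.C.algebraMap_mem z hzC P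
    · intro h0
      exact hP ((injective_iff_map_eq_zero _).1 hzind P h0)
  have hzadj : IntermediateField.adjoin k (Set.range z) ≤ c.C := by
    rw [IntermediateField.adjoin_le_iff]
    rintro _ ⟨j, rfl⟩
    exact hzC j
  have hcong1 : ∀ e ∈ IntermediateField.adjoin k (Set.range z),
      ∃ e' ∈ IntermediateField.adjoin k (Set.range Z), ‖e - e'‖ < 1 := by
    intro e he
    refine eig_cong c.C hunit (Set.range z) hzadj _ ?_ he
    rintro _ ⟨j, rfl⟩
    exact ⟨Z j, IntermediateField.subset_adjoin k _ ⟨j, rfl⟩, hZn j⟩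
  have hsep : ∀ e ∈ c.C, ∃ h : Polynomial (IntermediateField.adjoin k (Set.range Z)), h.Monic ∧
      ‖Polynomial.aeval e h‖ < 1 ∧ ‖Polynomial.aeval e h.derivative‖ = 1 := by
    intro e he
    obtain ⟨P, hPm, hPc, hP0, hP1⟩ := hzsep e he
    refine eig_transp _ _ hcong1 hPm hPc (hCn e he) hP0 (hunit _ ?_ hP1)
    rw [Polynomial.eval_eq_sum_range]
    refine sum_mem fun j _ => mul_mem ?_ (pow_mem he j)
    rw [Polynomial.coeff_derivative]
    exact mul_mem (hzadj (hPc _)) (by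
      have := natCast_mem c.C (j + 1)
      rwa [Nat.cast_add, Nat.cast_one] at this)
  obtain ⟨C', hfg, hC'H, hcong, hZC', -, hC's⟩ := inv_coef hr hS hL' hLL' h Z
    (fun i => ⟨hZH i, hZL i⟩) hZi hsep
  have hunit' : ∀ e ∈ C', e ≠ 0 → ‖e‖ = 1 := by
    intro e he h0
    have h1 := HO_norm_le hok (hC'H e he)
    have h2 := HO_norm_le hok (hC'H e⁻¹ (inv_mem he))
    rw [norm_inv] at h2
    exact le_antisymm h1 ((inv_le_one₀ (norm_pos_iff.2 h0)).1 h2)
  have hC'L : C' ≤ L := by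
    intro e he
    refine hfix _ (hHL _ (hC'H e he)) ?_
    by_contra hne
    have h1 := hres e (hHL _ (hC'H e he)) (HO_norm_le hok (hC'H e he))
    have h2 := hunit' _ (sub_mem (hC's s e he) he) (sub_ne_zero.2 hne)
    rw [h2] at h1
    exact lt_irrefl _ h1
  refine ⟨⟨C', fun i => c.x i * vx i, c.y * vy + qy⟩, ?_, hC'L, fun i => ⟨nx i, hnx i⟩, ny, hny⟩
  exact par_change_chart hr h.ch C' _ _ hfg hC'H hcong (fun i => ⟨vx i, hvx i, hvx1 i, rfl⟩)
    ⟨vy, hvy, hvy1, qy, hqy, rfl⟩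

end Pool.Agent.Lib.TU
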