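import Mathlib

/-!
# Module Inert: inertia and ramification groups

`N / A` finite Galois, the Galois group `G` acts by isometries.
`I = {g | ∀ z, ‖z‖ ≤ 1 → ‖g z - z‖ < 1}`, `P = {g | ∀ z ≠ 0, ‖g z - z‖ < ‖z‖}`; both are normal
subgroups of `G` (conjugation by isometries), `P ≤ I` (`‖z‖ = 1` or `‖z‖ < 1`).
Commutators: for `g ∈ I`, `w ≠ 0` let `χ_g(w)` be the class of `g w / w` modulo elements of norm `< 1`.
For `g, h ∈ I`: `gh w / w = (g(h w) / h w) (h w / w)` and with `u = h w / w`, `‖u‖ = 1`,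
`g(h w) / (h w) = (g w / w) (g u / u)`, `‖g u / u - 1‖ < 1`; so `χ_(gh)(w) = χ_g(w) χ_h(w)`, all
commutators of elements of `I` have `χ = 1`, i.e. lie in `P`.
`P` is a `p`-group: otherwise (Cauchy) there is `g ∈ P` of prime order `l ≠ p`; choose `v` with
`g v ≠ v`, `w := l v - ∑_(i<l) g^i v`.  `w ≠ 0` (if `l v = ∑ g^i v` then `l v` is fixed by `g`, so is
`v`, as `l ≠ 0` in `N`), `∑ g^i w = 0`, but `∑_(i<l) g^i w = l w + ∑ (g^i w - w)` has norm
`‖w‖` (`‖l‖ = 1` since `l ≠ 0` in the prime field, which is trivially normed: `l^(p-1) = 1`),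
contradiction.
The index is prime to `p`: otherwise, `I / P` being a group of order divisible by `p`, there is `g ∈ I`,
`g ∉ P`, `g^p ∈ P`; `χ_g(w)^p = 1`, i.e. `‖(g w / w)^p - 1‖ < 1`, so `‖g w / w - 1‖^p < 1` (Frobenius), for
all `w`; `g ∈ P`.
-/

namespace Pool.Agent.Lib.TU

section aux
variable {A N : Type} [Field A] [NormedField N] [IsUltrametricDist N] [Algebra A N]

private theorem Inert_lt {a b : N} {c : ℝ} (ha : ‖a‖ < c) (hb : ‖b‖ < c) : ‖a + b‖ < c :=
  (IsUltrametricDist.norm_add_le_max a b).trans_lt (max_lt ha hb)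

/-- the ramification group -/
private def InertP (hiso : ∀ (σ : N ≃ₐ[A] N) (z : N), ‖σ z‖ = ‖z‖) : Subgroup (N ≃ₐ[A] N) where
  carrier := {g | ∀ z : N, z ≠ 0 → ‖g z - z‖ < ‖z‖}
  mul_mem' := by
    intro g h hg hh z hz
    have h1 : h z ≠ 0 := fun h0 => hz (by simpa using h0)
    have e : (g * h) z - z = (g (h z) - h z) + (h z - z) := by
      rw [AlgEquiv.mul_apply]
      ring
    rw [e]
    refine Inert_lt ?_ (hh z hz)
    have h2 := hg (h z) h1
    rwa [hiso h z] at h2
  one_mem' := by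
    intro z hz
    rw [AlgEquiv.one_apply, sub_self, norm_zero]
    exact norm_pos_iff.mpr hz
  inv_mem' := by
    intro g hg z hz
    have e : g⁻¹ z - z = g⁻¹ (-(g z - z)) := by
      rw [map_neg, map_sub]
      have : g⁻¹ (g z) = z := by
        rw [← AlgEquiv.mul_apply, inv_mul_cancel, AlgEquiv.one_apply]
      rw [this]
      ring
    change ‖g⁻¹ z - z‖ < ‖z‖
    rw [e, hiso, norm_neg]
    exact hg z hz

/-- the inertia group -/
private def InertI (hiso : ∀ (σ : N ≃ₐ[A] N) (z : N), ‖σ z‖ = ‖z‖) : Subgroup (N ≃ₐ[A] N) where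
  carrier := {g | ∀ z : N, ‖z‖ ≤ 1 → ‖g z - z‖ < 1}
  mul_mem' := by
    intro g h hg hh z hz
    have e : (g * h) z - z = (g (h z) - h z) + (h z - z) := by
      rw [AlgEquiv.mul_apply]
      ring
    rw [e]
    refine Inert_lt ?_ (hh z hz)
    exact hg (h z) (by rw [hiso]; exact hz)
  one_mem' := by
    intro z hz
    rw [AlgEquiv.one_apply, sub_self, norm_zero]
    exact one_pos
  inv_mem' := by
    intro g hg z hz
    have e : g⁻¹ z - z = g⁻¹ (-(g z - z)) := by
      rw [map_neg, map_sub]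
      have : g⁻¹ (g z) = z := by
        rw [← AlgEquiv.mul_apply, inv_mul_cancel, AlgEquiv.one_apply]
      rw [this]
      ring
    change ‖g⁻¹ z - z‖ < 1
    rw [e, hiso, norm_neg]
    exact hg z hz

private theorem Inert_conj (g h : N ≃ₐ[A] N) (z : N) :
    (h * g * h⁻¹) z - z = h (g (h⁻¹ z) - h⁻¹ z) := by
  rw [map_sub, AlgEquiv.mul_apply, AlgEquiv.mul_apply]
  have : h (h⁻¹ z) = z := by
    rw [← AlgEquiv.mul_apply, mul_inv_cancel, AlgEquiv.one_apply]
  rw [this]

private theorem Inert_cast (p : ℕ) [Fact p.Prime] [CharP N p] (m : ℕ) (hm : ¬ p ∣ m) :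
    ‖(m : N)‖ = 1 := by
  refine le_antisymm (IsUltrametricDist.norm_natCast_le_one N m) ?_
  have hc : Nat.Coprime m p := (Nat.coprime_comm.mp
    ((Nat.Prime.coprime_iff_not_dvd (Fact.out : p.Prime)).mpr hm))
  have h1 := Nat.gcd_eq_gcd_ab m p
  rw [hc.gcd_eq_one] at h1
  have h2 : (1 : N) = (m : N) * ((Nat.gcdA m p : ℤ) : N) := by
    have h3 := congrArg (fun z : ℤ => (z : N)) h1
    push_cast at h3
    rw [CharP.cast_eq_zero N p, zero_mul, add_zero] at h3
    exact h3
  have h4 : (1 : ℝ) = ‖(m : N)‖ * ‖((Nat.gcdA m p : ℤ) : N)‖ := by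
    rw [← norm_mul, ← h2, norm_one]
  have h5 : ‖((Nat.gcdA m p : ℤ) : N)‖ ≤ 1 := IsUltrametricDist.norm_intCast_le_one N _
  nlinarith [norm_nonneg (m : N)]

/-- an element of the ramification group of order prime to `p` is trivial -/
private theorem Inert_tame (hiso : ∀ (σ : N ≃ₐ[A] N) (z : N), ‖σ z‖ = ‖z‖) (p : ℕ)
    [Fact p.Prime] [CharP N p] (g : N ≃ₐ[A] N) (hg : g ∈ InertP hiso) (m : ℕ) (hm : ¬ p ∣ m)
    (hgm : g ^ m = 1) : g = 1 := by
  have hm1 := Inert_cast (N := N) p m hm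
  have hm0 : (m : N) ≠ 0 := by
    intro h
    rw [h, norm_zero] at hm1
    exact zero_ne_one hm1
  have hgs : ∀ v : N, g (∑ i ∈ Finset.range m, (g ^ i) v) = ∑ i ∈ Finset.range m, (g ^ i) v := by
    intro v
    rw [map_sum]
    have e : ∀ i, g ((g ^ i) v) = (g ^ (i + 1)) v := by
      intro i
      rw [pow_succ', AlgEquiv.mul_apply]
    simp only [e]
    have h1 := Finset.sum_range_succ' (fun i => (g ^ i) v) m
    have h2 := Finset.sum_range_succ (fun i => (g ^ i) v) m
    rw [h2, hgm, pow_zero] at h1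
    exact (add_right_cancel h1).symm
  have hgi : ∀ (v : N) (j : ℕ), (g ^ j) (∑ i ∈ Finset.range m, (g ^ i) v) =
      ∑ i ∈ Finset.range m, (g ^ i) v := by
    intro v j
    induction j with
    | zero => rw [pow_zero, AlgEquiv.one_apply]
    | succ j ih => rw [pow_succ', AlgEquiv.mul_apply, ih, hgs]
  refine AlgEquiv.ext fun v => ?_
  rw [AlgEquiv.one_apply]
  set T : N := ∑ i ∈ Finset.range m, (g ^ i) v with hT
  set w : N := (m : N) * v - T with hw
  have hsum : ∑ i ∈ Finset.range m, (g ^ i) w = 0 := by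
    have e : ∀ i ∈ Finset.range m, (g ^ i) w = (m : N) * (g ^ i) v - T := by
      intro i _
      rw [hw, map_sub, map_mul, map_natCast, hgi v i]
    rw [Finset.sum_congr rfl e, Finset.sum_sub_distrib, ← Finset.mul_sum, Finset.sum_const,
      Finset.card_range, nsmul_eq_mul, ← hT, sub_self]
  have hw0 : w = 0 := by
    by_contra hne
    have e : ∑ i ∈ Finset.range m, (g ^ i) w =
        (m : N) * w + ∑ i ∈ Finset.range m, ((g ^ i) w - w) := by
      rw [Finset.sum_sub_distrib, Finset.sum_const, Finset.card_range, nsmul_eq_mul]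
      ring
    rw [e] at hsum
    have h1 : ‖(m : N) * w‖ = ‖w‖ := by rw [norm_mul, hm1, one_mul]
    have h2 : ‖∑ i ∈ Finset.range m, ((g ^ i) w - w)‖ < ‖w‖ := by
      rcases Nat.eq_zero_or_pos m with h0 | h0
      · rw [h0, Finset.range_zero, Finset.sum_empty, norm_zero]
        exact norm_pos_iff.mpr hne
      · obtain ⟨i, hi, hle⟩ := IsUltrametricDist.exists_norm_finsetSum_le_of_nonempty
          (t := Finset.range m) (Finset.nonempty_range_iff.mpr h0.ne')
          (fun i => (g ^ i) w - w)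
        exact hle.trans_lt ((InertP hiso).pow_mem hg i w hne)
    have h3 : (m : N) * w = -∑ i ∈ Finset.range m, ((g ^ i) w - w) := by
      linear_combination hsum
    rw [h3, norm_neg] at h1
    rw [h1] at h2
    exact lt_irrefl _ h2
  have hmv : (m : N) * v = T := by
    rw [hw] at hw0
    exact sub_eq_zero.mp hw0
  have h1 : (m : N) * g v = (m : N) * v := by
    have h2 := hgs v
    rw [← hT, ← hmv, map_mul, map_natCast] at h2
    exact h2
  exact mul_left_cancel₀ hm0 h1

/-- an element of the inertia group with `p`-th power in the ramification group -/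
private theorem Inert_pow (hiso : ∀ (σ : N ≃ₐ[A] N) (z : N), ‖σ z‖ = ‖z‖) (p : ℕ)
    [Fact p.Prime] [CharP N p] (g : N ≃ₐ[A] N) (hg : g ∈ InertI hiso)
    (hp : g ^ p ∈ InertP hiso) : g ∈ InertP hiso := by
  intro z hz
  have hzn : ‖z‖ ≠ 0 := norm_ne_zero_iff.mpr hz
  set u : N := g z / z with hu
  have hu1 : ‖u‖ = 1 := by rw [hu, norm_div, hiso, div_self hzn]
  have key : ∀ j : ℕ, ‖(g ^ j) z / z - u ^ j‖ < 1 := by
    intro j
    induction j with
    | zero =>
      rw [pow_zero, AlgEquiv.one_apply, div_self hz, pow_zero, sub_self, norm_zero]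
      exact one_pos
    | succ j ih =>
      set c : N := (g ^ j) z / z with hc
      have hc1 : ‖c‖ ≤ 1 := by
        rw [hc, norm_div, hiso, div_self hzn]
      have e1 : (g ^ j) z = c * z := by rw [hc, div_mul_cancel₀ _ hz]
      have e2 : (g ^ (j + 1)) z / z = g c * u := by
        rw [pow_succ', AlgEquiv.mul_apply, e1, map_mul, hu, mul_div_assoc]
      have e3 : (g ^ (j + 1)) z / z - u ^ (j + 1) = ((g c - c) + (c - u ^ j)) * u := by
        rw [e2, pow_succ]
        ring
      rw [e3, norm_mul, hu1, mul_one]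
      exact Inert_lt (hg c hc1) ih
  have h1 := key p
  have h2 : ‖(g ^ p) z / z - 1‖ < 1 := by
    have h3 := hp z hz
    have e : (g ^ p) z / z - 1 = ((g ^ p) z - z) / z := by
      rw [sub_div, div_self hz]
    rw [e, norm_div, div_lt_one (norm_pos_iff.mpr hz)]
    exact h3
  have h3 : ‖u ^ p - 1‖ < 1 := by
    have e : u ^ p - 1 = -((g ^ p) z / z - u ^ p) + ((g ^ p) z / z - 1) := by ring
    rw [e]
    exact Inert_lt (by rw [norm_neg]; exact h1) h2
  have h4 : ‖u - 1‖ < 1 := by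
    have e : (u - 1) ^ p = u ^ p - 1 := by
      rw [sub_pow_char, one_pow]
    rw [← e, norm_pow] at h3
    exact lt_of_not_ge fun h => not_lt.mpr (one_le_pow₀ h) h3
  have e : g z - z = (u - 1) * z := by
    rw [sub_mul, one_mul, hu, div_mul_cancel₀ _ hz]
  rw [e, norm_mul]
  exact mul_lt_of_lt_one_left (norm_pos_iff.mpr hz) h4

end aux

/-- See the header. -/
theorem exists_inertia {A N : Type} [Field A] [NormedField N] [IsUltrametricDist N] [Algebra A N]
    [FiniteDimensional A N] [IsGalois A N] (p : ℕ) [Fact p.Prime] [CharP A p]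
    (hiso : ∀ (σ : N ≃ₐ[A] N) (z : N), ‖σ z‖ = ‖z‖) :
    ∃ P I : Subgroup (N ≃ₐ[A] N), P.Normal ∧ I.Normal ∧ P ≤ I ∧ IsPGroup p P ∧
      (∀ g ∈ I, ∀ h ∈ I, g * h * g⁻¹ * h⁻¹ ∈ P) ∧ Nat.Coprime p (P.relIndex I) ∧
      ∀ g, g ∈ I ↔ ∀ z : N, ‖z‖ ≤ 1 → ‖g z - z‖ < 1 := by
  have hchar : CharP N p := charP_of_injective_algebraMap (algebraMap A N).injective p
  have hPn : (InertP hiso).Normal := by
    refine ⟨fun g hg h z hz => ?_⟩
    rw [Inert_conj, hiso]
    have h1 : h⁻¹ z ≠ 0 := fun h0 => hz (by simpa using h0)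
    have h2 := hg (h⁻¹ z) h1
    rwa [hiso h⁻¹ z] at h2
  have hIn : (InertI hiso).Normal := by
    refine ⟨fun g hg h z hz => ?_⟩
    rw [Inert_conj, hiso]
    exact hg (h⁻¹ z) (by rw [hiso]; exact hz)
  have hPI : InertP hiso ≤ InertI hiso := by
    intro g hg z hz
    by_cases h0 : z = 0
    · rw [h0, map_zero, sub_self, norm_zero]
      exact one_pos
    · exact (hg z h0).trans_le hz
  refine ⟨InertP hiso, InertI hiso, hPn, hIn, hPI, ?_, ?_, ?_, fun g => Iff.rfl⟩
  · rintro ⟨g, hg⟩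
    have hpos : orderOf g ≠ 0 := (orderOf_pos g).ne'
    obtain ⟨k, m, hm, hk⟩ := Nat.exists_eq_pow_mul_and_not_dvd hpos p
      (Nat.Prime.ne_one (Fact.out : p.Prime))
    refine ⟨k, ?_⟩
    have h1 : (g ^ (p ^ k)) ^ m = 1 := by
      rw [← pow_mul, ← hk, pow_orderOf_eq_one]
    have h2 := Inert_tame hiso p (g ^ (p ^ k)) ((InertP hiso).pow_mem hg _) m hm h1
    exact Subtype.ext h2
  · intro g hg h hh z hz
    set w : N := (h * g)⁻¹ z with hw
    have hzw : z = (h * g) w := by
      rw [hw, ← AlgEquiv.mul_apply, mul_inv_cancel, AlgEquiv.one_apply]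
    have hw0 : w ≠ 0 := by
      intro h0
      rw [h0, map_zero] at hzw
      exact hz hzw
    have hwn : ‖w‖ ≠ 0 := norm_ne_zero_iff.mpr hw0
    have e1 : (g * h * g⁻¹ * h⁻¹) z = g (h w) := by
      have : g * h * g⁻¹ * h⁻¹ = g * (h * (h * g)⁻¹) := by group
      rw [this, AlgEquiv.mul_apply, AlgEquiv.mul_apply]
    have e2 : ‖z‖ = ‖w‖ := by rw [hzw, hiso]
    rw [e1, e2]
    set u : N := h w / w with hu
    set v : N := g w / w with hv
    have hu1 : ‖u‖ = 1 := by rw [hu, norm_div, hiso, div_self hwn]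
    have hv1 : ‖v‖ = 1 := by rw [hv, norm_div, hiso, div_self hwn]
    have e3 : h w = u * w := by rw [hu, div_mul_cancel₀ _ hw0]
    have e4 : g w = v * w := by rw [hv, div_mul_cancel₀ _ hw0]
    have e5 : g (h w) - z = ((g u - u) * v + -((h v - v) * u)) * w := by
      rw [hzw, AlgEquiv.mul_apply, e3, e4, map_mul, map_mul, e3, e4]
      ring
    rw [e5, norm_mul]
    refine mul_lt_of_lt_one_left (norm_pos_iff.mpr hw0) (Inert_lt ?_ ?_)
    · rw [norm_mul, hv1, mul_one]
      exact hg u hu1.le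
    · rw [norm_neg, norm_mul, hu1, mul_one]
      exact hh v hv1.le
  · rw [Nat.Prime.coprime_iff_not_dvd (Fact.out : p.Prime)]
    intro hdvd
    have hn : ((InertP hiso).subgroupOf (InertI hiso)).Normal := Subgroup.normal_subgroupOf
    have hfin : Finite (InertI hiso) := inferInstance
    have hcard : p ∣ Nat.card (InertI hiso ⧸ (InertP hiso).subgroupOf (InertI hiso)) := hdvd
    obtain ⟨q, hq⟩ := exists_prime_orderOf_dvd_card' p hcard
    obtain ⟨⟨g, hg⟩, rfl⟩ := QuotientGroup.mk_surjective q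
    have h1 : g ^ p ∈ InertP hiso := by
      have h2 := pow_orderOf_eq_one
        (QuotientGroup.mk ⟨g, hg⟩ : InertI hiso ⧸ (InertP hiso).subgroupOf (InertI hiso))
      rw [hq, ← QuotientGroup.mk_pow, QuotientGroup.eq_one_iff, Subgroup.mem_subgroupOf] at h2
      exact h2
    have h2 := Inert_pow hiso p g hg h1
    have h3 : (QuotientGroup.mk ⟨g, hg⟩ : InertI hiso ⧸ (InertP hiso).subgroupOf (InertI hiso)) =
        1 := by
      rw [QuotientGroup.eq_one_iff, Subgroup.mem_subgroupOf]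
      exact h2
    rw [h3, orderOf_one] at hq
    exact (Nat.Prime.one_lt (Fact.out : p.Prime)).ne hq

end Pool.Agent.Lib.TU
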