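import Pool.Agent.Lib.TU.HOcr
import Pool.Agent.Lib.MP_3029eb_ag.AbhBase

/-!
# Module HOMap: mapping properties of the rings `HO`

Let `z ∈ Bu c x1 G1` for a model `(x1, G1)` of `c` in `M`.  Apply `HO_crit` (for `c'`, `M'`) to
`G := τ(G1)`: for `g ∈ G1`, `g = e + ∑ b_i x1_i + b_0 y` with `b ∈ Bu c x1 G1`;
`τ b_i ∈ B' := locV (closure (HO M' c' ∪ τ G1))` because `τ C ⊆ HO M' c'`, `τ (x1_i) ∈ HO M' c'` (a monomial
in the `τ(x_j)`, so monomial for `c'`, of norm `< 1`), `τ y ∈ HO M' c'` and `τ` preserves norms.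
`τ e ∈ HO M' c'`, `‖τ(x1_i)‖ < 1` and `‖τ y‖ < 1`: write `τ e = e' + q + b y'` (`HO_dec`),
`τ (x1_i) = mon c'.x a_i * u_i` with `‖mon c'.x a_i‖ < 1`, `τ y = q' + b' y'` (`HO_gen`); factor the largest
of the monomials occurring.  So `τ G1 ⊆ HO M' c'` and then `τ z ∈ HO M' c'`.
-/

namespace Pool.Agent.Lib.TU

open Pool.Agent.Lib.MP_3029eb_ag Pool.Agent.Lib.MP_3029eb_ag.Abh Pool.Agent.Lib.TDO

variable {k W : Type} [Field k] [NormedField W] [IsUltrametricDist W] [Algebra k W] {r m : ℕ}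
  {M M' : IntermediateField k W} {c c' : Tri k W r}

omit [IsUltrametricDist W] in
private theorem HOMap_le_loc (V : ValuationSubring W) (A : Subring W) {z : W} (hz : z ∈ A) :
    z ∈ locV V A := ⟨z, hz, 1, one_mem _, map_one _, mul_one _⟩

private theorem HOMap_inv (A : Subring W) {z : W} (hz : z ∈ locV (ball W) A) (h1 : ‖z‖ = 1) :
    z⁻¹ ∈ locV (ball W) A := by
  obtain ⟨a, ha, b, hb, hb1, h⟩ := hz
  have hz0 : z ≠ 0 := by
    intro h0
    rw [h0, norm_zero] at h1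
    exact zero_ne_one h1
  rw [ball_val_eq_one] at hb1
  refine ⟨b, hb, a, ha, ?_, ?_⟩
  · rw [ball_val_eq_one, ← h, norm_mul, h1, hb1, one_mul]
  · rw [← h, ← mul_assoc, inv_mul_cancel₀ hz0, one_mul]

omit [IsUltrametricDist W] in
private theorem HOMap_mon (τ : W →+* W) (x : Fin r → W) (a : Fin r → ℤ) :
    τ (mon x a) = mon (fun i => τ (x i)) a := by
  unfold mon
  rw [map_prod]
  exact Finset.prod_congr rfl fun i _ => map_zpow₀ τ _ _

private theorem HOMap_one : MoH M c 1 :=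
  MoH.of_unit (one_mem _) norm_one

private theorem HOMap_pow (hok : Ok m M c) {z : W} (hz : MoH M c z) (n : ℕ) :
    MoH M c (z ^ n) := by
  induction n with
  | zero => rw [pow_zero]; exact HOMap_one
  | succ n ih => rw [pow_succ]; exact MoH.mul hok ih hz

private theorem HOMap_zpow (hok : Ok m M c) {z : W} (hz : MoH M c z) (n : ℤ) :
    MoH M c (z ^ n) := by
  cases n with
  | ofNat n => rw [Int.ofNat_eq_natCast, zpow_natCast]; exact HOMap_pow hok hz n
  | negSucc n => rw [zpow_negSucc]; exact MoH.inv hok (HOMap_pow hok hz _)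

private theorem HOMap_monMoH (hok : Ok m M c) {x : Fin r → W} (hx : ∀ i, MoH M c (x i))
    (a : Fin r → ℤ) : MoH M c (mon x a) := by
  unfold mon
  refine Finset.prod_induction _ (fun z => MoH M c z) (fun _ _ h h' => MoH.mul hok h h')
    HOMap_one ?_
  intro i _
  exact HOMap_zpow hok (hx i) _

/-- The ideal generated by the monomials of norm less than one in the ring `B`. -/
private def QB (c : Tri k W r) (B : Subring W) : Set W :=
  {z | ∃ a : Fin r → ℤ, ‖mon c.x a‖ < 1 ∧ ∃ h ∈ B, z = mon c.x a * h}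

private theorem QB_add (hok : Ok m M c) {B : Subring W} (hB : ∀ z ∈ HO M c, z ∈ B) {z z' : W}
    (hz : z ∈ QB c B) (hz' : z' ∈ QB c B) : z + z' ∈ QB c B := by
  have hne := hok.par.ind.ne
  have key : ∀ a a' : Fin r → ℤ, ‖mon c.x a‖ < 1 → ‖mon c.x a'‖ ≤ ‖mon c.x a‖ → ∀ h ∈ B, ∀ h' ∈ B,
      mon c.x a * h + mon c.x a' * h' ∈ QB c B := by
    intro a a' ha hle h hh h' hh'
    refine ⟨a, ha, h + mon c.x (a' + -a) * h', ?_, ?_⟩
    · refine add_mem hh (mul_mem (hB _ (mon_mem_HO hok ?_)) hh')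
      rw [mon_add c.x hne, mon_neg, norm_mul, norm_inv, ← div_eq_mul_inv]
      exact div_le_one_of_le₀ hle (norm_nonneg _)
    · rw [mon_add c.x hne, mon_neg]
      have := mon_ne c.x hne a
      field_simp
  obtain ⟨a, ha, h, hh, rfl⟩ := hz
  obtain ⟨a', ha', h', hh', rfl⟩ := hz'
  rcases le_total ‖mon c.x a'‖ ‖mon c.x a‖ with hle | hle
  · exact key a a' ha hle h hh h' hh'
  · rw [add_comm]
    exact key a' a ha' hle h' hh' h hh

omit [IsUltrametricDist W] in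
private theorem QB_mul {B : Subring W} {z b : W} (hz : z ∈ QB c B) (hb : b ∈ B) :
    b * z ∈ QB c B := by
  obtain ⟨a, ha, h, hh, rfl⟩ := hz
  exact ⟨a, ha, b * h, mul_mem hb hh, by ring⟩

private theorem QB_of {B : Subring W} (hB : ∀ z ∈ HO M c, z ∈ B) {z : W}
    (hz : z ∈ QH M c) : z ∈ QB c B := by
  obtain ⟨a, ha, h, hh, rfl⟩ := hz
  exact ⟨a, ha, h, hB _ hh, rfl⟩

/-- See the header. -/
theorem HO_map (hr : 0 < r) (hok : Ok m M c) (hok' : Ok m M' c') (τ : W →+* W)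
    (hiso : ∀ z, ‖τ z‖ = ‖z‖) (hM : ∀ z ∈ M, τ z ∈ M') (hC : ∀ z ∈ c.C, τ z ∈ HO M' c')
    (hx : ∀ i, MoH M' c' (τ (c.x i))) (hy : τ c.y ∈ HO M' c') :
    ∀ z ∈ HO M c, τ z ∈ HO M' c' := by
  classical
  intro z hz
  obtain ⟨x1, G1, hmdl, hz1⟩ := (mem_HO_iff hok z).1 hz
  -- the elements x1
  have hx1 : ∀ i, MoH M' c' (τ (x1 i)) ∧ ‖τ (x1 i)‖ < 1 := by
    intro i
    obtain ⟨A, B, -, hB, -⟩ := hmdl.mt.mat
    refine ⟨?_, ?_⟩
    · rw [hB i, HOMap_mon]
      exact HOMap_monMoH hok' hx _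
    · rw [hiso]
      exact hmdl.mt.ind.lt i
  set G : Finset W := G1.image τ with hG
  set B' : Subring W := locV (ball W) (Subring.closure ((HO M' c' : Set W) ∪ (G : Set W))) with hB'
  have hHB : ∀ z ∈ HO M' c', z ∈ B' := fun z hz =>
    HOMap_le_loc _ _ (Subring.subset_closure (Or.inl hz))
  have hGB : ∀ g ∈ G1, τ g ∈ B' := fun g hg =>
    HOMap_le_loc _ _ (Subring.subset_closure (Or.inr (Finset.mem_coe.2 (Finset.mem_image_of_mem τ hg))))
  have hBu : ∀ b ∈ Bu c x1 G1, τ b ∈ B' := by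
    intro b hb
    have := Bu_le (c := c) (x' := x1) (G := G1) (B'.comap τ) (fun z hz => hHB _ (hC z hz))
      (fun i => hHB _ ((hx1 i).1.mem_HO hok' (hx1 i).2.le)) (hHB _ hy) (fun g hg => hGB g hg)
      (fun z hz h1 => by
        rw [Subring.mem_comap] at hz ⊢
        rw [map_inv₀]
        exact HOMap_inv _ hz (by rw [hiso]; exact h1)) hb
    exact this
  -- the decomposition
  have hcrit := HO_crit hok' G (by
      intro g hg
      obtain ⟨g1, hg1, rfl⟩ := Finset.mem_image.1 hg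
      exact ⟨hM _ (hmdl.gM g1 hg1).1, by rw [hiso]; exact (hmdl.gM g1 hg1).2⟩) (by
      intro g hg
      obtain ⟨g1, hg1, rfl⟩ := Finset.mem_image.1 hg
      obtain ⟨e, he, b, b0, hb, hb0, hg1e⟩ := hmdl.dec g1 hg1
      obtain ⟨e', he', q, hq, b', hb', hee⟩ := HO_dec hr hok' (hC e he)
      obtain ⟨q', hq', b'', hb'', hyy⟩ := HO_gen hr hok' hy (by rw [hiso]; exact hok.par.y1)
      have hsum : ∑ i, τ (b i) * τ (x1 i) ∈ QB c' B' := by
        refine Finset.sum_induction _ (fun z => z ∈ QB c' B')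
          (fun _ _ h h' => QB_add hok' hHB h h') (QB_of hHB (QH_zero hok' hr)) ?_
        intro i _
        exact QB_mul (QB_of hHB ((hx1 i).1.mem_QH hok' (hx1 i).2)) (hBu _ (hb i))
      have htot : q + ∑ i, τ (b i) * τ (x1 i) + τ b0 * q' ∈ QB c' B' :=
        QB_add hok' hHB (QB_add hok' hHB (QB_of hHB hq) hsum) (QB_mul (QB_of hHB hq') (hBu _ hb0))
      obtain ⟨a, ha, b1, hb1, hab⟩ := htot
      refine ⟨e', he', a, ha, b1, hb1, b' + τ b0 * b'', add_mem (hHB _ hb')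
        (mul_mem (hBu _ hb0) (hHB _ hb'')), ?_⟩
      rw [← hab, hg1e, map_add, map_add, map_sum, map_mul, hee, hyy]
      simp only [map_mul]
      ring)
  -- conclusion
  have := Bu_le (c := c) (x' := x1) (G := G1) ((HO M' c').comap τ) (fun z hz => hC z hz)
      (fun i => (hx1 i).1.mem_HO hok' (hx1 i).2.le) hy
      (fun g hg => hcrit _ (Finset.mem_image_of_mem τ hg))
      (fun z hz h1 => by
        rw [Subring.mem_comap] at hz ⊢
        rw [map_inv₀]
        exact inv_mem_HO hok' hz (by rw [hiso]; exact h1)) hz1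
  exact this

/-- The case of the identity. -/
theorem HO_mono (hr : 0 < r) (hok : Ok m M c) (hok' : Ok m M' c') (hM : M ≤ M')
    (hC : ∀ z ∈ c.C, z ∈ HO M' c') (hx : ∀ i, MoH M' c' (c.x i)) (hy : c.y ∈ HO M' c') :
    ∀ z ∈ HO M c, z ∈ HO M' c' :=
  HO_map hr hok hok' (RingHom.id W) (fun _ => rfl) (fun _ hz => hM hz) hC hx hy

/-- Consequences for monomial elements and for `HL`. -/
theorem MoH_map (hok' : Ok m M' c') (τ : W →+* W)
    (hiso : ∀ z, ‖τ z‖ = ‖z‖) (hH : ∀ z ∈ HO M c, τ z ∈ HO M' c')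
    (hx : ∀ i, MoH M' c' (τ (c.x i))) {z : W} (hz : MoH M c z) : MoH M' c' (τ z) := by
  obtain ⟨a, u, hu, hu1, rfl⟩ := hz
  rw [map_mul, HOMap_mon]
  exact MoH.mul hok' (HOMap_monMoH hok' hx a) (MoH.of_unit (hH u hu) (by rw [hiso]; exact hu1))

theorem HL_map (hok : Ok m M c) (hok' : Ok m M' c') (τ : W →+* W)
    (hH : ∀ z ∈ HO M c, τ z ∈ HO M' c')
    (hx : ∀ i, MoH M' c' (τ (c.x i))) {z : W} (hz : z ∈ HL M c) : τ z ∈ HL M' c' := by
  obtain ⟨a, h, hh, rfl⟩ := (mem_HL_iff hok z).1 hz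
  rw [map_mul, HOMap_mon]
  exact mul_mem ((HOMap_monMoH hok' hx a).mem_HL hok') (HO_le_HL (hH h hh))

end Pool.Agent.Lib.TU
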