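import Pool.Agent.Lib.TU.LdBas
import Pool.Agent.Lib.TU.HOMap

/-!
# Module StabD: stable charts, definition and first facts

Facts.  `σ (QH) ⊆ QH`: `σ (x^a h) = x^a u h'` with `u` a product of powers of units.
`σ c.y = c.y v + q` with `‖v‖ = 1`: `σ y ∈ HO`, `‖σ y‖ < 1` so `σ y = y v + q`, `v ∈ HO` (`HO_gen`).  If `‖v‖ < 1`
then `v ∈ yHO + QH` and `σ y ∈ y^2 HO + QH`; apply `σ⁻¹` (`act.mul`, `act.one` on `y ∈ M`):
`y = σ⁻¹ (σ y) ∈ (σ⁻¹ y)^2 HO + QH ⊆ y^2 HO + QH` (as `σ⁻¹ y ∈ yHO + QH`), so `y (1 - y h) ∈ QH`, `y ∈ QH`,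
contradiction to `y_pow_not_QH`.
`σ` is injective on `HO` with `σ HO = HO` (apply `σ⁻¹`).
-/

namespace Pool.Agent.Lib.TU

open Pool.Agent.Lib.MP_3029eb_ag Pool.Agent.Lib.MP_3029eb_ag.Abh Pool.Agent.Lib.TDO

variable {k W : Type} [Field k] [NormedField W] [IsUltrametricDist W] [Algebra k W] {r m : ℕ}
  {Γ : Type} [Group Γ] {S L L' : IntermediateField k W}

/-- The chart `c` of `L'` is stable under `Γ`. -/
structure Stb (m : ℕ) (act : Act Γ S L L') (c : Tri k W r) : Prop where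
  ch : Ch m S L' c
  ho : ∀ σ, ∀ z ∈ HO (S ⊓ L') c, act.f σ z ∈ HO (S ⊓ L') c
  hx : ∀ σ i, ∃ u ∈ HO (S ⊓ L') c, ‖u‖ = 1 ∧ act.f σ (c.x i) = c.x i * u

variable {act : Act Γ S L L'} {c : Tri k W r}

omit [IsUltrametricDist W] in
private theorem StabD_mon (τ : W →ₐ[k] W) (x : Fin r → W) (a : Fin r → ℤ) :
    τ (mon x a) = mon (fun i => τ (x i)) a := by
  unfold mon
  rw [map_prod]
  exact Finset.prod_congr rfl fun i _ => map_zpow₀ τ _ _

private theorem StabD_zpow {M : IntermediateField k W} (hok : Ok m M c) {u : W}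
    (hu : u ∈ HO M c) (hu1 : ‖u‖ = 1) (n : ℤ) : u ^ n ∈ HO M c ∧ ‖u ^ n‖ = 1 := by
  refine ⟨?_, by rw [norm_zpow, hu1, one_zpow]⟩
  cases n with
  | ofNat n => rw [Int.ofNat_eq_natCast, zpow_natCast]; exact pow_mem hu _
  | negSucc n =>
    rw [zpow_negSucc]
    exact inv_mem_HO hok (pow_mem hu _) (by rw [norm_pow, hu1, one_pow])

/-- The image of a monomial is the monomial times a unit. -/
private theorem StabD_unit (h : Stb m act c) (σ : Γ) (a : Fin r → ℤ) :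
    ∃ u ∈ HO (S ⊓ L') c, ‖u‖ = 1 ∧ act.f σ (mon c.x a) = mon c.x a * u := by
  have hok := h.ch.ok
  choose u hu hu1 hx using h.hx σ
  refine ⟨∏ i, u i ^ a i, prod_mem fun i _ => (StabD_zpow hok (hu i) (hu1 i) (a i)).1, ?_, ?_⟩
  · rw [norm_prod]
    exact Finset.prod_eq_one fun i _ => (StabD_zpow hok (hu i) (hu1 i) (a i)).2
  · rw [StabD_mon]
    unfold mon
    rw [← Finset.prod_mul_distrib]
    refine Finset.prod_congr rfl fun i _ => ?_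
    show (act.f σ (c.x i)) ^ a i = _
    rw [hx i, mul_zpow]

theorem Stb.QH (hr : 0 < r) (h : Stb m act c) (σ : Γ) {z : W} (hz : z ∈ QH (S ⊓ L') c) :
    act.f σ z ∈ QH (S ⊓ L') c := by
  obtain ⟨a, ha, w, hw, rfl⟩ := hz
  obtain ⟨u, hu, -, hua⟩ := StabD_unit h σ a
  rw [map_mul, hua, mul_assoc]
  exact ⟨a, ha, u * act.f σ w, mul_mem hu (h.ho σ w hw), rfl⟩

theorem Stb.y (hr : 0 < r) (h : Stb m act c) (σ : Γ) :
    ∃ v ∈ HO (S ⊓ L') c, ‖v‖ = 1 ∧ ∃ q ∈ TU.QH (S ⊓ L') c, act.f σ c.y = c.y * v + q := by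
  have hok := h.ch.ok
  have hgen : ∀ τ : Γ, ∃ q ∈ TU.QH (S ⊓ L') c, ∃ b ∈ HO (S ⊓ L') c,
      act.f τ c.y = q + b * c.y := fun τ =>
    HO_gen hr hok (h.ho τ _ (y_mem_HO hok)) (by rw [act.iso]; exact hok.par.y1)
  obtain ⟨q, hq, v, hv, hvy⟩ := hgen σ
  rcases lt_or_eq_of_le (HO_norm_le hok hv) with hlt | heq
  · exfalso
    obtain ⟨q', hq', b', hb', hvb⟩ := HO_gen hr hok hv hlt
    obtain ⟨q2, hq2, b2, hb2, hy2⟩ := hgen σ⁻¹
    have hyL : c.y ∈ L' := (IntermediateField.mem_inf.1 hok.yM).2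
    have h1 : act.f σ⁻¹ (act.f σ c.y) = c.y := by
      rw [← act.mul _ _ _ hyL, inv_mul_cancel, act.one _ hyL]
    have hq1 : q + q' * c.y ∈ TU.QH (S ⊓ L') c :=
      QH_add hok hq (QH_mul hok hq' (y_mem_HO hok))
    have h2 : act.f σ c.y = (q + q' * c.y) + b' * c.y ^ 2 := by
      rw [hvy, hvb]; ring
    have h3 : c.y = act.f σ⁻¹ (q + q' * c.y) + act.f σ⁻¹ b' * (q2 + b2 * c.y) ^ 2 := by
      conv_lhs => rw [← h1, h2]
      rw [map_add, map_mul, map_pow, hy2]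
    have hb'' := h.ho σ⁻¹ _ hb'
    have hQ := h.QH hr σ⁻¹ hq1
    -- `y = q4 + b3 y ^ 2`
    have hq4 : act.f σ⁻¹ (q + q' * c.y) +
        q2 * (act.f σ⁻¹ b' * (q2 + 2 * (b2 * c.y))) ∈ TU.QH (S ⊓ L') c := by
      refine QH_add hok hQ (QH_mul hok hq2 (mul_mem hb'' (add_mem (QH_mem_HO hok hq2)
        (mul_mem ?_ (mul_mem hb2 (y_mem_HO hok))))))
      exact_mod_cast natCast_mem (HO (S ⊓ L') c) 2
    set q4 := act.f σ⁻¹ (q + q' * c.y) +
        q2 * (act.f σ⁻¹ b' * (q2 + 2 * (b2 * c.y))) with hq4d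
    have h4 : c.y * (1 - act.f σ⁻¹ b' * b2 ^ 2 * c.y) = q4 := by
      rw [hq4d]
      linear_combination h3
    have hu : 1 - act.f σ⁻¹ b' * b2 ^ 2 * c.y ∈ HO (S ⊓ L') c :=
      sub_mem (one_mem _) (mul_mem (mul_mem hb'' (pow_mem hb2 _)) (y_mem_HO hok))
    have hlt2 : ‖act.f σ⁻¹ b' * b2 ^ 2 * c.y‖ < 1 := by
      rw [norm_mul]
      have h5 : ‖act.f σ⁻¹ b' * b2 ^ 2‖ ≤ 1 := HO_norm_le hok (mul_mem hb'' (pow_mem hb2 _))
      calc _ ≤ 1 * ‖c.y‖ := mul_le_mul_of_nonneg_right h5 (norm_nonneg _)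
        _ < 1 := by rw [one_mul]; exact hok.par.y1
    have hu1 : ‖1 - act.f σ⁻¹ b' * b2 ^ 2 * c.y‖ = 1 := by
      rw [sub_eq_add_neg, IsUltrametricDist.norm_add_eq_max_of_norm_ne_norm
        (by rw [norm_one, norm_neg]; exact hlt2.ne'), norm_neg, norm_one, max_eq_left hlt2.le]
    have hu0 : 1 - act.f σ⁻¹ b' * b2 ^ 2 * c.y ≠ 0 := by
      intro h0
      rw [h0, norm_zero] at hu1
      exact zero_ne_one hu1
    refine y_pow_not_QH hr hok 1 ?_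
    rw [pow_one]
    have h6 : c.y = q4 * (1 - act.f σ⁻¹ b' * b2 ^ 2 * c.y)⁻¹ := by
      rw [← h4, mul_assoc, mul_inv_cancel₀ hu0, mul_one]
    rw [h6]
    exact QH_mul hok hq4 (inv_mem_HO hok hu hu1)
  · exact ⟨v, hv, heq, q, hq, by rw [hvy]; ring⟩

/-- Invariant elements of `L'` are in `L`; sums over the group are invariant. -/
theorem Act.sum_mem [Fintype Γ] (act : Act Γ S L L') {z : W} (hz : z ∈ L') :
    ∑ σ, act.f σ z ∈ L := by
  refine (act.fix _ (_root_.sum_mem fun σ _ => act.memL σ z hz)).1 fun τ => ?_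
  rw [map_sum]
  rw [show ∑ σ, act.f τ (act.f σ z) = ∑ σ, act.f (τ * σ) z from
    Finset.sum_congr rfl fun σ _ => (act.mul τ σ z hz).symm]
  exact Equiv.sum_comp (Equiv.mulLeft τ) (fun σ => act.f σ z)

theorem Act.prod_mem [Fintype Γ] (act : Act Γ S L L') {z : W} (hz : z ∈ L') :
    ∏ σ, act.f σ z ∈ L := by
  refine (act.fix _ (_root_.prod_mem fun σ _ => act.memL σ z hz)).1 fun τ => ?_
  rw [map_prod]
  rw [show ∏ σ, act.f τ (act.f σ z) = ∏ σ, act.f (τ * σ) z from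
    Finset.prod_congr rfl fun σ _ => (act.mul τ σ z hz).symm]
  exact Equiv.prod_comp (Equiv.mulLeft τ) (fun σ => act.f σ z)

end Pool.Agent.Lib.TU
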