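import Pool.Agent.Lib.TU.LatU
import Pool.Agent.Lib.TU.StabD
import Pool.Agent.Lib.TU.ChB
import Pool.Agent.Lib.TDO.Ev
import Pool.Agent.Lib.TDO.Cl
import Pool.Agent.Lib.TDO.Tr

/-!
# Module KumCh: the chart of the smaller field in the Kummer case (paper section 11)

`s(x_i) = ξ^(n_i) x_i`; `mon x a` is invariant iff `l ∣ ∑ a_j n_j` (then in `L` by `act.fix`, `hgen`).
`lattice_basis`: `x''`.  Claim: `⟨c.C, x'', y⟩` is a chart of `L`.
`x'' i ∈ S ⊓ L`.  `x_i^l` is a monomial in `x''` (`l ∣ l n_i`), so `x_i` is a root of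
`T^l - x_i^l`, separable over `C(x'', y)` (`l ≠ 0` in `k`): `S` is separable over `C(x, y)`, which is separable over
`C(x'', y)`.  `Par`: algebraic independence because `x` is algebraic over `C(x'')`
(`tr_of_algebraic`).
Density: `z ∈ L`, `ε > 0`.  `T(u) := (1/l) ∑_(j<l) s^j(u)`, `T(z) = z`, `‖T(u)‖ ≤ ‖u‖`.  `P ∈ C(x, y)`,
`‖z - P‖ < ε`.  As the `x_i` are algebraic over `K'' = C(x'', y) ⊆ L`, `P` is a `K''`-linear combination
of monomials in `x`; `T` is `K''`-linear, keeps the invariant monomials (which are monomials in `x''`) and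
kills the others (`∑_j ξ^(jn) = 0` for `l ∤ n`).  So `T(P) ∈ K''`, `‖z - T(P)‖ < ε`.
-/

namespace Pool.Agent.Lib.TU

open Pool.Agent.Lib.MP_3029eb_ag Pool.Agent.Lib.MP_3029eb_ag.Abh Pool.Agent.Lib.TDO

section aux

private noncomputable def KumCh_hom {W : Type} [Field W] {r : ℕ} (x : Fin r → W)
    (hx : ∀ i, x i ≠ 0) : Multiplicative (Fin r → ℤ) →* W where
  toFun a := Abh.mon x a.toAdd
  map_one' := mon_zero x
  map_mul' a b := mon_add x hx a.toAdd b.toAdd

private lemma KumCh_rep {k W : Type} [Field k] [Field W] [Algebra k W] {r : ℕ} (x : Fin r → W)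
    (hx : ∀ i, x i ≠ 0) {z : W} (hz : z ∈ Algebra.adjoin k (Set.range x)) :
    ∃ f : (Fin r → ℤ) →₀ k, z = f.sum fun a c => algebraMap k W c * Abh.mon x a := by
  have hle : Algebra.adjoin k (Set.range x) ≤
      (AddMonoidAlgebra.lift k W (Fin r → ℤ) (KumCh_hom x hx)).range := by
    apply Algebra.adjoin_le
    rintro _ ⟨i, rfl⟩
    refine ⟨AddMonoidAlgebra.single (Pi.single i 1) 1, ?_⟩
    have h1 : AddMonoidAlgebra.lift k W (Fin r → ℤ) (KumCh_hom x hx)
        (AddMonoidAlgebra.single (Pi.single i 1) 1) =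
        (1 : k) • Abh.mon x (Pi.single i 1) := AddMonoidAlgebra.lift_single _ _ _
    refine h1.trans ?_
    rw [one_smul]
    exact mon_single x i
  obtain ⟨Q, rfl⟩ := hle hz
  exact ⟨Q.coeff, rfl⟩

private lemma KumCh_mon_map {k W : Type} [Field k] [Field W] [Algebra k W] {r : ℕ}
    (τ : W →ₐ[k] W) (x : Fin r → W) (a : Fin r → ℤ) :
    τ (Abh.mon x a) = Abh.mon (fun i => τ (x i)) a := by
  unfold MP_3029eb_ag.Abh.mon
  rw [map_prod]
  exact Finset.prod_congr rfl fun i _ => map_zpow₀ τ _ _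

/-- The image of a monomial. -/
private lemma KumCh_eig {k W : Type} [Field k] [Field W] [Algebra k W] {r : ℕ}
    (τ : W →ₐ[k] W) (x : Fin r → W) (ξ : W) (hξ0 : ξ ≠ 0) (n : Fin r → ℕ)
    (h : ∀ i, τ (x i) = ξ ^ n i * x i) (a : Fin r → ℤ) :
    τ (Abh.mon x a) = ξ ^ (∑ j, a j * (n j : ℤ)) * Abh.mon x a := by
  rw [KumCh_mon_map]
  unfold MP_3029eb_ag.Abh.mon
  have h1 : ∀ s : Finset (Fin r), ∏ i ∈ s, (τ (x i)) ^ a i =
      ξ ^ (∑ j ∈ s, a j * (n j : ℤ)) * ∏ i ∈ s, x i ^ a i := by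
    classical
    intro s
    induction s using Finset.induction_on with
    | empty => simp
    | insert i s hi ih =>
      rw [Finset.prod_insert hi, Finset.prod_insert hi, Finset.sum_insert hi, ih,
        zpow_add₀ hξ0, h i, mul_zpow, ← zpow_natCast ξ (n i), ← zpow_mul,
        mul_comm (n i : ℤ) (a i)]
      ring
  exact h1 Finset.univ

/-- Separability of the `x i`. -/
private lemma KumCh_sep {F W : Type} [Field F] [Field W] [Algebra F W] (l : ℕ) (hl : (l : F) ≠ 0)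
    (w : W) (hw : w ≠ 0) (e : F) (he : algebraMap F W e = w ^ l) : IsSeparable F w := by
  have he0 : e ≠ 0 := by
    rintro rfl
    rw [map_zero] at he
    exact hw ((pow_eq_zero_iff (by rintro rfl; simp at hl)).1 he.symm)
  refine Polynomial.Separable.of_dvd (Polynomial.separable_X_pow_sub_C e hl he0)
    (minpoly.dvd F w ?_)
  rw [map_sub, map_pow, Polynomial.aeval_X, Polynomial.aeval_C, he, sub_self]

end aux

/-- See the header. -/
theorem kum_chart {k W : Type} [Field k] [NormedField W] [IsUltrametricDist W]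
    [Algebra k W] {r m : ℕ} {Γ : Type} [Group Γ] {S L L' : IntermediateField k W}
    (hu : ∀ c : k, c ≠ 0 → ‖algebraMap k W c‖ = 1) (hLL' : L ≤ L') {act : Act Γ S L L'}
    {c : Tri k W r} (hc : Ch m S L' c) (l : ℕ) (hl : l.Prime) (hlk : (l : k) ≠ 0) (ξ : W)
    (hξL : ξ ∈ L) (hξ : IsPrimitiveRoot ξ l) (s : Γ) (hs : s ^ l = 1)
    (hgen : ∀ σ : Γ, ∃ n : ℕ, σ = s ^ n) (hC : c.C ≤ L) (hy : c.y ∈ L)
    (hx : ∀ i, ∃ n : ℕ, act.f s (c.x i) = ξ ^ n * c.x i) : HasCh m S r L := by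
  classical
  choose n hn using hx
  have hok := hc.ok
  have hind := hok.par.ind
  have hξ0 : ξ ≠ 0 := hξ.ne_zero hl.ne_zero
  have hxS : ∀ i, c.x i ∈ S := fun i => (hok.xM i).1
  have hxL : ∀ i, c.x i ∈ L' := fun i => (hok.xM i).2
  have hfixL : ∀ (σ : Γ) (z : W), z ∈ L → act.f σ z = z := fun σ z hz =>
    (act.fix z (hLL' hz)).2 hz σ
  have heig : ∀ a, act.f s (Abh.mon c.x a) = ξ ^ (∑ j, a j * (n j : ℤ)) * Abh.mon c.x a :=
    KumCh_eig (act.f s) c.x ξ hξ0 n hn
  have hmonL' : ∀ a, Abh.mon c.x a ∈ L' := fun a => mon_mem c.x hxL a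
  have heigj : ∀ (j : ℕ) a, act.f (s ^ j) (Abh.mon c.x a) =
      (ξ ^ (∑ j, a j * (n j : ℤ))) ^ j * Abh.mon c.x a := by
    intro j a
    induction j with
    | zero => rw [pow_zero, pow_zero, one_mul, act.one _ (hmonL' a)]
    | succ j ih =>
      rw [pow_succ, act.mul _ _ _ (hmonL' a), heig, map_mul, map_zpow₀, hfixL _ ξ hξL, ih,
        pow_succ]
      ring
  -- invariant monomials
  have hinv : ∀ a : Fin r → ℤ, (l : ℤ) ∣ ∑ j, a j * (n j : ℤ) → Abh.mon c.x a ∈ L := by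
    intro a ha
    have h1 : ξ ^ (∑ j, a j * (n j : ℤ)) = 1 := (hξ.zpow_eq_one_iff_dvd _).2 ha
    refine (act.fix _ (hmonL' a)).1 fun σ => ?_
    obtain ⟨j, rfl⟩ := hgen σ
    rw [heigj, h1, one_pow, one_mul]
  obtain ⟨x'', hind'', hx1, hx2⟩ := lattice_basis c.x hind l hl.pos (fun j => (n j : ℤ))
  have hx''L : ∀ i, x'' i ∈ L := fun i => by
    obtain ⟨a, ha, hd⟩ := hx1 i
    rw [ha]
    exact hinv a hd
  have hx''S : ∀ i, x'' i ∈ S := fun i => by
    obtain ⟨a, ha, hd⟩ := hx1 i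
    rw [ha]
    exact mon_mem c.x hxS a
  -- the fields
  set K2 : IntermediateField c.C W := Kxy c.C x'' c.y with hK2
  have hK2L : ∀ z ∈ K2, z ∈ L := by
    have h1 : K2 ≤ IntermediateField.extendScalars hC :=
      Kxy_le x'' c.y (fun i => hx''L i) hy
    exact fun z hz => h1 hz
  have hinvK2 : ∀ a : Fin r → ℤ, (l : ℤ) ∣ ∑ j, a j * (n j : ℤ) → Abh.mon c.x a ∈ K2 := by
    intro a ha
    obtain ⟨a', ha'⟩ := hx2 a ha
    rw [ha']
    exact mon_mem_Kxy x'' c.y a'
  have hxl : ∀ i, c.x i ^ l ∈ K2 := by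
    intro i
    have h1 : c.x i ^ l = Abh.mon c.x (l • Pi.single i 1) := by
      rw [mon_nsmul, mon_single]
    rw [h1]
    apply hinvK2
    apply Finset.dvd_sum
    intro j _
    rw [Pi.smul_apply, nsmul_eq_mul, mul_assoc]
    exact Dvd.intro _ rfl
  have hlC : (l : c.C) ≠ 0 := by
    have h1 : (l : c.C) = algebraMap k c.C (l : k) := (map_natCast _ _).symm
    rw [h1]
    exact fun h2 => hlk ((map_eq_zero_iff _ (algebraMap k c.C).injective).1 h2)
  have hlK2 : (l : K2) ≠ 0 := by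
    have h1 : (l : K2) = algebraMap c.C K2 (l : c.C) := (map_natCast _ _).symm
    rw [h1]
    exact fun h2 => hlC ((map_eq_zero_iff _ (algebraMap c.C K2).injective).1 h2)
  have hsepx : ∀ i, IsSeparable K2 (c.x i) := fun i =>
    KumCh_sep l hlK2 (c.x i) (hind.ne i) ⟨c.x i ^ l, hxl i⟩ rfl
  -- the field `K2(x)`
  set E : IntermediateField K2 W := IntermediateField.adjoin K2 (Set.range c.x) with hE
  have hKE : ∀ z ∈ Kxy c.C c.x c.y, z ∈ E := by
    have h1 : Kxy c.C c.x c.y ≤ E.restrictScalars c.C := by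
      refine Kxy_le c.x c.y (fun i => ?_) ?_
      · exact IntermediateField.subset_adjoin K2 (Set.range c.x) (Set.mem_range_self i)
      · exact E.algebraMap_mem (⟨c.y, y_mem_Kxy x'' c.y⟩ : K2)
    exact fun z hz => h1 hz
  have hEsep : Algebra.IsSeparable K2 E := by
    rw [hE, IntermediateField.isSeparable_adjoin_iff_isSeparable]
    rintro _ ⟨i, rfl⟩
    exact hsepx i
  have hsep : ∀ z ∈ S, IsSeparable K2 z := by
    intro z hz
    have h1 := hc.sep z hz
    let _ : Algebra (Kxy c.C c.x c.y) E :=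
      RingHom.toAlgebra
        { toFun := fun z => ⟨z.1, hKE z.1 z.2⟩
          map_one' := rfl
          map_mul' := fun _ _ => rfl
          map_zero' := rfl
          map_add' := fun _ _ => rfl }
    have : IsScalarTower (Kxy c.C c.x c.y) E W := IsScalarTower.of_algebraMap_eq fun _ => rfl
    have h2 : IsSeparable E z := IsSeparable.tower_top E h1
    exact IsSeparable.of_algebra_isSeparable_of_isSeparable K2 h2
  have halgx : ∀ i, IsAlgebraic K2 (c.x i) := fun i => (hsepx i).isIntegral.isAlgebraic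
  have hPar : Par c.C x'' c.y := by
    refine ⟨hind'', hok.par.y1, ?_⟩
    exact tr_of_algebraic c.x c.y hind.ne hok.par.tr x'' c.y hind''.ne halgx
      (isAlgebraic_algebraMap (⟨c.y, y_mem_Kxy x'' c.y⟩ : K2))
  refine ⟨⟨c.C, x'', c.y⟩, ⟨⟨hok.cst, hPar, fun z hz => ⟨(hok.CM hz).1, hC hz⟩,
    fun i => ⟨hx''S i, hx''L i⟩, ⟨hok.yM.1, hy⟩⟩, ?_, hsep⟩⟩
  -- density
  intro z hz
  rw [mem_cl_iff]
  intro ε hε
  obtain ⟨P, hP, hzP⟩ := (mem_cl_iff _ z).1 (hc.dense z (hLL' hz)) ε hε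
  have hlW : (l : W) ≠ 0 := by
    have h1 : (l : W) = algebraMap k W (l : k) := (map_natCast _ _).symm
    rw [h1]
    exact fun h2 => hlk ((map_eq_zero_iff _ (algebraMap k W).injective).1 h2)
  have hlW1 : ‖(l : W)‖ = 1 := by
    have h1 : (l : W) = algebraMap k W (l : k) := (map_natCast _ _).symm
    rw [h1]
    exact hu _ hlk
  -- the average
  obtain ⟨T, hT⟩ : ∃ T : W → W, ∀ u, T u = (l : W)⁻¹ * ∑ j ∈ Finset.range l, act.f (s ^ j) u :=
    ⟨_, fun _ => rfl⟩
  have hTadd : ∀ u v, T (u + v) = T u + T v := by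
    intro u v
    rw [hT, hT, hT, ← mul_add, ← Finset.sum_add_distrib]
    simp only [map_add]
  have hT0 : T 0 = 0 := by
    rw [hT]
    simp
  have hTsum : ∀ (s' : Finset (Fin r → ℤ)) (g : (Fin r → ℤ) → W),
      T (∑ a ∈ s', g a) = ∑ a ∈ s', T (g a) := by
    intro s' g
    induction s' using Finset.induction_on with
    | empty => rw [Finset.sum_empty, Finset.sum_empty, hT0]
    | insert a s' ha ih => rw [Finset.sum_insert ha, Finset.sum_insert ha, hTadd, ih]
  have hTlin : ∀ q ∈ L, ∀ u, T (q * u) = q * T u := by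
    intro q hq u
    have h1 : ∀ j : ℕ, act.f (s ^ j) (q * u) = q * act.f (s ^ j) u := fun j => by
      rw [map_mul, hfixL _ q hq]
    rw [hT, hT, Finset.sum_congr rfl fun j _ => h1 j, ← Finset.mul_sum]
    ring
  have hTfix : ∀ u ∈ L, T u = u := by
    intro u hu
    rw [hT, Finset.sum_congr rfl fun j _ => hfixL (s ^ j) u hu, Finset.sum_const,
      Finset.card_range, nsmul_eq_mul, ← mul_assoc, inv_mul_cancel₀ hlW, one_mul]
  have hTnorm : ∀ u, ‖T u‖ ≤ ‖u‖ := by
    intro u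
    rw [hT, norm_mul, norm_inv, hlW1, inv_one, one_mul]
    refine IsUltrametricDist.norm_sum_le_of_forall_le_of_nonneg (norm_nonneg _) fun j _ => ?_
    exact (act.iso _ _).le
  have hTmon : ∀ a, T (Abh.mon c.x a) ∈ K2 := by
    intro a
    by_cases ha : (l : ℤ) ∣ ∑ j, a j * (n j : ℤ)
    · rw [hTfix _ (hinv a ha)]
      exact hinvK2 a ha
    · have h1 : T (Abh.mon c.x a) = 0 := by
        have h2 : ξ ^ (∑ j, a j * (n j : ℤ)) ≠ 1 := fun h3 =>
          ha ((hξ.zpow_eq_one_iff_dvd _).1 h3)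
        rw [hT, Finset.sum_congr rfl fun j _ => heigj j a, ← Finset.sum_mul, geom_sum_eq h2,
          ← zpow_natCast, ← zpow_mul, mul_comm _ (l : ℤ), zpow_mul, zpow_natCast, hξ.pow_eq_one,
          one_zpow, sub_self, zero_div, zero_mul, mul_zero]
      rw [h1]
      exact zero_mem _
  have hTP : T P ∈ K2 := by
    have h1 : P ∈ E := hKE P hP
    have h2 : P ∈ Algebra.adjoin K2 (Set.range c.x) := by
      rw [← IntermediateField.adjoin_toSubalgebra_of_isAlgebraic (by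
        rintro _ ⟨i, rfl⟩
        exact halgx i)]
      exact h1
    obtain ⟨f, hf⟩ := KumCh_rep c.x hind.ne h2
    rw [hf]
    unfold Finsupp.sum
    rw [hTsum]
    refine sum_mem fun a _ => ?_
    show T (((f a : K2) : W) * Abh.mon c.x a) ∈ K2
    rw [hTlin _ (hK2L _ (f a).2)]
    exact mul_mem (f a).2 (hTmon a)
  refine ⟨T P, hTP, ?_⟩
  have h1 : z - T P = T (z - P) := by
    have h2 : T (z - P) + T P = T z := by rw [← hTadd, sub_add_cancel]
    rw [hTfix z hz] at h2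
    exact (eq_sub_of_add_eq h2).symm
  rw [h1]
  exact lt_of_le_of_lt (hTnorm _) hzP

end Pool.Agent.Lib.TU
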