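import Pool.Agent.Lib.TU.StEx
import Pool.Agent.Lib.TU.StabD

/-!
# Module StgK: one stage makes `y` invariant (paper section 11)

`exists_st` for `c` with `X = ∅`: `c', e, B, w, g, T`.  `w = y^e x^(-B)`: `s(w) = ξ^n w` for some `n`
(integer exponents modulo `l`), `‖s(w) - w‖ < 1 = ‖w‖` so `‖ξ^n - 1‖ < 1`, `ξ^n = 1` (powers of `ξ` different from
`1` have distance one to `1`: `∏_(j=1)^(l-1) (1 - ξ^j) = l`, `‖l‖ = 1`).  So `s(w) = w`, `w ∈ L`
(`act.fix`, `hgen`).  `c'.y = g(w) ∈ L` since `c.C ≤ L`.  `c'.C ⊆ cl (c.C(w)) ⊆ L` (`St.Cle`, `L` complete).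
`c'.x i` is a monomial in `x, y` (`St.hm` for `T.symm (e_i, 0)`) so an eigenvector of `s`.
-/

namespace Pool.Agent.Lib.TU

open Pool.Agent.Lib.MP_3029eb_ag Pool.Agent.Lib.MP_3029eb_ag.Abh Pool.Agent.Lib.TDO

private lemma StgK_mon_map {k W : Type} [Field k] [Field W] [Algebra k W] {r : ℕ}
    (τ : W →ₐ[k] W) (x : Fin r → W) (a : Fin r → ℤ) :
    τ (Abh.mon x a) = Abh.mon (fun i => τ (x i)) a := by
  unfold MP_3029eb_ag.Abh.mon
  rw [map_prod]
  exact Finset.prod_congr rfl fun i _ => map_zpow₀ τ _ _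

/-- The image of a monomial. -/
private lemma StgK_eig {k W : Type} [Field k] [Field W] [Algebra k W] {r : ℕ}
    (τ : W →ₐ[k] W) (x : Fin r → W) (ξ : W) (hξ0 : ξ ≠ 0) (n : Fin r → ℕ)
    (h : ∀ i, τ (x i) = ξ ^ n i * x i) (a : Fin r → ℤ) :
    τ (Abh.mon x a) = ξ ^ (∑ j, a j * (n j : ℤ)) * Abh.mon x a := by
  rw [StgK_mon_map]
  unfold MP_3029eb_ag.Abh.mon
  have h1 : ∀ s : Finset (Fin r), ∏ i ∈ s, (τ (x i)) ^ a i =
      ξ ^ (∑ j ∈ s, a j * (n j : ℤ)) * ∏ i ∈ s, x i ^ a i := by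
    classical
    intro s
    induction s using Finset.induction_on with
    | empty => simp
    | insert i s hi ih =>
      rw [Finset.prod_insert hi, Finset.prod_insert hi, Finset.sum_insert hi, ih,
        zpow_add₀ hξ0, h i, mul_zpow, ← zpow_natCast ξ (n i), ← zpow_mul,
        mul_comm (n i : ℤ) (a i)]
      ring
  exact h1 Finset.univ

private lemma StgK_nat {W : Type} [Field W] {ξ : W} {l : ℕ} (hl : 0 < l)
    (hξ : IsPrimitiveRoot ξ l) (N : ℤ) : ∃ n < l, ξ ^ N = ξ ^ n := by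
  have hξ0 : ξ ≠ 0 := hξ.ne_zero hl.ne'
  have hl' : (0 : ℤ) < l := by exact_mod_cast hl
  have h0 : 0 ≤ N % l := Int.emod_nonneg _ hl'.ne'
  have h1 : N % l < l := Int.emod_lt_of_pos _ hl'
  refine ⟨(N % l).toNat, by omega, ?_⟩
  have h2 : N = (l : ℤ) * (N / l) + N % l := (Int.mul_ediv_add_emod N l).symm
  conv_lhs => rw [h2]
  rw [zpow_add₀ hξ0, zpow_mul, zpow_natCast, hξ.pow_eq_one, one_zpow, one_mul, ← zpow_natCast,
    Int.toNat_of_nonneg h0]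

/-- Powers of `ξ` which are close to one are one. -/
private lemma StgK_one {k W : Type} [Field k] [NormedField W] [IsUltrametricDist W]
    [Algebra k W] (hu : ∀ c : k, c ≠ 0 → ‖algebraMap k W c‖ = 1) {l : ℕ} (hl : l.Prime)
    (hlk : (l : k) ≠ 0) {ξ : W} (hξ : IsPrimitiveRoot ξ l) (N : ℤ) (h : ‖ξ ^ N - 1‖ < 1) :
    ξ ^ N = 1 := by
  obtain ⟨n, hn, hN⟩ := StgK_nat hl.pos hξ N
  rw [hN] at h ⊢
  rcases Nat.eq_zero_or_pos n with h0 | h0
  · rw [h0, pow_zero]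
  exfalso
  have hξn : ‖ξ‖ = 1 := by
    have h1 : ‖ξ‖ ^ l = 1 := by rw [← norm_pow, hξ.pow_eq_one, norm_one]
    exact (pow_eq_one_iff_of_nonneg (norm_nonneg _) hl.ne_zero).1 h1
  obtain ⟨l', rfl⟩ : ∃ l', l = l' + 1 := ⟨l - 1, by have := hl.pos; omega⟩
  have hprod := hξ.prod_one_sub_pow_eq_order
  have hle : ∀ j, ‖1 - ξ ^ (j + 1)‖ ≤ 1 := by
    intro j
    rw [sub_eq_add_neg]
    refine (IsUltrametricDist.norm_add_le_max _ _).trans (max_le norm_one.le ?_)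
    rw [norm_neg, norm_pow, hξn, one_pow]
  have hnl : ‖((l' : W) + 1)‖ = 1 := by
    have h1 := hu _ hlk
    rw [map_natCast] at h1
    rw [← h1]
    push_cast
    rfl
  rw [← hprod, norm_prod] at hnl
  have hmem : n - 1 ∈ Finset.range l' := Finset.mem_range.2 (by omega)
  rw [← Finset.mul_prod_erase _ _ hmem] at hnl
  have h2 : ∏ j ∈ (Finset.range l').erase (n - 1), ‖1 - ξ ^ (j + 1)‖ ≤ 1 :=
    Finset.prod_le_one (fun j _ => norm_nonneg _) fun j _ => hle j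
  have h3 : ‖1 - ξ ^ (n - 1 + 1)‖ < 1 := by
    rw [Nat.sub_add_cancel h0, norm_sub_rev]
    exact h
  have h4 : ‖1 - ξ ^ (n - 1 + 1)‖ * ∏ j ∈ (Finset.range l').erase (n - 1), ‖1 - ξ ^ (j + 1)‖ < 1 :=
    calc _ ≤ ‖1 - ξ ^ (n - 1 + 1)‖ * 1 := mul_le_mul_of_nonneg_left h2 (norm_nonneg _)
      _ < 1 := by rw [mul_one]; exact h3
  linarith

/-- See the header. -/
theorem kum_stage {k W : Type} [Field k] [PerfectField k] [NormedField W] [IsUltrametricDist W]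
    [Algebra k W] {r m : ℕ} (hr : 0 < r) (hA : AmbG r m k W) {Γ : Type} [Group Γ]
    {S L L' : IntermediateField k W} (hS : ∀ z : W, IsSeparable S z → z ∈ S)
    (hL : IsComplete (L : Set W)) (hL' : IsComplete (L' : Set W)) (hLL' : L ≤ L')
    {act : Act Γ S L L'} {c : Tri k W r} (hc : Ch m S L' c) (l : ℕ) (hl : l.Prime)
    (hlk : (l : k) ≠ 0) (ξ : W) (hξL : ξ ∈ L) (hξ : IsPrimitiveRoot ξ l) (s : Γ)
    (hgen : ∀ σ : Γ, ∃ n : ℕ, σ = s ^ n)
    (hres : ∀ z ∈ L', ‖z‖ ≤ 1 → ‖act.f s z - z‖ < 1) (hC : c.C ≤ L)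
    (hx : ∀ i, ∃ n : ℕ, act.f s (c.x i) = ξ ^ n * c.x i)
    (hy : ∃ n : ℕ, act.f s c.y = ξ ^ n * c.y) :
    ∃ c' : Tri k W r, Ch m S L' c' ∧ c'.C ≤ L ∧ c'.y ∈ L ∧
      ∀ i, ∃ n : ℕ, act.f s (c'.x i) = ξ ^ n * c'.x i := by
  classical
  obtain ⟨c', e, B, w, g, T, hst, -, -, -⟩ := exists_st hr hA S L' hS hL' hc ∅ (by simp)
  choose nx hnx using hx
  obtain ⟨ny, hny⟩ := hy
  have hξ0 : ξ ≠ 0 := hξ.ne_zero hl.ne_zero
  have hok := hc.ok
  have hxne := hok.par.ind.ne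
  have hxL : ∀ i, c.x i ∈ L' := fun i => (hok.xM i).2
  have hyL : c.y ∈ L' := hok.yM.2
  have hy0 : c.y ≠ 0 := hok.y_ne
  have hmonL' : ∀ a, Abh.mon c.x a ∈ L' := fun a => mon_mem c.x hxL a
  have hfixL : ∀ (σ : Γ) (z : W), z ∈ L → act.f σ z = z := fun σ z hz =>
    (act.fix z (hLL' hz)).2 hz σ
  -- fixed by `s` implies in `L`
  have hfix : ∀ z ∈ L', act.f s z = z → z ∈ L := by
    intro z hz hsz
    refine (act.fix z hz).1 fun σ => ?_
    obtain ⟨j, rfl⟩ := hgen σ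
    induction j with
    | zero => rw [pow_zero]; exact act.one _ hz
    | succ j ih => rw [pow_succ, act.mul _ _ _ hz, hsz, ih]
  -- `w`
  have hwv : w = c.y ^ e * (Abh.mon c.x B)⁻¹ := by
    rw [hst.hw, mul_comm (Abh.mon c.x B) w, mul_assoc, mul_inv_cancel₀ (mon_ne _ hxne _), mul_one]
  have hwL' : w ∈ L' := by
    rw [hwv]
    exact mul_mem (pow_mem hyL _) (inv_mem (hmonL' B))
  have hsw : act.f s w = ξ ^ ((ny : ℤ) * e - ∑ j, B j * (nx j : ℤ)) * w := by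
    rw [hwv, map_mul, map_pow, map_inv₀, hny, StgK_eig (act.f s) c.x ξ hξ0 nx hnx,
      zpow_sub₀ hξ0, zpow_mul, zpow_natCast, zpow_natCast, mul_pow]
    field_simp
  have hw1 : ‖w‖ = 1 := hst.w1
  have hone : ξ ^ ((ny : ℤ) * e - ∑ j, B j * (nx j : ℤ)) = 1 := by
    refine StgK_one hA.unit hl hlk hξ _ ?_
    have h1 := hres w hwL' hw1.le
    rw [hsw] at h1
    have h2 : ξ ^ ((ny : ℤ) * e - ∑ j, B j * (nx j : ℤ)) * w - w =
        (ξ ^ ((ny : ℤ) * e - ∑ j, B j * (nx j : ℤ)) - 1) * w := by ring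
    rw [h2, norm_mul, hw1, mul_one] at h1
    exact h1
  have hwL : w ∈ L := hfix w hwL' (by rw [hsw, hone, one_mul])
  have hCwL : ∀ z ∈ Cw c.C w, z ∈ L := by
    have h1 : Cw c.C w ≤ IntermediateField.extendScalars hC := by
      unfold Cw
      rw [IntermediateField.adjoin_le_iff]
      rintro z hz
      rw [Set.mem_singleton_iff.1 hz]
      exact hwL
    exact fun z hz => h1 hz
  have hCL : c'.C ≤ L := by
    intro z hz
    have h1 := (mem_cl_iff _ z).1 (hst.Cle z hz)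
    have h2 : z ∈ closure (L : Set W) := by
      rw [Metric.mem_closure_iff]
      intro ε hε
      obtain ⟨u, hu, hzu⟩ := h1 ε hε
      exact ⟨u, hCwL u hu, by rwa [dist_eq_norm]⟩
    rwa [hL.isClosed.closure_eq] at h2
  refine ⟨c', hst.ch', hCL, ?_, ?_⟩
  · rw [hst.hy, Polynomial.aeval_eq_sum_range]
    refine sum_mem fun i _ => ?_
    rw [Algebra.smul_def]
    exact mul_mem (hC (g.coeff i).2) (pow_mem hwL _)
  · intro i
    have h1 := hst.hm (T.symm (Pi.single i 1, 0)).1 (T.symm (Pi.single i 1, 0)).2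
    rw [Prod.mk.eta, T.apply_symm_apply, zpow_zero, mul_one] at h1
    have h2 : Abh.mon c'.x (Pi.single i 1) = c'.x i := mon_single c'.x i
    have h3 : c'.x i = Abh.mon c.x (T.symm (Pi.single i 1, 0)).1 *
        c.y ^ (T.symm (Pi.single i 1, 0)).2 := by
      rw [← h2]
      exact h1.symm
    obtain ⟨n, -, hn⟩ := StgK_nat hl.pos hξ (∑ j, (T.symm (Pi.single i 1, 0)).1 j * (nx j : ℤ) +
      (ny : ℤ) * (T.symm (Pi.single i 1, 0)).2)
    refine ⟨n, ?_⟩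
    rw [← hn, h3, map_mul, map_zpow₀, StgK_eig (act.f s) c.x ξ hξ0 nx hnx, hny, mul_zpow,
      zpow_add₀ hξ0, ← zpow_natCast ξ ny, ← zpow_mul]
    ring

end Pool.Agent.Lib.TU
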