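import Pool.Agent.Lib.TU.ChB

/-!
# Module CstX: extension of the field of constants

`C1 := c.C ⊔ k(z)`, a field of constants (`Cst.adjoin`); `z ∈ S` as `z` is separable over
`c.C ⊆ S`.  `⟨C1, x, y⟩` is a chart of `L1 = L ⊔ k(z)`: `Par` by `tr_algU`; density: `L1` is
`L[z]` (`z` algebraic over `L`), elements `∑ l_i z^i` with `l_i ∈ L` approximated by elements of
`C(x, y)`; separability: over a larger field.
-/

namespace Pool.Agent.Lib.TU

open Pool.Agent.Lib.MP_3029eb_ag Pool.Agent.Lib.MP_3029eb_ag.Abh Pool.Agent.Lib.TDO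

private theorem cx_tower {W : Type} [Field W] {k1 k2 : Type} [Field k1] [Field k2] [Algebra k1 W]
    [Algebra k2 W] (E : IntermediateField k1 W) (F : IntermediateField k2 W)
    (h : ∀ z ∈ E, z ∈ F) {u : W} (hu : IsSeparable E u) : IsSeparable F u := by
  let f : E →+* F :=
    { toFun := fun z => ⟨z.1, h z.1 z.2⟩
      map_one' := rfl
      map_mul' := fun _ _ => rfl
      map_zero' := rfl
      map_add' := fun _ _ => rfl }
  let _ : Algebra E F := f.toAlgebra
  have : IsScalarTower E F W := IsScalarTower.of_algebraMap_eq fun _ => rfl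
  exact IsSeparable.tower_top F hu

private theorem cx_Kxy {k W : Type} [Field k] [Field W] [Algebra k W] {r : ℕ}
    {C C1 : IntermediateField k W} (h : C ≤ C1) (x : Fin r → W) (y : W) :
    ∀ z ∈ Kxy C x y, z ∈ Kxy C1 x y := by
  intro z hz
  unfold Kxy at hz ⊢
  induction hz using IntermediateField.adjoin_induction with
  | mem u hu => exact IntermediateField.subset_adjoin _ _ hu
  | algebraMap u => exact IntermediateField.algebraMap_mem _ (⟨u.1, h u.2⟩ : C1)
  | add u v _ _ hu hv => exact add_mem hu hv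
  | inv u _ hu => exact inv_mem hu
  | mul u v _ _ hu hv => exact mul_mem hu hv

/-- See the header. -/
theorem cst_ext {k W : Type} [Field k] [NormedField W] [IsUltrametricDist W]
    [Algebra k W] {r m : ℕ} (S L : IntermediateField k W)
    (hS : ∀ z : W, IsSeparable S z → z ∈ S) {c : Tri k W r} (hc : Ch m S L c) {z : W}
    (hz : IsSeparable c.C z) :
    Ch m S (L ⊔ IntermediateField.adjoin k {z})
      (⟨c.C ⊔ IntermediateField.adjoin k {z}, c.x, c.y⟩ : Tri k W r) := by
  have hok := hc.ok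
  have halg : IsAlgebraic c.C z := hz.isIntegral.isAlgebraic
  obtain ⟨hcst, hC1alg⟩ := Cst.adjoin hok.cst halg
  set C1 := c.C ⊔ IntermediateField.adjoin k {z} with hC1
  have hCC1 : c.C ≤ C1 := le_sup_left
  have hzC1 : z ∈ C1 := (le_sup_right : IntermediateField.adjoin k {z} ≤ C1)
    (IntermediateField.mem_adjoin_simple_self k z)
  set L1 := L ⊔ IntermediateField.adjoin k {z} with hL1
  have hLL1 : L ≤ L1 := le_sup_left
  have hzL1 : z ∈ L1 := (le_sup_right : IntermediateField.adjoin k {z} ≤ L1)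
    (IntermediateField.mem_adjoin_simple_self k z)
  have hCS : c.C ≤ S := hok.CM.trans inf_le_left
  have hCL : c.C ≤ L := hok.CM.trans inf_le_right
  have hzS : z ∈ S := hS z (cx_tower c.C S (fun u hu => hCS hu) hz)
  have hML : S ⊓ L ≤ S ⊓ L1 := inf_le_inf_left S hLL1
  have hKK := cx_Kxy hCC1 c.x c.y
  refine ⟨⟨hcst, ⟨hok.par.ind, hok.par.y1, ?_⟩, ?_, fun i => hML (hok.xM i), hML hok.yM⟩, ?_, ?_⟩
  · exact tr_algU c.C C1 hCC1 hC1alg c.x c.y hok.par.ind.ne hok.par.tr
  · refine sup_le (hok.CM.trans hML) ?_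
    rw [IntermediateField.adjoin_le_iff, Set.singleton_subset_iff]
    exact ⟨hzS, hzL1⟩
  · have h1 : L1 ≤ (cl (Kxy C1 c.x c.y)).restrictScalars k := by
      refine sup_le ?_ ?_
      · intro u hu
        have h2 := hc.dense u hu
        rw [mem_cl_iff] at h2
        show u ∈ cl (Kxy C1 c.x c.y)
        rw [mem_cl_iff]
        intro ε hε
        obtain ⟨v, hv, hv2⟩ := h2 ε hε
        exact ⟨v, hKK v hv, hv2⟩
      · rw [IntermediateField.adjoin_le_iff, Set.singleton_subset_iff]
        exact (cl (Kxy C1 c.x c.y)).algebraMap_mem ⟨z, hzC1⟩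
    exact fun u hu => h1 hu
  · intro u hu
    exact cx_tower _ _ hKK (hc.sep u hu)

end Pool.Agent.Lib.TU
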