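import Pool.Agent.Lib.TU.MAll
import Pool.Agent.Lib.TU.CstX
import Pool.Agent.Lib.TDO.Um

/-!
# Module KumU: Kummer extensions (paper section 6)

Compare `Pool/Agent/Lib/TDO/Kummer.lean` (`one_root`, `kummer_step`).  `w = 0` is trivial.  `f := w^l ∈ L`.
Choose `f' ∈ S ⊓ L`, `‖f - f'‖ < ‖f‖` (`Ch.dense_M`), and a chart for which `f'` is monomial (`m_all`):
`f' = x^b u`, `u ∈ HO`, `‖u‖ = 1`, `u` congruent to `e ∈ c.C` (`HO_dec`), `e ≠ 0`: `f = e x^b (1 + δ)`,
`δ ∈ L`, `‖δ‖ < 1`; `1 + δ = (1 + t)^l`, `t ∈ L`, `‖t‖ < 1` (Hensel, `l ≠ 0` in `k`).  `w' := w / (1 + t)`: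
`w'^l = e x^b`, `L ⊔ k(w') = L ⊔ k(w)`, `w' ∈ S`.
If `b = l b'`: `z := w' x^(-b')`, `z^l = e ∈ c.C`, `z` is separable over `c.C`, `L ⊔ k(z) = L ⊔ k(w)`:
`cst_ext`.
Otherwise `‖w'‖^l = ‖x^b‖` and `l` is minimal (`‖w'‖^e' = ‖x^B'‖` with `1 ≤ e' < l` and Bezout give
`‖w'‖ = ‖x^c‖`, `b = l c`): `exists_um` with `y := w'`, `e := l`, `B := b`: `x'`, `T`,
`x^a w'^j = x'^(T(a,j)).1 e^(T(a,j)).2` (`w'^l x^(-b) = e`).  `⟨c.C, x', y⟩` is a chart of `L ⊔ k(w')`:
`x' i` is a monomial in `x, w'` (`T.symm`) times a power of `e`, `x i` and `w'` are monomials in `x'` times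
powers of `e`, so `c.C(x', y) = c.C(x, y, w')`; `Par` by `tr_of_algebraic`/`tr_changeU`; density: as
`L ⊔ k(w') = L[w']`.
-/

namespace Pool.Agent.Lib.TU

open Pool.Agent.Lib.MP_3029eb_ag Pool.Agent.Lib.MP_3029eb_ag.Abh Pool.Agent.Lib.TDO

private theorem kumu_sep_mono {k W : Type} [Field k] [Field W] [Algebra k W]
    {E E' : IntermediateField k W} (h : E ≤ E') {z : W} (hz : IsSeparable E z) :
    IsSeparable E' z := by
  let _ := (IntermediateField.inclusion h).toRingHom.toAlgebra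
  have : IsScalarTower E E' W := IsScalarTower.of_algebraMap_eq (fun _ => rfl)
  exact hz.tower_top E'

/-- an element with `z ^ l ∈ S` is separable over `S`, `l` invertible -/
private theorem kumu_sep {k W : Type} [Field k] [Field W] [Algebra k W]
    (S : IntermediateField k W) {l : ℕ} (hl : (l : k) ≠ 0) {z : W} (hz0 : z ≠ 0)
    (hz : z ^ l ∈ S) : IsSeparable S z := by
  have hlS : (l : S) ≠ 0 := by
    intro h
    apply hl
    have h1 : algebraMap k S (l : k) = 0 := by rw [map_natCast]; exact h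
    exact (map_eq_zero _).1 h1
  have hl1 : l ≠ 0 := by
    rintro rfl
    simp at hl
  have hsep : (Polynomial.X ^ l - Polynomial.C (⟨z ^ l, hz⟩ : S)).Separable := by
    apply Polynomial.separable_X_pow_sub_C _ hlS
    intro h
    have := congrArg (fun w : S => (w : W)) h
    exact pow_ne_zero l hz0 this
  have h0 : Polynomial.aeval z (Polynomial.X ^ l - Polynomial.C (⟨z ^ l, hz⟩ : S)) = 0 := by
    rw [map_sub, map_pow, Polynomial.aeval_X, Polynomial.aeval_C]
    exact sub_self _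
  exact hsep.of_dvd (minpoly.dvd S z h0)

private theorem kumu_min {W : Type} [NormedField W] {r : ℕ} {x : Fin r → W} (hx : Indep x)
    {l : ℕ} (hl : l.Prime) {b : Fin r → ℤ} (hb : ¬ ∃ b' : Fin r → ℤ, b = l • b') {ζ : W}
    (hζ0 : ζ ≠ 0) (hζp : ‖ζ‖ ^ l = ‖mon x b‖) (e' : ℕ) (he1 : 1 ≤ e') (he2 : e' < l)
    (B' : Fin r → ℤ) : ‖ζ‖ ^ e' ≠ ‖mon x B'‖ := by
  intro hB'
  have hζpos : 0 < ‖ζ‖ := norm_pos_iff.2 hζ0
  have hcop : Nat.Coprime e' l := (Nat.coprime_of_lt_prime (by omega) he2 hl).symm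
  have hbez := Nat.gcd_eq_gcd_ab e' l
  rw [hcop.gcd_eq_one] at hbez
  set u := Nat.gcdA e' l
  set v := Nat.gcdB e' l
  have h1 : ‖ζ‖ = ‖mon x (u • B' + v • b)‖ := by
    rw [mon_add x hx.ne, mon_zsmul, mon_zsmul, norm_mul, norm_zpow, norm_zpow, ← hB', ← hζp,
      ← zpow_natCast, ← zpow_natCast, ← zpow_mul, ← zpow_mul, ← zpow_add₀ hζpos.ne']
    have : (e' : ℤ) * u + (l : ℤ) * v = 1 := by
      rw [← hbez, Nat.cast_one]
    rw [this, zpow_one]
  have h2 : ‖mon x b‖ = ‖mon x (l • (u • B' + v • b))‖ := by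
    rw [← hζp, mon_nsmul, norm_pow, ← h1]
  exact hb ⟨_, norm_mon_inj hx h2⟩

private theorem kumu_sup_eq {k W : Type} [Field k] [Field W] [Algebra k W]
    (L : IntermediateField k W) {w t : W} (ht : t ∈ L) (ht0 : t ≠ 0) :
    L ⊔ IntermediateField.adjoin k {w / t} = L ⊔ IntermediateField.adjoin k {w} := by
  apply le_antisymm
  · refine sup_le le_sup_left ?_
    rw [IntermediateField.adjoin_simple_le_iff]
    exact div_mem ((le_sup_right : _ ≤ L ⊔ IntermediateField.adjoin k {w})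
      (IntermediateField.mem_adjoin_simple_self k w))
      ((le_sup_left : L ≤ L ⊔ IntermediateField.adjoin k {w}) ht)
  · refine sup_le le_sup_left ?_
    rw [IntermediateField.adjoin_simple_le_iff]
    have h1 : w = (w / t) * t := by field_simp
    rw [h1]
    have h2 : w / t * t / t = w / t := by field_simp
    rw [h2]
    exact mul_mem ((le_sup_right : _ ≤ L ⊔ IntermediateField.adjoin k {w / t})
      (IntermediateField.mem_adjoin_simple_self k _))
      ((le_sup_left : L ≤ L ⊔ IntermediateField.adjoin k {w / t}) ht)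

/-- `l`-th roots of `1 + δ` -/
private theorem kumu_root {k W : Type} [Field k] [NormedField W] [IsUltrametricDist W]
    [Algebra k W] (L : IntermediateField k W) (hL : IsComplete (L : Set W)) {l : ℕ}
    (hln : ‖(l : W)‖ = 1) {δ : W} (hδ : δ ∈ L) (h1 : ‖δ‖ < 1) :
    ∃ t ∈ L, t ^ l = 1 + δ ∧ ‖1 - t‖ < 1 := by
  have h1δ : ‖1 + δ‖ ≤ 1 := (IsUltrametricDist.norm_add_le_max _ _).trans
    (max_le (by rw [norm_one]) h1.le)
  obtain ⟨t, ht, h0, h2⟩ := henselU L hL (Polynomial.X ^ l - Polynomial.C (1 + δ)) (by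
    intro j
    rw [Polynomial.coeff_sub, Polynomial.coeff_X_pow, Polynomial.coeff_C]
    have ha : (1 + δ) ∈ L := add_mem (one_mem L) hδ
    refine ⟨sub_mem ?_ ?_, ?_⟩
    · split_ifs
      · exact one_mem L
      · exact zero_mem L
    · split_ifs
      · exact ha
      · exact zero_mem L
    · rw [sub_eq_add_neg]
      refine (IsUltrametricDist.norm_add_le_max _ _).trans (max_le ?_ ?_)
      · split_ifs
        · rw [norm_one]
        · rw [norm_zero]; exact zero_le_one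
      · rw [norm_neg]
        split_ifs
        · exact h1δ
        · rw [norm_zero]; exact zero_le_one) (one_mem L) (by rw [norm_one]) (by
    rw [Polynomial.eval_sub, Polynomial.eval_pow, Polynomial.eval_X, Polynomial.eval_C, one_pow]
    have e : (1 : W) - (1 + δ) = -δ := by ring
    rw [e, norm_neg]; exact h1) (by
    rw [Polynomial.derivative_sub, Polynomial.derivative_X_pow, Polynomial.derivative_C, sub_zero,
      Polynomial.eval_mul, Polynomial.eval_pow, Polynomial.eval_X, one_pow, mul_one,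
      Polynomial.eval_C]
    exact hln)
  refine ⟨t, ht, ?_, h2⟩
  rw [Polynomial.eval_sub, Polynomial.eval_pow, Polynomial.eval_X, Polynomial.eval_C,
    sub_eq_zero] at h0
  exact h0

private theorem kumu_rfs {k W : Type} [Field k] [NormedField W]
    [IsUltrametricDist W] [Algebra k W] {r m : ℕ} {S L : IntermediateField k W}
    {c c' : Tri k W r} (hc : Ch m S L c) (h : RfS m S L c c') : Ch m S L c' := by
  induction h with
  | refl => exact hc
  | tail _ h _ =>
    obtain ⟨_, _, _, _, _, h⟩ := h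
    exact h.ch'

/-- See the header. -/
theorem kummer_stepU {k W : Type} [Field k] [PerfectField k] [NontriviallyNormedField W]
    [IsUltrametricDist W] [Algebra k W] {r m : ℕ} (hr : 0 < r) (hA : AmbG r m k W)
    (S L : IntermediateField k W) (hS : ∀ z : W, IsSeparable S z → z ∈ S)
    (hL : IsComplete (L : Set W)) (h : HasCh m S r L) (l : ℕ) (hl : l.Prime) (hlk : (l : k) ≠ 0)
    (w : W) (hw : w ^ l ∈ L) : HasCh m S r (L ⊔ IntermediateField.adjoin k {w}) := by
  classical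
  by_cases hw0 : w = 0
  · have h1 : L ⊔ IntermediateField.adjoin k {w} = L := by
      rw [hw0, IntermediateField.adjoin_zero, sup_bot_eq]
    rw [h1]; exact h
  obtain ⟨c₁, hC₁⟩ := h
  set u : W := w ^ l with hu
  have hu0 : u ≠ 0 := pow_ne_zero l hw0
  have hun : 0 < ‖u‖ := norm_pos_iff.2 hu0
  obtain ⟨g, hg, hgu⟩ := hC₁.dense_M hw ‖u‖ hun
  have hgn : ‖g‖ = ‖u‖ := by
    have h1 : g = u + -(u - g) := by ring
    rw [h1, IsUltrametricDist.norm_add_eq_max_of_norm_ne_norm (by rw [norm_neg]; exact hgu.ne'),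
      norm_neg]
    exact max_eq_left hgu.le
  have hg0 : g ≠ 0 := by
    intro h0
    rw [h0, norm_zero] at hgn
    linarith
  obtain ⟨c, hcR, hcM⟩ := m_all hr hA S L hS hL hC₁ {g} (fun z hz => by
    rw [Finset.mem_singleton.1 hz]; exact ⟨hg, hg0⟩)
  obtain ⟨b, v, hvO, hvn, hgb⟩ := hcM g (Finset.mem_singleton_self g)
  have hC : Ch m S L c := kumu_rfs hC₁ hcR
  have hok := hC.ok
  have hP := hok.par
  have hx : ∀ i, c.x i ≠ 0 := hP.ind.ne
  have hxS : ∀ i, c.x i ∈ S := fun i => (hok.xM i).1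
  have hxL : ∀ i, c.x i ∈ L := fun i => (hok.xM i).2
  have hmb0 : mon c.x b ≠ 0 := mon_ne c.x hx b
  have hmbn : ‖mon c.x b‖ = ‖u‖ := by
    rw [← hgn, hgb, norm_mul, hvn, mul_one]
  have hmonmem : ∀ (K : IntermediateField k W), (∀ i, c.x i ∈ K) → ∀ a, mon c.x a ∈ K :=
    fun K hK a => K.prod_mem fun j _ => zpow_mem (hK j) _
  have hmbL : mon c.x b ∈ L := hmonmem L hxL b
  -- the residue of v
  obtain ⟨e, heC, q, hq, b0, hb0, hve⟩ := HO_dec hr hok hvO
  have hven : ‖v - e‖ < 1 := by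
    have h1 : v - e = q + b0 * c.y := by rw [hve]; ring
    rw [h1]
    refine (IsUltrametricDist.norm_add_le_max _ _).trans_lt (max_lt (QH_norm hok hq) ?_)
    rw [norm_mul]
    calc ‖b0‖ * ‖c.y‖ ≤ 1 * ‖c.y‖ :=
          mul_le_mul_of_nonneg_right (HO_norm_le hok hb0) (norm_nonneg _)
      _ < 1 := by rw [one_mul]; exact hP.y1
  have he0 : e ≠ 0 := by
    rintro rfl
    rw [sub_zero, hvn] at hven
    exact lt_irrefl _ hven
  have hen : ‖e‖ = 1 := hok.cst.unit e heC he0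
  have heL : e ∈ L := (hok.CM heC).2
  have heS : e ∈ S := (hok.CM heC).1
  set mm : W := e * mon c.x b with hm
  have hm0 : mm ≠ 0 := mul_ne_zero he0 hmb0
  have hmL : mm ∈ L := mul_mem heL hmbL
  set δ : W := u / mm - 1 with hδ
  have hδL : δ ∈ L := sub_mem (div_mem hw hmL) (one_mem L)
  have hδn : ‖δ‖ < 1 := by
    have h1 : δ = ((u - g) + mon c.x b * (v - e)) / mm := by
      rw [hδ, hgb, hm]
      field_simp
      ring
    rw [h1, norm_div, hm, norm_mul, hen, one_mul, div_lt_one (norm_pos_iff.2 hmb0)]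
    refine lt_of_le_of_lt (IsUltrametricDist.norm_add_le_max _ _) (max_lt ?_ ?_)
    · rw [hmbn]; exact hgu
    · rw [norm_mul]
      calc ‖mon c.x b‖ * ‖v - e‖ < ‖mon c.x b‖ * 1 :=
            mul_lt_mul_of_pos_left hven (norm_pos_iff.2 hmb0)
        _ = ‖mon c.x b‖ := mul_one _
  have hln : ‖(l : W)‖ = 1 := by
    have := hA.unit (l : k) hlk
    rwa [map_natCast] at this
  obtain ⟨t, htL, htl, -⟩ := kumu_root L hL hln hδL hδn
  have htl' : t ^ l = u / mm := by rw [htl, hδ]; ring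
  have ht0 : t ≠ 0 := by
    intro h0
    rw [h0, zero_pow hl.ne_zero] at htl'
    exact div_ne_zero hu0 hm0 htl'.symm
  set w1 : W := w / t with hw1
  have hw1l : w1 ^ l = e * mon c.x b := by
    rw [hw1, div_pow, htl', ← hu, ← hm]
    field_simp
  have hw10 : w1 ≠ 0 := div_ne_zero hw0 ht0
  rw [← kumu_sup_eq L (w := w) htL ht0, ← hw1]
  have hw1S : w1 ∈ S := hS w1 (kumu_sep S hlk hw10 (by
    rw [hw1l]; exact mul_mem heS (hmonmem S hxS b)))
  by_cases hb : ∃ b' : Fin r → ℤ, b = l • b'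
  · obtain ⟨b', hb'⟩ := hb
    set z : W := w1 / mon c.x b' with hzdef
    have hz : z ^ l = e := by
      rw [hzdef, div_pow, hw1l, hb', mon_nsmul, mul_div_assoc,
        div_self (pow_ne_zero l (mon_ne c.x hx b')), mul_one]
    have hz0 : z ≠ 0 := div_ne_zero hw10 (mon_ne c.x hx b')
    have hzsep : IsSeparable c.C z := kumu_sep c.C hlk hz0 (by rw [hz]; exact heC)
    have h1 := cst_ext S L hS hC hzsep
    rw [hzdef, kumu_sup_eq L (w := w1) (hmonmem L hxL b') (mon_ne c.x hx b')] at h1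
    exact ⟨_, h1⟩
  · have hζp : ‖w1‖ ^ l = ‖mon c.x b‖ := by rw [← norm_pow, hw1l, norm_mul, hen, one_mul]
    obtain ⟨x', T, hx'ind, -, hT⟩ := exists_um c.x hP.ind w1 hw10 l hl.one_le b hζp
      (kumu_min hP.ind hl hb hw10 hζp)
    have hη : w1 ^ l * mon c.x (-b) = e := by
      rw [hw1l, mon_neg, mul_assoc, mul_inv_cancel₀ hmb0, mul_one]
    have hT' : ∀ (a : Fin r → ℤ) (j : ℤ), mon c.x a * w1 ^ j =
        mon x' (T (a, j)).1 * e ^ (T (a, j)).2 := by
      intro a j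
      rw [hT a j, hη]
    have hx'0 : ∀ i, x' i ≠ 0 := hx'ind.ne
    have heK : e ∈ Kxy c.C x' c.y := (Kxy c.C x' c.y).algebraMap_mem (⟨e, heC⟩ : c.C)
    have hxi : ∀ i, c.x i ∈ Kxy c.C x' c.y := by
      intro i
      have h1 := hT' (Pi.single i 1) 0
      rw [zpow_zero, mul_one, mon_single] at h1
      rw [h1]
      exact mul_mem (mon_mem_Kxy _ _ _) (zpow_mem heK _)
    have hw1K : w1 ∈ Kxy c.C x' c.y := by
      have h1 := hT' 0 1
      rw [mon_zero, one_mul, zpow_one] at h1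
      rw [h1]
      exact mul_mem (mon_mem_Kxy _ _ _) (zpow_mem heK _)
    have hx'i : ∀ i, ∃ (a : Fin r → ℤ) (j : ℤ), x' i = mon c.x a * w1 ^ j := by
      intro i
      refine ⟨(T.symm (Pi.single i 1, 0)).1, (T.symm (Pi.single i 1, 0)).2, ?_⟩
      rw [hT', Prod.mk.eta, AddEquiv.apply_symm_apply, mon_single, zpow_zero, mul_one]
    have hK : Kxy c.C c.x c.y ≤ Kxy c.C x' c.y := Kxy_le _ _ hxi (y_mem_Kxy _ _)
    set L' := L ⊔ IntermediateField.adjoin k {w1} with hL'
    have hLL' : L ≤ L' := le_sup_left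
    have hw1L' : w1 ∈ L' :=
      (le_sup_right : _ ≤ L ⊔ IntermediateField.adjoin k {w1})
        (IntermediateField.mem_adjoin_simple_self k w1)
    refine ⟨⟨c.C, x', c.y⟩, ⟨hok.cst, ⟨hx'ind, hP.y1, ?_⟩, ?_, ?_, ?_⟩, ?_, ?_⟩
    · exact tr_of_algebraic c.x c.y hx hP.tr x' c.y hx'0
        (fun i => isAlgebraic_algebraMap (⟨c.x i, hxi i⟩ : Kxy c.C x' c.y))
        (isAlgebraic_algebraMap (⟨c.y, y_mem_Kxy _ _⟩ : Kxy c.C x' c.y))
    · intro z hz
      exact ⟨(hok.CM hz).1, hLL' (hok.CM hz).2⟩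
    · intro i
      obtain ⟨a, j, h⟩ := hx'i i
      change x' i ∈ S ⊓ L'
      rw [h]
      exact ⟨mul_mem (hmonmem S hxS a) (zpow_mem hw1S j),
        mul_mem (hLL' (hmonmem L hxL a)) (zpow_mem hw1L' j)⟩
    · exact ⟨hok.yM.1, hLL' hok.yM.2⟩
    · intro z hz
      have h1 : L' ≤ (cl (Kxy c.C x' c.y)).restrictScalars k := by
        refine sup_le (fun z hz => ?_) ?_
        · exact cl_mono hK (hC.dense z hz)
        · rw [IntermediateField.adjoin_simple_le_iff]
          exact le_cl _ hw1K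
      exact h1 hz
    · intro z hz
      exact kumu_sep_mono hK (hC.sep z hz)

end Pool.Agent.Lib.TU
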