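import Pool.Agent.Lib.TU.MAll
import Pool.Agent.Lib.TU.CstX

/-!
# Module UnrU: unramified extensions (paper section 7)

`f` monic over `V_L`, `f(z) = 0`, `‖f'(z)‖ = 1`; `‖z‖ ≤ 1`.  Approximate the coefficients `a_j` of `f` (below
the leading one) by `a'_j ∈ S ⊓ L`, `‖a_j - a'_j‖ < 1`, and choose a chart `c` of `L` for which all
nonzero `a'_j` are monomial (`m_all`): `a'_j ∈ HO c`, congruent to `e_j ∈ c.C` (`HO_dec`).
`f1 := T^n + ∑ e_j T^j ∈ c.C[T]`: `‖f1(z)‖ < 1`, `‖f1'(z)‖ = 1`.  `L1 := L ⊔ k(z)` is complete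
(`TDO.isComplete_sup`), `henselU`: `z1 ∈ L1`, `f1(z1) = 0`, `‖z - z1‖ < 1`, `‖f1'(z1)‖ = 1`, so `z1` is separable
over `c.C` (`sep_of_simple`).  `L2 := L ⊔ k(z1) ≤ L1` is complete; `‖f(z1)‖ < 1`, `‖f'(z1)‖ = 1`, so `f` has a
root `z2 ∈ L2` with `‖z2 - z1‖ < 1`; `z2 = z` by `hensel_unique`.  So `L1 = L2` and `cst_ext` applies.
-/

namespace Pool.Agent.Lib.TU

open Pool.Agent.Lib.MP_3029eb_ag Pool.Agent.Lib.MP_3029eb_ag.Abh Pool.Agent.Lib.TDO

section aux

variable {W : Type} [NormedField W] [IsUltrametricDist W]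

private lemma UnrU_eval_lt (h : Polynomial W) (hh : ∀ j, ‖h.coeff j‖ < 1) {a : W} (ha : ‖a‖ ≤ 1) :
    ‖h.eval a‖ < 1 := by
  rw [Polynomial.eval_eq_sum_range]
  refine Finset.sum_induction _ (fun z => ‖z‖ < 1)
    (fun a b ha hb => lt_of_le_of_lt (IsUltrametricDist.norm_add_le_max _ _) (max_lt ha hb))
    (by rw [norm_zero]; exact one_pos) ?_
  intro i _
  rw [norm_mul, norm_pow]
  have h1 : ‖a‖ ^ i ≤ 1 := pow_le_one₀ (norm_nonneg _) ha
  calc ‖h.coeff i‖ * ‖a‖ ^ i ≤ ‖h.coeff i‖ * 1 := mul_le_mul_of_nonneg_left h1 (norm_nonneg _)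
    _ < 1 := by rw [mul_one]; exact hh i

private lemma UnrU_nat (n : ℕ) : ‖(n : W)‖ ≤ 1 := IsUltrametricDist.norm_natCast_le_one W n

private lemma UnrU_der_lt (h : Polynomial W) (hh : ∀ j, ‖h.coeff j‖ < 1) (j : ℕ) :
    ‖h.derivative.coeff j‖ < 1 := by
  rw [Polynomial.coeff_derivative, norm_mul]
  have h1 : ‖((j : W) + 1)‖ ≤ 1 := by
    have := UnrU_nat (W := W) (j + 1)
    rwa [Nat.cast_add, Nat.cast_one] at this
  calc ‖h.coeff (j + 1)‖ * ‖((j : W) + 1)‖ ≤ ‖h.coeff (j + 1)‖ * 1 :=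
        mul_le_mul_of_nonneg_left h1 (norm_nonneg _)
    _ < 1 := by rw [mul_one]; exact hh _

private lemma UnrU_der_le (h : Polynomial W) (hh : ∀ j, ‖h.coeff j‖ ≤ 1) (j : ℕ) :
    ‖h.derivative.coeff j‖ ≤ 1 := by
  rw [Polynomial.coeff_derivative, norm_mul]
  have h1 : ‖((j : W) + 1)‖ ≤ 1 := by
    have := UnrU_nat (W := W) (j + 1)
    rwa [Nat.cast_add, Nat.cast_one] at this
  exact mul_le_one₀ (hh _) (norm_nonneg _) h1

private lemma UnrU_eq_one {a b : W} (ha : ‖a‖ = 1) (hab : ‖a - b‖ < 1) : ‖b‖ = 1 := by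
  have h1 : ‖b‖ ≤ 1 := by
    have e : b = a + -(a - b) := by ring
    rw [e]
    refine (IsUltrametricDist.norm_add_le_max _ _).trans ?_
    rw [norm_neg]
    exact max_le ha.le hab.le
  by_contra hcon
  have h2 : ‖b‖ < 1 := lt_of_le_of_ne h1 hcon
  have h3 : ‖a‖ < 1 := by
    have e : a = (a - b) + b := by ring
    rw [e]
    exact lt_of_le_of_lt (IsUltrametricDist.norm_add_le_max _ _) (max_lt hab h2)
  rw [ha] at h3
  exact lt_irrefl _ h3

private lemma UnrU_le_one {a b : W} (ha : ‖a‖ ≤ 1) (hab : ‖a - b‖ < 1) : ‖b‖ ≤ 1 := by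
  have e : b = a + -(a - b) := by ring
  rw [e]
  refine (IsUltrametricDist.norm_add_le_max _ _).trans ?_
  rw [norm_neg]
  exact max_le ha hab.le

private lemma UnrU_root_le (f : Polynomial W) (hf : ∀ j, ‖f.coeff j‖ ≤ 1) (hfm : f.Monic) {z : W}
    (h0 : f.eval z = 0) : ‖z‖ ≤ 1 := by
  by_contra hcon
  push Not at hcon
  rw [Polynomial.eval_eq_sum_range, Finset.sum_range_succ, hfm.coeff_natDegree, one_mul] at h0
  have h1 : ‖z ^ f.natDegree‖ = ‖∑ i ∈ Finset.range f.natDegree, f.coeff i * z ^ i‖ := by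
    rw [← norm_neg]
    congr 1
    linear_combination -h0
  have hpos : 0 < ‖z‖ ^ f.natDegree := pow_pos (by linarith) _
  have h2 : ‖∑ i ∈ Finset.range f.natDegree, f.coeff i * z ^ i‖ < ‖z‖ ^ f.natDegree := by
    refine Finset.sum_induction _ (fun w => ‖w‖ < ‖z‖ ^ f.natDegree)
      (fun a b ha hb => lt_of_le_of_lt (IsUltrametricDist.norm_add_le_max _ _) (max_lt ha hb))
      (by rw [norm_zero]; exact hpos) ?_
    intro i hi
    rw [norm_mul, norm_pow]
    have h3 : ‖z‖ ^ i < ‖z‖ ^ f.natDegree := pow_lt_pow_right₀ hcon (Finset.mem_range.1 hi)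
    have h4 : 0 ≤ ‖z‖ ^ i := pow_nonneg (norm_nonneg _) _
    calc ‖f.coeff i‖ * ‖z‖ ^ i ≤ 1 * ‖z‖ ^ i := mul_le_mul_of_nonneg_right (hf i) h4
      _ < ‖z‖ ^ f.natDegree := by rw [one_mul]; exact h3
  rw [← h1, norm_pow] at h2
  exact lt_irrefl _ h2

end aux

private lemma UnrU_alg {k W : Type} [Field k] [Field W] [Algebra k W] (L : IntermediateField k W)
    (g : Polynomial W) (hg : g ≠ 0) (hc : ∀ j, g.coeff j ∈ L) {z : W} (h0 : g.eval z = 0) :
    IsAlgebraic L z := by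
  have h1 : g ∈ Polynomial.lifts (algebraMap L W) := by
    rw [Polynomial.lifts_iff_coeff_lifts]
    exact fun j => ⟨⟨g.coeff j, hc j⟩, rfl⟩
  obtain ⟨q, hq⟩ := (Polynomial.mem_lifts _).1 h1
  refine ⟨q, ?_, ?_⟩
  · rintro rfl
    rw [Polynomial.map_zero] at hq
    exact hg hq.symm
  · rw [Polynomial.aeval_def, ← Polynomial.eval_map, hq]
    exact h0

/-- See the header. -/
theorem unr_stepU {k W : Type} [Field k] [PerfectField k] [NontriviallyNormedField W]
    [IsUltrametricDist W] [Algebra k W] {r m : ℕ} (hr : 0 < r) (hA : AmbG r m k W)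
    (S L : IntermediateField k W) (hS : ∀ z : W, IsSeparable S z → z ∈ S)
    (hL : IsComplete (L : Set W)) (h : HasCh m S r L) (z : W) (f : Polynomial W)
    (hf : ∀ j, f.coeff j ∈ L ∧ ‖f.coeff j‖ ≤ 1) (hfm : f.Monic) (h0 : f.eval z = 0)
    (h1 : ‖f.derivative.eval z‖ = 1) : HasCh m S r (L ⊔ IntermediateField.adjoin k {z}) := by
  classical
  obtain ⟨c0, hc0⟩ := h
  have hz1 : ‖z‖ ≤ 1 := UnrU_root_le f (fun j => (hf j).2) hfm h0
  have happ : ∀ j, ∃ f' ∈ S ⊓ L, ‖f.coeff j - f'‖ < 1 := fun j => hc0.dense_M (hf j).1 1 one_pos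
  choose a' ha' haf using happ
  set n := f.natDegree with hn
  obtain ⟨c, hrf, hmo⟩ := m_all hr hA S L hS hL hc0
    ((Finset.range n).image a' |>.filter (fun w => w ≠ 0)) (by
      intro w hw
      rw [Finset.mem_filter, Finset.mem_image] at hw
      obtain ⟨⟨j, _, rfl⟩, hne⟩ := hw
      exact ⟨ha' j, hne⟩)
  have hc : Ch m S L c := by
    rcases Relation.ReflTransGen.cases_tail hrf with h2 | ⟨b, _, e, B, w, g, T, h2⟩
    · rw [h2]; exact hc0
    · exact h2.ch'
  have ha1 : ∀ j, ‖a' j‖ ≤ 1 := fun j => UnrU_le_one (hf j).2 (haf j)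
  have haHO : ∀ j, j < n → a' j ∈ HO (S ⊓ L) c := by
    intro j hj
    by_cases hz : a' j = 0
    · rw [hz]; exact zero_mem _
    · refine (hmo (a' j) ?_).mem_HO hc.ok (ha1 j)
      rw [Finset.mem_filter, Finset.mem_image]
      exact ⟨⟨j, Finset.mem_range.2 hj, rfl⟩, hz⟩
  have hex : ∀ j, ∃ e : c.C, j < n → ‖f.coeff j - (e : W)‖ < 1 := by
    intro j
    by_cases hj : j < n
    · obtain ⟨e, he, q, hq, b, hb, heq⟩ := HO_dec hr hc.ok (haHO j hj)
      refine ⟨⟨e, he⟩, fun _ => ?_⟩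
      have e1 : f.coeff j - e = (f.coeff j - a' j) + (q + b * c.y) := by
        rw [heq]; ring
      show ‖f.coeff j - e‖ < 1
      rw [e1]
      refine lt_of_le_of_lt (IsUltrametricDist.norm_add_le_max _ _) (max_lt (haf j) ?_)
      refine lt_of_le_of_lt (IsUltrametricDist.norm_add_le_max _ _)
        (max_lt (QH_norm hc.ok hq) ?_)
      rw [norm_mul]
      have h3 := HO_norm_le hc.ok hb
      have h4 := hc.ok.par.y1
      have h5 := norm_nonneg b
      have h6 := norm_nonneg c.y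
      nlinarith
    · exact ⟨0, fun h => absurd h hj⟩
  choose e he using hex
  -- the polynomial over the constants
  set f1 : Polynomial c.C := Polynomial.X ^ n + ∑ j ∈ Finset.range n, Polynomial.monomial j (e j)
    with hf1
  set f1W : Polynomial W := f1.map (algebraMap c.C W) with hf1W
  have hco : ∀ j, f1.coeff j = if j = n then 1 else if j < n then e j else 0 := by
    intro j
    rw [hf1, Polynomial.coeff_add, Polynomial.coeff_X_pow, Polynomial.finsetSum_coeff]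
    simp only [Polynomial.coeff_monomial]
    by_cases hj : j = n
    · rw [if_pos hj, if_pos hj, Finset.sum_eq_zero, add_zero]
      intro i hi
      rw [if_neg]
      have := Finset.mem_range.1 hi
      omega
    · rw [if_neg hj, if_neg hj, zero_add]
      by_cases hj2 : j < n
      · rw [if_pos hj2, Finset.sum_eq_single_of_mem j (Finset.mem_range.2 hj2)]
        · rw [if_pos rfl]
        · intro i _ hi
          rw [if_neg hi]
      · rw [if_neg hj2, Finset.sum_eq_zero]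
        intro i hi
        rw [if_neg]
        have := Finset.mem_range.1 hi
        omega
  have hd : ∀ j, ‖(f - f1W).coeff j‖ < 1 := by
    intro j
    rw [Polynomial.coeff_sub, hf1W, Polynomial.coeff_map, hco j]
    by_cases hj : j = n
    · rw [if_pos hj, hj, map_one, hn, hfm.coeff_natDegree, sub_self, norm_zero]
      exact one_pos
    · rw [if_neg hj]
      by_cases hj2 : j < n
      · rw [if_pos hj2]
        exact he j hj2
      · rw [if_neg hj2, map_zero, sub_zero, Polynomial.coeff_eq_zero_of_natDegree_lt (by omega),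
          norm_zero]
        exact one_pos
  have hCL : ∀ w ∈ c.C, w ∈ L := fun w hw => (hc.ok.CM hw).2
  have hf1L : ∀ j, f1W.coeff j ∈ L ∧ ‖f1W.coeff j‖ ≤ 1 := by
    intro j
    constructor
    · rw [hf1W, Polynomial.coeff_map]
      exact hCL _ (f1.coeff j).2
    · refine UnrU_le_one (hf j).2 ?_
      have h2 := hd j
      rwa [Polynomial.coeff_sub] at h2
  have hf1ne : f1W ≠ 0 := by
    intro h2
    have h3 : f1W.coeff n = 1 := by
      rw [hf1W, Polynomial.coeff_map, hco n, if_pos rfl, map_one]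
    rw [h2, Polynomial.coeff_zero] at h3
    exact zero_ne_one h3
  have hfz : ‖f1W.eval z‖ < 1 := by
    have h2 := UnrU_eval_lt _ hd hz1
    rw [Polynomial.eval_sub, h0, zero_sub, norm_neg] at h2
    exact h2
  have hfz' : ‖f1W.derivative.eval z‖ = 1 := by
    refine UnrU_eq_one h1 ?_
    have h2 := UnrU_eval_lt _ (UnrU_der_lt _ hd) hz1
    rwa [Polynomial.derivative_sub, Polynomial.eval_sub] at h2
  have hnt : ∃ w ∈ L, w ≠ 0 ∧ ‖w‖ < 1 := ⟨c.y, (hc.ok.yM).2, hc.ok.y_ne, hc.ok.par.y1⟩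
  have hzalg : IsAlgebraic L z := UnrU_alg L f hfm.ne_zero (fun j => (hf j).1) h0
  have hL1 := isComplete_sup hL hnt z hzalg
  have hzL1 : z ∈ L ⊔ IntermediateField.adjoin k {z} :=
    (le_sup_right : IntermediateField.adjoin k {z} ≤ _)
      (IntermediateField.mem_adjoin_simple_self k z)
  have hLL1 : L ≤ L ⊔ IntermediateField.adjoin k {z} := le_sup_left
  obtain ⟨z1, hz1L, hfz1, hzz1⟩ := henselU (L ⊔ IntermediateField.adjoin k {z}) hL1 f1W
    (fun j => ⟨hLL1 (hf1L j).1, (hf1L j).2⟩) hzL1 hz1 hfz hfz'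
  have hz1n : ‖z1‖ ≤ 1 := UnrU_le_one hz1 hzz1
  have hfz1' : ‖f1W.derivative.eval z1‖ = 1 := by
    refine UnrU_eq_one hfz' ?_
    exact lt_of_le_of_lt (norm_eval_sub_le _ (UnrU_der_le _ (fun j => (hf1L j).2)) hz1 hz1n) hzz1
  have hsep : IsSeparable c.C z1 := by
    refine sep_of_simple f1 ?_ ?_
    · rw [Polynomial.aeval_def, ← Polynomial.eval_map]
      exact hfz1
    · rw [Polynomial.aeval_def, ← Polynomial.eval_map, ← Polynomial.derivative_map]
      intro h2
      rw [hf1W, h2, norm_zero] at hfz1'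
      exact zero_ne_one hfz1'
  have hz1alg : IsAlgebraic L z1 := UnrU_alg L f1W hf1ne (fun j => (hf1L j).1) hfz1
  have hL2 := isComplete_sup hL hnt z1 hz1alg
  have hz1L2 : z1 ∈ L ⊔ IntermediateField.adjoin k {z1} :=
    (le_sup_right : IntermediateField.adjoin k {z1} ≤ _)
      (IntermediateField.mem_adjoin_simple_self k z1)
  have hLL2 : L ≤ L ⊔ IntermediateField.adjoin k {z1} := le_sup_left
  have hff1 : ‖f.eval z1‖ < 1 := by
    have h2 := norm_eval_sub_le f (fun j => (hf j).2) hz1 hz1n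
    rw [h0, zero_sub, norm_neg] at h2
    exact lt_of_le_of_lt h2 hzz1
  have hff1' : ‖f.derivative.eval z1‖ = 1 := by
    refine UnrU_eq_one h1 ?_
    exact lt_of_le_of_lt (norm_eval_sub_le _ (UnrU_der_le _ (fun j => (hf j).2)) hz1 hz1n) hzz1
  obtain ⟨z2, hz2L, hfz2, hz12⟩ := henselU (L ⊔ IntermediateField.adjoin k {z1}) hL2 f
    (fun j => ⟨hLL2 (hf j).1, (hf j).2⟩) hz1L2 hz1n hff1 hff1'
  have hz2 : z = z2 := by
    refine hensel_unique f (fun j => (hf j).2) hz1 h0 hfz2 ?_ h1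
    have e1 : z - z2 = (z - z1) + (z1 - z2) := by ring
    rw [e1]
    exact lt_of_le_of_lt (IsUltrametricDist.norm_add_le_max _ _) (max_lt hzz1 hz12)
  have hEq : L ⊔ IntermediateField.adjoin k {z} = L ⊔ IntermediateField.adjoin k {z1} := by
    refine le_antisymm (sup_le hLL2 ?_) (sup_le hLL1 ?_)
    · rw [IntermediateField.adjoin_simple_le_iff, hz2]
      exact hz2L
    · rw [IntermediateField.adjoin_simple_le_iff]
      exact hz1L
  rw [hEq]
  exact ⟨_, cst_ext S L hS hc hsep⟩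

end Pool.Agent.Lib.TU
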