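import Pool.Agent.Lib.TU.ASStepU
import Pool.Agent.Lib.TU.KumU
import Pool.Agent.Lib.TU.UnrU
import Pool.Agent.Lib.TU.Inert
import Pool.Agent.Lib.TU.InPrim
import Pool.Agent.Lib.TU.KChainU
import Pool.Agent.Lib.TDO.AChain
import Pool.Agent.Lib.TDO.Iso
import Pool.Agent.Lib.TDO.Tower
import Pool.Agent.Lib.TDO.Cl

/-!
# Module TowerU: finite separable extensions (paper section 8)

Follow `Pool/Agent/Lib/TDO/Tower.lean` (`TDO.tower`; its private lemmas on intermediate fields of `N / L`
as intermediate fields of `W / k` can be copied).  `L' = L ⊔ k(G)`.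
`N0` = normal closure in `W` of `L'` over `L`, finite Galois with group `G0`; let `n` be the largest
divisor of `card G0` prime to `p`, `N := N0(ζ)` with `ζ` a primitive `n`-th root of unity: finite Galois
over `L`, group `Γ`; `L` acts by isometries (`isometry_of_complete`).
`exists_inertia`: `P ≤ I`; `exists_inertia_gen`: `z ∈ N`.
Roots of unity: elements of `I` fix all roots of unity of order prime to `p` (two different ones have
distance `1`: `1 - ξ` divides `n` for `ξ ≠ 1`, `ξ^n = 1`, and `‖n‖ = 1`); so `I` acts faithfully on `N0`, the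
restriction `I → G0` is injective, `card I ∣ card G0`, and for every prime `l ∣ card I`, `l ≠ p`, there is
a primitive `l`-th root of unity in `N`, fixed by `I`.
(a) `fixedField I = L(z)`: the fixing group of `L(z)` is `{g | g z = z} = I`.  `z` is a root of
`f = ∏_(z' conjugate) (T - z')`, with coefficients in `L` of norm `≤ 1`, `‖f'(z)‖ = 1`
(`‖g z - z‖ = 1` for `g ∉ I`; the conjugates `≠ z` are `g z`, `g ∉ I`).  `unr_stepU`: `fixedField I` has a
chart.
(b) `kstep_chainU` (`H = P`, `G' = I`), `kummer_stepU`: `fixedField P` has a chart.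
(c) `U = fixingSubgroup L'`; `astep_chain` (`H = P ⊓ U`, `G' = P`), `as_stepU`: `fixedField (P ⊓ U)` has a
chart: `TTower.base`.
(d) `kstep_chainU` with `H = P ⊓ U`, `G' = I ⊓ U`: chain of Kummer steps from `fixedField (I ⊓ U)` to
`fixedField (P ⊓ U)` (index prime to `p`: it divides that of `P` in `I`; commutators of `I ⊓ U` are in
`P ⊓ U`; `card (I ⊓ U) ∣ card I`): `TTower` for `fixedField (I ⊓ U)`.
(e) `fixedField (I ⊓ U)` is Galois over `fixedField U = L'` (`I` is normal): `UStep` with `ζ := z`
(`z` is fixed by `I`; an element of the Galois group `≠ 1` is induced by `g ∈ U`, `g ∉ I`, so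
`‖g z - z‖ = 1`).  `TTower.ustep`.
All fields are complete by `TDO.isComplete_sup_finset`.
-/

namespace Pool.Agent.Lib.TU

open Pool.Agent.Lib.MP_3029eb_ag Pool.Agent.Lib.MP_3029eb_ag.Abh Pool.Agent.Lib.TDO

/-- An intermediate field of `N / L` as an intermediate field of `W / k`. -/
private noncomputable def TowU {k W : Type} [Field k] [Field W] [Algebra k W]
    {L : IntermediateField k W} (N : IntermediateField L W) (E : IntermediateField L N) :
    IntermediateField k W :=
  (IntermediateField.lift E).restrictScalars k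

private theorem towU_mem {k W : Type} [Field k] [Field W] [Algebra k W]
    {L : IntermediateField k W} {N : IntermediateField L W} {E : IntermediateField L N} {z : W} :
    z ∈ TowU N E ↔ ∃ w ∈ E, (w : W) = z := by
  constructor
  · intro h
    have h1 : z ∈ IntermediateField.lift E := h
    exact h1
  · intro h
    have h1 : z ∈ IntermediateField.lift E := h
    exact h1

private theorem towU_bot {k W : Type} [Field k] [Field W] [Algebra k W]
    {L : IntermediateField k W} (N : IntermediateField L W) : TowU N ⊥ = L := by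
  ext z
  rw [towU_mem]
  constructor
  · rintro ⟨w, hw, rfl⟩
    obtain ⟨a, rfl⟩ := IntermediateField.mem_bot.mp hw
    exact a.2
  · intro hz
    exact ⟨algebraMap L N ⟨z, hz⟩, IntermediateField.mem_bot.mpr ⟨_, rfl⟩, rfl⟩

private theorem towU_le {k W : Type} [Field k] [Field W] [Algebra k W]
    {L : IntermediateField k W} (N : IntermediateField L W) (E : IntermediateField L N) :
    L ≤ TowU N E := by
  intro z hz
  exact towU_mem.mpr ⟨algebraMap L N ⟨z, hz⟩, E.algebraMap_mem _, rfl⟩

private theorem towU_sup {k W : Type} [Field k] [Field W] [Algebra k W]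
    {L : IntermediateField k W} (N : IntermediateField L W) (E : IntermediateField L N)
    (S : Set N) : TowU N (E ⊔ IntermediateField.adjoin L S) =
      TowU N E ⊔ IntermediateField.adjoin k ((fun w : N => (w : W)) '' S) := by
  apply le_antisymm
  · intro z hz
    obtain ⟨v, hv, rfl⟩ := towU_mem.mp hz
    have hLM : L ≤ TowU N E ⊔ IntermediateField.adjoin k ((fun w : N => (w : W)) '' S) :=
      (towU_le N E).trans le_sup_left
    have h1 : E ⊔ IntermediateField.adjoin L S ≤
        (IntermediateField.extendScalars hLM).comap N.val := by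
      refine sup_le ?_ ?_
      · intro w hw
        have h2 : (w : W) ∈ TowU N E ⊔
            IntermediateField.adjoin k ((fun w : N => (w : W)) '' S) :=
          (le_sup_left (a := TowU N E)) (towU_mem.mpr ⟨w, hw, rfl⟩)
        exact h2
      · rw [IntermediateField.adjoin_le_iff]
        intro w hw
        have h2 : (w : W) ∈ TowU N E ⊔
            IntermediateField.adjoin k ((fun w : N => (w : W)) '' S) :=
          (le_sup_right (a := TowU N E)) (IntermediateField.subset_adjoin k _ ⟨w, hw, rfl⟩)
        exact h2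
    exact h1 hv
  · refine sup_le ?_ ?_
    · intro z hz
      obtain ⟨v, hv, rfl⟩ := towU_mem.mp hz
      exact towU_mem.mpr ⟨v, (le_sup_left (a := E)) hv, rfl⟩
    · rw [IntermediateField.adjoin_le_iff]
      rintro _ ⟨w, hw, rfl⟩
      exact towU_mem.mpr ⟨w, (le_sup_right (a := E))
        (IntermediateField.subset_adjoin L S hw), rfl⟩

private theorem towU_cast {k W : Type} [Field k] [NormedField W] [Algebra k W]
    (hunit : ∀ c : k, c ≠ 0 → ‖algebraMap k W c‖ = 1) (p : ℕ) [Fact p.Prime] [CharP k p]
    {n : ℕ} (hn : ¬ p ∣ n) : ‖(n : W)‖ = 1 := by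
  have h1 : (n : k) ≠ 0 := fun h0 => hn ((CharP.cast_eq_zero_iff k p n).1 h0)
  rw [← map_natCast (algebraMap k W)]
  exact hunit _ h1

/-- roots of unity near one are one -/
private theorem towU_root {W : Type} [NormedField W] [IsUltrametricDist W] {n : ℕ}
    (hn : ‖(n : W)‖ = 1) {η : W} (h1 : η ^ n = 1) (h2 : ‖η - 1‖ < 1) : η = 1 := by
  by_contra hne
  have h3 : ∑ i ∈ Finset.range n, η ^ i = 0 := by
    have h := mul_geom_sum η n
    rw [h1, sub_self] at h
    exact (mul_eq_zero.1 h).resolve_left (sub_ne_zero.2 hne)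
  have hη : ‖η‖ ≤ 1 := by
    have h : η = (η - 1) + 1 := by ring
    rw [h]
    exact (IsUltrametricDist.norm_add_le_max _ _).trans (max_le h2.le (by rw [norm_one]))
  have h4 : ∀ i : ℕ, ‖η ^ i - 1‖ < 1 := by
    intro i
    induction i with
    | zero => simp
    | succ i ih =>
      have h : η ^ (i + 1) - 1 = η ^ i * (η - 1) + (η ^ i - 1) := by ring
      rw [h]
      refine (IsUltrametricDist.norm_add_le_max _ _).trans_lt (max_lt ?_ ih)
      rw [norm_mul, norm_pow]
      exact (mul_le_of_le_one_left (norm_nonneg _) (pow_le_one₀ (norm_nonneg _) hη)).trans_lt h2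
  have h5 : (n : W) = -∑ i ∈ Finset.range n, (η ^ i - 1) := by
    rw [Finset.sum_sub_distrib, h3]
    simp
  have h6 : ‖∑ i ∈ Finset.range n, (η ^ i - 1)‖ < 1 := by
    refine Finset.sum_induction _ (fun y : W => ‖y‖ < 1) ?_ ?_ (fun i _ => h4 i)
    · intro a c ha hc
      exact (IsUltrametricDist.norm_add_le_max a c).trans_lt (max_lt ha hc)
    · simp
  rw [h5, norm_neg] at hn
  exact absurd hn (ne_of_lt h6)

/-- coefficients of a product of linear factors -/
private theorem towU_coeff {W : Type} [NormedField W] [IsUltrametricDist W] (s : Multiset W)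
    (hs : ∀ c ∈ s, ‖c‖ ≤ 1) : ∀ i : ℕ,
    ‖((s.map fun c => (Polynomial.X - Polynomial.C c)).prod).coeff i‖ ≤ 1 := by
  induction s using Multiset.induction with
  | empty =>
    intro i
    rw [Multiset.map_zero, Multiset.prod_zero, Polynomial.coeff_one]
    split_ifs <;> simp
  | cons c s ih =>
    have ih' := ih (fun c hc => hs c (Multiset.mem_cons_of_mem hc))
    have hc := hs c (Multiset.mem_cons_self c s)
    intro i
    rw [Multiset.map_cons, Multiset.prod_cons, sub_mul, Polynomial.coeff_sub,
      Polynomial.coeff_C_mul, sub_eq_add_neg]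
    refine (IsUltrametricDist.norm_add_le_max _ _).trans (max_le ?_ ?_)
    · rcases i with _ | i
      · simp
      · rw [Polynomial.coeff_X_mul]
        exact ih' i
    · rw [norm_neg, norm_mul]
      exact mul_le_one₀ hc (norm_nonneg _) (ih' i)

/-- the roots in `W` of the minimal polynomial of an element of a Galois extension -/
private theorem towU_conj {A W : Type} [Field A] [Field W] [Algebra A W]
    (N : IntermediateField A W) [FiniteDimensional A N] [IsGalois A N] (z : N) {y : W}
    (hy : Polynomial.aeval y (minpoly A z) = 0) : ∃ σ : N ≃ₐ[A] N, ((σ z : N) : W) = y := by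
  have hspl : ((minpoly A z).map (algebraMap A N)).Splits := Normal.splits inferInstance z
  have hm : ((minpoly A z).map (algebraMap A N)).Monic :=
    (minpoly.monic (Algebra.IsIntegral.isIntegral z)).map _
  have h1 : (((minpoly A z).map (algebraMap A N)).map (algebraMap N W)).eval y = 0 := by
    rw [Polynomial.map_map, ← IsScalarTower.algebraMap_eq A N W, Polynomial.eval_map,
      ← Polynomial.aeval_def]
    exact hy
  rw [hspl.eq_prod_roots_of_monic hm, Polynomial.map_multiset_prod, Multiset.map_map,
    Polynomial.eval_multiset_prod, Multiset.map_map, Multiset.prod_eq_zero_iff,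
    Multiset.mem_map] at h1
  obtain ⟨a, ha, h2⟩ := h1
  simp only [Function.comp_apply, Polynomial.map_sub, Polynomial.map_X, Polynomial.map_C,
    Polynomial.eval_sub, Polynomial.eval_X, Polynomial.eval_C] at h2
  have h3 : Polynomial.aeval a (minpoly A z) = 0 := by
    rw [Polynomial.aeval_def, ← Polynomial.eval_map]
    exact (Polynomial.mem_roots hm.ne_zero).1 ha
  obtain ⟨σ, hσ⟩ := minpoly.exists_algEquiv_of_root' (Algebra.IsAlgebraic.isAlgebraic z) h3
  refine ⟨σ, ?_⟩
  rw [hσ]
  exact (sub_eq_zero.1 h2).symm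

/-- unramified steps -/
private theorem towU_ustep {k W : Type} [Field k] [NormedField W] [Algebra k W] [IsAlgClosed W]
    (L L2 : IntermediateField k W) (hle : L ≤ L2) (N : IntermediateField L W)
    [FiniteDimensional L N] [IsGalois L N] (z : N) (hz : ‖(z : W)‖ ≤ 1)
    (hconj : ∀ σ : N ≃ₐ[L] N, ((σ z : N) : W) ∈ L ⊔ IntermediateField.adjoin k {(z : W)})
    (hdist : ∀ σ : N ≃ₐ[L] N, σ z ≠ z → ‖((σ z : N) : W) - (z : W)‖ = 1) :
    UStep L2 (L2 ⊔ IntermediateField.adjoin k {(z : W)}) := by
  classical
  set q : Polynomial L2 := (minpoly L z).map (IntermediateField.inclusion hle).toRingHom with hq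
  have hcomp : (algebraMap L2 W).comp (IntermediateField.inclusion hle).toRingHom =
      algebraMap L W := rfl
  have hroot : ∀ y : W, Polynomial.aeval y q = Polynomial.aeval y (minpoly L z) := by
    intro y
    rw [Polynomial.aeval_def, Polynomial.aeval_def, hq, Polynomial.eval₂_map, hcomp]
  have hsep : (minpoly L z).Separable := Algebra.IsSeparable.isSeparable L z
  have hqsep : q.Separable := hsep.map
  have hq0 : q ≠ 0 := hqsep.ne_zero
  have hsplit : (q.map (algebraMap L2 W)).Splits := IsAlgClosed.splits _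
  have hSF : q.IsSplittingField L2 (IntermediateField.adjoin L2 (q.rootSet W)) :=
    IntermediateField.adjoin_rootSet_isSplittingField hsplit
  have hzroot : (z : W) ∈ q.rootSet W := by
    rw [Polynomial.mem_rootSet]
    refine ⟨hq0, ?_⟩
    rw [hroot]
    have h1 : ((Polynomial.aeval z (minpoly L z) : N) : W) =
        Polynomial.aeval (z : W) (minpoly L z) := by
      rw [← IntermediateField.coe_val, ← Polynomial.aeval_algHom_apply]
    rw [← h1, minpoly.aeval]
    rfl
  have hadj : IntermediateField.adjoin L2 (q.rootSet W) =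
      IntermediateField.adjoin L2 {(z : W)} := by
    apply le_antisymm
    · rw [IntermediateField.adjoin_le_iff]
      intro y hy
      rw [Polynomial.mem_rootSet, hroot] at hy
      obtain ⟨σ, hσ⟩ := towU_conj N z hy.2
      have h1 := hconj σ
      rw [hσ] at h1
      have h2 : L ⊔ IntermediateField.adjoin k {(z : W)} ≤
          (IntermediateField.adjoin L2 {(z : W)}).restrictScalars k := by
        rw [IntermediateField.restrictScalars_adjoin_eq_sup]
        exact sup_le_sup_right hle _
      exact h2 h1
    · rw [IntermediateField.adjoin_le_iff]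
      rintro _ rfl
      exact IntermediateField.subset_adjoin _ _ hzroot
  refine ⟨IntermediateField.adjoin L2 (q.rootSet W), ?_, ?_, ?_, ?_⟩
  · exact Polynomial.IsSplittingField.finiteDimensional _ q
  · exact IsGalois.of_separable_splitting_field hqsep
  · rw [hadj, IntermediateField.restrictScalars_adjoin_eq_sup]
  · refine ⟨⟨(z : W), IntermediateField.subset_adjoin _ _ hzroot⟩, hz, ?_⟩
    intro σ hσ
    set ζ : IntermediateField.adjoin L2 (q.rootSet W) :=
      ⟨(z : W), IntermediateField.subset_adjoin _ _ hzroot⟩ with hζ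
    have h1 : Polynomial.aeval ((σ ζ : IntermediateField.adjoin L2 (q.rootSet W)) : W) q = 0 := by
      have h2 : Polynomial.aeval ζ q = 0 := by
        apply Subtype.ext
        have h3 : ((Polynomial.aeval ζ q : IntermediateField.adjoin L2 (q.rootSet W)) : W) =
            Polynomial.aeval (z : W) q := by
          rw [← IntermediateField.coe_val, ← Polynomial.aeval_algHom_apply]
          rfl
        rw [h3]
        exact ((Polynomial.mem_rootSet).1 hzroot).2
      have h4 : Polynomial.aeval (σ ζ) q = 0 := by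
        have h6 := Polynomial.aeval_algHom_apply σ.toAlgHom ζ q
        rw [h2, map_zero] at h6
        exact h6
      have h5 : ((Polynomial.aeval (σ ζ) q : IntermediateField.adjoin L2 (q.rootSet W)) : W) =
          Polynomial.aeval ((σ ζ : IntermediateField.adjoin L2 (q.rootSet W)) : W) q := by
        rw [← IntermediateField.coe_val, ← Polynomial.aeval_algHom_apply]
      rw [← h5, h4]
      rfl
    rw [hroot] at h1
    obtain ⟨τ, hτ⟩ := towU_conj N z h1
    have hne : τ z ≠ z := by
      intro h2
      apply hσ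
      have h3 : σ ζ = ζ := by
        apply Subtype.ext
        rw [← hτ, h2]
      have h4 : IntermediateField.adjoin L2 (q.rootSet W) =
          IntermediateField.adjoin L2 {(z : W)} := hadj
      have h5 : σ.toAlgHom = AlgHom.id L2 (IntermediateField.adjoin L2 (q.rootSet W)) := by
        refine IntermediateField.algHom_ext_of_eq_adjoin L2 h4 ?_
        intro x hx
        rw [Set.mem_singleton_iff] at hx
        subst hx
        exact h3
      exact AlgEquiv.ext fun y => DFunLike.congr_fun h5 y
    rw [← hτ]
    exact hdist τ hne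


/-- the minimal polynomial of a generator of the inertia field -/
private theorem towU_unr {k W : Type} [Field k] [NormedField W] [IsUltrametricDist W]
    [Algebra k W] (L : IntermediateField k W) (N : IntermediateField L W)
    [FiniteDimensional L N] [IsGalois L N] (z : N) (hz : ‖(z : W)‖ ≤ 1)
    (hiso : ∀ σ : N ≃ₐ[L] N, ‖((σ z : N) : W)‖ = ‖(z : W)‖)
    (hdist : ∀ σ : N ≃ₐ[L] N, σ z ≠ z → ‖((σ z : N) : W) - (z : W)‖ = 1) :
    ∃ f : Polynomial W, (∀ j, f.coeff j ∈ L ∧ ‖f.coeff j‖ ≤ 1) ∧ f.Monic ∧
      f.eval (z : W) = 0 ∧ ‖f.derivative.eval (z : W)‖ = 1 := by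
  classical
  set g : Polynomial N := (minpoly L z).map (algebraMap L N) with hg
  have hm0 := minpoly.monic (Algebra.IsIntegral.isIntegral (R := L) z)
  have hspl : g.Splits := Normal.splits inferInstance z
  have hm : g.Monic := hm0.map _
  have hroots : ∀ a ∈ g.roots, ∃ σ : N ≃ₐ[L] N, σ z = a := by
    intro a ha
    have h3 : Polynomial.aeval a (minpoly L z) = 0 := by
      rw [Polynomial.aeval_def, ← Polynomial.eval_map]
      exact (Polynomial.mem_roots hm.ne_zero).1 ha
    exact minpoly.exists_algEquiv_of_root' (Algebra.IsAlgebraic.isAlgebraic z) h3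
  have hzr : z ∈ g.roots := by
    rw [Polynomial.mem_roots hm.ne_zero, Polynomial.IsRoot.def, hg, Polynomial.eval_map,
      ← Polynomial.aeval_def, minpoly.aeval]
  have hfg : g.map (algebraMap N W) = (minpoly L z).map (algebraMap L W) := by
    rw [hg, Polynomial.map_map, ← IsScalarTower.algebraMap_eq L N W]
  refine ⟨g.map (algebraMap N W), fun j => ⟨?_, ?_⟩, hm.map _, ?_, ?_⟩
  · rw [hfg, Polynomial.coeff_map]
    exact ((minpoly L z).coeff j).2
  · rw [hspl.eq_prod_roots_of_monic hm, Polynomial.map_multiset_prod, Multiset.map_map]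
    have h1 : g.roots.map ((Polynomial.map (algebraMap N W)) ∘ fun a => Polynomial.X -
        Polynomial.C a) = (g.roots.map (fun a : N => (a : W))).map
          (fun c => Polynomial.X - Polynomial.C c) := by
      rw [Multiset.map_map]
      refine Multiset.map_congr rfl fun a _ => ?_
      simp only [Function.comp_apply, Polynomial.map_sub, Polynomial.map_X, Polynomial.map_C]
      rfl
    rw [h1]
    refine towU_coeff _ ?_ j
    intro c hc
    obtain ⟨a, ha, rfl⟩ := Multiset.mem_map.1 hc
    obtain ⟨σ, rfl⟩ := hroots a ha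
    rw [hiso]
    exact hz
  · have h1 : (z : W) = algebraMap N W z := rfl
    rw [h1, Polynomial.eval_map_apply, (Polynomial.mem_roots hm.ne_zero).1 hzr, map_zero]
  · have h1 : (z : W) = algebraMap N W z := rfl
    rw [Polynomial.derivative_map, h1, Polynomial.eval_map_apply,
      hspl.eval_root_derivative hm hzr, map_multiset_prod, Multiset.map_map]
    have hnd : g.roots.Nodup := by
      refine Polynomial.nodup_roots ?_
      have h2 : (minpoly L z).Separable := Algebra.IsSeparable.isSeparable L z
      exact h2.map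
    refine Multiset.prod_induction (fun x : W => ‖x‖ = 1) _ ?_ (by simp) ?_
    · intro a b ha hb
      rw [norm_mul, ha, hb, one_mul]
    · intro c hc
      obtain ⟨a, ha, rfl⟩ := Multiset.mem_map.1 hc
      rw [hnd.mem_erase_iff] at ha
      obtain ⟨σ, rfl⟩ := hroots a ha.2
      have h3 := hdist σ ha.1
      rw [norm_sub_rev] at h3
      exact h3

/-- the order of an automorphism which moves a root of a polynomial -/
private theorem towU_order {A N : Type} [Field A] [Field N] [Algebra A N] (F : Polynomial A)
    (hF : F ≠ 0) (g : N ≃ₐ[A] N) {l : ℕ} (hl : l.Prime) (hg : orderOf g = l) {x : N}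
    (hx : Polynomial.aeval x F = 0) (hgx : g x ≠ x) : l ≤ F.natDegree := by
  classical
  have key : ∀ i j, i < j → j < l → (g ^ i) x ≠ (g ^ j) x := by
    intro i j hij hj h
    have h1 : (g ^ (j - i)) x = x := by
      have h2 : g ^ j = g ^ i * g ^ (j - i) := by
        rw [← pow_add]
        congr 1
        omega
      rw [h2, AlgEquiv.mul_apply] at h
      exact ((g ^ i).injective h).symm
    have hco : (j - i).Coprime (orderOf g) := by
      rw [hg, Nat.coprime_comm]
      refine (Nat.Prime.coprime_iff_not_dvd hl).2 fun hd => ?_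
      have := Nat.le_of_dvd (by omega) hd
      omega
    obtain ⟨m, hm⟩ := exists_pow_eq_self_of_coprime hco
    have h3 : ∀ m : ℕ, ((g ^ (j - i)) ^ m) x = x := by
      intro m
      induction m with
      | zero => simp
      | succ m ih => rw [pow_succ, AlgEquiv.mul_apply, h1, ih]
    have h4 := h3 m
    rw [hm] at h4
    exact hgx h4
  have hinj : Set.InjOn (fun i : ℕ => (g ^ i) x) (Finset.range l : Set ℕ) := by
    intro i hi j hj h
    rw [Finset.mem_coe, Finset.mem_range] at hi hj
    rcases lt_trichotomy i j with h1 | h1 | h1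
    · exact absurd h (key i j h1 hj)
    · exact h1
    · exact absurd h.symm (key j i h1 hi)
  have hF' : F.map (algebraMap A N) ≠ 0 := (Polynomial.map_ne_zero_iff (algebraMap A N).injective).2 hF
  have hsub : (Finset.range l).image (fun i : ℕ => (g ^ i) x) ⊆
      (F.map (algebraMap A N)).roots.toFinset := by
    intro y hy
    obtain ⟨i, -, rfl⟩ := Finset.mem_image.1 hy
    rw [Multiset.mem_toFinset, Polynomial.mem_roots hF', Polynomial.IsRoot.def,
      Polynomial.eval_map, ← Polynomial.aeval_def]
    have h6 := Polynomial.aeval_algHom_apply (g ^ i).toAlgHom x F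
    rw [hx, map_zero] at h6
    exact h6
  calc l = ((Finset.range l).image (fun i : ℕ => (g ^ i) x)).card := by
        rw [Finset.card_image_of_injOn hinj, Finset.card_range]
    _ ≤ (F.map (algebraMap A N)).roots.toFinset.card := Finset.card_le_card hsub
    _ ≤ Multiset.card (F.map (algebraMap A N)).roots := Multiset.toFinset_card_le _
    _ ≤ (F.map (algebraMap A N)).natDegree := Polynomial.card_roots' _
    _ = F.natDegree := Polynomial.natDegree_map _


/-- See the header. -/
theorem towerU {k W : Type} [Field k] [PerfectField k] [NontriviallyNormedField W]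
    [IsUltrametricDist W] [Algebra k W] [IsAlgClosed W] {r m : ℕ} (hr : 0 < r)
    (hA : AmbG r m k W) (p : ℕ) [Fact p.Prime] [CharP k p] (S L : IntermediateField k W)
    (hS : ∀ z : W, IsSeparable S z → z ∈ S) (hL : IsComplete (L : Set W)) (h : HasCh m S r L)
    (G : Finset W) (hG : ∀ θ ∈ G, IsSeparable L θ) :
    TTower m S r (L ⊔ IntermediateField.adjoin k (G : Set W)) := by
  classical
  have hp : p.Prime := Fact.out
  -- a small element
  have hnt : ∃ z ∈ L, z ≠ 0 ∧ ‖z‖ < 1 := by
    obtain ⟨c, hc⟩ := h
    exact ⟨c.x ⟨0, hr⟩, (hc.ok.xM _).2, hc.ok.par.ind.ne _, hc.ok.par.ind.lt _⟩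
  set F : Polynomial L := ∏ θ ∈ G, minpoly L θ with hF
  have hmono : ∀ θ ∈ G, (minpoly L θ).Monic := fun θ hθ =>
    minpoly.monic (hG θ hθ).isIntegral
  have hF0 : F ≠ 0 := (Polynomial.monic_prod_of_monic _ _ hmono).ne_zero
  -- the primes
  set T : Finset ℕ := (Finset.range (F.natDegree + 1)).filter (fun l => l.Prime ∧ l ≠ p) with hT
  set n : ℕ := ∏ l ∈ T, l with hn
  have hpn : ¬ p ∣ n := by
    intro hd
    obtain ⟨l, hl, hpl⟩ := (Prime.dvd_finsetProd_iff hp.prime _).1 hd
    obtain ⟨-, hl1, hl2⟩ := Finset.mem_filter.1 hl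
    exact hl2 ((Nat.prime_dvd_prime_iff_eq hp hl1).1 hpl).symm
  have hn0 : n ≠ 0 := fun h0 => hpn (h0 ▸ dvd_zero p)
  have hchar : CharP L p := charP_of_injective_algebraMap (algebraMap k L).injective p
  have hcharW : CharP W p := charP_of_injective_algebraMap (algebraMap k W).injective p
  have hnL : (n : L) ≠ 0 := fun h0 => hpn ((CharP.cast_eq_zero_iff L p n).1 h0)
  set Q : Polynomial L := Polynomial.X ^ n - Polynomial.C 1 with hQ
  have hQsep : Q.Separable := Polynomial.separable_X_pow_sub_C 1 hnL one_ne_zero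
  have hQ0 : Q ≠ 0 := hQsep.ne_zero
  have hFQ : F * Q ≠ 0 := mul_ne_zero hF0 hQ0
  have hsplit : ((F * Q).map (algebraMap L W)).Splits := IsAlgClosed.splits _
  let N : IntermediateField L W := IntermediateField.adjoin L ((F * Q).rootSet W)
  have hSF : (F * Q).IsSplittingField L N :=
    IntermediateField.adjoin_rootSet_isSplittingField hsplit
  have hfd : FiniteDimensional L N := Polynomial.IsSplittingField.finiteDimensional N (F * Q)
  have hnorm : Normal L N := Normal.of_isSplittingField (F * Q)
  have hrootF : ∀ z : W, Polynomial.aeval z F = 0 → IsSeparable L z := by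
    intro z hz
    rw [hF, map_prod, Finset.prod_eq_zero_iff] at hz
    obtain ⟨θ, hθ, hz⟩ := hz
    have h1 : minpoly L θ = minpoly L z :=
      minpoly.eq_of_irreducible_of_monic (minpoly.irreducible (hG θ hθ).isIntegral) hz
        (hmono θ hθ)
    have h2 : IsSeparable L θ := hG θ hθ
    unfold IsSeparable at h2 ⊢
    rwa [← h1]
  have hrootQ : ∀ z : W, Polynomial.aeval z Q = 0 → IsSeparable L z := fun z hz =>
    hQsep.of_dvd (minpoly.dvd L z hz)
  have hsepN : Algebra.IsSeparable L N := by
    rw [IntermediateField.isSeparable_adjoin_iff_isSeparable]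
    intro z hz
    rw [Polynomial.mem_rootSet] at hz
    obtain ⟨-, hz⟩ := hz
    rw [map_mul, mul_eq_zero] at hz
    rcases hz with hz | hz
    · exact hrootF z hz
    · exact hrootQ z hz
  have hgal : IsGalois L N := IsGalois.mk
  have hmem : ∀ z : W, Polynomial.aeval z (F * Q) = 0 → z ∈ N := by
    intro z hz
    apply IntermediateField.subset_adjoin
    rw [Polynomial.mem_rootSet]
    exact ⟨hFQ, hz⟩
  have hGN : ∀ θ ∈ G, θ ∈ N := by
    intro θ hθ
    apply hmem
    rw [map_mul, hF, map_prod, Finset.prod_eq_zero hθ (minpoly.aeval L θ), zero_mul]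
  have halg : Algebra.IsAlgebraic L N := inferInstance
  have hiso : ∀ (σ : N ≃ₐ[L] N) (z : N), ‖((σ z : N) : W)‖ = ‖(z : W)‖ := fun σ z =>
    isometry_of_complete L hL hnt N σ z
  -- inertia and ramification groups
  obtain ⟨P, I, hPn, hIn, hPI, hPp, hPc, hPi, hI⟩ :=
    exists_inertia (A := L) (N := N) p hiso
  obtain ⟨z, hz1, hzI, hzn⟩ := exists_inertia_gen (A := L) (N := N) p hiso I hI
  -- roots of unity
  have hnN : ‖((n : ℕ) : N)‖ = 1 := by
    have h1 := towU_cast (W := W) hA.unit p hpn
    have h2 : (((n : ℕ) : N) : W) = ((n : ℕ) : W) := rfl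
    have h3 : ‖((n : ℕ) : N)‖ = ‖(((n : ℕ) : N) : W)‖ := rfl
    rw [h3, h2, h1]
  have hfix : ∀ ξ : N, ξ ^ n = 1 → ∀ g ∈ I, g ξ = ξ := by
    intro ξ hξ g hg
    have hξ0 : ξ ≠ 0 := by
      rintro rfl
      rw [zero_pow hn0] at hξ
      exact zero_ne_one hξ
    have hξn : ‖ξ‖ = 1 :=
      (pow_eq_one_iff_of_nonneg (norm_nonneg _) hn0).1 (by rw [← norm_pow, hξ, norm_one])
    have h1 := (hI g).1 hg ξ hξn.le
    have h2 : (g ξ / ξ) ^ n = 1 := by rw [div_pow, ← map_pow, hξ, map_one, div_one]
    have h3 : ‖g ξ / ξ - 1‖ < 1 := by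
      rw [div_sub_one hξ0, norm_div, hξn, div_one]
      exact h1
    have h4 := towU_root hnN h2 h3
    rwa [div_eq_one_iff_eq hξ0] at h4
  have hprim : ∀ l : ℕ, l.Prime → l ≤ F.natDegree → l ≠ p →
      ∃ ξ : N, IsPrimitiveRoot ξ l ∧ ∀ g ∈ I, g ξ = ξ := by
    intro l hl hle hlp
    have hlT : l ∈ T := Finset.mem_filter.2 ⟨Finset.mem_range.2 (by omega), hl, hlp⟩
    have hln : l ∣ n := Finset.dvd_prod_of_mem _ hlT
    have hlW : (l : W) ≠ 0 := by
      intro h0
      exact hlp ((Nat.prime_dvd_prime_iff_eq hp hl).1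
        ((CharP.cast_eq_zero_iff W p l).1 h0)).symm
    have : NeZero (l : W) := ⟨hlW⟩
    have : NeZero l := ⟨hl.ne_zero⟩
    obtain ⟨ξ, hξ⟩ := HasEnoughRootsOfUnity.exists_primitiveRoot W l
    have hξn : ξ ^ n = 1 := (hξ.pow_eq_one_iff_dvd n).2 hln
    have hξN : ξ ∈ N := by
      apply hmem
      rw [map_mul, hQ, map_sub, map_pow, Polynomial.aeval_X, Polynomial.aeval_C, map_one, hξn,
        sub_self, mul_zero]
    have hp1 : IsPrimitiveRoot (⟨ξ, hξN⟩ : N) l :=
      IsPrimitiveRoot.of_map_of_injective (f := algebraMap N W) hξ (algebraMap N W).injective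
    exact ⟨⟨ξ, hξN⟩, hp1, fun g hg => hfix _ (Subtype.ext hξn) g hg⟩
  have hcardI : ∀ l : ℕ, l.Prime → l ∣ Nat.card I → l ≤ F.natDegree := by
    intro l hl hd
    have : Fact l.Prime := ⟨hl⟩
    obtain ⟨g, hg⟩ := exists_prime_orderOf_dvd_card' (G := I) l hd
    have hg' : orderOf (g : N ≃ₐ[L] N) = l := by
      rw [Subgroup.orderOf_coe]
      exact hg
    by_contra hlt
    have hall : ∀ x : N, Polynomial.aeval x F = 0 → (g : N ≃ₐ[L] N) x = x := by
      intro x hx
      by_contra hne
      exact hlt (towU_order F hF0 (g : N ≃ₐ[L] N) hl hg' hx hne)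
    have hone : (g : N ≃ₐ[L] N) = 1 := by
      have h5 : (g : N ≃ₐ[L] N).toAlgHom = AlgHom.id L N := by
        refine IntermediateField.adjoin_algHom_ext L ?_
        intro x hx
        rw [Polynomial.mem_rootSet] at hx
        obtain ⟨-, hx0⟩ := hx
        have hxN : x ∈ N := hmem x hx0
        rw [map_mul, mul_eq_zero] at hx0
        have hco : ∀ q : Polynomial L, Polynomial.aeval x q = 0 →
            Polynomial.aeval (⟨x, hxN⟩ : N) q = 0 := by
          intro q hq
          apply Subtype.ext
          have h6 : ((Polynomial.aeval (⟨x, hxN⟩ : N) q : N) : W) = Polynomial.aeval x q := by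
            rw [← IntermediateField.coe_val, ← Polynomial.aeval_algHom_apply]
            rfl
          rw [h6, hq]
          rfl
        rcases hx0 with hx0 | hx0
        · exact hall _ (hco F hx0)
        · refine hfix _ ?_ _ g.2
          have h6 := hco Q hx0
          rw [hQ, map_sub, map_pow, Polynomial.aeval_X, Polynomial.aeval_C, map_one,
            sub_eq_zero] at h6
          exact h6
      exact AlgEquiv.ext fun y => DFunLike.congr_fun h5 y
    rw [hone, orderOf_one] at hg'
    exact hl.one_lt.ne hg'
  have hroots : ∀ G' : Subgroup (N ≃ₐ[L] N), G' ≤ I → ∀ l : ℕ, l.Prime → l ∣ Nat.card G' →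
      l ≠ p → ∃ ζ ∈ IntermediateField.fixedField G', IsPrimitiveRoot ζ l := by
    intro G' hG' l hl hd hlp
    obtain ⟨ξ, hξ, hξI⟩ := hprim l hl
      (hcardI l hl (hd.trans (Subgroup.card_dvd_of_le hG'))) hlp
    refine ⟨ξ, ?_, hξ⟩
    rw [IntermediateField.mem_fixedField_iff]
    exact fun g hg => hξI g (hG' hg)
  -- one step keeps completeness
  have hcomp : ∀ (E : IntermediateField L N) (w : N) (P : Polynomial (TowU N E)),
      P ≠ 0 → Polynomial.aeval (w : W) P = 0 →
      IsComplete ((TowU N E : IntermediateField k W) : Set W) →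
      IsComplete ((TowU N E ⊔ IntermediateField.adjoin k {(w : W)} :
        IntermediateField k W) : Set W) := by
    intro E w P hP hw hc
    refine isComplete_sup hc ?_ _ ⟨P, hP, hw⟩
    obtain ⟨z, hz, hz0, hz1⟩ := hnt
    exact ⟨z, towU_le N E hz, hz0, hz1⟩
  have hstep : ∀ (E : IntermediateField L N) (w : N),
      TowU N (E ⊔ IntermediateField.adjoin L {w}) =
        TowU N E ⊔ IntermediateField.adjoin k {(w : W)} := by
    intro E w
    rw [towU_sup, Set.image_singleton]
  -- the inertia field
  have hIfix : (IntermediateField.adjoin L {z}).fixingSubgroup = I := by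
    ext g
    constructor
    · intro hg
      have h1 : g z = z := (IntermediateField.mem_fixingSubgroup_iff _ g).1 hg z
        (IntermediateField.subset_adjoin _ _ rfl)
      by_contra hgI
      have h2 := hzn g hgI
      rw [h1, sub_self, norm_zero] at h2
      exact zero_ne_one h2
    · intro hg
      have h1 : IntermediateField.adjoin L {z} ≤ IntermediateField.fixedField I := by
        rw [IntermediateField.adjoin_le_iff]
        rintro _ rfl
        rw [SetLike.mem_coe, IntermediateField.mem_fixedField_iff]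
        exact hzI
      exact (IntermediateField.le_iff_le _ _).1 h1 hg
  have hfixI : IntermediateField.fixedField I = IntermediateField.adjoin L {z} := by
    rw [← hIfix]
    exact IsGalois.fixedField_fixingSubgroup _
  have hTI : TowU N (IntermediateField.fixedField I) =
      L ⊔ IntermediateField.adjoin k {(z : W)} := by
    rw [hfixI]
    have h1 := hstep ⊥ z
    rw [bot_sup_eq, towU_bot] at h1
    exact h1
  have hdist : ∀ σ : N ≃ₐ[L] N, σ z ≠ z → ‖((σ z : N) : W) - (z : W)‖ = 1 := by
    intro σ hσ
    exact hzn σ fun hI' => hσ (hzI σ hI')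
  have hconj : ∀ σ : N ≃ₐ[L] N, ((σ z : N) : W) ∈
      L ⊔ IntermediateField.adjoin k {(z : W)} := by
    intro σ
    rw [← hTI]
    refine towU_mem.mpr ⟨σ z, ?_, rfl⟩
    rw [IntermediateField.mem_fixedField_iff]
    intro g hg
    have h1 := hzI _ (hIn.conj_mem g hg σ⁻¹)
    rw [inv_inv] at h1
    have h2 : g (σ z) = σ ((σ⁻¹ * g * σ) z) := by
      rw [← AlgEquiv.mul_apply, ← AlgEquiv.mul_apply]
      congr 1
      group
    rw [h2, h1]
  have hzalg : IsAlgebraic L (z : W) :=
    (Algebra.IsAlgebraic.isAlgebraic (R := L) z).algebraMap (A := W)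
  -- (a)
  have hbaseI : IsComplete ((TowU N (IntermediateField.fixedField I) :
      IntermediateField k W) : Set W) ∧ HasCh m S r (TowU N (IntermediateField.fixedField I)) := by
    rw [hTI]
    refine ⟨isComplete_sup hL hnt _ hzalg, ?_⟩
    obtain ⟨f, hf, hfm, h0, h1⟩ := towU_unr L N z hz1 (fun σ => hiso σ z) hdist
    exact unr_stepU hr hA S L hS hL h (z : W) f hf hfm h0 h1
  -- (b) Kummer steps up
  have hK : ∀ E : IntermediateField L N, Relation.ReflTransGen (KStepU (A := L) (N := N))
      (IntermediateField.fixedField I) E →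
      IsComplete ((TowU N E : IntermediateField k W) : Set W) ∧ HasCh m S r (TowU N E) := by
    intro E hE
    induction hE with
    | refl => exact hbaseI
    | tail _ hs ih =>
      obtain ⟨l, hl, hl0, w, ζ, hw, -, -, rfl⟩ := hs
      rename_i E1 _
      have hwl : (w : W) ^ l ∈ TowU N E1 := towU_mem.mpr ⟨w ^ l, hw, rfl⟩
      have hl1 : (l : k) ≠ 0 := fun h0 => hl0 (by
        rw [← map_natCast (algebraMap k L), h0, map_zero])
      rw [hstep]
      refine ⟨hcomp E1 w (Polynomial.X ^ l - Polynomial.C ⟨_, hwl⟩)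
        (Polynomial.X_pow_sub_C_ne_zero hl.pos _) (by simp) ih.1, ?_⟩
      exact kummer_stepU hr hA S _ hS ih.1 ih.2 l hl hl1 _ hwl
  -- (c) Artin-Schreier steps up
  have hAS : ∀ E0 E : IntermediateField L N, Relation.ReflTransGen (AStep (A := L) (N := N) p)
      E0 E → IsComplete ((TowU N E0 : IntermediateField k W) : Set W) →
      HasCh m S r (TowU N E0) →
      IsComplete ((TowU N E : IntermediateField k W) : Set W) ∧ HasCh m S r (TowU N E) := by
    intro E0 E hE hc hch
    induction hE with
    | refl => exact ⟨hc, hch⟩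
    | tail _ hs ih =>
      obtain ⟨w, hw, rfl⟩ := hs
      rename_i E1 _
      have hwl : (w : W) ^ p - (w : W) ∈ TowU N E1 := towU_mem.mpr ⟨w ^ p - w, hw, rfl⟩
      rw [hstep]
      have hp1 : 1 < p := hp.one_lt
      refine ⟨hcomp E1 w (Polynomial.X ^ p - Polynomial.X - Polynomial.C ⟨_, hwl⟩) ?_
        (by simp) ih.1, ?_⟩
      · intro h0
        have h1 := congrArg (fun q => Polynomial.coeff q p) h0
        simp [Polynomial.coeff_X, Polynomial.coeff_C, hp1.ne,
          (Nat.zero_lt_of_lt hp1).ne'] at h1
      · exact as_stepU hr hA p S _ hS ih.1 ih.2 _ hwl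
  -- the subgroup of `L'`
  set L' : IntermediateField L N := IntermediateField.adjoin L {w : N | (w : W) ∈ G} with hL'
  set U : Subgroup (N ≃ₐ[L] N) := L'.fixingSubgroup with hU
  have hTL' : TowU N L' = L ⊔ IntermediateField.adjoin k (G : Set W) := by
    have h1 : L' = ⊥ ⊔ IntermediateField.adjoin L {w : N | (w : W) ∈ G} := by
      rw [bot_sup_eq]
    rw [h1, towU_sup, towU_bot]
    congr 2
    ext z
    constructor
    · rintro ⟨w, hw, rfl⟩
      exact hw
    · intro hz
      exact ⟨⟨z, hGN z hz⟩, hz, rfl⟩
  have hbase := hK _ (kstep_chainU p P I hPI (hroots I le_rfl) hPc hPi)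
  have hPU := hAS _ _ (astep_chain p (P ⊓ U) P inf_le_left hPp) hbase.1 hbase.2
  -- (d) Kummer steps down
  have hindex : (P ⊓ U).relIndex (I ⊓ U) ∣ P.relIndex I := by
    have h1 : (P ⊓ U).relIndex (I ⊓ U) = P.relIndex (I ⊓ U) := by
      rw [← Subgroup.inf_relIndex_right P (I ⊓ U)]
      congr 1
      rw [← inf_assoc, inf_eq_left.2 hPI]
    have h2 : (P.subgroupOf I).Normal := Subgroup.normal_subgroupOf
    have h3 := Subgroup.relIndex_dvd_index_of_normal (P.subgroupOf I) ((I ⊓ U).subgroupOf I)
    rw [Subgroup.relIndex_subgroupOf inf_le_left] at h3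
    rw [h1]
    exact h3
  have hchain := kstep_chainU p (P ⊓ U) (I ⊓ U) (inf_le_inf_right U hPI)
    (hroots (I ⊓ U) inf_le_left)
    (fun g hg h hh => ⟨hPc g hg.1 h hh.1, U.mul_mem (U.mul_mem (U.mul_mem hg.2 hh.2)
      (U.inv_mem hg.2)) (U.inv_mem hh.2)⟩)
    (Nat.Coprime.coprime_dvd_right hindex hPi)
  have hdown : ∀ E : IntermediateField L N, Relation.ReflTransGen (KStepU (A := L) (N := N)) E
      (IntermediateField.fixedField (P ⊓ U)) → TTower m S r (TowU N E) := by
    intro E hE
    induction hE using Relation.ReflTransGen.head_induction_on with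
    | refl => exact TTower.base _ hPU.2
    | head hs _ ih =>
      obtain ⟨l, hl, hl0, w, ζ, hw, hζ, hζl, rfl⟩ := hs
      have hl1 : (l : k) ≠ 0 := fun h0 => hl0 (by
        rw [← map_natCast (algebraMap k L), h0, map_zero])
      refine TTower.kstep _ l (w : W) (ζ : W) hl hl1 (towU_mem.mpr ⟨w ^ l, hw, rfl⟩)
        (towU_mem.mpr ⟨ζ, hζ, rfl⟩)
        (hζl.map_of_injective (f := algebraMap N W) (algebraMap N W).injective) ?_
      rw [← hstep]
      exact ih
  -- (e) the unramified step
  have hLU : IntermediateField.fixedField (I ⊓ U) = L' ⊔ IntermediateField.adjoin L {z} := by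
    rw [← IsGalois.fixedField_fixingSubgroup (L' ⊔ IntermediateField.adjoin L {z}),
      IntermediateField.fixingSubgroup_sup, hIfix, inf_comm]
  have hfin := hdown _ hchain
  rw [hLU, hstep] at hfin
  rw [← hTL']
  exact TTower.ustep _ _
    (towU_ustep L (TowU N L') (towU_le N L') N z hz1 hconj hdist) hfin

end Pool.Agent.Lib.TU
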