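import Pool.Agent.Lib.TU.HenU
import Pool.Agent.Lib.MP_3029eb_ag.AbhBase

/-!
# Module CoefF: coefficient fields in complete fields

`A = locV k[G]` with `G ⊆ S ∩ L0`, `L0` complete, `S` separably closed in `W`; `Z` as in `res_basis`.
`k(Z)` is trivially normed (`‖P(Z)‖ = 1` for `P ≠ 0`) and `k(Z) ⊆ A`.  `κ = A / 𝔪` is generated over
`k(Z̄)` by the residues of the finite set `G` (field generators), all separable over `k(Z̄)`; let
`θ0 ∈ A` be a lift of a primitive element of `κ / k(Z̄)` (`Field.exists_primitive_element`), `h0` monic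
over `k(Z)` lifting its minimal polynomial (`hsep` gives some `h`; for the minimal polynomial: lift the
minimal polynomial of the residue, or take for `h0` the irreducible factor of the `h` of `hsep`
vanishing at the residue).  `henselU`: `θ ∈ L0`, `h0(θ) = 0`, `‖θ - θ0‖ < 1`; `θ ∈ S` because `θ` is a
simple root of a polynomial over `k(Z) ⊆ S` (`sep_of_simple`, `hS`).  `C := k(Z)(θ)`: algebraic over
the trivially normed field `k(Z)`, so trivially normed (`unit_of_algebraic`), generated by the
`Z i` and `θ` (`IntermediateField.FG`), of transcendence degree `m` (`Z` is algebraically independent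
and `C` algebraic over `k(Z)`).  Its residue field is `k(Z̄)(θ̄) = κ`: this is the two congruence
statements.  `C` is separable over `k(Z)`.  Last claim: `e ∈ C` with `‖g - e‖ < 1`, `h` the minimal
polynomial of `e` over `k(Z)` (separable, so `h'(e) ≠ 0` in the trivially normed field `C`,
`‖h'(e)‖ = 1 = ‖h'(g)‖`).
-/

namespace Pool.Agent.Lib.TU

open Pool.Agent.Lib.MP_3029eb_ag Pool.Agent.Lib.MP_3029eb_ag.Abh Pool.Agent.Lib.TDO

open scoped IntermediateField.algebraAdjoinAdjoin in
private theorem cf_trdeg {k W : Type} [Field k] [Field W] [Algebra k W] {m : ℕ} (Z : Fin m → W)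
    (hZ : ∀ P : MvPolynomial (Fin m) k, P ≠ 0 → MvPolynomial.aeval Z P ≠ 0)
    (C : IntermediateField k W) (hZC : ∀ i, Z i ∈ C)
    (halg : ∀ e ∈ C, IsAlgebraic (IntermediateField.adjoin k (Set.range Z)) e) :
    Algebra.trdeg k C = (m : Cardinal) := by
  set Z' : Fin m → C := fun i => ⟨Z i, hZC i⟩ with hZ'
  have hcomp : ∀ P : MvPolynomial (Fin m) k, C.val (MvPolynomial.aeval Z' P) =
      MvPolynomial.aeval Z P := by
    intro P
    exact (MvPolynomial.comp_aeval_apply (f := Z') C.val P)
  have hind : AlgebraicIndependent k Z' := by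
    rw [algebraicIndependent_iff]
    intro P hP
    by_contra h
    apply hZ P h
    rw [← hcomp, hP, map_zero]
  have hb : IsTranscendenceBasis k Z' := by
    rw [hind.isTranscendenceBasis_iff_isAlgebraic]
    set R := Algebra.adjoin k (Set.range Z') with hR
    set S := Algebra.adjoin k (Set.range Z) with hS
    have hmap : R.map C.val = S := by
      rw [hR, AlgHom.map_adjoin, ← Set.range_comp]
      rfl
    let f : R →ₐ[k] S := (C.val.comp R.val).codRestrict S (fun x => by
      rw [← hmap]
      exact ⟨x.1, x.2, rfl⟩)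
    constructor
    intro a
    have h1 : IsAlgebraic S (C.val a) := by
      have h2 := halg a.1 a.2
      exact (IsFractionRing.isAlgebraic_iff S (IntermediateField.adjoin k (Set.range Z)) W).2 h2
    refine h1.of_ringHom_of_comp_eq f.toRingHom C.val.toRingHom ?_ ?_ ?_
    · rintro ⟨s, hs⟩
      have hs2 := hs
      rw [← hmap] at hs2
      obtain ⟨r, hr, hrs⟩ := hs2
      exact ⟨⟨r, hr⟩, Subtype.ext hrs⟩
    · exact C.val.toRingHom.injective
    · ext x
      rfl
  rw [← hb.cardinalMk_eq_trdeg]
  simp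

section

variable {k W : Type} [Field k] [NormedField W] [IsUltrametricDist W] [Algebra k W]

private theorem cf_sub_le {a b : W} : ‖a - b‖ ≤ max ‖a‖ ‖b‖ := by
  have := IsUltrametricDist.norm_add_le_max a (-b)
  rwa [norm_neg, ← sub_eq_add_neg] at this

private theorem cf_eq {a b : W} (h : ‖a - b‖ < ‖a‖) : ‖b‖ = ‖a‖ := by
  apply le_antisymm
  · have h1 : b = a - (a - b) := by ring
    rw [h1]
    exact cf_sub_le.trans (max_le le_rfl h.le)
  · by_contra h2
    have h3 : a = (a - b) + b := by ring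
    have h4 := IsUltrametricDist.norm_add_le_max (a - b) b
    rw [← h3] at h4
    exact absurd h4 (not_le.2 (max_lt h (not_le.1 h2)))

private theorem cf_inv {B : Subring W} {z : W} (hz : z ∈ locV (ball W) B) (h1 : ‖z‖ = 1) :
    z⁻¹ ∈ locV (ball W) B := by
  obtain ⟨a, ha, b, hb, hb1, h⟩ := hz
  rw [ball_val_eq_one] at hb1
  have hz0 : z ≠ 0 := by
    rintro rfl
    rw [norm_zero] at h1
    exact zero_ne_one h1
  refine ⟨b, hb, a, ha, ?_, ?_⟩
  · rw [ball_val_eq_one, ← h, norm_mul, h1, hb1, one_mul]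
  · rw [← h]
    field_simp

private theorem cf_le {B : Subring W} {z : W} (hz : z ∈ B) : z ∈ locV (ball W) B :=
  ⟨z, hz, 1, one_mem _, map_one _, mul_one _⟩

private theorem cf_norm {B : Subring W} (hB : ∀ z ∈ B, ‖z‖ ≤ 1) {z : W}
    (hz : z ∈ locV (ball W) B) : ‖z‖ ≤ 1 := by
  obtain ⟨a, ha, b, hb, hb1, h⟩ := hz
  rw [ball_val_eq_one] at hb1
  have := hB a ha
  rw [← h, norm_mul, hb1, mul_one] at this
  exact this

private theorem cf_field {B : Subring W} (L : IntermediateField k W) (hB : ∀ z ∈ B, z ∈ L) {z : W}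
    (hz : z ∈ locV (ball W) B) : z ∈ L := by
  obtain ⟨a, ha, b, hb, hb1, h⟩ := hz
  rw [ball_val_eq_one] at hb1
  have hb0 : b ≠ 0 := by
    rintro rfl
    rw [norm_zero] at hb1
    exact zero_ne_one hb1
  have : z = a * b⁻¹ := by
    rw [← h]
    field_simp
  rw [this]
  exact L.mul_mem (hB a ha) (L.inv_mem (hB b hb))

end

/-- See the header. -/
theorem coef_field {k W : Type} [Field k] [NormedField W] [IsUltrametricDist W]
    [Algebra k W] {m : ℕ} (hu : ∀ c : k, c ≠ 0 → ‖algebraMap k W c‖ = 1)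
    (S L0 : IntermediateField k W) (hS : ∀ z : W, IsSeparable S z → z ∈ S)
    (hL0 : IsComplete (L0 : Set W)) (G : Finset W)
    (hG : ∀ g ∈ G, g ∈ S ∧ g ∈ L0 ∧ ‖g‖ ≤ 1) (A : Subring W)
    (hAdef : A = locV (ball W) (Subring.closure (Set.range (algebraMap k W) ∪ (G : Set W))))
    (Z : Fin m → W) (hZ : ∀ i, Z i ∈ A)
    (hZi : ∀ P : MvPolynomial (Fin m) k, P ≠ 0 → ‖MvPolynomial.aeval Z P‖ = 1)
    (hsep : ∀ g ∈ A, ∃ h : Polynomial (IntermediateField.adjoin k (Set.range Z)), h.Monic ∧
        ‖Polynomial.aeval g h‖ < 1 ∧ ‖Polynomial.aeval g h.derivative‖ = 1) :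
    ∃ C : IntermediateField k W, C ≤ S ⊓ L0 ∧ Cst m C ∧ (∀ i, Z i ∈ C) ∧
      (∀ z ∈ A, ∃ e ∈ C, ‖z - e‖ < 1) ∧ (∀ e ∈ C, ∃ z ∈ A, ‖z - e‖ < 1) ∧
      (∀ e ∈ C, IsSeparable (IntermediateField.adjoin k (Set.range Z)) e) ∧
      ∀ g ∈ A, ∃ e ∈ C, ∃ h : Polynomial (IntermediateField.adjoin k (Set.range Z)),
        Polynomial.aeval e h = 0 ∧ ‖g - e‖ < 1 ∧ ‖Polynomial.aeval g h.derivative‖ = 1 := by
  classical
  have hkn : ∀ c : k, ‖algebraMap k W c‖ ≤ 1 := by
    intro c
    by_cases h : c = 0
    · rw [h, map_zero, norm_zero]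
      exact zero_le_one
    · exact (hu c h).le
  set B := Subring.closure (Set.range (algebraMap k W) ∪ (G : Set W)) with hBdef
  have hBn : ∀ z ∈ B, ‖z‖ ≤ 1 := by
    have : B ≤ (ball W).toSubring := by
      rw [hBdef, Subring.closure_le]
      rintro z (⟨c, rfl⟩ | hz)
      · exact hkn c
      · exact (hG z hz).2.2
    intro z hz
    exact this hz
  have hBL : ∀ L : IntermediateField k W, (∀ g ∈ G, g ∈ L) → ∀ z ∈ B, z ∈ L := by
    intro L hL
    have : B ≤ L.toSubfield.toSubring := by
      rw [hBdef, Subring.closure_le]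
      rintro z (⟨c, rfl⟩ | hz)
      · exact L.algebraMap_mem c
      · exact hL z hz
    intro z hz
    exact this hz
  have hAn : ∀ z ∈ A, ‖z‖ ≤ 1 := by
    intro z hz
    rw [hAdef] at hz
    exact cf_norm hBn hz
  have hAL : ∀ L : IntermediateField k W, (∀ g ∈ G, g ∈ L) → ∀ z ∈ A, z ∈ L := by
    intro L hL z hz
    rw [hAdef] at hz
    exact cf_field L (hBL L hL) hz
  have hAinv : ∀ z ∈ A, ‖z‖ = 1 → z⁻¹ ∈ A := by
    intro z hz h1
    rw [hAdef] at hz ⊢
    exact cf_inv hz h1
  have hkA : ∀ c : k, algebraMap k W c ∈ A := by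
    intro c
    rw [hAdef]
    exact cf_le (Subring.subset_closure (Or.inl ⟨c, rfl⟩))
  have hGA : ∀ g ∈ G, g ∈ A := by
    intro g hg
    rw [hAdef]
    exact cf_le (Subring.subset_closure (Or.inr hg))
  -- polynomials in Z
  have hPA : ∀ P : MvPolynomial (Fin m) k, MvPolynomial.aeval Z P ∈ A := by
    intro P
    induction P using MvPolynomial.induction_on with
    | C a =>
      rw [MvPolynomial.aeval_C]
      exact hkA a
    | add p q hp hq =>
      rw [map_add]
      exact add_mem hp hq
    | mul_X p i hp =>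
      rw [map_mul, MvPolynomial.aeval_X]
      exact mul_mem hp (hZ i)
  set K := IntermediateField.adjoin k (Set.range Z) with hK
  have hKA : ∀ z ∈ K, z ∈ A := by
    intro z hz
    rw [hK, IntermediateField.mem_adjoin_range_iff] at hz
    obtain ⟨P, Q, rfl⟩ := hz
    by_cases hQ : Q = 0
    · rw [hQ, map_zero, div_zero]
      exact zero_mem _
    · rw [div_eq_mul_inv]
      exact mul_mem (hPA P) (hAinv _ (hPA Q) (hZi Q hQ))
  have hKu : ∀ e ∈ K, e ≠ 0 → ‖e‖ = 1 := by
    intro z hz hz0
    rw [hK, IntermediateField.mem_adjoin_range_iff] at hz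
    obtain ⟨P, Q, rfl⟩ := hz
    have hP : P ≠ 0 := by
      rintro rfl
      apply hz0
      rw [map_zero, zero_div]
    have hQ : Q ≠ 0 := by
      rintro rfl
      apply hz0
      rw [map_zero, div_zero]
    rw [norm_div, hZi P hP, hZi Q hQ, div_one]
  have hKn : ∀ e ∈ K, ‖e‖ ≤ 1 := fun e he => hAn e (hKA e he)
  have hAS : ∀ z ∈ A, z ∈ S := hAL S (fun g hg => (hG g hg).1)
  have hAL0 : ∀ z ∈ A, z ∈ L0 := hAL L0 (fun g hg => (hG g hg).2.1)
  have hKS : K ≤ S := fun z hz => hAS z (hKA z hz)
  -- the map to polynomials over W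
  have hcf : ∀ (h : Polynomial K) (j : ℕ), (h.map (algebraMap K W)).coeff j ∈ K := by
    intro h j
    rw [Polynomial.coeff_map]
    exact (h.coeff j).2
  have hev : ∀ (h : Polynomial K) (z : W), Polynomial.aeval z h =
      (h.map (algebraMap K W)).eval z := by
    intro h z
    rw [Polynomial.eval_map_algebraMap]
  have hder : ∀ (h : Polynomial K), (h.derivative).map (algebraMap K W) =
      (h.map (algebraMap K W)).derivative := by
    intro h
    rw [Polynomial.derivative_map]
  -- lifts of the generators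
  have hlift : ∀ g : W, ∃ c : W, g ∈ G → c ∈ L0 ∧ c ∈ S ∧ IsSeparable K c ∧ ‖g - c‖ < 1 := by
    intro g
    by_cases hg : g ∈ G
    swap
    · exact ⟨0, fun h => absurd h hg⟩
    have hgA := hGA g hg
    obtain ⟨h, hm, h0, h1⟩ := hsep g hgA
    rw [hev] at h0
    rw [hev, hder] at h1
    obtain ⟨c, hc, hc0, hgc⟩ := henselU L0 hL0 (h.map (algebraMap K W))
      (fun j => ⟨hAL0 _ (hKA _ (hcf h j)), hKn _ (hcf h j)⟩) (hG g hg).2.1 (hG g hg).2.2 h0 h1
    have hcn : ‖c‖ ≤ 1 := by
      have : c = g - (g - c) := by ring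
      rw [this]
      exact cf_sub_le.trans (max_le (hG g hg).2.2 hgc.le)
    have hc1 : ‖(h.map (algebraMap K W)).derivative.eval c‖ = 1 := by
      have hd := norm_eval_sub_le (h.map (algebraMap K W)).derivative (fun j => by
        rw [← hder]; exact hKn _ (hcf _ j)) (hG g hg).2.2 hcn
      have h2 : ‖(h.map (algebraMap K W)).derivative.eval g -
          (h.map (algebraMap K W)).derivative.eval c‖ <
          ‖(h.map (algebraMap K W)).derivative.eval g‖ := by
        rw [h1]
        exact lt_of_le_of_lt hd hgc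
      rw [cf_eq h2, h1]
    have hc1' : (h.map (algebraMap K W)).derivative.eval c ≠ 0 := by
      intro h2
      rw [h2, norm_zero] at hc1
      exact zero_ne_one hc1
    have hsepK : IsSeparable K c := sep_of_simple h (by rw [hev]; exact hc0)
      (by rw [hev, hder]; exact hc1')
    refine ⟨c, fun _ => ⟨hc, ?_, hsepK, hgc⟩⟩
    apply hS
    have hmm : (h.map (IntermediateField.inclusion hKS).toRingHom).map (algebraMap S W) =
        h.map (algebraMap K W) := by
      rw [Polynomial.map_map]
      rfl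
    refine sep_of_simple (h.map (IntermediateField.inclusion hKS).toRingHom) ?_ ?_
    · rw [← Polynomial.eval_map_algebraMap, hmm]
      exact hc0
    · rw [← Polynomial.eval_map_algebraMap, Polynomial.derivative_map, Polynomial.map_map]
      have : (algebraMap S W).comp (IntermediateField.inclusion hKS).toRingHom = algebraMap K W := rfl
      rw [this, hder]
      exact hc1'
  choose e he using hlift
  set T : Set W := e '' (G : Set W) with hT
  set C : IntermediateField k W := IntermediateField.adjoin k (Set.range Z ∪ T) with hC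
  have hCK : (IntermediateField.adjoin K T).restrictScalars k = C :=
    IntermediateField.adjoin_adjoin_left k (Set.range Z) T
  have hCsep : ∀ x ∈ C, IsSeparable K x := by
    intro x hx
    have h1 : x ∈ IntermediateField.adjoin K T := by
      rw [← hCK] at hx
      exact hx
    have h2 : IntermediateField.adjoin K T ≤ separableClosure K W := by
      rw [IntermediateField.adjoin_le_iff]
      rintro _ ⟨g, hg, rfl⟩
      exact mem_separableClosure_iff.2 (he g hg).2.2.1
    exact mem_separableClosure_iff.1 (h2 h1)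
  have hCalg : ∀ x ∈ C, IsAlgebraic K x := fun x hx => (hCsep x hx).isIntegral.isAlgebraic
  have hCu : ∀ x ∈ C, x ≠ 0 → ‖x‖ = 1 := fun x hx h0 => unit_of_algebraic K hKu (hCalg x hx) h0
  have hCn : ∀ x ∈ C, ‖x‖ ≤ 1 := by
    intro x hx
    by_cases h : x = 0
    · rw [h, norm_zero]
      exact zero_le_one
    · exact (hCu x hx h).le
  have hZC : ∀ i, Z i ∈ C := fun i => IntermediateField.subset_adjoin _ _ (Or.inl ⟨i, rfl⟩)
  have heC : ∀ g ∈ G, e g ∈ C := fun g hg =>
    IntermediateField.subset_adjoin _ _ (Or.inr ⟨g, hg, rfl⟩)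
  have hKC : K ≤ C := by
    rw [hK, IntermediateField.adjoin_le_iff]
    rintro _ ⟨i, rfl⟩
    exact hZC i
  have r1 : ∀ z ∈ A, ∃ c ∈ C, ‖z - c‖ < 1 := by
    let B1 : Subring W :=
      { carrier := {z | ‖z‖ ≤ 1 ∧ ∃ c ∈ C, ‖z - c‖ < 1}
        mul_mem' := by
          rintro a b ⟨ha, c, hc, hac⟩ ⟨hb, d, hd, hbd⟩
          refine ⟨?_, c * d, C.mul_mem hc hd, ?_⟩
          · rw [norm_mul]
            exact mul_le_one₀ ha (norm_nonneg _) hb
          · have h1 : a * b - c * d = a * (b - d) + (a - c) * d := by ring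
            rw [h1]
            refine lt_of_le_of_lt (IsUltrametricDist.norm_add_le_max _ _) (max_lt ?_ ?_)
            · rw [norm_mul]
              exact lt_of_le_of_lt (mul_le_of_le_one_left (norm_nonneg _) ha) hbd
            · rw [norm_mul]
              exact lt_of_le_of_lt (mul_le_of_le_one_right (norm_nonneg _) (hCn d hd)) hac
        one_mem' := ⟨by rw [norm_one], 1, C.one_mem, by rw [sub_self, norm_zero]; exact one_pos⟩
        add_mem' := by
          rintro a b ⟨ha, c, hc, hac⟩ ⟨hb, d, hd, hbd⟩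
          refine ⟨(IsUltrametricDist.norm_add_le_max _ _).trans (max_le ha hb), c + d,
            C.add_mem hc hd, ?_⟩
          have h1 : a + b - (c + d) = (a - c) + (b - d) := by ring
          rw [h1]
          exact lt_of_le_of_lt (IsUltrametricDist.norm_add_le_max _ _) (max_lt hac hbd)
        zero_mem' := ⟨by rw [norm_zero]; exact zero_le_one, 0, C.zero_mem, by
          rw [sub_self, norm_zero]; exact one_pos⟩
        neg_mem' := by
          rintro a ⟨ha, c, hc, hac⟩
          refine ⟨by rw [norm_neg]; exact ha, -c, C.neg_mem hc, ?_⟩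
          have h1 : -a - -c = -(a - c) := by ring
          rw [h1, norm_neg]
          exact hac }
    have hBB : B ≤ B1 := by
      rw [hBdef, Subring.closure_le]
      rintro z (⟨c, rfl⟩ | hz)
      · exact ⟨hkn c, algebraMap k W c, C.algebraMap_mem c, by
          rw [sub_self, norm_zero]; exact one_pos⟩
      · exact ⟨(hG z hz).2.2, e z, heC z hz, (he z hz).2.2.2⟩
    intro z hz
    rw [hAdef] at hz
    obtain ⟨a, ha, b, hb, hb1, h⟩ := hz
    rw [ball_val_eq_one] at hb1
    obtain ⟨ha1, ca, hca, hac⟩ := hBB ha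
    obtain ⟨-, cb, hcb, hbc⟩ := hBB hb
    have hcb1 : ‖cb‖ = 1 := by
      rw [cf_eq (a := b) (b := cb) (by rw [hb1]; exact hbc), hb1]
    have hb0 : b ≠ 0 := by
      rintro rfl
      rw [norm_zero] at hb1
      exact zero_ne_one hb1
    have hcb0 : cb ≠ 0 := by
      rintro rfl
      rw [norm_zero] at hcb1
      exact zero_ne_one hcb1
    refine ⟨ca / cb, C.div_mem hca hcb, ?_⟩
    have h1 : z - ca / cb = ((a - ca) * cb - ca * (b - cb)) / (b * cb) := by
      rw [← h]
      field_simp
      ring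
    rw [h1, norm_div, norm_mul, hb1, hcb1, mul_one, div_one]
    refine lt_of_le_of_lt cf_sub_le (max_lt ?_ ?_)
    · rw [norm_mul, hcb1, mul_one]
      exact hac
    · rw [norm_mul]
      exact lt_of_le_of_lt (mul_le_of_le_one_left (norm_nonneg _) (hCn ca hca)) hbc
  have r2 : ∀ c ∈ C, ∃ z ∈ A, ‖z - c‖ < 1 := by
    intro c hc
    rw [hC] at hc
    induction hc using IntermediateField.adjoin_induction with
    | mem x hx =>
      rcases hx with ⟨i, rfl⟩ | ⟨g, hg, rfl⟩
      · exact ⟨Z i, hZ i, by rw [sub_self, norm_zero]; exact one_pos⟩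
      · exact ⟨g, hGA g hg, (he g hg).2.2.2⟩
    | algebraMap x => exact ⟨algebraMap k W x, hkA x, by rw [sub_self, norm_zero]; exact one_pos⟩
    | add x y hx hy h1 h2 =>
      obtain ⟨a, ha, hax⟩ := h1
      obtain ⟨b, hb, hby⟩ := h2
      refine ⟨a + b, add_mem ha hb, ?_⟩
      have h3 : a + b - (x + y) = (a - x) + (b - y) := by ring
      rw [h3]
      exact lt_of_le_of_lt (IsUltrametricDist.norm_add_le_max _ _) (max_lt hax hby)
    | inv x hx h1 =>
      obtain ⟨a, ha, hax⟩ := h1
      by_cases hx0 : x = 0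
      · refine ⟨0, zero_mem _, ?_⟩
        rw [hx0, inv_zero, sub_self, norm_zero]
        exact one_pos
      · have hx1 := hCu x hx hx0
        have ha1 : ‖a‖ = 1 := by
          rw [cf_eq (a := x) (b := a) (by rw [norm_sub_rev, hx1]; exact hax), hx1]
        have ha0 : a ≠ 0 := by
          rintro rfl
          rw [norm_zero] at ha1
          exact zero_ne_one ha1
        refine ⟨a⁻¹, hAinv a ha ha1, ?_⟩
        have h3 : a⁻¹ - x⁻¹ = -(a - x) / (a * x) := by
          field_simp
          ring
        rw [h3, norm_div, norm_neg, norm_mul, ha1, hx1, mul_one, div_one]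
        exact hax
    | mul x y hx hy h1 h2 =>
      obtain ⟨a, ha, hax⟩ := h1
      obtain ⟨b, hb, hby⟩ := h2
      refine ⟨a * b, mul_mem ha hb, ?_⟩
      have h3 : a * b - x * y = a * (b - y) + (a - x) * y := by ring
      rw [h3]
      refine lt_of_le_of_lt (IsUltrametricDist.norm_add_le_max _ _) (max_lt ?_ ?_)
      · rw [norm_mul]
        exact lt_of_le_of_lt (mul_le_of_le_one_left (norm_nonneg _) (hAn a ha)) hby
      · rw [norm_mul]
        exact lt_of_le_of_lt (mul_le_of_le_one_right (norm_nonneg _) (hCn y hy)) hax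
  refine ⟨C, ?_, ⟨hCu, ?_, ?_⟩, hZC, r1, r2, hCsep, ?_⟩
  · rw [hC, IntermediateField.adjoin_le_iff]
    rintro _ (⟨i, rfl⟩ | ⟨g, hg, rfl⟩)
    · exact ⟨hAS _ (hZ i), hAL0 _ (hZ i)⟩
    · exact ⟨(he g hg).2.1, (he g hg).1⟩
  · exact IntermediateField.fg_adjoin_of_finite
      ((Set.finite_range Z).union (G.finite_toSet.image e))
  · refine cf_trdeg Z (fun P hP h0 => ?_) C hZC hCalg
    have := hZi P hP
    rw [h0, norm_zero] at this
    exact zero_ne_one this
  · intro g hg
    obtain ⟨c, hc, hgc⟩ := r1 g hg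
    have hs := hCsep c hc
    refine ⟨c, hc, minpoly K c, minpoly.aeval K c, hgc, ?_⟩
    have h0 : Polynomial.aeval c (minpoly K c).derivative ≠ 0 :=
      Polynomial.Separable.aeval_derivative_ne_zero hs (minpoly.aeval K c)
    have hmem : Polynomial.aeval c (minpoly K c).derivative ∈ C := by
      rw [hev, Polynomial.eval_eq_sum_range]
      exact C.sum_mem fun j _ => C.mul_mem (hKC (hcf _ j)) (pow_mem hc j)
    have h1 := hCu _ hmem h0
    rw [hev, hder] at h1 ⊢
    have hd := norm_eval_sub_le ((minpoly K c).map (algebraMap K W)).derivative (fun j => by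
        rw [← hder]; exact hKn _ (hcf _ j)) (hCn c hc) (hAn g hg)
    have h2 := cf_eq (a := ((minpoly K c).map (algebraMap K W)).derivative.eval c)
      (b := ((minpoly K c).map (algebraMap K W)).derivative.eval g) (by
        rw [h1]
        refine lt_of_le_of_lt hd ?_
        rw [norm_sub_rev]
        exact hgc)
    rw [h2, h1]

end Pool.Agent.Lib.TU
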