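import Pool.Agent.Lib.TU.HenU

/-!
# Module ResFld: lifting a separating transcendence basis of the residue field
-/

namespace Pool.Agent.Lib.TU

open Pool.Agent.Lib.MP_3029eb_ag Pool.Agent.Lib.MP_3029eb_ag.Abh Pool.Agent.Lib.TDO

/-- a separating transcendence basis with `m` elements -/
private theorem rf_core {k κ : Type} [Field k] [PerfectField k] [Field κ] [Algebra k κ] {m : ℕ}
    (hres : ∀ z : Fin (m + 1) → κ, ¬ AlgebraicIndependent k z)
    (S : Set κ) (hS : S.Finite) (v : Fin m → κ) (hv : ∀ i, v i ∈ IntermediateField.adjoin k S)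
    (hvi : AlgebraicIndependent k v) :
    ∃ z : Fin m → κ, (∀ i, z i ∈ IntermediateField.adjoin k S) ∧ AlgebraicIndependent k z ∧
      ∀ g ∈ IntermediateField.adjoin k S, ∃ p : Polynomial κ, p.Monic ∧
        (∀ n, p.coeff n ∈ IntermediateField.adjoin k (Set.range z)) ∧ p.eval g = 0 ∧
        p.derivative.eval g ≠ 0 := by
  classical
  set K1 := IntermediateField.adjoin k S with hK1
  have hfg : Algebra.EssFiniteType k K1 := by
    rw [IntermediateField.essFiniteType_iff]
    exact IntermediateField.fg_adjoin_of_finite hS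
  obtain ⟨s, hs, hsep⟩ := exists_isTranscendenceBasis_and_isSeparable_of_perfectField k K1
  have hinj : Function.Injective (K1.val) := K1.val.toRingHom.injective
  have hind : AlgebraicIndependent k (fun x : s => ((x : K1) : κ)) := hs.1.map' hinj
  -- the number of elements
  have hcard : s.card = m := by
    apply le_antisymm
    · by_contra hcon
      have hc : Fintype.card (Fin (m + 1)) ≤ Fintype.card s := by
        rw [Fintype.card_fin, Fintype.card_coe]
        omega
      obtain ⟨e⟩ := Function.Embedding.nonempty_of_card_le hc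
      exact hres _ (hind.comp e e.injective)
    · have hv' : AlgebraicIndependent k (fun i => (⟨v i, hv i⟩ : K1)) := by
        apply AlgebraicIndependent.of_comp K1.val
        exact hvi
      have h1 := hv'.cardinalMk_le_trdeg
      rw [← hs.cardinalMk_eq_trdeg] at h1
      simp only [Cardinal.mk_fintype, Fintype.card_fin, Fintype.card_coe, Nat.cast_le] at h1
      exact h1
  let e : Fin m ≃ s := (finCongr hcard.symm).trans s.equivFin.symm
  refine ⟨fun i => ((e i : K1) : κ), fun i => (e i : K1).2, hind.comp e e.injective, ?_⟩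
  intro g hg
  have hrange : ∀ x : IntermediateField.adjoin k (s : Set K1),
      ((x : K1) : κ) ∈ IntermediateField.adjoin k (Set.range fun i => ((e i : K1) : κ)) := by
    have hle : IntermediateField.adjoin k (s : Set K1) ≤
        (IntermediateField.adjoin k (Set.range fun i => ((e i : K1) : κ))).comap K1.val := by
      rw [IntermediateField.adjoin_le_iff]
      intro x hx
      apply IntermediateField.subset_adjoin
      refine ⟨e.symm ⟨x, hx⟩, ?_⟩
      simp only [Equiv.apply_symm_apply]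
      rfl
    intro x
    exact hle x.2
  let ψ : IntermediateField.adjoin k (s : Set K1) →+* κ :=
    (algebraMap K1 κ).comp (algebraMap (IntermediateField.adjoin k (s : Set K1)) K1)
  have hsg : IsSeparable (IntermediateField.adjoin k (s : Set K1)) (⟨g, hg⟩ : K1) :=
    Algebra.IsSeparable.isSeparable _ _
  have hint := hsg.isIntegral
  have hev : ∀ q : Polynomial (IntermediateField.adjoin k (s : Set K1)),
      (q.map ψ).eval g = algebraMap K1 κ (Polynomial.aeval (⟨g, hg⟩ : K1) q) := by
    intro q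
    rw [Polynomial.aeval_def, Polynomial.hom_eval₂, Polynomial.eval_map]
    rfl
  refine ⟨(minpoly (IntermediateField.adjoin k (s : Set K1)) (⟨g, hg⟩ : K1)).map ψ,
    (minpoly.monic hint).map ψ, ?_, ?_, ?_⟩
  · intro n
    rw [Polynomial.coeff_map]
    exact hrange _
  · rw [hev, minpoly.aeval, map_zero]
  · rw [Polynomial.derivative_map, hev]
    intro h0
    have h1 := (map_eq_zero_iff _ (algebraMap K1 κ).injective).1 h0
    exact hsg.aeval_derivative_ne_zero (minpoly.aeval _ _) h1

section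

variable {k W : Type} [Field k] [NormedField W] [IsUltrametricDist W] [Algebra k W]

private theorem rf_val {z : W} : (ball W).valuation z = 1 ↔ ‖z‖ = 1 := by
  have h1 : (ball W).valuation z ≤ 1 ↔ ‖z‖ ≤ 1 := (ball W).valuation_le_one_iff z
  constructor
  · intro h
    have hz : z ≠ 0 := by
      rintro rfl
      rw [map_zero] at h
      exact zero_ne_one h
    apply le_antisymm (h1.1 h.le)
    have h2 : (ball W).valuation z⁻¹ ≤ 1 := by rw [map_inv₀, h, inv_one]
    have h3 : ‖z⁻¹‖ ≤ 1 := ((ball W).valuation_le_one_iff _).1 h2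
    rw [norm_inv] at h3
    exact (inv_le_one₀ (norm_pos_iff.2 hz)).1 h3
  · intro h
    have hz : z ≠ 0 := by
      rintro rfl
      rw [norm_zero] at h
      exact zero_ne_one h
    apply le_antisymm (h1.2 h.le)
    have h3 : ‖z⁻¹‖ ≤ 1 := by rw [norm_inv, h, inv_one]
    have h2 : (ball W).valuation z⁻¹ ≤ 1 := ((ball W).valuation_le_one_iff _).2 h3
    rw [map_inv₀] at h2
    have hv0 : (ball W).valuation z ≠ 0 := (map_ne_zero _).2 hz
    exact (inv_le_one₀ (zero_lt_iff.2 hv0)).1 h2

private theorem rf_res {z : ball W} : IsLocalRing.residue (ball W) z = 0 ↔ ‖(z : W)‖ < 1 := by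
  rw [IsLocalRing.residue_eq_zero_iff, IsLocalRing.mem_maximalIdeal, mem_nonunits_iff]
  constructor
  · intro h
    refine lt_of_le_of_ne z.2 ?_
    intro h1
    apply h
    have hz : (z : W) ≠ 0 := by
      intro h0
      rw [h0, norm_zero] at h1
      exact zero_ne_one h1
    have hinv : (z : W)⁻¹ ∈ ball W := by
      rw [mem_ball, norm_inv, h1, inv_one]
    refine IsUnit.of_mul_eq_one ⟨(z : W)⁻¹, hinv⟩ ?_
    apply Subtype.ext
    exact mul_inv_cancel₀ hz
  · intro h hu
    obtain ⟨u, hu⟩ := hu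
    have h1 : (u : ball W) * ((u⁻¹ : (ball W)ˣ) : ball W) = 1 := Units.mul_inv u
    have h2 : ((u : ball W) : W) * (((u⁻¹ : (ball W)ˣ) : ball W) : W) = 1 := congrArg Subtype.val h1
    have h3 : ‖(z : W)‖ * ‖(((u⁻¹ : (ball W)ˣ) : ball W) : W)‖ = 1 := by
      rw [← hu, ← norm_mul, h2, norm_one]
    have h4 : ‖(((u⁻¹ : (ball W)ˣ) : ball W) : W)‖ ≤ 1 := ((u⁻¹ : (ball W)ˣ) : ball W).2
    have h5 : ‖(z : W)‖ * ‖(((u⁻¹ : (ball W)ˣ) : ball W) : W)‖ < 1 := by
      calc ‖(z : W)‖ * ‖(((u⁻¹ : (ball W)ˣ) : ball W) : W)‖ ≤ ‖(z : W)‖ * 1 :=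
            mul_le_mul_of_nonneg_left h4 (norm_nonneg _)
        _ = ‖(z : W)‖ := mul_one _
        _ < 1 := h
    exact absurd h3 h5.ne

end

/-- See the header. -/
theorem res_basis {k W : Type} [Field k] [PerfectField k] [NormedField W] [IsUltrametricDist W]
    [Algebra k W] {r m : ℕ} (hA : AmbG r m k W) (G : Finset W) (hG : ∀ g ∈ G, ‖g‖ ≤ 1)
    (A : Subring W)
    (hAdef : A = locV (ball W) (Subring.closure (Set.range (algebraMap k W) ∪ (G : Set W))))
    (v : Fin m → W) (hv : ∀ i, v i ∈ A)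
    (hvi : ∀ P : MvPolynomial (Fin m) k, P ≠ 0 → ‖MvPolynomial.aeval v P‖ = 1) :
    ∃ Z : Fin m → W, (∀ i, Z i ∈ A) ∧
      (∀ P : MvPolynomial (Fin m) k, P ≠ 0 → ‖MvPolynomial.aeval Z P‖ = 1) ∧
      ∀ g ∈ A, ∃ h : Polynomial (IntermediateField.adjoin k (Set.range Z)), h.Monic ∧
        ‖Polynomial.aeval g h‖ < 1 ∧ ‖Polynomial.aeval g h.derivative‖ = 1 := by
  classical
  -- the structure maps
  have hk1 : ∀ c : k, ‖algebraMap k W c‖ ≤ 1 := by
    intro c
    by_cases hc : c = 0
    · rw [hc, map_zero, norm_zero]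
      exact zero_le_one
    · exact (hA.unit c hc).le
  let kV : k →+* ball W := (algebraMap k W).codRestrict (ball W) (fun c => hk1 c)
  let ρ : ball W →+* IsLocalRing.ResidueField (ball W) := IsLocalRing.residue (ball W)
  let iB : Algebra k (IsLocalRing.ResidueField (ball W)) := (ρ.comp kV).toAlgebra
  have hρ : ∀ z : ball W, ρ z = 0 ↔ ‖(z : W)‖ < 1 := fun z => rf_res
  have hρs : Function.Surjective ρ := IsLocalRing.residue_surjective
  -- evaluation of polynomials
  have ev1 : ∀ {n : ℕ} (z : Fin n → ball W) (P : MvPolynomial (Fin n) k),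
      ((MvPolynomial.eval₂ kV z P : ball W) : W) = MvPolynomial.aeval (fun i => (z i : W)) P := by
    intro n z P
    exact MvPolynomial.eval₂_comp_left (ball W).subtype kV z P
  have ev2 : ∀ {n : ℕ} (z : Fin n → ball W) (P : MvPolynomial (Fin n) k),
      ρ (MvPolynomial.eval₂ kV z P) = MvPolynomial.aeval (fun i => ρ (z i)) P := by
    intro n z P
    exact MvPolynomial.eval₂_comp_left ρ kV z P
  -- `m + 1` residues are dependent
  have hres : ∀ z : Fin (m + 1) → IsLocalRing.ResidueField (ball W), ¬ AlgebraicIndependent k z := by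
    intro z hz
    choose z' hz' using fun i => hρs (z i)
    obtain ⟨P, hP0, hP1⟩ := hA.res (fun i => (z' i : W)) (fun i => (z' i).2)
    rw [← ev1, ← hρ, ev2] at hP1
    have e : (fun i => ρ (z' i)) = z := funext hz'
    rw [e] at hP1
    rw [algebraicIndependent_iff] at hz
    exact hP0 (hz P hP1)
  -- the ring `A`
  have hcl : ∀ z ∈ Subring.closure (Set.range (algebraMap k W) ∪ (G : Set W)), ‖z‖ ≤ 1 := by
    have hle : Subring.closure (Set.range (algebraMap k W) ∪ (G : Set W)) ≤ (ball W).toSubring := by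
      rw [Subring.closure_le]
      rintro z (⟨c, rfl⟩ | hz)
      · exact hk1 c
      · exact hG z hz
    exact fun z hz => hle hz
  have hA1 : ∀ z ∈ A, ‖z‖ ≤ 1 := by
    intro z hz
    rw [hAdef] at hz
    obtain ⟨a, ha, b, hb, hb1, h⟩ := hz
    rw [rf_val] at hb1
    have := hcl a ha
    rw [← h, norm_mul, hb1, mul_one] at this
    exact this
  have hclA : ∀ z ∈ Subring.closure (Set.range (algebraMap k W) ∪ (G : Set W)), z ∈ A := by
    intro z hz
    rw [hAdef]
    exact ⟨z, hz, 1, one_mem _, map_one _, mul_one z⟩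
  have hAinv : ∀ z ∈ A, ‖z‖ = 1 → z⁻¹ ∈ A := by
    intro z hz hz1
    rw [hAdef] at hz ⊢
    obtain ⟨a, ha, b, hb, hb1, h⟩ := hz
    have hz0 : z ≠ 0 := by
      rintro rfl
      rw [norm_zero] at hz1
      exact zero_ne_one hz1
    refine ⟨b, hb, a, ha, ?_, ?_⟩
    · rw [rf_val] at hb1 ⊢
      rw [← h, norm_mul, hz1, hb1, mul_one]
    · rw [← h, ← mul_assoc, inv_mul_cancel₀ hz0, one_mul]
  -- the generators of the residue field
  let S : Set (IsLocalRing.ResidueField (ball W)) := {x | ∃ g ∈ G, ∃ h : ‖g‖ ≤ 1, x = ρ ⟨g, h⟩}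
  have hS : S.Finite := by
    have : S ⊆ (G.attach.image (fun g => ρ ⟨g.1, hG g.1 g.2⟩) : Finset _) := by
      rintro x ⟨g, hg, h, rfl⟩
      exact Finset.mem_coe.2 (Finset.mem_image.2 ⟨⟨g, hg⟩, Finset.mem_attach _ _, rfl⟩)
    exact (Finset.finite_toSet _).subset this
  have hres1 : ∀ z ∈ Subring.closure (Set.range (algebraMap k W) ∪ (G : Set W)), ∀ h : ‖z‖ ≤ 1,
      ρ ⟨z, h⟩ ∈ IntermediateField.adjoin k S := by
    have hle : Subring.closure (Set.range (algebraMap k W) ∪ (G : Set W)) ≤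
        ((IntermediateField.adjoin k S).toSubfield.toSubring.comap ρ).map (ball W).subtype := by
      rw [Subring.closure_le]
      rintro z (⟨c, rfl⟩ | hz)
      · refine ⟨kV c, ?_, rfl⟩
        exact (IntermediateField.adjoin k S).algebraMap_mem c
      · refine ⟨⟨z, hG z hz⟩, ?_, rfl⟩
        exact IntermediateField.subset_adjoin k S ⟨z, hz, hG z hz, rfl⟩
    intro z hz h
    obtain ⟨z', hz', e⟩ := hle hz
    have e' : z' = ⟨z, h⟩ := Subtype.ext e
    rw [← e']
    exact hz'
  have hres2 : ∀ z ∈ A, ∀ h : ‖z‖ ≤ 1, ρ ⟨z, h⟩ ∈ IntermediateField.adjoin k S := by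
    intro z hz h
    rw [hAdef] at hz
    obtain ⟨a, ha, b, hb, hb1, hab⟩ := hz
    rw [rf_val] at hb1
    have e : ρ ⟨z, h⟩ * ρ ⟨b, hb1.le⟩ = ρ ⟨a, hcl a ha⟩ := by
      rw [← map_mul]
      apply congrArg
      exact Subtype.ext hab
    have hb0 : ρ ⟨b, hb1.le⟩ ≠ 0 := by
      intro h0
      rw [hρ] at h0
      exact absurd hb1 h0.ne
    rw [eq_div_of_mul_eq hb0 e]
    exact div_mem (hres1 a ha _) (hres1 b hb _)
  have hlift : ∀ x ∈ IntermediateField.adjoin k S, ∃ z ∈ A, ∃ h : ‖z‖ ≤ 1, ρ ⟨z, h⟩ = x := by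
    intro x hx
    induction hx using IntermediateField.adjoin_induction with
    | mem x hx =>
      obtain ⟨g, hg, h, rfl⟩ := hx
      exact ⟨g, hclA g (Subring.subset_closure (Or.inr hg)), h, rfl⟩
    | algebraMap c =>
      exact ⟨algebraMap k W c, hclA _ (Subring.subset_closure (Or.inl ⟨c, rfl⟩)), hk1 c, rfl⟩
    | add x y hx hy ihx ihy =>
      obtain ⟨z, hz, h, e⟩ := ihx
      obtain ⟨z', hz', h', e'⟩ := ihy
      refine ⟨z + z', add_mem hz hz', hA1 _ (add_mem hz hz'), ?_⟩
      rw [← e, ← e', ← map_add]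
      rfl
    | inv x hx ih =>
      obtain ⟨z, hz, h, e⟩ := ih
      by_cases hx0 : x = 0
      · refine ⟨0, zero_mem _, by rw [norm_zero]; exact zero_le_one, ?_⟩
        rw [hx0, inv_zero]
        exact map_zero ρ
      · have hz1 : ‖z‖ = 1 := by
          apply le_antisymm h
          by_contra hcon
          exact hx0 (by rw [← e, hρ]; exact not_le.1 hcon)
        have hz0 : z ≠ 0 := by
          rintro rfl
          rw [norm_zero] at hz1
          exact zero_ne_one hz1
        have hi : ‖z⁻¹‖ ≤ 1 := by rw [norm_inv, hz1, inv_one]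
        refine ⟨z⁻¹, hAinv z hz hz1, hi, ?_⟩
        apply eq_inv_of_mul_eq_one_left
        rw [← e, ← map_mul, ← map_one ρ]
        apply congrArg
        exact Subtype.ext (inv_mul_cancel₀ hz0)
    | mul x y hx hy ihx ihy =>
      obtain ⟨z, hz, h, e⟩ := ihx
      obtain ⟨z', hz', h', e'⟩ := ihy
      refine ⟨z * z', mul_mem hz hz', hA1 _ (mul_mem hz hz'), ?_⟩
      rw [← e, ← e', ← map_mul]
      rfl
  -- a polynomial of norm one at lifts
  have hindep : ∀ {n : ℕ} (z : Fin n → ball W),
      AlgebraicIndependent k (fun i => ρ (z i)) ↔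
        ∀ P : MvPolynomial (Fin n) k, P ≠ 0 → ‖MvPolynomial.aeval (fun i => (z i : W)) P‖ = 1 := by
    intro n z
    rw [algebraicIndependent_iff]
    constructor
    · intro h P hP
      rw [← ev1]
      apply le_antisymm (MvPolynomial.eval₂ kV z P : ball W).2
      by_contra hcon
      apply hP
      apply h
      rw [← ev2, hρ]
      exact not_le.1 hcon
    · intro h P hP
      by_contra hP0
      have h1 := h P hP0
      rw [← ev2, hρ, ev1] at hP
      exact absurd h1 hP.ne
  obtain ⟨z, hz1, hz2, hz3⟩ := rf_core hres S hS (fun i => ρ ⟨v i, hA1 _ (hv i)⟩)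
    (fun i => hres2 _ (hv i) _) ((hindep (fun i => ⟨v i, hA1 _ (hv i)⟩)).2 hvi)
  choose Z hZA hZ1 hZ using fun i => hlift (z i) (hz1 i)
  have hZe : (fun i => ρ ⟨Z i, hZ1 i⟩) = z := funext hZ
  have hZP : ∀ P : MvPolynomial (Fin m) k, P ≠ 0 → ‖MvPolynomial.aeval Z P‖ = 1 :=
    (hindep (fun i => ⟨Z i, hZ1 i⟩)).1 (by rw [hZe]; exact hz2)
  refine ⟨Z, hZA, hZP, ?_⟩
  intro g hg
  obtain ⟨p, hpm, hpc, hp0, hp1⟩ := hz3 _ (hres2 g hg (hA1 g hg))
  -- the field `k(Z)` is contained in the unit ball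
  have hF : ∀ x ∈ IntermediateField.adjoin k (Set.range Z), ‖x‖ ≤ 1 := by
    intro x hx
    rw [IntermediateField.mem_adjoin_range_iff] at hx
    obtain ⟨a, b, rfl⟩ := hx
    by_cases hb : b = 0
    · rw [hb, map_zero, div_zero, norm_zero]
      exact zero_le_one
    · rw [norm_div, hZP b hb, div_one]
      by_cases ha : a = 0
      · rw [ha, map_zero, norm_zero]
        exact zero_le_one
      · exact (hZP a ha).le
  let ι : IntermediateField.adjoin k (Set.range Z) →+* ball W :=
    (algebraMap (IntermediateField.adjoin k (Set.range Z)) W).codRestrict (ball W) (fun x => hF x x.2)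
  have hev : ∀ q : Polynomial (IntermediateField.adjoin k (Set.range Z)),
      ((q.eval₂ ι ⟨g, hA1 g hg⟩ : ball W) : W) = Polynomial.aeval g q := by
    intro q
    exact Polynomial.hom_eval₂ q ι (ball W).subtype _
  have hev' : ∀ q : Polynomial (IntermediateField.adjoin k (Set.range Z)),
      ρ (q.eval₂ ι ⟨g, hA1 g hg⟩) = (q.map (ρ.comp ι)).eval (ρ ⟨g, hA1 g hg⟩) := by
    intro q
    rw [Polynomial.hom_eval₂, Polynomial.eval_map]
  have hlf : p ∈ Polynomial.lifts (ρ.comp ι) := by
    rw [Polynomial.lifts_iff_coeff_lifts]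
    intro n
    have hc := hpc n
    generalize p.coeff n = c at hc
    show c ∈ (ρ.comp ι).fieldRange
    induction hc using IntermediateField.adjoin_induction with
    | mem x hx =>
      obtain ⟨i, rfl⟩ := hx
      refine ⟨⟨Z i, IntermediateField.subset_adjoin k _ ⟨i, rfl⟩⟩, ?_⟩
      exact hZ i
    | algebraMap c => exact ⟨algebraMap k _ c, rfl⟩
    | add x y hx hy ihx ihy => exact add_mem ihx ihy
    | inv x hx ih => exact inv_mem ih
    | mul x y hx hy ihx ihy => exact mul_mem ihx ihy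
  obtain ⟨h, hh1, -, hh2⟩ := Polynomial.lifts_and_natDegree_eq_and_monic hlf hpm
  refine ⟨h, hh2, ?_, ?_⟩
  · rw [← hev, ← hρ, hev', hh1]
    exact hp0
  · rw [← hev]
    apply le_antisymm (h.derivative.eval₂ ι ⟨g, hA1 g hg⟩ : ball W).2
    by_contra hcon
    apply hp1
    rw [← hh1, Polynomial.derivative_map, ← hev', hρ]
    exact not_le.1 hcon

end Pool.Agent.Lib.TU
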