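import Pool.Agent.Lib.TU.MdlB
import Pool.Agent.Lib.MP_3029eb_ag.AbhBase

/-!
# Module HOb: basic properties of the ring `HO M c`

`mem_HO_iff`: the union of the models is a subring by `Mdl.union`.
-/

namespace Pool.Agent.Lib.TU

open Pool.Agent.Lib.MP_3029eb_ag Pool.Agent.Lib.MP_3029eb_ag.Abh Pool.Agent.Lib.TDO

variable {k W : Type} [Field k] [NormedField W] [IsUltrametricDist W] [Algebra k W] {r m : ℕ}
  {M : IntermediateField k W} {c : Tri k W r}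

private theorem hob_pair (hok : Ok m M c) {z w : W} {x1 x2 : Fin r → W} {G1 G2 : Finset W}
    (h1 : Mdl M c x1 G1) (hz : z ∈ Bu c x1 G1) (h2 : Mdl M c x2 G2) (hw : w ∈ Bu c x2 G2) :
    ∃ (x' : Fin r → W) (G : Finset W), Mdl M c x' G ∧ z ∈ Bu c x' G ∧ w ∈ Bu c x' G := by
  classical
  obtain ⟨x3, -, -, h3, h4, h5⟩ := Mdl.union hok h1 h2
  exact ⟨x3, G1 ∪ G2, h3, h4 z hz, h5 w hw⟩

theorem mem_HO_iff (hok : Ok m M c) (z : W) :
    z ∈ HO M c ↔ ∃ (x' : Fin r → W) (G : Finset W), Mdl M c x' G ∧ z ∈ Bu c x' G := by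
  constructor
  · intro hz
    unfold HO at hz
    induction hz using Subring.closure_induction with
    | mem w hw => exact hw
    | zero => exact ⟨c.x, ∅, Mdl.triv hok, zero_mem _⟩
    | one => exact ⟨c.x, ∅, Mdl.triv hok, one_mem _⟩
    | add a b _ _ ha hb =>
      obtain ⟨x1, G1, h1, hz1⟩ := ha
      obtain ⟨x2, G2, h2, hz2⟩ := hb
      obtain ⟨x', G, h, hz, hw⟩ := hob_pair hok h1 hz1 h2 hz2
      exact ⟨x', G, h, add_mem hz hw⟩
    | neg a _ ha =>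
      obtain ⟨x1, G1, h1, hz1⟩ := ha
      exact ⟨x1, G1, h1, neg_mem hz1⟩
    | mul a b _ _ ha hb =>
      obtain ⟨x1, G1, h1, hz1⟩ := ha
      obtain ⟨x2, G2, h2, hz2⟩ := hb
      obtain ⟨x', G, h, hz, hw⟩ := hob_pair hok h1 hz1 h2 hz2
      exact ⟨x', G, h, mul_mem hz hw⟩
  · intro hz
    exact Subring.subset_closure hz

private theorem hob_common (hok : Ok m M c) (Z : Finset W) (hZ : ∀ z ∈ Z, z ∈ HO M c) :
    ∃ (x' : Fin r → W) (G : Finset W), Mdl M c x' G ∧ ∀ z ∈ Z, z ∈ Bu c x' G := by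
  classical
  induction Z using Finset.induction_on with
  | empty => exact ⟨c.x, ∅, Mdl.triv hok, fun z hz => absurd hz (Finset.notMem_empty z)⟩
  | insert a s ha ih =>
    obtain ⟨x1, G1, h1, h2⟩ := ih fun z hz => hZ z (Finset.mem_insert_of_mem hz)
    obtain ⟨x2, G2, h3, h4⟩ := (mem_HO_iff hok a).1 (hZ a (Finset.mem_insert_self a s))
    obtain ⟨x3, -, -, h5, h6, h7⟩ := Mdl.union hok h1 h3
    refine ⟨x3, G1 ∪ G2, h5, fun z hz => ?_⟩
    rcases Finset.mem_insert.1 hz with rfl | hz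
    · exact h7 _ h4
    · exact h6 _ (h2 z hz)

/-- Every finite subset of `HO M c` lies in a model such that finitely many given monomials of norm
`≤ 1` (`< 1`) are monomials in `x'` with exponents `≥ 0` (`≥ 1`), and which contains a given finite
subset of `M ∩ HO` among its generators. -/
theorem exists_model (hok : Ok m M c) (Z : Finset W) (hZ : ∀ z ∈ Z, z ∈ HO M c)
    (Y : Finset (Fin r → ℤ)) (hY : ∀ a ∈ Y, ‖mon c.x a‖ ≤ 1) :
    ∃ (x' : Fin r → W) (G : Finset W), Mdl M c x' G ∧ (∀ z ∈ Z, z ∈ Bu c x' G) ∧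
      ∀ a ∈ Y, ∃ β : Fin r → ℕ, mon c.x a = monN x' β ∧ (‖mon c.x a‖ < 1 → ∀ i, 1 ≤ β i) := by
  classical
  obtain ⟨x1, G, h1, h2⟩ := hob_common hok Z hZ
  have h3 : ∀ a : Fin r → ℤ, ∃ a' : Fin r → ℤ, mon c.x a = mon x1 a' := fun a => Mt.mon_eq h1.mt a
  choose φ hφ using h3
  obtain ⟨x', h4, h5⟩ := exists_Mt h1.mt.ind (Y.image φ) (by
    intro a' ha'
    obtain ⟨a, ha, rfl⟩ := Finset.mem_image.1 ha'
    rw [← hφ]
    exact hY a ha)
  refine ⟨x', G, Mdl.refine hok h1 h4, fun z hz => Bu_refine hok h1 h4 (h2 z hz), fun a ha => ?_⟩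
  obtain ⟨β, hβ, hβ1⟩ := h5 (φ a) (Finset.mem_image_of_mem φ ha)
  rw [← hφ] at hβ hβ1
  exact ⟨β, hβ, hβ1⟩

theorem HO_norm_le (hok : Ok m M c) {z : W} (hz : z ∈ HO M c) : ‖z‖ ≤ 1 := by
  obtain ⟨x', G, h1, h2⟩ := (mem_HO_iff hok z).1 hz
  exact norm_le_of_mem_Bu hok h1.mt.ind (fun g hg => (h1.gM g hg).2) h2

theorem HO_mem_M (hok : Ok m M c) {z : W} (hz : z ∈ HO M c) : z ∈ M := by
  obtain ⟨x', G, h1, h2⟩ := (mem_HO_iff hok z).1 hz
  exact Mdl.mem_M hok h1 h2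

theorem C_mem_HO (hok : Ok m M c) {z : W} (hz : z ∈ c.C) : z ∈ HO M c :=
  (mem_HO_iff hok z).2 ⟨c.x, ∅, Mdl.triv hok,
    C_mem_Bu hok hok.par.ind (fun g hg => absurd hg (Finset.notMem_empty g)) hz⟩

theorem y_mem_HO (hok : Ok m M c) : c.y ∈ HO M c :=
  (mem_HO_iff hok _).2 ⟨c.x, ∅, Mdl.triv hok,
    y_mem_Bu hok hok.par.ind (fun g hg => absurd hg (Finset.notMem_empty g))⟩

/-- Every monomial of norm at most one is in `HO M c` (it is a monomial with exponents `≥ 0` in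
some `x'`). -/
theorem mon_mem_HO (hok : Ok m M c) {a : Fin r → ℤ} (ha : ‖mon c.x a‖ ≤ 1) :
    mon c.x a ∈ HO M c := by
  obtain ⟨x', G, h1, -, h2⟩ := exists_model hok ∅ (fun z hz => absurd hz (Finset.notMem_empty z))
    {a} (fun b hb => by rw [Finset.mem_singleton.1 hb]; exact ha)
  obtain ⟨β, hβ, -⟩ := h2 a (Finset.mem_singleton_self a)
  refine (mem_HO_iff hok _).2 ⟨x', G, h1, ?_⟩
  rw [hβ]
  exact monN_mem_Bu hok h1.mt.ind (fun g hg => (h1.gM g hg).2) β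

theorem inv_mem_HO (hok : Ok m M c) {z : W} (hz : z ∈ HO M c) (h1 : ‖z‖ = 1) : z⁻¹ ∈ HO M c := by
  obtain ⟨x', G, h2, h3⟩ := (mem_HO_iff hok z).1 hz
  exact (mem_HO_iff hok _).2 ⟨x', G, h2, inv_mem_Bu h3 h1⟩

theorem locV_HO (hok : Ok m M c) : locV (ball W) (HO M c) = HO M c := by
  ext z
  constructor
  · rintro ⟨a, ha, b, hb, hb1, hab⟩
    have h1 : ‖b‖ = 1 := (ball_val_eq_one b).1 hb1
    have hb0 : b ≠ 0 := norm_pos_iff.1 (by rw [h1]; exact one_pos)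
    have h2 : z = a * b⁻¹ := by rw [← hab, mul_assoc, mul_inv_cancel₀ hb0, mul_one]
    rw [h2]
    exact mul_mem ha (inv_mem_HO hok hb h1)
  · intro hz
    exact ⟨z, hz, 1, one_mem _, map_one _, mul_one z⟩

theorem QH_mem_HO (hok : Ok m M c) {z : W} (hz : z ∈ QH M c) : z ∈ HO M c := by
  obtain ⟨a, ha, h, hh, rfl⟩ := hz
  exact mul_mem (mon_mem_HO hok ha.le) hh

theorem QH_zero (hok : Ok m M c) (hr : 0 < r) : (0 : W) ∈ QH M c := by
  obtain ⟨N, -, hN⟩ := exists_mon_lt hr hok.par.ind 1 one_pos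
  exact ⟨N, hN, 0, zero_mem _, by rw [mul_zero]⟩

theorem QH_norm (hok : Ok m M c) {z : W} (hz : z ∈ QH M c) : ‖z‖ < 1 := by
  obtain ⟨a, ha, h, hh, rfl⟩ := hz
  rw [norm_mul]
  exact lt_of_le_of_lt (mul_le_of_le_one_right (norm_nonneg _) (HO_norm_le hok hh)) ha

private theorem hob_quot (hok : Ok m M c) {a b : Fin r → ℤ} (h : ‖mon c.x b‖ ≤ ‖mon c.x a‖) :
    mon c.x (b - a) ∈ HO M c ∧ mon c.x b = mon c.x a * mon c.x (b - a) := by
  have ha : mon c.x a ≠ 0 := mon_ne c.x hok.par.ind.ne a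
  have h1 : mon c.x b = mon c.x a * mon c.x (b - a) := by
    rw [← mon_add c.x hok.par.ind.ne]
    congr 1
    abel
  refine ⟨mon_mem_HO hok ?_, h1⟩
  rw [h1, norm_mul] at h
  have h2 : 0 < ‖mon c.x a‖ := norm_pos_iff.2 ha
  by_contra hcon
  push Not at hcon
  have h3 : ‖mon c.x a‖ * 1 < ‖mon c.x a‖ * ‖mon c.x (b - a)‖ := mul_lt_mul_of_pos_left hcon h2
  linarith

/-- Sums: factor out the monomial of larger norm. -/
theorem QH_add (hok : Ok m M c) {z z' : W} (hz : z ∈ QH M c) (hz' : z' ∈ QH M c) :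
    z + z' ∈ QH M c := by
  obtain ⟨a, ha, h, hh, rfl⟩ := hz
  obtain ⟨a', ha', h', hh', rfl⟩ := hz'
  rcases le_total ‖mon c.x a'‖ ‖mon c.x a‖ with hle | hle
  · obtain ⟨h1, h2⟩ := hob_quot hok hle
    refine ⟨a, ha, h + mon c.x (a' - a) * h', add_mem hh (mul_mem h1 hh'), ?_⟩
    rw [h2]; ring
  · obtain ⟨h1, h2⟩ := hob_quot hok hle
    refine ⟨a', ha', mon c.x (a - a') * h + h', add_mem (mul_mem h1 hh) hh', ?_⟩
    rw [h2]; ring

theorem QH_neg (hok : Ok m M c) {z : W} (hz : z ∈ QH M c) : -z ∈ QH M c := by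
  obtain ⟨a, ha, h, hh, rfl⟩ := hz
  exact ⟨a, ha, -h, neg_mem hh, by ring⟩

theorem QH_mul (hok : Ok m M c) {z h : W} (hz : z ∈ QH M c) (hh : h ∈ HO M c) :
    z * h ∈ QH M c := by
  obtain ⟨a, ha, h', hh', rfl⟩ := hz
  exact ⟨a, ha, h' * h, mul_mem hh' hh, by ring⟩

theorem mon_mul_mem_QH (hok : Ok m M c) {a : Fin r → ℤ} (ha : ‖mon c.x a‖ < 1) {h : W}
    (hh : h ∈ HO M c) : mon c.x a * h ∈ QH M c :=
  ⟨a, ha, h, hh, rfl⟩

private theorem hob_sum (hr : 0 < r) (hok : Ok m M c) {x' : Fin r → W} {G : Finset W}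
    (hm : Mdl M c x' G) {b : Fin r → W} (hb : ∀ i, b i ∈ Bu c x' G) :
    ∑ i, b i * x' i ∈ QH M c := by
  classical
  refine Finset.sum_induction _ (fun z => z ∈ QH M c) (fun _ _ => QH_add hok) (QH_zero hok hr) ?_
  intro i _
  obtain ⟨a, ha⟩ := Mt.mon_eq' hok.par.ind hm.mt (Pi.single i 1)
  rw [mon_single] at ha
  refine ⟨a, ?_, b i, (mem_HO_iff hok _).2 ⟨x', G, hm, hb i⟩, by rw [← ha]; ring⟩
  rw [← ha]
  exact hm.mt.ind.lt i

/-- `HO = C + QH + y HO` (in a model, `Mdl.dec_all`; the `x' i` are monomials in `c.x` of norm `< 1`). -/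
theorem HO_dec (hr : 0 < r) (hok : Ok m M c) {z : W} (hz : z ∈ HO M c) :
    ∃ e ∈ c.C, ∃ q ∈ QH M c, ∃ b ∈ HO M c, z = e + q + b * c.y := by
  obtain ⟨x', G, h1, h2⟩ := (mem_HO_iff hok z).1 hz
  obtain ⟨e, he, b, b0, hb, hb0, hz1⟩ := Mdl.dec_all hok h1 h2
  exact ⟨e, he, ∑ i, b i * x' i, hob_sum hr hok h1 hb, b0, (mem_HO_iff hok _).2 ⟨x', G, h1, hb0⟩,
    hz1⟩

theorem HO_gen (hr : 0 < r) (hok : Ok m M c) {z : W} (hz : z ∈ HO M c) (h1 : ‖z‖ < 1) :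
    ∃ q ∈ QH M c, ∃ b ∈ HO M c, z = q + b * c.y := by
  obtain ⟨x', G, h2, h3⟩ := (mem_HO_iff hok z).1 hz
  obtain ⟨b, b0, hb, hb0, hz1⟩ := Mdl.gen hok h2 h3 h1
  exact ⟨∑ i, b i * x' i, hob_sum hr hok h2 hb, b0, (mem_HO_iff hok _).2 ⟨x', G, h2, hb0⟩, hz1⟩

theorem HO_le_HL {z : W} (hz : z ∈ HO M c) : z ∈ HL M c :=
  Subring.subset_closure (Or.inl hz)

theorem mon_mem_HL (a : Fin r → ℤ) : mon c.x a ∈ HL M c :=
  Subring.subset_closure (Or.inr ⟨a, rfl⟩)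

/-- `HL = HO[1/x]`: every element is a monomial times an element of `HO`. -/
theorem mem_HL_iff (hok : Ok m M c) (z : W) :
    z ∈ HL M c ↔ ∃ a : Fin r → ℤ, ∃ h ∈ HO M c, z = mon c.x a * h := by
  constructor
  · intro hz
    unfold HL at hz
    induction hz using Subring.closure_induction with
    | mem w hw =>
      rcases hw with hw | ⟨a, rfl⟩
      · exact ⟨0, w, hw, by rw [mon_zero, one_mul]⟩
      · exact ⟨a, 1, one_mem _, by rw [mul_one]⟩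
    | zero => exact ⟨0, 0, zero_mem _, by rw [mul_zero]⟩
    | one => exact ⟨0, 1, one_mem _, by rw [mon_zero, one_mul]⟩
    | add z z' _ _ hz hz' =>
      obtain ⟨a, h, hh, rfl⟩ := hz
      obtain ⟨a', h', hh', rfl⟩ := hz'
      rcases le_total ‖mon c.x a'‖ ‖mon c.x a‖ with hle | hle
      · obtain ⟨h1, h2⟩ := hob_quot hok hle
        refine ⟨a, h + mon c.x (a' - a) * h', add_mem hh (mul_mem h1 hh'), ?_⟩
        rw [h2]; ring
      · obtain ⟨h1, h2⟩ := hob_quot hok hle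
        refine ⟨a', mon c.x (a - a') * h + h', add_mem (mul_mem h1 hh) hh', ?_⟩
        rw [h2]; ring
    | neg z _ hz =>
      obtain ⟨a, h, hh, rfl⟩ := hz
      exact ⟨a, -h, neg_mem hh, by ring⟩
    | mul z z' _ _ hz hz' =>
      obtain ⟨a, h, hh, rfl⟩ := hz
      obtain ⟨a', h', hh', rfl⟩ := hz'
      exact ⟨a + a', h * h', mul_mem hh hh', by rw [mon_add c.x hok.par.ind.ne]; ring⟩
  · rintro ⟨a, h, hh, rfl⟩
    exact mul_mem (mon_mem_HL a) (HO_le_HL hh)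

private theorem hob_mon_mem_M (hok : Ok m M c) (a : Fin r → ℤ) : mon c.x a ∈ M := by
  unfold mon
  exact prod_mem fun i _ => zpow_mem (hok.xM i) _

theorem HL_mem_M (hok : Ok m M c) {z : W} (hz : z ∈ HL M c) : z ∈ M := by
  obtain ⟨a, h, hh, rfl⟩ := (mem_HL_iff hok z).1 hz
  exact mul_mem (hob_mon_mem_M hok a) (HO_mem_M hok hh)

theorem ev_mem_HL (hok : Ok m M c) (P : LP c.C r) : ev c.x c.y P ∈ HL M c := by
  unfold ev
  refine sum_mem fun i _ => ?_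
  exact mul_mem (HO_le_HL (C_mem_HO hok (SetLike.coe_mem _)))
    (mul_mem (mon_mem_HL _) (pow_mem (HO_le_HL (y_mem_HO hok)) _))

theorem MoH.mul (hok : Ok m M c) {z z' : W} (h : MoH M c z) (h' : MoH M c z') :
    MoH M c (z * z') := by
  obtain ⟨a, u, hu, hu1, rfl⟩ := h
  obtain ⟨a', u', hu', hu1', rfl⟩ := h'
  refine ⟨a + a', u * u', mul_mem hu hu', by rw [norm_mul, hu1, hu1', one_mul], ?_⟩
  rw [mon_add c.x hok.par.ind.ne]; ring

theorem MoH.inv (hok : Ok m M c) {z : W} (h : MoH M c z) : MoH M c z⁻¹ := by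
  obtain ⟨a, u, hu, hu1, rfl⟩ := h
  refine ⟨-a, u⁻¹, inv_mem_HO hok hu hu1, by rw [norm_inv, hu1, inv_one], ?_⟩
  rw [mon_neg, mul_inv]

theorem MoH.ne (hok : Ok m M c) {z : W} (h : MoH M c z) : z ≠ 0 := by
  obtain ⟨a, u, hu, hu1, rfl⟩ := h
  exact mul_ne_zero (mon_ne c.x hok.par.ind.ne a) (norm_pos_iff.1 (by rw [hu1]; exact one_pos))

theorem MoH.mem_HL (hok : Ok m M c) {z : W} (h : MoH M c z) : z ∈ HL M c := by
  obtain ⟨a, u, hu, hu1, rfl⟩ := h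
  exact mul_mem (mon_mem_HL a) (HO_le_HL hu)

theorem MoH.mem_HO (hok : Ok m M c) {z : W} (h : MoH M c z) (h1 : ‖z‖ ≤ 1) : z ∈ HO M c := by
  obtain ⟨a, u, hu, hu1, rfl⟩ := h
  rw [norm_mul, hu1, mul_one] at h1
  exact mul_mem (mon_mem_HO hok h1) hu

theorem MoH.mem_QH (hok : Ok m M c) {z : W} (h : MoH M c z) (h1 : ‖z‖ < 1) : z ∈ QH M c := by
  obtain ⟨a, u, hu, hu1, rfl⟩ := h
  rw [norm_mul, hu1, mul_one] at h1
  exact ⟨a, h1, u, hu, rfl⟩

theorem MoH.of_mon (hok : Ok m M c) (a : Fin r → ℤ) : MoH M c (mon c.x a) :=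
  ⟨a, 1, one_mem _, norm_one, by rw [mul_one]⟩

theorem MoH.of_unit {z : W} (hz : z ∈ HO M c) (h1 : ‖z‖ = 1) : MoH M c z :=
  ⟨0, z, hz, h1, by rw [mon_zero, one_mul]⟩

end Pool.Agent.Lib.TU
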