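import Pool.Agent.Lib.TU.HOb
import Pool.Agent.Lib.TU.DimU
import Pool.Agent.Lib.TU.TrU

/-!
# Module MdlDim: no power of `y` is in the ideal generated by the monomials

`B = Bu c x' G` is `locV` of the ring generated over the field `C = c.C` by the finite set
`G ∪ {x' i} ∪ {y}`: noetherian local (`TDO.noeth_fg` with base field `↥c.C`), of dimension `≥ r + 1`
(`dim_fgU` with base field `↥c.C`; the residues are in `C` by `Mdl.dec_all`; the `r + 1` elements
`x_1, .., x_r, y` are in the field generated by `x', y`, algebraically independent over `C`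
by `par_indep`).  If `y^n ∈ (x')B` then the maximal ideal `(x', y)B` (`Mdl.gen`) is minimal over `(x')B`
(a prime containing the `x' i` contains `y^n`, so `y`), so its height is `≤ r` by Krull's theorem
(`Ideal.height_le_spanFinrank..`): contradiction.
`y^n ∈ QH`: `y^n = mon c.x a * h`, `‖mon c.x a‖ < 1`, `h ∈ HO`; take a model containing `h` in which
`mon c.x a` is a monomial in `x'` with exponents `≥ 1` (`exists_model`); `r > 0`.
-/

namespace Pool.Agent.Lib.TU

open Pool.Agent.Lib.MP_3029eb_ag Pool.Agent.Lib.MP_3029eb_ag.Abh Pool.Agent.Lib.TDO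

variable {k W : Type} [Field k] [NormedField W] [IsUltrametricDist W] [Algebra k W] {r m : ℕ}
  {M : IntermediateField k W} {c : Tri k W r}

open Classical in
/-- the finite set of generators over the field of constants -/
private noncomputable def MdlDim_gen (c : Tri k W r) (x' : Fin r → W) (G : Finset W) : Finset W :=
  (Finset.univ.image x') ∪ ({c.y} ∪ G)

omit [IsUltrametricDist W] in
private lemma MdlDim_set (c : Tri k W r) (x' : Fin r → W) (G : Finset W) :
    ((c.C : Set W) ∪ Set.range x') ∪ ({c.y} ∪ (G : Set W)) =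
      Set.range (algebraMap c.C W) ∪ (MdlDim_gen c x' G : Set W) := by
  have h1 : Set.range (algebraMap c.C W) = (c.C : Set W) := by
    ext z
    constructor
    · rintro ⟨e, rfl⟩
      exact e.2
    · intro hz
      exact ⟨⟨z, hz⟩, rfl⟩
  rw [h1]
  unfold MdlDim_gen
  push_cast
  rw [Set.image_univ, Set.union_assoc]

private lemma MdlDim_Bu (c : Tri k W r) (x' : Fin r → W) (G : Finset W) :
    Bu c x' G = locV (ball W)
      (Subring.closure (Set.range (algebraMap c.C W) ∪ (MdlDim_gen c x' G : Set W))) := by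
  unfold Bu
  rw [MdlDim_set]

private lemma MdlDim_gen_le (hok : Ok m M c) {x' : Fin r → W} {G : Finset W} (h : Mdl M c x' G) :
    ∀ g ∈ MdlDim_gen c x' G, ‖g‖ ≤ 1 := by
  classical
  intro g hg
  unfold MdlDim_gen at hg
  simp only [Finset.mem_union, Finset.mem_image, Finset.mem_univ, true_and,
    Finset.mem_singleton] at hg
  rcases hg with ⟨i, rfl⟩ | rfl | hg
  · exact (h.mt.ind.lt i).le
  · exact hok.par.y1.le
  · exact (h.gM g hg).2

omit [IsUltrametricDist W] in
private lemma MdlDim_unit (hok : Ok m M c) : ∀ e : c.C, e ≠ 0 → ‖algebraMap c.C W e‖ = 1 := by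
  intro e he
  exact hok.cst.unit e e.2 (fun h => he (Subtype.ext h))

/-- Models are noetherian local rings (`TDO.noeth_fg` over `↥c.C`). -/
theorem Bu_noeth (hok : Ok m M c) {x' : Fin r → W} {G : Finset W} (h : Mdl M c x' G) :
    IsNoetherianRing (Bu c x' G) ∧ IsLocalRing (Bu c x' G) := by
  have hu : ∀ e : c.C, ‖algebraMap c.C W e‖ ≤ 1 := by
    intro e
    by_cases he : e = 0
    · rw [he, map_zero, norm_zero]; exact zero_le_one
    · exact (MdlDim_unit hok e he).le
  rw [MdlDim_Bu]
  exact noeth_fg hu _ (MdlDim_gen_le hok h)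

private lemma MdlDim_dim (hok : Ok m M c) {x' : Fin r → W} {G : Finset W} (h : Mdl M c x' G) :
    ((r + 1 : ℕ) : WithBot ℕ∞) ≤ ringKrullDim (Bu c x' G) := by
  classical
  rw [MdlDim_Bu]
  refine dim_fgU (MdlDim_unit hok) _ (MdlDim_gen_le hok h) ?_ (r + 1) (Fin.cons c.y c.x) ?_
    (par_indep c.x c.y hok.par.ind.ne hok.par.tr)
  · intro z hz
    rw [← MdlDim_Bu] at hz
    obtain ⟨e, he, b, b0, hb, hb0, hz'⟩ := h.dec_all hok hz
    refine ⟨Polynomial.X - Polynomial.C ⟨e, he⟩, Polynomial.X_sub_C_ne_zero _, ?_⟩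
    have h1 : Polynomial.aeval z (Polynomial.X - Polynomial.C (⟨e, he⟩ : c.C)) =
        ∑ i, b i * x' i + b0 * c.y := by
      rw [map_sub, Polynomial.aeval_X, Polynomial.aeval_C]
      change z - e = _
      rw [hz']
      ring
    have hG : ∀ g ∈ G, ‖g‖ ≤ 1 := fun g hg => (h.gM g hg).2
    rw [h1]
    refine lt_of_le_of_lt (IsUltrametricDist.norm_add_le_max _ _) (max_lt ?_ ?_)
    · refine Finset.sum_induction (fun i => b i * x' i) (fun z => ‖z‖ < 1)
        (fun a b ha hb => lt_of_le_of_lt (IsUltrametricDist.norm_add_le_max _ _) (max_lt ha hb))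
        (by rw [norm_zero]; exact one_pos) ?_
      intro i _
      rw [norm_mul]
      have h3 := norm_le_of_mem_Bu hok h.mt.ind hG (hb i)
      have h4 := h.mt.ind.lt i
      have h5 := norm_nonneg (b i)
      have h6 := norm_nonneg (x' i)
      nlinarith
    · rw [norm_mul]
      have h3 := norm_le_of_mem_Bu hok h.mt.ind hG hb0
      have h4 := hok.par.y1
      have h5 := norm_nonneg b0
      have h6 := norm_nonneg c.y
      nlinarith
  · intro i
    refine Fin.cases ?_ ?_ i
    · rw [Fin.cons_zero]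
      apply IntermediateField.subset_adjoin
      unfold MdlDim_gen
      simp
    · intro j
      rw [Fin.cons_succ]
      obtain ⟨A, B, hA, -, -⟩ := h.mt.mat
      rw [hA j]
      unfold monN
      refine prod_mem fun l _ => pow_mem ?_ _
      apply IntermediateField.subset_adjoin
      unfold MdlDim_gen
      simp

theorem y_pow_not_mem (hok : Ok m M c) {x' : Fin r → W} {G : Finset W} (h : Mdl M c x' G) (n : ℕ)
    (b : Fin r → W) (hb : ∀ i, b i ∈ Bu c x' G) : c.y ^ n ≠ ∑ i, b i * x' i := by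
  classical
  intro heq
  obtain ⟨hno, hlo⟩ := Bu_noeth hok h
  have hdim := MdlDim_dim hok h
  have hG : ∀ g ∈ G, ‖g‖ ≤ 1 := fun g hg => (h.gM g hg).2
  have hdom : ∀ z : Bu c x' G, z ∈ IsLocalRing.maximalIdeal (Bu c x' G) ↔ ‖(z : W)‖ < 1 := by
    intro z
    rw [IsLocalRing.mem_maximalIdeal, mem_nonunits_iff]
    have hz1 := norm_le_of_mem_Bu hok h.mt.ind hG z.2
    constructor
    · intro hz
      by_contra hcon
      have h1 : ‖(z : W)‖ = 1 := le_antisymm hz1 (not_lt.1 hcon)
      apply hz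
      have h0 : (z : W) ≠ 0 := by
        intro h0
        rw [h0, norm_zero] at h1
        exact zero_ne_one h1
      refine IsUnit.of_mul_eq_one ⟨(z : W)⁻¹, inv_mem_Bu z.2 h1⟩ ?_
      apply Subtype.ext
      exact mul_inv_cancel₀ h0
    · intro hz hu
      obtain ⟨w, hw⟩ := hu.exists_right_inv
      have h1 : (z : W) * (w : W) = 1 := congrArg Subtype.val hw
      have h2 := norm_le_of_mem_Bu hok h.mt.ind hG w.2
      have h3 : ‖(z : W)‖ * ‖(w : W)‖ = 1 := by rw [← norm_mul, h1, norm_one]
      have h5 := norm_nonneg (z : W)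
      have h6 := norm_nonneg (w : W)
      nlinarith
  have hxB : ∀ i, x' i ∈ Bu c x' G := fun i => x_mem_Bu hok h.mt.ind hG i
  have hyB : c.y ∈ Bu c x' G := y_mem_Bu hok h.mt.ind hG
  let xB : Fin r → Bu c x' G := fun i => ⟨x' i, hxB i⟩
  have hmin : IsLocalRing.maximalIdeal (Bu c x' G) ∈ (Ideal.span (Set.range xB)).minimalPrimes := by
    refine ⟨⟨inferInstance, ?_⟩, ?_⟩
    · rw [Ideal.span_le]
      rintro _ ⟨i, rfl⟩
      exact (hdom _).2 (h.mt.ind.lt i)
    · rintro P ⟨hP, hle⟩ -
      have hyP : (⟨c.y, hyB⟩ : Bu c x' G) ∈ P := by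
        refine hP.mem_of_pow_mem n ?_
        have h1 : (⟨c.y, hyB⟩ : Bu c x' G) ^ n = ∑ i, (⟨b i, hb i⟩ : Bu c x' G) * xB i := by
          apply Subtype.ext
          push_cast
          exact heq
        rw [h1]
        exact sum_mem fun i _ => P.mul_mem_left _ (hle (Ideal.subset_span ⟨i, rfl⟩))
      intro z hz
      obtain ⟨b', b0, hb', hb0, hz'⟩ := h.gen hok z.2 ((hdom z).1 hz)
      have h2 : z = ∑ i, (⟨b' i, hb' i⟩ : Bu c x' G) * xB i + ⟨b0, hb0⟩ * ⟨c.y, hyB⟩ := by
        apply Subtype.ext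
        push_cast
        exact hz'
      rw [h2]
      exact add_mem (sum_mem fun i _ => P.mul_mem_left _ (hle (Ideal.subset_span ⟨i, rfl⟩)))
        (P.mul_mem_left _ hyP)
  have h3 := Ideal.height_le_card_of_mem_minimalPrimes_span (Set.finite_range xB) hmin
  have h4 : (Set.range xB).ncard ≤ r := by
    rw [← Set.image_univ]
    refine (Set.ncard_image_le (Set.toFinite _)).trans ?_
    rw [Set.ncard_univ, Nat.card_fin]
  have h5 : ringKrullDim (Bu c x' G) ≤ ((r : ℕ) : WithBot ℕ∞) := by
    rw [← IsLocalRing.maximalIdeal_height_eq_ringKrullDim]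
    exact_mod_cast h3.trans (by exact_mod_cast h4)
  have h6 := hdim.trans h5
  have h7 : r + 1 ≤ r := by exact_mod_cast h6
  omega

theorem y_pow_not_QH (hr : 0 < r) (hok : Ok m M c) (n : ℕ) : c.y ^ n ∉ QH M c := by
  classical
  rintro ⟨a, ha, h, hh, heq⟩
  obtain ⟨x', G, hm, hZ, hY⟩ := exists_model hok {h} (by simpa using hh) {a} (by simpa using ha.le)
  obtain ⟨β, hβ, hβ1⟩ := hY a (Finset.mem_singleton_self a)
  have hG : ∀ g ∈ G, ‖g‖ ≤ 1 := fun g hg => (hm.gM g hg).2
  let i0 : Fin r := ⟨0, hr⟩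
  have h1 : 1 ≤ β i0 := hβ1 ha i0
  have h2 : monN x' β = monN x' (Function.update β i0 (β i0 - 1)) * x' i0 := by
    unfold monN
    rw [← Finset.mul_prod_erase _ _ (Finset.mem_univ i0),
      ← Finset.mul_prod_erase (a := i0) _ (fun i => x' i ^ (Function.update β i0 (β i0 - 1)) i)
        (Finset.mem_univ i0)]
    rw [Function.update_self]
    have h3 : ∏ j ∈ Finset.univ.erase i0, x' j ^ (Function.update β i0 (β i0 - 1)) j =
        ∏ j ∈ Finset.univ.erase i0, x' j ^ β j := by
      refine Finset.prod_congr rfl fun j hj => ?_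
      rw [Function.update_of_ne (Finset.ne_of_mem_erase hj)]
    rw [h3]
    obtain ⟨q, hq⟩ : ∃ q, β i0 = q + 1 := ⟨β i0 - 1, by omega⟩
    rw [hq, Nat.add_sub_cancel, pow_succ]
    ring
  refine y_pow_not_mem hok hm n
    (Pi.single i0 (monN x' (Function.update β i0 (β i0 - 1)) * h)) ?_ ?_
  · intro i
    by_cases hi : i = i0
    · rw [hi, Pi.single_eq_same]
      exact mul_mem (monN_mem_Bu hok hm.mt.ind hG _) (hZ h (Finset.mem_singleton_self h))
    · rw [Pi.single_eq_of_ne hi]
      exact zero_mem _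
  · rw [Finset.sum_eq_single i0]
    · rw [Pi.single_eq_same, heq, hβ, h2]
      ring
    · intro j _ hj
      rw [Pi.single_eq_of_ne hj, zero_mul]
    · intro hi
      exact absurd (Finset.mem_univ i0) hi

end Pool.Agent.Lib.TU
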