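import Pool.Agent.Lib.TU.ThmAU
import Pool.Agent.Lib.TU.HOcr
import Pool.Agent.Lib.TDO.EtPres
import Pool.Agent.Lib.TDO.EtLem

/-!
# Module MAll: every element of `S ⊓ L` becomes monomial; approximation (paper 4.1, 4.2)

`m_all`: one element `z ≠ 0` of `S ⊓ L` at a time.  `E := Kxy c.C c.x c.y` as an intermediate field of
`W / k` (or work over the base field `↥c.C`: `TDO.exists_et` and `TDO.etale_unit` hold for any base
field): `z` is separable over `E` (`Ch.sep`) and in `cl E` (`Ch.dense`).  `exists_et` for `{z}`: `τ`, `P`,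
`Et E P τ`, `z ∈ E(τ)`.  `etale_unit`: `z = b u`, `b ∈ E`, `u = n / d` with `n, d` in the ring generated by
finitely many `e_i ∈ E`, `‖e_i‖ ≤ 1`, and `τ`.  By `thmAU_finset` there is a refinement `c'` such that
`b`, the nonzero `e_i` and the nonzero coefficients of `P` are in `MoH c'` (elements of `E` are
quotients of elements of `HL c`).  `τ ∈ S ⊓ L` (separable over `S`; in `cl E ≤ L` as `L` is complete),
`‖τ‖ < 1`, the coefficients of `P` have norm `≤ 1` and `c_1 = 1`: `τ ∈ HO c'` by `hen`.  So `n, d ∈ HO c'`,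
`u ∈ HO c'` has norm one, `z ∈ MoH c'`.
`appr_LPU`: `f ∈ L` is approximated by an element `f' ≠ 0` of `S ⊓ L` (`Ch.dense_M`), monomial for a
refinement `c'`: `f' = x'^a u`, and `u ∈ HO c'` is approximated by Laurent polynomials (`HO_approx`).
-/

namespace Pool.Agent.Lib.TU

open Pool.Agent.Lib.MP_3029eb_ag Pool.Agent.Lib.MP_3029eb_ag.Abh Pool.Agent.Lib.TDO

variable {k W : Type} [Field k] [PerfectField k] [NormedField W] [IsUltrametricDist W]
  [Algebra k W] {r m : ℕ}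

omit [IsUltrametricDist W] in
private theorem MAll_finset (S : Set W) (τ : W) {c : W} (hc : c ∈ Subring.closure (S ∪ {τ})) :
    ∃ F : Finset W, (∀ e ∈ F, e ∈ S) ∧ c ∈ Subring.closure ((F : Set W) ∪ {τ}) := by
  classical
  have hmono : ∀ F F' : Finset W, F ⊆ F' →
      Subring.closure ((F : Set W) ∪ {τ}) ≤ Subring.closure ((F' : Set W) ∪ {τ}) := by
    intro F F' h
    exact Subring.closure_mono (Set.union_subset_union_left _ (Finset.coe_subset.2 h))
  have hbin : ∀ (a b : W), (∃ F : Finset W, (∀ e ∈ F, e ∈ S) ∧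
      a ∈ Subring.closure ((F : Set W) ∪ {τ})) → (∃ F : Finset W, (∀ e ∈ F, e ∈ S) ∧
      b ∈ Subring.closure ((F : Set W) ∪ {τ})) → ∃ F : Finset W, (∀ e ∈ F, e ∈ S) ∧
      a ∈ Subring.closure ((F : Set W) ∪ {τ}) ∧ b ∈ Subring.closure ((F : Set W) ∪ {τ}) := by
    rintro a b ⟨F, h1, h2⟩ ⟨F', h1', h2'⟩
    refine ⟨F ∪ F', fun d hd => ?_, hmono _ _ Finset.subset_union_left h2,
      hmono _ _ Finset.subset_union_right h2'⟩
    rcases Finset.mem_union.1 hd with hd | hd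
    · exact h1 d hd
    · exact h1' d hd
  have hem : ∀ e ∈ (∅ : Finset W), e ∈ S := fun e he => absurd he (Finset.notMem_empty _)
  induction hc using Subring.closure_induction with
  | mem z hz =>
    rcases hz with hz | hz
    · refine ⟨{z}, fun e he => ?_, Subring.subset_closure (Or.inl ?_)⟩
      · rw [Finset.mem_singleton.1 he]
        exact hz
      · exact Finset.mem_coe.2 (Finset.mem_singleton_self z)
    · exact ⟨∅, hem, Subring.subset_closure (Or.inr hz)⟩
  | zero => exact ⟨∅, hem, zero_mem _⟩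
  | one => exact ⟨∅, hem, one_mem _⟩
  | add a b _ _ iha ihb =>
    obtain ⟨F, h1, h2, h3⟩ := hbin a b iha ihb
    exact ⟨F, h1, add_mem h2 h3⟩
  | neg a _ iha =>
    obtain ⟨F, h1, h2⟩ := iha
    exact ⟨F, h1, neg_mem h2⟩
  | mul a b _ _ iha ihb =>
    obtain ⟨F, h1, h2, h3⟩ := hbin a b iha ihb
    exact ⟨F, h1, mul_mem h2 h3⟩

private theorem MAll_finloc (S : Set W) (τ : W) {u : W}
    (hu : u ∈ locV (ball W) (Subring.closure (S ∪ {τ}))) :
    ∃ F : Finset W, (∀ e ∈ F, e ∈ S) ∧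
      u ∈ locV (ball W) (Subring.closure ((F : Set W) ∪ {τ})) := by
  classical
  obtain ⟨a, ha, b, hb, hb1, hab⟩ := hu
  obtain ⟨F, h1, h2⟩ := MAll_finset S τ ha
  obtain ⟨F', h1', h2'⟩ := MAll_finset S τ hb
  refine ⟨F ∪ F', fun d hd => ?_, a, ?_, b, ?_, hb1, hab⟩
  · rcases Finset.mem_union.1 hd with hd | hd
    · exact h1 d hd
    · exact h1' d hd
  · exact Subring.closure_mono (Set.union_subset_union_left _
      (Finset.coe_subset.2 Finset.subset_union_left)) h2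
  · exact Subring.closure_mono (Set.union_subset_union_left _
      (Finset.coe_subset.2 Finset.subset_union_right)) h2'

private theorem MAll_locV_mono {A B : Subring W} (h : A ≤ B) :
    locV (ball W) A ≤ locV (ball W) B := by
  rintro z ⟨a, ha, b, hb, h1, h2⟩
  exact ⟨a, h ha, b, h hb, h1, h2⟩

omit [PerfectField k] in
/-- Elements of `Kxy` are quotients of elements of `HL`. -/
private theorem MAll_quot {M : IntermediateField k W} {c : Tri k W r} (hok : Ok m M c) {z : W}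
    (hz : z ∈ Kxy c.C c.x c.y) : ∃ n ∈ HL M c, ∃ d ∈ HL M c, d ≠ 0 ∧ z * d = n := by
  obtain ⟨n, hn, d, hd, hd0, h⟩ := (mem_Kxy_iff c.x c.y z).1 hz
  obtain ⟨P, rfl⟩ := (mem_LL_iff c.x c.y hok.par.ind.ne n).1 hn
  obtain ⟨Q, rfl⟩ := (mem_LL_iff c.x c.y hok.par.ind.ne d).1 hd
  exact ⟨_, ev_mem_HL hok P, _, ev_mem_HL hok Q, hd0, h⟩

/-- See the header. -/
theorem m_all (hr : 0 < r) (hA : AmbG r m k W) (S L : IntermediateField k W)
    (hS : ∀ z : W, IsSeparable S z → z ∈ S) (hL : IsComplete (L : Set W)) {c : Tri k W r}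
    (hc : Ch m S L c) (Z : Finset W) (hZ : ∀ z ∈ Z, z ∈ S ⊓ L ∧ z ≠ 0) :
    ∃ c' : Tri k W r, RfS m S L c c' ∧ ∀ z ∈ Z, MoH (S ⊓ L) c' z := by
  classical
  set E : IntermediateField c.C W := Kxy c.C c.x c.y with hE
  have hnt : ∃ z ∈ E, z ≠ 0 ∧ ‖z‖ < 1 :=
    ⟨c.x ⟨0, hr⟩, x_mem_Kxy c.x c.y _, hc.ok.par.ind.ne _, hc.ok.par.ind.lt _⟩
  obtain ⟨τ, P, hEt, hfld⟩ := exists_et E hnt Z (fun g hg =>
    ⟨hc.sep g (hZ g hg).1.1, hc.dense g (hZ g hg).1.2⟩)
  -- the field generated by Z is contained in the closure of E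
  have hcl : E ⊔ IntermediateField.adjoin c.C {τ} ≤ cl E := by
    rw [hfld]
    exact sup_le (le_cl E) (IntermediateField.adjoin_le_iff.2 fun g hg =>
      hc.dense g (hZ g hg).1.2)
  have hτE : τ ∈ E ⊔ IntermediateField.adjoin c.C {τ} :=
    (le_sup_right : IntermediateField.adjoin c.C {τ} ≤ _)
      (IntermediateField.mem_adjoin_simple_self c.C τ)
  have hZE : ∀ z ∈ Z, z ∈ E ⊔ IntermediateField.adjoin c.C {τ} := by
    intro z hz
    rw [hfld]
    exact (le_sup_right : IntermediateField.adjoin c.C (Z : Set W) ≤ _)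
      (IntermediateField.subset_adjoin c.C _ (Finset.mem_coe.2 hz))
  -- it is contained in S ⊓ L
  have hSL : E ⊔ IntermediateField.adjoin c.C {τ} ≤ IntermediateField.extendScalars hc.ok.CM := by
    rw [hfld]
    refine sup_le ?_ (IntermediateField.adjoin_le_iff.2 fun g hg => ?_)
    · intro z hz
      rw [IntermediateField.mem_extendScalars]
      exact hc.ok.Kxy_mem hz
    · show g ∈ IntermediateField.extendScalars hc.ok.CM
      rw [IntermediateField.mem_extendScalars]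
      exact (hZ g hg).1
  have hτM : τ ∈ S ⊓ L := by
    have := hSL hτE
    rwa [IntermediateField.mem_extendScalars] at this
  -- the data for each `z`
  have hdata : ∀ z : W, ∃ (b u : W) (F : Finset W), z ∈ Z → (b ∈ E ∧ b ≠ 0 ∧ ‖u‖ = 1 ∧
      z = b * u ∧ (∀ e ∈ F, e ∈ E ∧ ‖e‖ ≤ 1) ∧
      u ∈ locV (ball W) (Subring.closure ((F : Set W) ∪ {τ}))) := by
    intro z
    by_cases hz : z ∈ Z
    · obtain ⟨b, hb, u, hu, hu1, hbu⟩ := etale_unit E P τ hEt (hcl hτE) hnt z (hZE z hz)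
        (hZ z hz).2
      obtain ⟨F, hF1, hF2⟩ := MAll_finloc _ τ hu
      refine ⟨b, u, F, fun _ => ⟨hb, ?_, hu1, hbu, fun e he => hF1 e he, hF2⟩⟩
      rintro rfl
      rw [zero_mul] at hbu
      exact (hZ z hz).2 hbu
    · exact ⟨0, 0, ∅, fun h => absurd h hz⟩
  choose b u F hbuF using hdata
  set X : Finset W := (Z.image b ∪ P.support.image (fun j => ((P.coeff j : E) : W)) ∪
    Z.biUnion F).filter (fun z => z ≠ 0) with hX
  have hXK : ∀ z ∈ X, z ∈ E ∧ z ≠ 0 := by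
    intro z hz
    rw [hX, Finset.mem_filter, Finset.mem_union, Finset.mem_union] at hz
    refine ⟨?_, hz.2⟩
    rcases hz.1 with (h | h) | h
    · obtain ⟨w, hw, rfl⟩ := Finset.mem_image.1 h
      exact (hbuF w hw).1
    · obtain ⟨j, _, rfl⟩ := Finset.mem_image.1 h
      exact (P.coeff j).2
    · obtain ⟨w, hw, hzw⟩ := Finset.mem_biUnion.1 h
      exact ((hbuF w hw).2.2.2.2.1 z hzw).1
  obtain ⟨c', hrf, hMo⟩ := thmAU_finset hr hA S L hS hL hc X (fun z hz =>
    ⟨(hXK z hz).2, MAll_quot hc.ok (hXK z hz).1⟩)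
  have hok' : Ok m (S ⊓ L) c' := (RfS.ch hc hrf).ok
  have hHO : ∀ z, (z ∈ X ∨ z = 0) → ‖z‖ ≤ 1 → z ∈ HO (S ⊓ L) c' := by
    rintro z (hz | rfl) h1
    · exact (hMo z hz).mem_HO hok' h1
    · exact zero_mem _
  -- τ is in HO
  have hc1 : ((P.coeff 1 : E) : W) = 1 := by rw [hEt.c1]; rfl
  have hPco : ∀ j, ((P.coeff j : E) : W) ∈ HO (S ⊓ L) c' := by
    intro j
    by_cases hj : j = 1
    · rw [hj, hc1]; exact one_mem _
    · refine hHO _ ?_ (hEt.cj j hj).le
      by_cases h0 : P.coeff j = 0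
      · right; rw [h0]; rfl
      · left
        rw [hX, Finset.mem_filter]
        refine ⟨Finset.mem_union_left _ (Finset.mem_union_right _ (Finset.mem_image.2
          ⟨j, Polynomial.mem_support_iff.2 h0, rfl⟩)), fun h => h0 (Subtype.ext h)⟩
  have hτHO : τ ∈ HO (S ⊓ L) c' := by
    refine hen hr hok' (P.map (algebraMap E W)) (fun j => ?_) ?_ hτM hEt.lt ?_
    · rw [Polynomial.coeff_map]
      exact hPco j
    · rw [Polynomial.coeff_map]
      show ‖((P.coeff 1 : E) : W)‖ = 1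
      rw [hc1, norm_one]
    · rw [Polynomial.eval_map_algebraMap]
      exact hEt.root
  refine ⟨c', hrf, fun z hz => ?_⟩
  obtain ⟨hb1, hb2, hu1, hbu, hF1, hF2⟩ := hbuF z hz
  have huH : u z ∈ HO (S ⊓ L) c' := by
    rw [← locV_HO hok']
    refine MAll_locV_mono ?_ hF2
    rw [Subring.closure_le]
    rintro v (hv | hv)
    · refine hHO v ?_ (hF1 v hv).2
      by_cases h0 : v = 0
      · exact Or.inr h0
      · left
        rw [hX, Finset.mem_filter]
        exact ⟨Finset.mem_union_right _ (Finset.mem_biUnion.2 ⟨z, hz, hv⟩), h0⟩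
    · rw [Set.mem_singleton_iff] at hv
      rw [hv]
      exact hτHO
  rw [hbu]
  refine MoH.mul hok' (hMo (b z) ?_) (MoH.of_unit huH hu1)
  rw [hX, Finset.mem_filter]
  exact ⟨Finset.mem_union_left _ (Finset.mem_union_left _ (Finset.mem_image_of_mem _ hz)), hb2⟩

/-- There is always a stage (`exists_st` with `X = ∅`). -/
theorem exists_stR (hr : 0 < r) (hA : AmbG r m k W) (S L : IntermediateField k W)
    (hS : ∀ z : W, IsSeparable S z → z ∈ S) (hL : IsComplete (L : Set W)) {c : Tri k W r}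
    (hc : Ch m S L c) : ∃ c' : Tri k W r, StR m S L c c' := by
  obtain ⟨c', e, B, w, g, T, hst, -⟩ := exists_st hr hA S L hS hL hc ∅
    (fun n hn => absurd hn (Finset.notMem_empty _))
  exact ⟨c', e, B, w, g, T, hst⟩

/-- See the header. -/
theorem appr_LPU (hr : 0 < r) (hA : AmbG r m k W) (S L : IntermediateField k W)
    (hS : ∀ z : W, IsSeparable S z → z ∈ S) (hL : IsComplete (L : Set W)) {c : Tri k W r}
    (hc : Ch m S L c) {f : W} (hf : f ∈ L) (ε : ℝ) (hε : 0 < ε) :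
    ∃ c' : Tri k W r, RfS m S L c c' ∧ ∃ P : LP c'.C r, ‖f - ev c'.x c'.y P‖ < ε := by
  obtain ⟨f', hf', hff⟩ := hc.dense_M hf ε hε
  by_cases h0 : f' = 0
  · refine ⟨c, Relation.ReflTransGen.refl, 0, ?_⟩
    rw [ev_zero, ← h0]
    exact hff
  obtain ⟨c', hrf, hMo⟩ := m_all hr hA S L hS hL hc {f'} (fun z hz => by
    rw [Finset.mem_singleton.1 hz]; exact ⟨hf', h0⟩)
  obtain ⟨a, u, hu, hu1, hau⟩ := hMo f' (Finset.mem_singleton_self f')
  have hok' : Ok m (S ⊓ L) c' := (RfS.ch hc hrf).ok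
  have hne := hok'.par.ind.ne
  have ha : 0 < ‖mon c'.x a‖ := norm_pos_iff.2 (mon_ne c'.x hne a)
  have hδ : 0 < ε / ‖mon c'.x a‖ := div_pos hε ha
  obtain ⟨N, -, hN⟩ := exists_mon_lt hr hok'.par.ind _ hδ
  obtain ⟨J, hJ⟩ := exists_pow_lt_of_lt_one hδ hok'.par.y1
  obtain ⟨P, -, h1, hh1, h2, hh2, hP⟩ := HO_approx hr hok' hu N J
  obtain ⟨P', hP', -⟩ := exists_shift c'.x c'.y hne P a
  refine ⟨c', hrf, P', ?_⟩
  have e : f - ev c'.x c'.y P' = (f - f') +
      mon c'.x a * (mon c'.x N * h1 + c'.y ^ J * h2) := by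
    rw [hP', hau, hP]
    ring
  rw [e]
  refine (IsUltrametricDist.norm_add_le_max _ _).trans_lt (max_lt hff ?_)
  rw [norm_mul]
  have hs : ‖mon c'.x N * h1 + c'.y ^ J * h2‖ < ε / ‖mon c'.x a‖ := by
    refine (IsUltrametricDist.norm_add_le_max _ _).trans_lt (max_lt ?_ ?_)
    · rw [norm_mul]
      exact (mul_le_of_le_one_right (norm_nonneg _) (HO_norm_le hok' hh1)).trans_lt hN
    · rw [norm_mul, norm_pow]
      exact (mul_le_of_le_one_right (pow_nonneg (norm_nonneg _) _)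
        (HO_norm_le hok' hh2)).trans_lt hJ
  calc ‖mon c'.x a‖ * ‖mon c'.x N * h1 + c'.y ^ J * h2‖
      < ‖mon c'.x a‖ * (ε / ‖mon c'.x a‖) := mul_lt_mul_of_pos_left hs ha
    _ = ε := by field_simp

end Pool.Agent.Lib.TU
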