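import Pool.Agent.Lib.TU.LdEx

/-!
# Module LdBas: the calculus of lead forms and of the norm `Gn`

`Ld M c z a d`: `z = x^a (y^d v + q)`, `v ∈ HO`, `‖v‖ = 1`, `q ∈ QH`.
Uniqueness: let `z = x^a (y^d v + q) = x^a' (y^d' v' + q')`.  If `‖x^a'‖ < ‖x^a‖` then
`y^d v = -q + x^(a'-a)(..) ∈ QH`, `y^d ∈ QH`, contradiction to `y_pow_not_QH`; so `‖x^a‖ = ‖x^a'‖`, `a = a'`
(`norm_mon_inj`).  If `d < d'`: `y^d (v - y^(d'-d) v') ∈ QH` with a unit in the bracket, contradiction.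
Multiplicativity: `(y^d v + q)(y^d' v' + q') = y^(d+d') v v' + ..`.
`z ∈ x^a HO ↔ z = 0 ∨ Gn z ≤ ‖x^a‖`: if `z = x^a h`, `0 ≠ h ∈ HO`, `Ld h b d`, then `‖x^b‖ ≤ 1`: otherwise
`x^(-b) h = y^d v + q` and `x^(-b) h ∈ QH`, so `y^d ∈ QH`.  Conversely clear.
`Gn (z + z') ≤ max`: both are in `x^a HO` with `‖x^a‖` the maximum.
Perturbation: `z = x^a (y^d v + q)`, `w = x^a h`, `h ∈ QH` (`Gn w < ‖x^a‖`).
Laurent polynomials: `x^(-a0) P = y^d (c_(a0,d) + c_(a0,d+1) y + ..) + ∑ (terms x^b y^j, ‖x^b‖ < 1)`.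
-/

namespace Pool.Agent.Lib.TU

open Pool.Agent.Lib.MP_3029eb_ag Pool.Agent.Lib.MP_3029eb_ag.Abh Pool.Agent.Lib.TDO

variable {k W : Type} [Field k] [NormedField W] [IsUltrametricDist W] [Algebra k W] {r m : ℕ}
  {M : IntermediateField k W} {c : Tri k W r}

private lemma LdBas_no (hr : 0 < r) (hok : Ok m M c) {d : ℕ} {v : W} (hv : v ∈ HO M c)
    (hv1 : ‖v‖ = 1) (h : c.y ^ d * v ∈ QH M c) : False := by
  have hv0 : v ≠ 0 := by
    intro h0
    rw [h0, norm_zero] at hv1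
    exact zero_ne_one hv1
  refine y_pow_not_QH hr hok d ?_
  have h1 := QH_mul hok h (inv_mem_HO hok hv hv1)
  rwa [mul_assoc, mul_inv_cancel₀ hv0, mul_one] at h1

private lemma LdBas_br (hok : Ok m M c) {d : ℕ} {v q : W} (hv : v ∈ HO M c) (hq : q ∈ QH M c) :
    c.y ^ d * v + q ∈ HO M c :=
  add_mem (mul_mem (pow_mem (y_mem_HO hok) _) hv) (QH_mem_HO hok hq)

omit [IsUltrametricDist W] in
private lemma LdBas_sub (hok : Ok m M c) (a b : Fin r → ℤ) :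
    mon c.x a = mon c.x b * mon c.x (a - b) := by
  rw [← mon_add c.x hok.par.ind.ne, add_sub_cancel]

omit [IsUltrametricDist W] in
private lemma LdBas_sub_lt (hok : Ok m M c) {a b : Fin r → ℤ} (h : ‖mon c.x a‖ < ‖mon c.x b‖) :
    ‖mon c.x (a - b)‖ < 1 := by
  rw [LdBas_sub hok a b, norm_mul] at h
  have hb : 0 < ‖mon c.x b‖ := norm_pos_iff.2 (mon_ne c.x hok.par.ind.ne b)
  by_contra hcon
  push Not at hcon
  nlinarith

omit [IsUltrametricDist W] in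
private lemma LdBas_sub_le (hok : Ok m M c) {a b : Fin r → ℤ} (h : ‖mon c.x a‖ ≤ ‖mon c.x b‖) :
    ‖mon c.x (a - b)‖ ≤ 1 := by
  rw [LdBas_sub hok a b, norm_mul] at h
  have hb : 0 < ‖mon c.x b‖ := norm_pos_iff.2 (mon_ne c.x hok.par.ind.ne b)
  by_contra hcon
  push Not at hcon
  nlinarith

/-- if `z = x^a (y^d v + q)` then `z` is not in `x^b HO` for `x^b` of smaller norm -/
private lemma LdBas_not (hr : 0 < r) (hok : Ok m M c) {z : W} {a : Fin r → ℤ} {d : ℕ}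
    (h : Ld M c z a d) {b : Fin r → ℤ} {u : W} (hu : u ∈ HO M c) (hz : z = mon c.x b * u) :
    ¬ ‖mon c.x b‖ < ‖mon c.x a‖ := by
  intro hlt
  obtain ⟨v, hv, hv1, q, hq, hzq⟩ := h
  have hx := hok.par.ind.ne
  have h1 : mon c.x a * (c.y ^ d * v + q) = mon c.x a * (mon c.x (b - a) * u) := by
    rw [← hzq, hz, LdBas_sub hok b a, mul_assoc]
  have h2 := mul_left_cancel₀ (mon_ne c.x hx a) h1
  have h3 : c.y ^ d * v = mon c.x (b - a) * u + -q := by rw [← h2]; ring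
  refine LdBas_no hr hok hv hv1 (d := d) ?_
  rw [h3]
  exact QH_add hok (mon_mul_mem_QH hok (LdBas_sub_lt hok hlt) hu) (QH_neg hok hq)

private lemma LdBas_d (hr : 0 < r) (hok : Ok m M c) {v v' q q' : W} {d d' : ℕ} (hv : v ∈ HO M c)
    (hv1 : ‖v‖ = 1) (hq : q ∈ QH M c) (hv' : v' ∈ HO M c) (hv1' : ‖v'‖ = 1) (hq' : q' ∈ QH M c)
    (h : c.y ^ d * v + q = c.y ^ d' * v' + q') : ¬ d < d' := by
  intro hlt
  have hy : ‖c.y ^ (d' - d) * v'‖ < 1 := by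
    rw [norm_mul, hv1', mul_one, norm_pow]
    exact pow_lt_one₀ (norm_nonneg _) hok.par.y1 (by omega)
  have hm : c.y ^ (d' - d) * v' ∈ HO M c := mul_mem (pow_mem (y_mem_HO hok) _) hv'
  have h1 : ‖v - c.y ^ (d' - d) * v'‖ = 1 := by
    rw [sub_eq_add_neg, IsUltrametricDist.norm_add_eq_max_of_norm_ne_norm
      (by rw [hv1, norm_neg]; exact hy.ne'), norm_neg, hv1, max_eq_left hy.le]
  refine LdBas_no hr hok (sub_mem hv hm) h1 (d := d) ?_
  have h2 : c.y ^ d * (v - c.y ^ (d' - d) * v') = q' + -q := by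
    have h3 : c.y ^ d' = c.y ^ d * c.y ^ (d' - d) := by rw [← pow_add]; congr 1; omega
    rw [h3] at h
    linear_combination h
  rw [h2]
  exact QH_add hok hq' (QH_neg hok hq)

theorem Ld.unique (hr : 0 < r) (hok : Ok m M c) {z : W} {a a' : Fin r → ℤ} {d d' : ℕ}
    (h : Ld M c z a d) (h' : Ld M c z a' d') : a = a' ∧ d = d' := by
  obtain ⟨v, hv, hv1, q, hq, hzq⟩ := id h
  obtain ⟨v', hv', hv1', q', hq', hzq'⟩ := id h'
  have h1 := LdBas_not hr hok h (LdBas_br hok hv' hq') hzq'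
  have h2 := LdBas_not hr hok h' (LdBas_br hok hv hq) hzq
  have ha : a = a' := norm_mon_inj hok.par.ind (le_antisymm (not_lt.1 h1) (not_lt.1 h2))
  subst ha
  refine ⟨rfl, ?_⟩
  have h3 := mul_left_cancel₀ (mon_ne c.x hok.par.ind.ne a) (hzq.symm.trans hzq')
  have h4 := LdBas_d hr hok hv hv1 hq hv' hv1' hq' h3
  have h5 := LdBas_d hr hok hv' hv1' hq' hv hv1 hq h3.symm
  omega

theorem Ld.ne (hr : 0 < r) (hok : Ok m M c) {z : W} {a : Fin r → ℤ} {d : ℕ}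
    (h : Ld M c z a d) : z ≠ 0 := by
  rintro rfl
  obtain ⟨v, hv, hv1, q, hq, hzq⟩ := h
  have h1 := (mul_eq_zero.1 hzq.symm).resolve_left (mon_ne c.x hok.par.ind.ne a)
  refine LdBas_no hr hok hv hv1 (d := d) ?_
  rw [eq_neg_of_add_eq_zero_left h1]
  exact QH_neg hok hq

theorem Ld.mem_HL (hok : Ok m M c) {z : W} {a : Fin r → ℤ} {d : ℕ}
    (h : Ld M c z a d) : z ∈ HL M c := by
  obtain ⟨v, hv, hv1, q, hq, hzq⟩ := h
  exact (mem_HL_iff hok z).2 ⟨a, _, LdBas_br hok hv hq, hzq⟩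

theorem Ld.mul (hok : Ok m M c) {z z' : W} {a a' : Fin r → ℤ} {d d' : ℕ}
    (h : Ld M c z a d) (h' : Ld M c z' a' d') : Ld M c (z * z') (a + a') (d + d') := by
  obtain ⟨v, hv, hv1, q, hq, hzq⟩ := h
  obtain ⟨v', hv', hv1', q', hq', hzq'⟩ := h'
  refine ⟨v * v', mul_mem hv hv', by rw [norm_mul, hv1, hv1', one_mul],
    q * (c.y ^ d' * v' + q') + q' * (c.y ^ d * v), ?_, ?_⟩
  · exact QH_add hok (QH_mul hok hq (LdBas_br hok hv' hq'))
      (QH_mul hok hq' (mul_mem (pow_mem (y_mem_HO hok) _) hv))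
  · rw [hzq, hzq', mon_add c.x hok.par.ind.ne, pow_add]
    ring

theorem Ld.xmul (hok : Ok m M c) {z : W} {a : Fin r → ℤ} {d : ℕ} (h : Ld M c z a d)
    (b : Fin r → ℤ) : Ld M c (mon c.x b * z) (b + a) d := by
  obtain ⟨v, hv, hv1, q, hq, hzq⟩ := h
  exact ⟨v, hv, hv1, q, hq, by rw [hzq, mon_add c.x hok.par.ind.ne, mul_assoc]⟩

theorem Ld.unit_mul (hok : Ok m M c) {z u : W} {a : Fin r → ℤ} {d : ℕ} (h : Ld M c z a d)
    (hu : u ∈ HO M c) (hu1 : ‖u‖ = 1) : Ld M c (u * z) a d := by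
  obtain ⟨v, hv, hv1, q, hq, hzq⟩ := h
  exact ⟨u * v, mul_mem hu hv, by rw [norm_mul, hu1, hv1, one_mul], q * u, QH_mul hok hq hu,
    by rw [hzq]; ring⟩

theorem Ld.norm_le (hok : Ok m M c) {z : W} {a : Fin r → ℤ} {d : ℕ} (h : Ld M c z a d) :
    ‖z‖ ≤ ‖mon c.x a‖ := by
  obtain ⟨v, hv, hv1, q, hq, hzq⟩ := h
  rw [hzq, norm_mul]
  exact mul_le_of_le_one_right (norm_nonneg _) (HO_norm_le hok (LdBas_br hok hv hq))

theorem Ld.norm_lt (hok : Ok m M c) {z : W} {a : Fin r → ℤ} {d : ℕ} (h : Ld M c z a d)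
    (hd : 1 ≤ d) : ‖z‖ < ‖mon c.x a‖ := by
  obtain ⟨v, hv, hv1, q, hq, hzq⟩ := h
  have h1 : ‖c.y ^ d * v + q‖ < 1 := by
    refine lt_of_le_of_lt (IsUltrametricDist.norm_add_le_max _ _) (max_lt ?_ (QH_norm hok hq))
    rw [norm_mul, hv1, mul_one, norm_pow]
    exact pow_lt_one₀ (norm_nonneg _) hok.par.y1 (by omega)
  rw [hzq, norm_mul]
  exact mul_lt_of_lt_one_right (norm_pos_iff.2 (mon_ne c.x hok.par.ind.ne a)) h1

/-- `d = 0` if and only if `z` is monomial. -/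
theorem Ld.moH (hok : Ok m M c) {z : W} {a : Fin r → ℤ} (h : Ld M c z a 0) :
    MoH M c z ∧ ‖z‖ = ‖mon c.x a‖ := by
  obtain ⟨v, hv, hv1, q, hq, hzq⟩ := h
  have h1 : ‖c.y ^ 0 * v + q‖ = 1 := by
    rw [pow_zero, one_mul]
    have h2 := QH_norm hok hq
    rw [IsUltrametricDist.norm_add_eq_max_of_norm_ne_norm (by rw [hv1]; exact h2.ne'), hv1,
      max_eq_left h2.le]
  refine ⟨⟨a, _, LdBas_br hok hv hq, h1, hzq⟩, ?_⟩
  rw [hzq, norm_mul, h1, mul_one]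

theorem MoH.ld (hr : 0 < r) (hok : Ok m M c) {z : W} (h : MoH M c z) :
    ∃ a : Fin r → ℤ, Ld M c z a 0 ∧ ‖mon c.x a‖ = ‖z‖ := by
  obtain ⟨a, u, hu, hu1, hz⟩ := h
  refine ⟨a, ⟨u, hu, hu1, 0, QH_zero hok hr, by rw [hz, pow_zero, one_mul, add_zero]⟩, ?_⟩
  rw [hz, norm_mul, hu1, mul_one]

theorem ld_y (hr : 0 < r) (hok : Ok m M c) : Ld M c c.y 0 1 :=
  ⟨1, one_mem _, norm_one, 0, QH_zero hok hr, by rw [mon_zero, pow_one, one_mul, mul_one, add_zero]⟩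

theorem Gn_eq (hr : 0 < r) (hok : Ok m M c) {z : W} {a : Fin r → ℤ} {d : ℕ}
    (h : Ld M c z a d) : Gn M c z = ‖mon c.x a‖ := by
  have hex : ∃ (a : Fin r → ℤ) (d : ℕ), Ld M c z a d := ⟨a, d, h⟩
  unfold Gn
  rw [dif_pos hex]
  obtain ⟨d', hd'⟩ := hex.choose_spec
  rw [(Ld.unique hr hok hd' h).1]

theorem Gn_zero (hr : 0 < r) (hok : Ok m M c) : Gn M c 0 = 0 := by
  unfold Gn
  rw [dif_neg]
  rintro ⟨a, d, h⟩
  exact h.ne hr hok rfl

theorem Gn_nonneg (z : W) : 0 ≤ Gn M c z := by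
  unfold Gn
  split_ifs
  · exact norm_nonneg _
  · exact le_rfl

theorem Gn_pos (hr : 0 < r) (hok : Ok m M c) {z : W} (hz : z ∈ HL M c) (h0 : z ≠ 0) :
    0 < Gn M c z := by
  obtain ⟨a, d, h⟩ := exists_Ld hr hok hz h0
  rw [Gn_eq hr hok h]
  exact norm_pos_iff.2 (mon_ne c.x hok.par.ind.ne a)

theorem norm_le_Gn (hr : 0 < r) (hok : Ok m M c) {z : W} (hz : z ∈ HL M c) : ‖z‖ ≤ Gn M c z := by
  by_cases h0 : z = 0
  · rw [h0, norm_zero]; exact Gn_nonneg _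
  · obtain ⟨a, d, h⟩ := exists_Ld hr hok hz h0
    rw [Gn_eq hr hok h]
    exact h.norm_le hok

theorem Gn_mul (hr : 0 < r) (hok : Ok m M c) {z z' : W} (hz : z ∈ HL M c) (hz' : z' ∈ HL M c) :
    Gn M c (z * z') = Gn M c z * Gn M c z' := by
  by_cases h0 : z = 0
  · rw [h0, zero_mul, Gn_zero hr hok, zero_mul]
  by_cases h0' : z' = 0
  · rw [h0', mul_zero, Gn_zero hr hok, mul_zero]
  obtain ⟨a, d, h⟩ := exists_Ld hr hok hz h0
  obtain ⟨a', d', h'⟩ := exists_Ld hr hok hz' h0'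
  rw [Gn_eq hr hok h, Gn_eq hr hok h', Gn_eq hr hok (h.mul hok h'), mon_add c.x hok.par.ind.ne,
    norm_mul]

/-- `z ∈ x^a HO` if and only if `Gn z ≤ ‖x^a‖`. -/
private lemma LdBas_le_iff (hr : 0 < r) (hok : Ok m M c) {z : W} (hz : z ∈ HL M c)
    (a : Fin r → ℤ) : Gn M c z ≤ ‖mon c.x a‖ ↔ ∃ h ∈ HO M c, z = mon c.x a * h := by
  by_cases h0 : z = 0
  · constructor
    · intro _
      exact ⟨0, zero_mem _, by rw [h0, mul_zero]⟩
    · intro _
      rw [h0, Gn_zero hr hok]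
      exact norm_nonneg _
  obtain ⟨b, d, h⟩ := exists_Ld hr hok hz h0
  rw [Gn_eq hr hok h]
  constructor
  · intro hle
    obtain ⟨v, hv, hv1, q, hq, hzq⟩ := h
    refine ⟨mon c.x (b - a) * (c.y ^ d * v + q),
      mul_mem (mon_mem_HO hok (LdBas_sub_le hok hle)) (LdBas_br hok hv hq), ?_⟩
    rw [hzq, LdBas_sub hok b a, mul_assoc]
  · rintro ⟨u, hu, hzu⟩
    exact not_lt.1 (LdBas_not hr hok h hu hzu)

private lemma LdBas_add_le (hr : 0 < r) (hok : Ok m M c) {z z' : W} (hz : z ∈ HL M c)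
    (hz' : z' ∈ HL M c) (hle : Gn M c z' ≤ Gn M c z) : Gn M c (z + z') ≤ Gn M c z := by
  by_cases h0 : z = 0
  · have h1 : z' = 0 := by
      by_contra h2
      have h3 := Gn_pos hr hok hz' h2
      rw [h0, Gn_zero hr hok] at hle
      exact absurd hle (not_le.2 h3)
    rw [h0, h1, add_zero]
  obtain ⟨a, d, h⟩ := exists_Ld hr hok hz h0
  have h1 := Gn_eq hr hok h
  rw [h1] at hle ⊢
  obtain ⟨u', hu', hz1'⟩ := (LdBas_le_iff hr hok hz' a).1 hle
  obtain ⟨u, hu, hz1⟩ := (LdBas_le_iff hr hok hz a).1 h1.le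
  refine (LdBas_le_iff hr hok (add_mem hz hz') a).2 ⟨u + u', add_mem hu hu', ?_⟩
  rw [mul_add, ← hz1, ← hz1']

theorem Gn_add_le (hr : 0 < r) (hok : Ok m M c) {z z' : W} (hz : z ∈ HL M c)
    (hz' : z' ∈ HL M c) : Gn M c (z + z') ≤ max (Gn M c z) (Gn M c z') := by
  rcases le_total (Gn M c z') (Gn M c z) with hle | hle
  · exact le_max_of_le_left (LdBas_add_le hr hok hz hz' hle)
  · refine le_max_of_le_right ?_
    rw [add_comm]
    exact LdBas_add_le hr hok hz' hz hle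

theorem Gn_neg (hr : 0 < r) (hok : Ok m M c) {z : W} (hz : z ∈ HL M c) :
    Gn M c (-z) = Gn M c z := by
  by_cases h0 : z = 0
  · rw [h0, neg_zero]
  obtain ⟨a, d, h⟩ := exists_Ld hr hok hz h0
  have h1 : Ld M c (-z) a d := by
    have h2 := h.unit_mul hok (u := -1) (neg_mem (one_mem _)) (by rw [norm_neg, norm_one])
    rwa [neg_one_mul] at h2
  rw [Gn_eq hr hok h, Gn_eq hr hok h1]

theorem Gn_mon (hr : 0 < r) (hok : Ok m M c) (a : Fin r → ℤ) :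
    Gn M c (mon c.x a) = ‖mon c.x a‖ :=
  Gn_eq hr hok (d := 0) ⟨1, one_mem _, norm_one, 0, QH_zero hok hr,
    by rw [pow_zero, one_mul, add_zero, mul_one]⟩

/-- `z ∈ x^a HO` if and only if `Gn z ≤ ‖x^a‖`. -/
theorem Gn_le_iff (hr : 0 < r) (hok : Ok m M c) {z : W} (hz : z ∈ HL M c) (a : Fin r → ℤ) :
    Gn M c z ≤ ‖mon c.x a‖ ↔ ∃ h ∈ HO M c, z = mon c.x a * h :=
  LdBas_le_iff hr hok hz a

theorem Gn_le_one_iff (hr : 0 < r) (hok : Ok m M c) {z : W} (hz : z ∈ HL M c) :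
    Gn M c z ≤ 1 ↔ z ∈ HO M c := by
  have h := Gn_le_iff hr hok hz 0
  rw [mon_zero, norm_one] at h
  rw [h]
  constructor
  · rintro ⟨u, hu, rfl⟩
    rwa [one_mul]
  · intro h
    exact ⟨z, h, (one_mul z).symm⟩

theorem Gn_lt_one_iff (hr : 0 < r) (hok : Ok m M c) {z : W} (hz : z ∈ HL M c) :
    Gn M c z < 1 ↔ z ∈ QH M c := by
  constructor
  · intro h
    by_cases h0 : z = 0
    · rw [h0]; exact QH_zero hok hr
    obtain ⟨a, d, hl⟩ := exists_Ld hr hok hz h0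
    rw [Gn_eq hr hok hl] at h
    obtain ⟨v, hv, hv1, q, hq, hzq⟩ := hl
    rw [hzq]
    exact mon_mul_mem_QH hok h (LdBas_br hok hv hq)
  · rintro ⟨a, ha, u, hu, hzu⟩
    exact lt_of_le_of_lt ((Gn_le_iff hr hok hz a).2 ⟨u, hu, hzu⟩) ha

theorem moH_iff_Gn (hr : 0 < r) (hok : Ok m M c) {z : W} (hz : z ∈ HL M c) (h0 : z ≠ 0) :
    MoH M c z ↔ Gn M c z = ‖z‖ := by
  constructor
  · intro h
    obtain ⟨a, hl, ha⟩ := MoH.ld hr hok h
    rw [Gn_eq hr hok hl, ha]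
  · intro h
    obtain ⟨a, d, hl⟩ := exists_Ld hr hok hz h0
    rw [Gn_eq hr hok hl] at h
    rcases Nat.eq_zero_or_pos d with hd | hd
    · subst hd
      exact (hl.moH hok).1
    · exact absurd h (hl.norm_lt hok hd).ne'

/-- Perturbation of a lead form. -/
theorem Ld.perturb (hr : 0 < r) (hok : Ok m M c) {z w : W} {a : Fin r → ℤ} {d : ℕ}
    (h : Ld M c z a d) (hw : w ∈ HL M c) (hlt : Gn M c w < ‖mon c.x a‖) :
    Ld M c (z + w) a d := by
  by_cases h0 : w = 0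
  · rw [h0, add_zero]; exact h
  obtain ⟨b, e, hl⟩ := exists_Ld hr hok hw h0
  rw [Gn_eq hr hok hl] at hlt
  obtain ⟨v', hv', hv1', q', hq', hwq⟩ := hl
  obtain ⟨v, hv, hv1, q, hq, hzq⟩ := h
  refine ⟨v, hv, hv1, q + mon c.x (b - a) * (c.y ^ e * v' + q'), QH_add hok hq
    (mon_mul_mem_QH hok (LdBas_sub_lt hok hlt) (LdBas_br hok hv' hq')), ?_⟩
  rw [hzq, hwq, LdBas_sub hok b a]
  ring

private lemma LdBas_QH_sum (hr : 0 < r) (hok : Ok m M c) {ι : Type*} (s : Finset ι) (f : ι → W)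
    (h : ∀ i ∈ s, f i ∈ QH M c) : ∑ i ∈ s, f i ∈ QH M c := by
  classical
  induction s using Finset.induction_on with
  | empty => rw [Finset.sum_empty]; exact QH_zero hok hr
  | insert i s hi ih =>
    rw [Finset.sum_insert hi]
    exact QH_add hok (h i (Finset.mem_insert_self _ _))
      (ih fun j hj => h j (Finset.mem_insert_of_mem hj))

/-- Laurent polynomials. -/
theorem Lead.ld (hr : 0 < r) (hok : Ok m M c) {P : LP c.C r} {a0 : Fin r → ℤ} {d : ℕ}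
    (h : Lead c.x P a0 d) : Ld M c (ev c.x c.y P) a0 d := by
  classical
  have hx := hok.par.ind.ne
  have hc : ∀ e : c.C, e ≠ 0 → ‖algebraMap c.C W e‖ = 1 := fun e he =>
    hok.cst.unit _ e.2 (fun h0 => he (Subtype.ext h0))
  have hcm : ∀ e : c.C, algebraMap c.C W e ∈ HO M c := fun e => C_mem_HO hok e.2
  set v : W := ∑ n ∈ P.coeff.support.filter (fun n => n.1 = a0),
    algebraMap c.C W (P.coeff n) * c.y ^ (n.2 - d) with hvdef
  set q : W := ∑ n ∈ P.coeff.support.filter (fun n => ¬ n.1 = a0),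
    algebraMap c.C W (P.coeff n) * (mon c.x (n.1 - a0) * c.y ^ n.2) with hqdef
  have hvm : v ∈ HO M c := sum_mem fun n _ => mul_mem (hcm _) (pow_mem (y_mem_HO hok) _)
  have hqm : q ∈ QH M c := by
    refine LdBas_QH_sum hr hok _ _ fun n hn => ?_
    rw [Finset.mem_filter, Finsupp.mem_support_iff] at hn
    have h1 : ‖mon c.x n.1‖ < ‖mon c.x a0‖ := by
      refine lt_of_le_of_ne (h.max n.1 n.2 hn.1) fun h2 => hn.2 (norm_mon_inj hok.par.ind h2)
    have h2 := mon_mul_mem_QH hok (LdBas_sub_lt hok h1)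
      (mul_mem (pow_mem (y_mem_HO hok) n.2) (hcm (P.coeff n)))
    rw [show algebraMap c.C W (P.coeff n) * (mon c.x (n.1 - a0) * c.y ^ n.2) =
      mon c.x (n.1 - a0) * (c.y ^ n.2 * algebraMap c.C W (P.coeff n)) by ring]
    exact h2
  have hmem : (a0, d) ∈ P.coeff.support.filter (fun n => n.1 = a0) := by
    rw [Finset.mem_filter, Finsupp.mem_support_iff]
    exact ⟨h.mem, rfl⟩
  have hv1 : ‖v‖ = 1 := by
    have h1 : v = algebraMap c.C W (P.coeff (a0, d)) +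
        ∑ n ∈ (P.coeff.support.filter (fun n => n.1 = a0)).erase (a0, d),
          algebraMap c.C W (P.coeff n) * c.y ^ (n.2 - d) := by
      rw [hvdef, ← Finset.add_sum_erase _ _ hmem]
      congr 1
      rw [Nat.sub_self, pow_zero, mul_one]
    have h2 : ‖∑ n ∈ (P.coeff.support.filter (fun n => n.1 = a0)).erase (a0, d),
          algebraMap c.C W (P.coeff n) * c.y ^ (n.2 - d)‖ ≤ ‖c.y‖ := by
      refine IsUltrametricDist.norm_sum_le_of_forall_le_of_nonneg (norm_nonneg _) fun n hn => ?_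
      rw [Finset.mem_erase, Finset.mem_filter, Finsupp.mem_support_iff] at hn
      obtain ⟨hn1, hn2, hn3⟩ := hn
      have h4 : d ≤ n.2 := h.min n.2 (by rw [← hn3]; exact hn2)
      have h5 : n.2 ≠ d := by
        intro h6
        exact hn1 (Prod.ext hn3 h6)
      rw [norm_mul, hc _ hn2, one_mul, norm_pow]
      exact pow_le_of_le_one (norm_nonneg _) hok.par.y1.le (by omega)
    have h3 := hc _ h.mem
    have h4 := lt_of_le_of_lt h2 hok.par.y1
    rw [h1, IsUltrametricDist.norm_add_eq_max_of_norm_ne_norm (by rw [h3]; exact h4.ne'), h3,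
      max_eq_left h4.le]
  refine ⟨v, hvm, hv1, q, hqm, ?_⟩
  unfold ev Finsupp.sum
  rw [← Finset.sum_filter_add_sum_filter_not _ (fun n : (Fin r → ℤ) × ℕ => n.1 = a0), mul_add,
    hvdef, hqdef, Finset.mul_sum, Finset.mul_sum, Finset.mul_sum]
  congr 1
  · refine Finset.sum_congr rfl fun n hn => ?_
    rw [Finset.mem_filter, Finsupp.mem_support_iff] at hn
    have h4 : d ≤ n.2 := h.min n.2 (by rw [← hn.2]; exact hn.1)
    have h5 : c.y ^ n.2 = c.y ^ d * c.y ^ (n.2 - d) := by rw [← pow_add]; congr 1; omega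
    beta_reduce
    rw [hn.2, h5]
    ring
  · refine Finset.sum_congr rfl fun n hn => ?_
    beta_reduce
    rw [LdBas_sub hok n.1 a0]
    ring

theorem Ld.lead (hr : 0 < r) (hok : Ok m M c) {P : LP c.C r} {a0 : Fin r → ℤ} {d : ℕ}
    (h : Ld M c (ev c.x c.y P) a0 d) : Lead c.x P a0 d := by
  have hP : P ≠ 0 := by
    rintro rfl
    rw [ev_zero] at h
    exact h.ne hr hok rfl
  obtain ⟨a, e, hl⟩ := exists_lead hok.par.ind P hP
  obtain ⟨rfl, rfl⟩ := Ld.unique hr hok (Lead.ld hr hok hl) h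
  exact hl

end Pool.Agent.Lib.TU
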