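import Pool.Agent.Lib.TU.HOMap
import Pool.Agent.Lib.TU.LdBas
import Pool.Agent.Lib.TU.ChB

/-!
# Module StHO: the rings `HO` along stages (paper 3.1)

For a stage: `x_i = x'^(T(e_i, 0)).1 w^(..)` and `y = x'^(..) w^(..)` by `St.hm` (`mon_single`), `w` is a unit of
`HO c'` (`St.inH`, `St.w1`), so `x_i, y ∈ MoH c'`; `‖y‖ < 1`, so `y ∈ QH c'` (`MoH.mem_QH`).  `HO_mono`.
`Gn c' z ≤ Gn c z` for `z ∈ HL c`: `z = x^a h`, `h ∈ HO c ⊆ HO c'`, `‖x^a‖ = Gn c z` (`Gn_le_iff`),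
`x^a ∈ MoH c'`.  Then induction on the chain of stages.
-/

namespace Pool.Agent.Lib.TU

open Pool.Agent.Lib.MP_3029eb_ag Pool.Agent.Lib.MP_3029eb_ag.Abh Pool.Agent.Lib.TDO

variable {k W : Type} [Field k] [NormedField W] [IsUltrametricDist W] [Algebra k W] {r m : ℕ}
  {S L : IntermediateField k W} {c c' c'' : Tri k W r}

private theorem StHO_zpow {M : IntermediateField k W} (hok : Ok m M c) {w : W}
    (hw : w ∈ HO M c) (h1 : ‖w‖ = 1) (n : ℤ) : w ^ n ∈ HO M c ∧ ‖w ^ n‖ = 1 := by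
  refine ⟨?_, by rw [norm_zpow, h1, one_zpow]⟩
  cases n with
  | ofNat n => rw [Int.ofNat_eq_natCast, zpow_natCast]; exact pow_mem hw n
  | negSucc n =>
    rw [zpow_negSucc]
    exact inv_mem_HO hok (pow_mem hw _) (by rw [norm_pow, h1, one_pow])

private theorem StR.moh_aux (h : StR m S L c c') (a : Fin r → ℤ) (j : ℤ) :
    MoH (S ⊓ L) c' (mon c.x a * c.y ^ j) := by
  obtain ⟨e, B, w, g, T, h⟩ := h
  rw [h.hm]
  obtain ⟨h1, h2⟩ := StHO_zpow h.ch'.ok h.inH.2 h.w1 (T (a, j)).2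
  exact MoH.mul h.ch'.ok (MoH.of_mon h.ch'.ok _) (MoH.of_unit h1 h2)

private theorem StR.ch_left (h : StR m S L c c') : Ch m S L c := by
  obtain ⟨e, B, w, g, T, h⟩ := h
  exact h.ch

private theorem StR.ch_right (h : StR m S L c c') : Ch m S L c' := by
  obtain ⟨e, B, w, g, T, h⟩ := h
  exact h.ch'

theorem StR.x_moH (h : StR m S L c c') (i : Fin r) : MoH (S ⊓ L) c' (c.x i) := by
  have h1 := h.moh_aux (Pi.single i 1) 0
  rwa [mon_single, zpow_zero, mul_one] at h1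

theorem StR.y_moH (h : StR m S L c c') : MoH (S ⊓ L) c' c.y := by
  have h1 := h.moh_aux 0 1
  rwa [mon_zero, zpow_one, one_mul] at h1

theorem StR.HO_le (hr : 0 < r) (h : StR m S L c c') {z : W} (hz : z ∈ HO (S ⊓ L) c) :
    z ∈ HO (S ⊓ L) c' := by
  refine HO_mono hr h.ch_left.ok h.ch_right.ok le_rfl ?_ h.x_moH
    (h.y_moH.mem_HO h.ch_right.ok h.ch_left.ok.par.y1.le) z hz
  obtain ⟨e, B, w, g, T, h⟩ := h
  exact h.inH.1

theorem RfS.ch (hc : Ch m S L c) (h : RfS m S L c c') : Ch m S L c' := by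
  induction h with
  | refl => exact hc
  | tail _ h2 _ => exact h2.ch_right

theorem RfS.HO_le (hr : 0 < r) (hc : Ch m S L c) (h : RfS m S L c c') {z : W}
    (hz : z ∈ HO (S ⊓ L) c) : z ∈ HO (S ⊓ L) c' := by
  induction h with
  | refl => exact hz
  | tail _ h2 ih => exact h2.HO_le hr ih

theorem RfS.x_moH (hr : 0 < r) (hc : Ch m S L c) (h : RfS m S L c c') (i : Fin r) :
    MoH (S ⊓ L) c' (c.x i) := by
  induction h with
  | refl =>
    have h1 := MoH.of_mon hc.ok (Pi.single i 1)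
    rwa [mon_single] at h1
  | tail _ h2 ih =>
    exact MoH_map h2.ch_right.ok (RingHom.id W) (fun _ => rfl) (fun z hz => h2.HO_le hr hz)
      (fun i => h2.x_moH i) ih

theorem RfS.moH (hr : 0 < r) (hc : Ch m S L c) (h : RfS m S L c c') {z : W}
    (hz : MoH (S ⊓ L) c z) : MoH (S ⊓ L) c' z :=
  MoH_map (RfS.ch hc h).ok (RingHom.id W) (fun _ => rfl) (fun z hz => RfS.HO_le hr hc h hz)
    (fun i => RfS.x_moH hr hc h i) hz

theorem RfS.HL_le (hr : 0 < r) (hc : Ch m S L c) (h : RfS m S L c c') {z : W}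
    (hz : z ∈ HL (S ⊓ L) c) : z ∈ HL (S ⊓ L) c' :=
  HL_map hc.ok (RfS.ch hc h).ok (RingHom.id W) (fun z hz => RfS.HO_le hr hc h hz)
    (fun i => RfS.x_moH hr hc h i) hz

theorem RfS.QH_le (hr : 0 < r) (hc : Ch m S L c) (h : RfS m S L c c') {z : W}
    (hz : z ∈ QH (S ⊓ L) c) : z ∈ QH (S ⊓ L) c' := by
  obtain ⟨a, ha, u, hu, rfl⟩ := hz
  exact QH_mul (RfS.ch hc h).ok
    ((RfS.moH hr hc h (MoH.of_mon hc.ok a)).mem_QH (RfS.ch hc h).ok ha) (RfS.HO_le hr hc h hu)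

theorem RfS.Gn_le (hr : 0 < r) (hc : Ch m S L c) (h : RfS m S L c c') {z : W}
    (hz : z ∈ HL (S ⊓ L) c) : Gn (S ⊓ L) c' z ≤ Gn (S ⊓ L) c z := by
  have hok := hc.ok
  have hok' := (RfS.ch hc h).ok
  by_cases h0 : z = 0
  · rw [h0, Gn_zero hr hok, Gn_zero hr hok']
  obtain ⟨a, d, hl⟩ := exists_Ld hr hok hz h0
  have h1 := Gn_eq hr hok hl
  obtain ⟨u, hu, hzu⟩ := (Gn_le_iff hr hok hz a).1 h1.le
  rw [h1, hzu]
  have hmo := RfS.moH hr hc h (MoH.of_mon hok a)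
  have hu' := RfS.HO_le hr hc h hu
  rw [Gn_mul hr hok' (hmo.mem_HL hok') (HO_le_HL hu'),
    (moH_iff_Gn hr hok' (hmo.mem_HL hok') (hmo.ne hok')).1 hmo]
  exact mul_le_of_le_one_right (norm_nonneg _) ((Gn_le_one_iff hr hok' (HO_le_HL hu')).2 hu')

/-- After at least one stage `y` is monomial. -/
theorem RfS.y_moH (hr : 0 < r) (h : StR m S L c c') (h' : RfS m S L c' c'') :
    MoH (S ⊓ L) c'' c.y :=
  RfS.moH hr h.ch_right h' h.y_moH

/-- After at least one stage, elements of `HO c` of norm `< 1` are in `QH`. -/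
theorem RfS.lt_one (hr : 0 < r) (h : StR m S L c c') (h' : RfS m S L c' c'') {z : W}
    (hz : z ∈ HO (S ⊓ L) c) (h1 : ‖z‖ < 1) : z ∈ QH (S ⊓ L) c'' := by
  have hc := h.ch_left
  have h2 : RfS m S L c c'' := Relation.ReflTransGen.head h h'
  have hok'' := (RfS.ch hc h2).ok
  obtain ⟨q, hq, b, hb, rfl⟩ := HO_gen hr hc.ok hz h1
  refine QH_add hok'' (RfS.QH_le hr hc h2 hq) ?_
  rw [mul_comm]
  exact QH_mul hok'' ((RfS.y_moH hr h h').mem_QH hok'' hc.ok.par.y1) (RfS.HO_le hr hc h2 hb)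

end Pool.Agent.Lib.TU
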