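import Pool.Agent.Lib.TU.StAS
import Pool.Agent.Lib.TDO.Comb
import Pool.Agent.Lib.TDO.ASRun

/-!
# Module ASRunU: the run of Artin-Schreier stages

Follow `Pool/Agent/Lib/TDO/ASRun.lean` (`as_run`).  Strong induction on the lead `d`.  `P = 0` or
`d ≤ 1`: `c' = c`, `P' = P`, `s = 0`.  `d ≥ 2`: if for some finite sequence of second alternatives of
`st_as` the first alternative occurs, conclude by induction (differences `s^p - s` add up:
characteristic `p`).  Otherwise there is an infinite sequence (dependent choice)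
`y_s, P_s, b_s, a_s` (`a_(s+1) = a_s + d b_s`), all with the same constants and the same `x`:
contradiction by `TDO.comb` with `nu = nu c.x`, `X s` = support of `P_s`, `b s = b_s`, `a0 s = a_s`;
`h1` from `Lead.max`, `h2` and `h3` from `st_as`, `hbd` and the first alternative of `h5` because
`‖x^(a_s)‖ > 1` (`RedC` at the exponent `(a_s, d)`, `d ≥ 2`), i.e. `nu a_s < 0`.
-/

namespace Pool.Agent.Lib.TU

open Pool.Agent.Lib.MP_3029eb_ag Pool.Agent.Lib.MP_3029eb_ag.Abh Pool.Agent.Lib.TDO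

section

variable {k W : Type} [Field k] [NormedField W] [IsUltrametricDist W] [Algebra k W] {r m : ℕ}

/-- the conclusion -/
private def ASRunUQ (m p : ℕ) (S L : IntermediateField k W) (c : Tri k W r) (P : LP c.C r) :
    Prop :=
  ∃ c' : Tri k W r, RfS m S L c c' ∧ ∃ P' : LP c'.C r, RedC p c'.x P' ∧
      (∃ s ∈ L, ‖ev c.x c.y P - ev c'.x c'.y P' - (s ^ p - s)‖ < 1) ∧
      (P' = 0 ∨ ∃ (a0' : Fin r → ℤ) (d' : ℕ), Lead c'.x P' a0' d' ∧ d' ≤ 1)

private theorem asrunU_small (k : Type) {W : Type} [Field k] [NormedField W] [IsUltrametricDist W]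
    [Algebra k W] (p : ℕ) [Fact p.Prime] [CharP k p] {f g h s t : W}
    (h1 : ‖f - g - (s ^ p - s)‖ < 1) (h2 : ‖g - h - (t ^ p - t)‖ < 1) :
    ‖f - h - ((s + t) ^ p - (s + t))‖ < 1 := by
  have : CharP W p := charP_of_injective_algebraMap (algebraMap k W).injective p
  have e : f - h - ((s + t) ^ p - (s + t)) = (f - g - (s ^ p - s)) + (g - h - (t ^ p - t)) := by
    rw [add_pow_char s t p]; ring
  rw [e]
  exact lt_of_le_of_lt (IsUltrametricDist.norm_add_le_max _ _) (max_lt h1 h2)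

private theorem asrunU_Q (p : ℕ) [Fact p.Prime] [CharP k p] {S L : IntermediateField k W}
    {c c' : Tri k W r} {P : LP c.C r} {P' : LP c'.C r} (hR : RfS m S L c c')
    (hs : ∃ s ∈ L, ‖ev c.x c.y P - ev c'.x c'.y P' - (s ^ p - s)‖ < 1)
    (hQ : ASRunUQ m p S L c' P') : ASRunUQ m p S L c P := by
  obtain ⟨s, hsL, hs1⟩ := hs
  obtain ⟨c'', hR', P'', hred, ⟨t, htL, ht1⟩, hl⟩ := hQ
  exact ⟨c'', Relation.ReflTransGen.trans hR hR', P'', hred,
    ⟨s + t, add_mem hsL htL, asrunU_small k p hs1 ht1⟩, hl⟩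

private theorem asrunU_refl (p : ℕ) [Fact p.Prime] (S L : IntermediateField k W)
    (c : Tri k W r) (P : LP c.C r) (hred : RedC p c.x P)
    (h : P = 0 ∨ ∃ (a0' : Fin r → ℤ) (d' : ℕ), Lead c.x P a0' d' ∧ d' ≤ 1) :
    ASRunUQ m p S L c P := by
  have hp : p ≠ 0 := (Fact.out : p.Prime).ne_zero
  exact ⟨c, Relation.ReflTransGen.refl, P, hred, ⟨0, zero_mem _, by
    rw [zero_pow hp, sub_self, sub_self, sub_self, norm_zero]; exact one_pos⟩, h⟩

private theorem asrunU_aux [PerfectField k] (hr : 0 < r) (hA : AmbG r m k W) (p : ℕ)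
    [Fact p.Prime] [CharP k p] (S L : IntermediateField k W)
    (hS : ∀ z : W, IsSeparable S z → z ∈ S) (hL : IsComplete (L : Set W)) (d : ℕ) :
    ∀ (c : Tri k W r) (P : LP c.C r) (a0 : Fin r → ℤ), Ch m S L c → RedC p c.x P →
      Lead c.x P a0 d → ASRunUQ m p S L c P := by
  classical
  induction d using Nat.strong_induction_on with
  | _ d ih =>
    intro c P0 a00 hc hred0 hl0
    rcases Nat.lt_or_ge 1 d with hd | hd
    swap
    · exact asrunU_refl p S L c P0 hred0 (Or.inr ⟨a00, d, hl0, hd⟩)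
    by_contra hQ0
    -- states
    have hstep : ∀ s : {s : W × LP c.C r × (Fin r → ℤ) //
        Ch m S L (⟨c.C, c.x, s.1⟩ : Tri k W r) ∧ RedC p c.x s.2.1 ∧ Lead c.x s.2.1 s.2.2 d ∧
        ¬ ASRunUQ m p S L (⟨c.C, c.x, s.1⟩ : Tri k W r) s.2.1},
        ∃ s' : {s : W × LP c.C r × (Fin r → ℤ) //
        Ch m S L (⟨c.C, c.x, s.1⟩ : Tri k W r) ∧ RedC p c.x s.2.1 ∧ Lead c.x s.2.1 s.2.2 d ∧
        ¬ ASRunUQ m p S L (⟨c.C, c.x, s.1⟩ : Tri k W r) s.2.1}, ∃ b : Fin r → ℤ,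
        s'.1.2.2 = s.1.2.2 + d • b ∧ ‖mon c.x b‖ < 1 ∧
        (s.1.2.1.coeff (s.1.2.2 + d • b, 0) ≠ 0 ∨
          s.1.2.1.coeff (s.1.2.2 + (d - 1) • b, 1) ≠ 0) ∧
        ∀ a' j', s'.1.2.1.coeff (a', j') ≠ 0 →
          ∃ n : ℕ, ∃ a j, s.1.2.1.coeff (a, j) ≠ 0 ∧ p ^ n * j' ≤ j ∧
            p ^ n • a' = a + j • b := by
      rintro ⟨⟨y, P, a0⟩, hch, hred, hl, hQ⟩
      simp only at hch hred hl hQ
      rcases st_as hr hA p S L hS hL hch P hred hl hd with
        ⟨c', hR, P', hred', hs, hl'⟩ | ⟨y', P', b, e0, -, -, hR, hred', hs, hl', hb, hc1, hX⟩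
      · exfalso
        apply hQ
        refine asrunU_Q p hR hs ?_
        rcases hl' with h0 | ⟨a0', d', hl', hd'⟩
        · exact asrunU_refl p S L c' P' hred' (Or.inl h0)
        · exact ih d' hd' c' P' a0' (RfS.ch hch hR) hred' hl'
      · have hR' : RfS m S L (⟨c.C, c.x, y⟩ : Tri k W r) ⟨c.C, c.x, y'⟩ :=
          Relation.ReflTransGen.single hR
        exact ⟨⟨(y', P', a0 + d • b), RfS.ch hch hR', hred', hl', fun hQ' =>
          hQ (asrunU_Q p hR' hs hQ')⟩, b, rfl, hb, hc1, hX⟩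
    choose next b h1 h2 h3 h5 using hstep
    obtain ⟨st, hst0, hsucc⟩ : ∃ st : ℕ → {s : W × LP c.C r × (Fin r → ℤ) //
        Ch m S L (⟨c.C, c.x, s.1⟩ : Tri k W r) ∧ RedC p c.x s.2.1 ∧ Lead c.x s.2.1 s.2.2 d ∧
        ¬ ASRunUQ m p S L (⟨c.C, c.x, s.1⟩ : Tri k W r) s.2.1},
        st 0 = ⟨(c.y, P0, a00), hc, hred0, hl0, hQ0⟩ ∧ ∀ n, st (n + 1) = next (st n) :=
      ⟨fun n => next^[n] ⟨(c.y, P0, a00), hc, hred0, hl0, hQ0⟩, rfl,
        fun n => Function.iterate_succ_apply' _ _ _⟩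
    have hind : Indep c.x := hc.ok.par.ind
    have hneg : ∀ n, nu c.x (st n).1.2.2 < 0 := fun n => by
      rcases (st n).2.2.1 _ _ (st n).2.2.2.1.mem with h | h
      · exfalso
        have := h.2
        omega
      · have h := h.1
        rw [← norm_one (α := W), ← mon_zero c.x, norm_mon_lt_iff hind, map_zero] at h
        exact h
    refine comb (nu c.x) (nu_injective hind) p d (Fact.out : p.Prime).two_le (by omega)
      (fun n => (st n).1.2.1.coeff.support)
      (fun n => b (st n)) (fun n => (st n).1.2.2) ?_ ?_ ?_ ?_ ?_ ⟨0, fun n => (hneg n).le⟩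
      (Or.inl hneg)
    · intro n
      have h := h2 (st n)
      rw [← norm_one (α := W), ← mon_zero c.x, norm_mon_lt_iff hind, map_zero] at h
      exact h
    · intro n
      rw [hsucc]
      exact h1 (st n)
    · intro n q hq
      have h := (st n).2.2.2.1.max q.1 q.2 (Finsupp.mem_support_iff.1 hq)
      rwa [norm_mon_le_iff hind] at h
    · intro n m' hm'
      rw [hsucc] at hm'
      obtain ⟨i, a, j, h6, h7, h8⟩ := h5 (st n) m'.1 m'.2 (Finsupp.mem_support_iff.1 hm')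
      exact ⟨i, (a, j), Finsupp.mem_support_iff.2 h6, h7, h8⟩
    · intro n
      rcases h3 (st n) with h | h
      · exact Or.inl (Finsupp.mem_support_iff.2 h)
      · exact Or.inr ⟨by omega, Finsupp.mem_support_iff.2 h⟩

end

/-- See the header. -/
theorem as_runU {k W : Type} [Field k] [PerfectField k] [NormedField W] [IsUltrametricDist W]
    [Algebra k W] {r m : ℕ} (hr : 0 < r) (hA : AmbG r m k W) (p : ℕ) [Fact p.Prime] [CharP k p]
    (S L : IntermediateField k W) (hS : ∀ z : W, IsSeparable S z → z ∈ S)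
    (hL : IsComplete (L : Set W)) {c : Tri k W r} (hc : Ch m S L c) (P : LP c.C r)
    (hred : RedC p c.x P) :
    ∃ c' : Tri k W r, RfS m S L c c' ∧ ∃ P' : LP c'.C r, RedC p c'.x P' ∧
      (∃ s ∈ L, ‖ev c.x c.y P - ev c'.x c'.y P' - (s ^ p - s)‖ < 1) ∧
      (P' = 0 ∨ ∃ (a0' : Fin r → ℤ) (d' : ℕ), Lead c'.x P' a0' d' ∧ d' ≤ 1) := by
  by_cases hP0 : P = 0
  · exact asrunU_refl p S L c P hred (Or.inl hP0)
  · obtain ⟨a0, d, hl⟩ := exists_lead hc.ok.par.ind P hP0
    exact asrunU_aux hr hA p S L hS hL d c P a0 hc hred hl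

end Pool.Agent.Lib.TU
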