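import Pool.Agent.Lib.TU.EvU
import Pool.Agent.Lib.TDO.Cl
import Pool.Agent.Lib.TDO.Tr
import Pool.Agent.Lib.TDO.Red

/-!
# Module CaseBU: the Artin-Schreier step for `d = 1`, arbitrary trivially normed base field

Adapted from `TDO.case_B`.
-/

namespace Pool.Agent.Lib.TU

open Pool.Agent.Lib.MP_3029eb_ag Pool.Agent.Lib.MP_3029eb_ag.Abh Pool.Agent.Lib.TDO

private theorem exists_rho {ι : Type} (s : Finset ι) (f : ι → ℝ) (h : ∀ i ∈ s, f i < 1) :
    ∃ ρ : ℝ, 0 < ρ ∧ ρ < 1 ∧ ∀ i ∈ s, f i ≤ ρ := by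
  classical
  induction s using Finset.induction_on with
  | empty => exact ⟨1 / 2, by norm_num, by norm_num, fun i hi => absurd hi (Finset.notMem_empty i)⟩
  | insert a s _ ih =>
    obtain ⟨ρ, h0, h1, h2⟩ := ih fun i hi => h i (Finset.mem_insert_of_mem hi)
    refine ⟨max ρ (f a), lt_max_of_lt_left h0, max_lt h1 (h a (Finset.mem_insert_self _ _)),
      fun i hi => ?_⟩
    rcases Finset.mem_insert.1 hi with rfl | hi
    · exact le_max_right _ _
    · exact (h2 i hi).trans (le_max_left _ _)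

private theorem norm_sum_le' {W ι : Type} [NormedField W] [IsUltrametricDist W] (s : Finset ι)
    (f : ι → W) {C : ℝ} (hC : 0 ≤ C) (h : ∀ i ∈ s, ‖f i‖ ≤ C) : ‖∑ i ∈ s, f i‖ ≤ C :=
  IsUltrametricDist.norm_sum_le_of_forall_le_of_nonneg hC h

/-- the shape of the sums occurring in the proof -/
private theorem shape {k W : Type} [Field k] [NormedField W] [IsUltrametricDist W]
    [Algebra k W] {r : ℕ} (hu0 : ∀ c : k, c ≠ 0 → ‖algebraMap k W c‖ = 1) {x : Fin r → W} (hx : ∀ i, x i ≠ 0) (P : LP k r)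
    {a0 : Fin r → ℤ} (hc1 : P.coeff (a0, 1) ≠ 0) {ρ : ℝ} (hρ0 : 0 < ρ)
    (hρ : ∀ m ∈ P.coeff.support, m.1 ≠ a0 → ‖mon x (m.1 - a0)‖ ≤ ρ)
    (Z : (Fin r → ℤ) × ℕ → W) {C : ℝ} (hC : 0 ≤ C)
    (hZ : ∀ m ∈ P.coeff.support, ‖Z m‖ ≤ C)
    (hZ0 : ∀ m ∈ P.coeff.support, m.1 = a0 → m ≠ (a0, 1) → ‖Z m‖ ≤ ρ * C) :
    ‖(algebraMap k W (P.coeff (a0, 1))⁻¹ * mon x (-a0)) *
      (∑ m ∈ P.coeff.support, algebraMap k W (P.coeff m) * (mon x m.1 * Z m)) - Z (a0, 1)‖ ≤
      ρ * C := by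
  classical
  have hmem : (a0, 1) ∈ P.coeff.support := Finsupp.mem_support_iff.2 hc1
  rw [Finset.mul_sum, ← Finset.add_sum_erase _ _ hmem]
  have h1 : algebraMap k W (P.coeff (a0, 1))⁻¹ * mon x (-a0) *
      (algebraMap k W (P.coeff (a0, 1)) * (mon x (a0, 1).1 * Z (a0, 1))) = Z (a0, 1) := by
    have e1 : algebraMap k W (P.coeff (a0, 1))⁻¹ * algebraMap k W (P.coeff (a0, 1)) = 1 := by
      rw [← map_mul, inv_mul_cancel₀ hc1, map_one]
    have e2 : mon x (-a0) * mon x a0 = 1 := by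
      rw [mon_neg, inv_mul_cancel₀ (mon_ne x hx a0)]
    calc _ = (algebraMap k W (P.coeff (a0, 1))⁻¹ * algebraMap k W (P.coeff (a0, 1))) *
          (mon x (-a0) * mon x a0) * Z (a0, 1) := by ring
      _ = Z (a0, 1) := by rw [e1, e2, one_mul, one_mul]
  rw [h1, add_sub_cancel_left]
  refine norm_sum_le' _ _ (mul_nonneg hρ0.le hC) fun m hm => ?_
  rw [Finset.mem_erase] at hm
  obtain ⟨hne, hm⟩ := hm
  have e3 : algebraMap k W (P.coeff (a0, 1))⁻¹ * mon x (-a0) *
      (algebraMap k W (P.coeff m) * (mon x m.1 * Z m)) =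
      (algebraMap k W ((P.coeff (a0, 1))⁻¹ * P.coeff m)) * (mon x (m.1 - a0) * Z m) := by
    rw [sub_eq_add_neg, mon_add x hx, map_mul]
    ring
  rw [e3, norm_mul, norm_mul, hu0 _ (mul_ne_zero (inv_ne_zero hc1)
    (Finsupp.mem_support_iff.1 hm)), one_mul]
  by_cases h : m.1 = a0
  · rw [h, sub_self, mon_zero, norm_one, one_mul]
    exact hZ0 m hm h hne
  · exact mul_le_mul (hρ m hm h) (hZ m hm) (norm_nonneg _) hρ0.le

private theorem powdiff {W : Type} [NormedField W] [IsUltrametricDist W] {ρ : ℝ} (hρ0 : 0 < ρ)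
    (hρ1 : ρ < 1) {Y1 Y2 : W} (h1 : ‖Y1‖ ≤ ρ) (h2 : ‖Y2‖ ≤ ρ) (j : ℕ) :
    ‖Y1 ^ j - Y2 ^ j‖ ≤ ‖Y1 - Y2‖ ∧ (2 ≤ j → ‖Y1 ^ j - Y2 ^ j‖ ≤ ρ * ‖Y1 - Y2‖) := by
  induction j with
  | zero =>
    rw [pow_zero, pow_zero, sub_self, norm_zero]
    exact ⟨norm_nonneg _, fun _ => by positivity⟩
  | succ j ih =>
    have e : Y1 ^ (j + 1) - Y2 ^ (j + 1) = Y1 * (Y1 ^ j - Y2 ^ j) + (Y1 - Y2) * Y2 ^ j := by ring
    have hp : ‖Y2 ^ j‖ ≤ 1 := by
      rw [norm_pow]
      exact pow_le_one₀ (norm_nonneg _) (h2.trans hρ1.le)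
    constructor
    · rw [e]
      refine (IsUltrametricDist.norm_add_le_max _ _).trans (max_le ?_ ?_)
      · rw [norm_mul]
        calc ‖Y1‖ * ‖Y1 ^ j - Y2 ^ j‖ ≤ 1 * ‖Y1 - Y2‖ :=
              mul_le_mul (h1.trans hρ1.le) ih.1 (norm_nonneg _) zero_le_one
          _ = ‖Y1 - Y2‖ := one_mul _
      · rw [norm_mul]
        exact mul_le_of_le_one_right (norm_nonneg _) hp
    · intro hj
      rw [e]
      refine (IsUltrametricDist.norm_add_le_max _ _).trans (max_le ?_ ?_)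
      · rw [norm_mul]
        exact mul_le_mul h1 ih.1 (norm_nonneg _) hρ0.le
      · rw [norm_mul, mul_comm]
        refine mul_le_mul_of_nonneg_right ?_ (norm_nonneg _)
        obtain ⟨i, rfl⟩ : ∃ i, j = i + 1 := ⟨j - 1, by omega⟩
        rw [norm_pow, pow_succ]
        calc ‖Y2‖ ^ i * ‖Y2‖ ≤ 1 * ρ := mul_le_mul (pow_le_one₀ (norm_nonneg _)
              (h2.trans hρ1.le)) h2 (norm_nonneg _) zero_le_one
          _ = ρ := one_mul _

private theorem sep_crit {E L : Type} [Field E] [Field L] [Algebra E L] (x : L) (P : Polynomial L)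
    (hc : ∀ i, P.coeff i ∈ Set.range (algebraMap E L)) (h0 : P.eval x = 0)
    (h1 : P.derivative.eval x ≠ 0) : IsSeparable E x := by
  obtain ⟨Q, hQ⟩ := (Polynomial.mem_lifts _).1 ((Polynomial.lifts_iff_coeff_lifts P).2 hc)
  have hQ0 : Polynomial.aeval x Q = 0 := by
    rw [Polynomial.aeval_def, ← Polynomial.eval_map, hQ, h0]
  have hQ1 : Polynomial.aeval x Q.derivative ≠ 0 := by
    rw [Polynomial.aeval_def, ← Polynomial.eval_map, ← Polynomial.derivative_map, hQ]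
    exact h1
  have hQne : Q ≠ 0 := by
    rintro rfl
    simp at hQ1
  have hint : IsIntegral E x := IsAlgebraic.isIntegral ⟨Q, hQne, hQ0⟩
  obtain ⟨R, hR⟩ := minpoly.dvd E x hQ0
  have hd : (minpoly E x).derivative ≠ 0 := by
    intro h
    apply hQ1
    rw [hR, Polynomial.derivative_mul, h, zero_mul, zero_add, map_mul, minpoly.aeval, zero_mul]
  exact (Polynomial.separable_iff_derivative_ne_zero (minpoly.irreducible hint)).2 hd

private theorem ev_eq_sum {k W : Type} [Field k] [Field W] [Algebra k W] {r : ℕ} (x : Fin r → W)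
    (y : W) (P : LP k r) :
    ev x y P = ∑ m ∈ P.coeff.support, algebraMap k W (P.coeff m) * (mon x m.1 * y ^ m.2) := rfl

private theorem ev_mem {k W : Type} [Field k] [Field W] [Algebra k W] {r : ℕ} (x : Fin r → W)
    (y : W) (P : LP k r) {E : IntermediateField k W} (hx : ∀ i, x i ∈ E) (hy : y ∈ E) :
    ev x y P ∈ E := by
  rw [ev_eq_sum]
  exact sum_mem fun m _ => mul_mem (E.algebraMap_mem _) (mul_mem (mon_mem x hx _) (pow_mem hy _))

theorem case_BU {k W : Type} [Field k] [NormedField W] [IsUltrametricDist W]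
    [Algebra k W] {r : ℕ} (hu0 : ∀ c : k, c ≠ 0 → ‖algebraMap k W c‖ = 1) (hr : 0 < r) (p : ℕ) [Fact p.Prime] [CharP k p]
    {x : Fin r → W} {y : W} (hP : Par k x y) (P : LP k r) {a0 : Fin r → ℤ}
    (hl : Lead x P a0 1) (θ : W) (hθ : θ ^ p - θ = ev x y P) :
    ∃ N : Fin r → ℤ, Par k x (mon x N * θ) ∧ y ∈ cl (Kxy k x (mon x N * θ)) ∧
      IsSeparable (Kxy k x (mon x N * θ)) y := by
  classical
  have hx : ∀ i, x i ≠ 0 := hP.ind.ne
  have hc1 : P.coeff (a0, 1) ≠ 0 := hl.mem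
  obtain ⟨N, -, hN⟩ := exists_mon_lt hr hP.ind (1 / (‖θ‖ + 1)) (by positivity)
  set y' : W := mon x N * θ with hy'
  set E := Kxy k x y' with hE
  have hxE : ∀ i, x i ∈ E := fun i => x_mem_Kxy x y' i
  have hθE : θ ∈ E := by
    have : θ = mon x (-N) * y' := by
      rw [hy', mon_neg, inv_mul_cancel_left₀ (mon_ne x hx N)]
    rw [this]
    exact mul_mem (mon_mem_Kxy x y' _) (y_mem_Kxy x y')
  have hy'1 : ‖y'‖ < 1 := by
    rw [hy', norm_mul]
    have h0 : 0 < ‖θ‖ + 1 := by positivity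
    rw [lt_div_iff₀ h0] at hN
    nlinarith [norm_nonneg (mon x N)]
  have hfE : ev x y P ∈ E := by
    rw [← hθ]
    exact sub_mem (pow_mem hθE p) hθE
  set u : W := algebraMap k W (P.coeff (a0, 1))⁻¹ * mon x (-a0) with hu
  have huE : u ∈ E := mul_mem (E.algebraMap_mem _) (mon_mem_Kxy x y' _)
  set w : W := u * ev x y P with hw
  have hwE : w ∈ E := mul_mem huE hfE
  have hw1 : ‖w‖ < 1 := by
    have h1 := (norm_ev_le_leadU hu0 hP.ind hP.y1 hl).2 le_rfl
    rw [hw, norm_mul, hu, norm_mul, hu0 _ (inv_ne_zero hc1), one_mul, mon_neg, norm_inv]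
    have h2 : 0 < ‖mon x a0‖ := norm_pos_iff.2 (mon_ne x hx a0)
    rw [inv_mul_lt_iff₀ h2, mul_one]
    exact h1
  -- the bound `ρ`
  obtain ⟨ρ, hρ0, hρ1, hρy, hρ⟩ : ∃ ρ : ℝ, 0 < ρ ∧ ρ < 1 ∧ ‖y‖ ≤ ρ ∧
      ∀ m ∈ P.coeff.support, m.1 ≠ a0 → ‖mon x (m.1 - a0)‖ ≤ ρ := by
    obtain ⟨ρ, h0, h1, h2⟩ := exists_rho (P.coeff.support.filter fun m => m.1 ≠ a0)
      (fun m => ‖mon x (m.1 - a0)‖) (by
        intro m hm
        rw [Finset.mem_filter] at hm
        have h3 := hl.max m.1 m.2 (Finsupp.mem_support_iff.1 hm.1)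
        have h4 : ‖mon x m.1‖ < ‖mon x a0‖ :=
          lt_of_le_of_ne h3 fun h => hm.2 (norm_mon_inj hP.ind h)
        have h2 : 0 < ‖mon x a0‖ := norm_pos_iff.2 (mon_ne x hx a0)
        rw [sub_eq_add_neg, mon_add x hx, norm_mul, mon_neg, norm_inv, ← div_eq_mul_inv,
          div_lt_one h2]
        exact h4)
    exact ⟨max ρ ‖y‖, lt_max_of_lt_left h0, max_lt h1 hP.y1, le_max_right _ _, fun m hm hne =>
      (h2 m (Finset.mem_filter.2 ⟨hm, hne⟩)).trans (le_max_left _ _)⟩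
  have hge2 : ∀ m ∈ P.coeff.support, m.1 = a0 → m ≠ (a0, 1) → 2 ≤ m.2 := by
    rintro ⟨a, j⟩ hm h hne
    simp only at h
    subst h
    have h1 := hl.min j (Finsupp.mem_support_iff.1 hm)
    have h2 : j ≠ 1 := fun h => hne (by rw [h])
    omega
  -- Lipschitz estimate
  have lip : ∀ Y1 Y2 : W, ‖Y1‖ ≤ ρ → ‖Y2‖ ≤ ρ →
      ‖(u * ev x Y1 P - Y1) - (u * ev x Y2 P - Y2)‖ ≤ ρ * ‖Y1 - Y2‖ := by
    intro Y1 Y2 h1 h2
    have hs := shape hu0 hx P hc1 hρ0 hρ (fun m => Y1 ^ m.2 - Y2 ^ m.2) (C := ‖Y1 - Y2‖)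
      (norm_nonneg _) (fun m _ => (powdiff hρ0 hρ1 h1 h2 m.2).1)
      (fun m hm h hne => (powdiff hρ0 hρ1 h1 h2 m.2).2 (hge2 m hm h hne))
    have e : (u * ev x Y1 P - Y1) - (u * ev x Y2 P - Y2) = u * (∑ m ∈ P.coeff.support,
        algebraMap k W (P.coeff m) * (mon x m.1 * (Y1 ^ m.2 - Y2 ^ m.2))) - (Y1 ^ 1 - Y2 ^ 1) := by
      have e1 : (∑ m ∈ P.coeff.support,
          algebraMap k W (P.coeff m) * (mon x m.1 * (Y1 ^ m.2 - Y2 ^ m.2))) =
          ev x Y1 P - ev x Y2 P := by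
        rw [ev_eq_sum, ev_eq_sum, ← Finset.sum_sub_distrib]
        exact Finset.sum_congr rfl fun m _ => by ring
      rw [e1]; ring
    rw [e]
    exact hs
  -- the approximations
  have hycl : y ∈ cl E := by
    rw [mem_cl_iff]
    have hseq : ∀ n : ℕ, ∃ Y ∈ E, ‖Y‖ ≤ ρ ∧ ‖Y - y‖ ≤ ρ ^ n := by
      intro n
      induction n with
      | zero =>
        refine ⟨0, zero_mem _, by rw [norm_zero]; exact hρ0.le, ?_⟩
        rw [zero_sub, norm_neg, pow_zero]
        exact hP.y1.le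
      | succ n ih =>
        obtain ⟨Y, hYE, hY1, hY2⟩ := ih
        have e : (w - (u * ev x Y P - Y)) - y = -((u * ev x Y P - Y) - (u * ev x y P - y)) := by
          rw [hw]; ring
        have h3 : ‖(w - (u * ev x Y P - Y)) - y‖ ≤ ρ ^ (n + 1) := by
          rw [e, norm_neg, pow_succ']
          exact (lip Y y hY1 hρy).trans (mul_le_mul_of_nonneg_left hY2 hρ0.le)
        refine ⟨w - (u * ev x Y P - Y), sub_mem hwE (sub_mem (mul_mem huE
          (ev_mem x Y P hxE hYE)) hYE), ?_, h3⟩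
        have e2 : w - (u * ev x Y P - Y) = ((w - (u * ev x Y P - Y)) - y) + y := by ring
        rw [e2]
        refine (IsUltrametricDist.norm_add_le_max _ _).trans (max_le (h3.trans ?_) hρy)
        rw [pow_succ]
        exact mul_le_of_le_one_left hρ0.le (pow_le_one₀ hρ0.le hρ1.le)
    intro ε hε
    obtain ⟨n, hn⟩ := exists_pow_lt_of_lt_one hε hρ1
    obtain ⟨Y, hYE, -, hY2⟩ := hseq n
    exact ⟨Y, hYE, by rw [norm_sub_rev]; exact lt_of_le_of_lt hY2 hn⟩
  -- separability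
  have hsep : IsSeparable E y := by
    set G : Polynomial W := (∑ m ∈ P.coeff.support,
      Polynomial.C (algebraMap k W (P.coeff m) * mon x m.1) * Polynomial.X ^ m.2) -
      Polynomial.C (ev x y P) with hG
    refine sep_crit y G ?_ ?_ ?_
    · have hCE : ∀ z ∈ E, (Polynomial.C z : Polynomial W) ∈ (Polynomial.mapRingHom
          (algebraMap E W)).range := fun z hz => ⟨Polynomial.C ⟨z, hz⟩, by
        rw [Polynomial.coe_mapRingHom, Polynomial.map_C]; rfl⟩
      have hXE : (Polynomial.X : Polynomial W) ∈ (Polynomial.mapRingHom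
          (algebraMap E W)).range := ⟨Polynomial.X, by
        rw [Polynomial.coe_mapRingHom, Polynomial.map_X]⟩
      have hGE : G ∈ (Polynomial.mapRingHom (algebraMap E W)).range := by
        rw [hG]
        exact sub_mem (sum_mem fun m _ => mul_mem (hCE _ (mul_mem (E.algebraMap_mem _)
          (mon_mem_Kxy x y' _))) (pow_mem hXE _)) (hCE _ hfE)
      obtain ⟨Q, hQ⟩ := hGE
      intro i
      rw [← hQ, Polynomial.coe_mapRingHom, Polynomial.coeff_map]
      exact ⟨_, rfl⟩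
    · rw [hG, Polynomial.eval_sub, Polynomial.eval_finsetSum, Polynomial.eval_C, ev_eq_sum,
        sub_eq_zero]
      refine Finset.sum_congr rfl fun m _ => ?_
      rw [Polynomial.eval_mul, Polynomial.eval_C, Polynomial.eval_pow, Polynomial.eval_X]
      ring
    · have e : u * G.derivative.eval y = u * (∑ m ∈ P.coeff.support,
          algebraMap k W (P.coeff m) * (mon x m.1 * ((m.2 : W) * y ^ (m.2 - 1)))) := by
        rw [hG, Polynomial.derivative_sub, Polynomial.derivative_C, sub_zero,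
          Polynomial.derivative_sum, Polynomial.eval_finsetSum]
        congr 1
        refine Finset.sum_congr rfl fun m _ => ?_
        rw [Polynomial.derivative_C_mul, Polynomial.derivative_X_pow, Polynomial.eval_mul,
          Polynomial.eval_mul, Polynomial.eval_pow, Polynomial.eval_C, Polynomial.eval_C,
          Polynomial.eval_X]
        ring
      have hs := shape hu0 hx P hc1 hρ0 hρ (fun m => (m.2 : W) * y ^ (m.2 - 1)) (C := 1)
        zero_le_one (fun m _ => by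
          rw [norm_mul, norm_pow]
          exact mul_le_one₀ (IsUltrametricDist.norm_natCast_le_one W m.2)
            (pow_nonneg (norm_nonneg _) _) (pow_le_one₀ (norm_nonneg _) hP.y1.le))
        (fun m hm h hne => by
          have h2 := hge2 m hm h hne
          obtain ⟨i, hi⟩ : ∃ i, m.2 - 1 = i + 1 := ⟨m.2 - 2, by omega⟩
          rw [norm_mul, norm_pow, hi, pow_succ, mul_one]
          calc ‖(m.2 : W)‖ * (‖y‖ ^ i * ‖y‖) ≤ 1 * (1 * ρ) :=
                mul_le_mul (IsUltrametricDist.norm_natCast_le_one W m.2)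
                  (mul_le_mul (pow_le_one₀ (norm_nonneg _) hP.y1.le) hρy (norm_nonneg _)
                    zero_le_one) (by positivity) zero_le_one
            _ = ρ := by ring)
      intro h0
      rw [← hu, ← e, h0, mul_zero] at hs
      have h1 : ((1 : ℕ) : W) * y ^ (1 - 1) = 1 := by
        rw [Nat.sub_self, pow_zero, mul_one, Nat.cast_one]
      rw [h1, zero_sub, norm_neg, norm_one, mul_one] at hs
      linarith
  have hxalg : ∀ i, IsAlgebraic E (x i) := fun i => isAlgebraic_algebraMap (⟨x i, hxE i⟩ : E)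
  have hyalg : IsAlgebraic E y := hsep.isIntegral.isAlgebraic
  exact ⟨N, ⟨hP.ind, hy'1, tr_of_algebraic x y hx hP.tr x y' hx hxalg hyalg⟩, hycl, hsep⟩

end Pool.Agent.Lib.TU
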