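import Pool.Agent.Lib.TU.Defs
import Pool.Agent.Lib.TDO.Ev

/-!
# Module EvU: norms of Laurent polynomials over a trivially normed field
-/

namespace Pool.Agent.Lib.TU

open Pool.Agent.Lib.MP_3029eb_ag Pool.Agent.Lib.MP_3029eb_ag.Abh Pool.Agent.Lib.TDO

variable {k W : Type} [Field k] {r : ℕ}
variable [NormedField W] [IsUltrametricDist W] [Algebra k W] {x : Fin r → W} {y : W}

omit [IsUltrametricDist W] in
private theorem norm_mon_pos (hx : ∀ i, x i ≠ 0) (a : Fin r → ℤ) : 0 < ‖mon x a‖ :=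
  norm_pos_iff.2 (mon_ne x hx a)

omit [IsUltrametricDist W] in
theorem norm_algebraMap_leU (hu : ∀ c : k, c ≠ 0 → ‖algebraMap k W c‖ = 1) (c : k) : ‖algebraMap k W c‖ ≤ 1 := by
  by_cases hc : c = 0
  · rw [hc, map_zero, norm_zero]; exact zero_le_one
  · exact (hu c hc).le

theorem norm_ev_leU (hu : ∀ c : k, c ≠ 0 → ‖algebraMap k W c‖ = 1) (P : LP k r) (C : ℝ) (hC : 0 ≤ C)
    (h : ∀ a j, P.coeff (a, j) ≠ 0 → ‖mon x a * y ^ j‖ ≤ C) : ‖ev x y P‖ ≤ C := by
  unfold ev Finsupp.sum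
  refine IsUltrametricDist.norm_sum_le_of_forall_le_of_nonneg hC fun m hm => ?_
  rw [norm_mul]
  exact (mul_le_of_le_one_left (norm_nonneg _) (norm_algebraMap_leU hu _)).trans
    (h m.1 m.2 (Finsupp.mem_support_iff.1 hm))

theorem norm_ev_ltU (hu : ∀ c : k, c ≠ 0 → ‖algebraMap k W c‖ = 1) (P : LP k r) (C : ℝ) (hC : 0 < C)
    (h : ∀ a j, P.coeff (a, j) ≠ 0 → ‖mon x a * y ^ j‖ < C) : ‖ev x y P‖ < C := by
  classical
  by_cases hP : P.coeff.support.Nonempty
  · obtain ⟨m, hm, hmax⟩ := Finset.exists_max_image P.coeff.support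
      (fun m => ‖mon x m.1 * y ^ m.2‖) hP
    refine lt_of_le_of_lt (norm_ev_leU hu P (‖mon x m.1 * y ^ m.2‖) (norm_nonneg _) ?_)
      (h m.1 m.2 (Finsupp.mem_support_iff.1 hm))
    intro a j haj
    exact hmax (a, j) (Finsupp.mem_support_iff.2 haj)
  · have h0 : P.coeff = 0 := by
      rw [Finset.not_nonempty_iff_eq_empty, Finsupp.support_eq_empty] at hP
      exact hP
    have h1 : P = 0 := AddMonoidAlgebra.coeff_eq_zero.1 h0
    rw [h1, ev_zero, norm_zero]; exact hC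

theorem norm_ev_sub_ltU (hu : ∀ c : k, c ≠ 0 → ‖algebraMap k W c‖ = 1) (P : LP k r) (a0 : Fin r → ℤ) (j0 : ℕ) (C : ℝ)
    (hC : 0 < C) (h : ∀ a j, P.coeff (a, j) ≠ 0 → (a, j) ≠ (a0, j0) → ‖mon x a * y ^ j‖ < C) :
    ‖ev x y P - algebraMap k W (P.coeff (a0, j0)) * (mon x a0 * y ^ j0)‖ < C := by
  classical
  have e : ev x y P - algebraMap k W (P.coeff (a0, j0)) * (mon x a0 * y ^ j0) =
      ev x y (P - AddMonoidAlgebra.single (a0, j0) (P.coeff (a0, j0))) := by
    rw [ev_sub, ev_single]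
  rw [e]
  refine norm_ev_ltU hu _ C hC fun a j haj => ?_
  have h1 : (P - AddMonoidAlgebra.single (a0, j0) (P.coeff (a0, j0))).coeff (a, j) =
      P.coeff (a, j) - (Finsupp.single (a0, j0) (P.coeff (a0, j0))) (a, j) := rfl
  rw [h1] at haj
  by_cases hEq : (a, j) = (a0, j0)
  · rw [hEq, Finsupp.single_eq_same, sub_self] at haj
    exact absurd rfl haj
  · rw [Finsupp.single_apply, if_neg (fun hh => hEq hh.symm), sub_zero] at haj
    exact h a j haj hEq

theorem norm_ev_le_leadU (hu : ∀ c : k, c ≠ 0 → ‖algebraMap k W c‖ = 1) (hx : Indep x) (hy : ‖y‖ < 1) {P : LP k r}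
    {a0 : Fin r → ℤ} {d : ℕ} (h : Lead x P a0 d) :
    ‖ev x y P‖ ≤ ‖mon x a0‖ ∧ (1 ≤ d → ‖ev x y P‖ < ‖mon x a0‖) := by
  have hpos := norm_mon_pos hx.ne a0
  constructor
  · refine norm_ev_leU hu P _ (norm_nonneg _) fun a j haj => ?_
    rw [norm_mul, norm_pow]
    exact (mul_le_of_le_one_right (norm_nonneg _) (pow_le_one₀ (norm_nonneg _) hy.le)).trans
      (h.max a j haj)
  · intro hd
    refine norm_ev_ltU hu P _ hpos fun a j haj => ?_
    rw [norm_mul, norm_pow]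
    by_cases ha : a = a0
    · rw [ha] at haj ⊢
      have hj : 1 ≤ j := hd.trans (h.min j haj)
      exact mul_lt_of_lt_one_right hpos (pow_lt_one₀ (norm_nonneg _) hy (by omega))
    · refine lt_of_le_of_lt
        (mul_le_of_le_one_right (norm_nonneg _) (pow_le_one₀ (norm_nonneg _) hy.le)) ?_
      exact lt_of_le_of_ne (h.max a j haj) fun h4 => ha (norm_mon_inj hx h4)

/-- The norm of the value is the norm of the leading monomial if the lead has `d = 0`. -/
theorem lead_zeroU (hu : ∀ c : k, c ≠ 0 → ‖algebraMap k W c‖ = 1) (hx : Indep x) (hy : ‖y‖ < 1)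
    {P : LP k r} {a0 : Fin r → ℤ} (h : Lead x P a0 0) :
    ‖ev x y P - algebraMap k W (P.coeff (a0, 0)) * mon x a0‖ < ‖mon x a0‖ := by
  have hpos := norm_mon_pos hx.ne a0
  have h2 := norm_ev_sub_ltU (x := x) (y := y) hu P a0 0 _ hpos (by
    intro a j haj hne
    rw [norm_mul, norm_pow]
    by_cases ha : a = a0
    · have hj : j ≠ 0 := fun hj => hne (by rw [ha, hj])
      rw [ha]
      exact mul_lt_of_lt_one_right hpos (pow_lt_one₀ (norm_nonneg _) hy hj)
    · refine lt_of_le_of_lt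
        (mul_le_of_le_one_right (norm_nonneg _) (pow_le_one₀ (norm_nonneg _) hy.le)) ?_
      exact lt_of_le_of_ne (h.max a j haj) fun h4 => ha (norm_mon_inj hx h4))
  rwa [pow_zero, mul_one] at h2

end Pool.Agent.Lib.TU
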