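import Pool.Agent.Lib.TU.Defs
import Pool.Agent.Lib.TDO.Cl

/-!
# Module GW: the norm on `C(w)`

`C` trivially normed, `‖w‖ ≤ 1`, `g` irreducible over `C` with `‖g(w)‖ < 1`.
`gw_lt_iff`: if `g ∤ R` then `a R + b g = 1`, `‖a(w)‖, ‖b(w)‖ ≤ 1`, `‖R(w)‖ ≤ 1`, so `‖R(w)‖ = 1`.
`gw_pow_iff` (`g(w) ≠ 0`): `R = g^n R'`, `g ∤ R'` (for `R ≠ 0`): `‖R(w)‖ = ‖g(w)‖^n`.
In particular `w` is transcendental over `C`; elements of `C(w)` are `R1(w) / R2(w)` and have norms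
in `‖g(w)‖^ℤ`; if the norm is `≤ 1`, cancel `g` from the denominator.
The closure of `C(w)` has the same values (`z ∈ cl`, `‖z - z'‖ < ‖z‖`).
-/

namespace Pool.Agent.Lib.TU

open Pool.Agent.Lib.MP_3029eb_ag Pool.Agent.Lib.MP_3029eb_ag.Abh Pool.Agent.Lib.TDO

variable {k W : Type} [Field k] [NormedField W] [IsUltrametricDist W] [Algebra k W]
  {C : IntermediateField k W} {w : W} {g : Polynomial C}

private theorem gw_ball (z : W) : (ball W).valuation z = 1 ↔ ‖z‖ = 1 := by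
  have h1 : ∀ z : W, (ball W).valuation z ≤ 1 ↔ ‖z‖ ≤ 1 := (ball W).valuation_le_one_iff
  have key : ∀ z : W, ((ball W).valuation z = 1 ↔ ‖z‖ = 1) := by
    intro z
    by_cases h0 : z = 0
    · rw [h0, map_zero, norm_zero]
      exact ⟨fun h => absurd h zero_ne_one, fun h => absurd h zero_ne_one⟩
    have hv0 : (ball W).valuation z ≠ 0 := ((ball W).valuation.ne_zero_iff).2 h0
    have hn0 : 0 < ‖z‖ := norm_pos_iff.2 h0
    have h2 := h1 z
    have h3 := h1 z⁻¹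
    rw [map_inv₀, norm_inv] at h3
    constructor
    · intro h
      have h4 : ‖z‖ ≤ 1 := h2.1 h.le
      have h5 : ‖z‖⁻¹ ≤ 1 := h3.1 (by rw [h, inv_one])
      exact le_antisymm h4 ((inv_le_one₀ hn0).1 h5)
    · intro h
      have h4 : (ball W).valuation z ≤ 1 := h2.2 h.le
      have h5 : ((ball W).valuation z)⁻¹ ≤ 1 := h3.2 (by rw [h, inv_one])
      exact le_antisymm h4 ((inv_le_one₀ (zero_lt_iff.2 hv0)).1 h5)
  exact key z

theorem gw_le_one (hC : ∀ e ∈ C, e ≠ 0 → ‖e‖ = 1) (hw : ‖w‖ ≤ 1) (R : Polynomial C) :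
    ‖Polynomial.aeval w R‖ ≤ 1 := by
  rw [Polynomial.aeval_eq_sum_range]
  refine IsUltrametricDist.norm_sum_le_of_forall_le_of_nonneg zero_le_one fun i _ => ?_
  rw [Algebra.smul_def, norm_mul, norm_pow]
  refine mul_le_one₀ ?_ (pow_nonneg (norm_nonneg _) _) (pow_le_one₀ (norm_nonneg _) hw)
  by_cases h0 : ((R.coeff i : C) : W) = 0
  · change ‖((R.coeff i : C) : W)‖ ≤ 1
    rw [h0, norm_zero]
    exact zero_le_one
  · exact (hC _ (R.coeff i).2 h0).le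

theorem gw_lt_iff (hC : ∀ e ∈ C, e ≠ 0 → ‖e‖ = 1) (hw : ‖w‖ ≤ 1) (gi : Irreducible g)
    (hg : ‖Polynomial.aeval w g‖ < 1) (R : Polynomial C) :
    ‖Polynomial.aeval w R‖ < 1 ↔ g ∣ R := by
  constructor
  · intro h
    by_contra hd
    obtain ⟨a, b, hab⟩ := (EuclideanDomain.dvd_or_coprime g R gi).resolve_left hd
    have h1 := congrArg (Polynomial.aeval w) hab
    rw [map_add, map_mul, map_mul, map_one] at h1
    have h2 : ‖Polynomial.aeval w a * Polynomial.aeval w g‖ < 1 := by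
      rw [norm_mul]
      exact mul_lt_one_of_nonneg_of_lt_one_right (gw_le_one hC hw a) (norm_nonneg _) hg
    have h3 : ‖Polynomial.aeval w b * Polynomial.aeval w R‖ < 1 := by
      rw [norm_mul]
      exact mul_lt_one_of_nonneg_of_lt_one_right (gw_le_one hC hw b) (norm_nonneg _) h
    have h4 := (IsUltrametricDist.norm_add_le_max (Polynomial.aeval w a * Polynomial.aeval w g)
      (Polynomial.aeval w b * Polynomial.aeval w R)).trans_lt (max_lt h2 h3)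
    rw [h1, norm_one] at h4
    exact lt_irrefl _ h4
  · rintro ⟨b, rfl⟩
    rw [map_mul, norm_mul]
    exact mul_lt_one_of_nonneg_of_lt_one_left (norm_nonneg _) hg (gw_le_one hC hw b)

/-- the norm of a product of a power of `g` and a polynomial prime to `g` -/
private theorem gw_norm_eq (hC : ∀ e ∈ C, e ≠ 0 → ‖e‖ = 1) (hw : ‖w‖ ≤ 1) (gi : Irreducible g)
    (hg : ‖Polynomial.aeval w g‖ < 1) (n : ℕ) {R : Polynomial C} (hR : ¬ g ∣ R) :
    ‖Polynomial.aeval w (g ^ n * R)‖ = ‖Polynomial.aeval w g‖ ^ n := by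
  have h1 : ‖Polynomial.aeval w R‖ = 1 := by
    refine le_antisymm (gw_le_one hC hw R) ?_
    by_contra hcon
    exact hR ((gw_lt_iff hC hw gi hg R).1 (not_le.1 hcon))
  rw [map_mul, map_pow, norm_mul, norm_pow, h1, mul_one]

private theorem gw_factor (gi : Irreducible g) {R : Polynomial C} (hR : R ≠ 0) :
    ∃ (n : ℕ) (R' : Polynomial C), ¬ g ∣ R' ∧ R = g ^ n * R' := by
  obtain ⟨n, R', h1, h2⟩ := WfDvdMonoid.max_power_factor hR gi
  exact ⟨n, R', h1, h2⟩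

theorem gw_pow_iff (hC : ∀ e ∈ C, e ≠ 0 → ‖e‖ = 1) (hw : ‖w‖ ≤ 1) (gi : Irreducible g)
    (hg : ‖Polynomial.aeval w g‖ < 1) (hg0 : Polynomial.aeval w g ≠ 0) (R : Polynomial C) (n : ℕ) :
    ‖Polynomial.aeval w R‖ ≤ ‖Polynomial.aeval w g‖ ^ n ↔ g ^ n ∣ R := by
  have hpos : 0 < ‖Polynomial.aeval w g‖ := norm_pos_iff.2 hg0
  constructor
  · intro h
    by_cases hR : R = 0
    · rw [hR]
      exact dvd_zero _
    obtain ⟨m, R', h1, rfl⟩ := gw_factor gi hR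
    rw [gw_norm_eq hC hw gi hg m h1] at h
    have h2 : n ≤ m := (pow_le_pow_iff_right_of_lt_one₀ hpos hg).1 h
    exact (pow_dvd_pow g h2).mul_right _
  · rintro ⟨b, rfl⟩
    rw [map_mul, map_pow, norm_mul, norm_pow]
    exact mul_le_of_le_one_right (pow_nonneg (norm_nonneg _) _) (gw_le_one hC hw b)

theorem gw_ne_zero (hC : ∀ e ∈ C, e ≠ 0 → ‖e‖ = 1) (hw : ‖w‖ ≤ 1) (gi : Irreducible g)
    (hg : ‖Polynomial.aeval w g‖ < 1) (hg0 : Polynomial.aeval w g ≠ 0) {R : Polynomial C}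
    (hR : R ≠ 0) : Polynomial.aeval w R ≠ 0 := by
  obtain ⟨m, R', h1, rfl⟩ := gw_factor gi hR
  rw [← norm_pos_iff, gw_norm_eq hC hw gi hg m h1]
  exact pow_pos (norm_pos_iff.2 hg0) _

private theorem gw_repr {z : W} (hz : z ∈ Cw C w) :
    ∃ R1 R2 : Polynomial C, z = Polynomial.aeval w R1 / Polynomial.aeval w R2 := by
  rw [Cw, IntermediateField.mem_adjoin_simple_iff] at hz
  exact hz

theorem gw_frac (hC : ∀ e ∈ C, e ≠ 0 → ‖e‖ = 1) (hw : ‖w‖ ≤ 1) (gi : Irreducible g)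
    (hg : ‖Polynomial.aeval w g‖ < 1) (hg0 : Polynomial.aeval w g ≠ 0) {z : W}
    (hz : z ∈ Cw C w) (h1 : ‖z‖ ≤ 1) :
    ∃ H1 H2 : Polynomial C, ¬ g ∣ H2 ∧ ‖Polynomial.aeval w H2‖ = 1 ∧
      z * Polynomial.aeval w H2 = Polynomial.aeval w H1 := by
  have hpos : 0 < ‖Polynomial.aeval w g‖ := norm_pos_iff.2 hg0
  have hone : ∀ H : Polynomial C, ¬ g ∣ H → ‖Polynomial.aeval w H‖ = 1 := by
    intro H hH
    have := gw_norm_eq hC hw gi hg 0 hH
    rwa [pow_zero, pow_zero, one_mul] at this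
  obtain ⟨R1, R2, hzR⟩ := gw_repr hz
  by_cases hR2 : R2 = 0
  · refine ⟨0, 1, fun h => gi.not_isUnit (isUnit_of_dvd_one h), by rw [map_one, norm_one], ?_⟩
    rw [hzR, hR2, map_zero, div_zero, zero_mul]
  obtain ⟨n, R2', hn, rfl⟩ := gw_factor gi hR2
  have hz2 : z * Polynomial.aeval w (g ^ n * R2') = Polynomial.aeval w R1 := by
    rw [hzR, div_mul_cancel₀ _ (gw_ne_zero hC hw gi hg hg0 hR2)]
  have h2 : g ^ n ∣ R1 := by
    rw [← gw_pow_iff hC hw gi hg hg0, ← hz2, norm_mul, gw_norm_eq hC hw gi hg n hn]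
    exact mul_le_of_le_one_left (pow_nonneg (norm_nonneg _) _) h1
  obtain ⟨H1, rfl⟩ := h2
  refine ⟨H1, R2', hn, hone _ hn, ?_⟩
  rw [map_mul, map_mul, map_pow] at hz2
  have h3 : Polynomial.aeval w g ^ n ≠ 0 := pow_ne_zero _ hg0
  apply mul_left_cancel₀ h3
  rw [← hz2]
  ring

private theorem gw_mem_closure (R : Polynomial C) :
    Polynomial.aeval w R ∈ Subring.closure ((C : Set W) ∪ {w}) := by
  rw [Polynomial.aeval_eq_sum_range]
  refine sum_mem fun i _ => ?_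
  rw [Algebra.smul_def]
  have h1 : algebraMap C W (R.coeff i) ∈ Subring.closure ((C : Set W) ∪ {w}) :=
    Subring.subset_closure (Or.inl (R.coeff i).2)
  have h2 : w ∈ Subring.closure ((C : Set W) ∪ {w}) := Subring.subset_closure (Or.inr rfl)
  exact mul_mem h1 (pow_mem h2 _)

/-- `Rw C w` is the ring of elements of norm `≤ 1` of `C(w)`. -/
theorem gw_mem_Rw (hC : ∀ e ∈ C, e ≠ 0 → ‖e‖ = 1) (hw : ‖w‖ ≤ 1) (gi : Irreducible g)
    (hg : ‖Polynomial.aeval w g‖ < 1) (hg0 : Polynomial.aeval w g ≠ 0) (z : W) :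
    z ∈ Rw C w ↔ z ∈ Cw C w ∧ ‖z‖ ≤ 1 := by
  constructor
  · rintro ⟨a, ha, b, hb, hb1, h⟩
    have hle : Subring.closure ((C : Set W) ∪ {w}) ≤ (Cw C w).toSubfield.toSubring := by
      rw [Subring.closure_le]
      rintro x (hx | hx)
      · exact (Cw C w).algebraMap_mem ⟨x, hx⟩
      · rw [Set.mem_singleton_iff.1 hx]
        exact IntermediateField.mem_adjoin_simple_self C w
    have hle2 : Subring.closure ((C : Set W) ∪ {w}) ≤ (ball W).toSubring := by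
      rw [Subring.closure_le]
      rintro x (hx | hx)
      · change ‖x‖ ≤ 1
        by_cases h0 : x = 0
        · rw [h0, norm_zero]
          exact zero_le_one
        · exact (hC x hx h0).le
      · rw [Set.mem_singleton_iff.1 hx]
        exact hw
    have hbn : ‖b‖ = 1 := (gw_ball b).1 hb1
    have hb0 : b ≠ 0 := by
      intro h0
      rw [h0, norm_zero] at hbn
      exact zero_ne_one hbn
    have hz : z = a / b := by rw [eq_div_iff hb0, h]
    refine ⟨?_, ?_⟩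
    · rw [hz]
      exact div_mem (hle ha) (hle hb)
    · have ha1 : ‖a‖ ≤ 1 := hle2 ha
      rw [hz, norm_div, hbn, div_one]
      exact ha1
  · rintro ⟨hz, h1⟩
    obtain ⟨H1, H2, -, h3, h4⟩ := gw_frac hC hw gi hg hg0 hz h1
    exact ⟨_, gw_mem_closure H1, _, gw_mem_closure H2, (gw_ball _).2 h3, h4⟩

private theorem gw_val_aux (hC : ∀ e ∈ C, e ≠ 0 → ‖e‖ = 1) (hw : ‖w‖ ≤ 1) (gi : Irreducible g)
    (hg : ‖Polynomial.aeval w g‖ < 1) (hg0 : Polynomial.aeval w g ≠ 0) {z : W}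
    (hz : z ∈ Cw C w) (h0 : z ≠ 0) : ∃ n : ℤ, ‖z‖ = ‖Polynomial.aeval w g‖ ^ n := by
  have hpos : 0 < ‖Polynomial.aeval w g‖ := norm_pos_iff.2 hg0
  obtain ⟨R1, R2, hzR⟩ := gw_repr hz
  have hR1 : R1 ≠ 0 := by
    rintro rfl
    rw [map_zero, zero_div] at hzR
    exact h0 hzR
  have hR2 : R2 ≠ 0 := by
    rintro rfl
    rw [map_zero, div_zero] at hzR
    exact h0 hzR
  obtain ⟨n, R1', hn, rfl⟩ := gw_factor gi hR1
  obtain ⟨m, R2', hm, rfl⟩ := gw_factor gi hR2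
  refine ⟨(n : ℤ) - m, ?_⟩
  rw [hzR, norm_div, gw_norm_eq hC hw gi hg n hn, gw_norm_eq hC hw gi hg m hm,
    zpow_sub₀ hpos.ne', zpow_natCast, zpow_natCast]

theorem gw_val (hC : ∀ e ∈ C, e ≠ 0 → ‖e‖ = 1) (hw : ‖w‖ ≤ 1) (gi : Irreducible g)
    (hg : ‖Polynomial.aeval w g‖ < 1) (hg0 : Polynomial.aeval w g ≠ 0) {z : W}
    (hz : z ∈ cl (Cw C w)) (h0 : z ≠ 0) : ∃ n : ℤ, ‖z‖ = ‖Polynomial.aeval w g‖ ^ n := by
  rw [mem_cl_iff] at hz
  obtain ⟨z', hz', h1⟩ := hz ‖z‖ (norm_pos_iff.2 h0)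
  have h2 : ‖z'‖ = ‖z‖ := by
    have h3 : ‖z + -(z - z')‖ = ‖z‖ := by
      have h4 := IsUltrametricDist.norm_add_eq_max_of_norm_ne_norm (x := z) (y := -(z - z'))
        (by rw [norm_neg]; exact h1.ne')
      rw [h4, norm_neg, max_eq_left h1.le]
    rwa [← sub_eq_add_neg, sub_sub_cancel] at h3
  have h5 : z' ≠ 0 := by
    rw [← norm_pos_iff, h2]
    exact norm_pos_iff.2 h0
  rw [← h2]
  exact gw_val_aux hC hw gi hg hg0 hz' h5

end Pool.Agent.Lib.TU
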