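import Pool.Agent.Lib.TU.NC
import Pool.Agent.Lib.TU.MtB
import Pool.Agent.Lib.TU.EvU
import Pool.Agent.Lib.TDO.Cl
import Pool.Agent.Lib.TU.GW
import Pool.Agent.Lib.TU.TrU
import Pool.Agent.Lib.MP_3029eb_ag.AbhBase
import Pool.Agent.Lib.MP_3029eb_ag.Comp3

/-!
# Module CaseC: the Artin-Schreier step for `d = 0`, `a0 = p a1`, coefficient not a `p`-th power
(paper 5.2)

`P = e0 X^(p a1) + ∑_((a, j) ≠ (a0, 0)) e_(a,j) X^a Y^j`, `‖x^a1‖ > 1`.  `w := θ x^(-a1)`.
`w^p = (θ + P) x^(-p a1) = e0 + ∑ e_(a,j) x^(a - a0) y^j + w x^(a1 - a0)`.  Here `a = a0` and `j ≥ 1`, or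
`‖x^(a - a0)‖ < 1`; `‖x^(a1 - a0)‖ = ‖x^a1‖^(1-p) < 1`.  So `‖w^p - e0‖ < 1`, `‖w‖ = 1`.
`exists_Mt`: `Mt x x'` such that all these monomials `x^(a - a0)` (`a ≠ a0`) and `x^(a1 - a0)` are
monomials in `x'` with exponents `≥ 1`: so `w^p - e0 ∈ (x', y) BN`, `BN = BN c.C x' y w`.
`hmax`: every element of `c.C[x', y, w]` is `R(w) + (x', y)`-part with `R ∈ c.C[T]`, and modulo
`(x', y) BN` we may reduce `R` modulo `T^p - e0`: `natDegree R < p`.  If the norm is `< 1` then
`‖R(w)‖ < 1`; `T^p - e0` is irreducible over `c.C` (`e0` is not a `p`-th power), and is small at `w`, so it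
divides `R` (`gw_lt_iff` with `g = X^p - C e0`), `R = 0`.
`new_chart` for `L1 := L ⊔ k(θ)`, `L0 := L1` (complete), `C := c.C`, `w`, `x'`, `y' := y`,
`z0 = (y, x)`: `c.C(x', y, w) = c.C(x, y, θ)` is dense in `L1` (`L1 = L[θ]`) and `S` is separable over it;
`θ ∈ S` because `T^p - T - P` is separable over `S`.
-/

namespace Pool.Agent.Lib.TU

open Pool.Agent.Lib.MP_3029eb_ag Pool.Agent.Lib.MP_3029eb_ag.Abh Pool.Agent.Lib.TDO

/-- the elements of the ideal generated by the parameters, explicitly -/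
private def CaseCJ {W : Type} [Field W] {r : ℕ} (R : Subring W) (x' : Fin r → W) (y z : W) : Prop :=
  ∃ (b : Fin r → W) (b0 : W), (∀ i, b i ∈ R) ∧ b0 ∈ R ∧ z = ∑ i, b i * x' i + b0 * y

section J

variable {W : Type} [Field W] {r : ℕ} {R : Subring W} {x' : Fin r → W} {y : W}

private theorem CaseCJ.zero : CaseCJ R x' y 0 :=
  ⟨0, 0, fun _ => zero_mem _, zero_mem _, by simp⟩

private theorem CaseCJ.add {z z' : W} (h : CaseCJ R x' y z) (h' : CaseCJ R x' y z') :
    CaseCJ R x' y (z + z') := by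
  obtain ⟨b, b0, h1, h2, rfl⟩ := h
  obtain ⟨b', b0', h1', h2', rfl⟩ := h'
  refine ⟨fun i => b i + b' i, b0 + b0', fun i => add_mem (h1 i) (h1' i), add_mem h2 h2', ?_⟩
  simp only [add_mul, Finset.sum_add_distrib]
  ring

private theorem CaseCJ.mul {c z : W} (hc : c ∈ R) (h : CaseCJ R x' y z) :
    CaseCJ R x' y (c * z) := by
  obtain ⟨b, b0, h1, h2, rfl⟩ := h
  refine ⟨fun i => c * b i, c * b0, fun i => mul_mem hc (h1 i), mul_mem hc h2, ?_⟩
  rw [mul_add, Finset.mul_sum]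
  congr 1
  · exact Finset.sum_congr rfl fun i _ => by ring
  · ring

private theorem CaseCJ.sum {ι : Type} (s : Finset ι) (f : ι → W)
    (h : ∀ i ∈ s, CaseCJ R x' y (f i)) : CaseCJ R x' y (∑ i ∈ s, f i) := by
  classical
  induction s using Finset.induction_on with
  | empty => rw [Finset.sum_empty]; exact CaseCJ.zero
  | insert a s ha ih =>
    rw [Finset.sum_insert ha]
    exact (h a (Finset.mem_insert_self a s)).add (ih fun i hi => h i (Finset.mem_insert_of_mem hi))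

private theorem CaseCJ.gx (i : Fin r) : CaseCJ R x' y (x' i) := by
  classical
  refine ⟨Pi.single i 1, 0, fun j => ?_, zero_mem _, ?_⟩
  · by_cases hj : j = i
    · subst hj
      rw [Pi.single_eq_same]
      exact one_mem _
    · rw [Pi.single_eq_of_ne hj]
      exact zero_mem _
  · rw [Finset.sum_eq_single i, Pi.single_eq_same, one_mul, zero_mul, add_zero]
    · intro j _ hj
      rw [Pi.single_eq_of_ne hj, zero_mul]
    · intro h
      exact absurd (Finset.mem_univ i) h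

private theorem CaseCJ.gy : CaseCJ R x' y y :=
  ⟨0, 1, fun _ => zero_mem _, one_mem _, by simp⟩

end J

private theorem CaseCJ.norm_lt {W : Type} [NormedField W] [IsUltrametricDist W] {r : ℕ}
    {R : Subring W} {x' : Fin r → W} {y : W} (hR : R ≤ (ball W).toSubring)
    (hx : ∀ i, ‖x' i‖ < 1) (hy : ‖y‖ < 1) {z : W} (h : CaseCJ R x' y z) : ‖z‖ < 1 := by
  obtain ⟨b, b0, h1, h2, rfl⟩ := h
  have hb : ∀ c ∈ R, ∀ v : W, ‖v‖ < 1 → ‖c * v‖ < 1 := by
    intro c hc v hv
    rw [norm_mul]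
    have h3 : ‖c‖ ≤ 1 := hR hc
    calc ‖c‖ * ‖v‖ ≤ 1 * ‖v‖ := mul_le_mul_of_nonneg_right h3 (norm_nonneg _)
      _ = ‖v‖ := one_mul _
      _ < 1 := hv
  refine lt_of_le_of_lt (IsUltrametricDist.norm_add_le_max _ _) (max_lt ?_ (hb _ h2 _ hy))
  rcases isEmpty_or_nonempty (Fin r) with he | he
  · rw [Finset.univ_eq_empty, Finset.sum_empty, norm_zero]
    exact zero_lt_one
  · obtain ⟨i, -, hi⟩ := IsUltrametricDist.exists_norm_finsetSum_le_of_nonempty
      (t := (Finset.univ : Finset (Fin r))) Finset.univ_nonempty (fun i => b i * x' i)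
    exact lt_of_le_of_lt hi (hb _ (h1 i) _ (hx i))

private theorem caseC_dec {k W : Type} [Field k] [NormedField W] [IsUltrametricDist W]
    [Algebra k W] {r : ℕ} (C : IntermediateField k W) (hC : ∀ e ∈ C, e ≠ 0 → ‖e‖ = 1)
    (x' : Fin r → W) (y w : W) (hx : ∀ i, ‖x' i‖ < 1) (hy : ‖y‖ < 1) (hw : ‖w‖ ≤ 1)
    (g : Polynomial C) (gi : Irreducible g)
    (hg : CaseCJ (BN C x' y w) x' y (Polynomial.aeval w g)) :
    ∀ z ∈ BN C x' y w, ‖z‖ < 1 → CaseCJ (BN C x' y w) x' y z := by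
  obtain ⟨R0, hR0⟩ : ∃ R0 : Subring W, R0 =
    Subring.closure ((C : Set W) ∪ (Set.range x' ∪ {y, w})) := ⟨_, rfl⟩
  have hBN : BN C x' y w = locV (ball W) R0 := by rw [hR0]; rfl
  have hCn : ∀ e ∈ C, ‖e‖ ≤ 1 := by
    intro e he
    by_cases h0 : e = 0
    · rw [h0, norm_zero]; exact zero_le_one
    · exact (hC e he h0).le
  have hR0b : R0 ≤ (ball W).toSubring := by
    rw [hR0, Subring.closure_le]
    rintro z (hz | ⟨i, rfl⟩ | hz | hz)
    · exact hCn z hz
    · exact (hx i).le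
    · rw [hz]; exact hy.le
    · rw [Set.mem_singleton_iff.1 hz]; exact hw
  have hBNb : BN C x' y w ≤ (ball W).toSubring := by
    rw [hBN]
    exact locV_le _ hR0b
  have hR0BN : ∀ a ∈ R0, a ∈ BN C x' y w := by
    intro a ha
    rw [hBN]
    exact C2_le_locV _ _ ha
  have hgen : ∀ a ∈ (C : Set W) ∪ (Set.range x' ∪ {y, w}), a ∈ R0 := by
    intro a ha
    rw [hR0]
    exact Subring.subset_closure ha
  have hCR : ∀ e ∈ C, e ∈ R0 := fun e he => hgen e (Or.inl he)
  have hwR : w ∈ R0 := hgen w (Or.inr (Or.inr (Or.inr rfl)))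
  have hev : ∀ q : Polynomial C, Polynomial.aeval w q ∈ R0 := by
    intro q
    rw [Polynomial.aeval_eq_sum_range]
    refine sum_mem fun i _ => ?_
    rw [Algebra.smul_def]
    exact mul_mem (hCR _ (q.coeff i).2) (pow_mem hwR _)
  have hglt : ‖Polynomial.aeval w g‖ < 1 := hg.norm_lt hBNb hx hy
  have hneg : ∀ z, CaseCJ (BN C x' y w) x' y z → CaseCJ (BN C x' y w) x' y (-z) := by
    intro z hz
    have := hz.mul (c := -1) (neg_mem (one_mem _))
    rwa [neg_one_mul] at this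
  have hdec : ∀ a ∈ R0, ∃ q : Polynomial C,
      CaseCJ (BN C x' y w) x' y (a - Polynomial.aeval w q) := by
    intro a ha
    rw [hR0] at ha
    induction ha using Subring.closure_induction with
    | mem z hz =>
      rcases hz with hz | ⟨i, rfl⟩ | hz | hz
      · refine ⟨Polynomial.C ⟨z, hz⟩, ?_⟩
        rw [Polynomial.aeval_C]
        have h0 : z - algebraMap C W ⟨z, hz⟩ = 0 := sub_self z
        rw [h0]
        exact CaseCJ.zero
      · refine ⟨0, ?_⟩
        rw [map_zero, sub_zero]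
        exact CaseCJ.gx i
      · refine ⟨0, ?_⟩
        rw [map_zero, sub_zero, hz]
        exact CaseCJ.gy
      · refine ⟨Polynomial.X, ?_⟩
        rw [Polynomial.aeval_X, Set.mem_singleton_iff.1 hz, sub_self]
        exact CaseCJ.zero
    | zero =>
      refine ⟨0, ?_⟩
      rw [map_zero, sub_zero]
      exact CaseCJ.zero
    | one =>
      refine ⟨1, ?_⟩
      rw [map_one, sub_self]
      exact CaseCJ.zero
    | add a b _ _ ha hb =>
      obtain ⟨q, hq⟩ := ha
      obtain ⟨q', hq'⟩ := hb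
      refine ⟨q + q', ?_⟩
      have h0 : a + b - Polynomial.aeval w (q + q') =
          (a - Polynomial.aeval w q) + (b - Polynomial.aeval w q') := by
        rw [map_add]; ring
      rw [h0]
      exact hq.add hq'
    | neg a _ ha =>
      obtain ⟨q, hq⟩ := ha
      refine ⟨-q, ?_⟩
      have h0 : -a - Polynomial.aeval w (-q) = -(a - Polynomial.aeval w q) := by
        rw [map_neg]; ring
      rw [h0]
      exact hneg _ hq
    | mul a b ha' _ ha hb =>
      obtain ⟨q, hq⟩ := ha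
      obtain ⟨q', hq'⟩ := hb
      refine ⟨q * q', ?_⟩
      have h0 : a * b - Polynomial.aeval w (q * q') =
          a * (b - Polynomial.aeval w q') + Polynomial.aeval w q' * (a - Polynomial.aeval w q) := by
        rw [map_mul]; ring
      rw [h0]
      exact (hq'.mul (hR0BN _ (hR0 ▸ ha'))).add (hq.mul (hR0BN _ (hev q')))
  have hR0J : ∀ a ∈ R0, ‖a‖ < 1 → CaseCJ (BN C x' y w) x' y a := by
    intro a ha ha1
    obtain ⟨q, hq⟩ := hdec a ha
    have h1 : ‖Polynomial.aeval w q‖ < 1 := by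
      have h2 : Polynomial.aeval w q = a + -(a - Polynomial.aeval w q) := by ring
      rw [h2]
      refine lt_of_le_of_lt (IsUltrametricDist.norm_add_le_max _ _) (max_lt ha1 ?_)
      rw [norm_neg]
      exact hq.norm_lt hBNb hx hy
    obtain ⟨q', hq'⟩ := (gw_lt_iff hC hw gi hglt q).1 h1
    have h3 : a = (a - Polynomial.aeval w q) + Polynomial.aeval w q' * Polynomial.aeval w g := by
      rw [hq', map_mul]; ring
    rw [h3]
    exact hq.add (hg.mul (hR0BN _ (hev q')))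
  intro z hz hz1
  rw [hBN] at hz
  obtain ⟨a, ha, b, hb, hb1, hab⟩ := hz
  have hb1' : ‖b‖ = 1 := (ball_val_eq_one b).1 hb1
  have hb0 : b ≠ 0 := by
    rintro rfl
    rw [norm_zero] at hb1'
    exact zero_ne_one hb1'
  have ha1 : ‖a‖ < 1 := by
    rw [← hab, norm_mul, hb1', mul_one]
    exact hz1
  have hbi : b⁻¹ ∈ BN C x' y w := by
    rw [hBN]
    exact ⟨1, one_mem _, b, hb, hb1, inv_mul_cancel₀ hb0⟩
  have h4 : z = b⁻¹ * a := by
    rw [← hab]
    field_simp
  rw [h4]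
  exact (hR0J a ha ha1).mul hbi

private theorem caseC_monN {W : Type} [Field W] {r : ℕ} {R : Subring W} {x' : Fin r → W} {y : W}
    (hx : ∀ i, x' i ∈ R) (β : Fin r → ℕ) (i : Fin r) (hi : 1 ≤ β i) :
    CaseCJ R x' y (monN x' β) := by
  classical
  have h1 : monN x' β = (x' i ^ (β i - 1) * ∏ j ∈ Finset.univ.erase i, x' j ^ β j) * x' i := by
    rw [monN, ← Finset.mul_prod_erase _ _ (Finset.mem_univ i)]
    obtain ⟨n, hn⟩ : ∃ n, β i = n + 1 := ⟨β i - 1, by omega⟩
    rw [hn, Nat.add_sub_cancel, pow_succ]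
    ring
  rw [h1]
  exact (CaseCJ.gx i).mul (mul_mem (pow_mem (hx i) _) (prod_mem fun j _ => pow_mem (hx j) _))

private theorem caseC_sep {E W : Type} [Field E] [Field W] [Algebra E W] (x : W)
    (Q : Polynomial E) (hQ0 : Polynomial.aeval x Q = 0)
    (hQ1 : Polynomial.aeval x (Polynomial.derivative Q) ≠ 0) : IsSeparable E x := by
  have hQne : Q ≠ 0 := by
    rintro rfl
    simp at hQ1
  have hint : IsIntegral E x := IsAlgebraic.isIntegral ⟨Q, hQne, hQ0⟩
  obtain ⟨R, hR⟩ := minpoly.dvd E x hQ0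
  have hd : Polynomial.derivative (minpoly E x) ≠ 0 := by
    intro h
    apply hQ1
    rw [hR, Polynomial.derivative_mul, h, zero_mul, zero_add, map_mul, minpoly.aeval, zero_mul]
  exact (Polynomial.separable_iff_derivative_ne_zero (minpoly.irreducible hint)).2 hd

private theorem caseC_sep_mono {k W : Type} [Field k] [Field W] [Algebra k W]
    {E E' : IntermediateField k W} (h : E ≤ E') {z : W} (hz : IsSeparable E z) :
    IsSeparable E' z := by
  let _ := (IntermediateField.inclusion h).toRingHom.toAlgebra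
  have : IsScalarTower E E' W := IsScalarTower.of_algebraMap_eq (fun _ => rfl)
  exact hz.tower_top E'

private theorem caseC_main {k W : Type} [Field k] [PerfectField k] [NontriviallyNormedField W]
    [IsUltrametricDist W] [Algebra k W] {r m : ℕ} (hr : 0 < r) (hA : AmbG r m k W) (p : ℕ)
    [Fact p.Prime] [CharP k p] (S L : IntermediateField k W)
    (hS : ∀ z : W, IsSeparable S z → z ∈ S) (hL : IsComplete (L : Set W))
    (C : IntermediateField k W) (x : Fin r → W) (y : W) (hC : Cst m C) (hP : Par C x y)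
    (hCM : C ≤ S ⊓ L) (hxM : ∀ i, x i ∈ S ⊓ L) (hyM : y ∈ S ⊓ L)
    (hdense : ∀ z ∈ L, z ∈ cl (Kxy C x y)) (hsep : ∀ z ∈ S, IsSeparable (Kxy C x y) z)
    (P : LP C r) (a1 : Fin r → ℤ) (hl : Lead x P (p • a1) 0)
    (h1 : 1 < ‖mon x (p • a1)‖) (hnp : ¬ ∃ b : C, P.coeff (p • a1, 0) = b ^ p) (θ : W)
    (hθ : θ ^ p - θ = ev x y P) : HasCh m S r (L ⊔ IntermediateField.adjoin k {θ}) := by
  classical
  have hp : p.Prime := Fact.out
  have hcW : CharP W p := charP_of_injective_algebraMap (algebraMap k W).injective p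
  have hx : ∀ i, x i ≠ 0 := hP.ind.ne
  have hu : ∀ e : C, e ≠ 0 → ‖algebraMap C W e‖ = 1 := by
    intro e he
    exact hC.unit e e.2 (fun h0 => he (Subtype.ext h0))
  obtain ⟨a0, ha0⟩ : ∃ a0 : Fin r → ℤ, a0 = p • a1 := ⟨_, rfl⟩
  rw [← ha0] at hl h1 hnp
  obtain ⟨e0, he0⟩ : ∃ e0 : C, e0 = P.coeff (a0, 0) := ⟨_, rfl⟩
  have hc : P.coeff (a0, 0) ≠ 0 := hl.mem
  obtain ⟨f, hf⟩ : ∃ f : W, f = ev x y P := ⟨_, rfl⟩
  rw [← hf] at hθ
  have hmpos : 0 < ‖mon x a0‖ := norm_pos_iff.2 (mon_ne x hx a0)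
  have hfn : ‖f‖ = ‖mon x a0‖ := by
    have h1 := lead_zeroU hu hP.ind hP.y1 hl
    have h2 : ‖algebraMap C W (P.coeff (a0, 0)) * mon x a0‖ = ‖mon x a0‖ := by
      rw [norm_mul, hu _ hc, one_mul]
    have h3 : f = algebraMap C W (P.coeff (a0, 0)) * mon x a0 +
        (f - algebraMap C W (P.coeff (a0, 0)) * mon x a0) := by ring
    rw [← hf] at h1
    rw [h3, IsUltrametricDist.norm_add_eq_max_of_norm_ne_norm (by rw [h2]; exact h1.ne'), h2]
    exact max_eq_left h1.le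
  have hθ1 : 1 < ‖θ‖ := by
    by_contra hcon
    push Not at hcon
    have : ‖f‖ ≤ 1 := by
      rw [← hθ, sub_eq_add_neg]
      refine (IsUltrametricDist.norm_add_le_max _ _).trans (max_le ?_ ?_)
      · rw [norm_pow]; exact pow_le_one₀ (norm_nonneg _) hcon
      · rw [norm_neg]; exact hcon
    rw [hfn] at this
    linarith
  have hθ0 : θ ≠ 0 := by
    rintro rfl
    rw [norm_zero] at hθ1
    linarith
  have hθp : ‖θ‖ ^ p = ‖mon x a0‖ := by
    rw [← hfn, ← hθ, sub_eq_add_neg, IsUltrametricDist.norm_add_eq_max_of_norm_ne_norm, norm_neg,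
      norm_pow]
    · refine (max_eq_left ?_).symm
      exact le_self_pow₀ hθ1.le hp.ne_zero
    · rw [norm_neg, norm_pow]
      exact (lt_self_pow₀ hθ1 hp.one_lt).ne'
  have hθa1 : ‖θ‖ = ‖mon x a1‖ := by
    have h2 : ‖θ‖ ^ p = ‖mon x a1‖ ^ p := by
      rw [hθp, ha0, mon_nsmul, norm_pow]
    exact (pow_left_inj₀ (norm_nonneg _) (norm_nonneg _) hp.ne_zero).1 h2
  have hM1 : mon x a1 ≠ 0 := mon_ne x hx a1
  have hM0 : mon x a0 ≠ 0 := mon_ne x hx a0
  have hM0p : mon x a0 = mon x a1 ^ p := by rw [ha0, mon_nsmul]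
  obtain ⟨w, hw⟩ : ∃ w : W, w = θ * (mon x a1)⁻¹ := ⟨_, rfl⟩
  have hw1 : ‖w‖ = 1 := by
    rw [hw, norm_mul, norm_inv, hθa1, mul_inv_cancel₀ (norm_ne_zero_iff.2 hM1)]
  have hθw : θ = w * mon x a1 := by rw [hw, inv_mul_cancel_right₀ hM1]
  -- the exponents
  obtain ⟨Y, hY⟩ : ∃ Y : Finset (Fin r → ℤ),
      Y = insert (a1 - a0) (P.coeff.support.image (fun n => n.1 - a0)) := ⟨_, rfl⟩
  have hsubn : ∀ a : Fin r → ℤ, ‖mon x (a - a0)‖ = ‖mon x a‖ / ‖mon x a0‖ := by
    intro a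
    rw [sub_eq_add_neg, mon_add x hx, mon_neg, norm_mul, norm_inv, div_eq_mul_inv]
  have ha1lt : ‖mon x (a1 - a0)‖ < 1 := by
    rw [hsubn, div_lt_one hmpos, ← hθp, ← hθa1]
    exact lt_self_pow₀ hθ1 hp.one_lt
  have hsup : ∀ n ∈ P.coeff.support, ‖mon x (n.1 - a0)‖ ≤ 1 := by
    intro n hn
    rw [hsubn, div_le_one hmpos]
    exact hl.max n.1 n.2 (Finsupp.mem_support_iff.1 hn)
  have hsup' : ∀ n ∈ P.coeff.support, n.1 ≠ a0 → ‖mon x (n.1 - a0)‖ < 1 := by
    intro n hn hne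
    refine lt_of_le_of_ne (hsup n hn) fun h => hne ?_
    have h2 : ‖mon x (n.1 - a0)‖ = ‖mon x 0‖ := by rw [h, mon_zero, norm_one]
    exact sub_eq_zero.1 (norm_mon_inj hP.ind h2)
  obtain ⟨x', hMt, hβ⟩ := exists_Mt hP.ind Y (by
    intro a ha
    rw [hY, Finset.mem_insert] at ha
    rcases ha with rfl | ha
    · exact ha1lt.le
    · obtain ⟨n, hn, rfl⟩ := Finset.mem_image.1 ha
      exact hsup n hn)
  have hx'1 : ∀ i, ‖x' i‖ < 1 := hMt.ind.lt
  -- the ring BN
  obtain ⟨B, hB⟩ : ∃ B : Subring W, B = BN C x' y w := ⟨_, rfl⟩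
  have hgenB : ∀ z ∈ (C : Set W) ∪ (Set.range x' ∪ {y, w}), z ∈ B := by
    intro z hz
    rw [hB]
    exact C2_le_locV _ _ (Subring.subset_closure hz)
  have hCB : ∀ e : C, algebraMap C W e ∈ B := fun e => hgenB _ (Or.inl e.2)
  have hx'B : ∀ i, x' i ∈ B := fun i => hgenB _ (Or.inr (Or.inl ⟨i, rfl⟩))
  have hyB : y ∈ B := hgenB _ (Or.inr (Or.inr (Or.inl rfl)))
  have hwB : w ∈ B := hgenB _ (Or.inr (Or.inr (Or.inr rfl)))
  have hmonJ : ∀ a ∈ Y, ‖mon x a‖ < 1 → CaseCJ B x' y (mon x a) := by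
    intro a ha h
    obtain ⟨β, hβ1, hβ2⟩ := hβ a ha
    rw [hβ1]
    exact caseC_monN hx'B β ⟨0, hr⟩ (hβ2 h ⟨0, hr⟩)
  -- the polynomial g
  obtain ⟨g, hg⟩ : ∃ g : Polynomial C, g = Polynomial.X ^ p - Polynomial.C e0 := ⟨_, rfl⟩
  have gi : Irreducible g := by
    rw [hg]
    exact X_pow_sub_C_irreducible_of_prime hp (fun b hb => hnp ⟨b, by rw [hb, he0]⟩)
  have hgw : Polynomial.aeval w g = w * mon x (a1 - a0) +
      ∑ n ∈ P.coeff.support.erase (a0, 0),
        algebraMap C W (P.coeff n) * (mon x (n.1 - a0) * y ^ n.2) := by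
    have hmem : (a0, 0) ∈ P.coeff.support := Finsupp.mem_support_iff.2 hc
    have e1 : ∑ n ∈ P.coeff.support, algebraMap C W (P.coeff n) * (mon x (n.1 - a0) * y ^ n.2) =
        f * (mon x a0)⁻¹ := by
      have e2 : f = ∑ n ∈ P.coeff.support,
          algebraMap C W (P.coeff n) * (mon x n.1 * y ^ n.2) := hf
      rw [e2, Finset.sum_mul]
      refine Finset.sum_congr rfl fun n _ => ?_
      rw [sub_eq_add_neg, mon_add x hx, mon_neg]
      ring
    have e3 : algebraMap C W (P.coeff (a0, 0)) *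
        (mon x ((a0, 0) : (Fin r → ℤ) × ℕ).1 * y ^ ((a0, 0) : (Fin r → ℤ) × ℕ).2) =
        algebraMap C W e0 * mon x a0 := by
      rw [he0]
      simp
    rw [← Finset.add_sum_erase _ _ hmem] at e1
    have e4 : mon x (((a0, 0) : (Fin r → ℤ) × ℕ).1 - a0) = 1 := by
      show mon x (a0 - a0) = 1
      rw [sub_self, mon_zero]
    have e5 : y ^ ((a0, 0) : (Fin r → ℤ) × ℕ).2 = 1 := pow_zero y
    rw [e4, e5, mul_one, mul_one, ← he0] at e1
    have e6 : ∑ n ∈ P.coeff.support.erase (a0, 0),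
        algebraMap C W (P.coeff n) * (mon x (n.1 - a0) * y ^ n.2) =
        f * (mon x a0)⁻¹ - algebraMap C W e0 := by
      rw [← e1]; ring
    rw [e6, hg, map_sub, map_pow, Polynomial.aeval_X, Polynomial.aeval_C]
    have e7 : w ^ p = (θ + f) * (mon x a0)⁻¹ := by
      rw [hw, mul_pow, inv_pow, ← hM0p]
      congr 1
      rw [← hθ]; ring
    have e8 : w * mon x (a1 - a0) = θ * (mon x a0)⁻¹ := by
      rw [sub_eq_add_neg, mon_add x hx, mon_neg, hw]
      field_simp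
    rw [e7, e8]
    ring
  have hgJ : CaseCJ B x' y (Polynomial.aeval w g) := by
    rw [hgw]
    refine CaseCJ.add ((hmonJ _ (by rw [hY]; exact Finset.mem_insert_self _ _) ha1lt).mul hwB) ?_
    refine CaseCJ.sum _ _ fun n hn => ?_
    obtain ⟨hne, hn'⟩ := Finset.mem_erase.1 hn
    refine CaseCJ.mul (hCB _) ?_
    by_cases hna : n.1 = a0
    · rw [hna, sub_self, mon_zero, one_mul]
      have hn2 : 1 ≤ n.2 := by
        by_contra h0
        exact hne (Prod.ext hna (by show n.2 = 0; omega))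
      obtain ⟨j, hj⟩ : ∃ j, n.2 = j + 1 := ⟨n.2 - 1, by omega⟩
      rw [hj, pow_succ]
      exact CaseCJ.gy.mul (pow_mem hyB j)
    · rw [mul_comm]
      refine (hmonJ _ ?_ (hsup' n hn' hna)).mul (pow_mem hyB _)
      rw [hY]
      exact Finset.mem_insert_of_mem (Finset.mem_image.2 ⟨n, hn', rfl⟩)
  have hCunit : ∀ e ∈ C, e ≠ 0 → ‖e‖ = 1 := hC.unit
  -- memberships
  have hKM : ∀ z ∈ Kxy C x y, z ∈ S ⊓ L := by
    intro z hz
    have hle : Kxy C x y ≤ IntermediateField.extendScalars hCM :=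
      Kxy_le x y (fun i => hxM i) hyM
    exact hle hz
  have hfM : f ∈ S ⊓ L := by
    apply hKM
    rw [hf]
    unfold ev Finsupp.sum
    exact sum_mem fun n _ => mul_mem ((Kxy C x y).algebraMap_mem _)
      (mul_mem (mon_mem_Kxy x y _) (pow_mem (y_mem_Kxy x y) _))
  have hAS : ∀ E : IntermediateField k W, f ∈ E → ∃ Q : Polynomial E,
      Polynomial.aeval θ Q = 0 ∧ Polynomial.aeval θ (Polynomial.derivative Q) ≠ 0 := by
    intro E hfE
    refine ⟨Polynomial.X ^ p - Polynomial.X - Polynomial.C ⟨f, hfE⟩, ?_, ?_⟩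
    · rw [map_sub, map_sub, map_pow, Polynomial.aeval_X, Polynomial.aeval_C, hθ]
      exact sub_self f
    · have hcE : CharP E p := charP_of_injective_algebraMap (algebraMap k E).injective p
      rw [Polynomial.derivative_sub, Polynomial.derivative_sub, Polynomial.derivative_X_pow,
        Polynomial.derivative_X, Polynomial.derivative_C, CharP.cast_eq_zero, map_zero, zero_mul,
        zero_sub, sub_zero, map_neg, map_one]
      exact neg_ne_zero.2 one_ne_zero
  have hθS : θ ∈ S := by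
    obtain ⟨Q, hQ0, hQ1⟩ := hAS S hfM.1
    exact hS θ (caseC_sep θ Q hQ0 hQ1)
  obtain ⟨L1, hL1⟩ : ∃ L1 : IntermediateField k W, L1 = L ⊔ IntermediateField.adjoin k {θ} :=
    ⟨_, rfl⟩
  rw [← hL1]
  have hLL1 : L ≤ L1 := by rw [hL1]; exact le_sup_left
  have hθL1 : θ ∈ L1 := by
    rw [hL1]
    exact (le_sup_right : IntermediateField.adjoin k {θ} ≤ _)
      (IntermediateField.mem_adjoin_simple_self k θ)
  have hML1 : S ⊓ L ≤ S ⊓ L1 := inf_le_inf_left S hLL1
  have hcomp : IsComplete (L1 : Set W) := by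
    rw [hL1]
    refine isComplete_sup hL ⟨x ⟨0, hr⟩, (hxM _).2, hx _, hP.ind.lt _⟩ θ ?_
    obtain ⟨Q, hQ0, hQ1⟩ := hAS L hfM.2
    refine ⟨Q, ?_, hQ0⟩
    rintro rfl
    simp at hQ1
  have hmonM : ∀ a, mon x a ∈ S ⊓ L := fun a => mon_mem x hxM a
  have hwM : w ∈ S ⊓ L1 := by
    rw [hw]
    exact mul_mem ⟨hθS, hθL1⟩ (inv_mem (hML1 (hmonM a1)))
  have hx'M : ∀ i, x' i ∈ S ⊓ L1 := by
    intro i
    obtain ⟨a, ha⟩ := hMt.mon_eq' hP.ind (Pi.single i 1)
    rw [mon_single] at ha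
    rw [ha]
    exact hML1 (hmonM a)
  -- the field generated by the new parameters
  obtain ⟨E, hE⟩ : ∃ E : IntermediateField C W,
      E = IntermediateField.adjoin C (Set.range x' ∪ {y, w}) := ⟨_, rfl⟩
  have hx'E : ∀ i, x' i ∈ E := by
    intro i
    rw [hE]
    exact IntermediateField.subset_adjoin _ _ (Or.inl ⟨i, rfl⟩)
  have hyE : y ∈ E := by
    rw [hE]
    exact IntermediateField.subset_adjoin _ _ (Or.inr (Or.inl rfl))
  have hwE : w ∈ E := by
    rw [hE]
    exact IntermediateField.subset_adjoin _ _ (Or.inr (Or.inr rfl))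
  have hxE : ∀ i, x i ∈ E := by
    intro i
    obtain ⟨β, -, hβ⟩ := hMt.x_eq hP.ind i
    rw [hβ]
    exact prod_mem fun j _ => pow_mem (hx'E j) _
  have hKE : Kxy C x y ≤ E := Kxy_le x y hxE hyE
  have hθE : θ ∈ E := by
    rw [hθw]
    exact mul_mem hwE (mon_mem x hxE a1)
  have hdense' : ∀ z ∈ L1, z ∈ cl E := by
    have hle : L1 ≤ (cl E).restrictScalars k := by
      rw [hL1, sup_le_iff]
      constructor
      · intro z hz
        exact cl_mono hKE (hdense z hz)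
      · rw [IntermediateField.adjoin_le_iff]
        intro z hz
        rw [Set.mem_singleton_iff.1 hz]
        exact le_cl E hθE
    intro z hz
    exact hle hz
  have hmax := caseC_dec C hCunit x' y w hx'1 hP.y1 hw1.le g gi (by rw [← hB]; exact hgJ)
  obtain ⟨C', -, hCh, -⟩ := new_chart hr hA S L1 L1 hS hcomp le_rfl C hC (hCM.trans hML1) w hwM
    hw1.le x' hMt.ind hx'M y hP.y1 (hML1 hyM) (by rw [← hE]; exact hdense')
    (by rw [← hE]; exact fun z hz => caseC_sep_mono hKE (hsep z hz))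
    (Fin.cons y x) (par_indep x y hx hP.tr) (by
      rw [← hE]
      intro i
      refine Fin.cases ?_ (fun j => ?_) i
      · rw [Fin.cons_zero]; exact hyE
      · rw [Fin.cons_succ]; exact hxE j) (fun z hz hz1 => hmax z hz hz1)
  exact ⟨_, hCh⟩

/-- See the header. -/
theorem case_C {k W : Type} [Field k] [PerfectField k] [NontriviallyNormedField W]
    [IsUltrametricDist W] [Algebra k W] {r m : ℕ} (hr : 0 < r) (hA : AmbG r m k W) (p : ℕ)
    [Fact p.Prime] [CharP k p] (S L : IntermediateField k W)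
    (hS : ∀ z : W, IsSeparable S z → z ∈ S) (hL : IsComplete (L : Set W)) {c : Tri k W r}
    (hc : Ch m S L c) (P : LP c.C r) (a1 : Fin r → ℤ) (hl : Lead c.x P (p • a1) 0)
    (h1 : 1 < ‖mon c.x (p • a1)‖) (hnp : ¬ ∃ b : c.C, P.coeff (p • a1, 0) = b ^ p) (θ : W)
    (hθ : θ ^ p - θ = ev c.x c.y P) : HasCh m S r (L ⊔ IntermediateField.adjoin k {θ}) :=
  caseC_main hr hA p S L hS hL c.C c.x c.y hc.ok.cst hc.ok.par hc.ok.CM hc.ok.xM hc.ok.yM
    hc.dense hc.sep P a1 hl h1 hnp θ hθ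

end Pool.Agent.Lib.TU
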