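import Pool.Agent.Lib.TU.ASRunU
import Pool.Agent.Lib.TU.CaseAU
import Pool.Agent.Lib.TU.CaseBU
import Pool.Agent.Lib.TU.CaseC
import Pool.Agent.Lib.TU.CstX
import Pool.Agent.Lib.TU.MAll
import Pool.Agent.Lib.TDO.Wp

/-!
# Module ASStepU: Artin-Schreier extensions

`f := θ^p - θ ∈ L`.  `appr_LPU`: refinement `c1` of a chart, `‖f - ev P1‖ < 1`; `exists_redU`, `as_runU`:
`c'`, `P'` reduced, `s ∈ L` with `‖f - ev P' - (s^p - s)‖ < 1`, and `P' = 0` or lead `(a0, d)`, `d ≤ 1`.
`TDO.wp_small`: `f - ev P' - (s^p - s) = t^p - t`, `t ∈ L`.  `θ' := θ - s - t`: `θ'^p - θ' = ev P'`,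
`L ⊔ k(θ') = L ⊔ k(θ)`.
* `P' = 0`: `θ'^p = θ'`, so `θ'` is in the prime field, `L ⊔ k(θ) = L`.
* `d = 1`: `case_BU` over `↥c'.C`: `⟨c'.C, c'.x, x^N θ'⟩` is a chart of `L ⊔ k(θ')`: `x^N θ'` is in `S`
  (`θ'` is separable over `S`: `T^p - T - ev P'`), density and separability as in
  `TDO/ASStep.lean`.
* `d = 0`, `a0 = 0`: all exponents `(a, j)` of `P'` have `‖x^a‖ ≤ 1`, so `P'` is a constant by `RedC`,
  `θ'` is separable over `c'.C`: `cst_ext`.
* `d = 0`, `a0 ≠ 0` (`‖x^a0‖ > 1` by `RedC`), `a0 ∉ pℤ^r`: `case_AU` over `↥c'.C`: `⟨c'.C, x', c'.y⟩`.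
* `d = 0`, `a0 = p a1 ≠ 0`: the coefficient is not a `p`-th power by `RedC`: `case_C`.
-/

namespace Pool.Agent.Lib.TU

open Pool.Agent.Lib.MP_3029eb_ag Pool.Agent.Lib.MP_3029eb_ag.Abh Pool.Agent.Lib.TDO

private theorem asu_char {k W : Type} [Field k] [Field W] [Algebra k W] (p : ℕ) [CharP k p] :
    CharP W p :=
  charP_of_injective_algebraMap (algebraMap k W).injective p

private theorem asu_wp_small {k W : Type} [Field k] [NormedField W] [Algebra k W] (p : ℕ)
    [Fact p.Prime] [CharP k p] {L : IntermediateField k W}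
    (hL : IsComplete (L : Set W)) {g : W} (hg : g ∈ L) (h1 : ‖g‖ < 1) :
    ∃ s ∈ L, s ^ p - s = g := by
  have hp : p.Prime := Fact.out
  have hW : CharP W p := asu_char (k := k) p
  obtain ⟨u, hu⟩ : ∃ u : ℕ → W, u = fun n => -∑ i ∈ Finset.range n, g ^ p ^ i := ⟨_, rfl⟩
  have huL : ∀ n, u n ∈ (L : Set W) := by
    intro n
    rw [hu]
    exact neg_mem (sum_mem fun i _ => pow_mem hg _)
  have hpow : ∀ n, n ≤ p ^ n := fun n => (Nat.lt_pow_self hp.one_lt).le
  have hC : CauchySeq u := by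
    refine cauchySeq_of_le_geometric ‖g‖ 1 h1 fun n => ?_
    have e : u n - u (n + 1) = g ^ p ^ n := by
      rw [hu]
      dsimp only
      rw [Finset.sum_range_succ]
      ring
    rw [dist_eq_norm, e, norm_pow, one_mul]
    exact pow_le_pow_of_le_one (norm_nonneg _) h1.le (hpow n)
  obtain ⟨s, hs, hlim⟩ := cauchySeq_tendsto_of_isComplete hL huL hC
  refine ⟨s, hs, ?_⟩
  have hterm : ∀ n, u n ^ p - u n = g - g ^ p ^ n := by
    intro n
    rw [hu]
    dsimp only
    have e1 : (-∑ i ∈ Finset.range n, g ^ p ^ i) ^ p =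
        -∑ i ∈ Finset.range n, g ^ p ^ (i + 1) := by
      have e2 := sub_pow_char (0 : W) (∑ i ∈ Finset.range n, g ^ p ^ i) (p := p)
      rw [zero_sub, zero_pow hp.ne_zero, zero_sub, sum_pow_char] at e2
      rw [e2]
      congr 1
      refine Finset.sum_congr rfl fun i _ => ?_
      rw [← pow_mul, pow_succ]
    rw [e1]
    have e3 : ∑ i ∈ Finset.range n, g ^ p ^ (i + 1) + g =
        ∑ i ∈ Finset.range n, g ^ p ^ i + g ^ p ^ n := by
      rw [← Finset.sum_range_succ (fun i => g ^ p ^ i) n,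
        Finset.sum_range_succ' (fun i => g ^ p ^ i) n, pow_zero, pow_one]
    linear_combination -e3
  have h2 : Filter.Tendsto (fun n => u n ^ p - u n) Filter.atTop (nhds (s ^ p - s)) :=
    (hlim.pow p).sub hlim
  have h3 : Filter.Tendsto (fun n => g - g ^ p ^ n) Filter.atTop (nhds (g - 0)) := by
    refine Filter.Tendsto.sub tendsto_const_nhds ?_
    have h4 : Filter.Tendsto (fun n : ℕ => p ^ n) Filter.atTop Filter.atTop :=
      Filter.tendsto_atTop_mono hpow Filter.tendsto_id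
    exact (tendsto_pow_atTop_nhds_zero_of_norm_lt_one h1).comp h4
  rw [sub_zero] at h3
  have h5 : (fun n => u n ^ p - u n) = fun n => g - g ^ p ^ n := funext hterm
  rw [h5] at h2
  exact tendsto_nhds_unique h2 h3

/-- Fixed points of the Frobenius map. -/
private theorem asu_fix {W : Type} [Field W] (p : ℕ) [Fact p.Prime] [CharP W p] {x : W}
    (hx : x ^ p = x) : ∃ n : ℕ, x = n := by
  have hp : p.Prime := Fact.out
  have h1 : (Polynomial.X ^ p - Polynomial.X : Polynomial (ZMod p)).roots =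
      Finset.univ.val := by
    have h2 := FiniteField.roots_X_pow_card_sub_X (ZMod p)
    rwa [ZMod.card] at h2
  have hdeg : (Polynomial.X ^ p - Polynomial.X : Polynomial (ZMod p)).natDegree = p :=
    FiniteField.X_pow_card_sub_X_natDegree_eq (ZMod p) hp.one_lt
  have hmon : (Polynomial.X ^ p - Polynomial.X : Polynomial (ZMod p)).Monic := by
    refine Polynomial.monic_X_pow_sub ?_
    rw [Polynomial.degree_X]
    exact_mod_cast hp.one_lt
  have h3 := Polynomial.prod_multiset_X_sub_C_of_monic_of_roots_card_eq hmon (by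
    rw [h1, hdeg, Finset.card_val, Finset.card_univ, ZMod.card])
  rw [h1] at h3
  have h4 := congrArg (Polynomial.eval₂ (ZMod.castHom (dvd_refl p) W) x) h3
  have h5 : (Multiset.map (fun a => Polynomial.X - Polynomial.C a)
      (Finset.univ : Finset (ZMod p)).val).prod = ∏ a : ZMod p, (Polynomial.X - Polynomial.C a) :=
    rfl
  rw [h5, Polynomial.eval₂_finsetProd, Polynomial.eval₂_sub, Polynomial.eval₂_pow,
    Polynomial.eval₂_X, hx, sub_self, Finset.prod_eq_zero_iff] at h4
  obtain ⟨a, -, ha⟩ := h4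
  rw [Polynomial.eval₂_sub, Polynomial.eval₂_X, Polynomial.eval₂_C, sub_eq_zero] at ha
  refine ⟨a.val, ?_⟩
  rw [ha]
  have h6 := ZMod.natCast_zmod_val a
  conv_lhs => rw [← h6]
  rw [map_natCast]

/-- roots of `T^p - T - c` are separable -/
private theorem asu_sep {k W : Type} [Field k] [Field W] [Algebra k W] (p : ℕ) [Fact p.Prime]
    [CharP k p] (S : IntermediateField k W) (θ : W) (h : θ ^ p - θ ∈ S) : IsSeparable S θ := by
  have : CharP S p := asu_char (k := k) (W := S) p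
  have hmon : (Polynomial.X ^ p - Polynomial.X -
      Polynomial.C (⟨θ ^ p - θ, h⟩ : S)).aeval θ = 0 := by
    simp
  have hsep : (Polynomial.X ^ p - Polynomial.X -
      Polynomial.C (⟨θ ^ p - θ, h⟩ : S)).Separable := by
    rw [Polynomial.separable_def]
    have hd : Polynomial.derivative (Polynomial.X ^ p - Polynomial.X -
      Polynomial.C (⟨θ ^ p - θ, h⟩ : S)) = -1 := by
      rw [Polynomial.derivative_sub, Polynomial.derivative_sub, Polynomial.derivative_C,
        Polynomial.derivative_X, Polynomial.derivative_X_pow, CharP.cast_eq_zero]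
      simp
    rw [hd]
    exact isCoprime_one_right.neg_right
  exact hsep.of_dvd (minpoly.dvd S θ hmon)

private theorem asu_cong {k W : Type} [Field k] [NormedField W] [IsUltrametricDist W] [Algebra k W]
    (p : ℕ) [Fact p.Prime] [CharP k p] {f g h s t : W} (h1 : ‖f - g - (s ^ p - s)‖ < 1)
    (h2 : ‖g - h - (t ^ p - t)‖ < 1) : ‖f - h - ((s + t) ^ p - (s + t))‖ < 1 := by
  have hW : CharP W p := asu_char (k := k) p
  have e : f - h - ((s + t) ^ p - (s + t)) =
      (f - g - (s ^ p - s)) + (g - h - (t ^ p - t)) := by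
    rw [add_pow_char s t (p := p)]; ring
  rw [e]
  exact (IsUltrametricDist.norm_add_le_max _ _).trans_lt (max_lt h1 h2)

private theorem asu_rfs {k W : Type} [Field k] [NormedField W] [IsUltrametricDist W] [Algebra k W]
    {r m : ℕ} {S L : IntermediateField k W} {c c' : Tri k W r} (hc : Ch m S L c)
    (h : RfS m S L c c') : Ch m S L c' := by
  rcases Relation.ReflTransGen.cases_tail h with h0 | ⟨b, -, hb⟩
  · rw [h0]; exact hc
  · obtain ⟨e, B, w, g, T, hst⟩ := hb
    exact hst.ch'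

/-- change of the generator -/
private theorem asu_change {k W : Type} [Field k] [NormedField W] [Algebra k W] (p : ℕ)
    [Fact p.Prime] [CharP k p] {L : IntermediateField k W} (hL : IsComplete (L : Set W))
    {θ s f' : W} (hs : s ∈ L) (hf' : f' ∈ L) (hθ : θ ^ p - θ ∈ L)
    (h1 : ‖θ ^ p - θ - f' - (s ^ p - s)‖ < 1) :
    ∃ θ' : W, θ' ^ p - θ' = f' ∧
      L ⊔ IntermediateField.adjoin k {θ'} = L ⊔ IntermediateField.adjoin k {θ} := by
  have hW : CharP W p := asu_char (k := k) p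
  obtain ⟨u, hu, hug⟩ := asu_wp_small (k := k) p hL
    (L.sub_mem (L.sub_mem hθ hf') (L.sub_mem (pow_mem hs p) hs)) h1
  have hmem : ∀ E : IntermediateField k W, ∀ z : W, z ∈ E ⊔ IntermediateField.adjoin k {z} :=
    fun E z => (le_sup_right : IntermediateField.adjoin k {z} ≤ _)
      (IntermediateField.mem_adjoin_simple_self k z)
  refine ⟨θ - s - u, ?_, le_antisymm ?_ ?_⟩
  · rw [sub_pow_char (θ - s) u (p := p), sub_pow_char θ s (p := p)]
    linear_combination -hug
  · refine sup_le le_sup_left ?_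
    rw [IntermediateField.adjoin_simple_le_iff]
    exact sub_mem (sub_mem (hmem L θ) ((le_sup_left : L ≤ _) hs)) ((le_sup_left : L ≤ _) hu)
  · refine sup_le le_sup_left ?_
    rw [IntermediateField.adjoin_simple_le_iff]
    have e : θ = (θ - s - u) + s + u := by ring
    have h2 := add_mem (add_mem (hmem L (θ - s - u))
      ((le_sup_left : L ≤ L ⊔ IntermediateField.adjoin k {θ - s - u}) hs))
      ((le_sup_left : L ≤ L ⊔ IntermediateField.adjoin k {θ - s - u}) hu)
    rw [← e] at h2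
    exact h2

/-- Transitivity of separability in the form needed. -/
private theorem asu_sep_trans {k W : Type} [Field k] [Field W] [Algebra k W] {r : ℕ}
    {x : Fin r → W} {y : W} {x' : Fin r → W} {y' : W}
    (h1 : ∀ i, IsSeparable (Kxy k x' y') (x i))
    (h2 : IsSeparable (Kxy k x' y') y) {z : W} (hz : IsSeparable (Kxy k x y) z) :
    IsSeparable (Kxy k x' y') z := by
  have hsep : Algebra.IsSeparable (Kxy k x' y')
      (IntermediateField.adjoin (Kxy k x' y') (Set.range x ∪ {y})) := by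
    rw [IntermediateField.isSeparable_adjoin_iff_isSeparable]
    rintro w (⟨i, rfl⟩ | hw)
    · exact h1 i
    · rw [Set.mem_singleton_iff.1 hw]; exact h2
  set E := IntermediateField.adjoin (Kxy k x' y') (Set.range x ∪ {y}) with hE
  have hle : Kxy k x y ≤ E.restrictScalars k := by
    unfold Kxy
    rw [IntermediateField.adjoin_le_iff]
    intro w hw
    exact IntermediateField.subset_adjoin (Kxy k x' y') _ hw
  let _ : Algebra (Kxy k x y) E :=
    (((IntermediateField.inclusion hle : Kxy k x y →ₐ[k] E.restrictScalars k) :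
      Kxy k x y →+* E.restrictScalars k)).toAlgebra
  have : IsScalarTower (Kxy k x y) E W := IsScalarTower.of_algebraMap_eq (fun _ => rfl)
  have h3 : IsSeparable E z := hz.tower_top E
  exact IsSeparable.of_algebra_isSeparable_of_isSeparable _ h3

/-- See the header. -/
theorem as_stepU {k W : Type} [Field k] [PerfectField k] [NontriviallyNormedField W]
    [IsUltrametricDist W] [Algebra k W] {r m : ℕ} (hr : 0 < r) (hA : AmbG r m k W) (p : ℕ)
    [Fact p.Prime] [CharP k p] (S L : IntermediateField k W)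
    (hS : ∀ z : W, IsSeparable S z → z ∈ S) (hL : IsComplete (L : Set W)) (h : HasCh m S r L)
    (θ : W) (hθ : θ ^ p - θ ∈ L) : HasCh m S r (L ⊔ IntermediateField.adjoin k {θ}) := by
  have hW : CharP W p := asu_char (k := k) p
  obtain ⟨c₀, hc₀⟩ := h
  obtain ⟨c1, hR1, P0, hf0⟩ := appr_LPU hr hA S L hS hL hc₀ hθ 1 one_pos
  have hc1 : Ch m S L c1 := asu_rfs hc₀ hR1
  have hchar1 : CharP c1.C p := asu_char (k := k) (W := c1.C) p
  obtain ⟨P1, hred1, ⟨s1, hs1, hs1'⟩, -, -⟩ :=
    exists_redU hc1.ok.hu p hc1.ok.par.ind hc1.ok.par.y1 P0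
  have hs1L : s1 ∈ L := (hc1.ok.Kxy_mem (LL_le_Kxy c1.x c1.y hs1)).2
  obtain ⟨c, hR, P, hred, ⟨s2, hs2, hs2'⟩, hP⟩ := as_runU hr hA p S L hS hL hc1 P1 hred1
  have hc : Ch m S L c := asu_rfs hc1 hR
  have hchar : CharP c.C p := asu_char (k := k) (W := c.C) p
  have hf1 : ‖(θ ^ p - θ) - ev c1.x c1.y P1 - (s1 ^ p - s1)‖ < 1 := by
    have e : (θ ^ p - θ) - ev c1.x c1.y P1 - (s1 ^ p - s1) =
        ((θ ^ p - θ) - ev c1.x c1.y P0) + (ev c1.x c1.y P0 - ev c1.x c1.y P1 - (s1 ^ p - s1)) := by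
      ring
    rw [e]
    exact (IsUltrametricDist.norm_add_le_max _ _).trans_lt (max_lt hf0 hs1')
  have hf2 := asu_cong (k := k) p hf1 hs2'
  have hx : ∀ i, c.x i ≠ 0 := fun i => hc.ok.par.ind.ne i
  have hevM : ev c.x c.y P ∈ S ⊓ L :=
    hc.ok.Kxy_mem (LL_le_Kxy c.x c.y ((mem_LL_iff c.x c.y hx _).2 ⟨P, rfl⟩))
  obtain ⟨θ', hθ', hsup⟩ := asu_change (k := k) p hL (L.add_mem hs1L hs2) hevM.2 hθ hf2
  rw [← hsup]
  set L' : IntermediateField k W := L ⊔ IntermediateField.adjoin k {θ'} with hL'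
  have hLle : L ≤ L' := le_sup_left
  have hθL' : θ' ∈ L' := (le_sup_right : IntermediateField.adjoin k {θ'} ≤ _)
      (IntermediateField.mem_adjoin_simple_self k θ')
  have hθS : θ' ∈ S := hS θ' (asu_sep p S θ' (by rw [hθ']; exact hevM.1))
  have hML : S ⊓ L ≤ S ⊓ L' := inf_le_inf le_rfl hLle
  have hxM : ∀ i, c.x i ∈ S ⊓ L' := fun i => hML (hc.ok.xM i)
  have hyM : c.y ∈ S ⊓ L' := hML (hc.ok.yM)
  have hθM : θ' ∈ S ⊓ L' := ⟨hθS, hθL'⟩
  -- the density argument
  have hdense : ∀ (x' : Fin r → W) (y' : W), (∀ i, c.x i ∈ cl (Kxy c.C x' y')) →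
      c.y ∈ cl (Kxy c.C x' y') → θ' ∈ cl (Kxy c.C x' y') →
      ∀ z ∈ L', z ∈ cl (Kxy c.C x' y') := by
    intro x' y' h1 h2 h3
    have h4 : L' ≤ (cl (Kxy c.C x' y')).restrictScalars k := by
      refine sup_le (fun z hz => ?_) ?_
      · exact cl_le_of_le_cl (Kxy_le c.x c.y h1 h2) (hc.dense z hz)
      · rw [IntermediateField.adjoin_simple_le_iff]
        exact h3
    exact fun z hz => h4 hz
  rcases hP with hP0 | ⟨a0, d, hl, hd⟩
  · -- `P = 0`
    have hz : θ' ^ p = θ' := by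
      rw [hP0, ev_zero] at hθ'
      exact sub_eq_zero.1 hθ'
    obtain ⟨n, hn⟩ := asu_fix p hz
    have e : L' = L := by
      rw [hL', sup_eq_left, IntermediateField.adjoin_simple_le_iff, hn]
      exact natCast_mem L n
    rw [e]
    exact ⟨c₀, hc₀⟩
  have hd' : d = 0 ∨ d = 1 := by omega
  rcases hd' with rfl | rfl
  · by_cases ha0 : a0 = 0
    · -- constants
      have hsupp : ∀ mm : (Fin r → ℤ) × ℕ, P.coeff mm ≠ 0 → mm = (0, 0) := by
        rintro ⟨a, j⟩ hne
        rcases hred a j hne with ⟨h1, h2⟩ | ⟨h1, -⟩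
        · rw [h1, h2]
        · exfalso
          have h2 := hl.max a j hne
          rw [ha0] at h2
          have h3 : mon c.x (0 : Fin r → ℤ) = 1 := by
            unfold mon; simp
          rw [h3, norm_one] at h2
          exact absurd h1 (not_lt.2 h2)
      have hev : ev c.x c.y P = algebraMap c.C W (P.coeff (0, 0)) := by
        unfold ev
        rw [Finsupp.sum]
        have h3 : mon c.x (0 : Fin r → ℤ) = 1 := by
          unfold mon; simp
        rw [Finset.sum_eq_single (0, 0)]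
        · rw [h3, pow_zero, mul_one, mul_one]
        · intro b hb hb0
          exact absurd (hsupp b (Finsupp.mem_support_iff.1 hb)) hb0
        · intro h0
          rw [Finsupp.notMem_support_iff.1 h0, map_zero, zero_mul]
      have hsepC : IsSeparable c.C θ' := by
        refine asu_sep p c.C θ' ?_
        rw [hθ', hev]
        exact (P.coeff (0, 0)).2
      exact ⟨_, cst_ext S L hS hc hsepC⟩
    · have hmem := hl.mem
      have h1 : 1 < ‖mon c.x a0‖ ∧ ¬ PT p a0 0 (P.coeff (a0, 0)) := by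
        rcases hred a0 0 hmem with ⟨h1, -⟩ | h1
        · exact absurd h1 ha0
        · exact h1
      by_cases hdiv : ∃ a' : Fin r → ℤ, a0 = p • a'
      · obtain ⟨a1, rfl⟩ := hdiv
        refine case_C hr hA p S L hS hL hc P a1 hl h1.1 (fun hb => h1.2 ?_) θ' hθ'
        exact ⟨⟨a1, rfl⟩, dvd_zero p, hb⟩
      · obtain ⟨x3, hP3, hx3, hcl, hθcl, hsep3, -⟩ :=
          case_AU hc.ok.hu p hc.ok.par P hl h1.1 hdiv θ' hθ'
        refine ⟨⟨c.C, x3, c.y⟩, ⟨⟨hc.ok.cst, hP3, hc.ok.CM.trans hML, ?_, hyM⟩, ?_, ?_⟩⟩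
        · intro i
          obtain ⟨a, j, e⟩ := hx3 i
          show x3 i ∈ S ⊓ L'
          rw [e]
          exact IntermediateField.mul_mem _ (mon_mem c.x hxM a) (zpow_mem hθM j)
        · exact hdense x3 c.y hcl (le_cl _ (y_mem_Kxy x3 c.y)) hθcl
        · intro z hz
          refine asu_sep_trans hsep3 ?_ (hc.sep z hz)
          exact isSeparable_algebraMap (K := W) (⟨c.y, y_mem_Kxy x3 c.y⟩ : Kxy c.C x3 c.y)
  · obtain ⟨N, hP3, hcl, hsep3⟩ := case_BU hc.ok.hu hr p hc.ok.par P hl θ' hθ'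
    have hmonne : mon c.x N ≠ 0 := by
      unfold mon
      exact Finset.prod_ne_zero_iff.2 fun i _ => zpow_ne_zero _ (hx i)
    have hθK : θ' ∈ Kxy c.C c.x (mon c.x N * θ') := by
      have h3 : θ' = (mon c.x N)⁻¹ * (mon c.x N * θ') := by
        rw [inv_mul_cancel_left₀ hmonne]
      have h4 : (mon c.x N)⁻¹ * (mon c.x N * θ') ∈ Kxy c.C c.x (mon c.x N * θ') :=
        IntermediateField.mul_mem _ (IntermediateField.inv_mem _ (mon_mem_Kxy c.x _ N))
          (y_mem_Kxy c.x _)
      rw [← h3] at h4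
      exact h4
    refine ⟨⟨c.C, c.x, mon c.x N * θ'⟩, ⟨⟨hc.ok.cst, hP3, hc.ok.CM.trans hML, hxM, ?_⟩, ?_, ?_⟩⟩
    · exact IntermediateField.mul_mem _ (mon_mem c.x hxM N) hθM
    · exact hdense c.x (mon c.x N * θ') (fun i => le_cl _ (x_mem_Kxy c.x _ i)) hcl
        (le_cl _ hθK)
    · intro z hz
      refine asu_sep_trans ?_ hsep3 (hc.sep z hz)
      intro i
      exact isSeparable_algebraMap (K := W)
        (⟨c.x i, x_mem_Kxy c.x _ i⟩ : Kxy c.C c.x (mon c.x N * θ'))

end Pool.Agent.Lib.TU
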