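import Pool.Agent.Lib.TU.PolyN
import Pool.Agent.Lib.TU.MdlDim

/-!
# Module BNorm: models are integrally closed (paper 12.3)

`A1 := Bu c x' ∅ = locV C[x', y]` (`C = c.C`), `F1 = C(x', y)`: `icl_poly` over the base field `↥c.C` for the
algebraically independent elements `(y, x')` (`par_indep`; `x'` and `x` generate the same field),
`icl_locV`, `noeth_locV`.  `B := Bu c x' G = locV (A1[G])`.  `gamma_t` for `A1 ⊆ B`: `m_B ⊆ m_(A1) B` by
`Mdl.gen`; residues are in `C ⊆ A1` (`Mdl.dec_all`): `h = X - e`.  `gamma_icl`.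
-/

namespace Pool.Agent.Lib.TU

open Pool.Agent.Lib.MP_3029eb_ag Pool.Agent.Lib.MP_3029eb_ag.Abh Pool.Agent.Lib.TDO

private lemma BNorm_indep {k W : Type} [Field k] [NormedField W] [IsUltrametricDist W]
    [Algebra k W] {r m : ℕ} {M : IntermediateField k W} {c : Tri k W r} (hok : Ok m M c)
    {x' : Fin r → W} {G : Finset W} (h : Mdl M c x' G) :
    AlgebraicIndependent c.C (Fin.cons c.y x' : Fin (r + 1) → W) := by
  have hz := par_indep c.x c.y hok.par.ind.ne hok.par.tr
  have hne : ∀ i, x' i ≠ 0 := h.mt.ind.ne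
  refine par_indep x' c.y hne ?_
  refine tr_changeU c.C c.C hok.cst.trd hok.cst.trd (Fin.cons c.y c.x) hz x' c.y hne ?_ ?_
  · intro e he
    have h1 : e ∈ Kxy c.C x' c.y := (Kxy c.C x' c.y).algebraMap_mem ⟨e, he⟩
    exact isAlgebraic_algebraMap (⟨e, h1⟩ : Kxy c.C x' c.y)
  · intro i
    refine Fin.cases ?_ (fun j => ?_) i
    · rw [Fin.cons_zero]
      have h1 : c.y ∈ Kxy c.C x' c.y := IntermediateField.subset_adjoin _ _ (Or.inr rfl)
      exact isAlgebraic_algebraMap (⟨c.y, h1⟩ : Kxy c.C x' c.y)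
    · rw [Fin.cons_succ]
      obtain ⟨A, B, hA, -, -⟩ := h.mt.mat
      have h1 : c.x j ∈ Kxy c.C x' c.y := by
        rw [hA j]
        unfold monN
        refine prod_mem fun l _ => pow_mem ?_ _
        have h2 : x' l ∈ (Set.range x' ∪ {c.y} : Set W) := Or.inl ⟨l, rfl⟩
        exact IntermediateField.subset_adjoin c.C _ h2
      exact isAlgebraic_algebraMap (⟨c.x j, h1⟩ : Kxy c.C x' c.y)

/-- See the header. -/
theorem Bu_icl {k W : Type} [Field k] [NormedField W] [IsUltrametricDist W] [Algebra k W]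
    {r m : ℕ} {M : IntermediateField k W} {c : Tri k W r} (hok : Ok m M c) {x' : Fin r → W}
    {G : Finset W} (h : Mdl M c x' G) : ∃ F : Subfield W, ICl (Bu c x' G) F := by
  classical
  have hG : ∀ g ∈ G, ‖g‖ ≤ 1 := fun g hg => (h.gM g hg).2
  have hind := BNorm_indep hok h
  obtain ⟨R, hR⟩ : ∃ R : Subring W, R = Subring.closure (Set.range (algebraMap c.C W) ∪
      Set.range (Fin.cons c.y x' : Fin (r + 1) → W)) := ⟨_, rfl⟩
  obtain ⟨F, hF⟩ : ∃ F : Subfield W, F = (IntermediateField.adjoin c.C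
      (Set.range (Fin.cons c.y x' : Fin (r + 1) → W))).toSubfield := ⟨_, rfl⟩
  have hp := icl_poly (Fin.cons c.y x' : Fin (r + 1) → W) hind
  rw [← hR, ← hF] at hp
  obtain ⟨hI0, hN0⟩ := hp
  -- membership in R
  have hCR : ∀ e ∈ c.C, e ∈ R := by
    intro e he
    rw [hR]
    exact Subring.subset_closure (Or.inl ⟨⟨e, he⟩, rfl⟩)
  have hyR : c.y ∈ R := by
    rw [hR]
    exact Subring.subset_closure (Or.inr ⟨0, Fin.cons_zero _ _⟩)
  have hxR : ∀ i, x' i ∈ R := by
    intro i
    rw [hR]
    exact Subring.subset_closure (Or.inr ⟨i.succ, Fin.cons_succ _ _ _⟩)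
  have hCB : ∀ e ∈ c.C, ‖e‖ ≤ 1 := by
    intro e he
    by_cases h0 : e = 0
    · rw [h0, norm_zero]; exact zero_le_one
    · exact (hok.cst.unit e he h0).le
  have hRb : R ≤ (ball W).toSubring := by
    rw [hR, Subring.closure_le]
    rintro z (⟨e, rfl⟩ | ⟨i, rfl⟩)
    · exact hCB _ e.2
    · refine Fin.cases ?_ (fun j => ?_) i
      · rw [Fin.cons_zero]
        exact hok.par.y1.le
      · rw [Fin.cons_succ]
        exact (h.mt.ind.lt j).le
  obtain ⟨A, hA⟩ : ∃ A : Subring W, A = locV (ball W) R := ⟨_, rfl⟩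
  have hRA : R ≤ A := by rw [hA]; exact C2_le_locV _ _
  have hIA : ICl A F := by rw [hA]; exact icl_locV R F hI0
  have hNA : IsNoetherianRing A := by rw [hA]; exact noeth_locV R hRb hN0
  have hAl : locV (ball W) A = A := by rw [hA]; exact C2_locV_locV _ _
  have hAb : A ≤ (ball W).toSubring := by
    rw [hA]
    exact locV_le (ball W) hRb
  have hB : Bu c x' G = locV (ball W) (Subring.closure ((A : Set W) ∪ (G : Set W))) := by
    rw [hA, C2_locV_closure_locV]
    unfold Bu
    congr 1
    apply le_antisymm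
    · rw [Subring.closure_le]
      rintro z ((hz | ⟨i, rfl⟩) | (hz | hz))
      · exact Subring.subset_closure (Or.inl (hCR z hz))
      · exact Subring.subset_closure (Or.inl (hxR i))
      · rw [Set.mem_singleton_iff.1 hz]
        exact Subring.subset_closure (Or.inl hyR)
      · exact Subring.subset_closure (Or.inr hz)
    · rw [Subring.closure_le]
      rintro z (hz | hz)
      · have h1 : R ≤ Subring.closure
            (((c.C : Set W) ∪ Set.range x') ∪ ({c.y} ∪ (G : Set W))) := by
          rw [hR, Subring.closure_le]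
          rintro w (⟨e, rfl⟩ | ⟨i, rfl⟩)
          · exact Subring.subset_closure (Or.inl (Or.inl e.2))
          · refine Fin.cases ?_ (fun j => ?_) i
            · rw [Fin.cons_zero]
              exact Subring.subset_closure (Or.inr (Or.inl rfl))
            · rw [Fin.cons_succ]
              exact Subring.subset_closure (Or.inl (Or.inr ⟨j, rfl⟩))
        exact h1 hz
      · exact Subring.subset_closure (Or.inr (Or.inr hz))
  have hmax : ∀ z ∈ Bu c x' G, ‖z‖ < 1 →
      z ∈ Submodule.span (Bu c x' G) {a : W | a ∈ A ∧ ‖a‖ < 1} := by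
    intro z hz hz1
    obtain ⟨b, b0, hb, hb0, hz2⟩ := h.gen hok hz hz1
    rw [hz2]
    refine add_mem (sum_mem fun i _ => ?_) ?_
    · exact Submodule.smul_mem _ (⟨b i, hb i⟩ : Bu c x' G)
        (Submodule.subset_span ⟨hRA (hxR i), h.mt.ind.lt i⟩)
    · exact Submodule.smul_mem _ (⟨b0, hb0⟩ : Bu c x' G)
        (Submodule.subset_span ⟨hRA hyR, hok.par.y1⟩)
  have hres : ∀ z ∈ Bu c x' G, ∃ q : Polynomial W, (∀ j, q.coeff j ∈ A) ∧ q.Monic ∧
      ‖q.eval z‖ < 1 ∧ ‖q.derivative.eval z‖ = 1 := by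
    intro z hz
    obtain ⟨e, he, b, b0, hb, hb0, hz'⟩ := h.dec_all hok hz
    refine ⟨Polynomial.X - Polynomial.C e, ?_, Polynomial.monic_X_sub_C e, ?_, ?_⟩
    · intro j
      rw [Polynomial.coeff_sub, Polynomial.coeff_X, Polynomial.coeff_C]
      refine sub_mem ?_ ?_
      · split_ifs
        · exact one_mem _
        · exact zero_mem _
      · split_ifs
        · exact hRA (hCR e he)
        · exact zero_mem _
    · have h1 : (Polynomial.X - Polynomial.C e : Polynomial W).eval z =
          ∑ i, b i * x' i + b0 * c.y := by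
        rw [Polynomial.eval_sub, Polynomial.eval_X, Polynomial.eval_C, hz']
        ring
      rw [h1]
      refine lt_of_le_of_lt (IsUltrametricDist.norm_add_le_max _ _) (max_lt ?_ ?_)
      · refine Finset.sum_induction (fun i => b i * x' i) (fun z => ‖z‖ < 1)
          (fun a b ha hb => lt_of_le_of_lt (IsUltrametricDist.norm_add_le_max _ _)
            (max_lt ha hb)) (by rw [norm_zero]; exact one_pos) ?_
        intro i _
        rw [norm_mul]
        have h3 := norm_le_of_mem_Bu hok h.mt.ind hG (hb i)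
        have h4 := h.mt.ind.lt i
        have h5 := norm_nonneg (b i)
        have h6 := norm_nonneg (x' i)
        nlinarith
      · rw [norm_mul]
        have h3 := norm_le_of_mem_Bu hok h.mt.ind hG hb0
        have h4 := hok.par.y1
        have h5 := norm_nonneg b0
        have h6 := norm_nonneg c.y
        nlinarith
    · rw [Polynomial.derivative_sub, Polynomial.derivative_X, Polynomial.derivative_C, sub_zero,
        Polynomial.eval_one, norm_one]
  obtain ⟨t, htB, f, hf, hfm, hft, hf', hBt⟩ :=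
    gamma_t A (Bu c x' G) hAb hAl hNA G hG hB hmax hres
  have ht1 : ‖t‖ ≤ 1 := norm_le_of_mem_Bu hok h.mt.ind hG htB
  exact ⟨_, gamma_icl A (Bu c x' G) F hAb hAl hIA t ht1 f hf hfm hft hf' hBt⟩

end Pool.Agent.Lib.TU
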