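import Pool.Agent.Lib.TU.StHO
import Pool.Agent.Lib.TU.HOApp
import Pool.Agent.Lib.TDO.Tol

/-!
# Module CompU: comparability of `Gn` and its transform (paper 9.1)

`M = S ⊓ L'`.  `E := c1.C(x1)` (`IntermediateField.adjoin c1.C (Set.range c1.x)`, as a field); every
`0 ≠ e ∈ E` is monomial for `c1` (a nonzero Laurent polynomial in `x1` alone has a lead with `d = 0`;
quotients), so monomial for `c2` and `c`, and `τ e` is monomial for `c2`, `c` (`MoH_map`):
`Gn c e = ‖e‖ = ‖τ e‖ = Gn c (τ e)`.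
Three absolute values on `Polynomial E`: `N0 f = ‖f(y1)‖`, `N1 f = Gn c (f(y1))`, `N2 f = Gn c (τ (f(y1)))`
(`f(y1) ∈ HL c1`, `τ (f(y1)) ∈ HL c2 ⊆ HL c`; definite because `y1` is transcendental over `E`;
`Gn_mul`, `Gn_add_le`), `N0 ≤ N1, N2` (`norm_le_Gn`, `τ` isometric).  `TDO.tol`: `N1 ≤ N2` or `N2 ≤ N1`.
Say `N1 ≤ N2`.  Let `0 ≠ z ∈ HL c1`; dividing by a monomial in `x1` (`Gn c` and `Gn c ∘ τ` agree on it) we
may assume `z ∈ HO c1`.  `HO_approx`: `z = P + x1^N h1 + y1^J h2` with `‖x1^N‖` and `‖y1‖^J` smaller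
than `Gn c z` and `Gn c (τ z)` (both positive).  `Gn c (x1^N h1 + y1^J h2) ≤ max(‖x1^N‖, ‖y1‖^J)` since
`x1^N`, `y1` are monomial for `c`, `h_i ∈ HO c`; the same for the images under `τ`
(`τ y1` monomial).  So `Gn c z = Gn c P ≤ Gn c (τ P) = Gn c (τ z)`.
-/

namespace Pool.Agent.Lib.TU

open Pool.Agent.Lib.MP_3029eb_ag Pool.Agent.Lib.MP_3029eb_ag.Abh Pool.Agent.Lib.TDO

section aux

/-- The monoid homomorphism of the monomials in `x`. -/
private noncomputable def CompU_hom {W : Type} [Field W] {r : ℕ} (x : Fin r → W)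
    (hx : ∀ i, x i ≠ 0) : Multiplicative (Fin r → ℤ) →* W where
  toFun a := Abh.mon x a.toAdd
  map_one' := mon_zero x
  map_mul' a b := mon_add x hx a.toAdd b.toAdd

private lemma CompU_rep {k W : Type} [Field k] [Field W] [Algebra k W] {r : ℕ} (x : Fin r → W)
    (hx : ∀ i, x i ≠ 0) {z : W} (hz : z ∈ Algebra.adjoin k (Set.range x)) :
    ∃ f : (Fin r → ℤ) →₀ k, z = f.sum fun a c => algebraMap k W c * Abh.mon x a := by
  have hle : Algebra.adjoin k (Set.range x) ≤
      (AddMonoidAlgebra.lift k W (Fin r → ℤ) (CompU_hom x hx)).range := by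
    apply Algebra.adjoin_le
    rintro _ ⟨i, rfl⟩
    refine ⟨AddMonoidAlgebra.single (Pi.single i 1) 1, ?_⟩
    have h1 : AddMonoidAlgebra.lift k W (Fin r → ℤ) (CompU_hom x hx)
        (AddMonoidAlgebra.single (Pi.single i 1) 1) =
        (1 : k) • Abh.mon x (Pi.single i 1) := AddMonoidAlgebra.lift_single _ _ _
    refine h1.trans ?_
    rw [one_smul]
    exact mon_single x i
  obtain ⟨Q, rfl⟩ := hle hz
  exact ⟨Q.coeff, rfl⟩

private lemma CompU_inj {k W : Type} [Field k] [NormedField W] [Algebra k W] {r : ℕ}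
    {x : Fin r → W} {y : W} (hP : Par k x y) :
    Function.Injective (Polynomial.aeval (R := IntermediateField.adjoin k (Set.range x)) y) := by
  have h1 := (tr_iff x y hP.ind.ne).1 hP.tr
  have hx : AlgebraicIndependent k x := by
    have h2 := h1.comp (fun i : Fin r => some i) (Option.some_injective _)
    exact h2
  have h3 : Transcendental (Algebra.adjoin k (Set.range x)) y :=
    (hx.option_iff_transcendental y).1 h1
  have h4 : Transcendental (IntermediateField.adjoin k (Set.range x)) y :=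
    IntermediateField.transcendental_adjoin_iff.2 h3
  exact transcendental_iff_injective.1 h4

private lemma CompU_range {k W : Type} [Field k] [Field W] [Algebra k W] {r : ℕ} (x : Fin r → W)
    (hx : ∀ i, x i ≠ 0) (y : W) (P : LP k r) :
    ∃ f : Polynomial (IntermediateField.adjoin k (Set.range x)),
      Polynomial.aeval y f = ev x y P := by
  have hz : ev x y P ∈ LL k x y := (mem_LL_iff x y hx _).2 ⟨P, rfl⟩
  have hle : LL k x y ≤ (Polynomial.aeval (R := IntermediateField.adjoin k (Set.range x))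
      y).range.toSubring := by
    unfold LL
    rw [Subring.closure_le]
    rintro w ((⟨c, rfl⟩ | ⟨a, rfl⟩) | rfl)
    · exact ⟨Polynomial.C (algebraMap k _ c), by
        show Polynomial.aeval y (Polynomial.C (algebraMap k _ c)) = _
        rw [Polynomial.aeval_C]; rfl⟩
    · have hm : Abh.mon x a ∈ IntermediateField.adjoin k (Set.range x) :=
        mon_mem x (fun i => IntermediateField.subset_adjoin k (Set.range x) (Set.mem_range_self i)) a
      exact ⟨Polynomial.C (⟨Abh.mon x a, hm⟩ : IntermediateField.adjoin k (Set.range x)), by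
        show Polynomial.aeval y
          (Polynomial.C (⟨Abh.mon x a, hm⟩ : IntermediateField.adjoin k (Set.range x))) = _
        rw [Polynomial.aeval_C]; rfl⟩
    · exact ⟨Polynomial.X, by
        show Polynomial.aeval w Polynomial.X = w
        rw [Polynomial.aeval_X]⟩
  exact hle hz

variable {k W : Type} [Field k] [NormedField W] [IsUltrametricDist W] [Algebra k W] {r m : ℕ}
  {M : IntermediateField k W} {c : Tri k W r}

/-- A nonzero Laurent polynomial in `x` is monomial. -/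
private lemma CompU_lau (hok : Ok m M c) {z : W} (hz : z ∈ Algebra.adjoin c.C (Set.range c.x))
    (h0 : z ≠ 0) : MoH M c z := by
  classical
  have hx := hok.par.ind
  obtain ⟨f, hf⟩ := CompU_rep c.x hx.ne hz
  have hs : f.support.Nonempty := by
    rw [Finsupp.support_nonempty_iff]
    rintro rfl
    rw [Finsupp.sum_zero_index] at hf
    exact h0 hf
  obtain ⟨a0, ha0, hmax⟩ := Finset.exists_max_image f.support (fun a => ‖Abh.mon c.x a‖) hs
  have hlt : ∀ j ∈ f.support, j ≠ a0 → ‖Abh.mon c.x j‖ < ‖Abh.mon c.x a0‖ := fun j hj hne =>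
    lt_of_le_of_ne (hmax j hj) (fun h => hne (norm_mon_inj hx h))
  have hsub : ∀ a, Abh.mon c.x (a - a0) = Abh.mon c.x a * (Abh.mon c.x a0)⁻¹ := fun a => by
    rw [sub_eq_add_neg, mon_add _ hx.ne, mon_neg]
  have hm0 : Abh.mon c.x a0 ≠ 0 := mon_ne _ hx.ne a0
  have hp0 : 0 < ‖Abh.mon c.x a0‖ := norm_pos_iff.2 hm0
  have hC : ∀ e : c.C, e ≠ 0 → ‖algebraMap c.C W e‖ = 1 := hok.hu
  have hN : ∀ j ∈ f.support, ‖algebraMap c.C W (f j) * Abh.mon c.x (j - a0)‖ =
      ‖Abh.mon c.x j‖ * ‖Abh.mon c.x a0‖⁻¹ := by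
    intro j hj
    rw [norm_mul, hC _ (Finsupp.mem_support_iff.1 hj), one_mul, hsub, norm_mul, norm_inv]
  refine ⟨a0, ∑ a ∈ f.support, algebraMap c.C W (f a) * Abh.mon c.x (a - a0), ?_, ?_, ?_⟩
  · refine sum_mem fun a ha => mul_mem (C_mem_HO hok (f a).2) (mon_mem_HO hok ?_)
    rw [hsub, norm_mul, norm_inv, ← div_eq_mul_inv]
    exact (div_le_one hp0).2 (hmax a ha)
  · have h2 := IsNonarchimedean.apply_sum_eq_of_lt (f := fun z : W => ‖z‖)
      (fun a b => IsUltrametricDist.norm_add_le_max a b)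
      (fun a => (norm_neg a).symm) (s := f.support)
      (l := fun a => algebraMap c.C W (f a) * Abh.mon c.x (a - a0)) ha0
      (fun j hj hne => by
        show ‖algebraMap c.C W (f j) * Abh.mon c.x (j - a0)‖ <
          ‖algebraMap c.C W (f a0) * Abh.mon c.x (a0 - a0)‖
        rw [hN j hj, hN a0 ha0]
        exact mul_lt_mul_of_pos_right (hlt j hj hne) (inv_pos.2 hp0))
    refine h2.trans ?_
    show ‖algebraMap c.C W (f a0) * Abh.mon c.x (a0 - a0)‖ = 1
    rw [hN a0 ha0, mul_inv_cancel₀ hp0.ne']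
  · rw [hf, Finset.mul_sum]
    refine Finset.sum_congr rfl fun a _ => ?_
    rw [hsub]
    field_simp

/-- The nonzero elements of `C(x)` are monomial. -/
private lemma CompU_fld (hok : Ok m M c) {z : W}
    (hz : z ∈ IntermediateField.adjoin c.C (Set.range c.x)) (h0 : z ≠ 0) : MoH M c z := by
  rw [IntermediateField.mem_adjoin_iff_div] at hz
  obtain ⟨n, hn, d, hd, rfl⟩ := hz
  rw [div_eq_mul_inv] at h0 ⊢
  have hn0 : n ≠ 0 := left_ne_zero_of_mul h0
  have hd0 : d ≠ 0 := fun h => right_ne_zero_of_mul h0 (by rw [h, inv_zero])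
  exact MoH.mul hok (CompU_lau hok hn hn0) (MoH.inv hok (CompU_lau hok hd hd0))

private lemma CompU_HL (hok : Ok m M c)
    (f : Polynomial (IntermediateField.adjoin c.C (Set.range c.x))) :
    Polynomial.aeval c.y f ∈ HL M c := by
  rw [Polynomial.aeval_eq_sum_range]
  refine sum_mem fun i _ => ?_
  rw [Algebra.smul_def]
  refine mul_mem ?_ (pow_mem (HO_le_HL (y_mem_HO hok)) _)
  by_cases h : algebraMap (IntermediateField.adjoin c.C (Set.range c.x)) W (f.coeff i) = 0
  · rw [h]; exact zero_mem _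
  · exact MoH.mem_HL hok (CompU_fld hok (f.coeff i).2 h)

/-- The properties of the functions `Gn c` and `Gn c ∘ τ`. -/
private structure CompU_H (M : IntermediateField k W) (c : Tri k W r) (H : W → ℝ) : Prop where
  zero : H 0 = 0
  pos : ∀ z ∈ HL M c, z ≠ 0 → 0 < H z
  mul : ∀ z ∈ HL M c, ∀ w ∈ HL M c, H (z * w) = H z * H w
  add : ∀ z ∈ HL M c, ∀ w ∈ HL M c, H (z + w) ≤ max (H z) (H w)
  neg : ∀ z ∈ HL M c, H (-z) = H z
  le : ∀ z ∈ HL M c, ‖z‖ ≤ H z
  mo : ∀ z, MoH M c z → H z = ‖z‖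
  y : H c.y = ‖c.y‖
  one : ∀ z ∈ HO M c, H z ≤ 1

private noncomputable def CompU_H.abs (hok : Ok m M c) {H : W → ℝ} (h : CompU_H M c H) :
    AbsoluteValue (Polynomial (IntermediateField.adjoin c.C (Set.range c.x))) ℝ where
  toFun f := H (Polynomial.aeval c.y f)
  map_mul' f g := by
    rw [map_mul]
    exact h.mul _ (CompU_HL hok f) _ (CompU_HL hok g)
  nonneg' f := by
    by_cases h0 : Polynomial.aeval c.y f = 0
    · rw [h0, h.zero]
    · exact (h.pos _ (CompU_HL hok f) h0).le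
  eq_zero' f := by
    constructor
    · intro hf
      by_contra hne
      have h0 : Polynomial.aeval c.y f ≠ 0 := fun h1 => hne (CompU_inj hok.par (by
        rw [h1, map_zero]))
      exact (h.pos _ (CompU_HL hok f) h0).ne' hf
    · rintro rfl
      rw [map_zero, h.zero]
  add_le' f g := by
    rw [map_add]
    refine (h.add _ (CompU_HL hok f) _ (CompU_HL hok g)).trans (max_le_add_of_nonneg ?_ ?_)
    · by_cases h0 : Polynomial.aeval c.y f = 0
      · rw [h0, h.zero]
      · exact (h.pos _ (CompU_HL hok f) h0).le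
    · by_cases h0 : Polynomial.aeval c.y g = 0
      · rw [h0, h.zero]
      · exact (h.pos _ (CompU_HL hok g) h0).le

private lemma CompU_H.const (hok : Ok m M c) {H : W → ℝ} (h : CompU_H M c H)
    (e : IntermediateField.adjoin c.C (Set.range c.x)) :
    H (Polynomial.aeval c.y (Polynomial.C e)) = ‖Polynomial.aeval c.y (Polynomial.C e)‖ := by
  rw [Polynomial.aeval_C]
  by_cases h0 : algebraMap (IntermediateField.adjoin c.C (Set.range c.x)) W e = 0
  · rw [h0, h.zero, norm_zero]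
  · exact h.mo _ (CompU_fld hok e.2 h0)

/-- The transfer to `HL`. -/
private lemma CompU_H.transfer (hr : 0 < r) (hok : Ok m M c) {H1 H2 : W → ℝ}
    (h1 : CompU_H M c H1) (h2 : CompU_H M c H2)
    (hle : ∀ f : Polynomial (IntermediateField.adjoin c.C (Set.range c.x)),
      H1 (Polynomial.aeval c.y f) ≤ H2 (Polynomial.aeval c.y f)) {z : W} (hz : z ∈ HL M c) :
    H1 z ≤ H2 z := by
  have key : ∀ z ∈ HO M c, H1 z ≤ H2 z := by
    intro z hz
    by_contra hcon
    rw [not_le] at hcon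
    have hzL := HO_le_HL hz
    have hz0 : z ≠ 0 := by
      rintro rfl
      rw [h1.zero, h2.zero] at hcon
      exact lt_irrefl _ hcon
    have hpos : 0 < H1 z := h1.pos z hzL hz0
    obtain ⟨N, -, hN⟩ := exists_mon_lt hr hok.par.ind (H1 z) hpos
    obtain ⟨J, hJ⟩ := exists_pow_lt_of_lt_one hpos hok.par.y1
    obtain ⟨P, -, g1, hg1, g2, hg2, he⟩ := HO_approx hr hok hz N J
    have hmo := MoH.of_mon hok N
    have hyH := y_mem_HO hok
    have hrest : ∀ H : W → ℝ, CompU_H M c H →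
        H (mon c.x N * g1 + c.y ^ J * g2) < H1 z := by
      intro H h
      have hyJ : ∀ n : ℕ, H (c.y ^ n) = ‖c.y‖ ^ n := by
        intro n
        induction n with
        | zero => rw [pow_zero, pow_zero, h.mo 1 (MoH.of_unit (one_mem _) norm_one), norm_one]
        | succ n ih =>
          rw [pow_succ, pow_succ, h.mul _ (pow_mem (HO_le_HL hyH) n) _ (HO_le_HL hyH), ih, h.y]
      refine lt_of_le_of_lt (h.add _ (mul_mem (mon_mem_HL N) (HO_le_HL hg1)) _
        (mul_mem (pow_mem (HO_le_HL hyH) J) (HO_le_HL hg2))) (max_lt ?_ ?_)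
      · rw [h.mul _ (mon_mem_HL N) _ (HO_le_HL hg1), h.mo _ hmo]
        exact lt_of_le_of_lt (mul_le_of_le_one_right (norm_nonneg _) (h.one _ hg1)) hN
      · rw [h.mul _ (pow_mem (HO_le_HL hyH) J) _ (HO_le_HL hg2), hyJ]
        exact lt_of_le_of_lt (mul_le_of_le_one_right (pow_nonneg (norm_nonneg _) _)
          (h.one _ hg2)) hJ
    have hrL : mon c.x N * g1 + c.y ^ J * g2 ∈ HL M c :=
      add_mem (mul_mem (mon_mem_HL N) (HO_le_HL hg1))
        (mul_mem (pow_mem (HO_le_HL hyH) J) (HO_le_HL hg2))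
    have hPL : ev c.x c.y P ∈ HL M c := ev_mem_HL hok P
    have he' : z = ev c.x c.y P + (mon c.x N * g1 + c.y ^ J * g2) := by rw [he, add_assoc]
    have h3 : H1 z ≤ H1 (ev c.x c.y P) := by
      have h4 := h1.add _ hPL _ hrL
      rw [← he'] at h4
      rcases le_max_iff.1 h4 with h5 | h5
      · exact h5
      · exact absurd (hrest H1 h1) (not_lt.2 h5)
    have h4 : H2 (ev c.x c.y P) < H1 z := by
      have h5 : ev c.x c.y P = z + -(mon c.x N * g1 + c.y ^ J * g2) := by rw [he']; ring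
      have h6 := h2.add _ hzL _ (neg_mem hrL)
      rw [← h5, h2.neg _ hrL] at h6
      exact lt_of_le_of_lt h6 (max_lt hcon (hrest H2 h2))
    obtain ⟨f, hf⟩ := CompU_range c.x hok.par.ind.ne c.y P
    have h5 := hle f
    rw [hf] at h5
    exact absurd (h3.trans h5) (not_le.2 h4)
  obtain ⟨a, h, hh, rfl⟩ := (mem_HL_iff hok z).1 hz
  have hmo := MoH.of_mon hok a
  rw [h1.mul _ (mon_mem_HL a) _ (HO_le_HL hh), h2.mul _ (mon_mem_HL a) _ (HO_le_HL hh),
    h1.mo _ hmo, h2.mo _ hmo]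
  exact mul_le_mul_of_nonneg_left (key h hh) (norm_nonneg _)

end aux

/-- See the header. -/
theorem compU {k W : Type} [Field k] [NormedField W] [IsUltrametricDist W] [Algebra k W]
    {r m : ℕ} (hr : 0 < r) {S L' : IntermediateField k W} {c1 c2 c : Tri k W r}
    (h1 : Ch m S L' c1) (h12 : RfS m S L' c1 c2) (h2 : RfS m S L' c2 c) (τ : W →+* W)
    (hiso : ∀ z, ‖τ z‖ = ‖z‖) (hH : ∀ z ∈ HO (S ⊓ L') c1, τ z ∈ HO (S ⊓ L') c2)
    (hx : ∀ i, MoH (S ⊓ L') c2 (τ (c1.x i))) (hy : MoH (S ⊓ L') c2 c1.y)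
    (hsy : MoH (S ⊓ L') c2 (τ c1.y)) :
    (∀ z ∈ HL (S ⊓ L') c1, Gn (S ⊓ L') c z ≤ Gn (S ⊓ L') c (τ z)) ∨
      (∀ z ∈ HL (S ⊓ L') c1, Gn (S ⊓ L') c (τ z) ≤ Gn (S ⊓ L') c z) := by
  classical
  have hc2 := RfS.ch h1 h12
  have hc := RfS.ch hc2 h2
  have hok1 := h1.ok
  have hok2 := hc2.ok
  have hok := hc.ok
  have h13 : RfS m S L' c1 c := Relation.ReflTransGen.trans h12 h2
  have hg : ∀ w, MoH (S ⊓ L') c w → Gn (S ⊓ L') c w = ‖w‖ := fun w hw =>
    (moH_iff_Gn hr hok (hw.mem_HL hok) (hw.ne hok)).1 hw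
  have H1 : CompU_H (S ⊓ L') c1 (Gn (S ⊓ L') c) := by
    have hL : ∀ z ∈ HL (S ⊓ L') c1, z ∈ HL (S ⊓ L') c := fun z hz => RfS.HL_le hr h1 h13 hz
    refine ⟨Gn_zero hr hok, fun z hz h0 => Gn_pos hr hok (hL z hz) h0,
      fun z hz w hw => Gn_mul hr hok (hL z hz) (hL w hw),
      fun z hz w hw => Gn_add_le hr hok (hL z hz) (hL w hw),
      fun z hz => Gn_neg hr hok (hL z hz), fun z hz => norm_le_Gn hr hok (hL z hz),
      fun z hz => hg z (RfS.moH hr h1 h13 hz), hg _ (RfS.moH hr hc2 h2 hy),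
      fun z hz => (Gn_le_one_iff hr hok (hL z (HO_le_HL hz))).2 (RfS.HO_le hr h1 h13 hz)⟩
  have H2 : CompU_H (S ⊓ L') c1 (fun z => Gn (S ⊓ L') c (τ z)) := by
    have hL : ∀ z ∈ HL (S ⊓ L') c1, τ z ∈ HL (S ⊓ L') c := fun z hz =>
      RfS.HL_le hr hc2 h2 (HL_map hok1 hok2 τ hH hx hz)
    refine ⟨?_, fun z hz h0 => Gn_pos hr hok (hL z hz) (fun h => h0 ?_),
      fun z hz w hw => ?_, fun z hz w hw => ?_, fun z hz => ?_, fun z hz => ?_,
      fun z hz => ?_, ?_, fun z hz => ?_⟩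
    · show Gn (S ⊓ L') c (τ 0) = 0
      rw [map_zero, Gn_zero hr hok]
    · exact τ.injective (by rw [h, map_zero])
    · show Gn (S ⊓ L') c (τ (z * w)) = _
      rw [map_mul]
      exact Gn_mul hr hok (hL z hz) (hL w hw)
    · show Gn (S ⊓ L') c (τ (z + w)) ≤ _
      rw [map_add]
      exact Gn_add_le hr hok (hL z hz) (hL w hw)
    · show Gn (S ⊓ L') c (τ (-z)) = _
      rw [map_neg]
      exact Gn_neg hr hok (hL z hz)
    · rw [← hiso z]
      exact norm_le_Gn hr hok (hL z hz)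
    · show Gn (S ⊓ L') c (τ z) = _
      rw [← hiso z]
      exact hg _ (RfS.moH hr hc2 h2 (MoH_map hok2 τ hiso hH hx hz))
    · show Gn (S ⊓ L') c (τ c1.y) = _
      rw [← hiso c1.y]
      exact hg _ (RfS.moH hr hc2 h2 hsy)
    · exact (Gn_le_one_iff hr hok (hL z (HO_le_HL hz))).2 (RfS.HO_le hr hc2 h2 (hH z hz))
  have H0 : CompU_H (S ⊓ L') c1 (fun z => ‖z‖) :=
    ⟨norm_zero, fun z _ h0 => norm_pos_iff.2 h0, fun z _ w _ => norm_mul z w,
      fun z _ w _ => IsUltrametricDist.norm_add_le_max z w, fun z _ => norm_neg z,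
      fun z _ => le_rfl, fun z _ => rfl, rfl, fun z hz => HO_norm_le hok1 hz⟩
  rcases tol (H0.abs hok1) (H1.abs hok1) (H2.abs hok1)
    (fun f g => by
      show ‖Polynomial.aeval c1.y (f + g)‖ ≤ max ‖Polynomial.aeval c1.y f‖
        ‖Polynomial.aeval c1.y g‖
      rw [map_add]; exact IsUltrametricDist.norm_add_le_max _ _)
    (fun f g => by
      show Gn (S ⊓ L') c (Polynomial.aeval c1.y (f + g)) ≤
        max (Gn (S ⊓ L') c (Polynomial.aeval c1.y f)) (Gn (S ⊓ L') c (Polynomial.aeval c1.y g))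
      rw [map_add]; exact H1.add _ (CompU_HL hok1 f) _ (CompU_HL hok1 g))
    (fun f g => by
      show Gn (S ⊓ L') c (τ (Polynomial.aeval c1.y (f + g))) ≤
        max (Gn (S ⊓ L') c (τ (Polynomial.aeval c1.y f)))
          (Gn (S ⊓ L') c (τ (Polynomial.aeval c1.y g)))
      have h3 := H2.add _ (CompU_HL hok1 f) _ (CompU_HL hok1 g)
      rw [← map_add (Polynomial.aeval c1.y)] at h3
      exact h3)
    (fun e => H1.const hok1 e) (fun e => H2.const hok1 e)
    (fun f => H1.le _ (CompU_HL hok1 f)) (fun f => H2.le _ (CompU_HL hok1 f)) with h | h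
  · exact Or.inl fun z hz => H1.transfer hr hok1 H2 (fun f => h f) hz
  · exact Or.inr fun z hz => H2.transfer hr hok1 H1 (fun f => h f) hz

end Pool.Agent.Lib.TU
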