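import Pool.Agent.Lib.TU.StabD

/-!
# Module Dedek: independence of the automorphisms modulo the maximal ideal

`n = card Γ`.  `s_j := ∑_σ σ(ζ)^j u_σ = ∑_σ σ(ζ^j) u_σ`, `j = 0, .., n - 1`, elements of `HO` of norm `≤ 1`.
For `σ ≠ τ`: `‖σ ζ - τ ζ‖ = ‖τ (τ⁻¹σ ζ - ζ)‖ = 1` (`act.mul`, isometry).  Fix `σ0`;
`∏_(τ ≠ σ0) (T - τ ζ) = ∑_(j<n) q_j T^j`, `‖q_j‖ ≤ 1`: `∑ q_j s_j = u_(σ0) ∏_(τ ≠ σ0) (σ0 ζ - τ ζ)` has
norm one, so some `‖s_j‖ = 1`: take `b = ζ^j`.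
-/

namespace Pool.Agent.Lib.TU

open Pool.Agent.Lib.MP_3029eb_ag Pool.Agent.Lib.MP_3029eb_ag.Abh Pool.Agent.Lib.TDO

private theorem dedek_sum_lt {W : Type} [NormedField W] [IsUltrametricDist W] {ι : Type}
    (S : Finset ι) (f : ι → W) (h : ∀ i ∈ S, ‖f i‖ < 1) : ‖∑ i ∈ S, f i‖ < 1 := by
  classical
  induction S using Finset.induction_on with
  | empty => simp
  | insert a S ha ih =>
    rw [Finset.sum_insert ha]
    refine lt_of_le_of_lt (IsUltrametricDist.norm_add_le_max _ _)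
      (max_lt (h a (Finset.mem_insert_self _ _)) (ih fun i hi => ?_))
    exact h i (Finset.mem_insert_of_mem hi)

/-- See the header. -/
theorem dedekU {k W : Type} [Field k] [NormedField W] [IsUltrametricDist W] [Algebra k W]
    {r m : ℕ} {Γ : Type} [Group Γ] [Fintype Γ] {S L L' : IntermediateField k W}
    {act : Act Γ S L L'} {c : Tri k W r} (h : Stb m act c) {ζ : W}
    (hζ : ζ ∈ HO (S ⊓ L') c) (hζ1 : ∀ σ : Γ, σ ≠ 1 → ‖act.f σ ζ - ζ‖ = 1) (u : Γ → W)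
    (hu : ∀ σ, u σ ∈ HO (S ⊓ L') c ∧ ‖u σ‖ = 1) :
    ∃ b ∈ HO (S ⊓ L') c, ‖∑ σ, act.f σ b * u σ‖ = 1 := by
  classical
  have hok := h.ch.ok
  have hζL : ζ ∈ L' := (HO_mem_M hok hζ).2
  by_contra hcon
  push Not at hcon
  have hs : ∀ j : ℕ, ‖∑ σ, act.f σ ζ ^ j * u σ‖ < 1 := by
    intro j
    have h1 := hcon (ζ ^ j) (pow_mem hζ j)
    simp only [map_pow] at h1
    refine lt_of_le_of_ne (HO_norm_le hok ?_) h1
    exact sum_mem fun σ _ => mul_mem (pow_mem (h.ho σ ζ hζ) j) (hu σ).1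
  obtain ⟨q, hq⟩ : ∃ q : Polynomial W, q = ∏ τ ∈ Finset.univ.erase (1 : Γ),
      (Polynomial.X - Polynomial.C (act.f τ ζ)) := ⟨_, rfl⟩
  have hqc : ∀ j, q.coeff j ∈ HO (S ⊓ L') c := by
    have h1 : q ∈ Polynomial.lifts (HO (S ⊓ L') c).subtype := by
      rw [hq]
      refine Subsemiring.prod_mem _ fun τ _ => ?_
      refine (Polynomial.mem_lifts _).2 ⟨Polynomial.X - Polynomial.C ⟨act.f τ ζ, h.ho τ ζ hζ⟩, ?_⟩
      rw [Polynomial.map_sub, Polynomial.map_X, Polynomial.map_C]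
      rfl
    intro j
    obtain ⟨y, hy⟩ := (Polynomial.lifts_iff_coeff_lifts _).1 h1 j
    rw [← hy]
    exact y.2
  have h1 : ∑ σ, q.eval (act.f σ ζ) * u σ =
      ∑ j ∈ Finset.range (q.natDegree + 1), q.coeff j * ∑ σ, act.f σ ζ ^ j * u σ := by
    simp only [Finset.mul_sum]
    rw [Finset.sum_comm]
    refine Finset.sum_congr rfl fun σ _ => ?_
    rw [Polynomial.eval_eq_sum_range, Finset.sum_mul]
    exact Finset.sum_congr rfl fun j _ => by ring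
  have h2 : ‖∑ σ, q.eval (act.f σ ζ) * u σ‖ < 1 := by
    rw [h1]
    refine dedek_sum_lt _ _ fun j _ => ?_
    rw [norm_mul]
    calc ‖q.coeff j‖ * ‖∑ σ, act.f σ ζ ^ j * u σ‖ ≤ 1 * ‖∑ σ, act.f σ ζ ^ j * u σ‖ :=
          mul_le_mul_of_nonneg_right (HO_norm_le hok (hqc j)) (norm_nonneg _)
      _ < 1 := by rw [one_mul]; exact hs j
  have h3 : ∑ σ, q.eval (act.f σ ζ) * u σ = q.eval ζ * u 1 := by
    rw [Finset.sum_eq_single (1 : Γ)]
    · rw [act.one ζ hζL]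
    · intro σ _ hσ
      have h4 : q.eval (act.f σ ζ) = 0 := by
        rw [hq, Polynomial.eval_prod]
        refine Finset.prod_eq_zero (Finset.mem_erase.2 ⟨hσ, Finset.mem_univ σ⟩) ?_
        rw [Polynomial.eval_sub, Polynomial.eval_X, Polynomial.eval_C, sub_self]
      rw [h4, zero_mul]
    · intro h4
      exact absurd (Finset.mem_univ _) h4
  have h4 : ‖q.eval ζ‖ = 1 := by
    rw [hq, Polynomial.eval_prod, norm_prod]
    refine Finset.prod_eq_one fun τ hτ => ?_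
    rw [Polynomial.eval_sub, Polynomial.eval_X, Polynomial.eval_C, norm_sub_rev]
    exact hζ1 τ (Finset.ne_of_mem_erase hτ)
  rw [h3, norm_mul, h4, (hu 1).2, one_mul] at h2
  exact lt_irrefl _ h2

end Pool.Agent.Lib.TU
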