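import Pool.Agent.Lib.TDO.Defs
import Pool.Agent.Lib.TDO.Mon

/-!
# Local uniformization along all rank one valuations of transcendence defect one: definitions

`k` is a perfect field of characteristic `p`, `W` is a normed field (ultrametric) containing `k`.
-/

namespace Pool.Agent.Lib.TU

open Pool.Agent.Lib.MP_3029eb_ag Pool.Agent.Lib.MP_3029eb_ag.Abh Pool.Agent.Lib.TDO

/-- Standing assumptions: `k` has trivial norm, any `r + 1` nonzero elements of `W` satisfy a
multiplicative relation of norm one (the rational rank is at most `r`), and any `m + 1` elements of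
norm at most one are residually algebraically dependent over `k` (the transcendence degree of the
residue field is at most `m`). -/
structure AmbG (r m : ℕ) (k W : Type) [Field k] [NormedField W] [Algebra k W] : Prop where
  unit : ∀ c : k, c ≠ 0 → ‖algebraMap k W c‖ = 1
  rank : ∀ z : Fin (r + 1) → W, (∀ i, z i ≠ 0) → ∃ a : Fin (r + 1) → ℤ, a ≠ 0 ∧ ‖mon z a‖ = 1
  res : ∀ z : Fin (m + 1) → W, (∀ i, ‖z i‖ ≤ 1) →
    ∃ P : MvPolynomial (Fin (m + 1)) k, P ≠ 0 ∧ ‖MvPolynomial.aeval z P‖ < 1

/-- The base field is trivially normed and the rational rank is at most `r`. -/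
structure AmbU (r : ℕ) (k W : Type) [Field k] [NormedField W] [Algebra k W] : Prop where
  unit : ∀ c : k, c ≠ 0 → ‖algebraMap k W c‖ = 1
  rank : ∀ z : Fin (r + 1) → W, (∀ i, z i ≠ 0) → ∃ a : Fin (r + 1) → ℤ, a ≠ 0 ∧ ‖mon z a‖ = 1

/-- Triples: a field `C` (of constants), `r` elements `x i` (the monomial parameters) and an
element `y`. -/
structure Tri (k W : Type) [Field k] [Field W] [Algebra k W] (r : ℕ) where
  C : IntermediateField k W
  x : Fin r → W
  y : W

variable {k W : Type} [Field k] [NormedField W] [Algebra k W] {r : ℕ}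

/-- A field of constants: trivially normed, finitely generated over `k`, of transcendence degree
`m` over `k`. -/
structure Cst (m : ℕ) (C : IntermediateField k W) : Prop where
  unit : ∀ e ∈ C, e ≠ 0 → ‖e‖ = 1
  fg : C.FG
  trd : Algebra.trdeg k C = (m : Cardinal)

/-- A triple in the field `M`. -/
structure Ok (m : ℕ) (M : IntermediateField k W) (c : Tri k W r) : Prop where
  cst : Cst m c.C
  par : Par c.C c.x c.y
  CM : c.C ≤ M
  xM : ∀ i, c.x i ∈ M
  yM : c.y ∈ M

/-- A chart of the (complete) field `L`, relative to the separably closed field `S`. -/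
structure Ch (m : ℕ) (S L : IntermediateField k W) (c : Tri k W r) : Prop where
  ok : Ok m (S ⊓ L) c
  dense : ∀ z ∈ L, z ∈ cl (Kxy c.C c.x c.y)
  sep : ∀ z ∈ S, IsSeparable (Kxy c.C c.x c.y) z

/-- `L` has a chart. -/
def HasCh (m : ℕ) (S : IntermediateField k W) (r : ℕ) (L : IntermediateField k W) : Prop :=
  ∃ c : Tri k W r, Ch m S L c

/-- `x'` is obtained from `x` by a unimodular monomial transformation, the `x i` are monomials with
exponents `≥ 0` in the `x' i`. -/
structure Mt {W : Type} [NormedField W] {r : ℕ} (x x' : Fin r → W) : Prop where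
  ind : Indep x'
  mat : ∃ (A : Fin r → Fin r → ℕ) (B : Fin r → Fin r → ℤ), (∀ i, x i = monN x' (A i)) ∧
    (∀ i, x' i = mon x (B i)) ∧ ∀ i j, ∑ l, (A i l : ℤ) * B l j = if i = j then 1 else 0

variable [IsUltrametricDist W]

/-- The localization of `C[x', y, G]` at the centre of the norm. -/
def Bu (c : Tri k W r) (x' : Fin r → W) (G : Finset W) : Subring W :=
  locV (ball W) (Subring.closure (((c.C : Set W) ∪ Set.range x') ∪ ({c.y} ∪ (G : Set W))))

/-- `(x', G)` is a model of the triple `c` in the field `M`: every element of `G` is a constant plus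
an element of the ideal generated by the `x' i` and `y` in the ring `Bu c x' G`. -/
structure Mdl (M : IntermediateField k W) (c : Tri k W r) (x' : Fin r → W) (G : Finset W) :
    Prop where
  mt : Mt c.x x'
  gM : ∀ g ∈ G, g ∈ M ∧ ‖g‖ ≤ 1
  dec : ∀ g ∈ G, ∃ e ∈ c.C, ∃ (b : Fin r → W) (b0 : W), (∀ i, b i ∈ Bu c x' G) ∧
    b0 ∈ Bu c x' G ∧ g = e + ∑ i, b i * x' i + b0 * c.y

/-- The ring of all elements of `M` which lie in a model of the triple `c` (see `mem_HO_iff`). -/
def HO (M : IntermediateField k W) (c : Tri k W r) : Subring W :=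
  Subring.closure {z | ∃ (x' : Fin r → W) (G : Finset W), Mdl M c x' G ∧ z ∈ Bu c x' G}

/-- `HO M c [1/x]` -/
def HL (M : IntermediateField k W) (c : Tri k W r) : Subring W :=
  Subring.closure ((HO M c : Set W) ∪ Set.range (mon c.x))

/-- The ideal of `HO M c` generated by the monomials of norm less than one. -/
def QH (M : IntermediateField k W) (c : Tri k W r) : Set W :=
  {z | ∃ a : Fin r → ℤ, ‖mon c.x a‖ < 1 ∧ ∃ h ∈ HO M c, z = mon c.x a * h}

/-- `z` is a monomial in `x` times a unit of `HO M c`. -/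
def MoH (M : IntermediateField k W) (c : Tri k W r) (z : W) : Prop := Mo (HO M c) c.x z

/-- The lead form: `z = x^a * (y^d * v + q)`, `v` a unit of `HO M c`, `q ∈ QH M c`. -/
def Ld (M : IntermediateField k W) (c : Tri k W r) (z : W) (a : Fin r → ℤ) (d : ℕ) : Prop :=
  ∃ v ∈ HO M c, ‖v‖ = 1 ∧ ∃ q ∈ QH M c, z = mon c.x a * (c.y ^ d * v + q)

open Classical in
/-- The norm given by the lead form. -/
noncomputable def Gn (M : IntermediateField k W) (c : Tri k W r) (z : W) : ℝ :=
  if h : ∃ (a : Fin r → ℤ) (d : ℕ), Ld M c z a d then ‖mon c.x h.choose‖ else 0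

/-- The field generated by the constants and `w`. -/
noncomputable def Cw (C : IntermediateField k W) (w : W) : IntermediateField C W :=
  IntermediateField.adjoin C {w}

/-- The localization of `C[w]` at the centre of the norm. -/
def Rw (C : IntermediateField k W) (w : W) : Subring W :=
  locV (ball W) (Subring.closure ((C : Set W) ∪ {w}))

/-- A stage `c → c'` of charts of `L`: `w = y^e / x^B` is a unit with residual minimal polynomial
`g`, `y' = g(w)`, the monomials in `x, y` are the monomials in `x', w`. -/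
structure St (m : ℕ) (S L : IntermediateField k W) (c c' : Tri k W r) (e : ℕ) (B : Fin r → ℤ)
    (w : W) (g : Polynomial c.C) (T : ((Fin r → ℤ) × ℤ) ≃+ ((Fin r → ℤ) × ℤ)) : Prop where
  ch : Ch m S L c
  ch' : Ch m S L c'
  e1 : 1 ≤ e
  w1 : ‖w‖ = 1
  hw : c.y ^ e = mon c.x B * w
  hT : T (-B, (e : ℤ)) = (0, 1)
  hm : ∀ (a : Fin r → ℤ) (j : ℤ), mon c.x a * c.y ^ j =
    mon c'.x (T (a, j)).1 * w ^ (T (a, j)).2
  gm : g.Monic
  gi : Irreducible g
  hy : c'.y = Polynomial.aeval w g
  Cle : ∀ z ∈ c'.C, z ∈ cl (Cw c.C w)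
  res : ∀ z ∈ Rw c.C w, ∃ e' ∈ c'.C, ‖z - e'‖ < 1
  lift : ∀ e' ∈ c'.C, ∃ z ∈ Rw c.C w, ‖z - e'‖ < 1
  sepZ : ∀ e' ∈ c'.C, IsSeparable (IntermediateField.adjoin k {z : W | z ∈ c'.C ∧ z ∈ Rw c.C w}) e'
  inH : (∀ z ∈ c.C, z ∈ HO (S ⊓ L) c') ∧ w ∈ HO (S ⊓ L) c'

/-- There is a stage from `c` to `c'`. -/
def StR (m : ℕ) (S L : IntermediateField k W) (c c' : Tri k W r) : Prop :=
  ∃ (e : ℕ) (B : Fin r → ℤ) (w : W) (g : Polynomial c.C)
    (T : ((Fin r → ℤ) × ℤ) ≃+ ((Fin r → ℤ) × ℤ)), St m S L c c' e B w g T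

/-- `c'` is obtained from `c` by finitely many stages. -/
def RfS (m : ℕ) (S L : IntermediateField k W) : Tri k W r → Tri k W r → Prop :=
  Relation.ReflTransGen (StR m S L)

/-- The closure of a subring `A` in the monomial topology of `HL M c`. -/
def Dcl (M : IntermediateField k W) (c : Tri k W r) (A : Subring W) : Set W :=
  {z | z ∈ HL M c ∧ ∀ N : Fin r → ℤ, ∃ a ∈ A, ∃ h ∈ HO M c, z = a + mon c.x N * h}

/-- The fractions `n / d` with `n, d ∈ A` and `d` monomial for the triple `c`
(see `mem_Afr_iff`). -/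
def Afr (M : IntermediateField k W) (c : Tri k W r) (A : Subring W) : Subring W :=
  Subring.closure {z | ∃ n ∈ A, ∃ d ∈ A, MoH M c d ∧ z * d = n}

/-- A coefficient `e` at the exponent `(a, j)` is of `p`-type. -/
def PT (p : ℕ) {C : Type} [Field C] {r : ℕ} (a : Fin r → ℤ) (j : ℕ) (e : C) : Prop :=
  (∃ a' : Fin r → ℤ, a = p • a') ∧ p ∣ j ∧ ∃ b : C, e = b ^ p

/-- Reduced Laurent polynomials: every exponent `(a, j) ≠ (0, 0)` has `1 < ‖x ^ a‖` and its
coefficient is not of `p`-type. -/
def RedC (p : ℕ) {C W : Type} [Field C] [NormedField W] {r : ℕ} (x : Fin r → W)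
    (P : LP C r) : Prop :=
  ∀ a j, P.coeff (a, j) ≠ 0 →
    (a = 0 ∧ j = 0) ∨ (1 < ‖mon x a‖ ∧ ¬ PT p a j (P.coeff (a, j)))

/-- The group `Γ` acts on the field `L'` with fixed field `L`; the element `σ` acts by the
restriction of an isometric homomorphism `f σ : W → W` mapping `S` to `S`. -/
structure Act (Γ : Type) [Group Γ] (S L L' : IntermediateField k W) where
  f : Γ → W →ₐ[k] W
  iso : ∀ σ z, ‖f σ z‖ = ‖z‖
  memL : ∀ σ, ∀ z ∈ L', f σ z ∈ L'
  memS : ∀ σ, ∀ z ∈ S, f σ z ∈ S
  one : ∀ z ∈ L', f 1 z = z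
  mul : ∀ σ τ, ∀ z ∈ L', f (σ * τ) z = f σ (f τ z)
  fix : ∀ z ∈ L', (∀ σ, f σ z = z) ↔ z ∈ L

/-- Unramified Galois step: `L1` is a finite Galois extension of `L` and there is an element of the
unit ball of `L1` whose conjugates have distance one from each other. -/
def UStep (L L1 : IntermediateField k W) : Prop :=
  ∃ N : IntermediateField L W, FiniteDimensional L N ∧ IsGalois L N ∧
    N.restrictScalars k = L1 ∧ ∃ ζ : N, ‖(ζ : W)‖ ≤ 1 ∧
      ∀ σ : N ≃ₐ[L] N, σ ≠ 1 → ‖((σ ζ : N) : W) - (ζ : W)‖ = 1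

/-- A tower of tame Galois steps leading to a field with a chart. -/
inductive TTower (m : ℕ) (S : IntermediateField k W) (r : ℕ) : IntermediateField k W → Prop
  | base (L : IntermediateField k W) : HasCh m S r L → TTower m S r L
  | kstep (L : IntermediateField k W) (l : ℕ) (w ζ : W) : l.Prime → (l : k) ≠ 0 → w ^ l ∈ L →
      ζ ∈ L → IsPrimitiveRoot ζ l →
      TTower m S r (L ⊔ IntermediateField.adjoin k {w}) → TTower m S r L
  | ustep (L L1 : IntermediateField k W) : UStep L L1 → TTower m S r L1 → TTower m S r L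

end Pool.Agent.Lib.TU
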