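import Mathlib

/-!
# Module DerEx: derivations of a field of characteristic `p`
-/

namespace Pool.Agent.Lib.TU

open Polynomial

private theorem derEx_minpoly {C : Type} [Field C] (p : ℕ) [hp : Fact p.Prime] [CharP C p]
    (E : Subfield C) (hE : ∀ z : C, z ^ p ∈ E) (z : C) (hz : z ∉ E) :
    minpoly E z = X ^ p - Polynomial.C (⟨z ^ p, hE z⟩ : E) := by
  have hirr : Irreducible (X ^ p - Polynomial.C (⟨z ^ p, hE z⟩ : E)) := by
    rw [X_pow_sub_C_irreducible_iff_of_prime hp.out]
    intro b hb
    apply hz
    have h1 : ((b : C)) ^ p = z ^ p := by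
      have := congrArg (Subtype.val) hb
      simpa using this
    have h2 : (b : C) = z := frobenius_inj C p (by simpa [frobenius_def] using h1)
    rw [← h2]
    exact b.2
  refine (minpoly.eq_of_irreducible_of_monic hirr ?_ ?_).symm
  · simp only [map_sub, map_pow, aeval_X, aeval_C]
    exact sub_eq_zero.2 rfl
  · exact monic_X_pow_sub_C _ hp.out.ne_zero

/-- If `t` is not a `p`-th power there is a derivation `D` of `C` with `D t = 1`.
Proof.  By Zorn's lemma there is a maximal subfield `E` of `C` containing all `p`-th powers and not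
containing `t`.  Then `C = E(t)`: for `z ∉ E`, `E(z)` contains `t` by maximality; `z ^ p ∈ E` so
`[E(z) : E] = p` (`X ^ p - z ^ p` is irreducible over `E`: `X_pow_sub_C_irreducible_iff_of_prime`), and
`t ∉ E` gives `[E(t) : E] = p`, so `E(t) = E(z)`.
So `C ≃ E[X] / (X ^ p - t ^ p)` and `d/dX` induces a derivation (`d/dX (X ^ p - t ^ p) = 0`):
for `z ∈ C` choose `f ∈ E[X]` with `aeval t f = z` and put `D z = aeval t f.derivative`; well defined
since `aeval t f = 0` implies `f = (X ^ p - t ^ p) g`. -/
theorem exists_der {C : Type} [Field C] (p : ℕ) [Fact p.Prime] [CharP C p] (t : C)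
    (ht : ¬ ∃ b : C, t = b ^ p) : ∃ D : Derivation ℤ C C, D t = 1 := by
  classical
  have hp : p.Prime := Fact.out
  -- Zorn
  obtain ⟨E, hEmax⟩ : ∃ E : Subfield C, Maximal (fun E : Subfield C => (∀ z : C, z ^ p ∈ E) ∧ t ∉ E) E := by
    have hne : (fun E : Subfield C => (∀ z : C, z ^ p ∈ E) ∧ t ∉ E) (frobenius C p).fieldRange := by
      constructor
      · intro z
        exact ⟨z, by simp [frobenius_def]⟩
      · rintro ⟨b, hb⟩
        exact ht ⟨b, by rw [← hb]; simp [frobenius_def]⟩
    obtain ⟨E, -, hE⟩ := zorn_le_nonempty₀ {E : Subfield C | (∀ z : C, z ^ p ∈ E) ∧ t ∉ E}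
      (fun c hc hchain y hy => by
        refine ⟨sSup c, ?_, fun z hz => le_sSup hz⟩
        have hdir : DirectedOn (· ≤ ·) c := hchain.directedOn
        constructor
        · intro z
          exact (le_sSup hy) ((hc hy).1 z)
        · intro htm
          rw [Subfield.mem_sSup_of_directedOn ⟨y, hy⟩ hdir] at htm
          obtain ⟨s, hs, hts⟩ := htm
          exact (hc hs).2 hts) _ hne
    exact ⟨E, hE⟩
  obtain ⟨⟨hE, htE⟩, hmax⟩ := hEmax
  have hfin : ∀ z : C, z ∉ E → Module.finrank E (IntermediateField.adjoin E {z}) = p := by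
    intro z hz
    have hint : IsIntegral E z := by
      refine ⟨X ^ p - Polynomial.C (⟨z ^ p, hE z⟩ : E), monic_X_pow_sub_C _ hp.ne_zero, ?_⟩
      simp only [eval₂_sub, eval₂_pow, eval₂_X, eval₂_C]
      exact sub_eq_zero.2 rfl
    rw [IntermediateField.adjoin.finrank hint, derEx_minpoly p E hE z hz]
    exact natDegree_X_pow_sub_C
  have hint : ∀ z : C, IsIntegral E z := by
    intro z
    refine ⟨X ^ p - Polynomial.C (⟨z ^ p, hE z⟩ : E), monic_X_pow_sub_C _ hp.ne_zero, ?_⟩
    simp only [eval₂_sub, eval₂_pow, eval₂_X, eval₂_C]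
    exact sub_eq_zero.2 rfl
  have htop : ∀ z : C, z ∈ IntermediateField.adjoin E {t} := by
    intro z
    by_cases hz : z ∈ E
    · exact (IntermediateField.adjoin E {t}).algebraMap_mem ⟨z, hz⟩
    · have htz : t ∈ IntermediateField.adjoin E {z} := by
        by_contra hcon
        have h1 := hmax (y := (IntermediateField.adjoin E {z}).toSubfield)
          ⟨fun w => (IntermediateField.adjoin E {z}).algebraMap_mem ⟨w ^ p, hE w⟩, hcon⟩
          (fun w hw => (IntermediateField.adjoin E {z}).algebraMap_mem ⟨w, hw⟩)
        exact hz (h1 (IntermediateField.mem_adjoin_simple_self E z))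
      have hle : IntermediateField.adjoin E {t} ≤ IntermediateField.adjoin E {z} := by
        rw [IntermediateField.adjoin_simple_le_iff]
        exact htz
      have : FiniteDimensional E (IntermediateField.adjoin E {z}) :=
        IntermediateField.adjoin.finiteDimensional (hint z)
      have heq := IntermediateField.eq_of_le_of_finrank_eq hle (by rw [hfin z hz, hfin t htE])
      rw [heq]
      exact IntermediateField.mem_adjoin_simple_self E z
  have hsurj : ∀ z : C, ∃ f : E[X], aeval t f = z := by
    intro z
    have h1 := htop z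
    rw [← IntermediateField.mem_toSubalgebra,
      IntermediateField.adjoin_simple_toSubalgebra_of_isAlgebraic (hint t).isAlgebraic,
      Algebra.adjoin_singleton_eq_range_aeval] at h1
    obtain ⟨f, hf⟩ := h1
    exact ⟨f, hf⟩
  have hwd : ∀ f g : E[X], aeval t f = aeval t g → aeval t (derivative f) = aeval t (derivative g) := by
    intro f g hfg
    have h1 : aeval t (f - g) = 0 := by rw [map_sub, hfg, sub_self]
    obtain ⟨h, hh⟩ := minpoly.dvd E t h1
    rw [derEx_minpoly p E hE t htE] at hh
    have h2 : aeval t (derivative (f - g)) = 0 := by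
      have : CharP E p := (RingHom.charP_iff (algebraMap E C) (algebraMap E C).injective p).2 inferInstance
      rw [hh, derivative_mul, map_add, map_mul, map_mul]
      have h3 : aeval t (X ^ p - Polynomial.C (⟨t ^ p, hE t⟩ : E)) = 0 := by
        simp only [map_sub, map_pow, aeval_X, aeval_C]
        exact sub_eq_zero.2 rfl
      have h4 : derivative (X ^ p - Polynomial.C (⟨t ^ p, hE t⟩ : E)) = 0 := by
        rw [derivative_sub, derivative_C, derivative_X_pow, CharP.cast_eq_zero, map_zero, zero_mul, sub_zero]
      rw [h3, h4]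
      simp
    rw [derivative_sub, map_sub] at h2
    exact sub_eq_zero.1 h2
  choose F hF using hsurj
  have hadd : ∀ z w : C, aeval t (derivative (F (z + w))) =
      aeval t (derivative (F z)) + aeval t (derivative (F w)) := by
    intro z w
    rw [← map_add, ← derivative_add]
    apply hwd
    rw [map_add, hF, hF, hF]
  have hmul : ∀ z w : C, aeval t (derivative (F (z * w))) =
      z * aeval t (derivative (F w)) + w * aeval t (derivative (F z)) := by
    intro z w
    have h1 := hwd (F (z * w)) (F z * F w) (by rw [map_mul, hF, hF, hF])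
    rw [h1, derivative_mul, map_add, map_mul, map_mul, hF, hF]
    ring
  let D0 : C →+ C := AddMonoidHom.mk' (fun z => aeval t (derivative (F z))) hadd
  refine ⟨Derivation.mk' D0.toIntLinearMap ?_, ?_⟩
  · intro a b
    simp only [AddMonoidHom.coe_toIntLinearMap, smul_eq_mul]
    exact hmul a b
  · have h1 := hwd (F t) X (by rw [hF, aeval_X])
    change aeval t (derivative (F t)) = 1
    rw [h1, derivative_X, map_one]

end Pool.Agent.Lib.TU
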