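import Pool.Agent.Lib.TU.StabD
import Pool.Agent.Lib.TU.ChB
import Pool.Agent.Lib.TDO.Ev
import Pool.Agent.Lib.TDO.Cl

/-!
# Module UnrCh: the chart of the smaller field in the unramified case (paper section 10)

`C~ := c.C ⊓ L` = the elements of `c.C` fixed by `Γ` (`act.fix`).
`Cst`: trivially normed; `c.C` is algebraic over `C~` (`e` is a root of `∏_σ (T - σ e)`), so `trdeg = m`;
`k(Z) ≤ C~ ≤ c.C`, and `c.C` is finitely generated and algebraic, so finite-dimensional over `k(Z)`, hence
so is `C~`: `C~.FG`.  `Par`: algebraic independence over a smaller field.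
Separability: `c.C` is separable over `k(Z) ⊆ C~`, so `c.C(x, y)` over `C~(x, y)`; `S` over `c.C(x, y)`.
Density: `z ∈ L`, `ε > 0`.  `T(u) := ∑_σ σ(b u)`, `T(z) = z ∑ σ(b) = z`, `‖T(u)‖ ≤ ‖u‖` for all `u ∈ L'`.  Choose
`P ∈ c.C(x, y)` with `‖z - P‖ < ε`, `P = N / D` with `N, D ∈ LL c.C x y`, `D ≠ 0` (`mem_Kxy_iff`);
multiplying by `∏_(σ ≠ 1) σ(D)` (Laurent polynomials with coefficients in `c.C`, as `σ` fixes `x, y`) we may
assume `σ(D) = D` for all `σ`; by algebraic independence the coefficients of `D` are in `C~`.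
`T(P) = T(N) / D`, `T(N) = ∑ (∑_σ σ(b n_(a,j))) x^a y^j` has coefficients in `C~`.  `‖z - T(P)‖ < ε`.
-/

namespace Pool.Agent.Lib.TU

open Pool.Agent.Lib.MP_3029eb_ag Pool.Agent.Lib.MP_3029eb_ag.Abh Pool.Agent.Lib.TDO

section aux
variable {k W : Type} [Field k] [Field W] [Algebra k W]

private theorem unrch_alg_mono {E E' : IntermediateField k W} (h : E ≤ E') {z : W}
    (hz : IsAlgebraic E z) : IsAlgebraic E' z := by
  let _ := (IntermediateField.inclusion h).toRingHom.toAlgebra
  have : IsScalarTower E E' W := IsScalarTower.of_algebraMap_eq (fun _ => rfl)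
  exact hz.extendScalars (algebraMap E E').injective

/-- a subfield containing a separating basis of a finitely generated field is finitely
generated -/
private theorem unrch_fg {m : ℕ} (C C0 : IntermediateField k W) (hC0 : C0 ≤ C) (hfg : C.FG)
    (Z : Fin m → W) (hZ : ∀ j, Z j ∈ C0)
    (halg : ∀ e ∈ C, IsAlgebraic (IntermediateField.adjoin k (Set.range Z)) e) : C0.FG := by
  set K1 : IntermediateField k W := IntermediateField.adjoin k (Set.range Z) with hK1
  have h0 : K1 ≤ C0 := by
    rw [hK1, IntermediateField.adjoin_le_iff]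
    rintro _ ⟨j, rfl⟩
    exact hZ j
  have h1 : K1 ≤ C := h0.trans hC0
  set EC : IntermediateField K1 W := IntermediateField.extendScalars h1 with hEC
  set E0 : IntermediateField K1 W := IntermediateField.extendScalars h0 with hE0
  have hECfg : EC.FG := IntermediateField.FG.of_restrictScalars (K := k) (E' := EC) hfg
  have hE : Algebra.EssFiniteType K1 EC := IntermediateField.essFiniteType_iff.2 hECfg
  have hA : Algebra.IsAlgebraic K1 EC := by
    refine ⟨fun e => ?_⟩
    have h2 : IsAlgebraic K1 ((e : W)) := halg e e.2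
    exact (isAlgebraic_algebraMap_iff (R := K1) (S := EC) (A := W)
      (algebraMap EC W).injective).1 h2
  have hF : Module.Finite K1 EC := Algebra.finite_of_essFiniteType_of_isAlgebraic
  have hle : E0 ≤ EC := hC0
  have hF0 : Module.Finite K1 E0 :=
    FiniteDimensional.of_injective (IntermediateField.inclusion hle).toLinearMap
      (IntermediateField.inclusion hle).injective
  have hE0fg : E0.FG := IntermediateField.essFiniteType_iff.1 inferInstance
  obtain ⟨t, ht⟩ := hE0fg
  have h3 : C0 = IntermediateField.adjoin k (Set.range Z ∪ (t : Set W)) := by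
    rw [← IntermediateField.adjoin_adjoin_left]
    change C0 = (IntermediateField.adjoin K1 (t : Set W)).restrictScalars k
    rw [ht]
    rfl
  rw [h3]
  exact IntermediateField.fg_adjoin_of_finite ((Set.finite_range Z).union t.finite_toSet)

private theorem unrch_trd (C C0 : IntermediateField k W) (hC0 : C0 ≤ C)
    (halg : ∀ e ∈ C, IsAlgebraic C0 e) : Algebra.trdeg k C0 = Algebra.trdeg k C := by
  let _ := (IntermediateField.inclusion hC0).toRingHom.toAlgebra
  have : IsScalarTower C0 C W := IsScalarTower.of_algebraMap_eq (fun _ => rfl)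
  have : IsScalarTower k C0 C := IsScalarTower.of_algebraMap_eq (fun _ => rfl)
  have hA : Algebra.IsAlgebraic C0 C := by
    refine ⟨fun e => ?_⟩
    have h2 : IsAlgebraic C0 ((e : W)) := halg e e.2
    exact (isAlgebraic_algebraMap_iff (R := C0) (S := C) (A := W)
      (algebraMap C W).injective).1 h2
  have h := trdeg_add_eq k C0 (A := C)
  rw [trdeg_eq_zero (R := C0) (A := C), add_zero] at h
  exact h

/-- elements of the field generated by an algebraic extension of the constants are linear
combinations -/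
private theorem unrch_span {r : ℕ} (C C0 : IntermediateField k W) (x : Fin r → W) (y : W)
    (halg : ∀ e ∈ C, IsAlgebraic (Kxy C0 x y) e) {z : W} (hz : z ∈ Kxy C x y) :
    z ∈ Submodule.span (Kxy C0 x y) (C : Set W) := by
  set K0 : IntermediateField C0 W := Kxy C0 x y with hK0
  have h1 : z ∈ IntermediateField.adjoin K0 (C : Set W) := by
    refine IntermediateField.adjoin_induction C
      (p := fun z _ => z ∈ IntermediateField.adjoin K0 (C : Set W)) ?_ ?_ ?_ ?_ ?_ hz
    · rintro t (⟨i, rfl⟩ | ht)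
      · exact (IntermediateField.adjoin K0 (C : Set W)).algebraMap_mem
          (⟨x i, x_mem_Kxy x y i⟩ : K0)
      · rw [Set.mem_singleton_iff.1 ht]
        exact (IntermediateField.adjoin K0 (C : Set W)).algebraMap_mem (⟨y, y_mem_Kxy x y⟩ : K0)
    · intro e
      exact IntermediateField.subset_adjoin K0 _ e.2
    · exact fun a b _ _ ha hb => add_mem ha hb
    · exact fun a _ ha => inv_mem ha
    · exact fun a b _ _ ha hb => mul_mem ha hb
  have h2 : z ∈ (IntermediateField.adjoin K0 (C : Set W)).toSubalgebra := h1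
  rw [IntermediateField.adjoin_toSubalgebra_of_isAlgebraic (fun e he => halg e he),
    ← Subalgebra.mem_toSubmodule, Algebra.adjoin_eq_span] at h2
  have h3 : ((Submonoid.closure (C : Set W) : Submonoid W) : Set W) = (C : Set W) := by
    have h4 : Submonoid.closure (C : Set W) = C.toSubfield.toSubring.toSubmonoid :=
      Submonoid.closure_eq C.toSubfield.toSubring.toSubmonoid
    rw [h4]
    rfl
  rw [h3] at h2
  exact h2

end aux

/-- See the header. -/
theorem unr_chart {k W : Type} [Field k] [NormedField W] [IsUltrametricDist W]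
    [Algebra k W] {r m : ℕ} {Γ : Type} [Group Γ] [Fintype Γ]
    {S L L' : IntermediateField k W} (hLL' : L ≤ L') {act : Act Γ S L L'} {c : Tri k W r}
    (hc : Ch m S L' c) (hx : ∀ i, c.x i ∈ L) (hy : c.y ∈ L)
    (hst : ∀ σ, ∀ e ∈ c.C, act.f σ e ∈ c.C) (b : W) (hb : b ∈ c.C)
    (hb1 : ∑ σ, act.f σ b = 1) (Z : Fin m → W) (hZ : ∀ j, Z j ∈ c.C ∧ Z j ∈ L)
    (hsep : ∀ e ∈ c.C, IsSeparable (IntermediateField.adjoin k (Set.range Z)) e) :
    Ch m S L (⟨c.C ⊓ L, c.x, c.y⟩ : Tri k W r) := by
  classical
  have hok := hc.ok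
  set C0 : IntermediateField k W := c.C ⊓ L with hC0def
  have hC0 : C0 ≤ c.C := inf_le_left
  have hC0L : C0 ≤ L := inf_le_right
  set K1 : IntermediateField k W := IntermediateField.adjoin k (Set.range Z) with hK1
  have hK1C0 : K1 ≤ C0 := by
    rw [hK1, IntermediateField.adjoin_le_iff]
    rintro _ ⟨j, rfl⟩
    exact ⟨(hZ j).1, (hZ j).2⟩
  have halg1 : ∀ e ∈ c.C, IsAlgebraic K1 e := fun e he => (hsep e he).isIntegral.isAlgebraic
  have halg0 : ∀ e ∈ c.C, IsAlgebraic C0 e := fun e he => unrch_alg_mono hK1C0 (halg1 e he)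
  -- the field of constants
  have hcst : Cst m C0 := by
    refine ⟨fun e he h => hok.cst.unit e (hC0 he) h, ?_, ?_⟩
    · exact unrch_fg c.C C0 hC0 hok.cst.fg Z (fun j => ⟨(hZ j).1, (hZ j).2⟩) halg1
    · rw [unrch_trd c.C C0 hC0 halg0]; exact hok.cst.trd
  have hpar : Par C0 c.x c.y := by
    refine ⟨hok.par.ind, hok.par.y1, ?_⟩
    have h1 := (tr_iff c.x c.y hok.par.ind.ne).1 hok.par.tr
    rw [tr_iff c.x c.y hok.par.ind.ne]
    let _ := (IntermediateField.inclusion hC0).toRingHom.toAlgebra
    have : IsScalarTower C0 c.C W := IsScalarTower.of_algebraMap_eq (fun _ => rfl)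
    exact h1.restrictScalars (algebraMap C0 c.C).injective
  have hsepK : ∀ e ∈ c.C, IsSeparable (Kxy C0 c.x c.y) e := by
    intro e he
    have hle : ∀ w ∈ K1, w ∈ Kxy C0 c.x c.y := fun w hw =>
      (Kxy C0 c.x c.y).algebraMap_mem (⟨w, hK1C0 hw⟩ : C0)
    let _ : Algebra K1 (Kxy C0 c.x c.y) :=
      RingHom.toAlgebra
        { toFun := fun w => (⟨w, hle w w.2⟩ : Kxy C0 c.x c.y)
          map_one' := rfl
          map_zero' := rfl
          map_mul' := fun _ _ => rfl
          map_add' := fun _ _ => rfl }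
    have : IsScalarTower K1 (Kxy C0 c.x c.y) W := IsScalarTower.of_algebraMap_eq (fun _ => rfl)
    exact (hsep e he).tower_top _
  refine ⟨⟨hcst, hpar, fun e he => ⟨(hok.CM (hC0 he)).1, hC0L he⟩,
    fun i => ⟨(hok.xM i).1, hx i⟩, ⟨hok.yM.1, hy⟩⟩, ?_, ?_⟩
  · -- density
    intro z hz
    change z ∈ cl (Kxy C0 c.x c.y)
    rw [mem_cl_iff]
    intro ε hε
    have h1 := hc.dense z (hLL' hz)
    rw [mem_cl_iff] at h1
    obtain ⟨P, hP, hzP⟩ := h1 ε hε
    have hbn : ‖b‖ ≤ 1 := by
      by_cases h0 : b = 0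
      · rw [h0, norm_zero]; exact zero_le_one
      · exact (hok.cst.unit b hb h0).le
    have hfixL : ∀ w ∈ L, ∀ σ, act.f σ w = w := fun w hw =>
      (act.fix w (hLL' hw)).2 hw
    have hfix0 : ∀ w ∈ Kxy C0 c.x c.y, w ∈ L := by
      intro w hw
      refine IntermediateField.adjoin_induction C0 (p := fun z _ => z ∈ L) ?_ ?_ ?_ ?_ ?_ hw
      · rintro t (⟨i, rfl⟩ | ht)
        · exact hx i
        · rw [Set.mem_singleton_iff.1 ht]; exact hy
      · exact fun e => hC0L e.2
      · exact fun a b _ _ ha hb => add_mem ha hb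
      · exact fun a _ ha => inv_mem ha
      · exact fun a b _ _ ha hb => mul_mem ha hb
    refine ⟨∑ σ, act.f σ (b * P), ?_, ?_⟩
    · have h2 := unrch_span c.C C0 c.x c.y
        (fun e he => (hsepK e he).isIntegral.isAlgebraic) hP
      refine Submodule.span_induction
        (p := fun P _ => ∑ σ, act.f σ (b * P) ∈ Kxy C0 c.x c.y) ?_ ?_ ?_ ?_ h2
      · intro e he
        have hbe : b * e ∈ c.C := mul_mem hb he
        have ht : ∑ σ, act.f σ (b * e) ∈ C0 := by
          refine ⟨sum_mem fun σ _ => hst σ _ hbe, ?_⟩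
          have hL' : ∑ σ, act.f σ (b * e) ∈ L' := sum_mem fun σ _ =>
            (hok.CM (hst σ _ hbe)).2
          refine (act.fix _ hL').1 fun τ => ?_
          rw [map_sum]
          have h3 : ∀ σ, act.f τ (act.f σ (b * e)) = act.f (τ * σ) (b * e) := fun σ =>
            (act.mul τ σ _ (hok.CM hbe).2).symm
          rw [Finset.sum_congr rfl fun σ _ => h3 σ]
          exact Fintype.sum_equiv (Equiv.mulLeft τ) _ _ (fun σ => rfl)
        exact (Kxy C0 c.x c.y).algebraMap_mem (⟨_, ht⟩ : C0)
      · rw [Finset.sum_eq_zero fun σ _ => by rw [mul_zero, map_zero]]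
        exact zero_mem _
      · intro u v _ _ hu hv
        rw [Finset.sum_congr rfl fun σ _ => by rw [mul_add, map_add], Finset.sum_add_distrib]
        exact add_mem hu hv
      · intro w u _ hu
        have h3 : ∀ σ, act.f σ (b * (w • u)) = (w : W) * act.f σ (b * u) := by
          intro σ
          have h4 : b * (w • u) = (w : W) * (b * u) := by
            rw [Algebra.smul_def]
            change b * ((w : W) * u) = _
            ring
          rw [h4, map_mul, hfixL _ (hfix0 w w.2) σ]
        rw [Finset.sum_congr rfl fun σ _ => h3 σ, ← Finset.mul_sum]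
        exact mul_mem w.2 hu
    · have h2 : z - ∑ σ, act.f σ (b * P) = ∑ σ, act.f σ (b * (z - P)) := by
        have h3 : ∀ σ, act.f σ (b * (z - P)) = z * act.f σ b - act.f σ (b * P) := by
          intro σ
          rw [mul_sub, map_sub, map_mul, hfixL z hz σ, mul_comm]
        rw [Finset.sum_congr rfl fun σ _ => h3 σ, Finset.sum_sub_distrib, ← Finset.mul_sum,
          hb1, mul_one]
      rw [h2]
      have h4 : ∀ σ, ‖act.f σ (b * (z - P))‖ < ε := by
        intro σ
        rw [act.iso, norm_mul]
        calc ‖b‖ * ‖z - P‖ ≤ 1 * ‖z - P‖ := mul_le_mul_of_nonneg_right hbn (norm_nonneg _)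
          _ < ε := by rw [one_mul]; exact hzP
      refine Finset.sum_induction _ (fun z => ‖z‖ < ε)
        (fun a b ha hb => (IsUltrametricDist.norm_add_le_max a b).trans_lt (max_lt ha hb))
        (by rw [norm_zero]; exact hε) fun σ _ => h4 σ
  · -- separability
    intro z hz
    change IsSeparable (Kxy C0 c.x c.y) z
    have h1 := hc.sep z hz
    have hsepE : Algebra.IsSeparable (Kxy C0 c.x c.y)
        (IntermediateField.adjoin (Kxy C0 c.x c.y) (c.C : Set W)) := by
      rw [IntermediateField.isSeparable_adjoin_iff_isSeparable]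
      exact fun w hw => hsepK w hw
    have hcE : ∀ w ∈ c.C, w ∈ IntermediateField.adjoin (Kxy C0 c.x c.y) (c.C : Set W) :=
      fun w hw => IntermediateField.subset_adjoin _ _ hw
    generalize IntermediateField.adjoin (Kxy C0 c.x c.y) (c.C : Set W) = E at hsepE hcE
    have hleE : ∀ w ∈ Kxy c.C c.x c.y, w ∈ E := by
      intro w hw
      refine IntermediateField.adjoin_induction c.C (p := fun z _ => z ∈ E) ?_ ?_ ?_ ?_ ?_ hw
      · rintro t (⟨i, rfl⟩ | ht)
        · exact E.algebraMap_mem (⟨c.x i, x_mem_Kxy c.x c.y i⟩ : Kxy C0 c.x c.y)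
        · rw [Set.mem_singleton_iff.1 ht]
          exact E.algebraMap_mem (⟨c.y, y_mem_Kxy c.x c.y⟩ : Kxy C0 c.x c.y)
      · exact fun e => hcE e e.2
      · exact fun a b _ _ ha hb => add_mem ha hb
      · exact fun a _ ha => inv_mem ha
      · exact fun a b _ _ ha hb => mul_mem ha hb
    let _ : Algebra (Kxy c.C c.x c.y) E :=
      RingHom.toAlgebra
        { toFun := fun w => (⟨w, hleE w w.2⟩ : E)
          map_one' := rfl
          map_zero' := rfl
          map_mul' := fun _ _ => rfl
          map_add' := fun _ _ => rfl }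
    have : IsScalarTower (Kxy c.C c.x c.y) E W := IsScalarTower.of_algebraMap_eq (fun _ => rfl)
    have h3 : IsSeparable E z := h1.tower_top E
    exact IsSeparable.of_algebra_isSeparable_of_isSeparable _ h3

end Pool.Agent.Lib.TU
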