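import Pool.Agent.Lib.TU.StabD

/-!
# Module ResAct: the action on the residue field

For `e ∈ c.C`: `σ e ∈ HO`, congruent to a unique `e' ∈ c.C` (`HO_dec`; uniqueness: `c.C` is trivially
normed).  `ρ σ e := e'`.  Ring homomorphism by uniqueness, fixes `k`; `ρ (σ τ) e = ρ σ (ρ τ e)`:
`σ (τ e)` is congruent to `σ (ρ τ e)` (isometry); `ρ 1 = 1`.
-/

namespace Pool.Agent.Lib.TU

open Pool.Agent.Lib.MP_3029eb_ag Pool.Agent.Lib.MP_3029eb_ag.Abh Pool.Agent.Lib.TDO

private theorem ResAct_add {W : Type} [NormedField W] [IsUltrametricDist W] {a b : W}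
    (ha : ‖a‖ < 1) (hb : ‖b‖ < 1) : ‖a + b‖ < 1 :=
  lt_of_le_of_lt (IsUltrametricDist.norm_add_le_max a b) (max_lt ha hb)

private theorem ResAct_mul {W : Type} [NormedField W] {a b : W}
    (ha : ‖a‖ ≤ 1) (hb : ‖b‖ < 1) : ‖a * b‖ < 1 := by
  rw [norm_mul]
  calc ‖a‖ * ‖b‖ ≤ 1 * ‖b‖ := mul_le_mul_of_nonneg_right ha (norm_nonneg _)
    _ < 1 := by rw [one_mul]; exact hb

/-- See the header. -/
theorem exists_resact {k W : Type} [Field k] [NormedField W] [IsUltrametricDist W] [Algebra k W]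
    {r m : ℕ} (hr : 0 < r) {Γ : Type} [Group Γ] {S L L' : IntermediateField k W}
    {act : Act Γ S L L'} {c : Tri k W r} (h : Stb m act c) :
    ∃ ρ : Γ →* (c.C ≃ₐ[k] c.C), ∀ (σ : Γ) (e : c.C),
      ‖act.f σ (e : W) - ((ρ σ e : c.C) : W)‖ < 1 := by
  have hok := h.ch.ok
  have huniq : ∀ (z : W) (e e' : c.C), ‖z - (e : W)‖ < 1 → ‖z - (e' : W)‖ < 1 → e = e' := by
    intro z e e' h1 h2
    by_contra hne
    have h3 : ((e : W) - (e' : W)) ∈ c.C := sub_mem e.2 e'.2
    have h4 : (e : W) - (e' : W) ≠ 0 := fun h0 => hne (Subtype.ext (sub_eq_zero.1 h0))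
    have h5 := hok.cst.unit _ h3 h4
    have h6 : ‖(e : W) - (e' : W)‖ < 1 := by
      have h7 : (e : W) - (e' : W) = -(z - (e : W)) + (z - (e' : W)) := by ring
      rw [h7]
      exact ResAct_add (by rwa [norm_neg]) h2
    exact h6.ne h5
  have hle : ∀ e : c.C, ‖(e : W)‖ ≤ 1 := fun e => HO_norm_le hok (C_mem_HO hok e.2)
  have hex : ∀ (σ : Γ) (e : c.C), ∃ e' : c.C, ‖act.f σ (e : W) - (e' : W)‖ < 1 := by
    intro σ e
    obtain ⟨e', he', q, hq, b, hb, hz⟩ := HO_dec hr hok (h.ho σ _ (C_mem_HO hok e.2))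
    refine ⟨⟨e', he'⟩, ?_⟩
    have h1 : act.f σ (e : W) - e' = q + b * c.y := by rw [hz]; ring
    change ‖act.f σ (e : W) - e'‖ < 1
    rw [h1]
    exact ResAct_add (QH_norm hok hq) (ResAct_mul (HO_norm_le hok hb) hok.par.y1)
  choose f hf using hex
  have hmul : ∀ (σ : Γ) (a b : c.C), f σ (a * b) = f σ a * f σ b := by
    intro σ a b
    refine huniq _ _ _ (hf σ (a * b)) ?_
    have h1 : act.f σ ((a * b : c.C) : W) - ((f σ a * f σ b : c.C) : W) =
        act.f σ (b : W) * (act.f σ (a : W) - (f σ a : W)) +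
          (f σ a : W) * (act.f σ (b : W) - (f σ b : W)) := by
      push_cast
      rw [map_mul]
      ring
    rw [h1]
    refine ResAct_add (ResAct_mul ?_ (hf σ a)) (ResAct_mul (hle _) (hf σ b))
    rw [act.iso]
    exact hle b
  have hadd : ∀ (σ : Γ) (a b : c.C), f σ (a + b) = f σ a + f σ b := by
    intro σ a b
    refine huniq _ _ _ (hf σ (a + b)) ?_
    have h1 : act.f σ ((a + b : c.C) : W) - ((f σ a + f σ b : c.C) : W) =
        (act.f σ (a : W) - (f σ a : W)) + (act.f σ (b : W) - (f σ b : W)) := by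
      push_cast
      rw [map_add]
      ring
    rw [h1]
    exact ResAct_add (hf σ a) (hf σ b)
  have hcomm : ∀ (σ : Γ) (x : k), f σ (algebraMap k c.C x) = algebraMap k c.C x := by
    intro σ x
    refine huniq _ _ _ (hf σ _) ?_
    have h1 : act.f σ ((algebraMap k c.C x : c.C) : W) - ((algebraMap k c.C x : c.C) : W) = 0 := by
      have h2 : ((algebraMap k c.C x : c.C) : W) = algebraMap k W x := rfl
      rw [h2, AlgHom.commutes, sub_self]
    rw [h1, norm_zero]
    exact one_pos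
  have hone : ∀ e : c.C, f 1 e = e := by
    intro e
    refine huniq _ _ _ (hf 1 e) ?_
    have h1 : (e : W) ∈ L' := (IntermediateField.mem_inf.1 (hok.CM e.2)).2
    rw [act.one _ h1, sub_self, norm_zero]
    exact one_pos
  have hcomp : ∀ (σ τ : Γ) (e : c.C), f (σ * τ) e = f σ (f τ e) := by
    intro σ τ e
    refine huniq _ _ _ (hf (σ * τ) e) ?_
    have h1 : (e : W) ∈ L' := (IntermediateField.mem_inf.1 (hok.CM e.2)).2
    have h2 : act.f (σ * τ) (e : W) - (f σ (f τ e) : W) =
        act.f σ (act.f τ (e : W) - (f τ e : W)) +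
          (act.f σ (f τ e : W) - (f σ (f τ e) : W)) := by
      rw [act.mul _ _ _ h1, map_sub]
      ring
    rw [h2]
    refine ResAct_add ?_ (hf σ (f τ e))
    rw [act.iso]
    exact hf τ e
  let F : Γ → (c.C →ₐ[k] c.C) := fun σ =>
    { toFun := f σ
      map_one' := by
        have := hcomm σ 1
        rwa [map_one] at this
      map_mul' := hmul σ
      map_zero' := by
        have := hcomm σ 0
        rwa [map_zero] at this
      map_add' := hadd σ
      commutes' := hcomm σ }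
  let G : Γ → (c.C ≃ₐ[k] c.C) := fun σ =>
    AlgEquiv.ofAlgHom (F σ) (F σ⁻¹)
      (by
        apply AlgHom.ext
        intro e
        change f σ (f σ⁻¹ e) = e
        rw [← hcomp, mul_inv_cancel, hone])
      (by
        apply AlgHom.ext
        intro e
        change f σ⁻¹ (f σ e) = e
        rw [← hcomp, inv_mul_cancel, hone])
  refine ⟨{ toFun := G, map_one' := ?_, map_mul' := ?_ }, ?_⟩
  · apply AlgEquiv.ext
    intro e
    exact hone e
  · intro σ τ
    apply AlgEquiv.ext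
    intro e
    exact hcomp σ τ e
  · intro σ e
    exact hf σ e

end Pool.Agent.Lib.TU
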