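import Pool.Agent.Lib.TU.Dedek
import Pool.Agent.Lib.TU.InvB
import Pool.Agent.Lib.TU.ResAct
import Pool.Agent.Lib.TU.InvCf
import Pool.Agent.Lib.TU.HOPar

/-!
# Module UnrInv: invariant parameters in the unramified case (paper section 10)

`c` stable, `ζ ∈ HO` with `‖σ ζ - ζ‖ = 1` for `σ ≠ 1`.
(1) `x~_i := ∑_σ σ(b_i x_i)`, `σ(x_i) = x_i u_σ`, `b_i` from `dedekU` for `u`: `x~_i = x_i ∑ σ(b_i) u_σ`, a unit
multiple, invariant, so in `L` (`Act.sum_mem`).
(2) `σ(y) = y v_σ + q_σ` (`Stb.y`), `b` from `dedekU` for `v`: `y~ := ∑ σ(b y) = y ∑ σ(b) v_σ + q`.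
(3) `dedekU` with `u = 1`: `b0`, `t := ∑ σ(b0) ∈ L`, `‖t‖ = 1`; `b1 := b0 / t ∈ HO`, `∑ σ(b1) = 1`.
(4) `exists_resact`: `ρ`; `inv_basis` for `c.C` (`EssFiniteType` from `FG`) and `ρ`: `z_1, .., z_m`.
`Z_j := ∑_σ σ(b1 z_j) ∈ L`, `Z_j - z_j = ∑ σ(b1)(σ(z_j) - z_j)` has norm `< 1` (`σ(z_j)` is congruent to
`ρ σ z_j = z_j`).  `‖P(Z)‖ = ‖P(z)‖ = 1` for `P ≠ 0`.  `hsep` of `inv_coef`: transport of the minimal
polynomial over `k(z)` to `k(Z)` (as in `Hat`).  `inv_coef`: `C'`.  `c' := ⟨C', x~, y~⟩` is a chart of `L'`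
(`par_change_chart`).
(5) `b ∈ C'` with `∑ σ(b) = 1`: `b0` is congruent to some `e ∈ c.C` (`HO_dec`), so to some `e' ∈ C'`;
`t' := ∑ σ(e') ∈ C'` has norm one and is invariant; `b := e' / t'`.
-/

namespace Pool.Agent.Lib.TU

open Pool.Agent.Lib.MP_3029eb_ag Pool.Agent.Lib.MP_3029eb_ag.Abh Pool.Agent.Lib.TDO

section aux

variable {W : Type} [NormedField W] [IsUltrametricDist W]

private theorem uinv_add_lt {a b : W} (ha : ‖a‖ < 1) (hb : ‖b‖ < 1) : ‖a + b‖ < 1 :=
  (IsUltrametricDist.norm_add_le_max _ _).trans_lt (max_lt ha hb)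

private theorem uinv_norm_eq {a b : W} (h : ‖a - b‖ < 1) (hb : ‖b‖ = 1) : ‖a‖ = 1 := by
  have e : a = b + (a - b) := by ring
  rw [e, IsUltrametricDist.norm_add_eq_max_of_norm_ne_norm (by rw [hb]; exact h.ne'), hb,
    max_eq_left h.le]

private theorem uinv_sum_lt {ι : Type} (s : Finset ι) (f : ι → W) (hf : ∀ i ∈ s, ‖f i‖ < 1) :
    ‖∑ i ∈ s, f i‖ < 1 := by
  classical
  induction s using Finset.induction_on with
  | empty => simp
  | insert a s ha ih =>
    rw [Finset.sum_insert ha]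
    exact uinv_add_lt (hf a (Finset.mem_insert_self _ _))
      (ih fun i hi => hf i (Finset.mem_insert_of_mem hi))

private theorem uinv_mul_lt {a b : W} (ha : ‖a‖ ≤ 1) (hb : ‖b‖ < 1) : ‖a * b‖ < 1 := by
  rw [norm_mul]
  exact (mul_le_mul_of_nonneg_right ha (norm_nonneg _)).trans_lt (by rwa [one_mul])

private theorem uinv_eval_lt (D : Polynomial W) (hD : ∀ i, ‖D.coeff i‖ < 1) {e : W}
    (he : ‖e‖ ≤ 1) : ‖D.eval e‖ < 1 := by
  rw [Polynomial.eval_eq_sum_range]
  refine uinv_sum_lt _ _ fun i _ => ?_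
  rw [mul_comm]
  refine uinv_mul_lt ?_ (hD i)
  rw [norm_pow]
  exact pow_le_one₀ (norm_nonneg _) he

private theorem uinv_deriv_lt (D : Polynomial W) (hD : ∀ i, ‖D.coeff i‖ < 1) {e : W}
    (he : ‖e‖ ≤ 1) : ‖D.derivative.eval e‖ < 1 := by
  refine uinv_eval_lt _ (fun i => ?_) he
  rw [Polynomial.coeff_derivative, mul_comm]
  refine uinv_mul_lt ?_ (hD _)
  have h1 := IsUltrametricDist.norm_natCast_le_one W (i + 1)
  push_cast at h1
  exact h1

/-- values of polynomials at close points -/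
private theorem uinv_mv {k : Type} [Field k] [Algebra k W] {m : ℕ}
    (hk : ∀ c : k, ‖algebraMap k W c‖ ≤ 1) {z Z : Fin m → W} (hz : ∀ i, ‖z i‖ ≤ 1)
    (hZ : ∀ i, ‖Z i - z i‖ < 1) (P : MvPolynomial (Fin m) k) :
    ‖MvPolynomial.aeval z P‖ ≤ 1 ∧ ‖MvPolynomial.aeval Z P - MvPolynomial.aeval z P‖ < 1 := by
  induction P using MvPolynomial.induction_on with
  | C a =>
    rw [MvPolynomial.aeval_C, MvPolynomial.aeval_C, sub_self, norm_zero]
    exact ⟨hk a, one_pos⟩
  | add p q hp hq =>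
    rw [map_add, map_add]
    refine ⟨(IsUltrametricDist.norm_add_le_max _ _).trans (max_le hp.1 hq.1), ?_⟩
    have e : MvPolynomial.aeval Z p + MvPolynomial.aeval Z q -
        (MvPolynomial.aeval z p + MvPolynomial.aeval z q) =
        (MvPolynomial.aeval Z p - MvPolynomial.aeval z p) +
        (MvPolynomial.aeval Z q - MvPolynomial.aeval z q) := by ring
    rw [e]
    exact uinv_add_lt hp.2 hq.2
  | mul_X p i hp =>
    rw [map_mul, map_mul, MvPolynomial.aeval_X, MvPolynomial.aeval_X]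
    have hZi : ‖Z i‖ ≤ 1 := by
      have e : Z i = z i + (Z i - z i) := by ring
      rw [e]
      exact (IsUltrametricDist.norm_add_le_max _ _).trans (max_le (hz i) (hZ i).le)
    refine ⟨?_, ?_⟩
    · rw [norm_mul]
      exact mul_le_one₀ hp.1 (norm_nonneg _) (hz i)
    · have e : MvPolynomial.aeval Z p * Z i - MvPolynomial.aeval z p * z i =
          Z i * (MvPolynomial.aeval Z p - MvPolynomial.aeval z p) +
            MvPolynomial.aeval z p * (Z i - z i) := by ring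
      rw [e]
      exact uinv_add_lt (uinv_mul_lt hZi hp.2) (uinv_mul_lt hp.1 (hZ i))

variable {k : Type} [Field k] [Algebra k W] {m : ℕ} {C : IntermediateField k W}

private theorem uinv_coe (z : Fin m → C) (P : MvPolynomial (Fin m) k) :
    MvPolynomial.aeval (fun i => (z i : W)) P = ((MvPolynomial.aeval z P : C) : W) :=
  MvPolynomial.aeval_algebraMap_apply (A := C) (B := W) z P

/-- transport of the elements of `k(z)` to `k(Z)` -/
private theorem uinv_transport (hC : ∀ e ∈ C, e ≠ 0 → ‖e‖ = 1) (z : Fin m → C) (Z : Fin m → W)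
    (hZ : ∀ i, ‖Z i - (z i : W)‖ < 1) {a : C}
    (ha : a ∈ IntermediateField.adjoin k (Set.range z)) :
    ∃ a' ∈ IntermediateField.adjoin k (Set.range Z), ‖(a : W) - a'‖ < 1 := by
  have hC1 : ∀ e : C, ‖(e : W)‖ ≤ 1 := by
    intro e
    by_cases h0 : (e : W) = 0
    · rw [h0, norm_zero]; exact zero_le_one
    · exact (hC e e.2 h0).le
  have hk : ∀ c : k, ‖algebraMap k W c‖ ≤ 1 := fun c => hC1 (algebraMap k C c)
  obtain ⟨P, Q, rfl⟩ := (IntermediateField.mem_adjoin_range_iff k z a).1 ha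
  by_cases hQ : MvPolynomial.aeval z Q = 0
  · refine ⟨0, zero_mem _, ?_⟩
    rw [hQ, div_zero]
    simp
  have hQ1 : ‖((MvPolynomial.aeval z Q : C) : W)‖ = 1 :=
    hC _ (MvPolynomial.aeval z Q : C).2 fun h0 => hQ (Subtype.ext h0)
  refine ⟨MvPolynomial.aeval Z P / MvPolynomial.aeval Z Q,
    (IntermediateField.mem_adjoin_range_iff k Z _).2 ⟨P, Q, rfl⟩, ?_⟩
  obtain ⟨-, hP2⟩ := uinv_mv hk (fun i => hC1 (z i)) hZ P
  obtain ⟨-, hQ2⟩ := uinv_mv hk (fun i => hC1 (z i)) hZ Q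
  rw [uinv_coe] at hP2 hQ2
  have hQ3 : ‖MvPolynomial.aeval Z Q‖ = 1 := uinv_norm_eq hQ2 hQ1
  have hQ0 : ((MvPolynomial.aeval z Q : C) : W) ≠ 0 := by
    rw [← norm_ne_zero_iff, hQ1]; exact one_ne_zero
  have hQ0' : MvPolynomial.aeval Z Q ≠ 0 := by
    rw [← norm_ne_zero_iff, hQ3]; exact one_ne_zero
  have e : (((MvPolynomial.aeval z P / MvPolynomial.aeval z Q : C)) : W) -
      MvPolynomial.aeval Z P / MvPolynomial.aeval Z Q =
      (((MvPolynomial.aeval z P : C) : W) *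
        (MvPolynomial.aeval Z Q - ((MvPolynomial.aeval z Q : C) : W)) +
      (-((MvPolynomial.aeval z Q : C) : W)) *
        (MvPolynomial.aeval Z P - ((MvPolynomial.aeval z P : C) : W))) /
      (((MvPolynomial.aeval z Q : C) : W) * MvPolynomial.aeval Z Q) := by
    push_cast
    field_simp
    ring
  rw [e, norm_div, norm_mul, hQ1, hQ3, one_mul, div_one]
  refine uinv_add_lt (uinv_mul_lt (hC1 _) hQ2) (uinv_mul_lt ?_ hP2)
  rw [norm_neg, hQ1]

/-- transport of the minimal polynomial -/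
private theorem uinv_hsep (hC : ∀ e ∈ C, e ≠ 0 → ‖e‖ = 1) (z : Fin m → C) (Z : Fin m → W)
    (hZ : ∀ i, ‖Z i - (z i : W)‖ < 1) (e : C)
    (hsep : IsSeparable (IntermediateField.adjoin k (Set.range z)) e) :
    ∃ h : Polynomial (IntermediateField.adjoin k (Set.range Z)), h.Monic ∧
      ‖Polynomial.aeval (e : W) h‖ < 1 ∧ ‖Polynomial.aeval (e : W) h.derivative‖ = 1 := by
  classical
  have hC1 : ∀ e : C, ‖(e : W)‖ ≤ 1 := by
    intro e
    by_cases h0 : (e : W) = 0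
    · rw [h0, norm_zero]; exact zero_le_one
    · exact (hC e e.2 h0).le
  set K1 := IntermediateField.adjoin k (Set.range z) with hK1
  set K2 := IntermediateField.adjoin k (Set.range Z) with hK2
  set g : Polynomial K1 := minpoly K1 e with hg
  have hgm : g.Monic := minpoly.monic hsep.isIntegral
  have hg0 : Polynomial.aeval e g = 0 := minpoly.aeval _ _
  have hg1 : Polynomial.aeval e g.derivative ≠ 0 := by
    have hs : g.Separable := hsep
    exact hs.aeval_derivative_ne_zero hg0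
  set n := g.natDegree with hn
  have hch : ∀ i : ℕ, ∃ a : K2, ‖(((g.coeff i : K1) : C) : W) - (a : W)‖ < 1 := by
    intro i
    obtain ⟨a', ha', h1⟩ := uinv_transport hC z Z hZ (g.coeff i).2
    exact ⟨⟨a', ha'⟩, h1⟩
  choose co hco using hch
  set h : Polynomial K2 := ∑ i ∈ Finset.range (n + 1),
    Polynomial.monomial i (if i = n then 1 else co i) with hh
  have hcoeff : ∀ i, h.coeff i = if i < n + 1 then (if i = n then 1 else co i) else 0 := by
    intro i
    rw [hh, Polynomial.finsetSum_coeff]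
    simp only [Polynomial.coeff_monomial]
    rw [Finset.sum_ite_eq' (Finset.range (n + 1)) i]
    simp only [Finset.mem_range]
  have hmon : h.Monic := by
    refine Polynomial.monic_of_natDegree_le_of_coeff_eq_one n ?_ ?_
    · rw [Polynomial.natDegree_le_iff_coeff_eq_zero]
      intro N hN
      rw [hcoeff, if_neg (by omega)]
    · rw [hcoeff, if_pos (by omega), if_pos rfl]
  set φ : K1 →+* W := (algebraMap C W).comp (algebraMap K1 C) with hφ
  set F : Polynomial W := g.map φ with hF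
  set H : Polynomial W := h.map (algebraMap K2 W) with hH
  have hFe : F.eval (e : W) = 0 := by
    rw [hF, Polynomial.eval_map, hφ]
    have h1 := Polynomial.hom_eval₂ g (algebraMap K1 C) (algebraMap C W) e
    have h2 : Polynomial.eval₂ (algebraMap K1 C) e g = 0 := hg0
    rw [h2, map_zero] at h1
    exact h1.symm
  have hFd : ‖F.derivative.eval (e : W)‖ = 1 := by
    have h3 : F.derivative = g.derivative.map φ := by rw [hF, Polynomial.derivative_map]
    rw [h3, Polynomial.eval_map, hφ]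
    have h1 := Polynomial.hom_eval₂ g.derivative (algebraMap K1 C) (algebraMap C W) e
    have h4 : Polynomial.eval₂ ((algebraMap C W).comp (algebraMap K1 C)) (e : W) g.derivative =
        ((Polynomial.aeval e g.derivative : C) : W) := h1.symm
    rw [h4]
    exact hC _ (Polynomial.aeval e g.derivative : C).2 fun h0 => hg1 (Subtype.ext h0)
  have hD : ∀ i, ‖(H - F).coeff i‖ < 1 := by
    intro i
    rw [Polynomial.coeff_sub, hH, hF, Polynomial.coeff_map, Polynomial.coeff_map, hcoeff]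
    by_cases h1 : i < n + 1
    · rw [if_pos h1]
      by_cases h2 : i = n
      · rw [if_pos h2, h2, hn, hgm.coeff_natDegree, map_one, map_one, sub_self, norm_zero]
        exact one_pos
      · rw [if_neg h2, norm_sub_rev]
        exact hco i
    · rw [if_neg h1, Polynomial.coeff_eq_zero_of_natDegree_lt (by omega), map_zero, map_zero,
        sub_self, norm_zero]
      exact one_pos
  have he1 : ‖(e : W)‖ ≤ 1 := hC1 e
  refine ⟨h, hmon, ?_, ?_⟩
  · have h1 : Polynomial.aeval (e : W) h = H.eval (e : W) := by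
      rw [hH, Polynomial.eval_map]; rfl
    have h2 := uinv_eval_lt (H - F) hD he1
    rw [Polynomial.eval_sub, hFe, sub_zero] at h2
    rw [h1]
    exact h2
  · have h1 : Polynomial.aeval (e : W) h.derivative = H.derivative.eval (e : W) := by
      rw [hH, Polynomial.derivative_map, Polynomial.eval_map]; rfl
    have h2 := uinv_deriv_lt (H - F) hD he1
    rw [Polynomial.derivative_sub, Polynomial.eval_sub] at h2
    rw [h1]
    exact uinv_norm_eq h2 hFd

end aux

/-- See the header. -/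
theorem unr_inv {k W : Type} [Field k] [PerfectField k] [NormedField W] [IsUltrametricDist W]
    [Algebra k W] {r m : ℕ} (hr : 0 < r) {Γ : Type} [Group Γ] [Fintype Γ]
    {S L L' : IntermediateField k W} (hS : ∀ z : W, IsSeparable S z → z ∈ S)
    (hL' : IsComplete (L' : Set W)) (hLL' : L ≤ L') {act : Act Γ S L L'} {c : Tri k W r}
    (h : Stb m act c) {ζ : W} (hζ : ζ ∈ HO (S ⊓ L') c)
    (hζ1 : ∀ σ : Γ, σ ≠ 1 → ‖act.f σ ζ - ζ‖ = 1) :
    ∃ (c' : Tri k W r) (b : W) (Z : Fin m → W), Ch m S L' c' ∧ (∀ i, c'.x i ∈ L) ∧ c'.y ∈ L ∧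
      (∀ σ, ∀ e ∈ c'.C, act.f σ e ∈ c'.C) ∧ b ∈ c'.C ∧ ∑ σ, act.f σ b = 1 ∧
      (∀ j, Z j ∈ c'.C ∧ Z j ∈ L) ∧
      ∀ e ∈ c'.C, IsSeparable (IntermediateField.adjoin k (Set.range Z)) e := by
  classical
  have hok := h.ch.ok
  have hML : ∀ z ∈ HO (S ⊓ L') c, z ∈ L' := fun z hz => (HO_mem_M hok hz).2
  have hCu : ∀ e ∈ c.C, e ≠ 0 → ‖e‖ = 1 := hok.cst.unit
  have hfixL : ∀ z ∈ L, ∀ σ, act.f σ z = z := fun z hz =>
    (act.fix z (hLL' hz)).2 hz
  -- (1) the parameters `x`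
  choose u hu hu1 hux using h.hx
  have h1 : ∀ i, ∃ b ∈ HO (S ⊓ L') c, ‖∑ σ, act.f σ b * u σ i‖ = 1 := fun i =>
    dedekU h hζ hζ1 (fun σ => u σ i) fun σ => ⟨hu σ i, hu1 σ i⟩
  choose bx hbx hbx1 using h1
  have hxsum : ∀ i, ∑ σ, act.f σ (bx i * c.x i) = c.x i * ∑ σ, act.f σ (bx i) * u σ i := by
    intro i
    rw [Finset.mul_sum]
    refine Finset.sum_congr rfl fun σ _ => ?_
    rw [map_mul, hux σ i]
    ring
  -- (2) the parameter `y`
  choose v hv hv1 q hq hvq using fun σ => h.y hr σ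
  obtain ⟨by0, hby, hby1⟩ := dedekU h hζ hζ1 v fun σ => ⟨hv σ, hv1 σ⟩
  have hysum : ∑ σ, act.f σ (by0 * c.y) =
      c.y * (∑ σ, act.f σ by0 * v σ) + ∑ σ, q σ * act.f σ by0 := by
    rw [Finset.mul_sum, ← Finset.sum_add_distrib]
    refine Finset.sum_congr rfl fun σ _ => ?_
    rw [map_mul, hvq σ]
    ring
  have hqsum : ∑ σ, q σ * act.f σ by0 ∈ QH (S ⊓ L') c := by
    have : ∀ s : Finset Γ, ∑ σ ∈ s, q σ * act.f σ by0 ∈ QH (S ⊓ L') c := by
      intro s
      induction s using Finset.induction_on with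
      | empty => rw [Finset.sum_empty]; exact QH_zero hok hr
      | insert a s ha ih =>
        rw [Finset.sum_insert ha]
        exact QH_add hok (QH_mul hok (hq a) (h.ho a _ hby)) ih
    exact this _
  -- (3) an element of trace one
  obtain ⟨b0, hb0, hb01⟩ := dedekU h hζ hζ1 (fun _ => 1) fun σ => ⟨one_mem _, norm_one⟩
  have hb0' : ∑ σ, act.f σ b0 * (fun _ : Γ => (1 : W)) σ = ∑ σ, act.f σ b0 :=
    Finset.sum_congr rfl fun σ _ => mul_one _
  rw [hb0'] at hb01
  set t := ∑ σ, act.f σ b0 with ht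
  have htL : t ∈ L := act.sum_mem (hML _ hb0)
  have htH : t ∈ HO (S ⊓ L') c := sum_mem fun σ _ => h.ho σ _ hb0
  have ht0 : t ≠ 0 := by rw [← norm_ne_zero_iff, hb01]; exact one_ne_zero
  set b1 := b0 * t⁻¹ with hb1
  have hb1H : b1 ∈ HO (S ⊓ L') c := mul_mem hb0 (inv_mem_HO hok htH hb01)
  have hb1s : ∑ σ, act.f σ b1 = 1 := by
    have : ∀ σ, act.f σ b1 = act.f σ b0 * t⁻¹ := fun σ => by
      rw [hb1, map_mul, map_inv₀, hfixL t htL σ]
    simp only [this]
    rw [← Finset.sum_mul, ← ht, mul_inv_cancel₀ ht0]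
  -- (4) the coefficient field
  obtain ⟨ρ, hρ⟩ := exists_resact hr h
  have hess : Algebra.EssFiniteType k c.C := IntermediateField.essFiniteType_iff.2 hok.cst.fg
  obtain ⟨z, hzρ, hzi, hzs⟩ := inv_basis hok.cst.trd ρ
  set Z : Fin m → W := fun j => ∑ σ, act.f σ (b1 * (z j : W)) with hZ
  have hzH : ∀ j, (z j : W) ∈ HO (S ⊓ L') c := fun j => C_mem_HO hok (z j).2
  have hZL : ∀ j, Z j ∈ L := fun j => act.sum_mem (hML _ (mul_mem hb1H (hzH j)))
  have hZH : ∀ j, Z j ∈ HO (S ⊓ L') c := fun j =>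
    sum_mem fun σ _ => h.ho σ _ (mul_mem hb1H (hzH j))
  have hZz : ∀ j, ‖Z j - (z j : W)‖ < 1 := by
    intro j
    have e : Z j - (z j : W) = ∑ σ, act.f σ b1 * (act.f σ (z j : W) - (z j : W)) := by
      have e1 : (z j : W) = ∑ σ, act.f σ b1 * (z j : W) := by
        rw [← Finset.sum_mul, hb1s, one_mul]
      calc Z j - (z j : W) = ∑ σ, act.f σ (b1 * (z j : W)) - ∑ σ, act.f σ b1 * (z j : W) := by
            rw [← e1]
        _ = _ := by
            rw [← Finset.sum_sub_distrib]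
            refine Finset.sum_congr rfl fun σ _ => ?_
            rw [map_mul]
            ring
    rw [e]
    refine uinv_sum_lt _ _ fun σ _ => uinv_mul_lt (HO_norm_le hok (h.ho σ _ hb1H)) ?_
    have h2 := hρ σ (z j)
    rw [hzρ j σ] at h2
    exact h2
  have hC1 : ∀ e : c.C, ‖(e : W)‖ ≤ 1 := by
    intro e
    by_cases h0 : (e : W) = 0
    · rw [h0, norm_zero]; exact zero_le_one
    · exact (hCu e e.2 h0).le
  have hk : ∀ a : k, ‖algebraMap k W a‖ ≤ 1 := fun a => hC1 (algebraMap k c.C a)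
  have hZi : ∀ P : MvPolynomial (Fin m) k, P ≠ 0 → ‖MvPolynomial.aeval Z P‖ = 1 := by
    intro P hP
    obtain ⟨-, h3⟩ := uinv_mv hk (fun i => hC1 (z i)) hZz P
    rw [uinv_coe] at h3
    refine uinv_norm_eq h3 (hCu _ (MvPolynomial.aeval z P : c.C).2 fun h0 => hP ?_)
    exact (injective_iff_map_eq_zero _).1 hzi P (Subtype.ext h0)
  obtain ⟨C', hfg, hCH, hcong, hZC, hCs, hCst⟩ := inv_coef hr hS hL' hLL' h Z
    (fun i => ⟨hZH i, hZL i⟩) hZi
    (fun e he => uinv_hsep hCu z Z hZz ⟨e, he⟩ (hzs ⟨e, he⟩))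
  -- (5)
  obtain ⟨e, he, q0, hq0, w0, hw0, hbe⟩ := HO_dec hr hok hb0
  have hbe1 : ‖b0 - e‖ < 1 := by
    have e1 : b0 - e = q0 + w0 * c.y := by rw [hbe]; ring
    rw [e1]
    exact uinv_add_lt (QH_norm hok hq0) (uinv_mul_lt (HO_norm_le hok hw0) hok.par.y1)
  obtain ⟨e', he', hee⟩ := hcong e he
  have hbe' : ‖e' - b0‖ < 1 := by
    rw [norm_sub_rev]
    have e1 : b0 - e' = (b0 - e) + (e - e') := by ring
    rw [e1]
    exact uinv_add_lt hbe1 hee
  set t' := ∑ σ, act.f σ e' with ht'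
  have htt : ‖t' - t‖ < 1 := by
    rw [ht', ht, ← Finset.sum_sub_distrib]
    refine uinv_sum_lt _ _ fun σ _ => ?_
    rw [← map_sub, act.iso]
    exact hbe'
  have ht'1 : ‖t'‖ = 1 := uinv_norm_eq htt hb01
  have ht'0 : t' ≠ 0 := by rw [← norm_ne_zero_iff, ht'1]; exact one_ne_zero
  have ht'C : t' ∈ C' := sum_mem fun σ _ => hCst σ e' he'
  have ht'L : t' ∈ L := act.sum_mem (hML _ (hCH e' he'))
  refine ⟨⟨C', fun i => ∑ σ, act.f σ (bx i * c.x i), ∑ σ, act.f σ (by0 * c.y)⟩, e' * t'⁻¹, Z,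
    ?_, ?_, ?_, hCst, mul_mem he' (inv_mem ht'C), ?_, fun j => ⟨hZC j, hZL j⟩, hCs⟩
  · refine par_change_chart hr h.ch C' _ _ hfg hCH hcong (fun i => ?_) ?_
    · exact ⟨_, sum_mem fun σ _ => mul_mem (h.ho σ _ (hbx i)) (hu σ i), hbx1 i, hxsum i⟩
    · exact ⟨_, sum_mem fun σ _ => mul_mem (h.ho σ _ hby) (hv σ), hby1, _, hqsum, hysum⟩
  · intro i
    exact act.sum_mem (L'.mul_mem (hML _ (hbx i)) (hok.xM i).2)
  · exact act.sum_mem (L'.mul_mem (hML _ hby) hok.yM.2)
  · have : ∀ σ, act.f σ (e' * t'⁻¹) = act.f σ e' * t'⁻¹ := fun σ => by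
      rw [map_mul, map_inv₀, hfixL t' ht'L σ]
    simp only [this]
    rw [← Finset.sum_mul, ← ht', mul_inv_cancel₀ ht'0]

end Pool.Agent.Lib.TU
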