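import Pool.Agent.Lib.TU.StabU
import Pool.Agent.Lib.TU.UnrInv
import Pool.Agent.Lib.TU.UnrCh

/-!
# Module DescUnr: unramified descent (paper section 10)

Choose `ζ' ∈ S ⊓ L'`, `‖ζ - ζ'‖ < 1`, `ζ' ≠ 0` (`Ch.dense_M`; if `Γ` is trivial take `ζ' = 1`, otherwise
`‖σ ζ' - ζ'‖ = 1` forces `ζ' ≠ 0`): `‖σ ζ' - ζ'‖ = 1` for `σ ≠ 1`.  `stableU` with `Z0 = {ζ'}`: `ζ'` is monomial of
norm `≤ 1`, so in `HO` (`MoH.mem_HO`).  `unr_inv`, `unr_chart`.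
-/

namespace Pool.Agent.Lib.TU

open Pool.Agent.Lib.MP_3029eb_ag Pool.Agent.Lib.MP_3029eb_ag.Abh Pool.Agent.Lib.TDO

private theorem norm_sub_le_max_aux {W : Type} [NormedField W] [IsUltrametricDist W] (a b : W) :
    ‖a - b‖ ≤ max ‖a‖ ‖b‖ := by
  have h := IsUltrametricDist.norm_add_le_max a (-b)
  rwa [norm_neg, ← sub_eq_add_neg] at h

private theorem descUnr_pt {k W : Type} [Field k] [NormedField W] [IsUltrametricDist W]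
    [Algebra k W] {r m : ℕ} {Γ : Type} [Group Γ] (S L L' : IntermediateField k W)
    (act : Act Γ S L L') (ζ : W) (hζL : ζ ∈ L') (hζ1 : ‖ζ‖ ≤ 1)
    (hζ : ∀ σ : Γ, σ ≠ 1 → ‖act.f σ ζ - ζ‖ = 1) (c : Tri k W r) (h : Ch m S L' c) :
    ∃ ζ' : W, ζ' ∈ S ⊓ L' ∧ ζ' ≠ 0 ∧ ‖ζ'‖ ≤ 1 ∧
      ∀ σ : Γ, σ ≠ 1 → ‖act.f σ ζ' - ζ'‖ = 1 := by
  by_cases hΓ : ∃ σ : Γ, σ ≠ 1
  · obtain ⟨ζ', hζ', hn⟩ := h.dense_M hζL 1 one_pos
    have h1 : ∀ σ : Γ, σ ≠ 1 → ‖act.f σ ζ' - ζ'‖ = 1 := by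
      intro σ hσ
      have e : act.f σ ζ' - ζ' = (act.f σ ζ - ζ) + ((ζ - ζ') - act.f σ (ζ - ζ')) := by
        rw [map_sub]
        ring
      have h2 : ‖(ζ - ζ') - act.f σ (ζ - ζ')‖ < 1 := by
        refine lt_of_le_of_lt (norm_sub_le_max_aux _ _) ?_
        rw [act.iso, max_self]
        exact hn
      have h3 : ‖(ζ - ζ') - act.f σ (ζ - ζ')‖ < ‖act.f σ ζ - ζ‖ := by
        rw [hζ σ hσ]
        exact h2
      rw [e, IsUltrametricDist.norm_add_eq_max_of_norm_ne_norm (ne_of_gt h3), max_eq_left h3.le,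
        hζ σ hσ]
    refine ⟨ζ', hζ', ?_, ?_, h1⟩
    · rintro rfl
      obtain ⟨σ, hσ⟩ := hΓ
      have h2 := h1 σ hσ
      rw [map_zero, sub_zero, norm_zero] at h2
      exact zero_ne_one h2
    · have e : ζ' = ζ - (ζ - ζ') := by ring
      rw [e]
      exact (norm_sub_le_max_aux _ _).trans (max_le hζ1 hn.le)
  · refine ⟨1, one_mem _, one_ne_zero, by rw [norm_one], fun σ hσ => ?_⟩
    exact absurd ⟨σ, hσ⟩ hΓ

/-- See the header. -/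
theorem desc_unr {k W : Type} [Field k] [PerfectField k] [NormedField W] [IsUltrametricDist W]
    [Algebra k W] {r m : ℕ} (hr : 0 < r) (hA : AmbG r m k W) {Γ : Type} [Group Γ] [Finite Γ]
    (S L L' : IntermediateField k W) (hS : ∀ z : W, IsSeparable S z → z ∈ S) (hLL' : L ≤ L')
    (hL' : IsComplete (L' : Set W)) (act : Act Γ S L L') (ζ : W) (hζL : ζ ∈ L') (hζ1 : ‖ζ‖ ≤ 1)
    (hζ : ∀ σ : Γ, σ ≠ 1 → ‖act.f σ ζ - ζ‖ = 1) (h : HasCh m S r L') : HasCh m S r L := by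
  cases nonempty_fintype Γ
  obtain ⟨c0, hc0⟩ := h
  obtain ⟨ζ', hζ'M, hζ'0, hζ'1, hζ'σ⟩ := descUnr_pt S L L' act ζ hζL hζ1 hζ c0 hc0
  obtain ⟨c, hst, hZ⟩ := stableU hr hA S L L' hS hL' act ⟨c0, hc0⟩ {ζ'} (by
    intro z hz
    rw [Finset.mem_singleton] at hz
    subst hz
    exact ⟨hζ'M, hζ'0⟩)
  have hHO : ζ' ∈ HO (S ⊓ L') c :=
    MoH.mem_HO hst.ch.ok (hZ ζ' (Finset.mem_singleton_self ζ')) hζ'1
  obtain ⟨c', b, Z, hc', hx, hy, hstC, hb, hb1, hZ', hsep⟩ :=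
    unr_inv hr hS hL' hLL' hst hHO hζ'σ
  exact ⟨_, unr_chart hLL' hc' hx hy hstC b hb hb1 Z hZ' hsep⟩

end Pool.Agent.Lib.TU
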