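import Pool.Agent.Lib.TU.HOPar
import Pool.Agent.Lib.TU.HOcr
import Pool.Agent.Lib.TU.LdBas
import Pool.Agent.Lib.TU.HenU

/-!
# Module Hat: parameters of a chart in a given subring

`k` perfect, `c.C` finitely generated over `k` of transcendence degree `m`:
`exists_isTranscendenceBasis_and_isSeparable_of_perfectField` gives a separating transcendence basis
`z : Fin m → c.C`.  By `hC`: `Z j ∈ A ∩ HO c`, `‖z j - Z j‖ < 1`.  For `P ≠ 0` over `k`: `‖P(Z)‖ = ‖P(z)‖ = 1`.
`k(z) ≃ k(Z)` (rational function fields), compatible with residues (`‖e - e^‖ < 1` for corresponding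
elements of norm `≤ 1`: quotients of polynomials).  `c.C = k(z)(θ)`, `h` the minimal polynomial of `θ` over
`k(z)`, `h^` the corresponding one over `k(Z)`: `‖h^(θ)‖ < 1`, `‖h^'(θ)‖ = 1` (separable, `c.C` trivially
normed).  `henselU` in `L`: `θ^`, `h^(θ^) = 0`, `‖θ - θ^‖ < 1`; `θ^ ∈ S` (`sep_of_simple`; `k(Z) ⊆ S`).
`C' := k(Z)(θ^)`; `k(Z) ⊆ HO c`, `θ^ ∈ HO c` by `hen'` (`b = θ`), so `C' ⊆ HO c` (finite over the field
`k(Z)`: `C' = k(Z)[θ^]`).  Every `e = ∑ e_i θ^i ∈ c.C` is congruent to `∑ e^_i θ^^i`.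
`x' i := a`, `c.x i = a + x^N h` with `‖x^N‖ < ‖x i‖`: `a = x_i (1 - x^(N - e_i) h)`.  `y' := a`,
`c.y = a + x^N h` with `‖x^N‖ < 1`.  `par_change`, `par_change_chart`.
-/

namespace Pool.Agent.Lib.TU

open Pool.Agent.Lib.MP_3029eb_ag Pool.Agent.Lib.MP_3029eb_ag.Abh Pool.Agent.Lib.TDO

section aux
variable {k W : Type} [Field k] [NormedField W] [IsUltrametricDist W] [Algebra k W]

private theorem hat_add_lt {a b : W} (ha : ‖a‖ < 1) (hb : ‖b‖ < 1) : ‖a + b‖ < 1 :=
  (IsUltrametricDist.norm_add_le_max a b).trans_lt (max_lt ha hb)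

private theorem hat_add_le {a b : W} (ha : ‖a‖ ≤ 1) (hb : ‖b‖ ≤ 1) : ‖a + b‖ ≤ 1 :=
  (IsUltrametricDist.norm_add_le_max a b).trans (max_le ha hb)

private theorem hat_mul_lt {a b : W} (ha : ‖a‖ ≤ 1) (hb : ‖b‖ < 1) : ‖a * b‖ < 1 := by
  rw [norm_mul]
  calc ‖a‖ * ‖b‖ ≤ 1 * ‖b‖ := mul_le_mul_of_nonneg_right ha (norm_nonneg _)
    _ < 1 := by rw [one_mul]; exact hb

private theorem hat_mul_le {a b : W} (ha : ‖a‖ ≤ 1) (hb : ‖b‖ ≤ 1) : ‖a * b‖ ≤ 1 := by
  rw [norm_mul]
  exact mul_le_one₀ ha (norm_nonneg _) hb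

private theorem hat_norm_eq {a b : W} (ha : ‖a‖ = 1) (hab : ‖a - b‖ < 1) : ‖b‖ = 1 := by
  have h1 : b = a + -(a - b) := by ring
  rw [h1, IsUltrametricDist.norm_add_eq_max_of_norm_ne_norm
    (by rw [norm_neg, ha]; exact hab.ne'), norm_neg, ha]
  exact max_eq_left hab.le

private theorem hat_norm_le {a b : W} (ha : ‖a‖ ≤ 1) (hab : ‖a - b‖ < 1) : ‖b‖ ≤ 1 := by
  have h1 : b = a + -(a - b) := by ring
  rw [h1]
  exact hat_add_le ha (by rw [norm_neg]; exact hab.le)

private theorem hat_sub_comm {a b : W} (hab : ‖a - b‖ < 1) : ‖b - a‖ < 1 := by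
  rwa [← norm_neg, neg_sub]

private theorem hat_mul_sub {x y x' y' : W} (hx : ‖x‖ ≤ 1) (hy : ‖y‖ ≤ 1)
    (h1 : ‖x - x'‖ < 1) (h2 : ‖y - y'‖ < 1) : ‖x * y - x' * y'‖ < 1 := by
  have e : x * y - x' * y' = x * (y - y') + y' * (x - x') := by ring
  rw [e]
  exact hat_add_lt (hat_mul_lt hx h2) (hat_mul_lt (hat_norm_le hy h2) h1)

/-- values of a polynomial with small coefficients -/
private theorem hat_eval_lt (D : Polynomial W) (hD : ∀ j, ‖D.coeff j‖ < 1) {a : W}
    (ha : ‖a‖ ≤ 1) : ‖D.eval a‖ < 1 := by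
  rw [Polynomial.eval_eq_sum_range]
  refine Finset.sum_induction _ (fun z => ‖z‖ < 1) (fun a b ha hb => hat_add_lt ha hb)
    (by rw [norm_zero]; exact one_pos) fun j _ => ?_
  rw [mul_comm]
  refine hat_mul_lt ?_ (hD j)
  rw [norm_pow]
  exact pow_le_one₀ (norm_nonneg _) ha

private theorem hat_der_coeff (D : Polynomial W) (hD : ∀ j, ‖D.coeff j‖ < 1) (j : ℕ) :
    ‖D.derivative.coeff j‖ < 1 := by
  rw [Polynomial.coeff_derivative, mul_comm]
  refine hat_mul_lt ?_ (hD _)
  have h := IsUltrametricDist.norm_natCast_le_one W (j + 1)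
  rwa [Nat.cast_add, Nat.cast_one] at h

private theorem hat_der_coeff_le (D : Polynomial W) (hD : ∀ j, ‖D.coeff j‖ ≤ 1) (j : ℕ) :
    ‖D.derivative.coeff j‖ ≤ 1 := by
  rw [Polynomial.coeff_derivative, mul_comm]
  refine hat_mul_le ?_ (hD _)
  have h := IsUltrametricDist.norm_natCast_le_one W (j + 1)
  rwa [Nat.cast_add, Nat.cast_one] at h

/-- congruences extend to the field generated -/
private theorem hat_cong (C : IntermediateField k W) (hC : ∀ e ∈ C, e ≠ 0 → ‖e‖ = 1)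
    (gs : Set W) (hgs : IntermediateField.adjoin k gs ≤ C) (C' : IntermediateField k W)
    (h : ∀ g ∈ gs, ∃ e' ∈ C', ‖g - e'‖ < 1) {e : W}
    (he : e ∈ IntermediateField.adjoin k gs) : ∃ e' ∈ C', ‖e - e'‖ < 1 := by
  have hCn : ∀ e ∈ IntermediateField.adjoin k gs, ‖e‖ ≤ 1 := by
    intro e he
    by_cases h0 : e = 0
    · rw [h0, norm_zero]; exact zero_le_one
    · exact (hC e (hgs he) h0).le
  refine IntermediateField.adjoin_induction k (p := fun z _ => ∃ e' ∈ C', ‖z - e'‖ < 1)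
    h (fun a => ⟨algebraMap k W a, C'.algebraMap_mem a, by rw [sub_self, norm_zero]; exact one_pos⟩)
    ?_ ?_ ?_ he
  · rintro x y _ _ ⟨x', hx', h1⟩ ⟨y', hy', h2⟩
    refine ⟨x' + y', add_mem hx' hy', ?_⟩
    have e : x + y - (x' + y') = (x - x') + (y - y') := by ring
    rw [e]; exact hat_add_lt h1 h2
  · rintro x hx ⟨x', hx', h1⟩
    by_cases h0 : x = 0
    · exact ⟨0, zero_mem _, by rw [h0, inv_zero, sub_zero, norm_zero]; exact one_pos⟩
    · have hx1 := hC x (hgs hx) h0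
      have hx'1 := hat_norm_eq hx1 h1
      have hx'0 : x' ≠ 0 := by
        rintro rfl; rw [norm_zero] at hx'1; exact zero_ne_one hx'1
      refine ⟨x'⁻¹, inv_mem hx', ?_⟩
      have e : x⁻¹ - x'⁻¹ = (x' - x) / (x * x') := by field_simp
      rw [e, norm_div, norm_mul, hx1, hx'1, mul_one, div_one]
      exact hat_sub_comm h1
  · rintro x y hx hy ⟨x', hx', h1⟩ ⟨y', hy', h2⟩
    exact ⟨x' * y', mul_mem hx' hy', hat_mul_sub (hCn x hx) (hCn y hy) h1 h2⟩

/-- values of polynomials at congruent points -/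
private theorem hat_mv {m : ℕ} (hk : ∀ a : k, ‖algebraMap k W a‖ ≤ 1) (z Z : Fin m → W)
    (hz : ∀ j, ‖z j‖ ≤ 1) (hZ : ∀ j, ‖z j - Z j‖ < 1) (P : MvPolynomial (Fin m) k) :
    ‖MvPolynomial.aeval z P‖ ≤ 1 ∧ ‖MvPolynomial.aeval z P - MvPolynomial.aeval Z P‖ < 1 := by
  induction P using MvPolynomial.induction_on with
  | C a =>
    rw [MvPolynomial.aeval_C, MvPolynomial.aeval_C, sub_self, norm_zero]
    exact ⟨hk a, one_pos⟩
  | add p q hp hq =>
    rw [map_add, map_add]
    refine ⟨hat_add_le hp.1 hq.1, ?_⟩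
    have e : MvPolynomial.aeval z p + MvPolynomial.aeval z q -
        (MvPolynomial.aeval Z p + MvPolynomial.aeval Z q) =
        (MvPolynomial.aeval z p - MvPolynomial.aeval Z p) +
        (MvPolynomial.aeval z q - MvPolynomial.aeval Z q) := by ring
    rw [e]; exact hat_add_lt hp.2 hq.2
  | mul_X p i hp =>
    rw [map_mul, map_mul, MvPolynomial.aeval_X, MvPolynomial.aeval_X]
    exact ⟨hat_mul_le hp.1 (hz i), hat_mul_sub hp.1 (hz i) hp.2 (hZ i)⟩

omit [IsUltrametricDist W] in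
private theorem hat_mv_mem {m : ℕ} (R : Subring W) (hk : ∀ a : k, algebraMap k W a ∈ R)
    (Z : Fin m → W) (hZ : ∀ j, Z j ∈ R) (P : MvPolynomial (Fin m) k) :
    MvPolynomial.aeval Z P ∈ R := by
  induction P using MvPolynomial.induction_on with
  | C a => rw [MvPolynomial.aeval_C]; exact hk a
  | add p q hp hq => rw [map_add]; exact R.add_mem hp hq
  | mul_X p i hp => rw [map_mul, MvPolynomial.aeval_X]; exact R.mul_mem hp (hZ i)

/-- A separating transcendence basis and a primitive element. -/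
private theorem hat_basis [PerfectField k] {m : ℕ} (C : IntermediateField k W) (hfg : C.FG)
    (htr : Algebra.trdeg k C = (m : Cardinal)) :
    ∃ (z : Fin m → W) (θ : W) (P : Polynomial W), (∀ j, z j ∈ C) ∧ θ ∈ C ∧
      AlgebraicIndependent k z ∧
      IntermediateField.adjoin k (Set.range z ∪ {θ}) = C ∧
      (∀ j, P.coeff j ∈ IntermediateField.adjoin k (Set.range z)) ∧
      P.eval θ = 0 ∧ P.derivative.eval θ ≠ 0 := by
  have : Algebra.EssFiniteType k C := IntermediateField.essFiniteType_iff.2 hfg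
  obtain ⟨s, hs, hsep⟩ := exists_isTranscendenceBasis_and_isSeparable_of_perfectField k C
  set F : IntermediateField k C := IntermediateField.adjoin k (s : Set C) with hF
  have : Algebra.EssFiniteType F C := Algebra.EssFiniteType.of_comp k F C
  have : Module.Finite F C := Algebra.finite_of_essFiniteType_of_isAlgebraic
  obtain ⟨θ, hθ⟩ := Field.exists_primitive_element F C
  have hcard : Fintype.card s = m := by
    have h1 := hs.cardinalMk_eq_trdeg
    rw [htr, Cardinal.mk_fintype] at h1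
    exact_mod_cast h1
  let e : Fin m ≃ s := (Fintype.equivFinOfCardEq hcard).symm
  set z : Fin m → W := fun j => ((e j : C) : W) with hz
  have hrange : (fun c : C => (c : W)) '' (s : Set C) = Set.range z := by
    ext t
    constructor
    · rintro ⟨c, hc, rfl⟩
      exact ⟨e.symm ⟨c, hc⟩, by rw [hz]; simp⟩
    · rintro ⟨j, rfl⟩
      exact ⟨(e j : C), (e j).2, rfl⟩
  have hmap : F.map C.val = IntermediateField.adjoin k (Set.range z) := by
    rw [hF, IntermediateField.adjoin_map]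
    congr 1
  have hFz : ∀ x : C, x ∈ F → (x : W) ∈ IntermediateField.adjoin k (Set.range z) := by
    intro x hx
    rw [← hmap]
    exact ⟨x, hx, rfl⟩
  have hind : AlgebraicIndependent k z := by
    have h1 : AlgebraicIndependent k (fun j => (e j : C)) :=
      (hs.1.comp e e.injective)
    exact h1.map' (f := C.val) C.val.injective
  refine ⟨z, (θ : W), (minpoly F θ).map ((algebraMap C W).comp (algebraMap F C)),
    fun j => (e j : C).2, θ.2, hind, ?_, ?_, ?_, ?_⟩
  · apply le_antisymm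
    · rw [IntermediateField.adjoin_le_iff]
      rintro t (⟨j, rfl⟩ | ht)
      · exact (e j : C).2
      · rw [Set.mem_singleton_iff.1 ht]; exact θ.2
    · intro t ht
      have h1 : (⟨t, ht⟩ : C) ∈ IntermediateField.adjoin F {θ} := by rw [hθ]; trivial
      have h2 : ((⟨t, ht⟩ : C) : W) ∈ IntermediateField.adjoin k (Set.range z ∪ {(θ : W)}) := by
        refine IntermediateField.adjoin_induction F
          (p := fun (x : C) _ => (x : W) ∈ IntermediateField.adjoin k (Set.range z ∪ {(θ : W)}))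
          ?_ ?_ ?_ ?_ ?_ h1
        · intro x hx
          rw [Set.mem_singleton_iff.1 hx]
          exact IntermediateField.subset_adjoin k _ (Or.inr rfl)
        · intro x
          exact IntermediateField.adjoin.mono k _ _ Set.subset_union_left (hFz x x.2)
        · intro x y _ _ h1 h2
          exact add_mem h1 h2
        · intro x _ h1
          exact inv_mem h1
        · intro x y _ _ h1 h2
          exact mul_mem h1 h2
      exact h2
  · intro j
    rw [Polynomial.coeff_map]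
    exact hFz _ ((minpoly F θ).coeff j).2
  · rw [← Polynomial.map_map]
    change Polynomial.eval (algebraMap C W θ) _ = 0
    rw [Polynomial.eval_map_apply, ← Polynomial.eval₂_eq_eval_map, ← Polynomial.aeval_def,
      minpoly.aeval, map_zero]
  · rw [← Polynomial.map_map, Polynomial.derivative_map, Polynomial.derivative_map]
    change Polynomial.eval (algebraMap C W θ) _ ≠ 0
    rw [Polynomial.eval_map_apply, ← Polynomial.eval₂_eq_eval_map, ← Polynomial.aeval_def]
    intro h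
    rw [map_eq_zero] at h
    exact (Algebra.IsSeparable.isSeparable F θ).aeval_derivative_ne_zero (minpoly.aeval F θ) h

private theorem hat_sep_mono {E E' : IntermediateField k W} (h : E ≤ E') {z : W}
    (hz : IsSeparable E z) : IsSeparable E' z := by
  let _ := (IntermediateField.inclusion h).toRingHom.toAlgebra
  have : IsScalarTower E E' W := IsScalarTower.of_algebraMap_eq (fun _ => rfl)
  exact hz.tower_top E'

end aux

/-- See the header. -/
theorem hat {k W : Type} [Field k] [PerfectField k] [NormedField W] [IsUltrametricDist W]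
    [Algebra k W] {r m : ℕ} (hr : 0 < r) (S L : IntermediateField k W)
    (hS : ∀ z : W, IsSeparable S z → z ∈ S) (hL : IsComplete (L : Set W)) {c : Tri k W r}
    (hc : Ch m S L c) (A : Subring W) (hA : ∀ a ∈ A, a ∈ HL (S ⊓ L) c)
    (hx : ∀ i, c.x i ∈ Dcl (S ⊓ L) c A) (hy : c.y ∈ Dcl (S ⊓ L) c A)
    (hC : ∀ e ∈ c.C, ∃ a ∈ A, a ∈ HO (S ⊓ L) c ∧ ‖e - a‖ < 1) :
    ∃ (c' : Tri k W r) (Z : Fin m → W), Ch m S L c' ∧ HO (S ⊓ L) c' = HO (S ⊓ L) c ∧
      (∀ i, c'.x i ∈ A ∧ ∃ u ∈ HO (S ⊓ L) c, ‖u‖ = 1 ∧ c'.x i = c.x i * u) ∧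
      c'.y ∈ A ∧ (∃ v ∈ HO (S ⊓ L) c, ‖v‖ = 1 ∧ ∃ q ∈ QH (S ⊓ L) c, c'.y = c.y * v + q) ∧
      (∀ j, Z j ∈ A ∧ Z j ∈ c'.C) ∧
      ∀ e ∈ c'.C, IsSeparable (IntermediateField.adjoin k (Set.range Z)) e := by
  classical
  have hok := hc.ok
  have hunit := hok.cst.unit
  have hkn : ∀ a : k, ‖algebraMap k W a‖ ≤ 1 := by
    intro a
    by_cases h0 : algebraMap k W a = 0
    · rw [h0, norm_zero]; exact zero_le_one
    · exact (hunit _ (c.C.algebraMap_mem a) h0).le
  have hkH : ∀ a : k, algebraMap k W a ∈ HO (S ⊓ L) c := fun a =>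
    C_mem_HO hok (c.C.algebraMap_mem a)
  have hCn : ∀ e ∈ c.C, ‖e‖ ≤ 1 := fun e he => HO_norm_le hok (C_mem_HO hok he)
  obtain ⟨z, θ, P, hzC, hθC, hzind, hadj, hPc, hP0, hP1⟩ := hat_basis c.C hok.cst.fg hok.cst.trd
  choose Z hZA hZH hZn using fun j => hC (z j) (hzC j)
  have hmv := hat_mv hkn z Z (fun j => hCn _ (hzC j)) hZn
  have hP1' : ∀ Q : MvPolynomial (Fin m) k, Q ≠ 0 → ‖MvPolynomial.aeval Z Q‖ = 1 := by
    intro Q hQ
    refine hat_norm_eq (a := MvPolynomial.aeval z Q) (hunit _ ?_ ?_) (hmv Q).2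
    · exact hat_mv_mem c.C.toSubfield.toSubring c.C.algebraMap_mem z hzC Q
    · intro h0
      exact hQ ((injective_iff_map_eq_zero _).1 hzind Q h0)
  set K2 : IntermediateField k W := IntermediateField.adjoin k (Set.range Z) with hK2
  have hK2' : ∀ e ∈ K2, e ∈ HO (S ⊓ L) c ∧ (e ≠ 0 → ‖e‖ = 1) := by
    intro e he
    rw [hK2, IntermediateField.mem_adjoin_range_iff] at he
    obtain ⟨Q, R, rfl⟩ := he
    by_cases hR : R = 0
    · rw [hR, map_zero, div_zero]
      exact ⟨zero_mem _, fun h => absurd rfl h⟩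
    · have hR1 := hP1' R hR
      have hRH := hat_mv_mem (HO (S ⊓ L) c) hkH Z hZH R
      have hQH := hat_mv_mem (HO (S ⊓ L) c) hkH Z hZH Q
      refine ⟨?_, fun h => ?_⟩
      · rw [div_eq_mul_inv]
        exact (HO (S ⊓ L) c).mul_mem hQH (inv_mem_HO hok hRH hR1)
      · have hQ : Q ≠ 0 := by
          rintro rfl
          rw [map_zero, zero_div] at h
          exact h rfl
        rw [norm_div, hP1' Q hQ, hR1, div_one]
  have hK2S : K2 ≤ S := fun e he => (HO_mem_M hok (hK2' e he).1).1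
  have hK2L : K2 ≤ L := fun e he => (HO_mem_M hok (hK2' e he).1).2
  have hzadj : IntermediateField.adjoin k (Set.range z) ≤ c.C := by
    rw [IntermediateField.adjoin_le_iff]
    rintro _ ⟨j, rfl⟩
    exact hzC j
  have hcong1 : ∀ e ∈ IntermediateField.adjoin k (Set.range z), ∃ e' ∈ K2, ‖e - e'‖ < 1 := by
    intro e he
    refine hat_cong c.C hunit (Set.range z) hzadj K2 ?_ he
    rintro _ ⟨j, rfl⟩
    exact ⟨Z j, IntermediateField.subset_adjoin k _ ⟨j, rfl⟩, hZn j⟩
  choose q hqK hqn using fun j => hcong1 (P.coeff j) (hPc j)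
  -- the lifted polynomial
  set Q : Polynomial K2 := ∑ j ∈ Finset.range (P.natDegree + 1),
    Polynomial.monomial j (⟨q j, hqK j⟩ : K2) with hQdef
  set QW : Polynomial W := Q.map (algebraMap K2 W) with hQW
  have hQc : ∀ j, QW.coeff j = if j < P.natDegree + 1 then q j else 0 := by
    intro j
    rw [hQW, Polynomial.coeff_map, hQdef, Polynomial.finsetSum_coeff]
    simp only [Polynomial.coeff_monomial]
    rw [Finset.sum_ite_eq' (Finset.range (P.natDegree + 1)) j]
    simp only [Finset.mem_range]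
    split_ifs
    · rfl
    · exact map_zero _
  have hQW2 : ∀ j, QW.coeff j ∈ K2 := by
    intro j
    rw [hQc j]
    split_ifs
    · exact hqK j
    · exact zero_mem _
  have hQWn : ∀ j, ‖QW.coeff j‖ ≤ 1 := fun j => HO_norm_le hok (hK2' _ (hQW2 j)).1
  have hDn : ∀ j, ‖(P - QW).coeff j‖ < 1 := by
    intro j
    rw [Polynomial.coeff_sub, hQc j]
    split_ifs with h
    · exact hqn j
    · rw [sub_zero, Polynomial.coeff_eq_zero_of_natDegree_lt (by omega), norm_zero]
      exact one_pos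
  have hθn : ‖θ‖ ≤ 1 := hCn θ hθC
  have hPder1 : ‖P.derivative.eval θ‖ = 1 := by
    refine hunit _ ?_ hP1
    rw [Polynomial.eval_eq_sum_range]
    refine sum_mem fun j _ => mul_mem ?_ (pow_mem hθC j)
    rw [Polynomial.coeff_derivative]
    exact mul_mem (hzadj (hPc _)) (by
      have := natCast_mem c.C (j + 1)
      rwa [Nat.cast_add, Nat.cast_one] at this)
  have hQθ : ‖QW.eval θ‖ < 1 := by
    have h1 := hat_eval_lt (P - QW) hDn hθn
    rw [Polynomial.eval_sub, hP0, zero_sub, norm_neg] at h1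
    exact h1
  have hQ'θ : ‖QW.derivative.eval θ‖ = 1 := by
    have h1 := hat_eval_lt (P - QW).derivative (hat_der_coeff _ hDn) hθn
    rw [Polynomial.derivative_sub, Polynomial.eval_sub] at h1
    exact hat_norm_eq hPder1 h1
  have hθL : θ ∈ L := (hok.CM hθC).2
  obtain ⟨θ', hθ'L, hθ'0, hθθ'⟩ := henselU L hL QW (fun j => ⟨hK2L (hQW2 j), hQWn j⟩) hθL hθn
    hQθ hQ'θ
  have hθ'n : ‖θ'‖ ≤ 1 := hat_norm_le hθn hθθ'
  have hQ'θ' : ‖QW.derivative.eval θ'‖ = 1 := by
    refine hat_norm_eq hQ'θ ?_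
    exact (norm_eval_sub_le QW.derivative (hat_der_coeff_le QW hQWn) hθn hθ'n).trans_lt hθθ'
  have hθ'sep : IsSeparable K2 θ' := by
    refine sep_of_simple Q ?_ ?_
    · rw [Polynomial.aeval_def, Polynomial.eval₂_eq_eval_map]
      exact hθ'0
    · rw [Polynomial.aeval_def, Polynomial.eval₂_eq_eval_map, ← Polynomial.derivative_map]
      intro h0
      change Polynomial.eval θ' QW.derivative = 0 at h0
      rw [h0, norm_zero] at hQ'θ'
      exact zero_ne_one hQ'θ'
  have hθ'S : θ' ∈ S := hS θ' (hat_sep_mono hK2S hθ'sep)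
  have hθ'H : θ' ∈ HO (S ⊓ L) c :=
    hen' hr hok QW (fun j => (hK2' _ (hQW2 j)).1) (C_mem_HO hok hθC) ⟨hθ'S, hθ'L⟩
      (hat_sub_comm hθθ') hθ'0 hQ'θ
  set C' : IntermediateField k W := IntermediateField.adjoin k (Set.range Z ∪ {θ'}) with hC'
  have hC'le : C' ≤ (IntermediateField.adjoin K2 {θ'}).restrictScalars k := by
    rw [hC', IntermediateField.adjoin_le_iff]
    rintro t (⟨j, rfl⟩ | ht)
    · exact (IntermediateField.adjoin K2 {θ'}).algebraMap_mem
        (⟨Z j, IntermediateField.subset_adjoin k _ ⟨j, rfl⟩⟩ : K2)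
    · rw [Set.mem_singleton_iff.1 ht]
      exact IntermediateField.mem_adjoin_simple_self K2 θ'
  have hK2C' : K2 ≤ C' := IntermediateField.adjoin.mono k _ _ Set.subset_union_left
  have hC'H : ∀ e ∈ C', e ∈ HO (S ⊓ L) c := by
    intro e he
    have h1 : e ∈ (IntermediateField.adjoin K2 {θ'}).toSubalgebra := hC'le he
    rw [IntermediateField.adjoin_simple_toSubalgebra_of_isAlgebraic
      hθ'sep.isIntegral.isAlgebraic, Algebra.adjoin_singleton_eq_range_aeval] at h1
    obtain ⟨p, rfl⟩ := h1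
    change Polynomial.aeval θ' p ∈ _
    rw [Polynomial.aeval_eq_sum_range]
    refine (HO (S ⊓ L) c).sum_mem fun j _ => ?_
    rw [Algebra.smul_def]
    exact (HO (S ⊓ L) c).mul_mem (hK2' _ (p.coeff j).2).1 ((HO (S ⊓ L) c).pow_mem hθ'H j)
  have hC'sep : ∀ e ∈ C', IsSeparable K2 e := by
    intro e he
    have h1 : IntermediateField.adjoin K2 {θ'} ≤ separableClosure K2 W := by
      rw [IntermediateField.adjoin_simple_le_iff]
      exact mem_separableClosure_iff.2 hθ'sep
    exact mem_separableClosure_iff.1 (h1 (hC'le he))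
  have hC'fg : C'.FG := IntermediateField.fg_adjoin_of_finite
    ((Set.finite_range Z).union (Set.finite_singleton θ'))
  have hcong2 : ∀ e ∈ c.C, ∃ e' ∈ C', ‖e - e'‖ < 1 := by
    intro e he
    refine hat_cong c.C hunit (Set.range z ∪ {θ}) hadj.le C' ?_ (by rw [hadj]; exact he)
    rintro t (⟨j, rfl⟩ | ht)
    · exact ⟨Z j, IntermediateField.subset_adjoin k _ (Or.inl ⟨j, rfl⟩), hZn j⟩
    · rw [Set.mem_singleton_iff.1 ht]
      exact ⟨θ', IntermediateField.subset_adjoin k _ (Or.inr rfl), hθθ'⟩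
  -- the monomial parameters
  have hxi : ∀ i, ∃ a ∈ A, ∃ u ∈ HO (S ⊓ L) c, ‖u‖ = 1 ∧ a = c.x i * u := by
    intro i
    obtain ⟨N, -, hN⟩ := exists_mon_lt hr hok.par.ind ‖c.x i‖
      (norm_pos_iff.2 (hok.par.ind.ne i))
    obtain ⟨a, haA, h, hh, hxa⟩ := (hx i).2 N
    have hxne := hok.par.ind.ne i
    have hlt : ‖mon c.x (N + -Pi.single i 1)‖ < 1 := by
      rw [mon_add c.x hok.par.ind.ne, mon_neg, mon_single, norm_mul, norm_inv,
        ← div_eq_mul_inv]
      exact (div_lt_one (norm_pos_iff.2 hxne)).2 hN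
    have hq := mon_mul_mem_QH hok hlt hh
    refine ⟨a, haA, 1 - mon c.x (N + -Pi.single i 1) * h,
      (HO (S ⊓ L) c).sub_mem (one_mem _) (QH_mem_HO hok hq), ?_, ?_⟩
    · exact hat_norm_eq (a := (1 : W)) norm_one (by
        rw [sub_sub_cancel]; exact QH_norm hok hq)
    · rw [mon_add c.x hok.par.ind.ne, mon_neg, mon_single]
      have e : a = c.x i - mon c.x N * h := by rw [hxa]; ring
      rw [e]
      field_simp
  choose x' hx'A hx'u using hxi
  obtain ⟨y', hy'A, q0, hq0, hyy⟩ : ∃ y' ∈ A, ∃ q ∈ QH (S ⊓ L) c, y' = c.y * 1 + q := by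
    obtain ⟨N, -, hN⟩ := exists_mon_lt hr hok.par.ind 1 one_pos
    obtain ⟨a, haA, h, hh, hya⟩ := hy.2 N
    refine ⟨a, haA, -(mon c.x N * h), QH_neg hok (mon_mul_mem_QH hok hN hh), ?_⟩
    rw [hya]; ring
  have hyv : ∃ v ∈ HO (S ⊓ L) c, ‖v‖ = 1 ∧ ∃ q ∈ QH (S ⊓ L) c, y' = c.y * v + q :=
    ⟨1, one_mem _, norm_one, q0, hq0, hyy⟩
  have hpar := par_change hr hok C' x' y' hC'fg hC'H hcong2 hx'u hyv
  have hch := par_change_chart hr hc C' x' y' hC'fg hC'H hcong2 hx'u hyv
  exact ⟨⟨C', x', y'⟩, Z, hch, hpar.2, fun i => ⟨hx'A i, hx'u i⟩, hy'A, hyv,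
    fun j => ⟨hZA j, hK2C' (IntermediateField.subset_adjoin k _ ⟨j, rfl⟩)⟩, hC'sep⟩

end Pool.Agent.Lib.TU
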