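import Pool.Agent.Lib.TU.DenF
import Pool.Agent.Lib.TU.AppSt
import Pool.Agent.Lib.TU.Hat

/-!
# Module FinA: a chart with parameters which are fractions of `A0` (paper 12.1, 12.3)

`m_all`: chart `c0` of `L` for which the nonzero elements of `G0 ∪ Z` are monomial; `A0 = locV k[G0] ⊆ HO c0`
(`G0 ⊆ HO c0` since the norms are `≤ 1`; `inv_mem_HO`).  `exists_stR`: `c01`.  `den_F` starting from `c01`, for the
finite set of generators of the field `c0.C` (over `k`) and `x_0 i, y_0`: `c ≥ c01` with all these in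
`D := Dcl c A`, `A := Afr c A0`.  `c0.C ⊆ D`: `D` is a ring, the nonzero elements of the field `c0.C ⊆ HO c` are
units of `HO c`, so monomial, `Dcl_inv`.  (`Afr_HL`, `Afr_inv`.)  `app_main` for `c0, c01, c`, `hat`: `c'`, `V`.
`HO c' = HO c` and `c'.x i = c.x i * unit`, so monomial for `c` is the same as monomial for `c'`, and
`Afr c A0 = Afr c' A0`.
-/

namespace Pool.Agent.Lib.TU

open Pool.Agent.Lib.MP_3029eb_ag Pool.Agent.Lib.MP_3029eb_ag.Abh Pool.Agent.Lib.TDO

variable {k W : Type} [Field k] [NormedField W] [IsUltrametricDist W] [Algebra k W] {r m : ℕ}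

/-- The localization of a subring of `HO c` is contained in `HO c`. -/
private theorem finA_loc {M : IntermediateField k W} {c : Tri k W r} (hok : Ok m M c)
    {B : Subring W} (hB : ∀ z ∈ B, z ∈ HO M c) {z : W} (hz : z ∈ locV (ball W) B) :
    z ∈ HO M c := by
  obtain ⟨a, ha, b, hb, hb1, h⟩ := hz
  rw [ball_val_eq_one] at hb1
  have hb0 : b ≠ 0 := by
    rintro rfl
    rw [norm_zero] at hb1
    exact zero_ne_one hb1
  have h2 : z = a * b⁻¹ := by
    rw [← h, mul_inv_cancel_right₀ hb0]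
  rw [h2]
  exact mul_mem (hB a ha) (inv_mem_HO hok (hB b hb) hb1)

/-- Monomial elements for two triples with the same ring. -/
private theorem finA_moH {M : IntermediateField k W} {c c' : Tri k W r} (hok : Ok m M c)
    (hok' : Ok m M c') (hHO : HO M c' = HO M c)
    (hx : ∀ i, ∃ u ∈ HO M c, ‖u‖ = 1 ∧ c'.x i = c.x i * u) (z : W) :
    MoH M c z ↔ MoH M c' z := by
  constructor
  · intro hz
    refine MoH_map hok' (RingHom.id W) (fun _ => rfl) (fun z hz => ?_) (fun i => ?_) hz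
    · rw [hHO]; exact hz
    · obtain ⟨u, hu, hu1, hxu⟩ := hx i
      have hu0 : u ≠ 0 := by
        rintro rfl
        rw [norm_zero] at hu1
        exact zero_ne_one hu1
      have e1 : c.x i = mon c'.x (Pi.single i 1) * u⁻¹ := by
        rw [mon_single, hxu, mul_inv_cancel_right₀ hu0]
      change MoH M c' (c.x i)
      refine ⟨Pi.single i 1, u⁻¹, ?_, ?_, e1⟩
      · rw [hHO]; exact inv_mem_HO hok hu hu1
      · rw [norm_inv, hu1, inv_one]
  · intro hz
    refine MoH_map hok (RingHom.id W) (fun _ => rfl) (fun z hz => ?_) (fun i => ?_) hz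
    · rw [← hHO]; exact hz
    · obtain ⟨u, hu, hu1, hxu⟩ := hx i
      change MoH M c (c'.x i)
      refine ⟨Pi.single i 1, u, hu, hu1, ?_⟩
      rw [mon_single, hxu]

/-- See the header. -/
theorem fin_a {k W : Type} [Field k] [PerfectField k] [NormedField W] [IsUltrametricDist W]
    [Algebra k W] {r m : ℕ} (hr : 0 < r) (hA : AmbG r m k W) (S F0 L : IntermediateField k W)
    (hSF : ∀ z : W, z ∈ S ↔ IsSeparable F0 z) (hS : ∀ z : W, IsSeparable S z → z ∈ S)
    (hLF : L = cl F0) (hL : IsComplete (L : Set W)) (h : HasCh m S r L) (G0 : Finset W)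
    (hG0 : ∀ g ∈ G0, g ∈ F0 ∧ ‖g‖ ≤ 1) (A0 : Subring W)
    (hA0 : A0 = locV (ball W) (Subring.closure (Set.range (algebraMap k W) ∪ (G0 : Set W))))
    (hfrac : ∀ z ∈ F0, ∃ a ∈ A0, ∃ b ∈ A0, b ≠ 0 ∧ z * b = a) (Z : Finset W)
    (hZ : ∀ z ∈ Z, z ∈ S ⊓ L ∧ z ≠ 0) :
    ∃ (c : Tri k W r) (V : Fin m → W), Ch m S L c ∧ (∀ a ∈ A0, a ∈ HO (S ⊓ L) c) ∧
      (∀ z ∈ Z, MoH (S ⊓ L) c z) ∧ (∀ i, c.x i ∈ Afr (S ⊓ L) c A0) ∧
      c.y ∈ Afr (S ⊓ L) c A0 ∧ (∀ j, V j ∈ Afr (S ⊓ L) c A0 ∧ V j ∈ c.C) ∧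
      ∀ e ∈ c.C, IsSeparable (IntermediateField.adjoin k (Set.range V)) e := by
  classical
  obtain ⟨c00, hc00⟩ := h
  have hF0S : ∀ z ∈ F0, z ∈ S := fun z hz =>
    (hSF z).2 (isSeparable_algebraMap (F := F0) (⟨z, hz⟩ : F0))
  have hF0L : ∀ z ∈ F0, z ∈ L := fun z hz => by rw [hLF]; exact le_cl F0 hz
  -- a chart for which the elements of `G0` and `Z` are monomial
  obtain ⟨c0, h00, hm0⟩ := m_all hr hA S L hS hL hc00 (G0.filter (fun g => g ≠ 0) ∪ Z) (by
    intro z hz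
    rcases Finset.mem_union.1 hz with hz | hz
    · obtain ⟨h1, h2⟩ := Finset.mem_filter.1 hz
      exact ⟨⟨hF0S z (hG0 z h1).1, hF0L z (hG0 z h1).1⟩, h2⟩
    · exact hZ z hz)
  have hc0 : Ch m S L c0 := RfS.ch hc00 h00
  have hA0H : ∀ a ∈ A0, a ∈ HO (S ⊓ L) c0 := by
    intro a ha
    rw [hA0] at ha
    refine finA_loc hc0.ok (B := Subring.closure (Set.range (algebraMap k W) ∪ (G0 : Set W)))
      (fun z hz => ?_) ha
    have h1 : Subring.closure (Set.range (algebraMap k W) ∪ (G0 : Set W)) ≤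
        HO (S ⊓ L) c0 := by
      rw [Subring.closure_le]
      rintro w (⟨t, rfl⟩ | hw)
      · exact C_mem_HO hc0.ok (c0.C.algebraMap_mem t)
      · by_cases h0 : w = 0
        · rw [h0]; exact zero_mem _
        · exact (hm0 w (Finset.mem_union_left _ (Finset.mem_filter.2 ⟨hw, h0⟩))).mem_HO hc0.ok
            (hG0 w hw).2
    exact h1 hz
  have hkA0 : ∀ t : k, algebraMap k W t ∈ A0 := by
    intro t
    rw [hA0]
    exact ⟨algebraMap k W t, Subring.subset_closure (Or.inl ⟨t, rfl⟩), 1, one_mem _, map_one _,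
      mul_one _⟩
  -- one stage
  obtain ⟨c01, h01⟩ := exists_stR hr hA S L hS hL hc0
  have h01' : RfS m S L c0 c01 := Relation.ReflTransGen.single h01
  have hc01 : Ch m S L c01 := RfS.ch hc0 h01'
  -- approximation of the parameters of `c0`
  obtain ⟨t, ht⟩ := hc0.ok.cst.fg
  obtain ⟨c, h1, hD1⟩ := den_F hr hA S F0 L hSF hS hLF hL hc01 A0
    (fun a ha => RfS.HO_le hr hc0 h01' (hA0H a ha)) hfrac
    ((t ∪ Finset.univ.image c0.x) ∪ {c0.y}) (by
      intro z hz
      rcases Finset.mem_union.1 hz with hz | hz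
      · rcases Finset.mem_union.1 hz with hz | hz
        · refine hc0.ok.CM ?_
          rw [← ht]
          exact IntermediateField.subset_adjoin k _ hz
        · obtain ⟨i, -, rfl⟩ := Finset.mem_image.1 hz
          exact hc0.ok.xM i
      · rw [Finset.mem_singleton.1 hz]
        exact hc0.ok.yM)
  have h0c : RfS m S L c0 c := h01'.trans h1
  have hc : Ch m S L c := RfS.ch hc0 h0c
  have hok := hc.ok
  have hA0c : ∀ a ∈ A0, a ∈ HO (S ⊓ L) c := fun a ha => RfS.HO_le hr hc0 h0c (hA0H a ha)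
  have hA0L : ∀ a ∈ A0, a ∈ HL (S ⊓ L) c := fun a ha => HO_le_HL (hA0c a ha)
  have hAL := Afr_HL hok hA0L
  have hAi := Afr_inv (A := A0) hok
  obtain ⟨D, hD⟩ := exists_DclS (m := m) hr hok hAL
  have hC0 : ∀ e ∈ c0.C, e ∈ Dcl (S ⊓ L) c (Afr (S ⊓ L) c A0) := by
    intro e he
    rw [← ht] at he
    rw [← hD]
    refine IntermediateField.adjoin_induction k (p := fun z _ => z ∈ D) ?_ ?_ ?_ ?_ ?_ he
    · intro z hz
      exact (hD z).2 (hD1 z (Finset.mem_union_left _ (Finset.mem_union_left _ hz)))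
    · intro a
      exact (hD _).2 (Dcl_of_mem hr hok hAL (Afr_le hok (hkA0 a)))
    · intro x y _ _ hx hy
      exact add_mem hx hy
    · intro x hx hxD
      by_cases h0 : x = 0
      · rw [h0, inv_zero]; exact zero_mem _
      · rw [ht] at hx
        refine (hD _).2 (Dcl_inv hr hok hAL hAi ((hD x).1 hxD) ?_)
        exact MoH.of_unit (RfS.HO_le hr hc0 h0c (C_mem_HO hc0.ok hx)) (hc0.ok.cst.unit x hx h0)
    · intro x y _ _ hx hy
      exact mul_mem hx hy
  obtain ⟨hx1, hy1, hC1⟩ := app_main hr hc0 h01 h1 (Afr (S ⊓ L) c A0) hAL hAi hC0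
    (fun i => hD1 _ (Finset.mem_union_left _ (Finset.mem_union_right _
      (Finset.mem_image_of_mem _ (Finset.mem_univ i)))))
    (hD1 _ (Finset.mem_union_right _ (Finset.mem_singleton_self _)))
  obtain ⟨c', V, hc', hHO, hxu, hyA, -, hV, hVs⟩ := hat hr S L hS hL hc (Afr (S ⊓ L) c A0) hAL
    hx1 hy1 hC1
  have hMo := finA_moH hok hc'.ok hHO (fun i => (hxu i).2)
  have hAfr : ∀ z, z ∈ Afr (S ⊓ L) c A0 → z ∈ Afr (S ⊓ L) c' A0 := by
    intro z hz
    rw [mem_Afr_iff hok] at hz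
    rw [mem_Afr_iff hc'.ok]
    obtain ⟨n, hn, d, hd, hdm, hzd⟩ := hz
    exact ⟨n, hn, d, hd, (hMo d).1 hdm, hzd⟩
  refine ⟨c', V, hc', fun a ha => ?_, fun z hz => ?_, fun i => hAfr _ (hxu i).1, hAfr _ hyA,
    fun j => ⟨hAfr _ (hV j).1, (hV j).2⟩, hVs⟩
  · rw [hHO]
    exact hA0c a ha
  · exact (hMo z).1 (RfS.moH hr hc0 h0c (hm0 z (Finset.mem_union_right _ hz)))

end Pool.Agent.Lib.TU
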