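import Pool.Agent.Lib.TU.Defs
import Pool.Agent.Lib.MP_3029eb_ag.AbhBase
import Pool.Agent.Lib.MP_3029eb_ag.Comp3

/-!
# Module GamA: local structure of unramified extensions of local rings inside `W`

`A ⊆ B` subrings of the unit ball of `W`, `A = locV A`, `B = locV (A[G])`, `G` finite,
`m_B = m_A B` (`m_A = {a ∈ A | ‖a‖ < 1}`), the residues of the elements of `B` are separable over those
of `A`.  Then there is `t ∈ B`, a root of a monic polynomial `f` over `A` with `‖f'(t)‖ = 1`, such that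
`B = locV (A[t])`.

Proof.  `B' := A[G]` is a finitely generated `A`-algebra, `𝔮 = {b ∈ B' | ‖b‖ < 1}` a prime ideal over
the maximal ideal `m_A`, `B` is the localization of `B'` at `𝔮` (`C4`/`AbhBase`: `locV` is a
localization at the centre, `C3.cen`).  `B'` is unramified over `A` at `𝔮`:
`m_A B = m_B` and the residue field extension is algebraic separable, finitely generated
(`Mathlib.RingTheory.Unramified.LocalRing`: `Algebra.FormallyUnramified` of a local ring
essentially of finite type iff `map m = m` and separable residue extension;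
`Algebra.IsUnramifiedAt`).  By Mathlib's
`Algebra.IsUnramifiedAt.exists_hasStandardEtaleSurjectionOn` there is `g0 ∉ 𝔮` and a standard étale
algebra `A[T]_(g) / (f)` (`f` monic, `f'` invertible) with a surjection onto `B'[1/g0]`; `t` = image of
`T`; `f(t) = 0`, `f'(t)` is a unit of `B'[1/g0]`, so a unit of `B`: `‖f'(t)‖ = 1`; every element of
`B'[1/g0]` is `a / b` with `a, b ∈ A[t]`, `b` (a power of the image of `g`) a unit, so of norm one.  So
every element of `B` is of the form `n / d`, `n, d ∈ A[t]`, `‖d‖ = 1`.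
-/

namespace Pool.Agent.Lib.TU

open Pool.Agent.Lib.MP_3029eb_ag Pool.Agent.Lib.MP_3029eb_ag.Abh Pool.Agent.Lib.TDO

private theorem gamA_val {W : Type} [NormedField W] [IsUltrametricDist W] (z : W) :
    (ball W).valuation z = 1 ↔ ‖z‖ = 1 := ball_val_eq_one z

/-- from the local structure theorem to the generator -/
private theorem gamA_end {W : Type} [NormedField W] [IsUltrametricDist W] (A : Subring W)
    (hAb : A ≤ (ball W).toSubring) (S : Subalgebra A W) (hSb : ∀ s ∈ S, ‖s‖ ≤ 1)
    (hSf : S.FG) (Q : Ideal S) [Q.IsPrime] (hQ : ∀ s : S, s ∈ Q ↔ ‖(s : W)‖ < 1)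
    (hun : Algebra.IsUnramifiedAt A Q) :
    ∃ t ∈ locV (ball W) S.toSubring, ∃ f : Polynomial W, (∀ j, f.coeff j ∈ A) ∧ f.Monic ∧
      f.eval t = 0 ∧ ‖f.derivative.eval t‖ = 1 ∧
      locV (ball W) S.toSubring = locV (ball W) (Subring.closure ((A : Set W) ∪ {t})) := by
  classical
  have hft : Algebra.FiniteType A S := S.fg_iff_finiteType.1 hSf
  obtain ⟨g0, hg0, P, φ, hφ⟩ :=
    Algebra.IsUnramifiedAt.exists_hasStandardEtaleSurjectionOn (R := A) Q
  have hg1 : ‖(g0 : W)‖ = 1 := by
    have h1 : ¬ ‖(g0 : W)‖ < 1 := fun h => hg0 ((hQ g0).2 h)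
    exact le_antisymm (hSb g0 g0.2) (not_lt.1 h1)
  have hg0' : (g0 : W) ≠ 0 := by
    intro h0
    rw [h0, norm_zero] at hg1
    exact zero_ne_one hg1
  have hgu : IsUnit (algebraMap S W g0) := (isUnit_iff_ne_zero).2 hg0'
  obtain ⟨L, hL⟩ : ∃ L : Localization.Away g0 →+* W, L = IsLocalization.Away.lift g0 hgu :=
    ⟨_, rfl⟩
  have hLs : ∀ s : S, L (algebraMap S (Localization.Away g0) s) = s := by
    intro s
    rw [hL, IsLocalization.Away.lift_eq]
    rfl
  obtain ⟨ψ, hψ⟩ : ∃ ψ : P.Ring →ₐ[A] W, ∀ x, ψ x = L (φ x) := by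
    refine ⟨{ (L.comp (φ : P.Ring →+* Localization.Away g0)) with commutes' := ?_ }, fun x => rfl⟩
    intro a
    show L (φ (algebraMap A P.Ring a)) = algebraMap A W a
    rw [AlgHom.commutes, IsScalarTower.algebraMap_apply A S (Localization.Away g0), hLs]
    rfl
  -- all values of ψ are fractions s / g0 ^ n
  have hfrac : ∀ x, ∃ s : S, ∃ n : ℕ, ψ x * (g0 : W) ^ n = s := by
    intro x
    obtain ⟨n, s, h⟩ := IsLocalization.Away.surj g0 (φ x)
    refine ⟨s, n, ?_⟩
    have h1 := congrArg L h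
    rw [map_mul, hLs, map_pow, hLs] at h1
    rw [hψ]
    exact h1
  have hψS : ∀ x, ψ x ∈ locV (ball W) S.toSubring := by
    intro x
    obtain ⟨s, n, h⟩ := hfrac x
    exact ⟨s, s.2, (g0 : W) ^ n, pow_mem g0.2 n, by
      rw [gamA_val, norm_pow, hg1, one_pow], h⟩
  have hψ1 : ∀ x, ‖ψ x‖ ≤ 1 := by
    intro x
    obtain ⟨s, n, h⟩ := hfrac x
    have h1 : ‖ψ x‖ * 1 ≤ 1 := by
      calc ‖ψ x‖ * 1 = ‖ψ x * (g0 : W) ^ n‖ := by rw [norm_mul, norm_pow, hg1, one_pow]
        _ = ‖(s : W)‖ := by rw [h]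
        _ ≤ 1 := hSb s s.2
    linarith
  obtain ⟨t, ht⟩ : ∃ t : W, t = ψ P.X := ⟨_, rfl⟩
  have htm : P.HasMap t := by
    rw [ht]
    exact StandardEtalePair.hasMap_X.map ψ
  have ht1 : ‖t‖ ≤ 1 := by rw [ht]; exact hψ1 _
  -- the ring T = locV A[t]
  have hTb : Subring.closure ((A : Set W) ∪ {t}) ≤ (ball W).toSubring :=
    closure_le_ball A hAb {t} (by
      intro z hz
      rw [Set.mem_singleton_iff.1 hz]
      exact ht1)
  obtain ⟨T, hT⟩ : ∃ T : Subalgebra A W, T.toSubring =
      locV (ball W) (Subring.closure ((A : Set W) ∪ {t})) := by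
    refine ⟨{ (locV (ball W) (Subring.closure ((A : Set W) ∪ {t}))) with
      algebraMap_mem' := ?_ }, rfl⟩
    intro a
    exact C2_le_locV _ _ (Subring.subset_closure (Or.inl a.2))
  have hTm : ∀ z, z ∈ T ↔ z ∈ locV (ball W) (Subring.closure ((A : Set W) ∪ {t})) := by
    intro z
    rw [← hT]
    rfl
  have htT : t ∈ T := (hTm t).2 (C2_le_locV _ _ (Subring.subset_closure (Or.inr rfl)))
  have haev : ∀ q : Polynomial A, ((Polynomial.aeval (⟨t, htT⟩ : T) q : T) : W) =
      Polynomial.aeval t q := by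
    intro q
    exact (Polynomial.aeval_subalgebra_coe q T ⟨t, htT⟩).symm ▸ rfl
  have hgt1 : ‖Polynomial.aeval t P.g‖ = 1 := by
    have h1 : Polynomial.aeval t P.g = ψ (Polynomial.aeval P.X P.g) := by
      rw [ht, Polynomial.aeval_algHom_apply]
    obtain ⟨y, hy⟩ := (StandardEtalePair.hasMap_X (P := P)).2.exists_right_inv
    have h2 : ψ (Polynomial.aeval P.X P.g) * ψ y = 1 := by rw [← map_mul, hy, map_one]
    have h3 := hψ1 (Polynomial.aeval P.X P.g)
    have h4 := hψ1 y
    have h5 : ‖ψ (Polynomial.aeval P.X P.g)‖ * ‖ψ y‖ = 1 := by rw [← norm_mul, h2, norm_one]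
    rw [h1]
    refine le_antisymm h3 ?_
    calc (1 : ℝ) = ‖ψ (Polynomial.aeval P.X P.g)‖ * ‖ψ y‖ := h5.symm
      _ ≤ ‖ψ (Polynomial.aeval P.X P.g)‖ * 1 := mul_le_mul_of_nonneg_left h4 (norm_nonneg _)
      _ = _ := mul_one _
  have hmapT : P.HasMap (⟨t, htT⟩ : T) := by
    constructor
    · apply Subtype.ext
      rw [haev, htm.1]
      rfl
    · have hgT : Polynomial.aeval t P.g ∈ T := by
        rw [← haev]
        exact (Polynomial.aeval (⟨t, htT⟩ : T) P.g).2
      have hinv : (Polynomial.aeval t P.g)⁻¹ ∈ T := by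
        rw [hTm] at hgT ⊢
        exact C3.inv_mem_loc _ _ hgT ((gamA_val _).2 hgt1)
      have hne : Polynomial.aeval t P.g ≠ 0 := by
        intro h0
        rw [h0, norm_zero] at hgt1
        exact zero_ne_one hgt1
      refine IsUnit.of_mul_eq_one (⟨(Polynomial.aeval t P.g)⁻¹, hinv⟩ : T) ?_
      apply Subtype.ext
      show ((Polynomial.aeval (⟨t, htT⟩ : T) P.g : T) : W) * (Polynomial.aeval t P.g)⁻¹ = 1
      rw [haev]
      exact mul_inv_cancel₀ hne
  have hψT : ∀ x, ψ x ∈ T := by
    have h1 : ψ = T.val.comp (P.lift (⟨t, htT⟩ : T) hmapT) := by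
      apply StandardEtalePair.hom_ext
      rw [AlgHom.comp_apply, StandardEtalePair.lift_X, ← ht]
      rfl
    intro x
    rw [h1]
    exact (P.lift (⟨t, htT⟩ : T) hmapT x).2
  have hST : ∀ s ∈ S, s ∈ T := by
    intro s hs
    obtain ⟨x, hx⟩ := hφ (algebraMap S (Localization.Away g0) ⟨s, hs⟩)
    have h1 : ψ x = s := by rw [hψ, hx, hLs]
    rw [← h1]
    exact hψT x
  have htS : t ∈ locV (ball W) S.toSubring := by rw [ht]; exact hψS _
  refine ⟨t, htS, P.f.map (algebraMap A W), ?_, P.monic_f.map _, ?_, ?_, ?_⟩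
  · intro j
    rw [Polynomial.coeff_map]
    exact (P.f.coeff j).2
  · rw [Polynomial.eval_map_algebraMap]
    exact htm.1
  · rw [Polynomial.derivative_map, Polynomial.eval_map_algebraMap]
    obtain ⟨p₁, p₂, n, e⟩ := P.cond
    have e1 := congrArg (Polynomial.aeval t) e
    rw [map_add, map_mul, map_mul, htm.1, zero_mul, add_zero, map_pow] at e1
    have hle : ∀ q : Polynomial A, ‖Polynomial.aeval t q‖ ≤ 1 := by
      intro q
      have h1 : Polynomial.aeval t q = ψ (Polynomial.aeval P.X q) := by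
        rw [ht, Polynomial.aeval_algHom_apply]
      rw [h1]
      exact hψ1 _
    have e2 : ‖Polynomial.aeval t (Polynomial.derivative P.f)‖ * ‖Polynomial.aeval t p₁‖ = 1 := by
      rw [← norm_mul, e1, norm_pow, hgt1, one_pow]
    refine le_antisymm (hle _) ?_
    calc (1 : ℝ) = _ := e2.symm
      _ ≤ ‖Polynomial.aeval t (Polynomial.derivative P.f)‖ * 1 :=
        mul_le_mul_of_nonneg_left (hle _) (norm_nonneg _)
      _ = _ := mul_one _
  · apply le_antisymm
    · have h1 : S.toSubring ≤ locV (ball W) (Subring.closure ((A : Set W) ∪ {t})) := by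
        intro s hs
        exact (hTm s).1 (hST s hs)
      calc locV (ball W) S.toSubring
          ≤ locV (ball W) (locV (ball W) (Subring.closure ((A : Set W) ∪ {t}))) :=
            C2_locV_mono _ h1
        _ = _ := C2_locV_locV _ _
    · have h1 : Subring.closure ((A : Set W) ∪ {t}) ≤ locV (ball W) S.toSubring := by
        rw [Subring.closure_le]
        rintro z (hz | hz)
        · exact C2_le_locV _ _ (S.algebraMap_mem ⟨z, hz⟩)
        · rw [Set.mem_singleton_iff.1 hz]
          exact htS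
      calc locV (ball W) (Subring.closure ((A : Set W) ∪ {t}))
          ≤ locV (ball W) (locV (ball W) S.toSubring) := C2_locV_mono _ h1
        _ = _ := C2_locV_locV _ _

open IsLocalRing in
private theorem gamA_sep {R T : Type} [CommRing R] [CommRing T] [Algebra R T] [IsLocalRing R]
    [IsLocalRing T] [IsLocalHom (algebraMap R T)]
    (h : ∀ z : T, ∃ q : Polynomial R, q.Monic ∧ Polynomial.aeval z q ∈ maximalIdeal T ∧
      Polynomial.aeval z (Polynomial.derivative q) ∉ maximalIdeal T) :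
    Algebra.IsSeparable (ResidueField R) (ResidueField T) := by
  constructor
  intro x
  obtain ⟨z, rfl⟩ := residue_surjective x
  obtain ⟨q, hq, h1, h2⟩ := h z
  have hev : ∀ q : Polynomial R, Polynomial.aeval (residue T z) (q.map (residue R)) =
      residue T (Polynomial.aeval z q) := by
    intro q
    rw [Polynomial.aeval_def, Polynomial.eval₂_map, Polynomial.aeval_def, Polynomial.hom_eval₂]
    rfl
  have h3 : Polynomial.aeval (residue T z) (q.map (residue R)) = 0 := by
    rw [hev, residue_eq_zero_iff]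
    exact h1
  have h4 : Polynomial.aeval (residue T z) (Polynomial.derivative (q.map (residue R))) ≠ 0 := by
    rw [Polynomial.derivative_map, hev, Ne, residue_eq_zero_iff]
    exact h2
  have hint : IsIntegral (ResidueField R) (residue T z) := ⟨q.map (residue R), hq.map _, by
    rw [← Polynomial.aeval_def]; exact h3⟩
  obtain ⟨q', hq'⟩ := minpoly.dvd _ _ h3
  rw [hq', Polynomial.derivative_mul, map_add, map_mul, map_mul, minpoly.aeval, zero_mul,
    add_zero] at h4
  show (minpoly (ResidueField R) (residue T z)).Separable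
  rw [Polynomial.separable_iff_derivative_ne_zero (minpoly.irreducible hint)]
  intro h0
  rw [h0, map_zero, zero_mul] at h4
  exact h4 rfl

open IsLocalRing in
private theorem gamA_unr {W : Type} [NormedField W] [IsUltrametricDist W] (A B : Subring W)
    (hAb : A ≤ (ball W).toSubring) (hAl : locV (ball W) A = A)
    (S : Subalgebra A W) (hSb : ∀ s ∈ S, ‖s‖ ≤ 1) (hSf : S.FG)
    (hB : B = locV (ball W) S.toSubring)
    (hmax : ∀ z ∈ B, ‖z‖ < 1 → z ∈ Submodule.span B {a : W | a ∈ A ∧ ‖a‖ < 1})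
    (hres : ∀ z ∈ B, ∃ h : Polynomial W, (∀ j, h.coeff j ∈ A) ∧ h.Monic ∧ ‖h.eval z‖ < 1 ∧
      ‖h.derivative.eval z‖ = 1)
    (Q : Ideal S) [Q.IsPrime] (hQ : ∀ s : S, s ∈ Q ↔ ‖(s : W)‖ < 1) :
    Algebra.IsUnramifiedAt A Q := by
  classical
  have hSle : S.toSubring ≤ (ball W).toSubring := fun s hs => hSb s hs
  have hBb : B ≤ (ball W).toSubring := by rw [hB]; exact locV_le _ hSle
  have hBl : locV (ball W) B = B := by rw [hB]; exact C2_locV_locV _ _
  have hlA : IsLocalRing A := by
    have h := isLocalRing_locV (ball W) hAb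
    rwa [hAl] at h
  have hlB : IsLocalRing B := by
    have h := isLocalRing_locV (ball W) hBb
    rwa [hBl] at h
  have hDA : Dom A.subtype := dom_subtype A hAb hAl
  have hDB : Dom B.subtype := dom_subtype B hBb hBl
  have hSB : ∀ s ∈ S, s ∈ B := by
    intro s hs
    rw [hB]
    exact C2_le_locV _ _ hs
  have hAB : A ≤ B := fun a ha => hSB a (S.algebraMap_mem ⟨a, ha⟩)
  let _ : Algebra A B := (Subring.inclusion hAB).toAlgebra
  let iS : S →+* B :=
    { toFun := fun s => ⟨s, hSB s s.2⟩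
      map_one' := rfl
      map_mul' := fun _ _ => rfl
      map_zero' := rfl
      map_add' := fun _ _ => rfl }
  let _ : Algebra S B := iS.toAlgebra
  have hst : IsScalarTower A S B := IsScalarTower.of_algebraMap_eq (fun _ => rfl)
  have hcoe : ∀ s : S, ((algebraMap S B s : B) : W) = s := fun _ => rfl
  have hQ1 : ∀ s : S, s ∈ Q.primeCompl ↔ ‖(s : W)‖ = 1 := by
    intro s
    rw [Ideal.mem_primeCompl_iff, hQ]
    constructor
    · intro h
      exact le_antisymm (hSb s s.2) (not_lt.1 h)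
    · intro h h'
      rw [h] at h'
      exact lt_irrefl _ h'
  have hloc : IsLocalization Q.primeCompl B :=
    { map_units := by
        rintro ⟨s, hs⟩
        have hs1 : ‖(s : W)‖ = 1 := (hQ1 s).1 hs
        have hs0 : (s : W) ≠ 0 := by
          intro h0
          rw [h0, norm_zero] at hs1
          exact zero_ne_one hs1
        have hmem : (s : W)⁻¹ ∈ B := by
          rw [hB]
          exact ⟨1, one_mem _, s, s.2, (gamA_val _).2 hs1, inv_mul_cancel₀ hs0⟩
        exact IsUnit.of_mul_eq_one (⟨(s : W)⁻¹, hmem⟩ : B) (Subtype.ext (mul_inv_cancel₀ hs0))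
      surj := by
        rintro ⟨z, hz⟩
        have hz' := hz
        rw [hB] at hz'
        obtain ⟨a, ha, b, hb, hb1, hab⟩ := hz'
        exact ⟨(⟨a, ha⟩, ⟨⟨b, hb⟩, (hQ1 _).2 ((gamA_val _).1 hb1)⟩), Subtype.ext hab⟩
      exists_of_eq := by
        intro x y hxy
        refine ⟨1, ?_⟩
        have h1 : (x : W) = y := congrArg (fun w : B => (w : W)) hxy
        rw [Subtype.ext h1] }
  have hft : Algebra.FiniteType A S := S.fg_iff_finiteType.1 hSf
  have he1 : Algebra.EssFiniteType S B := Algebra.EssFiniteType.of_isLocalization B Q.primeCompl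
  have he2 : Algebra.EssFiniteType A B := Algebra.EssFiniteType.comp A S B
  have hmA : ∀ a : A, a ∈ maximalIdeal A ↔ ‖(a : W)‖ < 1 := fun a => (hDA a).2
  have hmB : ∀ b : B, b ∈ maximalIdeal B ↔ ‖(b : W)‖ < 1 := fun b => (hDB b).2
  have hlh : IsLocalHom (algebraMap A B) := by
    constructor
    intro a ha
    by_contra hna
    have h1 : a ∈ maximalIdeal A := (mem_maximalIdeal a).2 hna
    have h2 : algebraMap A B a ∈ maximalIdeal B := (hmB _).2 ((hmA a).1 h1)
    exact (mem_maximalIdeal _).1 h2 ha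
  have hmm : (maximalIdeal A).map (algebraMap A B) = maximalIdeal B := by
    apply le_antisymm
    · rw [Ideal.map_le_iff_le_comap]
      intro a ha
      exact (hmB _).2 ((hmA a).1 ha)
    · have key : ∀ z ∈ Submodule.span B {a : W | a ∈ A ∧ ‖a‖ < 1},
          ∃ hz : z ∈ B, (⟨z, hz⟩ : B) ∈ (maximalIdeal A).map (algebraMap A B) := by
        intro z hz
        induction hz using Submodule.span_induction with
        | mem x hx =>
          refine ⟨hAB hx.1, ?_⟩
          exact Ideal.mem_map_of_mem (algebraMap A B) (x := ⟨x, hx.1⟩) ((hmA _).2 hx.2)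
        | zero => exact ⟨zero_mem _, zero_mem _⟩
        | add x y _ _ hx hy =>
          obtain ⟨hx1, hx2⟩ := hx
          obtain ⟨hy1, hy2⟩ := hy
          exact ⟨add_mem hx1 hy1, add_mem hx2 hy2⟩
        | smul b x _ hx =>
          obtain ⟨hx1, hx2⟩ := hx
          exact ⟨mul_mem b.2 hx1, Ideal.mul_mem_left _ b hx2⟩
      rintro ⟨z, hz⟩ hzm
      obtain ⟨_, h2⟩ := key z (hmax z hz ((hmB _).1 hzm))
      exact h2
  have hsep : Algebra.IsSeparable (ResidueField A) (ResidueField B) := by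
    apply gamA_sep
    rintro ⟨z, hz⟩
    obtain ⟨h, hh1, hh2, hh3, hh4⟩ := hres z hz
    obtain ⟨q, hq⟩ : ∃ q : Polynomial A, q.map (algebraMap A W) = h := by
      rw [← Polynomial.mem_lifts, Polynomial.lifts_iff_coeff_lifts]
      intro n
      exact ⟨⟨h.coeff n, hh1 n⟩, rfl⟩
    have hev : ∀ q : Polynomial A, ((Polynomial.aeval (⟨z, hz⟩ : B) q : B) : W) =
        (q.map (algebraMap A W)).eval z := by
      intro q
      rw [Polynomial.eval_map, Polynomial.aeval_def]
      exact Polynomial.hom_eval₂ q (algebraMap A B) B.subtype ⟨z, hz⟩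
    refine ⟨q, ?_, ?_, ?_⟩
    · apply Polynomial.monic_of_injective (f := algebraMap A W) Subtype.val_injective
      rw [hq]
      exact hh2
    · rw [hmB, hev, hq]
      exact hh3
    · rw [hmB, hev, ← Polynomial.derivative_map, hq, hh4]
      exact lt_irrefl _
  have hfu : Algebra.FormallyUnramified A B := Algebra.FormallyUnramified.of_map_maximalIdeal hmm
  exact Algebra.FormallyUnramified.of_equiv
    ((IsLocalization.algEquiv Q.primeCompl B (Localization.AtPrime Q)).restrictScalars A)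

/-- See the header. -/
theorem gamma_t {W : Type} [NormedField W] [IsUltrametricDist W] (A B : Subring W)
    (hAb : A ≤ (ball W).toSubring) (hAl : locV (ball W) A = A) (hAn : IsNoetherianRing A)
    (G : Finset W) (hG : ∀ g ∈ G, ‖g‖ ≤ 1)
    (hB : B = locV (ball W) (Subring.closure ((A : Set W) ∪ (G : Set W))))
    (hmax : ∀ z ∈ B, ‖z‖ < 1 → z ∈ Submodule.span B {a : W | a ∈ A ∧ ‖a‖ < 1})
    (hres : ∀ z ∈ B, ∃ h : Polynomial W, (∀ j, h.coeff j ∈ A) ∧ h.Monic ∧ ‖h.eval z‖ < 1 ∧
      ‖h.derivative.eval z‖ = 1) :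
    ∃ t ∈ B, ∃ f : Polynomial W, (∀ j, f.coeff j ∈ A) ∧ f.Monic ∧ f.eval t = 0 ∧
      ‖f.derivative.eval t‖ = 1 ∧
      B = locV (ball W) (Subring.closure ((A : Set W) ∪ {t})) := by
  classical
  obtain ⟨S, hS⟩ : ∃ S : Subalgebra A W, S = Algebra.adjoin A (G : Set W) := ⟨_, rfl⟩
  have hSr : S.toSubring = Subring.closure ((A : Set W) ∪ (G : Set W)) := by
    rw [hS, Algebra.adjoin_eq_ring_closure]
    congr 2
    ext z
    constructor
    · rintro ⟨a, rfl⟩
      exact a.2
    · intro hz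
      exact ⟨⟨z, hz⟩, rfl⟩
  have hSb : ∀ s ∈ S, ‖s‖ ≤ 1 := by
    intro s hs
    have h1 : s ∈ S.toSubring := hs
    rw [hSr] at h1
    exact closure_le_ball A hAb (G : Set W) (fun z hz => hG z hz) h1
  have hSf : S.FG := by
    rw [hS]
    exact Subalgebra.fg_adjoin_finset G
  rw [← hSr] at hB
  obtain ⟨Q, hQ⟩ : ∃ Q : Ideal S, ∀ s : S, s ∈ Q ↔ ‖(s : W)‖ < 1 := by
    refine ⟨{ carrier := {s | ‖(s : W)‖ < 1}
              add_mem' := ?_
              zero_mem' := ?_
              smul_mem' := ?_ }, fun s => Iff.rfl⟩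
    · intro a b ha hb
      exact lt_of_le_of_lt (IsUltrametricDist.norm_add_le_max (a : W) (b : W)) (max_lt ha hb)
    · show ‖(0 : W)‖ < 1
      rw [norm_zero]
      exact zero_lt_one
    · intro c x hx
      show ‖(c : W) * (x : W)‖ < 1
      rw [norm_mul]
      calc ‖(c : W)‖ * ‖(x : W)‖ ≤ 1 * ‖(x : W)‖ :=
            mul_le_mul_of_nonneg_right (hSb c c.2) (norm_nonneg _)
        _ = ‖(x : W)‖ := one_mul _
        _ < 1 := hx
  have hQp : Q.IsPrime := by
    constructor
    · intro h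
      have h1 : (1 : S) ∈ Q := by rw [h]; trivial
      rw [hQ] at h1
      have h2 : ‖(1 : W)‖ < 1 := h1
      rw [norm_one] at h2
      exact lt_irrefl _ h2
    · intro a b hab
      rw [hQ] at hab ⊢
      rw [hQ]
      by_contra hcon
      rw [not_or, not_lt, not_lt] at hcon
      have h1 : ‖(a : W)‖ * ‖(b : W)‖ < 1 := by
        rw [← norm_mul]
        exact hab
      have h2 : (1 : ℝ) * 1 ≤ ‖(a : W)‖ * ‖(b : W)‖ :=
        mul_le_mul hcon.1 hcon.2 zero_le_one (norm_nonneg _)
      linarith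
  have hun := gamA_unr A B hAb hAl S hSb hSf hB hmax hres Q hQ
  obtain ⟨t, ht, f, h1, h2, h3, h4, h5⟩ := gamA_end A hAb S hSb hSf Q hQ hun
  rw [hB]
  exact ⟨t, ht, f, h1, h2, h3, h4, h5⟩

end Pool.Agent.Lib.TU
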