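import Pool.Agent.Lib.TU.GamA
import Pool.Agent.Lib.MP_3029eb_ag.AbhBase
import Pool.Agent.Lib.MP_3029eb_ag.Comp3

/-!
# Module GamB: étale extensions of integrally closed local rings inside `W`

`F` a subfield of `W`, `A ⊆ F` integrally closed in its fraction field `F` (predicate `ICl A F`),
`t` a root of the monic `f ∈ A[T]` with `‖f'(t)‖ = 1`, `B = locV (A[t])`.

Minimal polynomial: the minimal polynomial `f1` of `t` over `F` has coefficients in `A`
(`minpoly.isIntegrallyClosed_eq_field_fractions` or: its coefficients are integral over `A`),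
`f = f1 f2`, `f'(t) = f1'(t) f2(t)` and both factors have norm `≤ 1`, so `‖f1'(t)‖ = 1`.
`A[t]` is free over `A` with basis `1, t, .., t^(n-1)` (`n = deg f1`), and `F(t)` is free over `F` with
the same basis.
(1) `B ∩ F = A`: let `z = a / b ∈ F`, `a, b ∈ A[t]`, `‖b‖ = 1`.  The ideal of the `b ∈ A[t]` with
`b z ∈ A[t]` contains an element of norm one.  `z = u / v`, `u, v ∈ A`: `b u = v a` in the free module
`A[t]`; compare coefficients: `b_i u = v a_i`.  If some coefficient `b_i` of `b` has norm one then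
`z = a_i / b_i ∈ A`.  Otherwise all `b_i ∈ m_A` and `‖b‖ < 1`, contradiction.
(2) `(∑ β_i B) ∩ A = ∑ β_i A` for a finite family `β` in `A`: `z = ∑ β_i b_i`, common denominator
`b ∈ A[t]`, `‖b‖ = 1`: `b z = ∑ β_i b'_i`, `b'_i ∈ A[t]`; some coefficient `b_j` of `b` has norm one, the
`j`-th coefficient gives `b_j z = ∑ β_i b'_(i,j)`.
(3) `B` is integrally closed in `F(t)`: let `z ∈ F(t)` be integral over `B`.  Multiply by an element
`d ∈ A[t]` of norm one such that `d z` is integral over `A[t]`, so over `A`.  `f1'(t) * d z ∈ A[t]`: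
standard (Euler's formula, Mathlib: `traceForm_dualSubmodule_adjoin`,
`Mathlib.RingTheory.DedekindDomain.Different`, valid for integrally closed `A`; `F(t) / F` is
separable as `f1'(t) ≠ 0`).  So `z = (f1'(t) d z) / (f1'(t) d) ∈ locV A[t] = B`.
-/

namespace Pool.Agent.Lib.TU

open Pool.Agent.Lib.MP_3029eb_ag Pool.Agent.Lib.MP_3029eb_ag.Abh Pool.Agent.Lib.TDO

/-- `A` is a subring of the field `F`, `F` is its field of fractions, and `A` is integrally closed
in `F`. -/
structure ICl {W : Type} [Field W] (A : Subring W) (F : Subfield W) : Prop where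
  le : ∀ a ∈ A, a ∈ F
  frac : ∀ z ∈ F, ∃ a ∈ A, ∃ b ∈ A, b ≠ 0 ∧ z * b = a
  int : ∀ z ∈ F, ∀ f : Polynomial W, f.Monic → (∀ j, f.coeff j ∈ A) → f.eval z = 0 → z ∈ A

private theorem gamB_frac {W : Type} [Field W] {A : Subring W} {F : Subfield W} (hI : ICl A F)
    [Algebra A F] (hcoe : ∀ a : A, ((algebraMap A F a : F) : W) = a) : IsFractionRing A F := by
  have hinj : Function.Injective (algebraMap A F) := by
    intro x y hxy
    apply Subtype.ext
    rw [← hcoe x, ← hcoe y, hxy]
  refine { map_units := ?_, surj := ?_, exists_of_eq := ?_ }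
  · rintro ⟨a, ha⟩
    apply (isUnit_iff_ne_zero).2
    intro h0
    have h1 : a = 0 := hinj (by rw [map_zero]; exact h0)
    exact nonZeroDivisors.ne_zero ha h1
  · rintro ⟨z, hz⟩
    obtain ⟨a, ha, b, hb, hb0, hab⟩ := hI.frac z hz
    refine ⟨(⟨a, ha⟩, ⟨⟨b, hb⟩, mem_nonZeroDivisors_of_ne_zero ?_⟩), Subtype.ext ?_⟩
    · intro h0
      exact hb0 (congrArg (fun w : A => (w : W)) h0)
    · show z * ((algebraMap A F ⟨b, hb⟩ : F) : W) = ((algebraMap A F ⟨a, ha⟩ : F) : W)
      rw [hcoe, hcoe]
      exact hab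
  · intro x y hxy
    exact ⟨1, by rw [hinj hxy]⟩

/-- the inclusion as a homomorphism -/
private def gamB_i {W : Type} [Field W] {A : Subring W} {F : Subfield W} (hI : ICl A F) : A →+* F :=
  { toFun := fun a => ⟨a, hI.le a a.2⟩
    map_one' := rfl
    map_mul' := fun _ _ => rfl
    map_zero' := rfl
    map_add' := fun _ _ => rfl }

private theorem gamB_icl {W : Type} [Field W] {A : Subring W} {F : Subfield W} (hI : ICl A F) :
    IsIntegrallyClosed A := by
  let _ : Algebra A F := (gamB_i hI).toAlgebra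
  have hfr : IsFractionRing A F := gamB_frac hI (fun _ => rfl)
  rw [isIntegrallyClosed_iff (K := F)]
  rintro ⟨z, hz⟩ ⟨f, hfm, hf⟩
  have h1 : (f.map (algebraMap A W)).eval z = 0 := by
    rw [Polynomial.eval_map]
    have h2 := congrArg (fun w : F => (w : W)) hf
    have h3 : ((Polynomial.eval₂ (algebraMap A F) (⟨z, hz⟩ : F) f : F) : W) =
        Polynomial.eval₂ (algebraMap A W) z f :=
      Polynomial.hom_eval₂ f (algebraMap A F) F.subtype ⟨z, hz⟩
    rw [← h3]
    exact h2
  have h4 := hI.int z hz (f.map (algebraMap A W)) (hfm.map _) (by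
    intro j
    rw [Polynomial.coeff_map]
    exact (f.coeff j).2) h1
  exact ⟨⟨z, h4⟩, rfl⟩

private theorem gamB_euler {A K W : Type} [CommRing A] [Field K] [Field W] [Algebra A K]
    [Algebra K W] [Algebra A W] [IsScalarTower A K W] [IsDomain A] [IsFractionRing A K]
    [IsIntegrallyClosed A] (t : W) (hint : IsIntegral A t)
    (hd : Polynomial.aeval t (Polynomial.derivative (minpoly A t)) ≠ 0) (z : W)
    (hz : z ∈ IntermediateField.adjoin K {t}) (hzi : IsIntegral A z) :
    Polynomial.aeval t (Polynomial.derivative (minpoly A t)) * z ∈ Algebra.adjoin A ({t} : Set W) := by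
  have hKt : IsIntegral K t := hint.tower_top
  have hmin : minpoly K t = (minpoly A t).map (algebraMap A K) :=
    minpoly.isIntegrallyClosed_eq_field_fractions' K hint
  obtain ⟨E, hE⟩ : ∃ E : IntermediateField K W, E = IntermediateField.adjoin K {t} := ⟨_, rfl⟩
  have htE : t ∈ E := by rw [hE]; exact IntermediateField.mem_adjoin_simple_self K t
  rw [← hE] at hz
  have hfd : FiniteDimensional K E := by
    rw [hE]; exact IntermediateField.adjoin.finiteDimensional hKt
  have hsep : IsSeparable K t := by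
    show (minpoly K t).Separable
    rw [Polynomial.separable_iff_derivative_ne_zero (minpoly.irreducible hKt), hmin,
      Polynomial.derivative_map]
    intro h0
    apply hd
    have h1 := congrArg (Polynomial.aeval t) h0
    rwa [Polynomial.aeval_map_algebraMap, map_zero] at h1
  have hse : Algebra.IsSeparable K E := by
    rw [hE]; exact (IntermediateField.isSeparable_adjoin_simple_iff_isSeparable K W).2 hsep
  have hx : Algebra.adjoin K {(⟨t, htE⟩ : E)} = ⊤ := by
    subst hE
    have h1 := (IntermediateField.adjoin.powerBasis hKt).adjoin_gen_eq_top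
    exact h1
  let ι : E →ₐ[A] W := E.val.restrictScalars A
  have hι : Function.Injective ι := Subtype.val_injective
  have hAe : IsIntegral A (⟨t, htE⟩ : E) := (isIntegral_algHom_iff ι hι).1 hint
  have hyi : IsIntegral A (⟨z, hz⟩ : E) := (isIntegral_algHom_iff ι hι).1 hzi
  have hdual : (⟨z, hz⟩ : E) ∈ (Algebra.traceForm K E).dualSubmodule
      (Subalgebra.toSubmodule (Algebra.adjoin A {(⟨t, htE⟩ : E)})) := by
    rw [LinearMap.BilinForm.mem_dualSubmodule]
    intro s hs
    rw [Algebra.traceForm_apply]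
    have hai : Algebra.IsIntegral A (Algebra.adjoin A {(⟨t, htE⟩ : E)}) :=
      Algebra.IsIntegral.adjoin (by
        intro x hx
        rw [Set.mem_singleton_iff.1 hx]
        exact hAe)
    have hsi : IsIntegral A s := by
      have h1 := hai.isIntegral ⟨s, hs⟩
      exact h1.map (Algebra.adjoin A {(⟨t, htE⟩ : E)}).val
    have h2 : IsIntegral A (Algebra.trace K E (⟨z, hz⟩ * s)) :=
      Algebra.isIntegral_trace (hyi.mul hsi)
    obtain ⟨a, ha⟩ := IsIntegrallyClosed.isIntegral_iff.1 h2
    rw [← ha]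
    exact Submodule.mem_one.2 ⟨a, rfl⟩
  rw [traceForm_dualSubmodule_adjoin A K hx hAe, Submodule.mem_smul_pointwise_iff_exists] at hdual
  obtain ⟨b, hb, hby⟩ := hdual
  have hbW : ι b ∈ Algebra.adjoin A ({t} : Set W) := by
    have h1 : ι b ∈ (Algebra.adjoin A {(⟨t, htE⟩ : E)}).map ι := ⟨b, hb, rfl⟩
    rw [AlgHom.map_adjoin_singleton] at h1
    exact h1
  have hdE : ((Polynomial.aeval (⟨t, htE⟩ : E) (Polynomial.derivative (minpoly K (⟨t, htE⟩ : E))) : E) : W) =
      Polynomial.aeval t (Polynomial.derivative (minpoly A t)) := by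
    have h1 : minpoly K (⟨t, htE⟩ : E) = minpoly K t :=
      (minpoly.algHom_eq E.val E.val.injective ⟨t, htE⟩).symm
    rw [h1, hmin, Polynomial.derivative_map]
    have h2 := Polynomial.aeval_algHom_apply ι (⟨t, htE⟩ : E) (Polynomial.derivative (minpoly A t))
    rw [Polynomial.aeval_map_algebraMap]
    exact h2.symm
  have hd0 : (Polynomial.aeval (⟨t, htE⟩ : E) (Polynomial.derivative (minpoly K (⟨t, htE⟩ : E))) : E) ≠ 0 := by
    intro h0
    apply hd
    rw [← hdE, h0]
    rfl
  have hfin : (Polynomial.aeval (⟨t, htE⟩ : E) (Polynomial.derivative (minpoly K (⟨t, htE⟩ : E))) : E) *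
      ⟨z, hz⟩ = b := by
    rw [← hby, smul_eq_mul, ← mul_assoc, mul_inv_cancel₀ hd0, one_mul]
  have h3 := congrArg (fun w : E => (w : W)) hfin
  have h4 : Polynomial.aeval t (Polynomial.derivative (minpoly A t)) * z = ι b := by
    rw [← hdE]
    exact h3
  rw [h4]
  exact hbW

/-- the minimal polynomial of `t` over `A` -/
private theorem gamB_min {W : Type} [NormedField W] [IsUltrametricDist W] (A : Subring W)
    (hic : IsIntegrallyClosed A) (hAb : A ≤ (ball W).toSubring)
    (t : W) (ht : ‖t‖ ≤ 1) (f : Polynomial W) (hf : ∀ j, f.coeff j ∈ A) (hfm : f.Monic)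
    (hft : f.eval t = 0) (hf' : ‖f.derivative.eval t‖ = 1) :
    IsIntegral A t ∧ ‖Polynomial.aeval t (Polynomial.derivative (minpoly A t))‖ = 1 := by
  obtain ⟨q, hq⟩ : ∃ q : Polynomial A, q.map (algebraMap A W) = f := by
    rw [← Polynomial.mem_lifts, Polynomial.lifts_iff_coeff_lifts]
    intro n
    exact ⟨⟨f.coeff n, hf n⟩, rfl⟩
  have hqm : q.Monic := by
    apply Polynomial.monic_of_injective (f := algebraMap A W) Subtype.val_injective
    rw [hq]
    exact hfm
  have hq0 : Polynomial.aeval t q = 0 := by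
    rw [← Polynomial.eval_map_algebraMap, hq]
    exact hft
  have hint : IsIntegral A t := ⟨q, hqm, by rw [← Polynomial.aeval_def]; exact hq0⟩
  refine ⟨hint, ?_⟩
  have hle : ∀ r : Polynomial A, ‖Polynomial.aeval t r‖ ≤ 1 := by
    intro r
    rw [Polynomial.aeval_eq_sum_range]
    apply IsUltrametricDist.norm_sum_le_of_forall_le_of_nonneg zero_le_one
    intro j _
    rw [Algebra.smul_def, norm_mul, norm_pow]
    have h1 : ‖(algebraMap A W (r.coeff j))‖ ≤ 1 := hAb (r.coeff j).2
    calc ‖(algebraMap A W (r.coeff j))‖ * ‖t‖ ^ j ≤ 1 * 1 :=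
          mul_le_mul h1 (pow_le_one₀ (norm_nonneg _) ht) (by positivity) zero_le_one
      _ = 1 := one_mul _
  obtain ⟨g, hg⟩ := minpoly.isIntegrallyClosed_dvd hint hq0
  have h1 : Polynomial.aeval t (Polynomial.derivative q) =
      Polynomial.aeval t (Polynomial.derivative (minpoly A t)) * Polynomial.aeval t g := by
    conv_lhs => rw [hg]
    rw [Polynomial.derivative_mul, map_add, map_mul, map_mul, minpoly.aeval, zero_mul, add_zero]
  have h2 : ‖Polynomial.aeval t (Polynomial.derivative (minpoly A t))‖ *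
      ‖Polynomial.aeval t g‖ = 1 := by
    rw [← norm_mul, ← h1, ← Polynomial.eval_map_algebraMap, ← Polynomial.derivative_map, hq, hf']
  refine le_antisymm (hle _) ?_
  calc (1 : ℝ) = _ := h2.symm
    _ ≤ ‖Polynomial.aeval t (Polynomial.derivative (minpoly A t))‖ * 1 :=
      mul_le_mul_of_nonneg_left (hle _) (norm_nonneg _)
    _ = _ := mul_one _

private theorem gamB_clos {W : Type} [Field W] (A : Subring W) (t : W) :
    (Algebra.adjoin A ({t} : Set W)).toSubring = Subring.closure ((A : Set W) ∪ {t}) := by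
  rw [Algebra.adjoin_eq_ring_closure]
  congr 2
  ext z
  constructor
  · rintro ⟨a, rfl⟩
    exact a.2
  · intro hz
    exact ⟨⟨z, hz⟩, rfl⟩

private theorem gamB_rep {W : Type} [Field W] (A : Subring W) (t : W) (hint : IsIntegral A t)
    (z : W) (hz : z ∈ Subring.closure ((A : Set W) ∪ {t})) :
    ∃ r : Polynomial A, r.degree < (minpoly A t).degree ∧ Polynomial.aeval t r = z := by
  rw [← gamB_clos] at hz
  have h1 : z ∈ Algebra.adjoin A ({t} : Set W) := hz
  rw [Algebra.adjoin_singleton_eq_range_aeval] at h1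
  obtain ⟨q, hq⟩ := h1
  refine ⟨q %ₘ minpoly A t, Polynomial.degree_modByMonic_lt _ (minpoly.monic hint), ?_⟩
  rw [← hq]
  have h2 := Polynomial.modByMonic_add_div q (minpoly A t)
  have h3 := congrArg (Polynomial.aeval t) h2
  rw [map_add, map_mul, minpoly.aeval, zero_mul, add_zero] at h3
  exact h3

/-- See the header. -/
theorem gamma_desc {W : Type} [NormedField W] [IsUltrametricDist W] (A B : Subring W)
    (F : Subfield W) (hAb : A ≤ (ball W).toSubring) (hAl : locV (ball W) A = A) (hI : ICl A F)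
    (t : W) (ht : ‖t‖ ≤ 1) (f : Polynomial W) (hf : ∀ j, f.coeff j ∈ A) (hfm : f.Monic)
    (hft : f.eval t = 0) (hf' : ‖f.derivative.eval t‖ = 1)
    (hB : B = locV (ball W) (Subring.closure ((A : Set W) ∪ {t}))) :
    (∀ z ∈ B, z ∈ F → z ∈ A) ∧
    (∀ (n : ℕ) (β : Fin n → W), (∀ i, β i ∈ A) → ∀ z ∈ A,
      (∃ b : Fin n → W, (∀ i, b i ∈ B) ∧ z = ∑ i, b i * β i) →
      ∃ b : Fin n → W, (∀ i, b i ∈ A) ∧ z = ∑ i, b i * β i) := by
  classical
  have hic := gamB_icl hI
  obtain ⟨hint, -⟩ := gamB_min A hic hAb t ht f hf hfm hft hf'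
  -- the ring A[t]
  obtain ⟨R, hR⟩ : ∃ R : Subring W, R = Subring.closure ((A : Set W) ∪ {t}) := ⟨_, rfl⟩
  have hRb : R ≤ (ball W).toSubring := by
    rw [hR]
    exact closure_le_ball A hAb {t} (by
      intro z hz
      rw [Set.mem_singleton_iff.1 hz]
      exact ht)
  rw [← hR] at hB
  have hrep : ∀ z ∈ R, ∃ r : Polynomial A, r.degree < (minpoly A t).degree ∧
      Polynomial.aeval t r = z := by
    intro z hz
    rw [hR] at hz
    exact gamB_rep A t hint z hz
  have huniq : ∀ r : Polynomial A, r.degree < (minpoly A t).degree → Polynomial.aeval t r = 0 →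
      r = 0 := by
    intro r hr h0
    exact Polynomial.eq_zero_of_dvd_of_degree_lt (minpoly.isIntegrallyClosed_dvd hint h0) hr
  -- a coefficient of norm one
  have hone : ∀ r : Polynomial A, ‖Polynomial.aeval t r‖ = 1 → ∃ j, ‖((r.coeff j : A) : W)‖ = 1 := by
    intro r hr
    by_contra hcon
    have h1 : ∀ j, ‖((r.coeff j : A) : W)‖ < 1 := by
      intro j
      have h2 : ‖((r.coeff j : A) : W)‖ ≤ 1 := hAb (r.coeff j).2
      exact lt_of_le_of_ne h2 (fun h => hcon ⟨j, h⟩)
    have h3 : ‖Polynomial.aeval t r‖ < 1 := by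
      rw [Polynomial.aeval_eq_sum_range]
      obtain ⟨i, -, hi⟩ := IsUltrametricDist.exists_norm_finsetSum_le_of_nonempty
        (t := Finset.range (r.natDegree + 1)) (by simp) (fun j => r.coeff j • t ^ j)
      refine lt_of_le_of_lt hi ?_
      rw [Algebra.smul_def, norm_mul, norm_pow]
      have h4 : ‖(algebraMap A W (r.coeff i))‖ < 1 := h1 i
      calc ‖(algebraMap A W (r.coeff i))‖ * ‖t‖ ^ i ≤ ‖(algebraMap A W (r.coeff i))‖ * 1 :=
            mul_le_mul_of_nonneg_left (pow_le_one₀ (norm_nonneg _) ht) (norm_nonneg _)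
        _ < 1 := by rw [mul_one]; exact h4
    rw [hr] at h3
    exact lt_irrefl _ h3
  have h2 : ∀ (n : ℕ) (β : Fin n → W), (∀ i, β i ∈ A) → ∀ z ∈ A,
      (∃ b : Fin n → W, (∀ i, b i ∈ B) ∧ z = ∑ i, b i * β i) →
      ∃ b : Fin n → W, (∀ i, b i ∈ A) ∧ z = ∑ i, b i * β i := by
    rintro n β hβ z hz ⟨b, hb, hzb⟩
    have hb' : ∀ i, ∃ a ∈ R, ∃ d ∈ R, ‖d‖ = 1 ∧ b i * d = a := by
      intro i
      have h := hb i
      rw [hB] at h
      obtain ⟨a, ha, d, hd, hd1, h⟩ := h
      exact ⟨a, ha, d, hd, (ball_val_eq_one d).1 hd1, h⟩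
    choose a ha d hd hd1 had using hb'
    have hDR : ∏ i, d i ∈ R := prod_mem fun i _ => hd i
    have hD1 : ‖∏ i, d i‖ = 1 := by
      rw [norm_prod]
      exact Finset.prod_eq_one fun i _ => hd1 i
    have hDi : ∀ i, b i * ∏ i, d i ∈ R := by
      intro i
      rw [← Finset.mul_prod_erase _ _ (Finset.mem_univ i), ← mul_assoc, had]
      exact mul_mem (ha i) (prod_mem fun j _ => hd j)
    obtain ⟨rD, hrD, hrD'⟩ := hrep _ hDR
    have hex : ∀ i, ∃ r : Polynomial A, r.degree < (minpoly A t).degree ∧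
        Polynomial.aeval t r = b i * ∏ i, d i := fun i => hrep _ (hDi i)
    choose r hr hr' using hex
    have hmp : (minpoly A t) ≠ 0 := minpoly.ne_zero hint
    have hzero : Polynomial.C (⟨z, hz⟩ : A) * rD - ∑ i, Polynomial.C (⟨β i, hβ i⟩ : A) * r i = 0 := by
      apply huniq
      · have hC : ∀ (c : A) (q : Polynomial A), q.degree < (minpoly A t).degree →
            (Polynomial.C c * q).degree < (minpoly A t).degree := by
          intro c q hq
          rw [← Polynomial.smul_eq_C_mul]
          exact lt_of_le_of_lt (Polynomial.degree_smul_le c q) hq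
        refine lt_of_le_of_lt (Polynomial.degree_sub_le _ _) (max_lt (hC _ _ hrD) ?_)
        refine lt_of_le_of_lt (Polynomial.degree_sum_le _ _) ?_
        rw [Finset.sup_lt_iff (by rw [bot_lt_iff_ne_bot, Ne, Polynomial.degree_eq_bot]; exact hmp)]
        intro i _
        exact hC _ _ (hr i)
      · rw [map_sub, map_sum, map_mul, Polynomial.aeval_C, hrD']
        have h5 : ∀ i, Polynomial.aeval t (Polynomial.C (⟨β i, hβ i⟩ : A) * r i) =
            β i * (b i * ∏ i, d i) := by
          intro i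
          rw [map_mul, Polynomial.aeval_C, hr']
          rfl
        rw [Finset.sum_congr rfl fun i _ => h5 i]
        show z * (∏ i, d i) - _ = 0
        conv_lhs => rw [hzb, Finset.sum_mul]
        rw [← Finset.sum_sub_distrib]
        apply Finset.sum_eq_zero
        intro i _
        ring
    obtain ⟨j, hj⟩ := hone rD (by rw [hrD']; exact hD1)
    have hj0 : ((rD.coeff j : A) : W) ≠ 0 := by
      intro h0
      rw [h0, norm_zero] at hj
      exact zero_ne_one hj
    have hinv : ((rD.coeff j : A) : W)⁻¹ ∈ A := by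
      have h6 : ((rD.coeff j : A) : W) ∈ locV (ball W) A := by
        rw [hAl]; exact (rD.coeff j).2
      have h7 := C3.inv_mem_loc (ball W) A h6 ((ball_val_eq_one _).2 hj)
      rwa [hAl] at h7
    have hcoef : z * (rD.coeff j : A) = ∑ i, β i * ((r i).coeff j : A) := by
      have h6 := congrArg (fun q : Polynomial A => A.subtype (q.coeff j)) hzero
      simp only [Polynomial.coeff_sub, Polynomial.finsetSum_coeff, Polynomial.coeff_C_mul,
        Polynomial.coeff_zero, map_sub, map_mul, map_zero, map_sum] at h6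
      exact sub_eq_zero.1 h6
    refine ⟨fun i => ((r i).coeff j : A) * ((rD.coeff j : A) : W)⁻¹,
      fun i => mul_mem ((r i).coeff j).2 hinv, ?_⟩
    have h8 : z = (z * (rD.coeff j : A)) * ((rD.coeff j : A) : W)⁻¹ := by
      rw [mul_assoc, mul_inv_cancel₀ hj0, mul_one]
    rw [h8, hcoef, Finset.sum_mul]
    apply Finset.sum_congr rfl
    intro i _
    ring
  refine ⟨?_, h2⟩
  intro z hzB hzF
  obtain ⟨u, hu, v, hv, hv0, huv⟩ := hI.frac z hzF
  obtain ⟨b, hb, hb'⟩ := h2 1 (fun _ => v) (fun _ => hv) u hu ⟨fun _ => z, fun _ => hzB, by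
    rw [Finset.univ_unique, Finset.sum_singleton, huv]⟩
  rw [Finset.univ_unique, Finset.sum_singleton] at hb'
  have h3 : z = b default := by
    apply mul_right_cancel₀ hv0
    rw [huv, hb']
  rw [h3]
  exact hb _

/-- See the header, (3). -/
theorem gamma_icl {W : Type} [NormedField W] [IsUltrametricDist W] (A B : Subring W)
    (F : Subfield W) (hAb : A ≤ (ball W).toSubring) (hAl : locV (ball W) A = A) (hI : ICl A F)
    (t : W) (ht : ‖t‖ ≤ 1) (f : Polynomial W) (hf : ∀ j, f.coeff j ∈ A) (hfm : f.Monic)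
    (hft : f.eval t = 0) (hf' : ‖f.derivative.eval t‖ = 1)
    (hB : B = locV (ball W) (Subring.closure ((A : Set W) ∪ {t}))) :
    ICl B (Subfield.closure ((F : Set W) ∪ {t})) := by
  classical
  have hic := gamB_icl hI
  obtain ⟨hint, hd1⟩ := gamB_min A hic hAb t ht f hf hfm hft hf'
  obtain ⟨S, hS⟩ : ∃ S : Subalgebra A W, S = Algebra.adjoin A ({t} : Set W) := ⟨_, rfl⟩
  have hSr : S.toSubring = Subring.closure ((A : Set W) ∪ {t}) := by rw [hS]; exact gamB_clos A t
  have hSb : ∀ s ∈ S, ‖s‖ ≤ 1 := by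
    intro s hs
    have h1 : s ∈ S.toSubring := hs
    rw [hSr] at h1
    exact closure_le_ball A hAb {t} (by
      intro z hz
      rw [Set.mem_singleton_iff.1 hz]
      exact ht) h1
  rw [← hSr] at hB
  have hAS : ∀ a ∈ A, a ∈ S := fun a ha => S.algebraMap_mem ⟨a, ha⟩
  have htS : t ∈ S := by rw [hS]; exact Algebra.self_mem_adjoin_singleton A t
  have hSB : ∀ s ∈ S, s ∈ B := by
    intro s hs
    rw [hB]
    exact C2_le_locV _ _ hs
  obtain ⟨E, hE⟩ : ∃ E : Subfield W, E = Subfield.closure ((F : Set W) ∪ {t}) := ⟨_, rfl⟩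
  rw [← hE]
  have hFE : ∀ z ∈ F, z ∈ E := by
    intro z hz
    rw [hE]
    exact Subfield.subset_closure (Or.inl hz)
  have htE : t ∈ E := by
    rw [hE]
    exact Subfield.subset_closure (Or.inr rfl)
  have hSE : ∀ s ∈ S, s ∈ E := by
    intro s hs
    have h1 : s ∈ S.toSubring := hs
    rw [hSr] at h1
    have h2 : Subring.closure ((A : Set W) ∪ {t}) ≤ E.toSubring := by
      rw [Subring.closure_le]
      rintro z (hz | hz)
      · exact hFE z (hI.le z hz)
      · rw [Set.mem_singleton_iff.1 hz]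
        exact htE
    exact h2 h1
  have hne : ∀ z : W, ‖z‖ = 1 → z ≠ 0 := by
    rintro z hz rfl
    rw [norm_zero] at hz
    exact zero_ne_one hz
  refine ⟨?_, ?_, ?_⟩
  · intro b hb
    rw [hB] at hb
    obtain ⟨a, ha, d, hd, hd1, had⟩ := hb
    have hd0 := hne d ((ball_val_eq_one d).1 hd1)
    have h1 : b = a / d := by
      rw [eq_div_iff hd0]
      exact had
    rw [h1]
    exact div_mem (hSE a ha) (hSE d hd)
  · intro z hz
    have key : ∀ y ∈ Subring.closure ((F : Set W) ∪ {t}), ∃ v ∈ A, v ≠ 0 ∧ y * v ∈ S := by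
      intro y hy
      induction hy using Subring.closure_induction with
      | mem x hx =>
        rcases hx with hx | hx
        · obtain ⟨a, ha, b, hb, hb0, hab⟩ := hI.frac x hx
          exact ⟨b, hb, hb0, by rw [hab]; exact hAS a ha⟩
        · rw [Set.mem_singleton_iff.1 hx]
          exact ⟨1, one_mem _, one_ne_zero, by rw [mul_one]; exact htS⟩
      | zero => exact ⟨1, one_mem _, one_ne_zero, by rw [zero_mul]; exact zero_mem _⟩
      | one => exact ⟨1, one_mem _, one_ne_zero, by rw [one_mul]; exact one_mem _⟩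
      | add x y _ _ hx hy =>
        obtain ⟨v, hv, hv0, h1⟩ := hx
        obtain ⟨v', hv', hv0', h2⟩ := hy
        refine ⟨v * v', mul_mem hv hv', mul_ne_zero hv0 hv0', ?_⟩
        have h3 : (x + y) * (v * v') = (x * v) * v' + (y * v') * v := by ring
        rw [h3]
        exact add_mem (mul_mem h1 (hAS _ hv')) (mul_mem h2 (hAS _ hv))
      | mul x y _ _ hx hy =>
        obtain ⟨v, hv, hv0, h1⟩ := hx
        obtain ⟨v', hv', hv0', h2⟩ := hy
        refine ⟨v * v', mul_mem hv hv', mul_ne_zero hv0 hv0', ?_⟩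
        have h3 : (x * y) * (v * v') = (x * v) * (y * v') := by ring
        rw [h3]
        exact mul_mem h1 h2
      | neg x _ hx =>
        obtain ⟨v, hv, hv0, h1⟩ := hx
        refine ⟨v, hv, hv0, ?_⟩
        rw [neg_mul]
        exact neg_mem h1
    rw [hE, Subfield.mem_closure_iff] at hz
    obtain ⟨y1, hy1, y2, hy2, hyz⟩ := hz
    obtain ⟨v1, hv1, hv10, h1⟩ := key y1 hy1
    obtain ⟨v2, hv2, hv20, h2⟩ := key y2 hy2
    by_cases hy20 : y2 = 0
    · rw [hy20, div_zero] at hyz
      exact ⟨0, zero_mem _, 1, one_mem _, one_ne_zero, by rw [← hyz, zero_mul]⟩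
    · refine ⟨(y1 * v1) * v2, hSB _ (mul_mem h1 (hAS _ hv2)), (y2 * v2) * v1,
        hSB _ (mul_mem h2 (hAS _ hv1)), mul_ne_zero (mul_ne_zero hy20 hv20) hv10, ?_⟩
      rw [← hyz]
      field_simp
  · intro z hz g hgm hg hgz
    let iS : S →+* B :=
      { toFun := fun s => ⟨s, hSB s s.2⟩
        map_one' := rfl
        map_mul' := fun _ _ => rfl
        map_zero' := rfl
        map_add' := fun _ _ => rfl }
    let _ : Algebra S B := iS.toAlgebra
    have hst : IsScalarTower S B W := IsScalarTower.of_algebraMap_eq (fun _ => rfl)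
    obtain ⟨M, hM⟩ : ∃ M : Submonoid S, ∀ s : S, s ∈ M ↔ ‖(s : W)‖ = 1 := by
      refine ⟨{ carrier := {s | ‖(s : W)‖ = 1}
                one_mem' := ?_
                mul_mem' := ?_ }, fun _ => Iff.rfl⟩
      · intro a b ha hb
        show ‖(a : W) * (b : W)‖ = 1
        rw [norm_mul]
        have ha' : ‖(a : W)‖ = 1 := ha
        have hb' : ‖(b : W)‖ = 1 := hb
        rw [ha', hb', one_mul]
      · show ‖(1 : W)‖ = 1
        exact norm_one
    have hloc : IsLocalization M B :=
      { map_units := by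
          rintro ⟨s, hs⟩
          have hs1 : ‖(s : W)‖ = 1 := (hM s).1 hs
          have hs0 : (s : W) ≠ 0 := hne _ hs1
          have hmem : (s : W)⁻¹ ∈ B := by
            rw [hB]
            exact ⟨1, one_mem _, s, s.2, (ball_val_eq_one _).2 hs1, inv_mul_cancel₀ hs0⟩
          exact IsUnit.of_mul_eq_one (⟨(s : W)⁻¹, hmem⟩ : B) (Subtype.ext (mul_inv_cancel₀ hs0))
        surj := by
          rintro ⟨z, hz⟩
          have hz' := hz
          rw [hB] at hz'
          obtain ⟨a, ha, b, hb, hb1, hab⟩ := hz'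
          exact ⟨(⟨a, ha⟩, ⟨⟨b, hb⟩, (hM _).2 ((ball_val_eq_one _).1 hb1)⟩), Subtype.ext hab⟩
        exists_of_eq := by
          intro x y hxy
          refine ⟨1, ?_⟩
          have h1 : (x : W) = y := congrArg (fun w : B => (w : W)) hxy
          rw [Subtype.ext h1] }
    obtain ⟨q, hq⟩ : ∃ q : Polynomial B, q.map (algebraMap B W) = g := by
      rw [← Polynomial.mem_lifts, Polynomial.lifts_iff_coeff_lifts]
      intro n
      exact ⟨⟨g.coeff n, hg n⟩, rfl⟩
    have hqm : q.Monic := by
      apply Polynomial.monic_of_injective (f := algebraMap B W) Subtype.val_injective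
      rw [hq]
      exact hgm
    have hzB : IsIntegral B z := by
      refine ⟨q, hqm, ?_⟩
      rw [← Polynomial.eval_map, hq]
      exact hgz
    obtain ⟨m, hm⟩ := IsIntegral.exists_multiple_integral_of_isLocalization M z hzB
    have hm' : IsIntegral S (((m : S) : W) * z) := hm
    have hm1 : ‖((m : S) : W)‖ = 1 := (hM _).1 m.2
    have hai : Algebra.IsIntegral A S := by
      rw [hS]
      exact Algebra.IsIntegral.adjoin (by
        intro x hx
        rw [Set.mem_singleton_iff.1 hx]
        exact hint)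
    have hmA : IsIntegral A (((m : S) : W) * z) := isIntegral_trans _ hm'
    let _ : Algebra A F := (gamB_i hI).toAlgebra
    have hfr : IsFractionRing A F := gamB_frac hI (fun _ => rfl)
    have hst2 : IsScalarTower A F W := IsScalarTower.of_algebraMap_eq (fun _ => rfl)
    have hD0 := hne _ hd1
    have hEK : ∀ z ∈ E, z ∈ IntermediateField.adjoin F ({t} : Set W) := by
      intro z hz
      have h1 : z ∈ (IntermediateField.adjoin F ({t} : Set W)).toSubfield := by
        rw [IntermediateField.adjoin_toSubfield]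
        rw [hE] at hz
        refine Subfield.closure_mono ?_ hz
        rintro w (hw | hw)
        · exact Or.inl ⟨⟨w, hw⟩, rfl⟩
        · exact Or.inr hw
      exact h1
    have h5 := gamB_euler (A := A) (K := F) t hint hD0 (((m : S) : W) * z)
      (hEK _ (mul_mem (hSE _ (m : S).2) hz)) hmA
    rw [← hS] at h5
    have hDS : Polynomial.aeval t (Polynomial.derivative (minpoly A t)) ∈ S := by
      rw [hS]
      exact Polynomial.aeval_mem_adjoin_singleton A t
    rw [hB]
    refine ⟨_, h5, Polynomial.aeval t (Polynomial.derivative (minpoly A t)) * ((m : S) : W),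
      mul_mem hDS (m : S).2, ?_, ?_⟩
    · rw [ball_val_eq_one, norm_mul, hd1, hm1, one_mul]
    · ring

end Pool.Agent.Lib.TU
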