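import Pool.Agent.Lib.TU.CompU
import Pool.Agent.Lib.TU.MAll

/-!
# Module InvU: invariance of `Gn` (paper 9.2)

`next`: given a chart `c1` and a refinement `c1'` of it there is a refinement `c2` of `c1'` such that
`y_1`, `τ x_1`, `τ y_1` and `τ` of finitely many generators of the field `c1.C` are monomial for `c2`
(`m_all`; zero generators can be dropped), so `τ (c1.C) ⊆ HO c2` (it is a field generated by elements of
`HO c2`, its nonzero elements have norm one; `inv_mem_HO`), and `HO_map`: `τ (HO c1) ⊆ HO c2`.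
`inv_one` (one isometry `τ` with `τ^l = 1` on `M`): chain `c_0, c_1, .., c_l` with `c_1` the `next` of
`(c_0, c_0')`, `c_(i+1)` the `next` of `(c_i, c_i)`; `c* := c_l`.  Let `c` be a refinement of `c*`.  `compU` for
`(c_i, c_(i+1), c)`, `i = 0, .., l - 1`: each gives a direction on `HL c_i ⊇ HL c_0`.  If two directions
are different, we get equality on `HL c_0`.  If all are `≤`: for `z ∈ HL c_0`, `τ^i z ∈ HL c_i`
(`HL_map`) and `Gn c z ≤ Gn c (τ z) ≤ .. ≤ Gn c (τ^l z) = Gn c z`; similarly for `≥`.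
`inv_all`: apply `inv_one` successively to the finitely many `σ ∈ Γ` (`τ = act.f σ`, `l` the order of
`Γ`), the conclusions are inherited by refinements.
-/

namespace Pool.Agent.Lib.TU

open Pool.Agent.Lib.MP_3029eb_ag Pool.Agent.Lib.MP_3029eb_ag.Abh Pool.Agent.Lib.TDO

/-- one step of the chain -/
private def QQ {k W : Type} [Field k] [NormedField W] [IsUltrametricDist W]
    [Algebra k W] {r : ℕ} (m : ℕ) (S L' : IntermediateField k W) (τ : W →ₐ[k] W)
    (a b : Tri k W r) : Prop :=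
  RfS m S L' a b ∧ MoH (S ⊓ L') b a.y ∧ MoH (S ⊓ L') b (τ a.y) ∧
    (∀ i, MoH (S ⊓ L') b (τ (a.x i))) ∧ ∀ z ∈ HO (S ⊓ L') a, τ z ∈ HO (S ⊓ L') b

private theorem next_ex {k W : Type} [Field k] [PerfectField k] [NormedField W]
    [IsUltrametricDist W] [Algebra k W] {r m : ℕ} (hr : 0 < r) (hA : AmbG r m k W)
    (S L' : IntermediateField k W) (hS : ∀ z : W, IsSeparable S z → z ∈ S)
    (hL' : IsComplete (L' : Set W)) (τ : W →ₐ[k] W)
    (hiso : ∀ z, ‖τ z‖ = ‖z‖) (hM : ∀ z ∈ S ⊓ L', τ z ∈ S ⊓ L') {c0 c0' : Tri k W r}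
    (h0 : Ch m S L' c0) (h0' : RfS m S L' c0 c0') :
    ∃ c2 : Tri k W r, RfS m S L' c0' c2 ∧ QQ m S L' τ c0 c2 := by
  classical
  obtain ⟨F, hF⟩ := h0.ok.cst.fg
  have hinj : Function.Injective τ := τ.toRingHom.injective
  obtain ⟨Z, hZdef⟩ : ∃ Z : Finset W, Z = ((F.image τ) ∪ (insert c0.y (insert (τ c0.y)
      (Finset.univ.image fun i => τ (c0.x i))))).filter (fun z => z ≠ 0) := ⟨_, rfl⟩
  have hZmem : ∀ z, z ∈ Z ↔ (((∃ e ∈ F, τ e = z) ∨ (z = c0.y ∨ z = τ c0.y ∨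
      ∃ i, τ (c0.x i) = z)) ∧ z ≠ 0) := by
    intro z
    rw [hZdef, Finset.mem_filter, Finset.mem_union, Finset.mem_image, Finset.mem_insert,
      Finset.mem_insert, Finset.mem_image]
    simp only [Finset.mem_univ, true_and]
  have hFC : ∀ e ∈ F, e ∈ c0.C := by
    intro e he
    rw [← hF]
    exact IntermediateField.subset_adjoin k _ he
  obtain ⟨c2, hrf, hmo⟩ := m_all hr hA S L' hS hL' (RfS.ch h0 h0') Z (fun z hz => by
    obtain ⟨h1, h2⟩ := (hZmem z).1 hz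
    refine ⟨?_, h2⟩
    rcases h1 with ⟨e, he, rfl⟩ | rfl | rfl | ⟨i, rfl⟩
    · exact hM _ (h0.ok.CM (hFC e he))
    · exact h0.ok.yM
    · exact hM _ h0.ok.yM
    · exact hM _ (h0.ok.xM i))
  have hrf2 : RfS m S L' c0 c2 := h0'.trans hrf
  have hc2 : Ch m S L' c2 := RfS.ch h0 hrf2
  have hy0 : c0.y ≠ 0 := h0.ok.y_ne
  have hτy0 : τ c0.y ≠ 0 := by
    rw [Ne, map_eq_zero_iff τ hinj]
    exact hy0
  have hmy : MoH (S ⊓ L') c2 c0.y := hmo _ ((hZmem _).2 ⟨Or.inr (Or.inl rfl), hy0⟩)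
  have hmτy : MoH (S ⊓ L') c2 (τ c0.y) :=
    hmo _ ((hZmem _).2 ⟨Or.inr (Or.inr (Or.inl rfl)), hτy0⟩)
  have hmx : ∀ i, MoH (S ⊓ L') c2 (τ (c0.x i)) := by
    intro i
    refine hmo _ ((hZmem _).2 ⟨Or.inr (Or.inr (Or.inr ⟨i, rfl⟩)), ?_⟩)
    rw [Ne, map_eq_zero_iff τ hinj]
    exact h0.ok.par.ind.ne i
  have hC : ∀ z ∈ c0.C, τ z ∈ HO (S ⊓ L') c2 := by
    intro z hz
    rw [← hF] at hz
    induction hz using IntermediateField.adjoin_induction with
    | mem e he =>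
      by_cases h1 : e = 0
      · rw [h1, map_zero]; exact zero_mem _
      · have h2 : τ e ≠ 0 := by rwa [Ne, map_eq_zero_iff τ hinj]
        refine MoH.mem_HO hc2.ok (hmo _ ((hZmem _).2 ⟨Or.inl ⟨e, he, rfl⟩, h2⟩)) ?_
        rw [hiso]
        exact (h0.ok.cst.unit e (hFC e he) h1).le
    | algebraMap c =>
      rw [AlgHom.commutes]
      exact C_mem_HO hc2.ok (c2.C.algebraMap_mem c)
    | add a b _ _ iha ihb => rw [map_add]; exact add_mem iha ihb
    | mul a b _ _ iha ihb => rw [map_mul]; exact mul_mem iha ihb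
    | inv a ha iha =>
      by_cases h1 : a = 0
      · rw [h1, inv_zero, map_zero]; exact zero_mem _
      · rw [map_inv₀]
        refine inv_mem_HO hc2.ok iha ?_
        rw [hiso]
        rw [hF] at ha
        exact h0.ok.cst.unit a ha h1
  have hHO : ∀ z ∈ HO (S ⊓ L') c0, τ z ∈ HO (S ⊓ L') c2 :=
    HO_map hr h0.ok hc2.ok (τ : W →+* W) hiso hM hC hmx
      (MoH.mem_HO hc2.ok hmτy ((hiso c0.y).le.trans h0.ok.par.y1.le))
  exact ⟨c2, hrf, hrf2, hmy, hmτy, hmx, hHO⟩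

/-- See the header. -/
theorem inv_one {k W : Type} [Field k] [PerfectField k] [NormedField W] [IsUltrametricDist W]
    [Algebra k W] {r m : ℕ} (hr : 0 < r) (hA : AmbG r m k W) (S L' : IntermediateField k W)
    (hS : ∀ z : W, IsSeparable S z → z ∈ S) (hL' : IsComplete (L' : Set W)) (τ : W →ₐ[k] W)
    (hiso : ∀ z, ‖τ z‖ = ‖z‖) (hM : ∀ z ∈ S ⊓ L', τ z ∈ S ⊓ L') (l : ℕ) (hl : 1 ≤ l)
    (hord : ∀ z ∈ S ⊓ L', (τ : W → W)^[l] z = z) {c0 c0' : Tri k W r} (h0 : Ch m S L' c0)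
    (h0' : RfS m S L' c0 c0') :
    ∃ c1 : Tri k W r, RfS m S L' c0' c1 ∧ ∀ c : Tri k W r, RfS m S L' c1 c →
      (∀ z ∈ HL (S ⊓ L') c0, Gn (S ⊓ L') c (τ z) = Gn (S ⊓ L') c z) ∧
      (∀ z ∈ HO (S ⊓ L') c0, τ z ∈ HO (S ⊓ L') c) ∧
      ∀ i, MoH (S ⊓ L') c (τ (c0.x i)) := by
  classical
  -- the chain
  let St : Type := {c : Tri k W r // Ch m S L' c}
  have hstep : ∀ s : St, ∃ s' : St, QQ m S L' τ s.1 s'.1 := by
    intro s
    obtain ⟨c2, -, h2⟩ := next_ex hr hA S L' hS hL' τ hiso hM s.2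
      (Relation.ReflTransGen.refl : RfS m S L' s.1 s.1)
    exact ⟨⟨c2, RfS.ch s.2 h2.1⟩, h2⟩
  choose nx hnx using hstep
  obtain ⟨d, hd1, hd2⟩ := next_ex hr hA S L' hS hL' τ hiso hM h0 h0'
  let d' : St := ⟨d, RfS.ch h0 hd2.1⟩
  let s : ℕ → St := fun i => match i with
    | 0 => ⟨c0, h0⟩
    | i + 1 => nx^[i] d'
  have hs0 : (s 0).1 = c0 := rfl
  have hQ : ∀ i, QQ m S L' τ (s i).1 (s (i + 1)).1 := by
    intro i
    cases i with
    | zero => exact hd2
    | succ i =>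
      have h1 : s (i + 1 + 1) = nx (s (i + 1)) := Function.iterate_succ_apply' nx i d'
      rw [h1]
      exact hnx _
  have hrf : ∀ i j, i ≤ j → RfS m S L' (s i).1 (s j).1 := by
    intro i j hij
    induction j, hij using Nat.le_induction with
    | base => exact Relation.ReflTransGen.refl
    | succ j hj ih => exact ih.trans (hQ j).1
  have hpow : ∀ i, ∀ z ∈ HL (S ⊓ L') c0, (τ : W → W)^[i] z ∈ HL (S ⊓ L') (s i).1 := by
    intro i
    induction i with
    | zero => intro z hz; exact hz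
    | succ i ih =>
      intro z hz
      rw [Function.iterate_succ_apply']
      exact HL_map (s i).2.ok (s (i + 1)).2.ok (τ : W →+* W) (hQ i).2.2.2.2 (hQ i).2.2.2.1
        (ih z hz)
  obtain ⟨n, rfl⟩ : ∃ n, l = n + 1 := ⟨l - 1, by omega⟩
  refine ⟨(s (n + 1)).1, ?_, ?_⟩
  · have h1 : RfS m S L' (s 1).1 (s (n + 1)).1 := hrf 1 (n + 1) (by omega)
    exact hd1.trans h1
  intro c hc
  have hRc : ∀ i, i ≤ n + 1 → RfS m S L' (s i).1 c := fun i hi => (hrf i (n + 1) hi).trans hc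
  refine ⟨?_, ?_, ?_⟩
  · have hcomp := compU hr (s n).2 (hQ n).1 (hRc (n + 1) le_rfl) (τ : W →+* W) hiso
      (hQ n).2.2.2.2 (hQ n).2.2.2.1 (hQ n).2.1 (hQ n).2.2.1
    have hmem : ∀ i, i ≤ n → ∀ z ∈ HL (S ⊓ L') c0, (τ : W → W)^[i] z ∈ HL (S ⊓ L') (s n).1 :=
      fun i hi z hz => RfS.HL_le hr (s i).2 (hrf i n hi) (hpow i z hz)
    intro z hz
    have hlast : (τ : W → W)^[n + 1] z = z := hord z (HL_mem_M h0.ok hz)
    have hs1 : ∀ i, (τ : W → W)^[i + 1] z = τ ((τ : W → W)^[i] z) :=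
      fun i => Function.iterate_succ_apply' _ i z
    rcases hcomp with hc | hc
    · have h1 : ∀ i, i ≤ n → Gn (S ⊓ L') c (τ z) ≤ Gn (S ⊓ L') c ((τ : W → W)^[i + 1] z) := by
        intro i
        induction i with
        | zero => intro _; exact le_rfl
        | succ i ih =>
          intro hi
          rw [hs1 (i + 1)]
          exact (ih (by omega)).trans (hc _ (hmem (i + 1) hi z hz))
      have h2 := h1 n le_rfl
      rw [hlast] at h2
      have h3 : Gn (S ⊓ L') c z ≤ Gn (S ⊓ L') c (τ z) := hc z (hmem 0 (Nat.zero_le n) z hz)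
      exact le_antisymm h2 h3
    · have h1 : ∀ i, i ≤ n → Gn (S ⊓ L') c ((τ : W → W)^[i + 1] z) ≤ Gn (S ⊓ L') c (τ z) := by
        intro i
        induction i with
        | zero => intro _; exact le_rfl
        | succ i ih =>
          intro hi
          rw [hs1 (i + 1)]
          exact (hc _ (hmem (i + 1) hi z hz)).trans (ih (by omega))
      have h2 := h1 n le_rfl
      rw [hlast] at h2
      have h3 : Gn (S ⊓ L') c (τ z) ≤ Gn (S ⊓ L') c z := hc z (hmem 0 (Nat.zero_le n) z hz)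
      exact le_antisymm h3 h2
  · intro z hz
    exact RfS.HO_le hr (s 1).2 (hRc 1 (by omega)) ((hQ 0).2.2.2.2 z hz)
  · intro i
    exact RfS.moH hr (s 1).2 (hRc 1 (by omega)) ((hQ 0).2.2.2.1 i)

/-- See the header. -/
theorem inv_all {k W : Type} [Field k] [PerfectField k] [NormedField W] [IsUltrametricDist W]
    [Algebra k W] {r m : ℕ} (hr : 0 < r) (hA : AmbG r m k W) {Γ : Type} [Group Γ] [Finite Γ]
    (S L L' : IntermediateField k W) (hS : ∀ z : W, IsSeparable S z → z ∈ S)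
    (hL' : IsComplete (L' : Set W)) (act : Act Γ S L L') {c0 c0' : Tri k W r}
    (h0 : Ch m S L' c0) (h0' : RfS m S L' c0 c0') :
    ∃ c1 : Tri k W r, RfS m S L' c0' c1 ∧ ∀ c : Tri k W r, RfS m S L' c1 c → ∀ σ : Γ,
      (∀ z ∈ HL (S ⊓ L') c0, Gn (S ⊓ L') c (act.f σ z) = Gn (S ⊓ L') c z) ∧
      (∀ z ∈ HO (S ⊓ L') c0, act.f σ z ∈ HO (S ⊓ L') c) ∧
      ∀ i, MoH (S ⊓ L') c (act.f σ (c0.x i)) := by
  classical
  have : Fintype Γ := Fintype.ofFinite Γ
  have hit : ∀ (σ : Γ) (n : ℕ), ∀ z ∈ L', (act.f σ : W → W)^[n] z = act.f (σ ^ n) z := by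
    intro σ n
    induction n with
    | zero =>
      intro z hz
      rw [pow_zero, act.one z hz]
      rfl
    | succ n ih =>
      intro z hz
      rw [Function.iterate_succ_apply', ih z hz, pow_succ', act.mul σ (σ ^ n) z hz]
  have key : ∀ T : Finset Γ, ∃ c1 : Tri k W r, RfS m S L' c0' c1 ∧
      ∀ c : Tri k W r, RfS m S L' c1 c → ∀ σ ∈ T,
      (∀ z ∈ HL (S ⊓ L') c0, Gn (S ⊓ L') c (act.f σ z) = Gn (S ⊓ L') c z) ∧
      (∀ z ∈ HO (S ⊓ L') c0, act.f σ z ∈ HO (S ⊓ L') c) ∧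
      ∀ i, MoH (S ⊓ L') c (act.f σ (c0.x i)) := by
    intro T
    induction T using Finset.induction_on with
    | empty =>
      exact ⟨c0', Relation.ReflTransGen.refl, fun c _ σ hσ => absurd hσ (Finset.notMem_empty σ)⟩
    | insert σ T hσ ih =>
      obtain ⟨c1, h1, h2⟩ := ih
      obtain ⟨c2, h3, h4⟩ := inv_one hr hA S L' hS hL' (act.f σ) (act.iso σ)
        (fun z hz => ⟨act.memS σ z hz.1, act.memL σ z hz.2⟩) (Fintype.card Γ)
        Fintype.card_pos (fun z hz => by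
          rw [hit σ _ z hz.2, pow_card_eq_one, act.one z hz.2]) h0 (h0'.trans h1)
      refine ⟨c2, h1.trans h3, fun c hc σ' hσ' => ?_⟩
      rcases Finset.mem_insert.1 hσ' with rfl | hσ'
      · exact h4 c hc
      · exact h2 c (h3.trans hc) σ' hσ'
  obtain ⟨c1, h1, h2⟩ := key Finset.univ
  exact ⟨c1, h1, fun c hc σ => h2 c hc σ (Finset.mem_univ σ)⟩

end Pool.Agent.Lib.TU
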