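import Pool.Agent.Lib.TU.MtB
import Pool.Agent.Lib.MP_3029eb_ag.AbhBase

/-!
# Module MdlB: basic properties of models

`Bu c x' G = locV C[x', y, G]`.  All generators have norm `≤ 1`, so `Bu c x' G` is contained in the unit
ball and contains the generators; inverses of elements of norm one are in `Bu`.
`dec_all`: the set of `z` with `z = e + ∑ b_i x'_i + b_0 y` (`e ∈ C`, `b ∈ Bu`) is a subring containing
the generators; for a quotient `z = n / d`, `‖d‖ = 1`, `n = e_n + i_n`, `d = e_d + i_d` (`i_n, i_d` in the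
ideal `(x', y) Bu`, of norm `< 1`): `e_d ≠ 0` (norm one) and
`n / d - e_n / e_d = (n e_d - e_n d) / (d e_d) = (i_n e_d - e_n i_d) / (d e_d)` is in the ideal.
`gen`: if `‖z‖ < 1` then `‖e‖ < 1`, so `e = 0`.
-/

namespace Pool.Agent.Lib.TU

open Pool.Agent.Lib.MP_3029eb_ag Pool.Agent.Lib.MP_3029eb_ag.Abh Pool.Agent.Lib.TDO

variable {k W : Type} [Field k] [NormedField W] [IsUltrametricDist W] [Algebra k W] {r m : ℕ}
  {M : IntermediateField k W} {c : Tri k W r} {x' : Fin r → W} {G : Finset W}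

private theorem mdlB_sub {z : W}
    (hz : z ∈ ((c.C : Set W) ∪ Set.range x') ∪ ({c.y} ∪ (G : Set W))) : z ∈ Bu c x' G :=
  ⟨z, Subring.subset_closure hz, 1, one_mem _, map_one _, mul_one _⟩

theorem C_mem_Bu (hok : Ok m M c) (hx' : Indep x') (hG : ∀ g ∈ G, ‖g‖ ≤ 1) {z : W}
    (hz : z ∈ c.C) : z ∈ Bu c x' G :=
  mdlB_sub (Or.inl (Or.inl hz))

theorem x_mem_Bu (hok : Ok m M c) (hx' : Indep x') (hG : ∀ g ∈ G, ‖g‖ ≤ 1) (i : Fin r) :
    x' i ∈ Bu c x' G :=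
  mdlB_sub (Or.inl (Or.inr ⟨i, rfl⟩))

theorem y_mem_Bu (hok : Ok m M c) (hx' : Indep x') (hG : ∀ g ∈ G, ‖g‖ ≤ 1) : c.y ∈ Bu c x' G :=
  mdlB_sub (Or.inr (Or.inl rfl))

theorem G_mem_Bu (hok : Ok m M c) (hx' : Indep x') (hG : ∀ g ∈ G, ‖g‖ ≤ 1) {g : W} (hg : g ∈ G) :
    g ∈ Bu c x' G :=
  mdlB_sub (Or.inr (Or.inr hg))

omit [IsUltrametricDist W] in
private theorem mdlB_C_le (hok : Ok m M c) {z : W} (hz : z ∈ c.C) : ‖z‖ ≤ 1 := by
  by_cases h0 : z = 0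
  · rw [h0, norm_zero]; exact zero_le_one
  · exact (hok.cst.unit z hz h0).le

theorem norm_le_of_mem_Bu (hok : Ok m M c) (hx' : Indep x') (hG : ∀ g ∈ G, ‖g‖ ≤ 1) {z : W}
    (hz : z ∈ Bu c x' G) : ‖z‖ ≤ 1 := by
  have h1 : Subring.closure (((c.C : Set W) ∪ Set.range x') ∪ ({c.y} ∪ (G : Set W))) ≤
      (ball W).toSubring := by
    rw [Subring.closure_le]
    rintro w ((hw | ⟨i, rfl⟩) | (hw | hw))
    · exact mdlB_C_le hok hw
    · exact (hx'.lt i).le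
    · rw [Set.mem_singleton_iff] at hw
      rw [hw]
      exact hok.par.y1.le
    · exact hG w hw
  obtain ⟨a, ha, b, hb, hb1, h⟩ := hz
  rw [ball_val_eq_one] at hb1
  have h2 : ‖a‖ ≤ 1 := h1 ha
  rw [← h, norm_mul, hb1, mul_one] at h2
  exact h2

theorem inv_mem_Bu {z : W} (hz : z ∈ Bu c x' G) (h1 : ‖z‖ = 1) : z⁻¹ ∈ Bu c x' G := by
  obtain ⟨a, ha, b, hb, hb1, h⟩ := hz
  have hz0 : z ≠ 0 := by
    rintro rfl
    rw [norm_zero] at h1
    exact zero_ne_one h1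
  refine ⟨b, hb, a, ha, ?_, ?_⟩
  · rw [ball_val_eq_one] at hb1 ⊢
    rw [← h, norm_mul, h1, hb1, mul_one]
  · rw [← h, inv_mul_cancel_left₀ hz0]

/-- `Bu` is contained in every subring containing the generators and the inverses of its elements
of norm one. -/
theorem Bu_le (B : Subring W) (hC : ∀ z ∈ c.C, z ∈ B) (hx : ∀ i, x' i ∈ B) (hy : c.y ∈ B)
    (hG : ∀ g ∈ G, g ∈ B) (hinv : ∀ z ∈ B, ‖z‖ = 1 → z⁻¹ ∈ B) {z : W} (hz : z ∈ Bu c x' G) :
    z ∈ B := by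
  have h1 : Subring.closure (((c.C : Set W) ∪ Set.range x') ∪ ({c.y} ∪ (G : Set W))) ≤ B := by
    rw [Subring.closure_le]
    rintro w ((hw | ⟨i, rfl⟩) | (hw | hw))
    · exact hC w hw
    · exact hx i
    · rw [Set.mem_singleton_iff] at hw
      rw [hw]
      exact hy
    · exact hG w hw
  obtain ⟨a, ha, b, hb, hb1, h⟩ := hz
  rw [ball_val_eq_one] at hb1
  have hb0 : b ≠ 0 := by
    rintro rfl
    rw [norm_zero] at hb1
    exact zero_ne_one hb1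
  have h2 : z = a * b⁻¹ := by
    rw [← h, mul_inv_cancel_right₀ hb0]
  rw [h2]
  exact B.mul_mem (h1 ha) (hinv b (h1 hb) hb1)

/-- `monN x' β ∈ Bu` -/
theorem monN_mem_Bu (hok : Ok m M c) (hx' : Indep x') (hG : ∀ g ∈ G, ‖g‖ ≤ 1) (β : Fin r → ℕ) :
    monN x' β ∈ Bu c x' G := by
  unfold monN
  exact Subring.prod_mem _ fun i _ => Subring.pow_mem _ (x_mem_Bu hok hx' hG i) _

omit [IsUltrametricDist W] in
private theorem mdlB_mon_mem (M : IntermediateField k W) {x : Fin r → W} (hx : ∀ i, x i ∈ M)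
    (a : Fin r → ℤ) : mon x a ∈ M := by
  unfold MP_3029eb_ag.Abh.mon
  exact prod_mem fun i _ => zpow_mem (hx i) _

theorem Mdl.mem_M (hok : Ok m M c) (h : Mdl M c x' G) {z : W} (hz : z ∈ Bu c x' G) : z ∈ M := by
  obtain ⟨A, B, h1, h2, -⟩ := h.mt.mat
  have h3 : z ∈ M.toSubring := by
    refine Bu_le (c := c) (x' := x') (G := G) M.toSubring (fun w hw => hok.CM hw) (fun i => ?_)
      hok.yM (fun g hg => (h.gM g hg).1) (fun w hw _ => ?_) hz
    · rw [h2 i]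
      exact mdlB_mon_mem M hok.xM _
    · exact inv_mem (S := IntermediateField k W) hw
  exact h3

/-- the ideal generated by `x'` and `y` -/
private def mdlB_J (c : Tri k W r) (x' : Fin r → W) (G : Finset W) : Set W :=
  {z | ∃ (b : Fin r → W) (b0 : W), (∀ i, b i ∈ Bu c x' G) ∧ b0 ∈ Bu c x' G ∧
    z = ∑ i, b i * x' i + b0 * c.y}

private theorem mdlB_J_zero : (0 : W) ∈ mdlB_J c x' G :=
  ⟨fun _ => 0, 0, fun _ => zero_mem _, zero_mem _, by simp⟩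

private theorem mdlB_J_add {z w : W} (hz : z ∈ mdlB_J c x' G) (hw : w ∈ mdlB_J c x' G) :
    z + w ∈ mdlB_J c x' G := by
  obtain ⟨b, b0, hb, hb0, rfl⟩ := hz
  obtain ⟨d, d0, hd, hd0, rfl⟩ := hw
  refine ⟨fun i => b i + d i, b0 + d0, fun i => add_mem (hb i) (hd i), add_mem hb0 hd0, ?_⟩
  simp only [add_mul, Finset.sum_add_distrib]
  ring

private theorem mdlB_J_mul {z w : W} (hz : z ∈ Bu c x' G) (hw : w ∈ mdlB_J c x' G) :
    z * w ∈ mdlB_J c x' G := by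
  obtain ⟨d, d0, hd, hd0, rfl⟩ := hw
  refine ⟨fun i => z * d i, z * d0, fun i => mul_mem hz (hd i), mul_mem hz hd0, ?_⟩
  rw [mul_add, Finset.mul_sum]
  congr 1
  · exact Finset.sum_congr rfl fun i _ => by ring
  · ring

private theorem mdlB_J_neg {z : W} (hz : z ∈ mdlB_J c x' G) : -z ∈ mdlB_J c x' G := by
  have h1 := mdlB_J_mul (z := -1) (neg_mem (one_mem (Bu c x' G))) hz
  rwa [neg_one_mul] at h1

private theorem mdlB_J_x (i : Fin r) : x' i ∈ mdlB_J c x' G := by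
  classical
  refine ⟨fun j => if j = i then 1 else 0, 0, fun j => ?_, zero_mem _, ?_⟩
  · dsimp only
    split_ifs
    · exact one_mem _
    · exact zero_mem _
  · simp

private theorem mdlB_J_y : c.y ∈ mdlB_J c x' G :=
  ⟨fun _ => 0, 1, fun _ => zero_mem _, one_mem _, by simp⟩

private theorem mdlB_J_Bu (hok : Ok m M c) (hx' : Indep x') (hG : ∀ g ∈ G, ‖g‖ ≤ 1) {z : W}
    (hz : z ∈ mdlB_J c x' G) : z ∈ Bu c x' G := by
  obtain ⟨b, b0, hb, hb0, rfl⟩ := hz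
  exact add_mem (sum_mem fun i _ => mul_mem (hb i) (x_mem_Bu hok hx' hG i))
    (mul_mem hb0 (y_mem_Bu hok hx' hG))

private theorem mdlB_J_lt (hok : Ok m M c) (hx' : Indep x') (hG : ∀ g ∈ G, ‖g‖ ≤ 1) {z : W}
    (hz : z ∈ mdlB_J c x' G) : ‖z‖ < 1 := by
  obtain ⟨b, b0, hb, hb0, rfl⟩ := hz
  refine (IsUltrametricDist.norm_add_le_max _ _).trans_lt (max_lt ?_ ?_)
  · rcases (Finset.univ : Finset (Fin r)).eq_empty_or_nonempty with h | h
    · rw [h, Finset.sum_empty, norm_zero]; exact one_pos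
    · obtain ⟨i, -, hi⟩ := IsUltrametricDist.exists_norm_finsetSum_le_of_nonempty h
        fun i : Fin r => b i * x' i
      refine hi.trans_lt ?_
      rw [norm_mul]
      exact (mul_le_of_le_one_left (norm_nonneg _)
        (norm_le_of_mem_Bu hok hx' hG (hb i))).trans_lt (hx'.lt i)
  · rw [norm_mul]
    exact (mul_le_of_le_one_left (norm_nonneg _)
      (norm_le_of_mem_Bu hok hx' hG hb0)).trans_lt hok.par.y1

private theorem mdlB_C_eq {e z : W} (h1 : ‖z‖ = 1) (h2 : ‖z - e‖ < 1) : ‖e‖ = 1 := by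
  have h3 : e = z + -(z - e) := by ring
  have h4 : ‖-(z - e)‖ < ‖z‖ := by rw [norm_neg, h1]; exact h2
  rw [h3, IsUltrametricDist.norm_add_eq_max_of_norm_ne_norm h4.ne', max_eq_left h4.le, h1]

/-- the subring of the elements of `Bu` which are congruent to constants -/
private def mdlB_D (c : Tri k W r) (x' : Fin r → W) (G : Finset W) : Subring W where
  carrier := {z | z ∈ Bu c x' G ∧ ∃ e ∈ c.C, z - e ∈ mdlB_J c x' G}
  mul_mem' := by
    rintro z w ⟨hz, e, he, hze⟩ ⟨hw, f, hf, hwf⟩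
    refine ⟨mul_mem hz hw, e * f, mul_mem he hf, ?_⟩
    have h1 : z * w - e * f = w * (z - e) + e * (w - f) := by ring
    rw [h1]
    exact mdlB_J_add (mdlB_J_mul hw hze) (mdlB_J_mul (mdlB_sub (Or.inl (Or.inl he))) hwf)
  one_mem' := ⟨one_mem _, 1, one_mem _, by rw [sub_self]; exact mdlB_J_zero⟩
  add_mem' := by
    rintro z w ⟨hz, e, he, hze⟩ ⟨hw, f, hf, hwf⟩
    refine ⟨add_mem hz hw, e + f, add_mem he hf, ?_⟩
    rw [add_sub_add_comm]
    exact mdlB_J_add hze hwf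
  zero_mem' := ⟨zero_mem _, 0, zero_mem _, by rw [sub_self]; exact mdlB_J_zero⟩
  neg_mem' := by
    rintro z ⟨hz, e, he, hze⟩
    refine ⟨neg_mem hz, -e, neg_mem he, ?_⟩
    have h1 : -z - -e = -(z - e) := by ring
    rw [h1]
    exact mdlB_J_neg hze

private theorem mdlB_dec (hok : Ok m M c) (hx' : Indep x') (hG : ∀ g ∈ G, ‖g‖ ≤ 1)
    (hdec : ∀ g ∈ G, ∃ e ∈ c.C, g - e ∈ mdlB_J c x' G) {z : W} (hz : z ∈ Bu c x' G) :
    ∃ e ∈ c.C, z - e ∈ mdlB_J c x' G := by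
  have h1 : z ∈ mdlB_D c x' G := by
    refine Bu_le (c := c) (x' := x') (G := G) (mdlB_D c x' G) (fun w hw => ?_) (fun i => ?_) ?_
      (fun g hg => ?_) (fun w hw hw1 => ?_) hz
    · exact ⟨C_mem_Bu hok hx' hG hw, w, hw, by rw [sub_self]; exact mdlB_J_zero⟩
    · exact ⟨x_mem_Bu hok hx' hG i, 0, zero_mem _, by rw [sub_zero]; exact mdlB_J_x i⟩
    · exact ⟨y_mem_Bu hok hx' hG, 0, zero_mem _, by rw [sub_zero]; exact mdlB_J_y⟩
    · exact ⟨G_mem_Bu hok hx' hG hg, hdec g hg⟩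
    · obtain ⟨hwB, e, he, hwe⟩ := hw
      have he1 : ‖e‖ = 1 := mdlB_C_eq hw1 (mdlB_J_lt hok hx' hG hwe)
      have hw0 : w ≠ 0 := by
        rintro rfl
        rw [norm_zero] at hw1
        exact zero_ne_one hw1
      have he0 : e ≠ 0 := by
        rintro rfl
        rw [norm_zero] at he1
        exact zero_ne_one he1
      have hwi := inv_mem_Bu hwB hw1
      refine ⟨hwi, e⁻¹, inv_mem he, ?_⟩
      have h2 : w⁻¹ - e⁻¹ = (w⁻¹ * e⁻¹) * (-(w - e)) := by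
        field_simp
        ring
      rw [h2]
      exact mdlB_J_mul (mul_mem hwi (C_mem_Bu hok hx' hG (inv_mem he))) (mdlB_J_neg hwe)
  exact h1.2

theorem Mdl.dec_all (hok : Ok m M c) (h : Mdl M c x' G) {z : W} (hz : z ∈ Bu c x' G) :
    ∃ e ∈ c.C, ∃ (b : Fin r → W) (b0 : W), (∀ i, b i ∈ Bu c x' G) ∧ b0 ∈ Bu c x' G ∧
      z = e + ∑ i, b i * x' i + b0 * c.y := by
  obtain ⟨e, he, b, b0, hb, hb0, h1⟩ := mdlB_dec hok h.mt.ind (fun g hg => (h.gM g hg).2)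
    (fun g hg => by
      obtain ⟨e, he, b, b0, hb, hb0, h1⟩ := h.dec g hg
      exact ⟨e, he, b, b0, hb, hb0, by rw [h1]; ring⟩) hz
  refine ⟨e, he, b, b0, hb, hb0, ?_⟩
  have h2 : z = e + (z - e) := by ring
  rw [h2, h1]
  ring

theorem Mdl.gen (hok : Ok m M c) (h : Mdl M c x' G) {z : W} (hz : z ∈ Bu c x' G) (h1 : ‖z‖ < 1) :
    ∃ (b : Fin r → W) (b0 : W), (∀ i, b i ∈ Bu c x' G) ∧ b0 ∈ Bu c x' G ∧
      z = ∑ i, b i * x' i + b0 * c.y := by
  obtain ⟨e, he, b, b0, hb, hb0, h2⟩ := h.dec_all hok hz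
  have h3 : ∑ i, b i * x' i + b0 * c.y ∈ mdlB_J c x' G := ⟨b, b0, hb, hb0, rfl⟩
  have h4 := mdlB_J_lt hok h.mt.ind (fun g hg => (h.gM g hg).2) h3
  have h5 : e = 0 := by
    by_contra h0
    have h6 := hok.cst.unit e he h0
    have h7 : e = z + -(∑ i, b i * x' i + b0 * c.y) := by rw [h2]; ring
    have h8 : ‖e‖ < 1 := by
      rw [h7]
      refine (IsUltrametricDist.norm_add_le_max _ _).trans_lt (max_lt h1 ?_)
      rw [norm_neg]
      exact h4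
    exact absurd h6 h8.ne
  refine ⟨b, b0, hb, hb0, ?_⟩
  rw [h2, h5, zero_add]

/-- The trivial model. -/
theorem Mdl.triv (hok : Ok m M c) : Mdl M c c.x ∅ :=
  ⟨Mt.refl hok.par.ind, fun g hg => absurd hg (Finset.notMem_empty g),
    fun g hg => absurd hg (Finset.notMem_empty g)⟩

private theorem mdlB_refine (hok : Ok m M c) (hind : Indep x') (hG : ∀ g ∈ G, ‖g‖ ≤ 1)
    {x'' : Fin r → W} (hx : Mt x' x'') {z : W} (hz : z ∈ Bu c x' G) : z ∈ Bu c x'' G := by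
  refine Bu_le (c := c) (x' := x') (G := G) (Bu c x'' G) (fun w hw => C_mem_Bu hok hx.ind hG hw)
    (fun i => ?_) (y_mem_Bu hok hx.ind hG) (fun g hg => G_mem_Bu hok hx.ind hG hg)
    (fun w hw hw1 => inv_mem_Bu hw hw1) hz
  obtain ⟨β, -, hβ⟩ := Mt.x_eq hind hx i
  rw [hβ]
  exact monN_mem_Bu hok hx.ind hG β

private theorem mdlB_monN_J (hok : Ok m M c) (hx' : Indep x') (hG : ∀ g ∈ G, ‖g‖ ≤ 1)
    {β : Fin r → ℕ} (hβ : β ≠ 0) : monN x' β ∈ mdlB_J c x' G := by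
  obtain ⟨i, hi⟩ := Function.ne_iff.1 hβ
  rw [Pi.zero_apply] at hi
  have h1 : monN x' β = (x' i ^ (β i - 1) * ∏ j ∈ Finset.univ.erase i, x' j ^ β j) * x' i := by
    rw [monN, ← Finset.mul_prod_erase _ _ (Finset.mem_univ i), mul_right_comm, ← pow_succ]
    congr 2
    omega
  rw [h1]
  refine mdlB_J_mul (mul_mem (pow_mem (x_mem_Bu hok hx' hG i) _) ?_) (mdlB_J_x i)
  exact prod_mem fun j _ => pow_mem (x_mem_Bu hok hx' hG j) _

/-- Refining the monomial basis: `x' i` is in the ideal generated by the `x'' j` (`Mt.x_eq`). -/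
theorem Mdl.refine (hok : Ok m M c) (h : Mdl M c x' G) {x'' : Fin r → W} (hx : Mt x' x'') :
    Mdl M c x'' G := by
  have hG : ∀ g ∈ G, ‖g‖ ≤ 1 := fun g hg => (h.gM g hg).2
  refine ⟨Mt.trans hok.par.ind h.mt hx, h.gM, fun g hg => ?_⟩
  obtain ⟨e, he, b, b0, hb, hb0, h1⟩ := h.dec g hg
  have h2 : ∑ i, b i * x' i + b0 * c.y ∈ mdlB_J c x'' G := by
    refine mdlB_J_add ?_ (mdlB_J_mul (mdlB_refine hok h.mt.ind hG hx hb0) mdlB_J_y)
    refine Finset.sum_induction _ (fun z => z ∈ mdlB_J c x'' G) (fun _ _ => mdlB_J_add)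
      mdlB_J_zero fun i _ => ?_
    refine mdlB_J_mul (mdlB_refine hok h.mt.ind hG hx (hb i)) ?_
    obtain ⟨β, hβ0, hβ⟩ := Mt.x_eq h.mt.ind hx i
    rw [hβ]
    exact mdlB_monN_J hok hx.ind hG hβ0
  obtain ⟨d, d0, hd, hd0, h3⟩ := h2
  refine ⟨e, he, d, d0, hd, hd0, ?_⟩
  rw [h1, add_assoc, h3, ← add_assoc]

theorem Bu_refine (hok : Ok m M c) (h : Mdl M c x' G) {x'' : Fin r → W} (hx : Mt x' x'') {z : W}
    (hz : z ∈ Bu c x' G) : z ∈ Bu c x'' G :=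
  mdlB_refine hok h.mt.ind (fun g hg => (h.gM g hg).2) hx hz

/-- Two models have a common refinement: `exists_Mt` for the exponents of the `x1 i`, `x2 i` as
monomials in `c.x` gives `x3`. -/
theorem Mdl.union (hok : Ok m M c) {x1 x2 : Fin r → W} {G1 G2 : Finset W} [DecidableEq W]
    (h1 : Mdl M c x1 G1) (h2 : Mdl M c x2 G2) :
    ∃ x3 : Fin r → W, Mt x1 x3 ∧ Mt x2 x3 ∧ Mdl M c x3 (G1 ∪ G2) ∧
      (∀ z ∈ Bu c x1 G1, z ∈ Bu c x3 (G1 ∪ G2)) ∧ ∀ z ∈ Bu c x2 G2, z ∈ Bu c x3 (G1 ∪ G2) := by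
  classical
  obtain ⟨A1, B1, -, hB1, -⟩ := h1.mt.mat
  obtain ⟨A2, B2, -, hB2, -⟩ := h2.mt.mat
  obtain ⟨x3, hx3, hY⟩ := exists_Mt hok.par.ind
    (Finset.univ.image B1 ∪ Finset.univ.image B2) (by
      intro a ha
      rw [Finset.mem_union, Finset.mem_image, Finset.mem_image] at ha
      rcases ha with ⟨i, -, rfl⟩ | ⟨i, -, rfl⟩
      · rw [← hB1]; exact (h1.mt.ind.lt i).le
      · rw [← hB2]; exact (h2.mt.ind.lt i).le)
  have hn1 : ∀ i, ∃ β : Fin r → ℕ, x1 i = monN x3 β := by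
    intro i
    obtain ⟨β, hβ, -⟩ := hY (B1 i) (Finset.mem_union_left _
      (Finset.mem_image_of_mem _ (Finset.mem_univ i)))
    exact ⟨β, by rw [hB1, hβ]⟩
  have hn2 : ∀ i, ∃ β : Fin r → ℕ, x2 i = monN x3 β := by
    intro i
    obtain ⟨β, hβ, -⟩ := hY (B2 i) (Finset.mem_union_right _
      (Finset.mem_image_of_mem _ (Finset.mem_univ i)))
    exact ⟨β, by rw [hB2, hβ]⟩
  obtain ⟨A3, B3, -, hB3, -⟩ := hx3.mat
  have hm1 : Mt x1 x3 := by
    refine Mt.of h1.mt.ind hx3.ind hn1 fun i => ?_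
    obtain ⟨a', ha'⟩ := h1.mt.mon_eq (B3 i)
    exact ⟨a', by rw [hB3, ha']⟩
  have hm2 : Mt x2 x3 := by
    refine Mt.of h2.mt.ind hx3.ind hn2 fun i => ?_
    obtain ⟨a', ha'⟩ := h2.mt.mon_eq (B3 i)
    exact ⟨a', by rw [hB3, ha']⟩
  have hG : ∀ g ∈ G1 ∪ G2, ‖g‖ ≤ 1 := by
    intro g hg
    rcases Finset.mem_union.1 hg with h | h
    · exact (h1.gM g h).2
    · exact (h2.gM g h).2
  have hle1 : ∀ z ∈ Bu c x3 G1, z ∈ Bu c x3 (G1 ∪ G2) := by
    intro z hz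
    exact Bu_le (c := c) (x' := x3) (G := G1) _ (fun w hw => C_mem_Bu hok hx3.ind hG hw)
      (fun i => x_mem_Bu hok hx3.ind hG i) (y_mem_Bu hok hx3.ind hG)
      (fun g hg => G_mem_Bu hok hx3.ind hG (Finset.mem_union_left _ hg))
      (fun w hw hw1 => inv_mem_Bu hw hw1) hz
  have hle2 : ∀ z ∈ Bu c x3 G2, z ∈ Bu c x3 (G1 ∪ G2) := by
    intro z hz
    exact Bu_le (c := c) (x' := x3) (G := G2) _ (fun w hw => C_mem_Bu hok hx3.ind hG hw)
      (fun i => x_mem_Bu hok hx3.ind hG i) (y_mem_Bu hok hx3.ind hG)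
      (fun g hg => G_mem_Bu hok hx3.ind hG (Finset.mem_union_right _ hg))
      (fun w hw hw1 => inv_mem_Bu hw hw1) hz
  have hr1 := h1.refine hok hm1
  have hr2 := h2.refine hok hm2
  refine ⟨x3, hm1, hm2, ⟨hx3, ?_, ?_⟩, ?_, ?_⟩
  · intro g hg
    rcases Finset.mem_union.1 hg with h | h
    · exact h1.gM g h
    · exact h2.gM g h
  · intro g hg
    rcases Finset.mem_union.1 hg with h | h
    · obtain ⟨e, he, b, b0, hb, hb0, h3⟩ := hr1.dec g h
      exact ⟨e, he, b, b0, fun i => hle1 _ (hb i), hle1 _ hb0, h3⟩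
    · obtain ⟨e, he, b, b0, hb, hb0, h3⟩ := hr2.dec g h
      exact ⟨e, he, b, b0, fun i => hle2 _ (hb i), hle2 _ hb0, h3⟩
  · intro z hz
    exact hle1 _ (Bu_refine hok h1 hm1 hz)
  · intro z hz
    exact hle2 _ (Bu_refine hok h2 hm2 hz)

end Pool.Agent.Lib.TU
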