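import Pool.Agent.Lib.TU.ResFld
import Pool.Agent.Lib.TU.CoefF
import Pool.Agent.Lib.TU.HODs
import Pool.Agent.Lib.TU.ChB
import Pool.Agent.Lib.MP_3029eb_ag.AbhBase

/-!
# Module NC: construction of new charts (paper 2.3)

Data: a field of constants `C` and an element `w` in a complete field `L0 ≤ L` and in `S`,
`x'` independent, `‖y'‖ < 1`, `C(x', y', w)` dense in `L`, `S` separable over it, it contains `r + 1`
elements algebraically independent over `C`, and the ring `BN C x' y' w = locV C[x', y', w]` has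
maximal ideal `(x', y')`.  Result: a field of constants `C'` such that `(C', x', y')` is a chart.
-/

namespace Pool.Agent.Lib.TU

open Pool.Agent.Lib.MP_3029eb_ag Pool.Agent.Lib.MP_3029eb_ag.Abh Pool.Agent.Lib.TDO

section aux

variable {k W : Type} [Field k] [NormedField W] [IsUltrametricDist W] [Algebra k W]

private theorem nc_inv_mem (A : Subring W) {z : W} (hz : z ∈ locV (ball W) A) (h1 : ‖z‖ = 1) :
    z⁻¹ ∈ locV (ball W) A := by
  obtain ⟨a, ha, b, hb, hb1, hab⟩ := hz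
  have hz0 : z ≠ 0 := by
    rintro rfl
    rw [norm_zero] at h1
    exact zero_ne_one h1
  refine ⟨b, hb, a, ha, ?_, ?_⟩
  · rw [← hab, map_mul, (ball_val_eq_one z).2 h1, hb1, one_mul]
  · rw [← hab, ← mul_assoc, inv_mul_cancel₀ hz0, one_mul]

private theorem nc_locV_le {X : Set W} {B : Subring W} (hX : ∀ z ∈ X, z ∈ B)
    (hinv : ∀ z ∈ B, ‖z‖ = 1 → z⁻¹ ∈ B) {z : W}
    (hz : z ∈ locV (ball W) (Subring.closure X)) : z ∈ B := by
  have hle : Subring.closure X ≤ B := Subring.closure_le.2 hX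
  obtain ⟨a, ha, b, hb, hb1, h⟩ := hz
  have hb2 : ‖b‖ = 1 := (ball_val_eq_one b).1 hb1
  have hb0 : b ≠ 0 := by
    rintro rfl
    rw [norm_zero] at hb2
    exact zero_ne_one hb2
  have h1 : z = a * b⁻¹ := by rw [← h]; field_simp
  rw [h1]
  exact mul_mem (hle ha) (hinv b (hle hb) hb2)

omit [IsUltrametricDist W] in
private theorem nc_field_mem (S : Set W)
    (h : ∀ z ∈ IntermediateField.adjoin k S, z ≠ 0 → ‖z‖ = 1) {B : Subring W}
    (hk : ∀ c : k, algebraMap k W c ∈ B) (hS : ∀ z ∈ S, z ∈ B)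
    (hinv : ∀ z ∈ B, ‖z‖ = 1 → z⁻¹ ∈ B) {z : W} (hz : z ∈ IntermediateField.adjoin k S) :
    z ∈ B := by
  induction hz using IntermediateField.adjoin_induction with
  | mem x hx => exact hS x hx
  | algebraMap x => exact hk x
  | add x y _ _ h1 h2 => exact add_mem h1 h2
  | mul x y _ _ h1 h2 => exact mul_mem h1 h2
  | inv x hx h1 =>
    by_cases h0 : x = 0
    · rw [h0, inv_zero]
      exact zero_mem B
    · exact hinv x h1 (h x hx h0)

omit [IsUltrametricDist W] in
private theorem nc_taylor {F0 : IntermediateField k W} (B : Subring W) (hF : ∀ z ∈ F0, z ∈ B)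
    (h : Polynomial F0) {a b : W} (ha : a ∈ B) (hb : b ∈ B) :
    ∃ q ∈ B, Polynomial.aeval a h = Polynomial.aeval b h +
      Polynomial.aeval b h.derivative * (a - b) + q * (a - b) ^ 2 := by
  let i : F0 →+* B := (algebraMap F0 W).codRestrict B (fun z => hF z z.2)
  have key : ∀ (f : Polynomial F0) (x : B),
      (((f.map i).eval x : B) : W) = Polynomial.aeval (x : W) f := by
    intro f x
    rw [Polynomial.eval_map, ← Subring.subtype_apply, Polynomial.hom_eval₂]
    rfl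
  obtain ⟨q, hq⟩ := Polynomial.binomExpansion (h.map i) (⟨b, hb⟩ : B) (⟨a, ha⟩ - ⟨b, hb⟩)
  refine ⟨q, q.2, ?_⟩
  have h1 := congrArg (fun z : B => (z : W)) hq
  simp only [add_sub_cancel, Subring.coe_add, Subring.coe_mul, Subring.coe_pow,
    AddSubgroupClass.coe_sub, Polynomial.derivative_map, key] at h1
  exact h1

omit [IsUltrametricDist W] in
private theorem nc_aeval_mem {F0 : IntermediateField k W} (B : Subring W)
    (hF : ∀ z ∈ F0, z ∈ B) (h : Polynomial F0) {a : W} (ha : a ∈ B) :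
    Polynomial.aeval a h ∈ B := by
  rw [Polynomial.aeval_eq_sum_range]
  refine sum_mem fun i _ => ?_
  rw [Algebra.smul_def]
  exact mul_mem (hF _ (h.coeff i).2) (pow_mem ha i)

omit [IsUltrametricDist W] in
/-- separability over a larger field with another base field -/
private theorem nc_sep_top {K1 K2 : Type} [Field K1] [Field K2] [Algebra K1 W] [Algebra K2 W]
    (E1 : IntermediateField K1 W) (E2 : IntermediateField K2 W) (h : ∀ z ∈ E1, z ∈ E2) {z : W}
    (hz : IsSeparable E1 z) : IsSeparable E2 z := by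
  let i : E1 →+* E2 := (algebraMap E1 W).codRestrict E2.toSubring (fun z => h z z.2)
  let _ : Algebra E1 E2 := i.toAlgebra
  have : IsScalarTower E1 E2 W := IsScalarTower.of_algebraMap_eq fun x => rfl
  exact IsSeparable.tower_top E2 hz

omit [IsUltrametricDist W] in
/-- a transcendence basis of a field of constants -/
private theorem nc_basis {m : ℕ} (C : IntermediateField k W) (hC : Cst m C) :
    ∃ v : Fin m → W, (∀ i, v i ∈ C) ∧
      ∀ P : MvPolynomial (Fin m) k, P ≠ 0 → ‖MvPolynomial.aeval v P‖ = 1 := by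
  obtain ⟨s, hs⟩ := exists_isTranscendenceBasis k C
  have hcard : Cardinal.mk s = Cardinal.mk (Fin m) := by
    rw [hs.cardinalMk_eq_trdeg, hC.trd, Cardinal.mk_fin]
  obtain ⟨e⟩ := Cardinal.eq.1 hcard
  have hind : AlgebraicIndependent k (fun i : Fin m => ((e.symm i : s) : C)) :=
    hs.1.comp _ e.symm.injective
  refine ⟨fun i => (((e.symm i : s) : C) : W), fun i => ((e.symm i : s) : C).2, fun P hP => ?_⟩
  have h1 : MvPolynomial.aeval (fun i : Fin m => (((e.symm i : s) : C) : W)) P =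
      ((MvPolynomial.aeval (fun i : Fin m => ((e.symm i : s) : C)) P : C) : W) := by
    have h2 := MvPolynomial.comp_aeval_apply (fun i : Fin m => ((e.symm i : s) : C)) C.val P
    exact h2.symm
  rw [h1]
  refine hC.unit _ (MvPolynomial.aeval (fun i : Fin m => ((e.symm i : s) : C)) P).2 ?_
  intro h0
  refine hP ?_
  have h3 : MvPolynomial.aeval (fun i : Fin m => ((e.symm i : s) : C)) P = 0 := Subtype.ext h0
  exact hind.eq_zero_of_aeval_eq_zero P h3

/-- the ideal generated by the `x' i` and `y'` -/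
private def ncJ {r : ℕ} (B : Subring W) (x' : Fin r → W) (y' : W) : AddSubgroup W where
  carrier := {z | ∃ (b : Fin r → W) (b0 : W), (∀ i, b i ∈ B) ∧ b0 ∈ B ∧
    z = ∑ i, b i * x' i + b0 * y'}
  add_mem' := by
    rintro z w ⟨b, b0, hb, hb0, rfl⟩ ⟨c, c0, hc, hc0, rfl⟩
    refine ⟨fun i => b i + c i, b0 + c0, fun i => add_mem (hb i) (hc i), add_mem hb0 hc0, ?_⟩
    simp only [add_mul, Finset.sum_add_distrib]
    ring
  zero_mem' := ⟨fun _ => 0, 0, fun _ => zero_mem B, zero_mem B, by simp⟩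
  neg_mem' := by
    rintro z ⟨b, b0, hb, hb0, rfl⟩
    refine ⟨fun i => -b i, -b0, fun i => neg_mem (hb i), neg_mem hb0, ?_⟩
    simp only [neg_mul, Finset.sum_neg_distrib]
    ring

omit [IsUltrametricDist W] in
private theorem ncJ_mul {r : ℕ} {B : Subring W} {x' : Fin r → W} {y' : W} {b z : W}
    (hb : b ∈ B) (hz : z ∈ ncJ B x' y') : b * z ∈ ncJ B x' y' := by
  obtain ⟨c, c0, hc, hc0, rfl⟩ := hz
  refine ⟨fun i => b * c i, b * c0, fun i => mul_mem hb (hc i), mul_mem hb hc0, ?_⟩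
  rw [mul_add, Finset.mul_sum]
  simp only [mul_assoc]

omit [IsUltrametricDist W] in
private theorem ncJ_x {r : ℕ} {B : Subring W} {x' : Fin r → W} {y' : W} (i : Fin r) :
    x' i ∈ ncJ B x' y' := by
  classical
  refine ⟨Pi.single i 1, 0, fun j => ?_, zero_mem B, ?_⟩
  · by_cases h : j = i
    · rw [h, Pi.single_eq_same]
      exact one_mem B
    · rw [Pi.single_eq_of_ne h]
      exact zero_mem B
  · rw [Finset.sum_eq_single i]
    · simp
    · intro j _ hj
      rw [Pi.single_eq_of_ne hj, zero_mul]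
    · intro h
      exact absurd (Finset.mem_univ i) h

omit [IsUltrametricDist W] in
private theorem ncJ_y {r : ℕ} {B : Subring W} {x' : Fin r → W} {y' : W} :
    y' ∈ ncJ B x' y' :=
  ⟨fun _ => 0, 1, fun _ => zero_mem B, one_mem B, by simp⟩

private theorem ncJ_norm {r : ℕ} {B : Subring W} (hB : ∀ z ∈ B, ‖z‖ ≤ 1) {x' : Fin r → W}
    (hx' : ∀ i, ‖x' i‖ < 1) {y' : W} (hy' : ‖y'‖ < 1) {z : W} (hz : z ∈ ncJ B x' y') :
    ‖z‖ < 1 := by
  obtain ⟨c, c0, hc, hc0, rfl⟩ := hz
  have h1 : ∀ {a b : W}, ‖a‖ ≤ 1 → ‖b‖ < 1 → ‖a * b‖ < 1 := by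
    intro a b ha hb
    rw [norm_mul]
    calc ‖a‖ * ‖b‖ ≤ 1 * ‖b‖ := mul_le_mul_of_nonneg_right ha (norm_nonneg _)
      _ = ‖b‖ := one_mul _
      _ < 1 := hb
  refine (IsUltrametricDist.norm_add_le_max _ _).trans_lt (max_lt ?_ (h1 (hB _ hc0) hy'))
  by_cases hr : (Finset.univ : Finset (Fin r)).Nonempty
  · obtain ⟨i, -, hi⟩ := IsUltrametricDist.exists_norm_finsetSum_le_of_nonempty hr
      (fun i => c i * x' i)
    exact hi.trans_lt (h1 (hB _ (hc i)) (hx' i))
  · rw [Finset.not_nonempty_iff_eq_empty.1 hr, Finset.sum_empty, norm_zero]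
    exact one_pos

/-- decomposition of all elements -/
private theorem nc_dec_all {r : ℕ} (C : IntermediateField k W) {X : Set W} {B : Subring W}
    (hBX : B = locV (ball W) (Subring.closure X)) (hB : ∀ z ∈ B, ‖z‖ ≤ 1)
    (hCB : ∀ e ∈ C, e ∈ B) {x' : Fin r → W}
    (hx' : ∀ i, ‖x' i‖ < 1) {y' : W} (hy' : ‖y'‖ < 1)
    (hX : ∀ g ∈ X, ∃ e ∈ C, g - e ∈ ncJ B x' y') {z : W} (hz : z ∈ B) :
    ∃ e ∈ C, z - e ∈ ncJ B x' y' := by
  have hinv : ∀ z ∈ B, ‖z‖ = 1 → z⁻¹ ∈ B := by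
    intro z hz h1
    rw [hBX] at hz ⊢
    exact nc_inv_mem _ hz h1
  let D : Subring W :=
    { carrier := {z | z ∈ B ∧ ∃ e ∈ C, z - e ∈ ncJ B x' y'}
      mul_mem' := by
        rintro z w ⟨hz, e, he, h1⟩ ⟨hw, f, hf, h2⟩
        refine ⟨mul_mem hz hw, e * f, mul_mem he hf, ?_⟩
        have h3 : z * w - e * f = z * (w - f) + f * (z - e) := by ring
        rw [h3]
        exact add_mem (ncJ_mul hz h2) (ncJ_mul (hCB f hf) h1)
      one_mem' := ⟨one_mem B, 1, one_mem C, by rw [sub_self]; exact zero_mem _⟩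
      add_mem' := by
        rintro z w ⟨hz, e, he, h1⟩ ⟨hw, f, hf, h2⟩
        refine ⟨add_mem hz hw, e + f, add_mem he hf, ?_⟩
        have h3 : z + w - (e + f) = (z - e) + (w - f) := by ring
        rw [h3]
        exact add_mem h1 h2
      zero_mem' := ⟨zero_mem B, 0, zero_mem C, by rw [sub_self]; exact zero_mem _⟩
      neg_mem' := by
        rintro z ⟨hz, e, he, h1⟩
        refine ⟨neg_mem hz, -e, neg_mem he, ?_⟩
        have h3 : -z - -e = -(z - e) := by ring
        rw [h3]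
        exact neg_mem h1 }
  have hXB : ∀ z ∈ X, z ∈ B := by
    intro z hz
    rw [hBX]
    exact C2_le_locV _ _ (Subring.subset_closure hz)
  have h1 : z ∈ D := by
    rw [hBX] at hz
    refine nc_locV_le (B := D) (fun g hg => ⟨hXB g hg, hX g hg⟩) ?_ hz
    rintro w ⟨hw, e, he, h1⟩ hw1
    have he0 : e ≠ 0 := by
      rintro rfl
      rw [sub_zero] at h1
      exact absurd hw1 (ncJ_norm hB hx' hy' h1).ne
    have hw0 : w ≠ 0 := by
      rintro rfl
      rw [norm_zero] at hw1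
      exact zero_ne_one hw1
    refine ⟨hinv w hw hw1, e⁻¹, inv_mem he, ?_⟩
    have h3 : w⁻¹ - e⁻¹ = -(w⁻¹ * e⁻¹) * (w - e) := by
      field_simp
      ring
    rw [h3]
    exact ncJ_mul (neg_mem (mul_mem (hinv w hw hw1) (hCB _ (inv_mem he)))) h1
  exact h1.2

end aux

/-- The localization of `C[x', y', w]` at the centre. -/
def BN {k W : Type} [Field k] [NormedField W] [IsUltrametricDist W] [Algebra k W] {r : ℕ}
    (C : IntermediateField k W) (x' : Fin r → W) (y' w : W) : Subring W :=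
  locV (ball W) (Subring.closure ((C : Set W) ∪ (Set.range x' ∪ {y', w})))

/-- See the header. -/
theorem new_chart {k W : Type} [Field k] [PerfectField k] [NormedField W] [IsUltrametricDist W]
    [Algebra k W] {r m : ℕ} (hr : 0 < r) (hA : AmbG r m k W) (S L L0 : IntermediateField k W)
    (hS : ∀ z : W, IsSeparable S z → z ∈ S) (hL0 : IsComplete (L0 : Set W)) (hL0L : L0 ≤ L)
    (C : IntermediateField k W) (hC : Cst m C) (hCL : C ≤ S ⊓ L0) (w : W) (hw : w ∈ S ⊓ L0)
    (hw1 : ‖w‖ ≤ 1) (x' : Fin r → W) (hx' : Indep x') (hxM : ∀ i, x' i ∈ S ⊓ L) (y' : W)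
    (hy' : ‖y'‖ < 1) (hyM : y' ∈ S ⊓ L)
    (hdense : ∀ z ∈ L, z ∈ cl (IntermediateField.adjoin C (Set.range x' ∪ {y', w})))
    (hsep : ∀ z ∈ S, IsSeparable (IntermediateField.adjoin C (Set.range x' ∪ {y', w})) z)
    (z0 : Fin (r + 1) → W) (hz0 : AlgebraicIndependent C z0)
    (hz0' : ∀ i, z0 i ∈ IntermediateField.adjoin C (Set.range x' ∪ {y', w}))
    (hmax : ∀ z ∈ BN C x' y' w, ‖z‖ < 1 → ∃ (b : Fin r → W) (b0 : W),
      (∀ i, b i ∈ BN C x' y' w) ∧ b0 ∈ BN C x' y' w ∧ z = ∑ i, b i * x' i + b0 * y') :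
    ∃ C' : IntermediateField k W, C' ≤ S ⊓ L0 ∧ Ch m S L (⟨C', x', y'⟩ : Tri k W r) ∧
      (∀ z ∈ C, z ∈ HO (S ⊓ L) (⟨C', x', y'⟩ : Tri k W r)) ∧
      w ∈ HO (S ⊓ L) (⟨C', x', y'⟩ : Tri k W r) ∧
      (∀ z ∈ Rw C w, ∃ e' ∈ C', ‖z - e'‖ < 1) ∧ (∀ e' ∈ C', ∃ z ∈ Rw C w, ‖z - e'‖ < 1) ∧
      ∀ e' ∈ C', IsSeparable (IntermediateField.adjoin k {z : W | z ∈ C' ∧ z ∈ Rw C w}) e' := by
  classical
  obtain ⟨t, ht⟩ := hC.fg
  obtain ⟨G, hGdef⟩ : ∃ G : Finset W, G = insert w t := ⟨_, rfl⟩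
  have htC : ∀ g ∈ t, g ∈ C := fun g hg => ht ▸ IntermediateField.subset_adjoin k _ hg
  have hCn : ∀ e ∈ C, ‖e‖ ≤ 1 := by
    intro e he
    by_cases h0 : e = 0
    · rw [h0, norm_zero]
      exact zero_le_one
    · exact (hC.unit e he h0).le
  have hwG : w ∈ G := by rw [hGdef]; exact Finset.mem_insert_self _ _
  have htG : ∀ g ∈ t, g ∈ G := fun g hg => by rw [hGdef]; exact Finset.mem_insert_of_mem hg
  have hGcase : ∀ g ∈ G, g = w ∨ g ∈ C := by
    intro g hg
    rw [hGdef] at hg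
    rcases Finset.mem_insert.1 hg with rfl | hg
    · exact Or.inl rfl
    · exact Or.inr (htC g hg)
  have hGS : ∀ g ∈ G, g ∈ S ∧ g ∈ L0 ∧ ‖g‖ ≤ 1 := by
    intro g hg
    rcases hGcase g hg with rfl | h
    · exact ⟨hw.1, hw.2, hw1⟩
    · exact ⟨(hCL h).1, (hCL h).2, hCn g h⟩
  obtain ⟨A, hAdef⟩ : ∃ A : Subring W, A = locV (ball W)
    (Subring.closure (Set.range (algebraMap k W) ∪ (G : Set W))) := ⟨_, rfl⟩
  have hkA : ∀ c : k, algebraMap k W c ∈ A := fun c => by
    rw [hAdef]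
    exact C2_le_locV _ _ (Subring.subset_closure (Or.inl ⟨c, rfl⟩))
  have hGA : ∀ g ∈ G, g ∈ A := fun g hg => by
    rw [hAdef]
    exact C2_le_locV _ _ (Subring.subset_closure (Or.inr hg))
  have hAinv : ∀ z ∈ A, ‖z‖ = 1 → z⁻¹ ∈ A := by
    intro z hz h1
    rw [hAdef] at hz ⊢
    exact nc_inv_mem _ hz h1
  have hCA : ∀ e ∈ C, e ∈ A := fun e he =>
    nc_field_mem (t : Set W) (fun z hz hz0 => hC.unit z (ht ▸ hz) hz0) hkA
      (fun z hz => hGA z (htG z hz)) hAinv (by rw [ht]; exact he)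
  obtain ⟨v, hvC, hvi⟩ := nc_basis C hC
  obtain ⟨Z, hZA, hZi, hsepA⟩ := res_basis hA G (fun g hg => (hGS g hg).2.2) A hAdef v
    (fun i => hCA _ (hvC i)) hvi
  obtain ⟨C', hC'le, hC', hZC', hres1, hres2, hC'sep, hlast⟩ := coef_field hA.unit S L0 hS hL0 G
    hGS A hAdef Z hZA hZi hsepA
  have hRwA : Rw C w = A := by
    apply le_antisymm
    · intro z hz
      refine nc_locV_le (B := A) ?_ hAinv hz
      rintro z (hz | hz)
      · exact hCA z hz
      · rw [Set.mem_singleton_iff] at hz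
        rw [hz]
        exact hGA w hwG
    · rw [hAdef]
      refine C2_locV_mono _ (Subring.closure_le.2 ?_)
      rintro z (⟨c, rfl⟩ | hz)
      · exact Subring.subset_closure (Or.inl (C.algebraMap_mem c))
      · rcases hGcase z hz with rfl | h
        · exact Subring.subset_closure (Or.inr rfl)
        · exact Subring.subset_closure (Or.inl h)
  -- the ring `B'`
  obtain ⟨X, hXdef⟩ : ∃ X : Set W, X = ((C' : Set W) ∪ Set.range x') ∪ ({y'} ∪ (G : Set W)) :=
    ⟨_, rfl⟩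
  obtain ⟨B', hB'def⟩ : ∃ B' : Subring W, B' = Bu (⟨C', x', y'⟩ : Tri k W r) x' G := ⟨_, rfl⟩
  have hB'X : B' = locV (ball W) (Subring.closure X) := by rw [hB'def, hXdef]; rfl
  have hB'inv : ∀ z ∈ B', ‖z‖ = 1 → z⁻¹ ∈ B' := by
    intro z hz h1
    rw [hB'X] at hz ⊢
    exact nc_inv_mem _ hz h1
  have hXB : ∀ z ∈ X, z ∈ B' := by
    intro z hz
    rw [hB'X]
    exact C2_le_locV _ _ (Subring.subset_closure hz)
  have hC'B : ∀ e ∈ C', e ∈ B' := fun e he => hXB e (by rw [hXdef]; exact Or.inl (Or.inl he))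
  have hxB : ∀ i, x' i ∈ B' := fun i => hXB _ (by rw [hXdef]; exact Or.inl (Or.inr ⟨i, rfl⟩))
  have hyB : y' ∈ B' := hXB _ (by rw [hXdef]; exact Or.inr (Or.inl rfl))
  have hGB : ∀ g ∈ G, g ∈ B' := fun g hg => hXB g (by rw [hXdef]; exact Or.inr (Or.inr hg))
  have hC'n : ∀ e ∈ C', ‖e‖ ≤ 1 := by
    intro e he
    by_cases h0 : e = 0
    · rw [h0, norm_zero]
      exact zero_le_one
    · exact (hC'.unit e he h0).le
  have hB'n : ∀ z ∈ B', ‖z‖ ≤ 1 := by
    have h1 : B' ≤ (ball W).toSubring := by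
      rw [hB'X]
      refine locV_le _ (Subring.closure_le.2 ?_)
      rw [hXdef]
      rintro z ((hz | ⟨i, rfl⟩) | (hz | hz))
      · exact hC'n z hz
      · exact (hx'.lt i).le
      · rw [Set.mem_singleton_iff] at hz
        rw [hz]
        exact hy'.le
      · exact (hGS z hz).2.2
    exact fun z hz => h1 hz
  have hAB : ∀ z ∈ A, z ∈ B' := by
    intro z hz
    rw [hAdef] at hz
    refine nc_locV_le (B := B') ?_ hB'inv hz
    rintro z (⟨c, rfl⟩ | hz)
    · exact hC'B _ (C'.algebraMap_mem c)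
    · exact hGB z hz
  have hBNB : ∀ z ∈ BN C x' y' w, z ∈ B' := by
    intro z hz
    refine nc_locV_le (B := B') ?_ hB'inv hz
    rintro z (hz | (⟨i, rfl⟩ | (rfl | hz)))
    · exact hAB z (hCA z hz)
    · exact hxB i
    · exact hyB
    · rw [Set.mem_singleton_iff] at hz
      rw [hz]
      exact hGB w hwG
  have hABN : ∀ z ∈ A, z ∈ BN C x' y' w := by
    intro z hz
    rw [← hRwA] at hz
    refine C2_locV_mono _ (Subring.closure_mono ?_) hz
    rintro z (hz | hz)
    · exact Or.inl hz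
    · exact Or.inr (Or.inr (Or.inr hz))
  have hF0A : ∀ z ∈ IntermediateField.adjoin k (Set.range Z), z ∈ A := by
    have h1 : IntermediateField.adjoin k (Set.range Z) ≤ C' :=
      IntermediateField.adjoin_le_iff.2 (by rintro z ⟨i, rfl⟩; exact hZC' i)
    exact fun z hz => nc_field_mem (Set.range Z) (fun z hz hz0 => hC'.unit z (h1 hz) hz0) hkA
      (by rintro z ⟨i, rfl⟩; exact hZA i) hAinv hz
  have hX : ∀ g ∈ X, ∃ e ∈ C', g - e ∈ ncJ B' x' y' := by
    rw [hXdef]
    rintro g ((hg | ⟨i, rfl⟩) | (hg | hg))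
    · exact ⟨g, hg, by rw [sub_self]; exact zero_mem _⟩
    · exact ⟨0, zero_mem _, by rw [sub_zero]; exact ncJ_x i⟩
    · rw [Set.mem_singleton_iff] at hg
      exact ⟨0, zero_mem _, by rw [sub_zero, hg]; exact ncJ_y⟩
    · obtain ⟨e, he, h, h0, h1, h2⟩ := hlast g (hGA g hg)
      obtain ⟨q, hq, hT⟩ := nc_taylor B' (fun z hz => hAB z (hF0A z hz)) h (a := e) (b := g)
        (hC'B e he) (hGB g hg)
      rw [h0] at hT
      obtain ⟨u, hudef⟩ : ∃ u : W, u = Polynomial.aeval g h.derivative + q * (e - g) := ⟨_, rfl⟩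
      have hsmall : ‖q * (e - g)‖ < 1 := by
        rw [norm_mul, norm_sub_rev]
        calc ‖q‖ * ‖g - e‖ ≤ 1 * ‖g - e‖ :=
              mul_le_mul_of_nonneg_right (hB'n q hq) (norm_nonneg _)
          _ = ‖g - e‖ := one_mul _
          _ < 1 := h1
      have hu1 : ‖u‖ = 1 := by
        rw [hudef, IsUltrametricDist.norm_add_eq_max_of_norm_ne_norm (by rw [h2]; exact hsmall.ne'),
          h2, max_eq_left hsmall.le]
      have huB : u ∈ B' := by
        rw [hudef]
        exact add_mem (nc_aeval_mem B' (fun z hz => hAB z (hF0A z hz)) _ (hGB g hg))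
          (mul_mem hq (sub_mem (hC'B e he) (hGB g hg)))
      have hu0 : u ≠ 0 := by
        rintro h3
        rw [h3, norm_zero] at hu1
        exact zero_ne_one hu1
      have hgh : Polynomial.aeval g h = (g - e) * u := by
        rw [hudef]
        linear_combination -hT
      have hn : ‖Polynomial.aeval g h‖ < 1 := by
        rw [hgh, norm_mul, hu1, mul_one]
        exact h1
      obtain ⟨b, b0, hb, hb0, hz⟩ := hmax _ (hABN _ (nc_aeval_mem A hF0A h (hGA g hg))) hn
      refine ⟨e, he, ?_⟩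
      have h3 : g - e = u⁻¹ * Polynomial.aeval g h := by
        rw [hgh]
        field_simp
      rw [h3]
      exact ncJ_mul (hB'inv u huB hu1) ⟨b, b0, fun i => hBNB _ (hb i), hBNB _ hb0, hz⟩
  have hdec : ∀ z ∈ B', ∃ e ∈ C', z - e ∈ ncJ B' x' y' := fun z hz =>
    nc_dec_all C' hB'X hB'n hC'B hx'.lt hy' hX hz
  have hgen : ∀ z ∈ B', ‖z‖ < 1 → z ∈ ncJ B' x' y' := by
    intro z hz h1
    obtain ⟨e, he, h2⟩ := hdec z hz
    have h3 := ncJ_norm hB'n hx'.lt hy' h2
    have he0 : e = 0 := by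
      by_contra hne
      have h4 := hC'.unit e he hne
      have h5 : e = z - (z - e) := by ring
      have h6 : ‖z - (z - e)‖ < 1 := by
        rw [sub_eq_add_neg]
        refine (IsUltrametricDist.norm_add_le_max _ _).trans_lt (max_lt h1 ?_)
        rw [norm_neg]
        exact h3
      rw [← h5, h4] at h6
      exact lt_irrefl _ h6
    rwa [he0, sub_zero] at h2
  have hMdl : Mdl (S ⊓ L) (⟨C', x', y'⟩ : Tri k W r) x' G := by
    refine ⟨Mt.refl hx', fun g hg => ⟨⟨(hGS g hg).1, hL0L (hGS g hg).2.1⟩, (hGS g hg).2.2⟩,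
      fun g hg => ?_⟩
    obtain ⟨e, he, b, b0, hb, hb0, h⟩ := hX g (by rw [hXdef]; exact Or.inr (Or.inr hg))
    rw [hB'def] at hb hb0
    exact ⟨e, he, b, b0, hb, hb0, by linear_combination h⟩
  -- separability and density
  obtain ⟨β, hβdef⟩ : ∃ β : Fin (r + 1) → W, β = Fin.cons y' x' := ⟨_, rfl⟩
  have hK : IntermediateField.adjoin C' (Set.range β) = Kxy C' x' y' := by
    rw [Kxy, hβdef, Fin.range_cons, Set.union_singleton]
  obtain ⟨G2, hG2⟩ : ∃ G2 : Finset W, G2 = G ∪ (Finset.univ.image x' ∪ {y'}) := ⟨_, rfl⟩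
  have hG2case : ∀ z : W, z ∈ G2 ↔ z ∈ G ∨ (∃ i, x' i = z) ∨ z = y' := by
    intro z
    rw [hG2]
    simp only [Finset.mem_union, Finset.mem_image, Finset.mem_univ, true_and,
      Finset.mem_singleton]
  have hB2 : locV (ball W) (Subring.closure (Set.range (algebraMap C' W) ∪ (G2 : Set W))) = B' := by
    rw [hB'X]
    congr 2
    rw [hXdef]
    ext z
    constructor
    · rintro (⟨c, rfl⟩ | hz)
      · exact Or.inl (Or.inl c.2)
      · rcases (hG2case z).1 hz with h | ⟨i, rfl⟩ | rfl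
        · exact Or.inr (Or.inr h)
        · exact Or.inl (Or.inr ⟨i, rfl⟩)
        · exact Or.inr (Or.inl rfl)
    · rintro ((hz | ⟨i, rfl⟩) | (hz | hz))
      · exact Or.inl ⟨⟨z, hz⟩, rfl⟩
      · exact Or.inr ((hG2case _).2 (Or.inr (Or.inl ⟨i, rfl⟩)))
      · exact Or.inr ((hG2case _).2 (Or.inr (Or.inr hz)))
      · exact Or.inr ((hG2case _).2 (Or.inl hz))
  have hβB : ∀ i, β i ∈ B' := by
    intro i
    rw [hβdef]
    refine Fin.cases ?_ (fun j => ?_) i
    · exact hyB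
    · exact hxB j
  have hβ1 : ∀ i, ‖β i‖ < 1 := by
    intro i
    rw [hβdef]
    refine Fin.cases ?_ (fun j => ?_) i
    · exact hy'
    · exact hx'.lt j
  have hgenβ : ∀ z ∈ B', ‖z‖ < 1 → ∃ b : Fin (r + 1) → W, (∀ i, b i ∈ B') ∧
      z = ∑ i, b i * β i := by
    intro z hz h1
    obtain ⟨b, b0, hb, hb0, h⟩ := hgen z hz h1
    refine ⟨Fin.cons b0 b, fun i => ?_, ?_⟩
    · refine Fin.cases ?_ (fun j => ?_) i
      · exact hb0
      · exact hb j
    · rw [h, Fin.sum_univ_succ, hβdef]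
      simp only [Fin.cons_zero, Fin.cons_succ]
      ring
  have hresC : ∀ z ∈ B', ∃ c : C', ‖z - algebraMap C' W c‖ < 1 := by
    intro z hz
    obtain ⟨e, he, h2⟩ := hdec z hz
    exact ⟨⟨e, he⟩, ncJ_norm hB'n hx'.lt hy' h2⟩
  have hG2B : ∀ g ∈ G2, g ∈ B' := by
    intro g hg
    rcases (hG2case g).1 hg with h | ⟨i, rfl⟩ | rfl
    · exact hGB g h
    · exact hxB i
    · exact hyB
  have huC : ∀ c : C', c ≠ 0 → ‖algebraMap C' W c‖ = 1 := by
    intro c hc
    exact hC'.unit _ c.2 (fun h => hc (Subtype.ext h))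
  have hun := unramU (k := C') huC G2 (fun g hg => hB'n g (hG2B g hg))
    (fun g hg => hresC g (hG2B g hg)) β (by rw [hB2]; exact hβB) hβ1
    (by rw [hB2]; exact hgenβ)
  have hds := densU (k := C') B' (fun z hz => hB'n z hz) (fun c => hC'B _ c.2) hresC β hβB hβ1
    hgenβ
  rw [hK] at hun hds
  have hBad : ∀ z ∈ B', z ∈ IntermediateField.adjoin C' (G2 : Set W) := by
    intro z hz
    rw [← hB2] at hz
    refine nc_locV_le (B := (IntermediateField.adjoin C' (G2 : Set W)).toSubalgebra.toSubring)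
      ?_ (fun z hz _ => ?_) hz
    · rintro z (⟨c, rfl⟩ | hz)
      · exact (IntermediateField.adjoin C' (G2 : Set W)).algebraMap_mem c
      · exact IntermediateField.subset_adjoin C' _ hz
    · exact (IntermediateField.adjoin C' (G2 : Set W)).inv_mem hz
  have hEin : ∀ (E : IntermediateField C' W), (∀ z ∈ B', z ∈ E) →
      ∀ z ∈ IntermediateField.adjoin C (Set.range x' ∪ {y', w}), z ∈ E := by
    intro E hE z hz
    induction hz using IntermediateField.adjoin_induction with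
    | mem x hx =>
      rcases hx with ⟨i, rfl⟩ | rfl | hx
      · exact hE _ (hxB i)
      · exact hE _ hyB
      · rw [Set.mem_singleton_iff] at hx
        rw [hx]
        exact hE _ (hGB w hwG)
    | algebraMap x => exact hE _ (hAB _ (hCA _ x.2))
    | add x y _ _ h1 h2 => exact add_mem h1 h2
    | mul x y _ _ h1 h2 => exact mul_mem h1 h2
    | inv x _ h1 => exact inv_mem h1
  have hsepB : ∀ z ∈ B', IsSeparable (Kxy C' x' y') z := fun z hz => hun z (hBad z hz)
  have hsepE : ∀ z ∈ IntermediateField.adjoin C (Set.range x' ∪ {y', w}),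
      IsSeparable (Kxy C' x' y') z := fun z hz =>
    hun z (hEin _ hBad z hz)
  have hdsE : ∀ z ∈ IntermediateField.adjoin C (Set.range x' ∪ {y', w}),
      z ∈ cl (Kxy C' x' y') := hEin _ hds
  have hpar : Par C' x' y' := by
    refine ⟨hx', hy', ?_⟩
    exact tr_changeU C C' hC.trd hC'.trd z0 hz0 x' y' hx'.ne
      (fun e he => (hsepB e (hAB _ (hCA _ he))).isIntegral.isAlgebraic)
      (fun i => (hsepE _ (hz0' i)).isIntegral.isAlgebraic)
  have hC'M : C' ≤ S ⊓ L := fun z hz => ⟨(hC'le hz).1, hL0L (hC'le hz).2⟩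
  have hBHO : ∀ z ∈ B', z ∈ HO (S ⊓ L) (⟨C', x', y'⟩ : Tri k W r) := by
    intro z hz
    refine Subring.subset_closure ⟨x', G, hMdl, ?_⟩
    rw [← hB'def]
    exact hz
  refine ⟨C', hC'le, ⟨⟨hC', hpar, hC'M, hxM, hyM⟩, ?_, ?_⟩, fun z hz => hBHO z (hAB _ (hCA _ hz)),
    hBHO w (hGB w hwG), ?_, ?_, ?_⟩
  · intro z hz
    have h1 : z ∈ closure (IntermediateField.adjoin C (Set.range x' ∪ {y', w}) : Set W) :=
      hdense z hz
    have h2 : IsClosed ((cl (Kxy C' x' y') : IntermediateField C' W) : Set W) := by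
      change IsClosed (closure (Kxy C' x' y' : Set W))
      exact isClosed_closure
    exact closure_minimal hdsE h2 h1
  · intro z hz
    have h1 := hsep z hz
    have h2 : IsSeparable (separableClosure (Kxy C' x' y') W) z :=
      nc_sep_top _ (separableClosure (Kxy C' x' y') W) (fun z hz => hsepE z hz) h1
    exact IsSeparable.of_algebra_isSeparable_of_isSeparable (Kxy C' x' y') h2
  · rw [hRwA]
    exact hres1
  · rw [hRwA]
    exact hres2
  · intro e he
    rw [hRwA]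
    have h1 : ∀ z ∈ IntermediateField.adjoin k (Set.range Z),
        z ∈ IntermediateField.adjoin k {z : W | z ∈ C' ∧ z ∈ A} := by
      intro z hz
      refine IntermediateField.adjoin_le_iff.2 ?_ hz
      rintro z ⟨i, rfl⟩
      exact IntermediateField.subset_adjoin k _ ⟨hZC' i, hZA i⟩
    exact nc_sep_top _ _ h1 (hC'sep e he)

end Pool.Agent.Lib.TU
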