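import Pool.Agent.Lib.TU.GamB

/-!
# Module PolyN: localizations of polynomial rings and of integrally closed rings

`icl_locV`: fractions: clear.  Integrality: let `z ∈ F` be a root of a monic polynomial of degree `n` with
coefficients `p_j = a_j / b` (common denominator `b ∈ R`, `‖b‖ = 1`): `b z` is integral over `R`, so
`b z ∈ R`, `z = (b z) / b`.
`icl_poly`: `k[z]` is a polynomial ring over a field, a unique factorization domain, so integrally
closed, noetherian; `F = k(z)`.
-/

namespace Pool.Agent.Lib.TU

open Pool.Agent.Lib.MP_3029eb_ag Pool.Agent.Lib.MP_3029eb_ag.Abh Pool.Agent.Lib.TDO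

private theorem polyN_den {K : Type} [Field K] (V : ValuationSubring K) (R : Subring K)
    (c : ℕ → K) (hc : ∀ j, c j ∈ locV V R) (s : Finset ℕ) :
    ∃ b ∈ R, V.valuation b = 1 ∧ ∀ j ∈ s, c j * b ∈ R := by
  classical
  induction s using Finset.induction_on with
  | empty => exact ⟨1, one_mem _, map_one _, fun j hj => absurd hj (Finset.notMem_empty j)⟩
  | insert i s _ ih =>
    obtain ⟨b, hb, hb1, h⟩ := ih
    obtain ⟨a, ha, d, hd, hd1, had⟩ := hc i
    refine ⟨b * d, mul_mem hb hd, by rw [map_mul, hb1, hd1, one_mul], ?_⟩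
    intro j hj
    rcases Finset.mem_insert.1 hj with rfl | hj
    · have : c j * (b * d) = a * b := by rw [← had]; ring
      rw [this]; exact mul_mem ha hb
    · have : c j * (b * d) = c j * b * d := by ring
      rw [this]; exact mul_mem (h j hj) hd

/-- See the header. -/
theorem icl_locV {W : Type} [NormedField W] [IsUltrametricDist W] (R : Subring W)
    (F : Subfield W) (hR : ICl R F) : ICl (locV (ball W) R) F := by
  have hne : ∀ b : W, (ball W).valuation b = 1 → b ≠ 0 := by
    intro b hb h0
    rw [h0, map_zero] at hb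
    exact zero_ne_one hb
  refine ⟨?_, ?_, ?_⟩
  · rintro z ⟨a, ha, b, hb, hb1, hab⟩
    have h1 : z = a / b := by rw [eq_div_iff (hne b hb1)]; exact hab
    rw [h1]
    exact div_mem (hR.le a ha) (hR.le b hb)
  · intro z hz
    obtain ⟨a, ha, b, hb, hb0, hab⟩ := hR.frac z hz
    exact ⟨a, le_locV _ _ ha, b, le_locV _ _ hb, hb0, hab⟩
  · intro z hz f hf hfc hfz
    obtain ⟨b, hb, hb1, hbj⟩ := polyN_den (ball W) R (fun j => f.coeff j) hfc
      (Finset.range (f.natDegree + 1))
    have h1 : (f.scaleRoots b).Monic := (Polynomial.monic_scaleRoots_iff b).2 hf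
    have h2 : ∀ j, (f.scaleRoots b).coeff j ∈ R := by
      intro j
      rw [Polynomial.coeff_scaleRoots]
      rcases lt_trichotomy j f.natDegree with hj | hj | hj
      · obtain ⟨m, hm⟩ := Nat.exists_eq_add_of_lt hj
        have e : f.natDegree - j = m + 1 := by omega
        rw [e, pow_succ', ← mul_assoc]
        exact mul_mem (hbj j (Finset.mem_range.2 (by omega))) (pow_mem hb m)
      · rw [hj, Nat.sub_self, pow_zero, mul_one, Polynomial.coeff_natDegree, hf.leadingCoeff]
        exact one_mem _
      · rw [Polynomial.coeff_eq_zero_of_natDegree_lt hj, zero_mul]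
        exact zero_mem _
    have h3 : (f.scaleRoots b).eval (b * z) = 0 := by
      rw [Polynomial.scaleRoots_eval_mul, hfz, mul_zero]
    have h4 : b * z ∈ R := hR.int _ (mul_mem (hR.le b hb) hz) _ h1 h2 h3
    exact ⟨b * z, h4, b, hb, hb1, mul_comm z b⟩

open scoped IntermediateField.algebraAdjoinAdjoin in
/-- See the header. -/
theorem icl_poly {k W : Type} [Field k] [Field W] [Algebra k W] {n : ℕ} (z : Fin n → W)
    (hz : AlgebraicIndependent k z) :
    ICl (Subring.closure (Set.range (algebraMap k W) ∪ Set.range z))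
        (IntermediateField.adjoin k (Set.range z)).toSubfield ∧
      IsNoetherianRing (Subring.closure (Set.range (algebraMap k W) ∪ Set.range z)) := by
  have hCA : (Algebra.adjoin k (Set.range z)).toSubring =
      Subring.closure (Set.range (algebraMap k W) ∪ Set.range z) :=
    Algebra.adjoin_eq_ring_closure _
  rw [← hCA]
  have hU : UniqueFactorizationMonoid (Algebra.adjoin k (Set.range z)) :=
    MulEquiv.uniqueFactorizationMonoid hz.aevalEquiv.toMulEquiv inferInstance
  have hno : IsNoetherianRing (Algebra.adjoin k (Set.range z)) :=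
    isNoetherianRing_of_ringEquiv _ hz.aevalEquiv.toRingEquiv
  have hic : IsIntegrallyClosed (Algebra.adjoin k (Set.range z)) := inferInstance
  refine ⟨⟨?_, ?_, ?_⟩, hno⟩
  · intro a ha
    exact IntermediateField.algebra_adjoin_le_adjoin k _ ha
  · intro w hw
    obtain ⟨r, hr, s, hs, h⟩ := IntermediateField.mem_adjoin_iff_div.1 hw
    by_cases h0 : s = 0
    · refine ⟨0, zero_mem _, 1, one_mem _, one_ne_zero, ?_⟩
      rw [h, h0, div_zero, zero_mul]
    · exact ⟨r, hr, s, hs, h0, by rw [h, div_mul_cancel₀ _ h0]⟩
  · intro w hw f hf hfc hfw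
    let K := IntermediateField.adjoin k (Set.range z)
    let A := Algebra.adjoin k (Set.range z)
    have hcof : (↑f.coeffs : Set W) ⊆ (A.toSubring : Set W) := by
      intro x hx
      obtain ⟨j, _, hj⟩ := Polynomial.mem_coeffs_iff.1 hx
      rw [hj]; exact hfc j
    let g : Polynomial A := f.toSubring A.toSubring hcof
    have hg : g.Monic := (Polynomial.monic_toSubring f A.toSubring hcof).2 hf
    have hint : IsIntegral A (⟨w, hw⟩ : K) := by
      refine ⟨g, hg, ?_⟩
      apply Subtype.ext
      have h1 : ((Polynomial.eval₂ (algebraMap A K) (⟨w, hw⟩ : K) g : K) : W) =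
          Polynomial.eval₂ ((algebraMap K W).comp (algebraMap A K)) w g := by
        exact Polynomial.hom_eval₂ g (algebraMap A K) (algebraMap K W) ⟨w, hw⟩
      rw [h1]
      have h2 : f = g.map (Subring.subtype A.toSubring) :=
        (Polynomial.map_toSubring f A.toSubring hcof).symm
      have h3 : Polynomial.eval₂ ((algebraMap K W).comp (algebraMap A K)) w g = f.eval w := by
        conv_rhs => rw [h2, Polynomial.eval_map]
        rfl
      rw [h3, hfw]; rfl
    obtain ⟨y, hy⟩ := (IsIntegrallyClosed.isIntegral_iff (R := A) (K := K)).1 hint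
    have h4 : (y : W) = w := congrArg (fun t : K => (t : W)) hy
    rw [← h4]
    exact y.2

/-- `locV` of a noetherian subring of the unit ball is noetherian (localization at the centre,
`C3`/`C4` files of `MP_3029eb_ag`, see `TDO.noeth_fg`). -/
theorem noeth_locV {W : Type} [NormedField W] [IsUltrametricDist W] (R : Subring W)
    (hR : R ≤ (ball W).toSubring) (hn : IsNoetherianRing R) :
    IsNoetherianRing (locV (ball W) R) := by
  have := hn
  exact isNoetherianRing_locV (ball W)

end Pool.Agent.Lib.TU
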