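import Pool.Agent.Lib.TU.LeadU
import Pool.Agent.Lib.TU.RedU
import Pool.Agent.Lib.TU.PolyU
import Pool.Agent.Lib.TDO.PolyB
import Pool.Agent.Lib.TDO.Subst

/-!
# Module StAS2: the Artin-Schreier stage, `e f = 1` (paper 5.1)

Everything is over one trivially normed base field `C` (`k` below).  `y = x^B (c0 + y')`.
`T (a, j) := (a + j B, j)` (an additive equivalence), `Stage x y x y' 1 B c0 T`.  `exists_subst`: `P2`,
`ev x y' P2 = ev x y P`, coefficients `(taylor c0 (part T P β)).coeff i`.  `exists_redU`: `P'`.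
`lead_stageU` (with `w = c0 + y'`, `x' = x`): `α, a1, j1, m1, D`, `φ = part T P α`, `m1 = j1`,
`natDegree φ ≤ j1 + D ≤ d`, `t_i := (taylor c0 φ).coeff i`, `φ.coeff n = P.coeff (α - nB, n)`
(`part_coeff`, `part_coeff_ne`).  `‖x^α‖ ≥ ‖x^a0 y^d‖ ≥ 1` by `hge`.
`‖x^α‖ = 1`: `P' = 0` or `Lead P' 0 0` as in `StAS1`.
`‖x^α‖ > 1`, `α ∉ pℤ^r`: `P'.coeff (α, i) = t_i`.  If some `t_i ≠ 0`, `i < d`: `d' ≤ i < d`.  Otherwise
`taylor_eq_case`: `φ.coeff 0 ≠ 0`, `φ.coeff d ≠ 0`, `t_d ≠ 0`; `Lead P' α d`.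
`‖x^α‖ > 1`, `α ∈ pℤ^r`: `φ` is not in `C^p[T^p]` (as in `StAS1`: otherwise a term of `P` with exponent
divisible by `p`, different from `(0,0)`, has a `p`-th power as coefficient).  If some `t_i`, `i < d`, is
nonzero and not of `p`-type: `d' ≤ i < d`.  Otherwise `polyU`: `t_d ≠ 0` is not of `p`-type,
`φ.coeff d ≠ 0`, and `φ.coeff 0 ≠ 0` or `φ.coeff 1 ≠ 0`; `Lead P' α d`.
In the cases `Lead P' α d`: `P.coeff (α - dB, d) ≠ 0` so `‖x^(α - dB)‖ ≤ ‖x^a0‖`; and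
`‖x^a0 y^d‖ ≤ ‖x^α‖ = ‖x^(α - dB) y^d‖` so `α - dB = a0`, `α = a0 + dB`, `α - B = a0 + (d-1)B`.
Supports: `(a', j')` in the support of `P'`: `(p^n a', p^n j')` in that of `P2`, which comes from some
`(a, j)` in that of `P` with `a + jB = p^n a'`, `p^n j' ≤ j`.
-/

namespace Pool.Agent.Lib.TU

open Pool.Agent.Lib.MP_3029eb_ag Pool.Agent.Lib.MP_3029eb_ag.Abh Pool.Agent.Lib.TDO

private theorem as2_taylor {k : Type} [Field k] {c : k} {f : Polynomial k} {i : ℕ}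
    (h : (Polynomial.taylor c f).coeff i ≠ 0) : ∃ n, i ≤ n ∧ f.coeff n ≠ 0 := by
  by_contra hcon
  push Not at hcon
  apply h
  rw [Polynomial.taylor_coeff]
  have h0 : Polynomial.hasseDeriv i f = 0 := by
    ext n
    rw [Polynomial.hasseDeriv_coeff, hcon (n + i) (by omega), mul_zero, Polynomial.coeff_zero]
  rw [h0, Polynomial.eval_zero]

private theorem as2_div {r p : ℕ} (T : ((Fin r → ℤ) × ℤ) ≃+ ((Fin r → ℤ) × ℤ))
    {a a' : Fin r → ℤ} {j m : ℤ} (h : T (a, j) = (p • a', (p : ℤ) * m)) :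
    (∃ a'' : Fin r → ℤ, a = p • a'') ∧ (p : ℤ) ∣ j := by
  have h2 : (p • (a', m) : (Fin r → ℤ) × ℤ) = (p • a', (p : ℤ) * m) :=
    Prod.ext rfl (nsmul_eq_mul p m)
  have h1 : (a, j) = p • T.symm (a', m) := by
    rw [← map_nsmul, h2, ← h, T.symm_apply_apply]
  have h3 : a = p • (T.symm (a', m)).1 := congrArg Prod.fst h1
  have h4 : j = p • (T.symm (a', m)).2 := congrArg Prod.snd h1
  exact ⟨⟨_, h3⟩, ⟨(T.symm (a', m)).2, by rw [h4, nsmul_eq_mul]⟩⟩

/-- the transformation `(a, j) ↦ (a + j B, j)` -/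
private def as2T {r : ℕ} (B : Fin r → ℤ) : ((Fin r → ℤ) × ℤ) ≃+ ((Fin r → ℤ) × ℤ) where
  toFun m := (m.1 + m.2 • B, m.2)
  invFun m := (m.1 - m.2 • B, m.2)
  left_inv m := Prod.ext (by show m.1 + m.2 • B - m.2 • B = m.1; abel) rfl
  right_inv m := Prod.ext (by show m.1 - m.2 • B + m.2 • B = m.1; abel) rfl
  map_add' m n := Prod.ext (by
    show m.1 + n.1 + (m.2 + n.2) • B = (m.1 + m.2 • B) + (n.1 + n.2 • B)
    rw [add_smul]; abel) rfl

/-- See the header. -/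
theorem st_as2 {k W : Type} [Field k] [NormedField W] [IsUltrametricDist W]
    [Algebra k W] {r : ℕ} (hu : ∀ c : k, c ≠ 0 → ‖algebraMap k W c‖ = 1) (p : ℕ) [Fact p.Prime]
    [CharP k p] {x : Fin r → W} {y : W} (hP : Par k x y) (y' : W) (hy' : ‖y'‖ < 1)
    (B : Fin r → ℤ) (c0 : k) (hc0 : c0 ≠ 0) (hy : y = mon x B * (algebraMap k W c0 + y'))
    (P : LP k r) (hred : RedC p x P)
    (hge : ∀ a j, P.coeff (a, j) ≠ 0 → 1 ≤ ‖mon x a * y ^ j‖)
    {a0 : Fin r → ℤ} {d : ℕ} (hl : Lead x P a0 d) (hd : 2 ≤ d) :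
    ∃ P' : LP k r, RedC p x P' ∧
      (∃ s ∈ LL k x y', ‖ev x y P - ev x y' P' - (s ^ p - s)‖ < 1) ∧
      ((P' = 0 ∨ ∃ (a0' : Fin r → ℤ) (d' : ℕ), Lead x P' a0' d' ∧ d' < d) ∨
        (Lead x P' (a0 + d • B) d ∧
          (P.coeff (a0 + d • B, 0) ≠ 0 ∨ P.coeff (a0 + (d - 1) • B, 1) ≠ 0))) ∧
      ∀ a' j', P'.coeff (a', j') ≠ 0 → ∃ n : ℕ, ∃ a j, P.coeff (a, j) ≠ 0 ∧ p ^ n * j' ≤ j ∧
        p ^ n • a' = a + j • B := by
  classical
  have hpp : p.Prime := Fact.out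
  have hxne := hP.ind.ne
  obtain ⟨w, hw⟩ : ∃ w : W, w = algebraMap k W c0 + y' := ⟨_, rfl⟩
  have hw1 : ‖w‖ = 1 := by
    have h1 := hu c0 hc0
    rw [hw, IsUltrametricDist.norm_add_eq_max_of_norm_ne_norm (by rw [h1]; exact hy'.ne'), h1,
      max_eq_left hy'.le]
  obtain ⟨T, hTf⟩ : ∃ T : ((Fin r → ℤ) × ℤ) ≃+ ((Fin r → ℤ) × ℤ),
      ∀ (a : Fin r → ℤ) (j : ℤ), T (a, j) = (a + j • B, j) := ⟨as2T B, fun _ _ => rfl⟩
  have hTB : T (-B, ((1 : ℕ) : ℤ)) = (0, 1) := by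
    rw [hTf, Nat.cast_one, one_smul, neg_add_cancel]
  have hm : ∀ (a : Fin r → ℤ) (j : ℤ), mon x a * y ^ j =
      mon x (T (a, j)).1 * w ^ (T (a, j)).2 := by
    intro a j
    rw [hTf]
    show mon x a * y ^ j = mon x (a + j • B) * w ^ j
    rw [mon_add _ hxne, mon_zsmul, hy, ← hw, mul_zpow]
    ring
  have hst : Stage x y x y' 1 B c0 T := by
    refine ⟨le_refl 1, hc0, hP.ind, hy', hTB, ?_, ?_⟩
    · rw [pow_one]; exact hy
    · intro a j
      rw [hm, hw]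
  have hyB : ‖y‖ = ‖mon x B‖ := by
    rw [hy, ← hw, norm_mul, hw1, mul_one]
  have hy0 : y ≠ 0 := by
    have h1 : ‖y‖ ≠ 0 := by
      rw [hyB]; exact norm_ne_zero_iff.2 (mon_ne x hxne B)
    exact norm_ne_zero_iff.1 h1
  have hT : ∀ a j, P.coeff (a, j) ≠ 0 → 0 ≤ (T (a, (j : ℤ))).2 := by
    intro a j _
    rw [hTf]
    exact Int.natCast_nonneg j
  obtain ⟨P2, hev2, hP2⟩ := exists_subst hst P hT
  obtain ⟨α, a1, j1, m1, D, ha1, hTa1, hjD, hφ0, hmax, hlow, hdeg, hφ, hnorm⟩ :=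
    lead_stageU hP.ind hy0 hP.y1 hw1 (le_refl 1) hTB hm P hT hl
  set φ := part T P α with hφdef
  obtain ⟨P', hred', ⟨s, hsLL, hs⟩, hcoef, hsame⟩ := exists_redU hu p hP.ind hy' P2
  have hS : ∃ s ∈ LL k x y', ‖ev x y P - ev x y' P' - (s ^ p - s)‖ < 1 :=
    ⟨s, hsLL, by rw [← hev2]; exact hs⟩
  -- exponents of `P2`
  have hP2e : ∀ a i, P2.coeff (a, i) ≠ 0 → ∃ n, i ≤ n ∧ ∃ a'' j'', P.coeff (a'', j'') ≠ 0 ∧
      T (a'', (j'' : ℤ)) = (a, (n : ℤ)) := by
    intro a i h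
    rw [hP2] at h
    obtain ⟨n, hn, h1⟩ := as2_taylor h
    exact ⟨n, hn, part_coeff_ne T P hT a n h1⟩
  have hP2m : ∀ a i, P2.coeff (a, i) ≠ 0 → ‖mon x a‖ ≤ ‖mon x α‖ := by
    intro a i h
    obtain ⟨n, -, a'', j'', h1, h2⟩ := hP2e a i h
    have h3 := hmax a'' j'' h1
    rwa [h2] at h3
  have htrack : ∀ a' j', P'.coeff (a', j') ≠ 0 → ∃ n : ℕ, ∃ a j, P.coeff (a, j) ≠ 0 ∧
      p ^ n * j' ≤ j ∧ p ^ n • a' = a + j • B := by
    intro a' j' h
    obtain ⟨n, hn⟩ := hcoef a' j' h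
    obtain ⟨m, hm, a'', j'', h1, h2⟩ := hP2e _ _ hn
    rw [hTf] at h2
    have h3 : a'' + (j'' : ℤ) • B = p ^ n • a' := congrArg Prod.fst h2
    have h4 : (j'' : ℤ) = (m : ℤ) := congrArg Prod.snd h2
    have h5 : j'' = m := by exact_mod_cast h4
    refine ⟨n, a'', j'', h1, by omega, ?_⟩
    rw [← h3, natCast_zsmul]
  have hα1 : 1 ≤ ‖mon x α‖ := (hge a0 d hl.mem).trans hnorm
  refine ⟨P', hred', hS, ?_, htrack⟩
  rcases eq_or_lt_of_le hα1 with hα1 | hα1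
  · -- norm one
    left
    by_cases hP'0 : P' = 0
    · exact Or.inl hP'0
    right
    have hexp : ∀ a j, P'.coeff (a, j) ≠ 0 → a = 0 ∧ j = 0 := by
      intro a j h
      rcases hred' a j h with h1 | ⟨h1, -⟩
      · exact h1
      · exfalso
        obtain ⟨n, hn⟩ := hcoef a j h
        have h2 := hP2m _ _ hn
        rw [mon_nsmul, norm_pow, ← hα1] at h2
        have h3 : 1 < ‖mon x a‖ ^ (p ^ n) := one_lt_pow₀ h1 (pow_ne_zero n hpp.ne_zero)
        exact absurd h2 (not_le.2 h3)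
    have hne : P'.coeff (0, 0) ≠ 0 := by
      intro h0
      apply hP'0
      ext ⟨a, j⟩
      by_contra h1
      obtain ⟨h2, h3⟩ := hexp a j h1
      rw [h2, h3] at h1
      exact h1 h0
    refine ⟨0, 0, ⟨hne, ?_, fun j _ => Nat.zero_le j⟩, by omega⟩
    intro a j h
    rw [(hexp a j h).1]
  · -- norm greater than one
    have hcoα : ∀ j, P'.coeff (α, j) = if PT p α j ((Polynomial.taylor c0 φ).coeff j) then 0 else
        (Polynomial.taylor c0 φ).coeff j := by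
      intro j
      rw [hsame α hα1 hP2m j, hP2]
    have hP'm : ∀ a j, P'.coeff (a, j) ≠ 0 → ‖mon x a‖ ≤ ‖mon x α‖ := by
      intro a j h
      rcases hred' a j h with h1 | ⟨h1, -⟩
      · rw [h1.1, mon_zero, norm_one]
        exact hα1.le
      · obtain ⟨n, hn⟩ := hcoef a j h
        have h2 := hP2m _ _ hn
        rw [mon_nsmul, norm_pow] at h2
        refine le_trans ?_ h2
        exact le_self_pow₀ h1.le (pow_ne_zero n hpp.ne_zero)
    have hlead : ∀ i, P'.coeff (α, i) ≠ 0 → ∃ d' ≤ i, Lead x P' α d' := by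
      intro i hi
      have hex : ∃ j, P'.coeff (α, j) ≠ 0 := ⟨i, hi⟩
      refine ⟨Nat.find hex, Nat.find_min' hex hi, ⟨Nat.find_spec hex, hP'm, ?_⟩⟩
      intro j hj
      exact Nat.find_min' hex hj
    by_cases hgood : ∃ i < d, P'.coeff (α, i) ≠ 0
    · obtain ⟨i, hid, hi⟩ := hgood
      obtain ⟨d', hd'i, hL⟩ := hlead i hi
      exact Or.inl (Or.inr ⟨α, d', hL, lt_of_le_of_lt hd'i hid⟩)
    push Not at hgood
    right
    have hφm1 : φ.coeff m1 = P.coeff (a1, j1) := by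
      have h1 := part_coeff T P hT a1 j1 ha1
      rw [hTa1] at h1
      have h2 : ((m1 : ℤ)).toNat = m1 := Int.toNat_natCast m1
      simp only [h2] at h1
      rw [hφdef, h1]
    have hTa1' := hTa1
    rw [hTf] at hTa1'
    have hαa1 : α = a1 + (j1 : ℤ) • B := (congrArg Prod.fst hTa1').symm
    have hm1j1 : m1 = j1 := by
      have h1 : (j1 : ℤ) = (m1 : ℤ) := congrArg Prod.snd hTa1'
      exact_mod_cast h1.symm
    have hdegd : φ.natDegree ≤ d := by omega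
    -- the exponent `β` with `β + d B = α`
    have hβ : ∀ β : Fin r → ℤ, P.coeff (β, d) ≠ 0 → β + d • B = α → β = a0 := by
      intro β hβ1 hβ2
      have h1 : ‖mon x β‖ ≤ ‖mon x a0‖ := hl.max β d hβ1
      have h2 : ‖mon x a0‖ ≤ ‖mon x β‖ := by
        have h3 := hnorm
        rw [← hβ2, mon_add _ hxne, mon_nsmul, norm_mul, norm_mul, norm_pow, norm_pow, hyB] at h3
        have h4 : 0 < ‖mon x B‖ ^ d := pow_pos (norm_pos_iff.2 (mon_ne _ hxne _)) d
        exact le_of_mul_le_mul_right h3 h4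
      exact norm_mon_inj hP.ind (le_antisymm h1 h2)
    -- the main facts on `φ`
    have hmain : φ.coeff d ≠ 0 ∧ P'.coeff (α, d) ≠ 0 ∧ (φ.coeff 0 ≠ 0 ∨ φ.coeff 1 ≠ 0) := by
      by_cases hα : ∃ a' : Fin r → ℤ, α = p • a'
      · have hφnp : ¬ ∀ i, φ.coeff i ≠ 0 → p ∣ i ∧ ∃ b : k, φ.coeff i = b ^ p := by
          intro hall
          have hm1ne : φ.coeff m1 ≠ 0 := by rw [hφm1]; exact ha1
          obtain ⟨⟨m, hm⟩, b, hb⟩ := hall m1 hm1ne
          obtain ⟨a', ha'⟩ := hα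
          have h4 : T (a1, (j1 : ℤ)) = (p • a', (p : ℤ) * (m : ℤ)) := by
            rw [hTa1, ha', hm, Nat.cast_mul]
          obtain ⟨h5, h6⟩ := as2_div T h4
          have h6' : p ∣ j1 := by exact_mod_cast h6
          have hPT : PT p a1 j1 (P.coeff (a1, j1)) := ⟨h5, h6', b, by rw [← hφm1]; exact hb⟩
          rcases hred a1 j1 ha1 with ⟨h7, h8⟩ | ⟨-, h7⟩
          · rw [hαa1, h7, h8] at hα1
            have h9 : (0 : Fin r → ℤ) + ((0 : ℕ) : ℤ) • B = 0 := by simp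
            rw [h9, mon_zero, norm_one] at hα1
            exact lt_irrefl _ hα1
          · exact h7 hPT
        obtain ⟨h1, h2, h3, h4⟩ := polyU p c0 hc0 φ hφnp d (by omega) hdegd (by
          intro i hi hne
          have h5 := hgood i hi
          rw [hcoα] at h5
          by_cases h6 : PT p α i ((Polynomial.taylor c0 φ).coeff i)
          · exact ⟨h6.2.1, h6.2.2⟩
          · rw [if_neg h6] at h5
            exact absurd h5 hne)
        refine ⟨h1, ?_, h4⟩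
        rw [hcoα, if_neg (fun h => h3 ⟨h.2.1, h.2.2⟩)]
        exact h2
      · have hnPT : ∀ i e, ¬ PT p α i (e : k) := fun i e h => hα h.1
        obtain ⟨h1, h2, h3⟩ := taylor_eq_case c0 hc0 φ hφ0 d hdegd (by
          intro i hi
          have h5 := hgood i hi
          rw [hcoα, if_neg (hnPT _ _)] at h5
          exact h5)
        refine ⟨h2, ?_, Or.inl h1⟩
        rw [hcoα, if_neg (hnPT _ _)]
        exact h3
    obtain ⟨h2, hcα, h01⟩ := hmain
    obtain ⟨i2, hi2, h3, h4⟩ := hφ d h2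
    have hjd : j1 + i2 * 1 = d := by omega
    rw [hjd] at h3 h4
    rw [hTf] at h4
    have h5 : a1 - i2 • B + (d : ℤ) • B = α := congrArg Prod.fst h4
    have h6 := hβ (a1 - i2 • B) h3 (by rw [← h5, natCast_zsmul])
    have hαe : α = a0 + d • B := by rw [← h6, ← h5, natCast_zsmul]
    obtain ⟨d', hd', hL⟩ := hlead d hcα
    have hd'' : d' = d := by
      by_contra h
      exact hL.mem (hgood d' (by omega))
    rw [hd'', hαe] at hL
    refine ⟨hL, ?_⟩
    rcases h01 with h0 | h1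
    · left
      obtain ⟨i3, hi3, h7, h8⟩ := hφ 0 h0
      have hi30 : i3 = 0 := by omega
      have hj10 : j1 = 0 := by omega
      rw [hi30, zero_smul, sub_zero, zero_mul, add_zero, hj10] at h7
      have h9 : a1 = a0 + d • B := by
        rw [← hαe, hαa1, hj10]
        simp
      rw [← h9]
      exact h7
    · right
      obtain ⟨i3, hi3, h7, h8⟩ := hφ 1 h1
      have hj13 : j1 + i3 * 1 = 1 := by omega
      rw [hj13] at h7 h8
      rw [hTf] at h8
      have h9 : a1 - i3 • B + ((1 : ℕ) : ℤ) • B = α := congrArg Prod.fst h8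
      have h10 : a1 - i3 • B = a0 + (d - 1) • B := by
        have h11 : a1 - i3 • B = α - B := by
          rw [← h9, Nat.cast_one, one_smul]
          abel
        rw [h11, hαe]
        obtain ⟨d1, rfl⟩ : ∃ d1, d = d1 + 1 := ⟨d - 1, by omega⟩
        rw [Nat.add_sub_cancel, add_smul, one_smul]
        abel
      rw [← h10]
      exact h7

end Pool.Agent.Lib.TU
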