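import Pool.Agent.Lib.TU.NC
import Pool.Agent.Lib.TU.GW
import Pool.Agent.Lib.TDO.Um

/-!
# Module StEx: existence of stages (paper section 3)

`c` a chart of `L`.  By `hA.rank` for `y, x_1, .., x_r` (`y ≠ 0`, `x` independent) there is `e ≥ 1` minimal
with `‖y‖^e = ‖x^B‖` (see `TDO/StageEx.lean`).  `w := y^e x^(-B)`, norm one.  `exists_um_nonneg` for the
elements of `X` with norm `> 1` gives `x'` and `T`; if `e = 1` take `x' = x`, `T (a, j) = (a + jB, j)`
(an additive equivalence; `T2 = j ≥ 0`).  Elements `(a, j) ∈ X`, `j ≥ 0`, with `‖x^a y^j‖ = 1`: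
`j = n e` by minimality of `e` (the integers `j` with `‖y‖^j ∈ ‖x^ℤ‖` form the group `eℤ`), `a = -nB`, so
`T (a, j) = n T(-B, e) = (0, n)`, `n ≥ 0`.
`exists_irr`: `g` monic irreducible over `c.C` with `‖g(w)‖ < 1`.  `w` is transcendental over `c.C` (`x, y`
algebraically independent, `e ≥ 1`), so `g(w) ≠ 0`; `y' := g(w)`.
`c.C(x', w) = c.C(x, y)`: `x' i` and `w` are monomials in `x, y` (`T.symm`, as in
`TDO/StageRf.lean`) and `x i, y` are monomials in `x', w`.
`g.natDegree = 1`: `g = X - C e0`, `w = e0 + y'`: `c' := ⟨c.C, x', y'⟩`: `c.C(x', y') = c.C(x, y)`, a chart;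
`Par` by `tr_of_algebraic`; `w = e0 + y' ∈ HO`, `Rw c.C w ⊆ HO`, so every element of `Rw c.C w` is
congruent to an element of `c.C` (polynomial in `y'`).
Otherwise `new_chart` with `L0 := cl (c.C(w))` as an intermediate field of `W / k`
(`IntermediateField.restrictScalars`, `TDO.isComplete_cl`), `C := c.C`, `z0 = (y, x)`.
`hmax`: an element of `c.C[x', y', w]` is `R(w) + (x', y')`-part; if its norm is `< 1` then
`‖R(w)‖ < 1`, `g ∣ R` (`gw_lt_iff`), `R(w) ∈ y' c.C[w]`; for a quotient `n / d`, `‖d‖ = 1`, the numerator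
has norm `< 1`.
-/

namespace Pool.Agent.Lib.TU

open Pool.Agent.Lib.MP_3029eb_ag Pool.Agent.Lib.MP_3029eb_ag.Abh Pool.Agent.Lib.TDO

/-- The shear `(a, j) ↦ (a + j • B, j)`. -/
private def stex_shear {r : ℕ} (B : Fin r → ℤ) :
    ((Fin r → ℤ) × ℤ) ≃+ ((Fin r → ℤ) × ℤ) where
  toFun m := (m.1 + m.2 • B, m.2)
  invFun m := (m.1 - m.2 • B, m.2)
  left_inv m := by
    refine Prod.ext ?_ rfl
    change m.1 + m.2 • B - m.2 • B = m.1
    rw [add_sub_cancel_right]
  right_inv m := by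
    refine Prod.ext ?_ rfl
    change m.1 - m.2 • B + m.2 • B = m.1
    rw [sub_add_cancel]
  map_add' m m' := by
    refine Prod.ext ?_ rfl
    change m.1 + m'.1 + (m.2 + m'.2) • B = (m.1 + m.2 • B) + (m'.1 + m'.2 • B)
    rw [add_smul]
    abel

private theorem stex_rank {k W : Type} [Field k] [NormedField W] [Algebra k W] {r m : ℕ}
    (hA : AmbG r m k W) {x : Fin r → W} {y : W} (hx : Indep x) (hy : y ≠ 0) :
    ∃ e : ℕ, 1 ≤ e ∧ ∃ B : Fin r → ℤ, ‖y‖ ^ e = ‖mon x B‖ := by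
  have hy0 : ‖y‖ ≠ 0 := norm_ne_zero_iff.2 hy
  obtain ⟨a, ha, hna⟩ := hA.rank (Fin.cons y x) (by
    intro i
    refine Fin.cases ?_ (fun i => ?_) i
    · exact hy
    · exact hx.ne i)
  have hm : mon (Fin.cons y x : Fin (r + 1) → W) a = y ^ a 0 * mon x (fun i => a i.succ) := by
    unfold mon
    rw [Fin.prod_univ_succ, Fin.cons_zero]
    congr 1
  rw [hm, norm_mul, norm_zpow] at hna
  have ha0 : a 0 ≠ 0 := by
    intro h0
    rw [h0, zpow_zero, one_mul] at hna
    have h1 := hx.indep _ hna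
    refine ha (funext fun i => ?_)
    refine Fin.cases ?_ (fun i => ?_) i
    · exact h0
    · exact congrFun h1 i
  have hmon : ‖mon x (fun i => a i.succ)‖ ≠ 0 :=
    norm_ne_zero_iff.2 (mon_ne x hx.ne _)
  rcases lt_or_gt_of_ne ha0 with h | h
  · refine ⟨(-(a 0)).toNat, by omega, fun i => a i.succ, ?_⟩
    rw [← zpow_natCast, Int.toNat_of_nonneg (by omega), zpow_neg]
    exact inv_eq_of_mul_eq_one_right hna
  · refine ⟨(a 0).toNat, by omega, -fun i => a i.succ, ?_⟩
    rw [← zpow_natCast, Int.toNat_of_nonneg (by omega), mon_neg, norm_inv]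
    exact eq_inv_of_mul_eq_one_left hna

/-- The monomial part of a stage. -/
private theorem stex_data {W : Type} [NormedField W] {r : ℕ} (x : Fin r → W) (hx : Indep x)
    (y : W) (hy : y ≠ 0) (hex : ∃ e : ℕ, 1 ≤ e ∧ ∃ B : Fin r → ℤ, ‖y‖ ^ e = ‖mon x B‖)
    (X : Finset ((Fin r → ℤ) × ℕ)) (hX : ∀ n ∈ X, 1 ≤ ‖mon x n.1 * y ^ n.2‖) :
    ∃ (x' : Fin r → W) (e : ℕ) (B : Fin r → ℤ) (w : W)
      (T : ((Fin r → ℤ) × ℤ) ≃+ ((Fin r → ℤ) × ℤ)),
      Indep x' ∧ 1 ≤ e ∧ ‖w‖ = 1 ∧ w = y ^ e * mon x (-B) ∧ y ^ e = mon x B * w ∧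
      T (-B, (e : ℤ)) = (0, 1) ∧
      (∀ (a : Fin r → ℤ) (j : ℤ), mon x a * y ^ j = mon x' (T (a, j)).1 * w ^ (T (a, j)).2) ∧
      (∀ n ∈ X, 0 ≤ (T (n.1, (n.2 : ℤ))).2) ∧
      (e = 1 → x' = x ∧ ∀ (a : Fin r → ℤ) (j : ℤ), T (a, j) = (a + j • B, j)) := by
  classical
  obtain ⟨e, heq⟩ : ∃ e, e = Nat.find hex := ⟨_, rfl⟩
  obtain ⟨he, B, hB⟩ := Nat.find_spec hex
  rw [← heq] at he hB
  have hmin : ∀ e' : ℕ, 1 ≤ e' → e' < e → ∀ B' : Fin r → ℤ, ‖y‖ ^ e' ≠ ‖mon x B'‖ := by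
    intro e' h1 h2 B' h3
    rw [heq] at h2
    exact Nat.find_min hex h2 ⟨h1, B', h3⟩
  have hmB : mon x B ≠ 0 := mon_ne x hx.ne B
  obtain ⟨w, hw⟩ : ∃ w, w = y ^ e * mon x (-B) := ⟨_, rfl⟩
  have hw1 : ‖w‖ = 1 := by
    rw [hw, norm_mul, norm_pow, hB, mon_neg, norm_inv, mul_inv_cancel₀]
    exact norm_ne_zero_iff.2 hmB
  have hwB : y ^ e = mon x B * w := by
    rw [hw, mon_neg]
    field_simp
  by_cases he1 : e = 1
  · refine ⟨x, e, B, w, stex_shear B, hx, he, hw1, hw, hwB, ?_, ?_, ?_, ?_⟩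
    · rw [he1]
      refine Prod.ext ?_ rfl
      change -B + ((1 : ℕ) : ℤ) • B = 0
      rw [Nat.cast_one, one_smul, neg_add_cancel]
    · intro a j
      change mon x a * y ^ j = mon x (a + j • B) * w ^ j
      rw [mon_add x hx.ne, mon_zsmul, mul_assoc, ← mul_zpow, ← hwB, he1, pow_one]
    · intro m _
      change (0 : ℤ) ≤ (m.2 : ℤ)
      exact Int.natCast_nonneg _
    · intro _
      exact ⟨rfl, fun a j => rfl⟩
  · obtain ⟨x', T, hx', hT, hm, hnn⟩ := exists_um_nonneg x hx y hy e he B hB hmin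
      ((X.image fun m => (m.1, (m.2 : ℤ))).filter fun m => 1 < ‖mon x m.1 * y ^ m.2‖) (by
      intro m hm
      exact (Finset.mem_filter.1 hm).2)
    rw [← hw] at hm
    refine ⟨x', e, B, w, T, hx', he, hw1, hw, hwB, hT, hm, ?_, fun h => absurd h he1⟩
    intro n hn
    rcases lt_or_eq_of_le (hX n hn) with h1 | h1
    · refine hnn _ (Finset.mem_filter.2 ⟨Finset.mem_image_of_mem _ hn, ?_⟩)
      change 1 < ‖mon x n.1 * y ^ (n.2 : ℤ)‖
      rw [zpow_natCast]
      exact h1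
    · have h2 := hm n.1 (n.2 : ℤ)
      have h3 : ‖mon x' (T (n.1, (n.2 : ℤ))).1‖ = 1 := by
        have h4 := congrArg norm h2
        rw [norm_mul, norm_mul, norm_zpow, norm_zpow, hw1, one_zpow, mul_one] at h4
        rw [← h4, ← norm_zpow, ← norm_mul, zpow_natCast, ← h1]
      have h5 := hx'.indep _ h3
      -- the exponent is a multiple of (-B, e)
      obtain ⟨t, ht⟩ : ∃ t : ℤ, t = (T (n.1, (n.2 : ℤ))).2 := ⟨_, rfl⟩
      have h6 : T (n.1, (n.2 : ℤ)) = T (t • ((-B, (e : ℤ)) : (Fin r → ℤ) × ℤ)) := by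
        rw [map_zsmul, hT, ht]
        refine Prod.ext ?_ ?_
        · rw [h5]
          change (0 : Fin r → ℤ) = (T (n.1, (n.2 : ℤ))).2 • (0 : Fin r → ℤ)
          rw [smul_zero]
        · change _ = (T (n.1, (n.2 : ℤ))).2 • (1 : ℤ)
          rw [smul_eq_mul, mul_one]
      have h7 := T.injective h6
      have h8 : (n.2 : ℤ) = t * (e : ℤ) := by
        have := congrArg Prod.snd h7
        exact this
      rw [← ht]
      by_contra hneg
      push Not at hneg
      have h9 : t * (e : ℤ) < 0 := mul_neg_of_neg_of_pos hneg (by omega)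
      omega

/-- `w = y ^ e x ^ (-B)` is transcendental. -/
private theorem stex_trans {C W : Type} [Field C] [Field W] [Algebra C W] {r : ℕ}
    {x : Fin r → W} {y : W} (htr : ∀ P : LP C r, ev x y P = 0 → P = 0) {e : ℕ} (he : 1 ≤ e)
    {B : Fin r → ℤ} {w : W} (hw : w = y ^ e * mon x (-B)) {R : Polynomial C} (hR : R ≠ 0) :
    Polynomial.aeval w R ≠ 0 := by
  classical
  intro h0
  obtain ⟨P, hP⟩ : ∃ P : LP C r, P = ∑ i ∈ R.support,
      (AddMonoidAlgebra.single ((i • (-B) : Fin r → ℤ), e * i) (R.coeff i) : LP C r) := ⟨_, rfl⟩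
  have h1 : ev x y P = Polynomial.aeval w R := by
    rw [hP, ev_sum, Polynomial.aeval_def, Polynomial.eval₂_eq_sum, Polynomial.sum_def]
    refine Finset.sum_congr rfl fun i _ => ?_
    rw [ev_single, hw]
    change algebraMap C W (R.coeff i) * (mon x (i • (-B)) * y ^ (e * i)) = _
    rw [mon_nsmul, mul_pow, pow_mul, mul_comm (mon x (-B) ^ i)]
  have h2 : P = 0 := htr P (h1.trans h0)
  obtain ⟨i0, hi0⟩ : ∃ i0, R.coeff i0 ≠ 0 := by
    by_contra hcon
    push Not at hcon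
    exact hR (Polynomial.ext fun i => by rw [hcon i, Polynomial.coeff_zero])
  have h3 : P.coeff ((i0 • (-B) : Fin r → ℤ), e * i0) = R.coeff i0 := by
    rw [hP, AddMonoidAlgebra.coeff_sum, Finsupp.finsetSum_apply,
      Finset.sum_eq_single_of_mem i0 (Polynomial.mem_support_iff.2 hi0)]
    · rw [AddMonoidAlgebra.coeff_single, Finsupp.single_eq_same]
    · intro i _ hi
      rw [AddMonoidAlgebra.coeff_single, Finsupp.single_apply, if_neg]
      intro hh
      exact hi (Nat.eq_of_mul_eq_mul_left he (congrArg Prod.snd hh))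
  rw [h2, AddMonoidAlgebra.coeff_zero] at h3
  exact hi0 h3.symm

/-- The fields `C(x', y', w)` and `C(x, y)` agree. -/
private theorem stex_field {C W : Type} [Field C] [Field W] [Algebra C W] {r : ℕ}
    {x x' : Fin r → W} {y y' w : W} {e : ℕ} {B : Fin r → ℤ} (hw : w = y ^ e * mon x (-B))
    {T : ((Fin r → ℤ) × ℤ) ≃+ ((Fin r → ℤ) × ℤ)}
    (hm : ∀ (a : Fin r → ℤ) (j : ℤ), mon x a * y ^ j = mon x' (T (a, j)).1 * w ^ (T (a, j)).2)
    {g : Polynomial C} (hy' : y' = Polynomial.aeval w g) :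
    IntermediateField.adjoin C (Set.range x' ∪ {y', w}) = Kxy C x y := by
  have hwK : w ∈ Kxy C x y := by
    rw [hw]
    exact mul_mem (pow_mem (y_mem_Kxy x y) _) (mon_mem_Kxy x y _)
  refine le_antisymm ?_ ?_
  · rw [IntermediateField.adjoin_le_iff]
    rintro z (⟨i, rfl⟩ | hz)
    · have h1 := hm (T.symm (Pi.single i 1, 0)).1 (T.symm (Pi.single i 1, 0)).2
      rw [Prod.mk.eta, T.apply_symm_apply, zpow_zero, mul_one, mon_single] at h1
      change x' i ∈ Kxy C x y
      rw [← h1]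
      exact mul_mem (mon_mem_Kxy x y _) (zpow_mem (y_mem_Kxy x y) _)
    · rcases hz with rfl | hz
      · change z ∈ Kxy C x y
        rw [hy', Polynomial.aeval_def, Polynomial.eval₂_eq_sum, Polynomial.sum_def]
        exact sum_mem fun i _ => mul_mem ((Kxy C x y).algebraMap_mem _) (pow_mem hwK _)
      · rw [Set.mem_singleton_iff.1 hz]
        exact hwK
  · have hwA : w ∈ IntermediateField.adjoin C (Set.range x' ∪ {y', w}) :=
      IntermediateField.subset_adjoin C _ (Or.inr (Or.inr rfl))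
    have hxA : ∀ i, x' i ∈ IntermediateField.adjoin C (Set.range x' ∪ {y', w}) := fun i =>
      IntermediateField.subset_adjoin C _ (Or.inl ⟨i, rfl⟩)
    apply Kxy_le
    · intro i
      have h1 := hm (Pi.single i 1) 0
      rw [zpow_zero, mul_one, mon_single] at h1
      rw [h1]
      exact mul_mem (mon_mem x' hxA _) (zpow_mem hwA _)
    · have h1 := hm 0 1
      rw [mon_zero, one_mul, zpow_one] at h1
      rw [h1]
      exact mul_mem (mon_mem x' hxA _) (zpow_mem hwA _)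

section

variable {k W : Type} [Field k] [NormedField W] [IsUltrametricDist W] [Algebra k W] {r m : ℕ}

/-- Residues of elements of `C[w]` localized, for `g` of degree one. -/
private theorem stex_res1 {C : IntermediateField k W} {w : W} {g : Polynomial C}
    (hC : ∀ e ∈ C, e ≠ 0 → ‖e‖ = 1) (hw : ‖w‖ ≤ 1) (gm : g.Monic) (gi : Irreducible g)
    (hg : ‖Polynomial.aeval w g‖ < 1) (hg0 : Polynomial.aeval w g ≠ 0) (hd : g.natDegree = 1)
    {z : W} (hz : z ∈ Rw C w) : ∃ e' ∈ C, ‖z - e'‖ < 1 := by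
  obtain ⟨a, ha⟩ : ∃ a : C, g = Polynomial.X - Polynomial.C a :=
    ⟨-g.coeff 0, by rw [Polynomial.C_neg, sub_neg_eq_add]; exact gm.eq_X_add_C hd⟩
  have key : ∀ H : Polynomial C, ‖Polynomial.aeval w H - ((H.eval a : C) : W)‖ < 1 := by
    intro H
    have h1 : g ∣ H - Polynomial.C (H.eval a) := by
      rw [ha]
      exact Polynomial.X_sub_C_dvd_sub_C_eval
    have h2 := (gw_lt_iff hC hw gi hg _).2 h1
    rw [map_sub, Polynomial.aeval_C] at h2
    exact h2
  obtain ⟨hz1, hz2⟩ := (gw_mem_Rw hC hw gi hg hg0 z).1 hz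
  obtain ⟨H1, H2, -, hn2, hzH⟩ := gw_frac hC hw gi hg hg0 hz1 hz2
  have hb1 : ‖((H2.eval a : C) : W)‖ = 1 := by
    refine hC _ (H2.eval a).2 fun h0 => ?_
    have h3 := key H2
    rw [h0, sub_zero, hn2] at h3
    exact lt_irrefl _ h3
  have hb0 : ((H2.eval a : C) : W) ≠ 0 := by
    rw [← norm_ne_zero_iff, hb1]; exact one_ne_zero
  refine ⟨((H1.eval a : C) : W) / ((H2.eval a : C) : W), div_mem (H1.eval a).2 (H2.eval a).2, ?_⟩
  have h3 : z - ((H1.eval a : C) : W) / ((H2.eval a : C) : W) =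
      (-(z * (Polynomial.aeval w H2 - ((H2.eval a : C) : W))) +
        (Polynomial.aeval w H1 - ((H1.eval a : C) : W))) / ((H2.eval a : C) : W) := by
    rw [eq_div_iff hb0, sub_mul, div_mul_cancel₀ _ hb0, ← hzH]
    ring
  rw [h3, norm_div, hb1, div_one]
  refine (IsUltrametricDist.norm_add_le_max _ _).trans_lt (max_lt ?_ (key H1))
  rw [norm_neg, norm_mul]
  exact (mul_le_of_le_one_left (norm_nonneg _) hz2).trans_lt (key H2)

/-- Change of the parameters, with the same constants. -/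
private theorem stex_case1 {S L : IntermediateField k W} {c : Tri k W r} (hc : Ch m S L c)
    {x' : Fin r → W} (hx' : Indep x') {y' : W} (hy1 : ‖y'‖ < 1)
    (hK : Kxy c.C x' y' = Kxy c.C c.x c.y) : Ch m S L (⟨c.C, x', y'⟩ : Tri k W r) := by
  have hxK : ∀ i, x' i ∈ Kxy c.C c.x c.y := fun i => by
    rw [← hK]
    exact x_mem_Kxy x' y' i
  have hyK : y' ∈ Kxy c.C c.x c.y := by
    rw [← hK]
    exact y_mem_Kxy x' y'
  have htr : ∀ P : LP c.C r, ev x' y' P = 0 → P = 0 := by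
    refine tr_of_algebraic c.x c.y hc.ok.par.ind.ne hc.ok.par.tr x' y' hx'.ne (fun i => ?_) ?_
    · have h1 : c.x i ∈ Kxy c.C x' y' := by
        rw [hK]
        exact x_mem_Kxy c.x c.y i
      exact isAlgebraic_algebraMap (⟨c.x i, h1⟩ : Kxy c.C x' y')
    · have h1 : c.y ∈ Kxy c.C x' y' := by
        rw [hK]
        exact y_mem_Kxy c.x c.y
      exact isAlgebraic_algebraMap (⟨c.y, h1⟩ : Kxy c.C x' y')
  refine ⟨⟨hc.ok.cst, ⟨hx', hy1, htr⟩, hc.ok.CM, fun i => hc.ok.Kxy_mem (hxK i),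
    hc.ok.Kxy_mem hyK⟩, ?_, ?_⟩
  · change ∀ z ∈ L, z ∈ cl (Kxy c.C x' y')
    rw [hK]
    exact hc.dense
  · change ∀ z ∈ S, IsSeparable (Kxy c.C x' y') z
    rw [hK]
    exact hc.sep

/-- Membership in the ideal generated by the `x' i` and `y'`. -/
private def stexJ (A : Subring W) (x' : Fin r → W) (y' : W) (z : W) : Prop :=
  ∃ (b : Fin r → W) (b0 : W), (∀ i, b i ∈ A) ∧ b0 ∈ A ∧ z = ∑ i, b i * x' i + b0 * y'

omit [IsUltrametricDist W] in
private theorem stexJ_add {A : Subring W} {x' : Fin r → W} {y' z z' : W} (h : stexJ A x' y' z)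
    (h' : stexJ A x' y' z') : stexJ A x' y' (z + z') := by
  obtain ⟨b, b0, h1, h2, rfl⟩ := h
  obtain ⟨b', b0', h1', h2', rfl⟩ := h'
  refine ⟨fun i => b i + b' i, b0 + b0', fun i => add_mem (h1 i) (h1' i), add_mem h2 h2', ?_⟩
  simp only [add_mul, Finset.sum_add_distrib]
  ring

omit [IsUltrametricDist W] in
private theorem stexJ_mul {A : Subring W} {x' : Fin r → W} {y' z : W} (h : stexJ A x' y' z)
    {a : W} (ha : a ∈ A) : stexJ A x' y' (a * z) := by
  obtain ⟨b, b0, h1, h2, rfl⟩ := h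
  refine ⟨fun i => a * b i, a * b0, fun i => mul_mem ha (h1 i), mul_mem ha h2, ?_⟩
  rw [mul_add, Finset.mul_sum]
  simp only [mul_assoc]

omit [IsUltrametricDist W] in
private theorem stexJ_zero {A : Subring W} {x' : Fin r → W} {y' : W} : stexJ A x' y' 0 := by
  refine ⟨fun _ => 0, 0, fun _ => zero_mem _, zero_mem _, ?_⟩
  simp

omit [IsUltrametricDist W] in
private theorem stexJ_x {A : Subring W} {x' : Fin r → W} {y' : W} (i : Fin r) :
    stexJ A x' y' (x' i) := by
  classical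
  refine ⟨Pi.single i 1, 0, fun j => ?_, zero_mem _, ?_⟩
  · by_cases h : j = i
    · rw [h, Pi.single_eq_same]; exact one_mem _
    · rw [Pi.single_eq_of_ne h]; exact zero_mem _
  · rw [zero_mul, add_zero, Finset.sum_eq_single_of_mem i (Finset.mem_univ i)]
    · rw [Pi.single_eq_same, one_mul]
    · intro j _ h
      rw [Pi.single_eq_of_ne h, zero_mul]

omit [IsUltrametricDist W] in
private theorem stexJ_y {A : Subring W} {x' : Fin r → W} {y' : W} : stexJ A x' y' y' := by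
  refine ⟨fun _ => 0, 1, fun _ => zero_mem _, one_mem _, ?_⟩
  simp

omit [IsUltrametricDist W] in
private theorem stexJ_mono {A A' : Subring W} (hA : A ≤ A') {x' : Fin r → W} {y' z : W}
    (h : stexJ A x' y' z) : stexJ A' x' y' z := by
  obtain ⟨b, b0, h1, h2, rfl⟩ := h
  exact ⟨b, b0, fun i => hA (h1 i), hA h2, rfl⟩

private theorem stexJ_lt {A : Subring W} (hA : ∀ z ∈ A, ‖z‖ ≤ 1) {x' : Fin r → W} {y' z : W}
    (hx : ∀ i, ‖x' i‖ < 1) (hy : ‖y'‖ < 1) (h : stexJ A x' y' z) : ‖z‖ < 1 := by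
  obtain ⟨b, b0, h1, h2, rfl⟩ := h
  refine (IsUltrametricDist.norm_add_le_max _ _).trans_lt (max_lt ?_ ?_)
  · rcases Nat.eq_zero_or_pos r with rfl | hr
    · rw [Finset.univ_eq_empty, Finset.sum_empty, norm_zero]; exact zero_lt_one
    · have : Nonempty (Fin r) := ⟨⟨0, hr⟩⟩
      obtain ⟨i, -, hi⟩ := IsUltrametricDist.exists_norm_finsetSum_le (Finset.univ : Finset (Fin r))
        (fun i => b i * x' i)
      refine hi.trans_lt ?_
      rw [norm_mul]
      exact (mul_le_of_le_one_left (norm_nonneg _) (hA _ (h1 i))).trans_lt (hx i)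
  · rw [norm_mul]
    exact (mul_le_of_le_one_left (norm_nonneg _) (hA _ h2)).trans_lt hy

omit [IsUltrametricDist W] in
/-- Elements of `C[x', y', w]` are polynomials in `w` up to elements of the ideal. -/
private theorem stex_dec {C : IntermediateField k W} {x' : Fin r → W} {w : W} {g : Polynomial C}
    {z : W}
    (hz : z ∈ Subring.closure ((C : Set W) ∪ (Set.range x' ∪ {Polynomial.aeval w g, w}))) :
    ∃ R : Polynomial C, stexJ (Subring.closure ((C : Set W) ∪
      (Set.range x' ∪ {Polynomial.aeval w g, w}))) x' (Polynomial.aeval w g)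
        (z - Polynomial.aeval w R) := by
  obtain ⟨A, hA⟩ : ∃ A : Subring W, A = Subring.closure ((C : Set W) ∪
    (Set.range x' ∪ {Polynomial.aeval w g, w})) := ⟨_, rfl⟩
  rw [← hA]
  have hw : w ∈ A := by
    rw [hA]; exact Subring.subset_closure (Or.inr (Or.inr (Or.inr rfl)))
  have hCA : ∀ e : C, (e : W) ∈ A := fun e => by
    rw [hA]; exact Subring.subset_closure (Or.inl e.2)
  have hR : ∀ R : Polynomial C, Polynomial.aeval w R ∈ A := by
    intro R
    rw [Polynomial.aeval_def, Polynomial.eval₂_eq_sum, Polynomial.sum_def]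
    exact sum_mem fun i _ => mul_mem (hCA _) (pow_mem hw _)
  induction hz using Subring.closure_induction with
  | mem z hz =>
    rcases hz with hz | ⟨i, rfl⟩ | rfl | hz
    · refine ⟨Polynomial.C ⟨z, hz⟩, ?_⟩
      rw [Polynomial.aeval_C]
      have h1 : z - algebraMap C W ⟨z, hz⟩ = 0 := sub_self z
      rw [h1]
      exact stexJ_zero
    · refine ⟨0, ?_⟩
      rw [map_zero, sub_zero]
      exact stexJ_x i
    · refine ⟨0, ?_⟩
      rw [map_zero, sub_zero]
      exact stexJ_y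
    · refine ⟨Polynomial.X, ?_⟩
      rw [Polynomial.aeval_X, Set.mem_singleton_iff.1 hz, sub_self]
      exact stexJ_zero
  | zero =>
    refine ⟨0, ?_⟩
    rw [map_zero, sub_zero]
    exact stexJ_zero
  | one =>
    refine ⟨1, ?_⟩
    rw [map_one, sub_self]
    exact stexJ_zero
  | add a b _ _ ha hb =>
    obtain ⟨P, hP⟩ := ha
    obtain ⟨Q, hQ⟩ := hb
    refine ⟨P + Q, ?_⟩
    have h1 : a + b - Polynomial.aeval w (P + Q) =
        (a - Polynomial.aeval w P) + (b - Polynomial.aeval w Q) := by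
      rw [map_add]; ring
    rw [h1]
    exact stexJ_add hP hQ
  | neg a _ ha =>
    obtain ⟨P, hP⟩ := ha
    refine ⟨-P, ?_⟩
    have h1 : -a - Polynomial.aeval w (-P) = (-1) * (a - Polynomial.aeval w P) := by
      rw [map_neg]; ring
    rw [h1]
    exact stexJ_mul hP (neg_mem (one_mem _))
  | mul a b ha' _ ha hb =>
    obtain ⟨P, hP⟩ := ha
    obtain ⟨Q, hQ⟩ := hb
    refine ⟨P * Q, ?_⟩
    have h1 : a * b - Polynomial.aeval w (P * Q) =
        a * (b - Polynomial.aeval w Q) + Polynomial.aeval w Q * (a - Polynomial.aeval w P) := by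
      rw [map_mul]; ring
    rw [h1]
    refine stexJ_add (stexJ_mul hQ ?_) (stexJ_mul hP (hR Q))
    rw [hA]
    exact ha'

/-- The maximal ideal of the localization of `C[x', y', w]`. -/
private theorem stex_max {C : IntermediateField k W} (hC : ∀ e ∈ C, e ≠ 0 → ‖e‖ = 1)
    {x' : Fin r → W} (hx' : Indep x') {w : W} (hw : ‖w‖ ≤ 1) {g : Polynomial C}
    (gi : Irreducible g) (hg : ‖Polynomial.aeval w g‖ < 1) {z : W}
    (hz : z ∈ BN C x' (Polynomial.aeval w g) w) (h1 : ‖z‖ < 1) :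
    ∃ (b : Fin r → W) (b0 : W), (∀ i, b i ∈ BN C x' (Polynomial.aeval w g) w) ∧
      b0 ∈ BN C x' (Polynomial.aeval w g) w ∧
      z = ∑ i, b i * x' i + b0 * Polynomial.aeval w g := by
  obtain ⟨A, hA⟩ : ∃ A : Subring W, A = Subring.closure ((C : Set W) ∪
    (Set.range x' ∪ {Polynomial.aeval w g, w})) := ⟨_, rfl⟩
  have hAn : ∀ z ∈ A, ‖z‖ ≤ 1 := by
    have h2 : A ≤ (ball W).toSubring := by
      rw [hA, Subring.closure_le]
      rintro z (hz | ⟨i, rfl⟩ | rfl | hz)
      · change ‖z‖ ≤ 1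
        by_cases h0 : z = 0
        · rw [h0, norm_zero]; exact zero_le_one
        · exact (hC z hz h0).le
      · exact (hx'.lt i).le
      · exact hg.le
      · rw [Set.mem_singleton_iff.1 hz]
        exact hw
    exact fun z hz => h2 hz
  have hw' : w ∈ A := by
    rw [hA]; exact Subring.subset_closure (Or.inr (Or.inr (Or.inr rfl)))
  have hCA : ∀ e : C, (e : W) ∈ A := fun e => by
    rw [hA]; exact Subring.subset_closure (Or.inl e.2)
  have hR : ∀ R : Polynomial C, Polynomial.aeval w R ∈ A := by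
    intro R
    rw [Polynomial.aeval_def, Polynomial.eval₂_eq_sum, Polynomial.sum_def]
    exact sum_mem fun i _ => mul_mem (hCA _) (pow_mem hw' _)
  have hlt : ∀ z ∈ A, ‖z‖ < 1 → stexJ A x' (Polynomial.aeval w g) z := by
    intro z hz hz1
    have hz' := hz
    rw [hA] at hz'
    obtain ⟨R, hR'⟩ := stex_dec hz'
    rw [← hA] at hR'
    have h2 := stexJ_lt hAn hx'.lt hg hR'
    have h3 : ‖Polynomial.aeval w R‖ < 1 := by
      have h4 : Polynomial.aeval w R = z + -(z - Polynomial.aeval w R) := by ring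
      rw [h4]
      refine (IsUltrametricDist.norm_add_le_max _ _).trans_lt (max_lt hz1 ?_)
      rw [norm_neg]
      exact h2
    obtain ⟨Q, rfl⟩ := (gw_lt_iff hC hw gi hg R).1 h3
    have h4 : z = (z - Polynomial.aeval w (g * Q)) +
        Polynomial.aeval w Q * Polynomial.aeval w g := by
      rw [map_mul]; ring
    rw [h4]
    exact stexJ_add hR' (stexJ_mul stexJ_y (hR Q))
  obtain ⟨a, ha, b, hb, hb1, hab⟩ := hz
  rw [ball_val_eq_one] at hb1
  rw [← hA] at ha hb
  have hb0 : b ≠ 0 := by rw [← norm_ne_zero_iff, hb1]; exact one_ne_zero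
  have ha1 : ‖a‖ < 1 := by rw [← hab, norm_mul, hb1, mul_one]; exact h1
  have hAB : A ≤ BN C x' (Polynomial.aeval w g) w := by
    rw [hA]
    exact le_locV _ _
  have hbi : b⁻¹ ∈ BN C x' (Polynomial.aeval w g) w :=
    ⟨1, one_mem _, b, by rw [← hA]; exact hb, (ball_val_eq_one b).2 hb1, inv_mul_cancel₀ hb0⟩
  have h5 := stexJ_mul (stexJ_mono hAB (hlt a ha ha1)) hbi
  have h6 : b⁻¹ * a = z := by
    rw [← hab, mul_comm z b, ← mul_assoc, inv_mul_cancel₀ hb0, one_mul]
  rw [h6] at h5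
  exact h5

/-- The chart for `g` of arbitrary degree. -/
private theorem stex_case2 [PerfectField k] (hr : 0 < r) (hA : AmbG r m k W)
    (S L : IntermediateField k W) (hS : ∀ z : W, IsSeparable S z → z ∈ S)
    (hL : IsComplete (L : Set W)) {c : Tri k W r} (hc : Ch m S L c) {x' : Fin r → W}
    (hx' : Indep x') {w : W} (hw : ‖w‖ ≤ 1) {g : Polynomial c.C} (gi : Irreducible g)
    (hg : ‖Polynomial.aeval w g‖ < 1)
    (hK : IntermediateField.adjoin c.C (Set.range x' ∪ {Polynomial.aeval w g, w}) =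
      Kxy c.C c.x c.y) :
    ∃ C' : IntermediateField k W, (∀ z ∈ C', z ∈ cl (Cw c.C w)) ∧
      Ch m S L (⟨C', x', Polynomial.aeval w g⟩ : Tri k W r) ∧
      (∀ z ∈ c.C, z ∈ HO (S ⊓ L) (⟨C', x', Polynomial.aeval w g⟩ : Tri k W r)) ∧
      w ∈ HO (S ⊓ L) (⟨C', x', Polynomial.aeval w g⟩ : Tri k W r) ∧
      (∀ z ∈ Rw c.C w, ∃ e' ∈ C', ‖z - e'‖ < 1) ∧
      (∀ e' ∈ C', ∃ z ∈ Rw c.C w, ‖z - e'‖ < 1) ∧
      ∀ e' ∈ C', IsSeparable (IntermediateField.adjoin k {z : W | z ∈ C' ∧ z ∈ Rw c.C w}) e' := by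
  have hmem : ∀ z ∈ Set.range x' ∪ {Polynomial.aeval w g, w}, z ∈ S ⊓ L := by
    intro z hz
    refine hc.ok.Kxy_mem ?_
    rw [← hK]
    exact IntermediateField.subset_adjoin _ _ hz
  have hwM : w ∈ S ⊓ L := hmem w (Or.inr (Or.inr rfl))
  have hCL : c.C ≤ L := hc.ok.CM.trans inf_le_right
  have hwcl : w ∈ Cw c.C w := IntermediateField.subset_adjoin _ _ (Set.mem_singleton w)
  have hle : Cw c.C w ≤ IntermediateField.extendScalars hCL := by
    unfold Cw
    rw [IntermediateField.adjoin_le_iff]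
    rintro z hz
    rw [Set.mem_singleton_iff.1 hz]
    exact hwM.2
  obtain ⟨C', h1, h2, h3, h4, h5, h6, h7⟩ := new_chart hr hA S L
    ((cl (Cw c.C w)).restrictScalars k) hS
    (isComplete_cl (L := IntermediateField.extendScalars hCL) hL hle)
    (fun z hz => cl_le_of_isComplete (L := IntermediateField.extendScalars hCL) hL hle hz)
    c.C hc.ok.cst
    (fun z hz => ⟨(hc.ok.CM hz).1, (cl (Cw c.C w)).algebraMap_mem (⟨z, hz⟩ : c.C)⟩) w
    ⟨hwM.1, le_cl (Cw c.C w) hwcl⟩ hw x' hx' (fun i => hmem _ (Or.inl ⟨i, rfl⟩))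
    (Polynomial.aeval w g) hg (hmem _ (Or.inr (Or.inl rfl)))
    (by rw [hK]; exact hc.dense) (by rw [hK]; exact hc.sep)
    (Fin.cons c.y c.x) (par_indep c.x c.y hc.ok.par.ind.ne hc.ok.par.tr)
    (by
      intro i
      rw [hK]
      refine Fin.cases ?_ (fun i => ?_) i
      · exact y_mem_Kxy c.x c.y
      · exact x_mem_Kxy c.x c.y i)
    (fun z hz hz1 => stex_max hc.ok.cst.unit hx' hw gi hg hz hz1)
  exact ⟨C', fun z hz => (h1 hz).2, h2, h3, h4, h5, h6, h7⟩

end

/-- See the header. -/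
theorem exists_st {k W : Type} [Field k] [PerfectField k] [NormedField W] [IsUltrametricDist W]
    [Algebra k W] {r m : ℕ} (hr : 0 < r) (hA : AmbG r m k W) (S L : IntermediateField k W)
    (hS : ∀ z : W, IsSeparable S z → z ∈ S) (hL : IsComplete (L : Set W)) {c : Tri k W r}
    (hc : Ch m S L c) (X : Finset ((Fin r → ℤ) × ℕ))
    (hX : ∀ n ∈ X, 1 ≤ ‖mon c.x n.1 * c.y ^ n.2‖) :
    ∃ (c' : Tri k W r) (e : ℕ) (B : Fin r → ℤ) (w : W) (g : Polynomial c.C)
      (T : ((Fin r → ℤ) × ℤ) ≃+ ((Fin r → ℤ) × ℤ)), St m S L c c' e B w g T ∧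
      (∀ n ∈ X, 0 ≤ (T (n.1, (n.2 : ℤ))).2) ∧ (g.natDegree = 1 → c'.C = c.C) ∧
      (e = 1 → c'.x = c.x ∧ ∀ (a : Fin r → ℤ) (j : ℤ), T (a, j) = (a + j • B, j)) := by
  classical
  have hy0 := hc.ok.y_ne
  have hxi := hc.ok.par.ind
  obtain ⟨x', e, B, w, T, hx', he, hw1, hw, hwB, hT, hm, hnn, he1⟩ :=
    stex_data c.x hxi c.y hy0 (stex_rank hA hxi hy0) X hX
  obtain ⟨g, gm, gi, hg⟩ := exists_irr hA hc.ok.cst hw1.le
  have hg0 : Polynomial.aeval w g ≠ 0 := stex_trans hc.ok.par.tr he hw gi.ne_zero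
  have hK := stex_field (C := c.C) hw hm (g := g) rfl
  by_cases hd : g.natDegree = 1
  · have hwe : w = Polynomial.aeval w g - algebraMap c.C W (g.coeff 0) := by
      conv_rhs => rw [gm.eq_X_add_C hd]
      rw [map_add, Polynomial.aeval_X, Polynomial.aeval_C]
      simp
    have hK1 : Kxy c.C x' (Polynomial.aeval w g) = Kxy c.C c.x c.y := by
      rw [← hK]
      refine le_antisymm ?_ ?_
      · exact IntermediateField.adjoin.mono _ _ _ (Set.union_subset_union_right _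
          (Set.singleton_subset_iff.2 (Or.inl rfl)))
      · rw [IntermediateField.adjoin_le_iff]
        rintro z (hz | rfl | hz)
        · exact IntermediateField.subset_adjoin _ _ (Or.inl hz)
        · exact y_mem_Kxy x' _
        · rw [Set.mem_singleton_iff.1 hz]
          have h8 : Polynomial.aeval w g - algebraMap c.C W (g.coeff 0) ∈
              Kxy c.C x' (Polynomial.aeval w g) :=
            sub_mem (y_mem_Kxy x' _) (IntermediateField.algebraMap_mem _ _)
          rwa [← hwe] at h8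
    have hch := stex_case1 hc hx' hg hK1
    refine ⟨⟨c.C, x', Polynomial.aeval w g⟩, e, B, w, g, T, ⟨hc, hch, he, hw1, hwB, hT, hm, gm, gi,
      rfl, ?_, ?_, ?_, ?_, ?_, ?_⟩, hnn, fun _ => rfl, he1⟩
    · intro z hz
      exact (cl (Cw c.C w)).algebraMap_mem (⟨z, hz⟩ : c.C)
    · intro z hz
      exact stex_res1 hc.ok.cst.unit hw1.le gm gi hg hg0 hd hz
    · intro e' he'
      refine ⟨e', le_locV _ _ (Subring.subset_closure (Or.inl he')), ?_⟩
      rw [sub_self, norm_zero]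
      exact zero_lt_one
    · intro e' he'
      have h1 : e' ∈ IntermediateField.adjoin k {z : W | z ∈ c.C ∧ z ∈ Rw c.C w} :=
        IntermediateField.subset_adjoin _ _
          ⟨he', le_locV _ _ (Subring.subset_closure (Or.inl he'))⟩
      exact isSeparable_algebraMap (⟨e', h1⟩ : IntermediateField.adjoin k
        {z : W | z ∈ c.C ∧ z ∈ Rw c.C w})
    · intro z hz
      exact C_mem_HO hch.ok hz
    · have h1 : Polynomial.aeval w g ∈ HO (S ⊓ L)
          (⟨c.C, x', Polynomial.aeval w g⟩ : Tri k W r) := y_mem_HO hch.ok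
      have h8 : Polynomial.aeval w g - algebraMap c.C W (g.coeff 0) ∈ HO (S ⊓ L)
          (⟨c.C, x', Polynomial.aeval w g⟩ : Tri k W r) :=
        sub_mem h1 (C_mem_HO hch.ok (g.coeff 0).2)
      rwa [← hwe] at h8
  · obtain ⟨C', h1, h2, h3, h4, h5, h6, h7⟩ := stex_case2 hr hA S L hS hL hc hx' hw1.le gi hg hK
    exact ⟨⟨C', x', Polynomial.aeval w g⟩, e, B, w, g, T, ⟨hc, h2, he, hw1, hwB, hT, hm, gm, gi,
      rfl, h1, h5, h6, h7, h3, h4⟩, hnn, fun h => absurd h hd, he1⟩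

end Pool.Agent.Lib.TU
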