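import Pool.Agent.Lib.TU.StAS1
import Pool.Agent.Lib.TU.StAS2
import Pool.Agent.Lib.TU.StEx

/-!
# Module StAS: one stage for the Artin-Schreier step (paper 5.1)

`exists_dropU`: `P1` = the part of `P` of terms of norm `≥ 1`; still `RedC`.  If `P1.coeff (a0, d) = 0` then
`‖x^a0 y^d‖ < 1` and every `(a, j)` in the support of `P1` has `j < d` (`j ≥ d` implies
`‖x^a y^j‖ ≤ ‖x^a0 y^d‖`; note `P ≠ 0` has lead `(a0, d)`): first alternative with `c' = c`, `P' = P1`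
(`s = 0`).  Otherwise `Lead c.x P1 a0 d`.  `exists_st` with `X` = support of `P1`.  If `e f ≥ 2`: `st_as1`.
If `e f = 1`: `g = X - C e0`, `w = e0 + y'` (`e0 ≠ 0` as `‖w‖ = 1`), `c'.C = c.C`, `c'.x = c.x`,
`c' = ⟨c.C, c.x, y'⟩`, `y = x^B w` (`e = 1`), `‖x^B‖ = ‖y‖ < 1`: `st_as2` over `↥c.C`.
The second alternative has `P` in place of `P1` in the support conditions (weaker).
-/

namespace Pool.Agent.Lib.TU

open Pool.Agent.Lib.MP_3029eb_ag Pool.Agent.Lib.MP_3029eb_ag.Abh Pool.Agent.Lib.TDO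

/-- See the header. -/
theorem st_as {k W : Type} [Field k] [PerfectField k] [NormedField W] [IsUltrametricDist W]
    [Algebra k W] {r m : ℕ} (hr : 0 < r) (hA : AmbG r m k W) (p : ℕ) [Fact p.Prime] [CharP k p]
    (S L : IntermediateField k W) (hS : ∀ z : W, IsSeparable S z → z ∈ S)
    (hL : IsComplete (L : Set W)) {c : Tri k W r} (hc : Ch m S L c) (P : LP c.C r)
    (hred : RedC p c.x P) {a0 : Fin r → ℤ} {d : ℕ} (hl : Lead c.x P a0 d) (hd : 2 ≤ d) :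
    (∃ c' : Tri k W r, RfS m S L c c' ∧ ∃ P' : LP c'.C r, RedC p c'.x P' ∧
      (∃ s ∈ L, ‖ev c.x c.y P - ev c'.x c'.y P' - (s ^ p - s)‖ < 1) ∧
      (P' = 0 ∨ ∃ (a0' : Fin r → ℤ) (d' : ℕ), Lead c'.x P' a0' d' ∧ d' < d)) ∨
    (∃ (y' : W) (P' : LP c.C r) (b : Fin r → ℤ) (e0 : c.C), e0 ≠ 0 ∧
      c.y = mon c.x b * ((e0 : W) + y') ∧ StR m S L c (⟨c.C, c.x, y'⟩ : Tri k W r) ∧
      RedC p c.x P' ∧ (∃ s ∈ L, ‖ev c.x c.y P - ev c.x y' P' - (s ^ p - s)‖ < 1) ∧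
      Lead c.x P' (a0 + d • b) d ∧ ‖mon c.x b‖ < 1 ∧
      (P.coeff (a0 + d • b, 0) ≠ 0 ∨ P.coeff (a0 + (d - 1) • b, 1) ≠ 0) ∧
      ∀ a' j', P'.coeff (a', j') ≠ 0 → ∃ n : ℕ, ∃ a j, P.coeff (a, j) ≠ 0 ∧ p ^ n * j' ≤ j ∧
        p ^ n • a' = a + j • b) := by
  classical
  have hp0 : p ≠ 0 := (Fact.out : p.Prime).ne_zero
  have hu := hc.ok.hu
  have hCp : CharP c.C p := charP_of_injective_algebraMap (algebraMap k c.C).injective p
  obtain ⟨P1, hev1, hP1⟩ := exists_dropU hu (x := c.x) (y := c.y) P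
  have hP1s : ∀ a j, P1.coeff (a, j) ≠ 0 →
      P1.coeff (a, j) = P.coeff (a, j) ∧ 1 ≤ ‖mon c.x a * c.y ^ j‖ := by
    intro a j h
    rw [hP1] at h
    by_cases h1 : 1 ≤ ‖mon c.x a * c.y ^ j‖
    · exact ⟨by rw [hP1, if_pos h1], h1⟩
    · rw [if_neg h1] at h
      exact absurd rfl h
  have hP1P : ∀ a j, P1.coeff (a, j) ≠ 0 → P.coeff (a, j) ≠ 0 := fun a j h => by
    rw [← (hP1s a j h).1]
    exact h
  have hred1 : RedC p c.x P1 := by
    intro a j h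
    rw [(hP1s a j h).1]
    exact hred a j (hP1P a j h)
  -- sums of small differences
  have hsmall : ∀ (f s : W), ‖ev c.x c.y P1 - f - (s ^ p - s)‖ < 1 →
      ‖ev c.x c.y P - f - (s ^ p - s)‖ < 1 := by
    intro f s h
    have e1 : ev c.x c.y P - f - (s ^ p - s) =
        (ev c.x c.y P - ev c.x c.y P1) + (ev c.x c.y P1 - f - (s ^ p - s)) := by ring
    rw [e1]
    exact lt_of_le_of_lt (IsUltrametricDist.norm_add_le_max _ _) (max_lt hev1 h)
  by_cases hmem : P1.coeff (a0, d) ≠ 0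
  swap
  · -- the leading term has been dropped
    left
    refine ⟨c, Relation.ReflTransGen.refl, P1, hred1, ⟨0, zero_mem _, ?_⟩, ?_⟩
    · rw [zero_pow hp0, sub_self, sub_zero]
      exact hev1
    by_cases hP10 : P1 = 0
    · exact Or.inl hP10
    right
    obtain ⟨a0', d1, hl1⟩ := exists_lead hc.ok.par.ind P1 hP10
    refine ⟨a0', d1, hl1, ?_⟩
    by_contra hdd
    push Not at hdd
    have h1 := hP1s _ _ hl1.mem
    have h2 : ¬ 1 ≤ ‖mon c.x a0 * c.y ^ d‖ := by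
      intro h3
      apply hmem
      rw [hP1, if_pos h3]
      exact hl.mem
    apply h2
    refine h1.2.trans ?_
    rw [norm_mul, norm_mul, norm_pow, norm_pow]
    exact mul_le_mul (hl.max _ _ (hP1P _ _ hl1.mem))
      (pow_le_pow_of_le_one (norm_nonneg _) hc.ok.par.y1.le hdd)
      (by positivity) (norm_nonneg _)
  have hl1 : Lead c.x P1 a0 d :=
    ⟨hmem, fun a j h => hl.max a j (hP1P a j h), fun j h => hl.min j (hP1P a0 j h)⟩
  obtain ⟨c', e, B, w, g, T, hst, hTX, hg1, he1⟩ :=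
    exists_st hr hA S L hS hL hc P1.coeff.support (by
      intro n hn
      exact (hP1s n.1 n.2 (Finsupp.mem_support_iff.1 hn)).2)
  have hT : ∀ a j, P1.coeff (a, j) ≠ 0 → 0 ≤ (T (a, (j : ℤ))).2 := fun a j h =>
    hTX (a, j) (Finsupp.mem_support_iff.2 h)
  have hge : ∀ a j, P1.coeff (a, j) ≠ 0 → 1 ≤ ‖mon c.x a * c.y ^ j‖ := fun a j h =>
    (hP1s a j h).2
  have hstR : StR m S L c c' := ⟨e, B, w, g, T, hst⟩
  by_cases hef : 2 ≤ e * g.natDegree
  · left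
    obtain ⟨P', hred', ⟨s, hsL, hs⟩, hl'⟩ :=
      st_as1 hr p hst P1 hred1 hge hT (fun h => (he1 h).2) hl1 hd hef
    exact ⟨c', Relation.ReflTransGen.single hstR, P', hred', ⟨s, hsL, hsmall _ _ hs⟩, hl'⟩
  have hg0 : 0 < g.natDegree := hst.gi.natDegree_pos
  have he0 : 1 ≤ e := hst.e1
  have hen : e * g.natDegree = 1 := by
    have h1 : 1 ≤ e * g.natDegree := Nat.mul_pos he0 hg0
    omega
  obtain ⟨he, hgn⟩ : e = 1 ∧ g.natDegree = 1 := mul_eq_one.1 hen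
  subst he
  have hC := hg1 hgn
  have hx := (he1 rfl).1
  obtain ⟨C', x', y'⟩ := c'
  change C' = c.C at hC
  change x' = c.x at hx
  subst hC
  subst hx
  have hgX := hst.gm.eq_X_add_C hgn
  have hy' : y' = w + algebraMap c.C W (g.coeff 0) := by
    have h1 : y' = Polynomial.aeval w g := hst.hy
    rw [h1, hgX]
    simp
  have hw : c.y = mon c.x B * w := by
    have h1 := hst.hw
    rw [pow_one] at h1
    exact h1
  have hw1 : ‖w‖ = 1 := hst.w1
  have hy'1 : ‖y'‖ < 1 := hst.ch'.ok.par.y1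
  have hy1 : ‖c.y‖ < 1 := hc.ok.par.y1
  have he00 : -(g.coeff 0) ≠ 0 := by
    intro h1
    rw [neg_eq_zero] at h1
    rw [h1, map_zero, add_zero] at hy'
    rw [hy', hw1] at hy'1
    exact lt_irrefl _ hy'1
  have hyc : c.y = mon c.x B * (algebraMap c.C W (-(g.coeff 0)) + y') := by
    rw [hy', hw, map_neg]
    ring
  have hB1 : ‖mon c.x B‖ < 1 := by
    rw [hw, norm_mul, hw1, mul_one] at hy1
    exact hy1
  obtain ⟨P', hred', ⟨s, hsLL, hs⟩, halt, hsup⟩ :=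
    st_as2 hu p hc.ok.par y' hy'1 B (-(g.coeff 0)) he00 hyc P1 hred1 hge hl1 hd
  have hsL : s ∈ L := by
    have h1 : s ∈ Kxy c.C c.x y' := LL_le_Kxy c.x y' hsLL
    have h2 : s ∈ S ⊓ L := hst.ch'.ok.Kxy_mem h1
    exact h2.2
  rcases halt with halt | ⟨hl', hco⟩
  · left
    exact ⟨⟨c.C, c.x, y'⟩, Relation.ReflTransGen.single hstR, P', hred',
      ⟨s, hsL, hsmall _ _ hs⟩, halt⟩
  · right
    refine ⟨y', P', B, -(g.coeff 0), he00, hyc, hstR, hred', ⟨s, hsL, hsmall _ _ hs⟩, hl', hB1,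
      hco.imp (hP1P _ _) (hP1P _ _), ?_⟩
    intro a' j' h
    obtain ⟨n, a, j, h1, h2⟩ := hsup a' j' h
    exact ⟨n, a, j, hP1P a j h1, h2⟩

end Pool.Agent.Lib.TU
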