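import Pool.Agent.Lib.TU.StLd
import Pool.Agent.Lib.TU.StDig
import Pool.Agent.Lib.TU.RedU
import Pool.Agent.Lib.TU.StarP

/-!
# Module StAS1: the Artin-Schreier stage, `e f ≥ 2` (paper 5.1)

`C = c.C`, `C' = c'.C`, `f = natDegree g`.  `lead_stageU` for `P`: `α, a1, j1, m1, D`, `φ = part T P α`;
`ev x y P = ∑_β x'^β φ_β(w)` (`ev_parts`).
Choose `J ≥ d` with `‖x'^β‖ ‖y'‖^J < 1` for the finitely many `β`; `st_dig`: `Q_β ∈ C'[Y]`,
`‖φ_β(w) - Q_β(y')‖ ≤ ‖y'‖^J`.  `P2 := ∑_β X'^β Q_β(Y')` (`LP C' r`, coefficients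
`P2.coeff (β, i) = (Q_β).coeff i`): `‖ev x y P - ev x' y' P2‖ < 1`.  `exists_redU` over `C'` gives `P'`.
All exponents `(a, j)` of `P'` have `‖x'^a‖ ≤ max(1, ‖x'^α‖)`.  `‖x'^α‖ ≥ ‖x^a0 y^d‖ ≥ 1` (`hge`).
If `‖x'^α‖ = 1`: all exponents of `P'` are `(0, 0)` (`RedC`, and exponents of `P2` have norm `≤ 1`), so
`P' = 0` or `Lead P' 0 0`, and `0 < d`.
Let `‖x'^α‖ > 1`.  CLAIM: there is `i < d` such that `q_i := (Q_α).coeff i ≠ 0` and not `PT p α i q_i`.
Then `P'.coeff (α, i) ≠ 0`, so `P'` has a lead `(α, d')` with `d' ≤ i < d`.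
Proof of the claim if `α ∉ pℤ^r`: otherwise `q_i = 0` for all `i < d`, `‖φ(w)‖ ≤ ‖y'‖^d`, `g^d ∣ φ`
(`gw_pow_iff`), `φ = X^m1 ψ`, `g ∤ X`, so `d f ≤ natDegree ψ ≤ D` and `D e ≤ d`: `e f ≤ 1`, contradiction.
Proof if `α = p α'`: otherwise all nonzero `q_i`, `i < d`, have `p ∣ i` and `q_i ∈ C'^p`, so
`∑_(i<d) q_i y'^i = h^p` with `h ∈ cl C(w)` (`St.Cle`, `y' ∈ C(w)`), `‖h‖ ≤ 1`, and `‖φ(w) - h^p‖ ≤ ‖y'‖^d`.
Choose `R ∈ C(w)`, `‖h - R‖ ≤ ‖y'‖^d`, `‖R‖ ≤ 1`; `‖h^p - R^p‖ = ‖h - R‖^p ≤ ‖y'‖^d`.  `gw_frac`: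
`R = H1(w) / H2(w)`, `‖H2(w)‖ = 1`, `g ∤ H2`.  `‖φ(w) H2(w)^p - H1(w)^p‖ ≤ ‖y'‖^d`, so
`g^d ∣ φ H2^p - H1^p` (`gw_pow_iff`).  Contradiction to `star` (over `C`): `hmod`:
`T ((a1, j1) - m1 (-B, e)) = (α, 0) = p (α', 0)`, so `p ∣ j1 - m1 e`; `he1` by `he`:
`T (a1, j1) = (a1 + j1 B, j1)` so `m1 = j1`; `hφ`: otherwise take `n` with `φ.coeff n ≠ 0`:
`p ∣ n`, the coefficient is a `p`-th power, `T.symm (α, n) = (a, j)` is divisible by `p` and
`P.coeff (a, j) = φ.coeff n`: `PT`, so by `RedC` `(a, j) = (0, 0)`, `α = 0`, contradiction to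
`‖x'^α‖ > 1`.
`CharP` for `c.C`, `c'.C`: `charP_of_injective_algebraMap`.
-/

namespace Pool.Agent.Lib.TU

open Pool.Agent.Lib.MP_3029eb_ag Pool.Agent.Lib.MP_3029eb_ag.Abh Pool.Agent.Lib.TDO

private theorem as1_aeval_mem {k W : Type} [Field k] [NormedField W] [Algebra k W]
    {C : IntermediateField k W} {w : W} {E : IntermediateField C W} (hw : w ∈ E)
    (R : Polynomial C) : Polynomial.aeval w R ∈ E := by
  have h1 : Polynomial.aeval w R = Polynomial.aeval ((⟨w, hw⟩ : E) : W) R := rfl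
  rw [h1, IntermediateField.aeval_coe]
  exact Subtype.mem _

open Polynomial in
private theorem as1_mk {C W : Type} [Field C] [NormedField W] [Algebra C W] {r : ℕ}
    (x : Fin r → W) (y : W) (β : Fin r → ℤ) (Q : Polynomial C) :
    ∃ P : LP C r, (∀ a j, P.coeff (a, j) = if a = β then Q.coeff j else 0) ∧
      ev x y P = mon x β * Polynomial.aeval y Q := by
  classical
  induction Q using Polynomial.induction_on' with
  | add Q1 Q2 h1 h2 =>
    obtain ⟨P1, h1a, h1b⟩ := h1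
    obtain ⟨P2, h2a, h2b⟩ := h2
    refine ⟨P1 + P2, fun a j => ?_, ?_⟩
    · rw [AddMonoidAlgebra.coeff_add, Finsupp.add_apply, h1a, h2a, Polynomial.coeff_add]
      split_ifs
      · rfl
      · rw [add_zero]
    · rw [ev_add, h1b, h2b, map_add, mul_add]
  | monomial n c =>
    refine ⟨AddMonoidAlgebra.single (β, n) c, fun a j => ?_, ?_⟩
    · rw [AddMonoidAlgebra.coeff_single, Finsupp.single_apply, Polynomial.coeff_monomial]
      by_cases ha : a = β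
      · by_cases hj : n = j
        · rw [if_pos (by rw [ha, hj]), if_pos ha, if_pos hj]
        · rw [if_neg (fun h => hj (congrArg Prod.snd h)), if_pos ha, if_neg hj]
      · rw [if_neg (fun h => ha (congrArg Prod.fst h).symm), if_neg ha]
    · rw [ev_single, Polynomial.aeval_monomial]
      ring

private theorem as1_mks {C W : Type} [Field C] [NormedField W] [Algebra C W] {r : ℕ}
    (x : Fin r → W) (y : W) [DecidableEq (Fin r → ℤ)] (I : Finset (Fin r → ℤ))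
    (Q : (Fin r → ℤ) → Polynomial C) :
    ∃ P : LP C r, (∀ a j, P.coeff (a, j) = if a ∈ I then (Q a).coeff j else 0) ∧
      ev x y P = ∑ β ∈ I, mon x β * Polynomial.aeval y (Q β) := by
  induction I using Finset.induction_on with
  | empty =>
    refine ⟨0, fun a j => ?_, ?_⟩
    · rw [AddMonoidAlgebra.coeff_zero, Finsupp.zero_apply, if_neg (Finset.notMem_empty a)]
    · rw [ev_zero, Finset.sum_empty]
  | insert β I hβ ih =>
    obtain ⟨P1, h1, h2⟩ := ih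
    obtain ⟨P2, h3, h4⟩ := as1_mk x y β (Q β)
    refine ⟨P2 + P1, fun a j => ?_, ?_⟩
    · rw [AddMonoidAlgebra.coeff_add, Finsupp.add_apply, h1, h3]
      by_cases ha : a = β
      · subst ha
        rw [if_pos rfl, if_neg hβ, if_pos (Finset.mem_insert_self _ _), add_zero]
      · rw [if_neg ha, zero_add]
        by_cases haI : a ∈ I
        · rw [if_pos haI, if_pos (Finset.mem_insert_of_mem haI)]
        · rw [if_neg haI, if_neg (fun h => (Finset.mem_insert.1 h).elim ha haI)]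
    · rw [ev_add, h2, h4, Finset.sum_insert hβ]

private theorem as1_tail {C W : Type} [Field C] [NormedField W] [IsUltrametricDist W]
    [Algebra C W] (hu : ∀ e : C, e ≠ 0 → ‖algebraMap C W e‖ = 1) {y : W} (hy : ‖y‖ ≤ 1)
    (Q : Polynomial C) (d : ℕ) :
    ‖Polynomial.aeval y Q - ∑ i ∈ Finset.range d, algebraMap C W (Q.coeff i) * y ^ i‖ ≤
      ‖y‖ ^ d := by
  rw [Polynomial.aeval_eq_sum_range' (n := d + (Q.natDegree + 1)) (by omega),
    Finset.sum_range_add]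
  have h1 : ∑ i ∈ Finset.range d, Q.coeff i • y ^ i =
      ∑ i ∈ Finset.range d, algebraMap C W (Q.coeff i) * y ^ i :=
    Finset.sum_congr rfl fun i _ => Algebra.smul_def _ _
  rw [h1, add_sub_cancel_left]
  refine IsUltrametricDist.norm_sum_le_of_forall_le_of_nonneg (by positivity) fun i _ => ?_
  rw [Algebra.smul_def, norm_mul, norm_pow]
  calc ‖algebraMap C W (Q.coeff (d + i))‖ * ‖y‖ ^ (d + i) ≤ 1 * ‖y‖ ^ d :=
        mul_le_mul (norm_algebraMap_leU hu _)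
          (pow_le_pow_of_le_one (norm_nonneg _) hy (Nat.le_add_right d i)) (by positivity)
          zero_le_one
    _ = ‖y‖ ^ d := one_mul _

private theorem as1_div {r p : ℕ} (T : ((Fin r → ℤ) × ℤ) ≃+ ((Fin r → ℤ) × ℤ))
    {a a' : Fin r → ℤ} {j m : ℤ} (h : T (a, j) = (p • a', (p : ℤ) * m)) :
    (∃ a'' : Fin r → ℤ, a = p • a'') ∧ (p : ℤ) ∣ j := by
  have h2 : (p • (a', m) : (Fin r → ℤ) × ℤ) = (p • a', (p : ℤ) * m) :=
    Prod.ext rfl (nsmul_eq_mul p m)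
  have h1 : (a, j) = p • T.symm (a', m) := by
    rw [← map_nsmul, h2, ← h, T.symm_apply_apply]
  have h3 : a = p • (T.symm (a', m)).1 := congrArg Prod.fst h1
  have h4 : j = p • (T.symm (a', m)).2 := congrArg Prod.snd h1
  exact ⟨⟨_, h3⟩, ⟨(T.symm (a', m)).2, by rw [h4, nsmul_eq_mul]⟩⟩

/-- The claim of the header. -/
private theorem as1_claim {k W : Type} [Field k] [NormedField W] [IsUltrametricDist W]
    [Algebra k W] {r m : ℕ} (p : ℕ) [Fact p.Prime] [CharP k p]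
    {S L : IntermediateField k W} {c c' : Tri k W r} {e : ℕ} {B : Fin r → ℤ} {w : W}
    {g : Polynomial c.C} {T : ((Fin r → ℤ) × ℤ) ≃+ ((Fin r → ℤ) × ℤ)}
    (h : St m S L c c' e B w g T) (P : LP c.C r) (hred : RedC p c.x P)
    (hT : ∀ a j, P.coeff (a, j) ≠ 0 → 0 ≤ (T (a, (j : ℤ))).2)
    (he : e = 1 → ∀ (a : Fin r → ℤ) (j : ℤ), T (a, j) = (a + j • B, j))
    {d : ℕ} (hd : 2 ≤ d) (hef : 2 ≤ e * g.natDegree)
    {α a1 : Fin r → ℤ} {j1 m1 D : ℕ} (hc1 : P.coeff (a1, j1) ≠ 0)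
    (hTa1 : T (a1, (j1 : ℤ)) = (α, (m1 : ℤ))) (hjD : j1 + D * e ≤ d) (hφ0 : part T P α ≠ 0)
    (hlow : ∀ i < m1, (part T P α).coeff i = 0) (hdeg : (part T P α).natDegree ≤ m1 + D)
    (hα : 1 < ‖mon c'.x α‖) (Q : Polynomial c'.C)
    (hQ : ‖Polynomial.aeval w (part T P α) - Polynomial.aeval c'.y Q‖ ≤ ‖c'.y‖ ^ d) :
    ∃ i < d, Q.coeff i ≠ 0 ∧ ¬ PT p α i (Q.coeff i) := by
  classical
  by_contra hcon
  push Not at hcon
  have hpp : p.Prime := Fact.out
  have hCp : CharP c.C p := charP_of_injective_algebraMap (algebraMap k c.C).injective p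
  have hCp' : CharP c'.C p := charP_of_injective_algebraMap (algebraMap k c'.C).injective p
  have hWp : CharP W p := charP_of_injective_algebraMap (algebraMap k W).injective p
  have hC := h.ch.ok.cst.unit
  have hu' := h.ch'.ok.hu
  obtain ⟨g1, g2, g3, g4⟩ := h.g_facts
  have hy1 : ‖c'.y‖ < 1 := h.ch'.ok.par.y1
  have hyg : c'.y = Polynomial.aeval w g := h.hy
  have hyd1 : ‖c'.y‖ ^ d ≤ 1 := pow_le_one₀ (norm_nonneg _) hy1.le
  have hypos : 0 < ‖c'.y‖ := by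
    rw [hyg]
    exact norm_pos_iff.2 g2
  set φ := part T P α with hφdef
  have htail := as1_tail hu' hy1.le Q d
  by_cases hαp : ∃ α' : Fin r → ℤ, α = p • α'
  · obtain ⟨α', hα'⟩ := hαp
    -- the coefficients are `p`-th powers
    have hb : ∀ i, ∃ b : c'.C, i < d → Q.coeff i = b ^ p ∧ (¬ p ∣ i → b = 0) := by
      intro i
      by_cases hi : i < d
      · by_cases hq : Q.coeff i = 0
        · exact ⟨0, fun _ => ⟨by rw [hq, zero_pow hpp.ne_zero], fun _ => rfl⟩⟩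
        · obtain ⟨-, h2, b, hb⟩ := hcon i hi hq
          exact ⟨b, fun _ => ⟨hb, fun h3 => absurd h2 h3⟩⟩
      · exact ⟨0, fun h1 => absurd h1 hi⟩
    choose b hb using hb
    set h0 : W := ∑ i ∈ Finset.range d, algebraMap c'.C W (b i) * c'.y ^ (i / p) with hh0
    have hh0p : h0 ^ p = ∑ i ∈ Finset.range d, algebraMap c'.C W (Q.coeff i) * c'.y ^ i := by
      rw [hh0, sum_pow_char]
      refine Finset.sum_congr rfl fun i hi => ?_
      obtain ⟨h1, h2⟩ := hb i (Finset.mem_range.1 hi)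
      by_cases hpi : p ∣ i
      · rw [mul_pow, ← map_pow, ← h1, ← pow_mul, Nat.div_mul_cancel hpi]
      · rw [h1, h2 hpi, map_zero, zero_mul, zero_pow hpp.ne_zero, zero_pow hpp.ne_zero,
          map_zero, zero_mul]
    have hh0n : ‖h0‖ ≤ 1 := by
      rw [hh0]
      refine IsUltrametricDist.norm_sum_le_of_forall_le_of_nonneg zero_le_one fun i _ => ?_
      rw [norm_mul, norm_pow]
      exact mul_le_one₀ (norm_algebraMap_leU hu' _) (by positivity)
        (pow_le_one₀ (norm_nonneg _) hy1.le)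
    have hwC : w ∈ Cw c.C w := IntermediateField.subset_adjoin _ _ rfl
    have hyC : c'.y ∈ Cw c.C w := by
      rw [hyg]
      exact as1_aeval_mem hwC g
    have hh0c : h0 ∈ cl (Cw c.C w) := by
      rw [hh0]
      refine sum_mem fun i _ => mul_mem (h.Cle _ (b i).2) (pow_mem (le_cl _ hyC) _)
    obtain ⟨R, hR, hR1⟩ := (mem_cl_iff _ _).1 hh0c (‖c'.y‖ ^ d) (by positivity)
    have hRn : ‖R‖ ≤ 1 := by
      have h1 : R = h0 + -(h0 - R) := by ring
      rw [h1]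
      refine (IsUltrametricDist.norm_add_le_max _ _).trans (max_le hh0n ?_)
      rw [norm_neg]
      exact hR1.le.trans hyd1
    obtain ⟨H1, H2, hH2, hH2n, hRH⟩ := gw_frac hC h.w1.le h.gi g1 g2 hR hRn
    have hdiv : g ^ d ∣ φ * H2 ^ p - H1 ^ p := by
      rw [← gw_pow_iff hC h.w1.le h.gi g1 g2, ← hyg, map_sub, map_mul, map_pow, map_pow, ← hRH]
      have h1 : Polynomial.aeval w φ * Polynomial.aeval w H2 ^ p -
          (R * Polynomial.aeval w H2) ^ p =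
          (Polynomial.aeval w φ - R ^ p) * Polynomial.aeval w H2 ^ p := by
        rw [mul_pow]
        ring
      rw [h1, norm_mul, norm_pow, hH2n, one_pow, mul_one]
      have h2 : Polynomial.aeval w φ - R ^ p =
          (Polynomial.aeval w φ - Polynomial.aeval c'.y Q) +
          ((Polynomial.aeval c'.y Q -
            ∑ i ∈ Finset.range d, algebraMap c'.C W (Q.coeff i) * c'.y ^ i) + (h0 - R) ^ p) := by
        rw [sub_pow_char, hh0p]
        ring
      rw [h2]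
      refine (IsUltrametricDist.norm_add_le_max _ _).trans (max_le hQ ?_)
      refine (IsUltrametricDist.norm_add_le_max _ _).trans (max_le htail ?_)
      rw [norm_pow]
      calc ‖h0 - R‖ ^ p ≤ ‖h0 - R‖ ^ 1 :=
            pow_le_pow_of_le_one (norm_nonneg _) (hR1.le.trans hyd1) hpp.one_le
        _ = ‖h0 - R‖ := pow_one _
        _ ≤ ‖c'.y‖ ^ d := hR1.le
    refine star p g φ h.gi g3 d e m1 j1 D hd h.e1 hef hjD ?_ ?_ ?_ hlow hdeg H1 H2 hH2 hdiv
    · have hTT : T (a1 + m1 • B, (j1 : ℤ) - (m1 : ℤ) * (e : ℤ)) = (p • α', (p : ℤ) * 0) := by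
        have h1 : ((a1 + m1 • B, (j1 : ℤ) - (m1 : ℤ) * (e : ℤ)) : (Fin r → ℤ) × ℤ) =
            (a1, (j1 : ℤ)) - m1 • ((-B, (e : ℤ)) : (Fin r → ℤ) × ℤ) := by
          ext i
          · simp
          · simp
        rw [h1, map_sub, map_nsmul, hTa1, h.hT, hα']
        ext i
        · simp
        · simp
      exact (as1_div T hTT).2
    · intro he1
      have h1 := he he1 a1 (j1 : ℤ)
      rw [hTa1] at h1
      have h2 : (m1 : ℤ) = (j1 : ℤ) := congrArg Prod.snd h1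
      exact_mod_cast h2
    · intro hall
      have hφm1 : φ.coeff m1 = P.coeff (a1, j1) := by
        have h1 := part_coeff T P hT a1 j1 hc1
        rw [hTa1] at h1
        have h2 : ((m1 : ℤ)).toNat = m1 := Int.toNat_natCast m1
        simp only [h2] at h1
        rw [hφdef, h1]
      obtain ⟨⟨mm, hmm⟩, b0, hb0⟩ := hall m1 (by rw [hφm1]; exact hc1)
      have h4 : T (a1, (j1 : ℤ)) = (p • α', (p : ℤ) * (mm : ℤ)) := by
        rw [hTa1, hα', hmm, Nat.cast_mul]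
      obtain ⟨h5, h6⟩ := as1_div T h4
      have hPT : PT p a1 j1 (P.coeff (a1, j1)) :=
        ⟨h5, by exact_mod_cast h6, b0, by rw [← hφm1, hb0]⟩
      rcases hred a1 j1 hc1 with ⟨h7, h8⟩ | ⟨-, h7⟩
      · rw [h7, h8] at hTa1
        have h9 : ((0, ((0 : ℕ) : ℤ)) : (Fin r → ℤ) × ℤ) = 0 := by
          rw [Nat.cast_zero]
          rfl
        rw [h9, map_zero] at hTa1
        have h10 : α = 0 := (congrArg Prod.fst hTa1).symm
        rw [h10, mon_zero, norm_one] at hα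
        exact lt_irrefl _ hα
      · exact h7 hPT
  · -- all small coefficients vanish
    have hq0 : ∀ i < d, Q.coeff i = 0 := by
      intro i hi
      by_contra hq
      exact hαp (hcon i hi hq).1
    have hsum : ∑ i ∈ Finset.range d, algebraMap c'.C W (Q.coeff i) * c'.y ^ i = 0 :=
      Finset.sum_eq_zero fun i hi => by
        rw [hq0 i (Finset.mem_range.1 hi), map_zero, zero_mul]
    rw [hsum, sub_zero] at htail
    have hle : ‖Polynomial.aeval w φ‖ ≤ ‖c'.y‖ ^ d := by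
      have h1 : Polynomial.aeval w φ =
          (Polynomial.aeval w φ - Polynomial.aeval c'.y Q) + Polynomial.aeval c'.y Q := by ring
      rw [h1]
      exact (IsUltrametricDist.norm_add_le_max _ _).trans (max_le hQ htail)
    rw [hyg] at hle
    have hdiv := (gw_pow_iff hC h.w1.le h.gi g1 g2 φ d).1 hle
    have hX : (Polynomial.X : Polynomial c.C) ^ m1 ∣ φ := Polynomial.X_pow_dvd_iff.2 hlow
    have hcop : IsCoprime (g ^ d) ((Polynomial.X : Polynomial c.C) ^ m1) :=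
      ((h.gi.coprime_iff_not_dvd).2 g3).pow
    have h4 := hcop.mul_dvd hdiv hX
    have h5 := Polynomial.natDegree_le_of_dvd h4 hφ0
    rw [Polynomial.natDegree_mul (pow_ne_zero _ h.gi.ne_zero) (pow_ne_zero _ Polynomial.X_ne_zero),
      Polynomial.natDegree_pow, Polynomial.natDegree_pow, Polynomial.natDegree_X] at h5
    have h6 : d * g.natDegree ≤ D := by omega
    have h7 : d * g.natDegree * e ≤ D * e := Nat.mul_le_mul_right e h6
    have h8 : d * 2 ≤ d * (e * g.natDegree) := Nat.mul_le_mul_left d hef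
    have h9 : d * (e * g.natDegree) = d * g.natDegree * e := by ring
    omega

/-- See the header. -/
theorem st_as1 {k W : Type} [Field k] [NormedField W] [IsUltrametricDist W]
    [Algebra k W] {r m : ℕ} (hr : 0 < r) (p : ℕ) [Fact p.Prime] [CharP k p]
    {S L : IntermediateField k W} {c c' : Tri k W r} {e : ℕ} {B : Fin r → ℤ} {w : W}
    {g : Polynomial c.C} {T : ((Fin r → ℤ) × ℤ) ≃+ ((Fin r → ℤ) × ℤ)}
    (h : St m S L c c' e B w g T) (P : LP c.C r) (hred : RedC p c.x P)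
    (hge : ∀ a j, P.coeff (a, j) ≠ 0 → 1 ≤ ‖mon c.x a * c.y ^ j‖)
    (hT : ∀ a j, P.coeff (a, j) ≠ 0 → 0 ≤ (T (a, (j : ℤ))).2)
    (he : e = 1 → ∀ (a : Fin r → ℤ) (j : ℤ), T (a, j) = (a + j • B, j))
    {a0 : Fin r → ℤ} {d : ℕ} (hl : Lead c.x P a0 d) (hd : 2 ≤ d) (hef : 2 ≤ e * g.natDegree) :
    ∃ P' : LP c'.C r, RedC p c'.x P' ∧
      (∃ s ∈ L, ‖ev c.x c.y P - ev c'.x c'.y P' - (s ^ p - s)‖ < 1) ∧
      (P' = 0 ∨ ∃ (a0' : Fin r → ℤ) (d' : ℕ), Lead c'.x P' a0' d' ∧ d' < d) := by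
  classical
  have hpp : p.Prime := Fact.out
  have hCp' : CharP c'.C p := charP_of_injective_algebraMap (algebraMap k c'.C).injective p
  have hC := h.ch.ok.cst.unit
  have hu' := h.ch'.ok.hu
  obtain ⟨g1, g2, g3, g4⟩ := h.g_facts
  have hy1 : ‖c'.y‖ < 1 := h.ch'.ok.par.y1
  have hx' := h.ch'.ok.par.ind
  have hyd : 0 < ‖c'.y‖ := by
    rw [h.hy]
    exact norm_pos_iff.2 g2
  obtain ⟨α, a1, j1, m1, D, hc1, hTa1, hjD, hφ0, hmax, hlow, hdeg, -, hnorm⟩ :=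
    lead_stageU h.ch.ok.par.ind h.ch.ok.y_ne h.ch.ok.par.y1 h.w1 h.e1 h.hT h.hm P hT hl
  have hα1 : 1 ≤ ‖mon c'.x α‖ := (hge a0 d hl.mem).trans hnorm
  have hαpos : 0 < ‖mon c'.x α‖ := by linarith
  have hev := ev_parts h P hT
  set I : Finset (Fin r → ℤ) :=
    P.coeff.support.image (fun n => (T (n.1, (n.2 : ℤ))).1) with hI
  have hIm : ∀ β ∈ I, ‖mon c'.x β‖ ≤ ‖mon c'.x α‖ := by
    intro β hβ
    obtain ⟨⟨a, j⟩, h1, h2⟩ := Finset.mem_image.1 hβ
    have h3 := hmax a j (Finsupp.mem_support_iff.1 h1)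
    have h2' : (T (a, (j : ℤ))).1 = β := h2
    rw [h2'] at h3
    exact h3
  have hαI : α ∈ I := by
    refine Finset.mem_image.2 ⟨(a1, j1), Finsupp.mem_support_iff.2 hc1, ?_⟩
    show (T (a1, (j1 : ℤ))).1 = α
    rw [hTa1]
  obtain ⟨J0, hJ0⟩ := exists_pow_lt_of_lt_one (inv_pos.2 hαpos) hy1
  set J := max d J0 with hJ
  have hJJ : ‖mon c'.x α‖ * ‖c'.y‖ ^ J < 1 := by
    have h1 : ‖c'.y‖ ^ J ≤ ‖c'.y‖ ^ J0 :=
      pow_le_pow_of_le_one (norm_nonneg _) hy1.le (le_max_right _ _)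
    calc ‖mon c'.x α‖ * ‖c'.y‖ ^ J ≤ ‖mon c'.x α‖ * ‖c'.y‖ ^ J0 :=
          mul_le_mul_of_nonneg_left h1 hαpos.le
      _ < ‖mon c'.x α‖ * ‖mon c'.x α‖⁻¹ := mul_lt_mul_of_pos_left hJ0 hαpos
      _ = 1 := mul_inv_cancel₀ hαpos.ne'
  have hJd : ‖c'.y‖ ^ J ≤ ‖c'.y‖ ^ d :=
    pow_le_pow_of_le_one (norm_nonneg _) hy1.le (le_max_left _ _)
  have hwC : w ∈ Cw c.C w := IntermediateField.subset_adjoin _ _ rfl
  have hdig : ∀ β : Fin r → ℤ, ∃ Q : Polynomial c'.C,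
      ‖Polynomial.aeval w (part T P β) - Polynomial.aeval c'.y Q‖ ≤ ‖c'.y‖ ^ J := fun β =>
    st_dig h (le_cl _ (as1_aeval_mem hwC (part T P β))) (gw_le_one hC h.w1.le _) J
  choose Q hQ using hdig
  obtain ⟨P2, hP2, hev2⟩ := as1_mks c'.x c'.y I Q
  have hdiff : ‖ev c.x c.y P - ev c'.x c'.y P2‖ < 1 := by
    rw [hev, hev2, ← Finset.sum_sub_distrib]
    refine lt_of_le_of_lt (IsUltrametricDist.norm_sum_le_of_forall_le_of_nonneg
      (C := ‖mon c'.x α‖ * ‖c'.y‖ ^ J) (by positivity) fun β hβ => ?_) hJJ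
    rw [← mul_sub, norm_mul]
    exact mul_le_mul (hIm β hβ) (hQ β) (norm_nonneg _) hαpos.le
  obtain ⟨P', hred', ⟨s, hsLL, hs⟩, hcoef, hsame⟩ := exists_redU hu' p hx' hy1 P2
  have hsL : s ∈ L := (h.ch'.ok.Kxy_mem (LL_le_Kxy c'.x c'.y hsLL)).2
  have hS : ∃ s ∈ L, ‖ev c.x c.y P - ev c'.x c'.y P' - (s ^ p - s)‖ < 1 := by
    refine ⟨s, hsL, ?_⟩
    have h1 : ev c.x c.y P - ev c'.x c'.y P' - (s ^ p - s) =
        (ev c.x c.y P - ev c'.x c'.y P2) + (ev c'.x c'.y P2 - ev c'.x c'.y P' - (s ^ p - s)) := by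
      ring
    rw [h1]
    exact lt_of_le_of_lt (IsUltrametricDist.norm_add_le_max _ _) (max_lt hdiff hs)
  have hP2m : ∀ a j, P2.coeff (a, j) ≠ 0 → ‖mon c'.x a‖ ≤ ‖mon c'.x α‖ := by
    intro a j haj
    rw [hP2] at haj
    by_cases ha : a ∈ I
    · exact hIm a ha
    · rw [if_neg ha] at haj
      exact absurd rfl haj
  have hP'pow : ∀ a j, P'.coeff (a, j) ≠ 0 → ∃ n : ℕ, ‖mon c'.x a‖ ^ (p ^ n) ≤ ‖mon c'.x α‖ := by
    intro a j haj
    obtain ⟨n, hn⟩ := hcoef a j haj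
    have h1 := hP2m _ _ hn
    rw [mon_nsmul, norm_pow] at h1
    exact ⟨n, h1⟩
  refine ⟨P', hred', hS, ?_⟩
  rcases hα1.eq_or_lt with hαe | hαl
  · -- `‖x'^α‖ = 1`
    by_cases hP'0 : P' = 0
    · exact Or.inl hP'0
    right
    have hall : ∀ a j, P'.coeff (a, j) ≠ 0 → a = 0 ∧ j = 0 := by
      intro a j haj
      rcases hred' a j haj with h1 | ⟨h1, -⟩
      · exact h1
      · exfalso
        obtain ⟨n, hn⟩ := hP'pow a j haj
        rw [← hαe] at hn
        have h2 : 1 < ‖mon c'.x a‖ ^ (p ^ n) := one_lt_pow₀ h1 (pow_ne_zero n hpp.ne_zero)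
        linarith
    have hne : P'.coeff ≠ 0 := by
      intro h0
      apply hP'0
      exact AddMonoidAlgebra.coeff_injective (by rw [h0, AddMonoidAlgebra.coeff_zero])
    obtain ⟨⟨a, j⟩, haj⟩ := Finsupp.ne_iff.1 hne
    have haj' : P'.coeff (a, j) ≠ 0 := haj
    obtain ⟨ha, hj⟩ := hall a j haj'
    rw [ha, hj] at haj'
    refine ⟨0, 0, ⟨haj', fun a j h1 => ?_, fun j _ => Nat.zero_le j⟩, by omega⟩
    rw [(hall a j h1).1]
  · -- `‖x'^α‖ > 1`
    obtain ⟨i, hid, hi0, hiPT⟩ := as1_claim p h P hred hT he hd hef hc1 hTa1 hjD hφ0 hlow hdeg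
      hαl (Q α) ((hQ α).trans hJd)
    have hP2α : P2.coeff (α, i) = (Q α).coeff i := by rw [hP2, if_pos hαI]
    have hPα : P'.coeff (α, i) ≠ 0 := by
      rw [hsame α hαl hP2m i, hP2α, if_neg hiPT]
      exact hi0
    have hP'm : ∀ a j, P'.coeff (a, j) ≠ 0 → ‖mon c'.x a‖ ≤ ‖mon c'.x α‖ := by
      intro a j haj
      obtain ⟨n, hn⟩ := hP'pow a j haj
      rcases le_or_gt ‖mon c'.x a‖ 1 with h1 | h1
      · exact h1.trans hα1
      · exact (le_self_pow₀ h1.le (pow_ne_zero n hpp.ne_zero)).trans hn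
    right
    have hex : ∃ j, P'.coeff (α, j) ≠ 0 := ⟨i, hPα⟩
    refine ⟨α, Nat.find hex, ⟨Nat.find_spec hex, hP'm, fun j hj => Nat.find_min' hex hj⟩, ?_⟩
    exact lt_of_le_of_lt (Nat.find_min' hex hPα) hid

end Pool.Agent.Lib.TU
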