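import Pool.Agent.Lib.TU.StHO
import Pool.Agent.Lib.TU.StDig
import Pool.Agent.Lib.TU.LeadU

/-!
# Module StLd: the lead form after a stage (paper 3.3)

`lead_stageU` gives `α, a1, j1, m1, D`, `φ = part T P α = X^m1 * ψ`, `natDegree ψ ≤ D`.
`ev x y P = ∑_β x'^β φ_β(w)` over the finitely many `β = (T(a, j)).1`, `φ_β = part T P β`, `φ_β(w) ∈ HO c'`.
`φ = g^d' φ'`, `g ∤ φ'` (`φ ≠ 0`): `φ(w) = y'^d' v`, `v = φ'(w)` a unit (`gw_lt_iff`), so
`Ld c' (ev x y P) α d'`.  `g ∤ X`, so `g^d' ∣ ψ`, `d' f ≤ D`, `D e ≤ d - j1`: `d' e f ≤ d`.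
If `e f = 1` and `d' = d`: `D = d`, `j1 = 0`, `g = X - C e0`, `e0 ≠ 0`, `ψ = t (X - e0)^d`; `e = 1` so `c'.x = c.x`,
`T (a, j) = (a + jB, j)`, `m1 = j1 = 0`; `φ.coeff 0 ≠ 0`: `P.coeff (α, 0) ≠ 0`; `φ.coeff d ≠ 0`:
`P.coeff (α - dB, d) ≠ 0`, `‖x^(α - dB)‖ ≤ ‖x^a0‖`, and `‖x^a0 y^d‖ ≤ ‖x^α‖ = ‖x^(α - dB) y^d‖`, so
`α - dB = a0` (`norm_mon_inj`; `‖y‖ = ‖x^B‖`).
-/

namespace Pool.Agent.Lib.TU

open Pool.Agent.Lib.MP_3029eb_ag Pool.Agent.Lib.MP_3029eb_ag.Abh Pool.Agent.Lib.TDO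

variable {k W : Type} [Field k] [NormedField W] [IsUltrametricDist W] [Algebra k W] {r m : ℕ}
  {S L : IntermediateField k W} {c c' : Tri k W r} {e : ℕ} {B : Fin r → ℤ} {w : W}
  {g : Polynomial c.C} {T : ((Fin r → ℤ) × ℤ) ≃+ ((Fin r → ℤ) × ℤ)}

open Classical in
/-- The value of `P` in terms of the parts. -/
theorem ev_parts (h : St m S L c c' e B w g T) (P : LP c.C r)
    (hT : ∀ a j, P.coeff (a, j) ≠ 0 → 0 ≤ (T (a, (j : ℤ))).2) :
    ev c.x c.y P = ∑ β ∈ P.coeff.support.image (fun n => (T (n.1, (n.2 : ℤ))).1),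
      mon c'.x β * Polynomial.aeval w (part T P β) := by
  have key : ∀ β, mon c'.x β * Polynomial.aeval w (part T P β) =
      ∑ n ∈ P.coeff.support.filter (fun n => (T (n.1, (n.2 : ℤ))).1 = β),
        algebraMap c.C W (P.coeff n) * (mon c.x n.1 * c.y ^ n.2) := by
    intro β
    unfold part
    rw [map_sum, Finset.mul_sum]
    refine Finset.sum_congr rfl fun n hn => ?_
    rw [Finset.mem_filter, Finsupp.mem_support_iff] at hn
    have h1 := h.hm n.1 (n.2 : ℤ)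
    rw [zpow_natCast] at h1
    rw [Polynomial.aeval_monomial, h1, hn.2]
    have h2 : w ^ (T (n.1, (n.2 : ℤ))).2 = w ^ (T (n.1, (n.2 : ℤ))).2.toNat := by
      rw [← zpow_natCast, Int.toNat_of_nonneg (hT n.1 n.2 hn.1)]
    rw [h2]
    ring
  rw [Finset.sum_congr rfl fun β _ => key β]
  rw [Finset.sum_fiberwise_of_maps_to (fun n hn => Finset.mem_image_of_mem _ hn)]
  rfl

private theorem sl_aeval_mem (h : St m S L c c' e B w g T) (R : Polynomial c.C) :
    Polynomial.aeval w R ∈ HO (S ⊓ L) c' := by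
  rw [Polynomial.aeval_eq_sum_range]
  refine sum_mem fun i _ => ?_
  rw [Algebra.smul_def]
  exact mul_mem (h.inH.1 _ (R.coeff i).2) (pow_mem h.inH.2 i)

/-- See the header. -/
theorem st_lead (hr : 0 < r) (h : St m S L c c' e B w g T) (P : LP c.C r)
    (hT : ∀ a j, P.coeff (a, j) ≠ 0 → 0 ≤ (T (a, (j : ℤ))).2)
    (he : e = 1 → c'.x = c.x ∧ ∀ (a : Fin r → ℤ) (j : ℤ), T (a, j) = (a + j • B, j))
    {a0 : Fin r → ℤ} {d : ℕ} (hl : Lead c.x P a0 d) :
    ∃ (α : Fin r → ℤ) (d' : ℕ), Ld (S ⊓ L) c' (ev c.x c.y P) α d' ∧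
      ‖mon c.x a0 * c.y ^ d‖ ≤ ‖mon c'.x α‖ ∧ d' * (e * g.natDegree) ≤ d ∧
      (e * g.natDegree = 1 → d' = d → α = a0 + d • B ∧ P.coeff (a0 + d • B, 0) ≠ 0) := by
  classical
  have hok := h.ch.ok
  have hok' := h.ch'.ok
  have hx := hok.par.ind
  have hx' := hok'.par.ind
  have hC := hok.cst.unit
  obtain ⟨hg1, hg0, hgX, -⟩ := St.g_facts h
  obtain ⟨α, a1, j1, m1, D, hc1, hTa1, hjD, hφ0, hmax, hlow, hdeg, hex, hnrm⟩ :=
    lead_stageU hx hok.y_ne hok.par.y1 h.w1 h.e1 h.hT h.hm P hT hl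
  set φ := part T P α with hφ
  obtain ⟨d', φ', hφ', hfac⟩ := WfDvdMonoid.max_power_factor hφ0 h.gi
  -- the degree bound
  have hXd : (Polynomial.X : Polynomial c.C) ^ m1 ∣ φ := Polynomial.X_pow_dvd_iff.2 hlow
  obtain ⟨ψ, hψ⟩ := hXd
  have hψ0 : ψ ≠ 0 := by
    rintro rfl
    apply hφ0
    rw [hψ, mul_zero]
  have hφd : φ.natDegree = m1 + ψ.natDegree := by
    rw [hψ, Polynomial.natDegree_mul (pow_ne_zero _ Polynomial.X_ne_zero) hψ0,
      Polynomial.natDegree_X_pow]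
  have hψD : ψ.natDegree ≤ D := by omega
  have hcop : IsCoprime (g ^ d') ((Polynomial.X : Polynomial c.C) ^ m1) :=
    ((h.gi.coprime_iff_not_dvd).2 hgX).pow
  have hdvd : g ^ d' ∣ ψ := by
    refine hcop.dvd_of_dvd_mul_left ?_
    rw [← hψ, hfac]
    exact Dvd.intro _ rfl
  have hgd : (g ^ d').natDegree = d' * g.natDegree := Polynomial.natDegree_pow _ _
  have hdD : d' * g.natDegree ≤ D := by
    rw [← hgd]
    exact (Polynomial.natDegree_le_of_dvd hdvd hψ0).trans hψD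
  have hde : d' * (e * g.natDegree) ≤ d - j1 := by
    have h1 : d' * (e * g.natDegree) = (d' * g.natDegree) * e := by ring
    rw [h1]
    have h2 : (d' * g.natDegree) * e ≤ D * e := Nat.mul_le_mul_right e hdD
    omega
  -- the lead form
  have hαim : α ∈ P.coeff.support.image (fun n => (T (n.1, (n.2 : ℤ))).1) := by
    rw [Finset.mem_image]
    exact ⟨(a1, j1), Finsupp.mem_support_iff.2 hc1, by rw [hTa1]⟩
  have hld : Ld (S ⊓ L) c' (ev c.x c.y P) α d' := by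
    refine ⟨Polynomial.aeval w φ', sl_aeval_mem h φ', ?_,
      ∑ β ∈ (P.coeff.support.image (fun n => (T (n.1, (n.2 : ℤ))).1)).erase α,
        mon c'.x (β - α) * Polynomial.aeval w (part T P β), ?_, ?_⟩
    · refine le_antisymm (gw_le_one hC h.w1.le φ') (not_lt.1 ?_)
      rw [gw_lt_iff hC h.w1.le h.gi hg1]
      exact hφ'
    · have hsum : ∀ s : Finset (Fin r → ℤ),
          (∀ β ∈ s, ‖mon c'.x (β - α)‖ < 1) →
          ∑ β ∈ s, mon c'.x (β - α) * Polynomial.aeval w (part T P β) ∈ QH (S ⊓ L) c' := by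
        intro s
        induction s using Finset.induction_on with
        | empty =>
          intro _
          rw [Finset.sum_empty]
          exact QH_zero hok' hr
        | insert β s hβ ih =>
          intro hs
          rw [Finset.sum_insert hβ]
          exact QH_add hok' (mon_mul_mem_QH hok' (hs β (Finset.mem_insert_self _ _))
            (sl_aeval_mem h _)) (ih fun γ hγ => hs γ (Finset.mem_insert_of_mem hγ))
      refine hsum _ fun β hβ => ?_
      rw [Finset.mem_erase, Finset.mem_image] at hβ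
      obtain ⟨hne, ⟨⟨a, j⟩, hn, rfl⟩⟩ := hβ
      have h1 := hmax a j (Finsupp.mem_support_iff.1 hn)
      have hα0 : 0 < ‖mon c'.x α‖ := norm_pos_iff.2 (mon_ne _ hx'.ne _)
      rw [sub_eq_add_neg, mon_add _ hx'.ne, mon_neg, norm_mul, norm_inv,
        mul_inv_lt_iff₀ hα0, one_mul]
      refine lt_of_le_of_ne h1 fun h2 => hne (norm_mon_inj hx' h2)
    · rw [ev_parts h P hT, ← Finset.add_sum_erase _ _ hαim, mul_add, Finset.mul_sum]
      congr 1
      · rw [← hφ, hfac, map_mul, map_pow, h.hy]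
      · refine Finset.sum_congr rfl fun β _ => ?_
        rw [← mul_assoc, ← mon_add _ hx'.ne]
        congr 2
        abel
  refine ⟨α, d', hld, hnrm, by omega, ?_⟩
  intro hef hdd
  have he1 : e = 1 := Nat.eq_one_of_mul_eq_one_right hef
  have hf1 : g.natDegree = 1 := Nat.eq_one_of_mul_eq_one_left hef
  obtain ⟨hcx, hTT⟩ := he he1
  rw [hf1, mul_one] at hdD hgd
  rw [he1, mul_one] at hjD
  have hDd : D = d := by omega
  have hj1 : j1 = 0 := by omega
  have h3 := hTT a1 (j1 : ℤ)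
  rw [hTa1, hj1] at h3
  have hα1 : α = a1 := by
    have := congrArg Prod.fst h3
    simpa using this
  have hm1 : m1 = 0 := by
    have := congrArg Prod.snd h3
    simpa using this
  have hφne : φ' ≠ 0 := by
    rintro rfl
    apply hφ0
    rw [hfac, mul_zero]
  have hdφ : φ.natDegree = d := by
    have h4 : φ.natDegree = (g ^ d').natDegree + φ'.natDegree := by
      rw [hfac, Polynomial.natDegree_mul (pow_ne_zero _ h.gi.ne_zero) hφne]
    omega
  have hlc : φ.coeff d ≠ 0 := by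
    rw [← hdφ, Polynomial.coeff_natDegree]
    exact Polynomial.leadingCoeff_ne_zero.2 hφ0
  obtain ⟨i, hi, hci, -⟩ := hex d hlc
  have hi' : i = d := by omega
  rw [hi', he1, hj1, mul_one, zero_add, ← hα1] at hci
  have h5 := hl.max _ _ hci
  have h6 := h.hm (α - d • B) (d : ℤ)
  have h7 : T (α - d • B, (d : ℤ)) = (α, (d : ℤ)) := by
    rw [hTT]
    refine Prod.ext ?_ rfl
    simp
  rw [h7, hcx, zpow_natCast, zpow_natCast] at h6
  have h8 : ‖mon c.x (α - d • B)‖ * ‖c.y‖ ^ d = ‖mon c.x α‖ := by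
    rw [← norm_pow, ← norm_mul, h6, norm_mul, norm_pow, h.w1, one_pow, mul_one]
  have hyp : 0 < ‖c.y‖ ^ d := pow_pos (norm_pos_iff.2 hok.y_ne) d
  rw [hcx, norm_mul, norm_pow, ← h8] at hnrm
  have h9 : ‖mon c.x a0‖ ≤ ‖mon c.x (α - d • B)‖ := le_of_mul_le_mul_right hnrm hyp
  have h10 : a0 = α - d • B := norm_mon_inj hx (le_antisymm h9 h5)
  have h11 : α = a0 + d • B := by
    rw [h10]
    simp
  refine ⟨h11, ?_⟩
  rw [← h11]
  rw [hj1, ← hα1] at hc1
  exact hc1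

end Pool.Agent.Lib.TU
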