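import Pool.Agent.Lib.TU.StLd
import Pool.Agent.Lib.TU.StEx
import Pool.Agent.Lib.TU.HOApp

/-!
# Module StLdH: the lead form of an element of `HL` after a stage (paper 3.4)

Let `Ld c z a0 d`.  `z' := x^(-a0) z = y^d v + q ∈ HO c`.  `HO_approx` with `J = d + 1` and `N` with
`‖x^N‖ < ‖y^d‖`, `‖x^N‖ < 1` (`exists_mon_lt`): `z' = P + x^N h1 + y^(d+1) h2`.  Then
`P = y^d (v - y h2) + (q - x^N h1)` has `Ld c P 0 d`, so `Lead c.x P 0 d` (`Ld.lead`).  Multiply by `x^b`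
such that all exponents `(a, j)` of `P1 := x^b P` (`exists_shift`) have `1 ≤ ‖x^a y^j‖`; `Lead P1 b d`.
`exists_st` with `X` = support of `P1`; `st_lead`: `Ld c' P1 α1 d'`, `‖x^b y^d‖ ≤ ‖x'^α1‖`.
`x^b z' - P1 = x^b (x^N h1 + y^(d+1) h2)`, its `Gn c'` is `≤ ‖x^b‖ max(‖x^N‖, ‖y‖^(d+1)) < ‖x^b y^d‖`
(`y ∈ MoH c'`, `0 < ‖y‖ < 1`), so `Ld c' (x^b z') α1 d'` (`Ld.perturb`), and `z = x^(a0 - b) (x^b z')` with
`x^(a0 - b) ∈ MoH c'`: `x^(a0-b) = x'^β w^n`: `Ld c' z (β + α1) d'`.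
If `e f = 1` then `c'.x = c.x`, `β = a0 - b`; if moreover `d' = d`: `α1 = b + dB`, so `β + α1 = a0 + dB`.
-/

namespace Pool.Agent.Lib.TU

open Pool.Agent.Lib.MP_3029eb_ag Pool.Agent.Lib.MP_3029eb_ag.Abh Pool.Agent.Lib.TDO

/-- a Laurent polynomial approximation with the same lead form -/
private theorem stldh_approx {k W : Type} [Field k] [NormedField W] [IsUltrametricDist W]
    [Algebra k W] {r m : ℕ} (hr : 0 < r) {M : IntermediateField k W} {c : Tri k W r}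
    (hok : Ok m M c) {d : ℕ} {v q : W} (hv : v ∈ HO M c) (hv1 : ‖v‖ = 1) (hq : q ∈ QH M c) :
    ∃ (P : LP c.C r) (N : Fin r → ℤ), ∃ h1 ∈ HO M c, ∃ h2 ∈ HO M c,
      c.y ^ d * v + q = ev c.x c.y P + mon c.x N * h1 + c.y ^ (d + 1) * h2 ∧
      ‖mon c.x N‖ < ‖c.y‖ ^ d ∧ Lead c.x P 0 d := by
  have hy0 : c.y ≠ 0 := hok.y_ne
  have hyp : 0 < ‖c.y‖ := norm_pos_iff.2 hy0
  have hy1 : ‖c.y‖ < 1 := hok.par.y1
  obtain ⟨N, -, hN⟩ := exists_mon_lt hr hok.par.ind (‖c.y‖ ^ d) (by positivity)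
  have hz : c.y ^ d * v + q ∈ HO M c :=
    add_mem (mul_mem (pow_mem (y_mem_HO hok) _) hv) (QH_mem_HO hok hq)
  obtain ⟨P, -, h1, hh1, h2, hh2, hP⟩ := HO_approx hr hok hz N (d + 1)
  refine ⟨P, N, h1, hh1, h2, hh2, hP, hN, ?_⟩
  have hN1 : ‖mon c.x N‖ < 1 := hN.trans_le (pow_le_one₀ (norm_nonneg _) hy1.le)
  have hyh : ‖c.y * h2‖ < 1 := by
    rw [norm_mul]
    exact (mul_le_of_le_one_right (norm_nonneg _) (HO_norm_le hok hh2)).trans_lt hy1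
  have hyhm : c.y * h2 ∈ HO M c := mul_mem (y_mem_HO hok) hh2
  refine Ld.lead hr hok ⟨v - c.y * h2, sub_mem hv hyhm, ?_, q + -(mon c.x N * h1), ?_, ?_⟩
  · rw [sub_eq_add_neg, IsUltrametricDist.norm_add_eq_max_of_norm_ne_norm
      (by rw [hv1, norm_neg]; exact hyh.ne'), norm_neg, hv1, max_eq_left hyh.le]
  · exact QH_add hok hq (QH_neg hok (mon_mul_mem_QH hok hN1 hh1))
  · rw [mon_zero, one_mul]
    have h3 : ev c.x c.y P = c.y ^ d * v + q - mon c.x N * h1 - c.y ^ (d + 1) * h2 := by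
      rw [hP]; ring
    rw [h3]
    ring

/-- all monomials of a Laurent polynomial become large after multiplication by `mon x b` -/
private theorem stldh_shift {k W : Type} [Field k] [NormedField W] [Algebra k W] {r : ℕ}
    (hr : 0 < r) {x : Fin r → W} {y : W} (hx : Indep x) (hy : y ≠ 0)
    (s : Finset ((Fin r → ℤ) × ℕ)) :
    ∃ b : Fin r → ℤ, ∀ n ∈ s, 1 ≤ ‖mon x b‖ * ‖mon x n.1 * y ^ n.2‖ := by
  have hpos : ∀ n : (Fin r → ℤ) × ℕ, 0 < ‖mon x n.1 * y ^ n.2‖ := fun n =>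
    norm_pos_iff.2 (mul_ne_zero (mon_ne x hx.ne _) (pow_ne_zero _ hy))
  obtain ⟨C, hC, hCs⟩ : ∃ C : ℝ, 0 < C ∧ ∀ n ∈ s, C ≤ ‖mon x n.1 * y ^ n.2‖ := by
    rcases s.eq_empty_or_nonempty with he | he
    · exact ⟨1, one_pos, fun n hn => by rw [he] at hn; exact absurd hn (Finset.notMem_empty _)⟩
    · obtain ⟨n₀, hn₀, hmin⟩ := s.exists_min_image (fun n => ‖mon x n.1 * y ^ n.2‖) he
      exact ⟨_, hpos n₀, hmin⟩
  obtain ⟨N, -, hN⟩ := exists_mon_lt hr hx C hC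
  refine ⟨-N, fun n hn => ?_⟩
  have hNp : 0 < ‖mon x N‖ := norm_pos_iff.2 (mon_ne x hx.ne N)
  rw [mon_neg, norm_inv, ← div_eq_inv_mul, one_le_div hNp]
  exact hN.le.trans (hCs n hn)

/-- See the header. -/
theorem st_lead_HL {k W : Type} [Field k] [PerfectField k] [NormedField W] [IsUltrametricDist W]
    [Algebra k W] {r m : ℕ} (hr : 0 < r) (hA : AmbG r m k W) (S L : IntermediateField k W)
    (hS : ∀ z : W, IsSeparable S z → z ∈ S) (hL : IsComplete (L : Set W)) {c : Tri k W r}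
    (hc : Ch m S L c) {z : W} {a0 : Fin r → ℤ} {d : ℕ} (hz : Ld (S ⊓ L) c z a0 d) :
    ∃ (c' : Tri k W r) (e : ℕ) (B : Fin r → ℤ) (w : W) (g : Polynomial c.C)
      (T : ((Fin r → ℤ) × ℤ) ≃+ ((Fin r → ℤ) × ℤ)), St m S L c c' e B w g T ∧
      ∃ (α : Fin r → ℤ) (d' : ℕ), Ld (S ⊓ L) c' z α d' ∧ d' * (e * g.natDegree) ≤ d ∧
        (e * g.natDegree = 1 → c'.C = c.C ∧ c'.x = c.x ∧ (d' = d → α = a0 + d • B)) := by
  classical
  have hok := hc.ok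
  have hx := hok.par.ind
  have hy0 : c.y ≠ 0 := hok.y_ne
  have hyp : 0 < ‖c.y‖ := norm_pos_iff.2 hy0
  have hy1 : ‖c.y‖ < 1 := hok.par.y1
  obtain ⟨v, hv, hv1, q, hq, hzq⟩ := hz
  obtain ⟨P, N, h1, hh1, h2, hh2, hP, hN, hlead⟩ := stldh_approx hr hok (d := d) hv hv1 hq
  obtain ⟨b, hb⟩ := stldh_shift (k := k) hr hx hy0 P.coeff.support
  obtain ⟨P1, hP1, hP1c⟩ := exists_shift c.x c.y hx.ne P b
  have hxb : 0 < ‖mon c.x b‖ := norm_pos_iff.2 (mon_ne c.x hx.ne b)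
  have hab : ∀ a : Fin r → ℤ, mon c.x a = mon c.x b * mon c.x (a - b) := fun a => by
    rw [← mon_add c.x hx.ne, add_sub_cancel]
  have hlead1 : Lead c.x P1 b d := by
    refine ⟨?_, fun a j haj => ?_, fun j hj => ?_⟩
    · rw [hP1c, sub_self]; exact hlead.mem
    · rw [hP1c] at haj
      have h3 := hlead.max _ _ haj
      rw [mon_zero, norm_one] at h3
      rw [hab a, norm_mul]
      exact mul_le_of_le_one_right hxb.le h3
    · rw [hP1c, sub_self] at hj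
      exact hlead.min j hj
  obtain ⟨c', e, B, w, g, T, hSt, hT, hC, he⟩ := exists_st hr hA S L hS hL hc P1.coeff.support
    (fun n hn => by
      rw [Finsupp.mem_support_iff] at hn
      have hn' : P1.coeff (n.1, n.2) ≠ 0 := hn
      rw [hP1c] at hn'
      have h3 := hb (n.1 - b, n.2) (Finsupp.mem_support_iff.2 hn')
      rw [hab n.1, mul_assoc, norm_mul]
      exact h3)
  have hT' : ∀ a j, P1.coeff (a, j) ≠ 0 → 0 ≤ (T (a, (j : ℤ))).2 := fun a j haj =>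
    hT (a, j) (Finsupp.mem_support_iff.2 haj)
  obtain ⟨α1, d', hld, hle, hdd, heq⟩ := st_lead hr hSt P1 hT' he hlead1
  have hR : StR m S L c c' := ⟨e, B, w, g, T, hSt⟩
  have hRf : RfS m S L c c' := Relation.ReflTransGen.single hR
  have hok' : Ok m (S ⊓ L) c' := hSt.ch'.ok
  have hx' := hok'.par.ind
  -- the norms for `c'`
  have hGmon : ∀ a : Fin r → ℤ, mon c.x a ∈ HL (S ⊓ L) c' ∧
      Gn (S ⊓ L) c' (mon c.x a) = ‖mon c.x a‖ := fun a => by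
    have h3 : MoH (S ⊓ L) c' (mon c.x a) := RfS.moH hr hc hRf (MoH.of_mon hok a)
    exact ⟨h3.mem_HL hok', (moH_iff_Gn hr hok' (h3.mem_HL hok') (h3.ne hok')).1 h3⟩
  have hGy : c.y ∈ HL (S ⊓ L) c' ∧ Gn (S ⊓ L) c' c.y = ‖c.y‖ := by
    have h3 : MoH (S ⊓ L) c' c.y := hR.y_moH
    exact ⟨h3.mem_HL hok', (moH_iff_Gn hr hok' (h3.mem_HL hok') (h3.ne hok')).1 h3⟩
  have hGypow : ∀ n : ℕ, c.y ^ n ∈ HL (S ⊓ L) c' ∧ Gn (S ⊓ L) c' (c.y ^ n) = ‖c.y‖ ^ n := by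
    intro n
    induction n with
    | zero =>
      have h3 := Gn_mon hr hok' (0 : Fin r → ℤ)
      rw [mon_zero, norm_one] at h3
      rw [pow_zero, pow_zero]
      exact ⟨one_mem _, h3⟩
    | succ n ih =>
      rw [pow_succ, pow_succ]
      exact ⟨mul_mem ih.1 hGy.1, by rw [Gn_mul hr hok' ih.1 hGy.1, ih.2, hGy.2]⟩
  have hGH : ∀ h ∈ HO (S ⊓ L) c, h ∈ HL (S ⊓ L) c' ∧ Gn (S ⊓ L) c' h ≤ 1 := fun h hh => by
    have h3 := hR.HO_le hr hh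
    exact ⟨HO_le_HL h3, (Gn_le_one_iff hr hok' (HO_le_HL h3)).2 h3⟩
  set δ : W := mon c.x b * (mon c.x N * h1 + c.y ^ (d + 1) * h2) with hδ
  have hm1 : mon c.x N * h1 ∈ HL (S ⊓ L) c' := mul_mem (hGmon N).1 (hGH h1 hh1).1
  have hm2 : c.y ^ (d + 1) * h2 ∈ HL (S ⊓ L) c' := mul_mem (hGypow _).1 (hGH h2 hh2).1
  have hδm : δ ∈ HL (S ⊓ L) c' := mul_mem (hGmon b).1 (add_mem hm1 hm2)
  have hδG : Gn (S ⊓ L) c' δ < ‖mon c'.x α1‖ := by
    refine lt_of_lt_of_le ?_ hle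
    rw [hδ, Gn_mul hr hok' (hGmon b).1 (add_mem hm1 hm2), (hGmon b).2, norm_mul, norm_pow]
    refine mul_lt_mul_of_pos_left ?_ hxb
    refine (Gn_add_le hr hok' hm1 hm2).trans_lt (max_lt ?_ ?_)
    · rw [Gn_mul hr hok' (hGmon N).1 (hGH h1 hh1).1, (hGmon N).2]
      exact (mul_le_of_le_one_right (norm_nonneg _) (hGH h1 hh1).2).trans_lt hN
    · rw [Gn_mul hr hok' (hGypow _).1 (hGH h2 hh2).1, (hGypow _).2]
      refine (mul_le_of_le_one_right (by positivity) (hGH h2 hh2).2).trans_lt ?_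
      exact pow_lt_pow_right_of_lt_one₀ hyp hy1 (Nat.lt_succ_self d)
  have hld2 : Ld (S ⊓ L) c' (ev c.x c.y P1 + δ) α1 d' := hld.perturb hr hok' hδm hδG
  -- back to `z`
  have hw0 : w ∈ HO (S ⊓ L) c' := hSt.inH.2
  have hwn : ∀ n : ℤ, w ^ n ∈ HO (S ⊓ L) c' ∧ ‖w ^ n‖ = 1 := by
    intro n
    refine ⟨?_, by rw [norm_zpow, hSt.w1, one_zpow]⟩
    obtain ⟨j, hj | hj⟩ := Int.eq_nat_or_neg n
    · rw [hj, zpow_natCast]
      exact pow_mem hw0 j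
    · rw [hj, zpow_neg, zpow_natCast, ← inv_pow]
      exact pow_mem (inv_mem_HO hok' hw0 hSt.w1) j
  have hzeq : z = mon c'.x (T (a0 - b, 0)).1 *
      (w ^ (T (a0 - b, 0)).2 * (ev c.x c.y P1 + δ)) := by
    have h3 := hSt.hm (a0 - b) 0
    rw [zpow_zero, mul_one] at h3
    rw [← mul_assoc, ← h3, hzq, hP, hP1, hδ, hab a0]
    ring
  refine ⟨c', e, B, w, g, T, hSt, (T (a0 - b, 0)).1 + α1, d', ?_, hdd, fun hef => ?_⟩
  · rw [hzeq]
    exact (hld2.unit_mul hok' (hwn _).1 (hwn _).2).xmul hok' _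
  · have he1 : e = 1 := Nat.eq_one_of_mul_eq_one_right hef
    have hg1 : g.natDegree = 1 := Nat.eq_one_of_mul_eq_one_left hef
    refine ⟨hC hg1, (he he1).1, fun hd => ?_⟩
    have h4 := (heq hef hd).1
    have h5 := (he he1).2 (a0 - b) 0
    rw [h5, h4]
    simp only [zero_smul, add_zero]
    abel

end Pool.Agent.Lib.TU
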