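import Pool.Agent.Lib.TU.StabD
import Pool.Agent.Lib.TU.InvU
import Pool.Agent.Lib.TU.AppSt
import Pool.Agent.Lib.TU.Hat

/-!
# Module StabU: existence of stable charts (paper 9.4)

`c0` a chart of `L'`, `M = S ⊓ L'`.  `exists_stR`, then `m_all`: `c0'` a proper refinement for which all
`z ∈ Z0` are monomial.  `inv_all`: `c := c1` refinement of `c0'` with, for all `σ`: `Gn c (σ z) = Gn c z` for
`z ∈ HL c0`, `σ (HO c0) ⊆ HO c`, `σ (x_0 i)` monomial for `c`.
`A := Afr M c (HL M c0)`: fractions `n / d`, `n, d ∈ HL c0`, `d` monomial for `c` (`AppD`: `A ⊆ HL c`, inverses of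
monomial elements).
(1) `σ A ⊆ HL c` and `Gn c (σ a) = Gn c a` for `a ∈ A`: `σ n ∈ HL c` (`HL_map`); `d` monomial for `c`:
`Gn c d = ‖d‖`, so `Gn c (σ d) = ‖d‖ = ‖σ d‖`, `σ d` is monomial for `c` (`moH_iff_Gn`), so
`σ (n/d) = σ n / σ d ∈ HL c`, with the same `Gn` (multiplicativity).
(2) `app_main` with `C0, x_0, y_0 ⊆ HL c0 ⊆ A ⊆ Dcl` and `hat` give `c'`, `Z` with `HO c' = HO c`, `x', y', Z ∈ A`,
`c'.C` separable over `k(Z)`.
(3) `σ (c'.x i) ∈ HL c` has `Gn = Gn (c'.x i) = ‖c'.x i‖ = ‖σ (c'.x i)‖` so is monomial for `c`, `= x^a u`,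
`‖x^a‖ = ‖x i‖`, so `a = e_i`, `σ (c'.x i) = c'.x i * unit`.  `σ (c'.y)`: `Gn ≤ 1`, so in `HO c`.
`σ (Z j) ∈ HO c` similarly, so `σ (k(Z)) ⊆ HO c` (a field generated by elements of `HO c` all of whose
nonzero elements have norm one).
`σ (e) ∈ HO c` for `e ∈ c'.C`: `e ∈ HO c` is congruent to an element of `c.C` (`HO_dec`) so to some
`a ∈ A ∩ HO c` (`app_main`), and `σ a ∈ HO c` (`Gn c (σ a) = Gn c a ≤ 1`); `σ e ∈ M` is a root of the image under `σ`
of the minimal polynomial of `e` over `k(Z)`, coefficients in `HO c`, `‖σ e - σ a‖ < 1`, derivative at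
`σ a` of norm one: `hen'`.
`HO_map`: `σ (HO c') ⊆ HO c = HO c'`.  So `c'` is stable; `z ∈ Z0` monomial for `c`, hence for `c'` (same `HO`, and
`c'.x i = c.x i * unit`).
-/

namespace Pool.Agent.Lib.TU

open Pool.Agent.Lib.MP_3029eb_ag Pool.Agent.Lib.MP_3029eb_ag.Abh Pool.Agent.Lib.TDO

private theorem su_eq {W : Type} [NormedField W] [IsUltrametricDist W] {a b : W}
    (h : ‖a - b‖ < ‖a‖) : ‖b‖ = ‖a‖ := by
  have hs : ∀ {a b : W}, ‖a - b‖ ≤ max ‖a‖ ‖b‖ := by
    intro a b
    have := IsUltrametricDist.norm_add_le_max a (-b)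
    rwa [norm_neg, ← sub_eq_add_neg] at this
  apply le_antisymm
  · have h1 : b = a - (a - b) := by ring
    rw [h1]
    exact hs.trans (max_le le_rfl h.le)
  · by_contra h2
    have h3 : a = (a - b) + b := by ring
    have h4 := IsUltrametricDist.norm_add_le_max (a - b) b
    rw [← h3] at h4
    exact absurd h4 (not_le.2 (max_lt h (not_le.1 h2)))

/-- See the header. -/
theorem stableU {k W : Type} [Field k] [PerfectField k] [NormedField W] [IsUltrametricDist W]
    [Algebra k W] {r m : ℕ} (hr : 0 < r) (hA : AmbG r m k W) {Γ : Type} [Group Γ] [Finite Γ]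
    (S L L' : IntermediateField k W) (hS : ∀ z : W, IsSeparable S z → z ∈ S)
    (hL' : IsComplete (L' : Set W)) (act : Act Γ S L L') (h : HasCh m S r L') (Z0 : Finset W)
    (hZ0 : ∀ z ∈ Z0, z ∈ S ⊓ L' ∧ z ≠ 0) :
    ∃ c : Tri k W r, Stb m act c ∧ ∀ z ∈ Z0, MoH (S ⊓ L') c z := by
  classical
  obtain ⟨c0, hc0⟩ := h
  obtain ⟨c01, hc01⟩ := exists_stR hr hA S L' hS hL' hc0
  have hch01 : Ch m S L' c01 := RfS.ch hc0 (Relation.ReflTransGen.single hc01)
  obtain ⟨c0', h0', hmo⟩ := m_all hr hA S L' hS hL' hch01 Z0 hZ0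
  have R00' : RfS m S L' c0 c0' := Relation.ReflTransGen.head hc01 h0'
  obtain ⟨c, h1, hinv0⟩ := inv_all hr hA S L L' hS hL' act hc0 R00'
  have hinv := hinv0 c Relation.ReflTransGen.refl
  clear hinv0
  have hch0' : Ch m S L' c0' := RfS.ch hc0 R00'
  have R01 : RfS m S L' c01 c := h0'.trans h1
  have R0 : RfS m S L' c0 c := R00'.trans h1
  have hcC : Ch m S L' c := RfS.ch hc0 R0
  have hok := hcC.ok
  have hok0 := hc0.ok
  set M := S ⊓ L' with hM
  set A := Afr M c (HL M c0) with hAdef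
  have hHL0 : ∀ a ∈ HL M c0, a ∈ HL M c := fun a ha => RfS.HL_le hr hc0 R0 ha
  have hAHL : ∀ a ∈ A, a ∈ HL M c := Afr_HL hok hHL0
  have hAinv : ∀ a ∈ A, MoH M c a → a⁻¹ ∈ A := Afr_inv hok
  have hle : HL M c0 ≤ A := Afr_le hok
  have hτM : ∀ σ : Γ, ∀ z ∈ M, act.f σ z ∈ M := fun σ z hz =>
    ⟨act.memS σ z hz.1, act.memL σ z hz.2⟩
  -- (1)
  have step1 : ∀ (σ : Γ) (a : W), a ∈ A → act.f σ a ∈ HL M c ∧
      Gn M c (act.f σ a) = Gn M c a := by
    intro σ a ha
    obtain ⟨n, hn, d, hd, hdm, had⟩ := (mem_Afr_iff hok a).1 ha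
    have hσHL : ∀ z ∈ HL M c0, act.f σ z ∈ HL M c := fun z hz =>
      HL_map hok0 hok (act.f σ).toRingHom (hinv σ).2.1 (hinv σ).2.2 hz
    have hd0 : d ≠ 0 := MoH.ne hok hdm
    have hσd0 : act.f σ d ≠ 0 := by
      intro h0
      apply hd0
      rw [← norm_eq_zero, ← act.iso σ d, h0, norm_zero]
    have hGd : Gn M c d = ‖d‖ := (moH_iff_Gn hr hok (hHL0 d hd) hd0).1 hdm
    have hσdm : MoH M c (act.f σ d) := by
      rw [moH_iff_Gn hr hok (hσHL d hd) hσd0, (hinv σ).1 d hd, hGd, act.iso]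
    have hσa : act.f σ a * act.f σ d = act.f σ n := by rw [← map_mul, had]
    have hσa' : act.f σ a = act.f σ n * (act.f σ d)⁻¹ := by
      rw [← hσa]
      field_simp
    have hmem : act.f σ a ∈ HL M c := by
      rw [hσa']
      exact mul_mem (hσHL n hn) (MoH.mem_HL hok (MoH.inv hok hσdm))
    refine ⟨hmem, ?_⟩
    have e1 := Gn_mul hr hok hmem (hσHL d hd)
    have e2 := Gn_mul hr hok (hAHL a ha) (hHL0 d hd)
    rw [hσa, (hinv σ).1 n hn, (hinv σ).1 d hd] at e1
    rw [had, e1] at e2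
    have hGd0 : Gn M c d ≠ 0 := by
      rw [hGd]
      exact norm_ne_zero_iff.2 hd0
    exact mul_right_cancel₀ hGd0 e2
  have step1' : ∀ (σ : Γ) (a : W), a ∈ A → a ∈ HO M c → act.f σ a ∈ HO M c := by
    intro σ a ha haH
    obtain ⟨h2, h3⟩ := step1 σ a ha
    rw [← Gn_le_one_iff hr hok h2, h3, Gn_le_one_iff hr hok (hAHL a ha)]
    exact haH
  -- (2)
  obtain ⟨hxD, hyD, hCD⟩ := app_main hr hc0 hc01 R01 A hAHL hAinv
    (fun e he => Dcl_of_mem hr hok hAHL (hle (HO_le_HL (C_mem_HO hok0 he))))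
    (fun i => Dcl_of_mem hr hok hAHL (hle (by
      have := mon_mem_HL (M := M) (c := c0) (Pi.single i 1)
      rwa [mon_single] at this)))
    (Dcl_of_mem hr hok hAHL (hle (HO_le_HL (y_mem_HO hok0))))
  obtain ⟨c', Z, hch', hHO, hx', hyA, -, hZ, hsep⟩ := hat hr S L' hS hL' hcC A hAHL hxD hyD hCD
  have hok' := hch'.ok
  have hCu := hok'.cst.unit
  have hC'H : ∀ e ∈ c'.C, e ∈ HO M c := by
    intro e he
    rw [← hHO]
    exact C_mem_HO hok' he
  have hCn : ∀ e ∈ c'.C, ‖e‖ ≤ 1 := fun e he => HO_norm_le hok (hC'H e he)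
  set K := IntermediateField.adjoin k (Set.range Z) with hK
  have hKC : K ≤ c'.C := by
    rw [hK, IntermediateField.adjoin_le_iff]
    rintro _ ⟨j, rfl⟩
    exact (hZ j).2
  have hKσ : ∀ (σ : Γ), ∀ e ∈ K, act.f σ e ∈ HO M c := by
    intro σ e he
    have hmain : e ∈ K ∧ act.f σ e ∈ HO M c := by
      rw [hK] at he
      refine ⟨he, ?_⟩
      induction he using IntermediateField.adjoin_induction with
      | mem x hx =>
        obtain ⟨j, rfl⟩ := hx
        exact step1' σ _ (hZ j).1 (hC'H _ (hZ j).2)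
      | algebraMap x =>
        rw [AlgHom.commutes]
        exact C_mem_HO hok (c.C.algebraMap_mem x)
      | add x y _ _ h2 h3 =>
        rw [map_add]
        exact add_mem h2 h3
      | inv x hx h2 =>
        rw [map_inv₀]
        by_cases h0 : x = 0
        · rw [h0, map_zero, inv_zero]
          exact zero_mem _
        · exact inv_mem_HO hok h2 (by rw [act.iso]; exact hCu x (hKC hx) h0)
      | mul x y _ _ h2 h3 =>
        rw [map_mul]
        exact mul_mem h2 h3
    exact hmain.2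
  have hCσ : ∀ (σ : Γ), ∀ e ∈ c'.C, act.f σ e ∈ HO M c := by
    intro σ e he
    have hse := hsep e he
    set P := minpoly K e with hP
    obtain ⟨e1, he1, q, hq, b1, hb1, hdec⟩ := HO_dec hr hok (hC'H e he)
    obtain ⟨a, haA, haH, hea⟩ := hCD e1 he1
    have hea2 : ‖e - a‖ < 1 := by
      have h2 : e - a = (q + b1 * c.y) + (e1 - a) := by rw [hdec]; ring
      rw [h2]
      refine (IsUltrametricDist.norm_add_le_max _ _).trans_lt (max_lt ?_ hea)
      refine (IsUltrametricDist.norm_add_le_max _ _).trans_lt (max_lt (QH_norm hok hq) ?_)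
      rw [norm_mul]
      exact (mul_le_of_le_one_left (norm_nonneg _) (HO_norm_le hok hb1)).trans_lt hok.par.y1
    have hPn : ∀ (Q : Polynomial K) j, ‖(Q.map (algebraMap K W)).coeff j‖ ≤ 1 := by
      intro Q j
      rw [Polynomial.coeff_map]
      exact hCn _ (hKC (Q.coeff j).2)
    have hPe : (P.map (algebraMap K W)).eval e = 0 := by
      rw [Polynomial.eval_map_algebraMap]
      exact minpoly.aeval K e
    have hP'e0 : (P.derivative.map (algebraMap K W)).eval e ≠ 0 := by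
      rw [Polynomial.eval_map_algebraMap]
      exact Polynomial.Separable.aeval_derivative_ne_zero hse (minpoly.aeval K e)
    have hP'eC : (P.derivative.map (algebraMap K W)).eval e ∈ c'.C := by
      rw [Polynomial.eval_eq_sum_range]
      refine c'.C.sum_mem fun j _ => c'.C.mul_mem ?_ (pow_mem he j)
      rw [Polynomial.coeff_map]
      exact hKC (P.derivative.coeff j).2
    have hP'e : ‖(P.derivative.map (algebraMap K W)).eval e‖ = 1 := hCu _ hP'eC hP'e0
    have hP'a : ‖(P.derivative.map (algebraMap K W)).eval a‖ = 1 := by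
      have hd := norm_eval_sub_le (P.derivative.map (algebraMap K W)) (hPn P.derivative)
        (hCn e he) (HO_norm_le hok haH)
      rw [← hP'e]
      refine su_eq ?_
      rw [hP'e]
      exact hd.trans_lt hea2
    -- transport by σ
    set τ : W →+* W := (act.f σ).toRingHom with hτ
    have hτe : ∀ z, τ z = act.f σ z := fun z => rfl
    have hev : ∀ (Q : Polynomial K) (z : W), ((Q.map (algebraMap K W)).map τ).eval (act.f σ z) =
        act.f σ ((Q.map (algebraMap K W)).eval z) := by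
      intro Q z
      rw [← hτe, ← hτe, Polynomial.eval_map_apply]
    refine hen' hr hok ((P.map (algebraMap K W)).map τ) (fun j => ?_) (step1' σ a haA haH)
      (hτM σ e (hok'.CM he)) ?_ ?_ ?_
    · rw [Polynomial.coeff_map, Polynomial.coeff_map]
      exact hKσ σ _ (P.coeff j).2
    · rw [← map_sub, act.iso]
      exact hea2
    · rw [hev, hPe, map_zero]
    · rw [Polynomial.derivative_map, Polynomial.derivative_map, hev, act.iso]
      exact hP'a
  have hxσ : ∀ (σ : Γ) (i : Fin r), ∃ u ∈ HO M c, ‖u‖ = 1 ∧ act.f σ (c'.x i) = c'.x i * u := by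
    intro σ i
    obtain ⟨hxA, u, hu, hu1, hxu⟩ := hx' i
    have hxm : MoH M c (c'.x i) := by
      refine ⟨Pi.single i 1, u, hu, hu1, ?_⟩
      rw [mon_single, hxu]
    have hx0 : c'.x i ≠ 0 := MoH.ne hok hxm
    have hG : Gn M c (c'.x i) = ‖c'.x i‖ := (moH_iff_Gn hr hok (hAHL _ hxA) hx0).1 hxm
    obtain ⟨h2, h3⟩ := step1 σ _ hxA
    have hσ0 : act.f σ (c'.x i) ≠ 0 := by
      intro h0
      apply hx0
      rw [← norm_eq_zero, ← act.iso σ, h0, norm_zero]
    have hσm : MoH M c (act.f σ (c'.x i)) := by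
      rw [moH_iff_Gn hr hok h2 hσ0, h3, hG, act.iso]
    obtain ⟨a, u2, hu2, hu21, hσ⟩ := hσm
    have h4 : ‖mon c.x a‖ = ‖mon c.x (Pi.single i 1)‖ := by
      have h5 := act.iso σ (c'.x i)
      rw [hσ, norm_mul, hu21, mul_one, hxu, norm_mul, hu1, mul_one] at h5
      rw [h5, mon_single]
    have h6 := norm_mon_inj hok.par.ind h4
    have hu0 : u ≠ 0 := by
      rintro rfl
      rw [norm_zero] at hu1
      exact zero_ne_one hu1
    refine ⟨u⁻¹ * u2, mul_mem (inv_mem_HO hok hu hu1) hu2, ?_, ?_⟩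
    · rw [norm_mul, norm_inv, hu1, hu21, _root_.inv_one, one_mul]
    · rw [hσ, h6, mon_single, hxu]
      field_simp
  have hxm : ∀ i, MoH M c (c'.x i) := by
    intro i
    obtain ⟨hxA, u, hu, hu1, hxu⟩ := hx' i
    refine ⟨Pi.single i 1, u, hu, hu1, ?_⟩
    rw [mon_single, hxu]
  refine ⟨c', ⟨hch', ?_, ?_⟩, ?_⟩
  · intro σ z hz
    rw [← hM, hHO]
    rw [← hM] at hz
    refine HO_map hr hok' hok (act.f σ).toRingHom (act.iso σ) (hτM σ) (hCσ σ) ?_ ?_ z hz
    · intro i
      obtain ⟨u, hu, hu1, hσ⟩ := hxσ σ i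
      change MoH M c (act.f σ (c'.x i))
      rw [hσ]
      exact MoH.mul hok (hxm i) (MoH.of_unit hu hu1)
    · refine step1' σ _ hyA ?_
      rw [← hHO]
      exact y_mem_HO hok'
  · intro σ i
    rw [← hM, hHO]
    exact hxσ σ i
  · intro z hz
    have h2 : MoH M c z := RfS.moH hr hch0' h1 (hmo z hz)
    refine MoH_map hok' (RingHom.id W) (fun _ => rfl) (fun z hz => ?_) (fun i => ?_) h2
    · change z ∈ HO M c'
      rw [hHO]
      exact hz
    · obtain ⟨-, u, hu, hu1, hxu⟩ := hx' i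
      have hu0 : u ≠ 0 := by
        rintro rfl
        rw [norm_zero] at hu1
        exact zero_ne_one hu1
      refine ⟨Pi.single i 1, u⁻¹, ?_, ?_, ?_⟩
      · rw [hHO]
        exact inv_mem_HO hok hu hu1
      · rw [norm_inv, hu1, _root_.inv_one]
      · change c.x i = _
        rw [mon_single, hxu]
        field_simp

end Pool.Agent.Lib.TU
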