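import Pool.Agent.Lib.TU.Defs
import Pool.Agent.Lib.TDO.SepDiff
import Pool.Agent.Lib.TDO.DiffRank

/-!
# Module StartU: a good separating transcendence basis

`n = r + m + 1`.  `Ω = Ω[F/k]` has dimension `n` over `F` (`TDO.diff_rank`), `k` perfect of
characteristic `p`.  `π ∈ F`, `0 < ‖π‖ < 1` (e.g. `x 0` if `r > 0`; if there is no such element then the
norm is trivial: `r = 0`, excluded by `hr`).  For every `s ∈ F` and `N` large `π^(pN) s` has norm as
small as we like and `d(π^(pN) s) = π^(pN) ds`.  So: for every finite-dimensional subspace `U ≠ Ω` of `Ω`,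
every `f ∈ F`, and `ε > 0` there is `δ ∈ F`, `‖δ‖ < ε`, with `d(f + δ) ∉ U` (if `df ∉ U` take `δ = 0`,
otherwise `δ = π^(pN) s` with `ds ∉ U`; the `ds` span `Ω`).  Apply this successively to
`z_1, .., z_m` (`ε = 1`), `x_1, .., x_r` (`ε = ‖x_i‖`), `0` (`ε = 1`): `z', x', y` whose differentials are
linearly independent, so a basis of `Ω`.  `TDO.sep_of_diff`: `F` is separable over
`k(z', x', y)`.  `‖P(z') - P(z)‖ < 1`, `‖x'_i‖ = ‖x_i‖`.
-/

namespace Pool.Agent.Lib.TU

open Pool.Agent.Lib.MP_3029eb_ag Pool.Agent.Lib.MP_3029eb_ag.Abh Pool.Agent.Lib.TDO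

section aux

variable {k F : Type} [Field k] [NormedField F] [IsUltrametricDist F] [Algebra k F]

private theorem startU_sub_lt (hu : ∀ c : k, c ≠ 0 → ‖algebraMap k F c‖ = 1) {n : ℕ}
    (z f : Fin n → F) (hz : ∀ i, ‖z i‖ ≤ 1) (hf : ∀ i, ‖f i‖ ≤ 1) (hd : ∀ i, ‖z i - f i‖ < 1)
    (P : MvPolynomial (Fin n) k) : ‖MvPolynomial.aeval f P‖ ≤ 1 ∧
      ‖MvPolynomial.aeval z P - MvPolynomial.aeval f P‖ < 1 := by
  induction P using MvPolynomial.induction_on with
  | C c =>
    rw [MvPolynomial.aeval_C, MvPolynomial.aeval_C, sub_self, norm_zero]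
    refine ⟨?_, one_pos⟩
    by_cases hc : c = 0
    · rw [hc, map_zero, norm_zero]; exact zero_le_one
    · exact (hu c hc).le
  | add p q hp hq =>
    rw [map_add, map_add]
    refine ⟨(IsUltrametricDist.norm_add_le_max _ _).trans (max_le hp.1 hq.1), ?_⟩
    rw [add_sub_add_comm]
    exact (IsUltrametricDist.norm_add_le_max _ _).trans_lt (max_lt hp.2 hq.2)
  | mul_X p i hp =>
    rw [map_mul, map_mul, MvPolynomial.aeval_X, MvPolynomial.aeval_X]
    refine ⟨?_, ?_⟩
    · rw [norm_mul]
      exact mul_le_one₀ hp.1 (norm_nonneg _) (hf i)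
    · have h1 : MvPolynomial.aeval z p * z i - MvPolynomial.aeval f p * f i =
          (MvPolynomial.aeval z p - MvPolynomial.aeval f p) * z i +
            MvPolynomial.aeval f p * (z i - f i) := by ring
      rw [h1]
      refine (IsUltrametricDist.norm_add_le_max _ _).trans_lt (max_lt ?_ ?_)
      · rw [norm_mul]
        exact (mul_le_of_le_one_right (norm_nonneg _) (hz i)).trans_lt hp.2
      · rw [norm_mul]
        exact (mul_le_of_le_one_left (norm_nonneg _) hp.1).trans_lt (hd i)

omit [IsUltrametricDist F] in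
/-- small elements with differential outside of a given proper subspace -/
private theorem startU_small (p : ℕ) [Fact p.Prime] [CharP k p] (π : F) (hπ0 : π ≠ 0)
    (hπ : ‖π‖ < 1) (V : Submodule F (Ω[F⁄k])) (hV : V ≠ ⊤) (ε : ℝ) (hε : 0 < ε) :
    ∃ s : F, ‖s‖ < ε ∧ KaehlerDifferential.D k F s ∉ V := by
  have h1 : ∃ s : F, KaehlerDifferential.D k F s ∉ V := by
    by_contra hcon
    push Not at hcon
    apply hV
    rw [eq_top_iff, ← KaehlerDifferential.span_range_derivation, Submodule.span_le]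
    rintro _ ⟨z, rfl⟩
    exact hcon z
  obtain ⟨s, hs⟩ := h1
  have hp1 : 1 ≤ p := (Fact.out : p.Prime).one_lt.le
  have hpF : CharP F p := charP_of_injective_algebraMap (algebraMap k F).injective p
  obtain ⟨N, hN⟩ := exists_pow_lt_of_lt_one
    (show 0 < ε / (‖s‖ + 1) from div_pos hε (by positivity)) hπ
  refine ⟨π ^ (p * N) * s, ?_, ?_⟩
  · rw [norm_mul, norm_pow]
    have h2 : ‖π‖ ^ (p * N) ≤ ‖π‖ ^ N :=
      pow_le_pow_of_le_one (norm_nonneg _) hπ.le (Nat.le_mul_of_pos_left N hp1)
    have h3 : ‖π‖ ^ N * (‖s‖ + 1) < ε := (lt_div_iff₀ (by positivity)).1 hN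
    calc ‖π‖ ^ (p * N) * ‖s‖ ≤ ‖π‖ ^ N * (‖s‖ + 1) :=
          mul_le_mul h2 (by linarith) (norm_nonneg _) (by positivity)
      _ < ε := h3
  · intro hmem
    have h2 : KaehlerDifferential.D k F (π ^ (p * N)) = 0 := by
      rw [Derivation.leibniz_pow, ← Nat.cast_smul_eq_nsmul F]
      have h3 : ((p * N : ℕ) : F) = 0 := by
        rw [Nat.cast_mul, CharP.cast_eq_zero, zero_mul]
      rw [h3, zero_smul]
    rw [Derivation.leibniz, h2, smul_zero, add_zero] at hmem
    exact hs ((V.smul_mem_iff (pow_ne_zero _ hπ0)).1 hmem)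

omit [IsUltrametricDist F] in
/-- adjust the elements so that the differentials become independent -/
private theorem startU_adjust {I : Type} [Fintype I] [DecidableEq I]
    (hsm : ∀ V : Submodule F (Ω[F⁄k]), V ≠ ⊤ → ∀ ε : ℝ, 0 < ε →
      ∃ s : F, ‖s‖ < ε ∧ KaehlerDifferential.D k F s ∉ V)
    (hdim : Module.finrank F (Ω[F⁄k]) = Fintype.card I) (f : I → F) (ε : I → ℝ)
    (hε : ∀ a, 0 < ε a) (t : Finset I) : ∃ δ : I → F, (∀ a, ‖δ a‖ < ε a) ∧
      LinearIndepOn F (fun a => KaehlerDifferential.D k F (f a + δ a)) (t : Set I) := by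
  classical
  induction t using Finset.induction_on with
  | empty => exact ⟨fun _ => 0, fun a => by rw [norm_zero]; exact hε a, by simp⟩
  | insert a t hat ih =>
    obtain ⟨u, hu, hli⟩ := ih
    set v : I → Ω[F⁄k] := fun i => KaehlerDifferential.D k F (f i + u i) with hv
    set V : Submodule F (Ω[F⁄k]) := Submodule.span F (v '' (t : Set I)) with hV
    have hVtop : V ≠ ⊤ := by
      intro htop
      have h1 : Module.finrank F V ≤ t.card := by
        have h2 : (v '' (t : Set I)) = ((t.image v : Finset (Ω[F⁄k])) : Set (Ω[F⁄k])) := by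
          rw [Finset.coe_image]
        rw [hV, h2]
        exact (finrank_span_finset_le_card _).trans Finset.card_image_le
      have h3 : Module.finrank F V = Fintype.card I := by rw [htop, finrank_top, hdim]
      have h4 : t.card + 1 ≤ Fintype.card I := by
        have := Finset.card_le_univ (insert a t)
        rwa [Finset.card_insert_of_notMem hat] at this
      omega
    obtain ⟨c, hc1, hc⟩ : ∃ c : F, ‖c‖ < ε a ∧ KaehlerDifferential.D k F (f a + c) ∉ V := by
      by_cases h : KaehlerDifferential.D k F (f a) ∈ V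
      · obtain ⟨s, hs, hsV⟩ := hsm V hVtop (ε a) (hε a)
        refine ⟨s, hs, ?_⟩
        intro hmem
        rw [map_add] at hmem
        exact hsV ((V.add_mem_iff_right h).1 hmem)
      · exact ⟨0, by rw [norm_zero]; exact hε a, by rwa [add_zero]⟩
    refine ⟨Function.update u a c, ?_, ?_⟩
    · intro i
      by_cases hi : i = a
      · subst hi; rw [Function.update_self]; exact hc1
      · rw [Function.update_of_ne hi]; exact hu i
    · rw [Finset.coe_insert]
      have hcongr : Set.EqOn (fun i => KaehlerDifferential.D k F (f i + Function.update u a c i)) v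
          (t : Set I) := by
        intro i hi
        have hia : i ≠ a := by
          rintro rfl
          exact hat (Finset.mem_coe.1 hi)
        simp only [hv, Function.update_of_ne hia]
      refine LinearIndepOn.insert (hli.congr hcongr.symm) ?_
      rw [Set.EqOn.image_eq hcongr]
      simp only [Function.update_self]
      exact hc

end aux

/-- See the header. -/
theorem exists_startU {k F : Type} [Field k] [PerfectField k] [NormedField F]
    [IsUltrametricDist F] [Algebra k F] [Algebra.EssFiniteType k F] (p : ℕ) [Fact p.Prime]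
    [CharP k p] {r m : ℕ} (hr : 0 < r) (hu : ∀ c : k, c ≠ 0 → ‖algebraMap k F c‖ = 1)
    (htr : Algebra.trdeg k F = (r + m + 1 : ℕ)) (x : Fin r → F) (hx : Indep x) (z : Fin m → F)
    (hz : ∀ i, ‖z i‖ ≤ 1)
    (hzi : ∀ P : MvPolynomial (Fin m) k, P ≠ 0 → ‖MvPolynomial.aeval z P‖ = 1) :
    ∃ (x' : Fin r → F) (z' : Fin m → F) (y : F), Indep x' ∧ (∀ i, ‖z' i‖ ≤ 1) ∧
      (∀ P : MvPolynomial (Fin m) k, P ≠ 0 → ‖MvPolynomial.aeval z' P‖ = 1) ∧ ‖y‖ < 1 ∧
      ∀ w : F, IsSeparable (IntermediateField.adjoin k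
        ((Set.range z' ∪ Set.range x') ∪ {y})) w := by
  classical
  have hdim : Module.finrank F (Ω[F⁄k]) = r + m + 1 := diff_rank (r + m + 1) htr
  let I := Option (Fin m ⊕ Fin r)
  have hcard : Module.finrank F (Ω[F⁄k]) = Fintype.card I := by
    rw [hdim, Fintype.card_option, Fintype.card_sum, Fintype.card_fin, Fintype.card_fin]
    omega
  let f : I → F := fun o => o.elim 0 (Sum.elim z x)
  let ε : I → ℝ := fun o => o.elim 1 (Sum.elim (fun _ => 1) (fun i => ‖x i‖))
  have hε : ∀ a, 0 < ε a := by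
    rintro (_ | i | i)
    · exact one_pos
    · exact one_pos
    · exact norm_pos_iff.2 (hx.ne i)
  obtain ⟨δ, hδ, hli⟩ := startU_adjust
    (startU_small (k := k) p (x ⟨0, hr⟩) (hx.ne _) (hx.lt _)) hcard f ε hε Finset.univ
  rw [Finset.coe_univ, linearIndepOn_univ_iff] at hli
  set x' : Fin r → F := fun i => x i + δ (some (Sum.inr i)) with hx'
  set z' : Fin m → F := fun i => z i + δ (some (Sum.inl i)) with hz'
  set y : F := 0 + δ none with hy
  have hδx : ∀ i, ‖δ (some (Sum.inr i))‖ < ‖x i‖ := fun i => hδ (some (Sum.inr i))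
  have hδz : ∀ i, ‖δ (some (Sum.inl i))‖ < 1 := fun i => hδ (some (Sum.inl i))
  have hδy : ‖δ none‖ < 1 := hδ none
  have hxn : ∀ i, ‖x' i‖ = ‖x i‖ := by
    intro i
    rw [hx']
    rw [IsUltrametricDist.norm_add_eq_max_of_norm_ne_norm (hδx i).ne']
    exact max_eq_left (hδx i).le
  have hmon : ∀ a : Fin r → ℤ, ‖mon x' a‖ = ‖mon x a‖ := by
    intro a
    unfold MP_3029eb_ag.Abh.mon
    rw [norm_prod, norm_prod]
    refine Finset.prod_congr rfl (fun i _ => ?_)
    rw [norm_zpow, norm_zpow, hxn]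
  have hind : Indep x' := by
    refine ⟨fun i => ?_, fun i => ?_, fun a ha => ?_⟩
    · rw [← norm_pos_iff, hxn]
      exact norm_pos_iff.2 (hx.ne i)
    · rw [hxn]; exact hx.lt i
    · exact hx.indep a (by rw [← hmon]; exact ha)
  have hz1 : ∀ i, ‖z' i‖ ≤ 1 := fun i =>
    (IsUltrametricDist.norm_add_le_max _ _).trans (max_le (hz i) (hδz i).le)
  have hspan : Submodule.span F (Set.range fun a => KaehlerDifferential.D k F (f a + δ a)) = ⊤ := by
    apply hli.span_eq_top_of_card_eq_finrank
    exact hcard.symm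
  refine ⟨x', z', y, hind, hz1, fun P hP => ?_, ?_, fun w => ?_⟩
  · have h1 := (startU_sub_lt hu z' z hz1 hz (fun i => by
      rw [hz', add_sub_cancel_left]; exact hδz i) P).2
    have h2 := hzi P hP
    have h3 : MvPolynomial.aeval z' P = MvPolynomial.aeval z P +
        (MvPolynomial.aeval z' P - MvPolynomial.aeval z P) := by ring
    rw [h3, IsUltrametricDist.norm_add_eq_max_of_norm_ne_norm (by rw [h2]; exact h1.ne'), h2]
    exact max_eq_left h1.le
  · rw [hy, zero_add]; exact hδy
  · apply sep_of_diff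
    have himage : KaehlerDifferential.D k F '' ((Set.range z' ∪ Set.range x') ∪ {y}) =
        Set.range fun a => KaehlerDifferential.D k F (f a + δ a) := by
      ext ω
      constructor
      · rintro ⟨w, ((⟨i, rfl⟩ | ⟨i, rfl⟩) | hw), rfl⟩
        · exact ⟨some (Sum.inl i), rfl⟩
        · exact ⟨some (Sum.inr i), rfl⟩
        · rw [Set.mem_singleton_iff] at hw
          subst hw
          exact ⟨none, rfl⟩
      · rintro ⟨(_ | i | i), rfl⟩
        · exact ⟨y, Or.inr rfl, rfl⟩
        · exact ⟨z' i, Or.inl (Or.inl ⟨i, rfl⟩), rfl⟩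
        · exact ⟨x' i, Or.inl (Or.inr ⟨i, rfl⟩), rfl⟩
    rw [himage, hspan]

end Pool.Agent.Lib.TU
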