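import Pool.Agent.Lib.TU.StLdH
import Pool.Agent.Lib.TDO.Comb
import Pool.Agent.Lib.TDO.Subst
import Pool.Agent.Lib.TDO.PolyB

/-!
# Module ThmAU: Theorem A (paper section 4)

Induction on `d`, `Ld c z a0 d`.  `d = 0`: `MoH` (`Ld.moH`).  Let `d ≥ 1` and suppose that no refinement
`c'` of `c` has `Ld c' z _ d'` with `d' < d`.  Then iterate `st_lead_HL` (dependent choice): charts
`c_s` (`c_0 = c`), stages with `d' = d`, so `e f = 1` (`d' e f ≤ d`, `d ≥ 1`): `c_s = ⟨c.C, c.x, y_s⟩`,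
`y_s = x^(b_s) (ε_s + y_(s+1))`, `ε_s ∈ c.C`, `ε_s ≠ 0`, `‖x^(b_s)‖ = ‖y_s‖ < 1`, `Ld c_s z a_s d`,
`a_(s+1) = a_s + d b_s`.
(1) `‖x^(a_s)‖` decreases; suppose it tends to zero: `‖z‖ ≤ ‖x^(a_s)‖` (`Ld.norm_le`) gives `z = 0`,
contradiction.  So there is `γ > 0` with `γ ≤ ‖x^(a_s - a_0)‖` for all `s`.
(2) `z' := x^(-a0) z ∈ HO c`, `Ld c_s z' (a_s - a_0) d`.  `HO_approx` for `z'` with `J > d`,
`‖y_0‖^J < γ` and `‖x^N‖ < γ`: `z' = P + x^N h1 + y_0^J h2`.  For `s ≥ 1` the `Gn c_s` of `x^N h1 + y_0^J h2` is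
`< γ` (`y_0` is monomial for `c_s`, `RfS.y_moH`), so `Ld c_s P (a_s - a_0) d` (`Ld.perturb`).
(3) `P = P_0`, `P_(s+1)` obtained from `P_s` by `TDO.exists_subst` over `c.C` (`Stage c.x y_s c.x y_(s+1) 1 b_s ε_s T`
with `T (a, j) = (a + j b_s, j)`): `ev x y_s P_s = ev x y_0 P`, so `Lead c.x P_s (a_s - a_0) d` for `s ≥ 1`
(`Ld.lead`).  `Lead P_(s+1) (a_s - a_0 + d b_s) d` and the Taylor formula for the coefficients at
`α = a_s - a_0 + d b_s`: the part `φ` has `natDegree ≤ d` (exponents `(α - j b_s, j)` with `j > d` would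
have `‖x^(α - j b_s)‖ > ‖x^(a_s - a_0)‖`), its Taylor coefficients of index `< d` vanish:
`taylor_eq_case` gives `φ.coeff 0 ≠ 0`, i.e. `P_s.coeff (α, 0) ≠ 0`.
(4) `TDO.comb` with `nu = nu c.x`, `p = 2`, `X s =` support of `P_(s+1)`, `b s = b_(s+1)`,
`a0 s = a_(s+1) - a_0`: `h2` with `n = 0`, `h3` first alternative, `hbd` from `γ`, `h5` second
alternative.  Contradiction.
`thmAU_finset`: induction; monomial elements stay monomial (`RfS.moH`), quotients of monomial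
elements are monomial.
-/

namespace Pool.Agent.Lib.TU

open Pool.Agent.Lib.MP_3029eb_ag Pool.Agent.Lib.MP_3029eb_ag.Abh Pool.Agent.Lib.TDO

/-- the transformation `(a, j) ↦ (a + jB, j)` -/
private def thmAU_T {r : ℕ} (B : Fin r → ℤ) : ((Fin r → ℤ) × ℤ) ≃+ ((Fin r → ℤ) × ℤ) where
  toFun n := (n.1 + n.2 • B, n.2)
  invFun n := (n.1 - n.2 • B, n.2)
  left_inv n := by simp
  right_inv n := by simp
  map_add' n n' := by
    refine Prod.ext ?_ rfl
    simp only [Prod.fst_add, Prod.snd_add, add_smul]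
    abel

private theorem thmAU_T_apply {r : ℕ} (B : Fin r → ℤ) (a : Fin r → ℤ) (j : ℤ) :
    thmAU_T B (a, j) = (a + j • B, j) := rfl

/-- the infinite run -/
private theorem thmAU_run {k W : Type} [Field k] [NormedField W]
    [IsUltrametricDist W] [Algebra k W] {r m : ℕ} (hr : 0 < r) {M : IntermediateField k W}
    {C : IntermediateField k W} {x : Fin r → W} (y : ℕ → W) (a b : ℕ → Fin r → ℤ) (ε : ℕ → C)
    {d : ℕ} (hd : 1 ≤ d) {z : W} (h0 : z ≠ 0)
    (hok : ∀ s, Ok m M (⟨C, x, y s⟩ : Tri k W r))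
    (hld : ∀ s, Ld M (⟨C, x, y s⟩ : Tri k W r) z (a s) d)
    (ha : ∀ s, a (s + 1) = a s + d • b s) (hε : ∀ s, ε s ≠ 0)
    (hy : ∀ s, y s = mon x (b s) * (algebraMap C W (ε s) + y (s + 1)))
    (hb : ∀ s, ‖mon x (b s)‖ < 1)
    (hle : ∀ s, 1 ≤ s → ∀ h ∈ HO M (⟨C, x, y 0⟩ : Tri k W r),
      h ∈ HO M (⟨C, x, y s⟩ : Tri k W r))
    (hmo : ∀ s, 1 ≤ s → MoH M (⟨C, x, y s⟩ : Tri k W r) (y 0)) : False := by
  classical
  have hind : Indep x := (hok 0).par.ind
  have hxne := hind.ne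
  have hy01 : ‖y 0‖ < 1 := (hok 0).par.y1
  obtain ⟨z', hz'def⟩ : ∃ z', z' = mon x (-(a 0)) * z := ⟨_, rfl⟩
  have hz'0 : z' ≠ 0 := by
    rw [hz'def]
    exact mul_ne_zero (mon_ne x hxne _) h0
  have hz' : ∀ s, Ld M (⟨C, x, y s⟩ : Tri k W r) z' (a s - a 0) d := by
    intro s
    have h := Ld.xmul (hok s) (hld s) (-(a 0))
    rw [neg_add_eq_sub] at h
    rw [hz'def]
    exact h
  have hz'HL : ∀ s, z' ∈ HL M (⟨C, x, y s⟩ : Tri k W r) := fun s => Ld.mem_HL (hok s) (hz' s)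
  have hz'HO : z' ∈ HO M (⟨C, x, y 0⟩ : Tri k W r) := by
    rw [← Gn_le_one_iff hr (hok 0) (hz'HL 0), Gn_eq hr (hok 0) (hz' 0), sub_self]
    change ‖mon x 0‖ ≤ 1
    rw [mon_zero, norm_one]
  have hγ0 : 0 < ‖z'‖ := norm_pos_iff.2 hz'0
  have hγ : ∀ s, ‖z'‖ ≤ ‖mon x (a s - a 0)‖ := fun s => Ld.norm_le (hok s) (hz' s)
  obtain ⟨N, -, hN⟩ := exists_mon_lt hr hind ‖z'‖ hγ0
  obtain ⟨J, hJ⟩ := exists_pow_lt_of_lt_one hγ0 hy01
  obtain ⟨P, -, g1, hg1, g2, hg2, hzP⟩ := HO_approx hr (hok 0) hz'HO N J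
  -- the lead form of `P` at later stages
  have hLdP : ∀ s, 1 ≤ s → Ld M (⟨C, x, y s⟩ : Tri k W r) (ev x (y 0) P) (a s - a 0) d := by
    intro s hs
    have hmHL : mon x N ∈ HL M (⟨C, x, y s⟩ : Tri k W r) := mon_mem_HL (M := M) (c := ⟨C, x, y s⟩) N
    have hg1' := HO_le_HL (hle s hs g1 hg1)
    have hg2' := HO_le_HL (hle s hs g2 hg2)
    have hG1 := (Gn_le_one_iff hr (hok s) hg1').2 (hle s hs g1 hg1)
    have hG2 := (Gn_le_one_iff hr (hok s) hg2').2 (hle s hs g2 hg2)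
    have hyHL : y 0 ∈ HL M (⟨C, x, y s⟩ : Tri k W r) := (hmo s hs).mem_HL (hok s)
    have hyG : Gn M (⟨C, x, y s⟩ : Tri k W r) (y 0) = ‖y 0‖ :=
      (moH_iff_Gn hr (hok s) hyHL ((hmo s hs).ne (hok s))).1 (hmo s hs)
    have hpow : ∀ j : ℕ, y 0 ^ j ∈ HL M (⟨C, x, y s⟩ : Tri k W r) ∧
        Gn M (⟨C, x, y s⟩ : Tri k W r) (y 0 ^ j) = ‖y 0‖ ^ j := by
      intro j
      refine ⟨pow_mem hyHL j, ?_⟩
      induction j with
      | zero =>
        have h := Gn_mon hr (hok s) 0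
        change Gn M (⟨C, x, y s⟩ : Tri k W r) (mon x 0) = ‖mon x 0‖ at h
        rw [mon_zero, norm_one] at h
        rw [pow_zero, pow_zero]
        exact h
      | succ j ih => rw [pow_succ, pow_succ, Gn_mul hr (hok s) (pow_mem hyHL j) hyHL, ih, hyG]
    have hw1 : mon x N * g1 ∈ HL M (⟨C, x, y s⟩ : Tri k W r) := mul_mem hmHL hg1'
    have hw2 : y 0 ^ J * g2 ∈ HL M (⟨C, x, y s⟩ : Tri k W r) := mul_mem (hpow J).1 hg2'
    have hG3 : Gn M (⟨C, x, y s⟩ : Tri k W r) (mon x N * g1) < ‖z'‖ := by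
      rw [Gn_mul hr (hok s) hmHL hg1']
      have h := Gn_mon hr (hok s) N
      change Gn M (⟨C, x, y s⟩ : Tri k W r) (mon x N) = ‖mon x N‖ at h
      rw [h]
      exact (mul_le_of_le_one_right (norm_nonneg _) hG1).trans_lt hN
    have hG4 : Gn M (⟨C, x, y s⟩ : Tri k W r) (y 0 ^ J * g2) < ‖z'‖ := by
      rw [Gn_mul hr (hok s) (hpow J).1 hg2', (hpow J).2]
      exact (mul_le_of_le_one_right (by positivity) hG2).trans_lt hJ
    have hw : -(mon x N * g1 + y 0 ^ J * g2) ∈ HL M (⟨C, x, y s⟩ : Tri k W r) :=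
      neg_mem (add_mem hw1 hw2)
    have hG5 : Gn M (⟨C, x, y s⟩ : Tri k W r) (-(mon x N * g1 + y 0 ^ J * g2)) < ‖z'‖ := by
      rw [Gn_neg hr (hok s) (add_mem hw1 hw2)]
      exact (Gn_add_le hr (hok s) hw1 hw2).trans_lt (max_lt hG3 hG4)
    have h := Ld.perturb hr (hok s) (hz' s) hw (hG5.trans_le (hγ s))
    have e : z' + -(mon x N * g1 + y 0 ^ J * g2) = ev x (y 0) P := by
      have h1 : z' = ev x (y 0) P + mon x N * g1 + y 0 ^ J * g2 := hzP
      rw [h1]
      ring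
    rwa [e] at h
  -- substitution
  have hT0 : ∀ (s : ℕ) (Q : LP C r) (a' : Fin r → ℤ) (j : ℕ), Q.coeff (a', j) ≠ 0 →
      0 ≤ (thmAU_T (b s) (a', (j : ℤ))).2 := fun s Q a' j _ => Int.natCast_nonneg j
  have hst : ∀ s, Stage x (y s) x (y (s + 1)) 1 (b s) (ε s) (thmAU_T (b s)) := fun s =>
    { e1 := le_rfl
      c0 := hε s
      ind := hind
      y1 := (hok (s + 1)).par.y1
      hT := by
        rw [thmAU_T_apply]
        simp
      hw := by rw [pow_one]; exact hy s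
      hm := fun a' j => by
        rw [thmAU_T_apply]
        change mon x a' * y s ^ j = mon x (a' + j • b s) * (algebraMap C W (ε s) + y (s + 1)) ^ j
        rw [mon_add x hxne, mon_zsmul, mul_assoc, ← mul_zpow, ← hy s] }
  have hsub : ∀ (s : ℕ) (Q : LP C r), ∃ Q' : LP C r, ev x (y (s + 1)) Q' = ev x (y s) Q ∧
      ∀ α i, Q'.coeff (α, i) =
        (Polynomial.taylor (ε s) (part (thmAU_T (b s)) Q α)).coeff i := fun s Q =>
    exists_subst (hst s) Q (hT0 s Q)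
  choose F hF1 hF2 using hsub
  obtain ⟨Ps, hPs0, hPs1⟩ : ∃ Ps : ℕ → LP C r, Ps 0 = P ∧ ∀ s, Ps (s + 1) = F s (Ps s) :=
    ⟨fun n => Nat.rec P (fun s Q => F s Q) n, rfl, fun s => rfl⟩
  have hev : ∀ s, ev x (y s) (Ps s) = ev x (y 0) P := by
    intro s
    induction s with
    | zero => rw [hPs0]
    | succ s ih => rw [hPs1, hF1, ih]
  have hlead : ∀ s, 1 ≤ s → Lead x (Ps s) (a s - a 0) d := by
    intro s hs
    have h := hLdP s hs
    rw [← hev s] at h
    exact Ld.lead hr (hok s) h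
  have hsup : ∀ s a' j', (Ps (s + 1)).coeff (a', j') ≠ 0 →
      ∃ a j, (Ps s).coeff (a, j) ≠ 0 ∧ j' ≤ j ∧ a' = a + j • b s := by
    intro s a' j' haj
    rw [hPs1, hF2] at haj
    have h1 : part (thmAU_T (b s)) (Ps s) a' ≠ 0 := by
      intro h0
      rw [h0, map_zero] at haj
      exact haj (Polynomial.coeff_zero _)
    have h2 : j' ≤ (part (thmAU_T (b s)) (Ps s) a').natDegree := by
      rw [← Polynomial.natDegree_taylor (part (thmAU_T (b s)) (Ps s) a') (ε s)]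
      exact Polynomial.le_natDegree_of_ne_zero haj
    obtain ⟨a2, j2, h3, h4⟩ := part_coeff_ne (thmAU_T (b s)) (Ps s) (hT0 s (Ps s)) a'
      (part (thmAU_T (b s)) (Ps s) a').natDegree (by
        rw [Polynomial.coeff_natDegree]
        exact Polynomial.leadingCoeff_ne_zero.2 h1)
    rw [thmAU_T_apply] at h4
    have h5 : a2 + (j2 : ℤ) • b s = a' := congrArg Prod.fst h4
    have h6 : (j2 : ℤ) = ((part (thmAU_T (b s)) (Ps s) a').natDegree : ℤ) :=
      congrArg Prod.snd h4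
    have h7 : j2 = (part (thmAU_T (b s)) (Ps s) a').natDegree := by exact_mod_cast h6
    refine ⟨a2, j2, h3, by rw [h7]; exact h2, ?_⟩
    rw [← h5, natCast_zsmul]
  have hnub : ∀ s, 0 < nu x (b s) := by
    intro s
    have h := hb s
    rwa [← norm_one (α := W), ← mon_zero x, norm_mon_lt_iff hind, map_zero] at h
  refine comb (nu x) (nu_injective hind) 2 d le_rfl hd (fun s => (Ps (s + 1)).coeff.support)
    (fun s => b (s + 1)) (fun s => a (s + 1) - a 0) ?_ ?_ ?_ ?_ ?_ ?_ ?_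
  · intro s
    exact hnub _
  · intro s
    rw [ha (s + 1)]
    abel
  · intro s n hn
    have h := (hlead (s + 1) (by omega)).max n.1 n.2 (Finsupp.mem_support_iff.1 hn)
    rwa [norm_mon_le_iff hind] at h
  · intro s m' hm'
    obtain ⟨a', j, h6, h7, h8⟩ := hsup (s + 1) m'.1 m'.2 (Finsupp.mem_support_iff.1 hm')
    exact ⟨0, (a', j), Finsupp.mem_support_iff.2 h6, by simpa using h7, by simpa using h8⟩
  · intro s
    left
    obtain ⟨α, hα⟩ : ∃ α, α = a (s + 2) - a 0 := ⟨_, rfl⟩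
    have hα' : a (s + 1) - a 0 + d • b (s + 1) = α := by
      rw [hα, show s + 2 = s + 1 + 1 from rfl, ha (s + 1)]
      abel
    rw [Finsupp.mem_support_iff]
    rw [hα']
    have hl2 := hlead (s + 2) (by omega)
    rw [← hα] at hl2
    obtain ⟨φ, hφ⟩ : ∃ φ, φ = part (thmAU_T (b (s + 1))) (Ps (s + 1)) α := ⟨_, rfl⟩
    have hco : ∀ i, (Ps (s + 2)).coeff (α, i) = (Polynomial.taylor (ε (s + 1)) φ).coeff i := by
      intro i
      rw [hφ, show s + 2 = s + 1 + 1 from rfl, hPs1 (s + 1), hF2]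
    have hφ0 : φ ≠ 0 := by
      intro h0
      have h1 := hl2.mem
      rw [hco, h0, map_zero] at h1
      exact h1 (Polynomial.coeff_zero _)
    have hex : ∀ n, φ.coeff n ≠ 0 → (Ps (s + 1)).coeff (α - n • b (s + 1), n) ≠ 0 := by
      intro n hn
      rw [hφ] at hn
      obtain ⟨a2, j2, h3, h4⟩ := part_coeff_ne (thmAU_T (b (s + 1))) (Ps (s + 1))
        (hT0 (s + 1) (Ps (s + 1))) α n hn
      rw [thmAU_T_apply] at h4
      have h5 : a2 + (j2 : ℤ) • b (s + 1) = α := congrArg Prod.fst h4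
      have h6 : (j2 : ℤ) = (n : ℤ) := congrArg Prod.snd h4
      have h7 : j2 = n := by exact_mod_cast h6
      subst h7
      rw [natCast_zsmul] at h5
      rw [← h5, add_sub_cancel_right]
      exact h3
    have hdeg : φ.natDegree ≤ d := by
      have h1 := hex φ.natDegree (by
        rw [Polynomial.coeff_natDegree]
        exact Polynomial.leadingCoeff_ne_zero.2 hφ0)
      have h2 := (hlead (s + 1) (by omega)).max _ _ h1
      have e1 : nu x (a (s + 1) - a 0 + d • b (s + 1) - φ.natDegree • b (s + 1)) =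
          nu x (a (s + 1) - a 0) + (d : ℝ) * nu x (b (s + 1)) -
            (φ.natDegree : ℝ) * nu x (b (s + 1)) := by
        rw [map_sub, map_add, map_nsmul, map_nsmul, nsmul_eq_mul, nsmul_eq_mul]
      rw [norm_mon_le_iff hind, ← hα', e1] at h2
      have h3 := hnub (s + 1)
      have h4 : (φ.natDegree : ℝ) * nu x (b (s + 1)) ≤ (d : ℝ) * nu x (b (s + 1)) := by linarith
      have h5 := le_of_mul_le_mul_right h4 h3
      exact_mod_cast h5
    have hzero : ∀ i < d, (Polynomial.taylor (ε (s + 1)) φ).coeff i = 0 := by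
      intro i hi
      by_contra hne
      rw [← hco] at hne
      exact absurd (hl2.min i hne) (not_le.2 hi)
    obtain ⟨k1, -, -⟩ := taylor_eq_case (ε (s + 1)) (hε (s + 1)) φ hφ0 d hdeg hzero
    have h1 := hex 0 k1
    rwa [zero_smul, sub_zero] at h1
  · refine ⟨-Real.log ‖z'‖, fun s => ?_⟩
    have h6 := hγ (s + 1)
    rw [norm_mon_eq_exp x hxne] at h6
    have h7 := Real.log_le_log hγ0 h6
    rw [Real.log_exp] at h7
    linarith
  · right
    intro s m' hm'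
    obtain ⟨a', j, h6, h7, h8⟩ := hsup (s + 1) m'.1 m'.2 (Finsupp.mem_support_iff.1 hm')
    exact ⟨(a', j), Finsupp.mem_support_iff.2 h6, h7, h8⟩

private theorem thmAU_aux {k W : Type} [Field k] [PerfectField k] [NormedField W]
    [IsUltrametricDist W] [Algebra k W] {r m : ℕ} (hr : 0 < r) (hA : AmbG r m k W)
    (S L : IntermediateField k W) (hS : ∀ z : W, IsSeparable S z → z ∈ S)
    (hL : IsComplete (L : Set W)) {z : W} (h0 : z ≠ 0) (d : ℕ) : ∀ (c : Tri k W r)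
    (a0 : Fin r → ℤ), Ch m S L c → Ld (S ⊓ L) c z a0 d →
    ∃ c' : Tri k W r, RfS m S L c c' ∧ MoH (S ⊓ L) c' z := by
  classical
  induction d using Nat.strong_induction_on with
  | _ d ih =>
    intro c a00 hc hl0
    rcases Nat.eq_zero_or_pos d with rfl | hd
    · exact ⟨c, Relation.ReflTransGen.refl, (Ld.moH hc.ok hl0).1⟩
    by_contra hQ
    have hstep : ∀ s : {s : W × (Fin r → ℤ) // RfS m S L c ⟨c.C, c.x, s.1⟩ ∧
        Ld (S ⊓ L) (⟨c.C, c.x, s.1⟩ : Tri k W r) z s.2 d},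
        ∃ (s' : {s : W × (Fin r → ℤ) // RfS m S L c ⟨c.C, c.x, s.1⟩ ∧
          Ld (S ⊓ L) (⟨c.C, c.x, s.1⟩ : Tri k W r) z s.2 d}) (b : Fin r → ℤ) (ε : c.C),
        s'.1.2 = s.1.2 + d • b ∧ ε ≠ 0 ∧
        s.1.1 = mon c.x b * (algebraMap c.C W ε + s'.1.1) ∧ ‖mon c.x b‖ < 1 ∧
        StR m S L ⟨c.C, c.x, s.1.1⟩ ⟨c.C, c.x, s'.1.1⟩ := by
      rintro ⟨⟨y, a⟩, hR, hl⟩
      simp only at hR hl
      have hch : Ch m S L (⟨c.C, c.x, y⟩ : Tri k W r) := RfS.ch hc hR
      obtain ⟨c', e, B, w, g, T, hst, α, d', hl', hdd, hef⟩ :=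
        st_lead_HL hr hA S L hS hL hch hl
      have hR' : RfS m S L c c' := Relation.ReflTransGen.tail hR ⟨e, B, w, g, T, hst⟩
      have hge : d ≤ d' := by
        by_contra hlt
        rw [not_le] at hlt
        obtain ⟨c'', h1, h2⟩ := ih d' hlt c' α hst.ch' hl'
        exact hQ ⟨c'', Relation.ReflTransGen.trans hR' h1, h2⟩
      have hg1 : 0 < g.natDegree := hst.gi.natDegree_pos
      have he1 : 1 ≤ e := hst.e1
      have hen : e * g.natDegree = 1 := by
        have h1 : 1 ≤ e * g.natDegree := Nat.mul_pos he1 hg1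
        by_contra hne
        have h2 : 2 ≤ e * g.natDegree := by omega
        have h3 : d' * 2 ≤ d' * (e * g.natDegree) := Nat.mul_le_mul_left d' h2
        omega
      obtain ⟨hC, hx, hα⟩ := hef hen
      obtain ⟨he, hgn⟩ : e = 1 ∧ g.natDegree = 1 := mul_eq_one.1 hen
      have hd' : d' = d := by
        rw [hen, mul_one] at hdd
        omega
      subst hd'
      subst he
      obtain ⟨C', x', y'⟩ := c'
      change C' = c.C at hC
      change x' = c.x at hx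
      subst hC
      subst hx
      have hgX := hst.gm.eq_X_add_C hgn
      have hy' : y' = w + algebraMap c.C W (g.coeff 0) := by
        have h1 : y' = Polynomial.aeval w g := hst.hy
        rw [h1, hgX]
        simp
      have hw : y = mon c.x B * w := by
        have h1 := hst.hw
        rw [pow_one] at h1
        exact h1
      have hw1 : ‖w‖ = 1 := hst.w1
      have hy'1 : ‖y'‖ < 1 := hst.ch'.ok.par.y1
      have hy1 : ‖y‖ < 1 := hst.ch.ok.par.y1
      refine ⟨⟨(y', α), hR', hl'⟩, B, -(g.coeff 0), hα rfl, ?_, ?_, ?_, ⟨1, B, w, g, T, hst⟩⟩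
      · intro h1
        rw [neg_eq_zero] at h1
        rw [h1, map_zero, add_zero] at hy'
        rw [hy', hw1] at hy'1
        exact lt_irrefl _ hy'1
      · change y = mon c.x B * (algebraMap c.C W (-(g.coeff 0)) + y')
        rw [hy', hw, map_neg]
        ring
      · rw [hw, norm_mul, hw1, mul_one] at hy1
        exact hy1
    choose next b ε h1 h2 h3 h4 h5 using hstep
    obtain ⟨st, hst0, hsucc⟩ : ∃ st : ℕ → {s : W × (Fin r → ℤ) // RfS m S L c ⟨c.C, c.x, s.1⟩ ∧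
        Ld (S ⊓ L) (⟨c.C, c.x, s.1⟩ : Tri k W r) z s.2 d},
        st 0 = ⟨(c.y, a00), Relation.ReflTransGen.refl, hl0⟩ ∧ ∀ n, st (n + 1) = next (st n) :=
      ⟨fun n => next^[n] ⟨(c.y, a00), Relation.ReflTransGen.refl, hl0⟩, rfl,
        fun n => Function.iterate_succ_apply' _ _ _⟩
    have hch : ∀ n, Ch m S L (⟨c.C, c.x, (st n).1.1⟩ : Tri k W r) := fun n =>
      RfS.ch hc (st n).2.1
    have hSt : ∀ n, StR m S L ⟨c.C, c.x, (st n).1.1⟩ ⟨c.C, c.x, (st (n + 1)).1.1⟩ := by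
      intro n
      rw [hsucc]
      exact h5 (st n)
    have hchain : ∀ n, RfS m S L ⟨c.C, c.x, (st 1).1.1⟩ ⟨c.C, c.x, (st (n + 1)).1.1⟩ := by
      intro n
      induction n with
      | zero => exact Relation.ReflTransGen.refl
      | succ n ihn => exact Relation.ReflTransGen.tail ihn (hSt (n + 1))
    refine thmAU_run hr (M := S ⊓ L) (C := c.C) (x := c.x) (fun n => (st n).1.1)
      (fun n => (st n).1.2) (fun n => b (st n)) (fun n => ε (st n)) hd h0 (fun n => (hch n).ok)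
      (fun n => (st n).2.2) ?_ ?_ ?_ ?_ ?_ ?_
    · intro n
      rw [hsucc]
      exact h1 (st n)
    · intro n
      exact h2 (st n)
    · intro n
      rw [hsucc]
      exact h3 (st n)
    · intro n
      exact h4 (st n)
    · intro n hn h hh
      obtain ⟨n', rfl⟩ : ∃ n', n = n' + 1 := ⟨n - 1, by omega⟩
      exact RfS.HO_le hr (hch 0) (Relation.ReflTransGen.trans
        (Relation.ReflTransGen.single (hSt 0)) (hchain n')) hh
    · intro n hn
      obtain ⟨n', rfl⟩ : ∃ n', n = n' + 1 := ⟨n - 1, by omega⟩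
      exact RfS.y_moH hr (hSt 0) (hchain n')

/-- See the header. -/
theorem thmAU {k W : Type} [Field k] [PerfectField k] [NormedField W] [IsUltrametricDist W]
    [Algebra k W] {r m : ℕ} (hr : 0 < r) (hA : AmbG r m k W) (S L : IntermediateField k W)
    (hS : ∀ z : W, IsSeparable S z → z ∈ S) (hL : IsComplete (L : Set W)) {c : Tri k W r}
    (hc : Ch m S L c) {z : W} (hz : z ∈ HL (S ⊓ L) c) (h0 : z ≠ 0) :
    ∃ c' : Tri k W r, RfS m S L c c' ∧ MoH (S ⊓ L) c' z := by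
  obtain ⟨a, d, h⟩ := exists_Ld hr hc.ok hz h0
  exact thmAU_aux hr hA S L hS hL h0 d c a hc h

/-- See the header. -/
theorem thmAU_finset {k W : Type} [Field k] [PerfectField k] [NormedField W]
    [IsUltrametricDist W] [Algebra k W] {r m : ℕ} (hr : 0 < r) (hA : AmbG r m k W)
    (S L : IntermediateField k W) (hS : ∀ z : W, IsSeparable S z → z ∈ S)
    (hL : IsComplete (L : Set W)) {c : Tri k W r} (hc : Ch m S L c) (Z : Finset W)
    (hZ : ∀ z ∈ Z, z ≠ 0 ∧ ∃ n ∈ HL (S ⊓ L) c, ∃ d ∈ HL (S ⊓ L) c, d ≠ 0 ∧ z * d = n) :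
    ∃ c' : Tri k W r, RfS m S L c c' ∧ ∀ z ∈ Z, MoH (S ⊓ L) c' z := by
  classical
  induction Z using Finset.induction_on with
  | empty => exact ⟨c, Relation.ReflTransGen.refl, fun z hz => absurd hz (Finset.notMem_empty z)⟩
  | insert z Z _ ih =>
    obtain ⟨c1, hR1, hM1⟩ := ih fun w hw => hZ w (Finset.mem_insert_of_mem hw)
    obtain ⟨hz0, n, hn, d, hd, hd0, hnd⟩ := hZ z (Finset.mem_insert_self z Z)
    have hn0 : n ≠ 0 := by rw [← hnd]; exact mul_ne_zero hz0 hd0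
    have hc1 : Ch m S L c1 := RfS.ch hc hR1
    obtain ⟨c2, hR2, hM2⟩ := thmAU hr hA S L hS hL hc1 (RfS.HL_le hr hc hR1 hn) hn0
    have hc2 : Ch m S L c2 := RfS.ch hc1 hR2
    have hR12 : RfS m S L c c2 := Relation.ReflTransGen.trans hR1 hR2
    obtain ⟨c3, hR3, hM3⟩ := thmAU hr hA S L hS hL hc2 (RfS.HL_le hr hc hR12 hd) hd0
    have hc3 : Ch m S L c3 := RfS.ch hc2 hR3
    refine ⟨c3, Relation.ReflTransGen.trans hR12 hR3, fun w hw => ?_⟩
    rcases Finset.mem_insert.1 hw with hw | hw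
    · rw [hw]
      have h1 : z = n * d⁻¹ := by
        rw [← hnd]
        field_simp
      rw [h1]
      exact MoH.mul hc3.ok (RfS.moH hr hc2 hR3 hM2) (MoH.inv hc3.ok hM3)
    · exact RfS.moH hr hc2 hR3 (RfS.moH hr hc1 hR2 (hM1 w hw))

end Pool.Agent.Lib.TU
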